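import Pool.Agent.Lib.QIP.Env

/-!
# Auxiliary lemmas for the assembly: summability, the law of the configuration
-/

set_option autoImplicit false

open MeasureTheory ProbabilityTheory Filter
open scoped ENNReal NNReal Topology BigOperators

namespace Pool.Agent.Lib.QIP

theorem summable_one_add_abs {s : ℝ} (hs : 1 < s) :
    Summable (fun k : ℤ => (1 + |(k : ℝ)|) ^ (-s)) := by
  have h1 := Real.summable_abs_int_rpow hs
  have h2 : Summable (fun k : ℤ => if k = 0 then (1 : ℝ) else 0) := by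
    apply summable_of_hasFiniteSupport
    refine (Set.finite_singleton (0 : ℤ)).subset ?_
    intro k hk
    by_contra hcon
    exact hk (if_neg hcon)
  refine Summable.of_nonneg_of_le (fun k => by positivity) ?_ (h1.add h2)
  intro k
  by_cases hk : k = 0
  · subst hk
    simp [Real.zero_rpow (show (-s) ≠ 0 by linarith)]
  · rw [if_neg hk, add_zero]
    have hpos : 0 < |(k : ℝ)| := abs_pos.2 (by exact_mod_cast hk)
    exact Real.rpow_le_rpow_of_nonpos hpos (by linarith) (by linarith)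

theorem summable_n1 {d : ℕ} (hd : 0 < d) {e : ℝ} (he : 0 < e) :
    Summable (fun x : V d => ((n1 x : ℤ) : ℝ) ^ (-(d : ℝ) - e)) := by
  classical
  have hd' : (0 : ℝ) < d := by exact_mod_cast hd
  have hs1 : 1 < 1 + e / d := by
    have := div_pos he hd'
    linarith
  have hf := summable_one_add_abs hs1
  have hf0 : ∀ k : ℤ, 0 ≤ (1 + |(k : ℝ)|) ^ (-(1 + e / d)) := fun k => by positivity
  have hprod : Summable (fun x : V d => ∏ i, (1 + |(x i : ℝ)|) ^ (-(1 + e / d))) := by
    apply summable_of_sum_le (c := (∑' k : ℤ, (1 + |(k : ℝ)|) ^ (-(1 + e / d))) ^ d)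
      (fun x => Finset.prod_nonneg fun i _ => hf0 _)
    intro u
    have hsub : u ⊆ Fintype.piFinset (fun i => u.image (fun x : V d => x i)) := by
      intro x hx
      rw [Fintype.mem_piFinset]
      intro i
      exact Finset.mem_image_of_mem _ hx
    calc ∑ x ∈ u, ∏ i, (1 + |(x i : ℝ)|) ^ (-(1 + e / d))
        ≤ ∑ x ∈ Fintype.piFinset (fun i => u.image (fun x : V d => x i)),
            ∏ i, (1 + |(x i : ℝ)|) ^ (-(1 + e / d)) :=
          Finset.sum_le_sum_of_subset_of_nonneg hsub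
            (fun x _ _ => Finset.prod_nonneg fun i _ => hf0 _)
      _ = ∏ i : Fin d, ∑ k ∈ u.image (fun x : V d => x i), (1 + |(k : ℝ)|) ^ (-(1 + e / d)) :=
          (Finset.prod_univ_sum (fun i => u.image (fun x : V d => x i))
            (fun _ (k : ℤ) => (1 + |(k : ℝ)|) ^ (-(1 + e / d)))).symm
      _ ≤ ∏ _i : Fin d, ∑' k : ℤ, (1 + |(k : ℝ)|) ^ (-(1 + e / d)) :=
          Finset.prod_le_prod (fun i _ => Finset.sum_nonneg fun k _ => hf0 k)
            (fun i _ => hf.sum_le_tsum _ (fun k _ => hf0 k))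
      _ = _ := by simp
  refine Summable.of_nonneg_of_le (fun x => ?_) ?_ (hprod.mul_left ((2 : ℝ) ^ ((d : ℝ) + e)))
  · exact Real.rpow_nonneg (by exact_mod_cast n1_nonneg x) _
  intro x
  by_cases hx : x = 0
  · subst hx
    have h0 : n1 (0 : V d) = 0 := by simp [n1]
    rw [h0, Int.cast_zero, Real.zero_rpow (by linarith)]
    exact mul_nonneg (by positivity) (Finset.prod_nonneg fun i _ => hf0 _)
  · have h1 : (1 : ℝ) ≤ n1 x := by exact_mod_cast one_le_n1 hx
    have h2 : ∀ i, 1 + |(x i : ℝ)| ≤ 2 * n1 x := by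
      intro i
      have h3 : |x i| ≤ n1 x := Finset.single_le_sum (f := fun i => |x i|)
        (fun i _ => abs_nonneg _) (Finset.mem_univ i)
      have h4 : |(x i : ℝ)| ≤ n1 x := by
        rw [← Int.cast_abs]
        exact_mod_cast h3
      linarith
    have h3 : ∏ _i : Fin d, (2 * (n1 x : ℝ)) ^ (-(1 + e / d)) ≤
        ∏ i, (1 + |(x i : ℝ)|) ^ (-(1 + e / d)) := by
      apply Finset.prod_le_prod (fun i _ => by positivity)
      intro i _
      exact Real.rpow_le_rpow_of_nonpos (by positivity) (h2 i) (by linarith)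
    have h4 : ∏ _i : Fin d, (2 * (n1 x : ℝ)) ^ (-(1 + e / d)) =
        (2 : ℝ) ^ (-((d : ℝ) + e)) * (n1 x : ℝ) ^ (-(d : ℝ) - e) := by
      rw [Finset.prod_const, Finset.card_univ, Fintype.card_fin, ← Real.rpow_mul_natCast (by positivity),
        Real.mul_rpow (by norm_num) (by positivity)]
      congr 2
      · field_simp
      · field_simp
        ring
    rw [h4] at h3
    have h5 : (2 : ℝ) ^ ((d : ℝ) + e) * (2 : ℝ) ^ (-((d : ℝ) + e)) = 1 := by
      rw [← Real.rpow_add (by norm_num)]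
      simp
    calc (n1 x : ℝ) ^ (-(d : ℝ) - e) = (2 : ℝ) ^ ((d : ℝ) + e) *
          ((2 : ℝ) ^ (-((d : ℝ) + e)) * (n1 x : ℝ) ^ (-(d : ℝ) - e)) := by
          rw [← mul_assoc, h5, one_mul]
      _ ≤ _ := mul_le_mul_of_nonneg_left h3 (by positivity)

theorem summable_of_decay {d : ℕ} (hd : 0 < d) {α : ℝ} (hα : (d : ℝ) + 2 < α) {p : V d → ℝ}
    (hp : ∀ x, 0 ≤ p x ∧ p x ≤ 1)
    (h : ∀ ε : ℝ, 0 < ε → ∃ R : ℝ, ∀ x : V d, R ≤ ((n1 x : ℤ) : ℝ) →
      ((n1 x : ℤ) : ℝ) ^ (-α - ε) ≤ p x ∧ p x ≤ ((n1 x : ℤ) : ℝ) ^ (-α + ε)) :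
    Summable (fun x => (n1 x : ℝ) ^ 2 * p x) := by
  set ε : ℝ := (α - d - 2) / 2 with hε
  have hε0 : 0 < ε := by
    rw [hε]
    linarith
  obtain ⟨R, hR⟩ := h ε hε0
  have hs := (summable_n1 hd hε0).mul_left (1 + (max R 1) ^ ((d : ℝ) + ε + 2))
  refine Summable.of_nonneg_of_le (fun x => mul_nonneg (sq_nonneg _) (hp x).1) ?_ hs
  intro x
  by_cases hx : x = 0
  · subst hx
    have h0 : n1 (0 : V d) = 0 := by simp [n1]
    rw [h0, Int.cast_zero, Real.zero_rpow (by
      have : (0 : ℝ) < d := by exact_mod_cast hd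
      linarith)]
    simp
  · have h1 : (1 : ℝ) ≤ n1 x := by exact_mod_cast one_le_n1 hx
    have hpos : (0 : ℝ) < n1 x := by linarith
    have hM0 : 0 ≤ (max R 1) ^ ((d : ℝ) + ε + 2) := by positivity
    have hn0 : 0 ≤ (n1 x : ℝ) ^ (-(d : ℝ) - ε) := by positivity
    rcases le_or_gt R (n1 x : ℝ) with hle | hlt
    · have h2 := (hR x hle).2
      have h3 : (n1 x : ℝ) ^ 2 * p x ≤ (n1 x : ℝ) ^ 2 * (n1 x : ℝ) ^ (-α + ε) :=
        mul_le_mul_of_nonneg_left h2 (sq_nonneg _)
      have h4 : (n1 x : ℝ) ^ 2 * (n1 x : ℝ) ^ (-α + ε) = (n1 x : ℝ) ^ (-(d : ℝ) - ε) := by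
        rw [← Real.rpow_natCast, ← Real.rpow_add hpos]
        congr 1
        rw [hε]
        push_cast
        ring
      rw [h4] at h3
      nlinarith
    · have h2 : (n1 x : ℝ) ≤ max R 1 := hlt.le.trans (le_max_left _ _)
      have h3 : (n1 x : ℝ) ^ 2 * p x ≤ (n1 x : ℝ) ^ 2 :=
        mul_le_of_le_one_right (sq_nonneg _) (hp x).2
      have h4 : (n1 x : ℝ) ^ 2 = (n1 x : ℝ) ^ ((d : ℝ) + ε + 2) * (n1 x : ℝ) ^ (-(d : ℝ) - ε) := by
        rw [← Real.rpow_natCast, ← Real.rpow_add hpos]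
        congr 1
        push_cast
        ring
      have h5 : (n1 x : ℝ) ^ ((d : ℝ) + ε + 2) ≤ (max R 1) ^ ((d : ℝ) + ε + 2) :=
        Real.rpow_le_rpow hpos.le h2 (by positivity)
      have h6 := mul_le_mul_of_nonneg_right h5 hn0
      have h7 : (n1 x : ℝ) ^ 2 * p x ≤
          (max R 1) ^ ((d : ℝ) + ε + 2) * (n1 x : ℝ) ^ (-(d : ℝ) - ε) := by
        linarith
      linarith

open Classical in
/-- The configuration of the given family, with closed loops. -/
noncomputable def etaOf {d : ℕ} {Ω : Type} (ξ : Sym2 (V d) → Ω → Bool) (ω : Ω) : Env d :=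
  fun e => if e.IsDiag then false else ξ e ω

theorem measurable_etaOf {d : ℕ} {Ω : Type} [MeasurableSpace Ω] {ξ : Sym2 (V d) → Ω → Bool}
    (hm : ∀ e, Measurable (ξ e)) : Measurable (etaOf ξ) := by
  classical
  rw [measurable_pi_iff]
  intro e
  unfold etaOf
  by_cases he : e.IsDiag
  · simp only [if_pos he]
    exact measurable_const
  · simp only [if_neg he]
    exact hm e

theorem bool_measure_ext {μ ν : Measure Bool} (h1 : μ {true} = ν {true})
    (h2 : μ {false} = ν {false}) : μ = ν := by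
  refine Measure.ext_of_singleton ?_
  intro b
  cases b
  · exact h2
  · exact h1

theorem law_etaOf {d : ℕ} (m : Model d) {Ω : Type} [MeasurableSpace Ω] (P : Measure Ω)
    [IsProbabilityMeasure P] {ξ : Sym2 (V d) → Ω → Bool}
    (hm : ∀ e, Measurable (ξ e)) (hind : iIndepFun ξ P)
    (hξ : ∀ x y : V d, x ≠ y → P {ω | ξ s(x, y) ω = true} = ENNReal.ofReal (m.p (y - x))) :
    P.map (etaOf ξ) = m.μ := by
  classical
  have hind2 : iIndepFun (fun e => (fun b : Bool => if e.IsDiag then false else b) ∘ ξ e) P :=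
    hind.comp (fun e => fun b : Bool => if e.IsDiag then false else b)
      (fun e => measurable_of_countable _)
  have hm2 : ∀ e, Measurable ((fun b : Bool => if e.IsDiag then false else b) ∘ ξ e) :=
    fun e => (measurable_of_countable _).comp (hm e)
  have h1 := (iIndepFun_iff_map_fun_eq_infinitePi_map hm2).1 hind2
  have h2 : (fun ω e => ((fun b : Bool => if e.IsDiag then false else b) ∘ ξ e) ω) = etaOf ξ := by
    funext ω e
    rfl
  rw [h2] at h1
  rw [h1]
  unfold Model.μ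
  congr 1
  funext e
  induction e using Sym2.ind with
  | _ x y =>
    by_cases hxy : x = y
    · subst hxy
      have h3 : ((fun b : Bool => if (s(x, x) : Sym2 (V d)).IsDiag then false else b) ∘ ξ s(x, x)) =
          fun _ => false := by
        funext ω
        simp
      rw [h3, Measure.map_const, measure_univ, one_smul, Model.pe_mk, sub_self, m.zero]
      unfold bern
      simp
    · have h3 : ((fun b : Bool => if (s(x, y) : Sym2 (V d)).IsDiag then false else b) ∘ ξ s(x, y)) =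
          ξ s(x, y) := by
        funext ω
        simp [hxy]
      rw [h3, Model.pe_mk]
      have h4 : P.map (ξ s(x, y)) {true} = ENNReal.ofReal (m.p (y - x)) := by
        rw [Measure.map_apply (hm _) (measurableSet_singleton _)]
        exact hξ x y hxy
      have hpr : IsProbabilityMeasure (P.map (ξ s(x, y))) :=
        Measure.isProbabilityMeasure_map (hm _).aemeasurable
      have h5 : P.map (ξ s(x, y)) {false} = ENNReal.ofReal (1 - m.p (y - x)) := by
        have h6 : ({false} : Set Bool) = {true}ᶜ := by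
          ext b
          cases b <;> simp
        rw [h6, prob_compl_eq_one_sub (measurableSet_singleton _), h4,
          ENNReal.ofReal_sub _ (m.nonneg _), ENNReal.ofReal_one]
      apply bool_measure_ext
      · rw [h4, bern_true]
      · rw [h5, bern_false]

theorem etaOf_iff {d : ℕ} {Ω : Type} (ξ : Sym2 (V d) → Ω → Bool) (ω : Ω) (x y : V d) :
    (y ≠ x ∧ etaOf ξ ω s(x, y) = true) ↔ (y ≠ x ∧ ξ s(x, y) ω = true) := by
  classical
  constructor
  · rintro ⟨h1, h2⟩
    refine ⟨h1, ?_⟩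
    have h3 : ¬ (s(x, y) : Sym2 (V d)).IsDiag := by
      simp [h1.symm]
    unfold etaOf at h2
    rwa [if_neg h3] at h2
  · rintro ⟨h1, h2⟩
    refine ⟨h1, ?_⟩
    have h3 : ¬ (s(x, y) : Sym2 (V d)).IsDiag := by
      simp [h1.symm]
    unfold etaOf
    rwa [if_neg h3]

open Classical in
theorem c_etaOf {d : ℕ} {Ω : Type} {ξ : Sym2 (V d) → Ω → Bool} {ω : Ω}
    (h : Good (etaOf ξ ω)) (x y : V d) : (cond (etaOf ξ ω)).c x y =
    if x ≠ y ∧ ξ s(x, y) ω = true then 1 else 0 := by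
  rw [cond_c_of_good h]
  by_cases h1 : y ≠ x ∧ etaOf ξ ω s(x, y) = true
  · rw [if_pos h1, if_pos ⟨h1.1.symm, ((etaOf_iff ξ ω x y).1 h1).2⟩]
  · rw [if_neg h1, if_neg]
    rintro ⟨h2, h3⟩
    exact h1 ((etaOf_iff ξ ω x y).2 ⟨h2.symm, h3⟩)

theorem deg_etaOf {d : ℕ} {Ω : Type} {ξ : Sym2 (V d) → Ω → Bool} {ω : Ω}
    (h : Good (etaOf ξ ω)) (x : V d) : (cond (etaOf ξ ω)).deg x =
    (({y : V d | y ≠ x ∧ ξ s(x, y) ω = true}.ncard : ℕ) : ℝ) := by
  classical
  have hfin : {y : V d | y ≠ x ∧ ξ s(x, y) ω = true}.Finite := by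
    refine (h.1 x).subset ?_
    intro y hy
    exact (etaOf_iff ξ ω x y).2 hy
  unfold Cond.deg
  have h1 : ∀ y, (cond (etaOf ξ ω)).c x y =
      Set.indicator {y : V d | y ≠ x ∧ ξ s(x, y) ω = true} (fun _ => (1 : ℝ)) y := by
    intro y
    rw [c_etaOf h]
    by_cases h2 : x ≠ y ∧ ξ s(x, y) ω = true
    · rw [if_pos h2, Set.indicator_of_mem]
      exact ⟨h2.1.symm, h2.2⟩
    · rw [if_neg h2, Set.indicator_of_notMem]
      rintro ⟨h3, h4⟩
      exact h2 ⟨h3.symm, h4⟩
  simp_rw [h1]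
  rw [Set.ncard_eq_toFinset_card _ hfin, tsum_eq_sum (s := hfin.toFinset)]
  · rw [Finset.sum_congr rfl (fun y hy => Set.indicator_of_mem (hfin.mem_toFinset.1 hy) _)]
    simp
  · intro y hy
    apply Set.indicator_of_notMem
    intro hcon
    exact hy (hfin.mem_toFinset.2 hcon)

end Pool.Agent.Lib.QIP
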