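import Pool.Agent.Lib.QIP.Fields

/-!
# Almost sure goodness and moments of the degree
-/

set_option autoImplicit false

open MeasureTheory ProbabilityTheory Filter
open scoped ENNReal NNReal Topology BigOperators

namespace Pool.Agent.Lib.QIP

variable {d : ℕ}

namespace Model

variable (m : Model d)

theorem μ_open (x y : V d) : m.μ {ω | ω s(x, y) = true} = ENNReal.ofReal (m.p (y - x)) := by
  have h := Measure.infinitePi_map_eval (μ := fun e => bern (m.pe e)) s(x, y)
  have h2 : m.μ {ω | ω s(x, y) = true} = (m.μ.map (fun ω => ω s(x, y))) {true} := by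
    rw [Measure.map_apply (measurable_pi_apply _) (measurableSet_singleton _)]
    rfl
  rw [h2]
  unfold μ
  have h3 : (Measure.infinitePi fun e => bern (m.pe e)).map (fun ω => ω s(x, y)) =
      bern (m.pe s(x, y)) := h
  rw [h3, bern_true, pe_mk]

theorem ms_open (x y : V d) : MeasurableSet {ω : Env d | ω s(x, y) = true} := by
  have h : Measurable (fun ω : Env d => ω s(x, y)) := measurable_pi_apply _
  exact h (measurableSet_singleton true)

theorem ae_good : ∀ᵐ ω ∂m.μ, Good ω := by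
  have h1 : ∀ᵐ ω ∂m.μ, ∀ x, {y | y ≠ x ∧ ω s(x, y) = true}.Finite := by
    rw [ae_all_iff]
    intro x
    have hsum : ∑' y, m.μ {ω | ω s(x, y) = true} ≠ ⊤ := by
      simp_rw [m.μ_open]
      have : (∑' y, ENNReal.ofReal (m.p (y - x))) = ∑' y, ENNReal.ofReal (m.p y) :=
        (Equiv.subRight x).tsum_eq (fun y => ENNReal.ofReal (m.p y))
      rw [this, ← ENNReal.ofReal_tsum_of_nonneg m.nonneg m.summable_p]
      exact ENNReal.ofReal_ne_top
    have h2 := ae_finite_setOfPred_mem hsum
    filter_upwards [h2] with ω hω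
    refine hω.subset ?_
    rintro y ⟨_, hy⟩
    exact hy
  have h2 : ∀ᵐ ω ∂m.μ, ∀ x y, n1 (y - x) = 1 → ω s(x, y) = true := by
    rw [ae_all_iff]
    intro x
    rw [ae_all_iff]
    intro y
    by_cases hn : n1 (y - x) = 1
    · have h3 : m.μ {ω | ω s(x, y) = true} = 1 := by
        rw [m.μ_open, m.nn _ hn, ENNReal.ofReal_one]
      have hms : MeasurableSet {ω : Env d | ω s(x, y) = true} := ms_open x y
      have h4 : ∀ᵐ ω ∂m.μ, ω ∈ {ω : Env d | ω s(x, y) = true} :=
        (mem_ae_iff_prob_eq_one hms).2 h3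
      filter_upwards [h4] with ω hω _
      exact hω
    · exact Eventually.of_forall fun ω h => absurd h hn
  filter_upwards [h1, h2] with ω h3 h4
  exact ⟨h3, h4⟩

theorem ae_c (x y : V d) : ∀ᵐ ω ∂m.μ, ENNReal.ofReal ((cond ω).c x y) =
    if y = x then 0 else Set.indicator {ω : Env d | ω s(x, y) = true} 1 ω := by
  classical
  filter_upwards [m.ae_good] with ω hω
  rw [cond_c_of_good hω]
  by_cases hyx : y = x
  · simp [hyx]
  · rw [if_neg hyx]
    by_cases ho : ω s(x, y) = true
    · simp [hyx, ho]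
    · simp [hyx, ho]

theorem lint_c (x y : V d) : ∫⁻ ω, ENNReal.ofReal ((cond ω).c x y) ∂m.μ =
    ENNReal.ofReal (m.p (y - x)) := by
  rw [lintegral_congr_ae (m.ae_c x y)]
  by_cases hyx : y = x
  · subst hyx
    simp [m.zero]
  · simp only [hyx, if_false]
    rw [lintegral_indicator_one (ms_open x y), m.μ_open]

/-- The mean degree. -/
noncomputable def κ : ℝ := ∑' x, m.p x

theorem κ_nonneg : 0 ≤ m.κ := tsum_nonneg m.nonneg

theorem ofReal_κ : ENNReal.ofReal m.κ = ∑' x, ENNReal.ofReal (m.p x) :=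
  ENNReal.ofReal_tsum_of_nonneg m.nonneg m.summable_p

theorem ofReal_deg (ω : Env d) (x : V d) : ENNReal.ofReal ((cond ω).deg x) =
    ∑' y, ENNReal.ofReal ((cond ω).c x y) :=
  ENNReal.ofReal_tsum_of_nonneg ((cond ω).nonneg x) ((cond ω).summable_c x)

theorem lint_deg (x : V d) : ∫⁻ ω, ENNReal.ofReal ((cond ω).deg x) ∂m.μ = ENNReal.ofReal m.κ := by
  simp_rw [ofReal_deg]
  rw [lintegral_tsum (fun y => (measurable_c x y).ennreal_ofReal.aemeasurable)]
  simp_rw [m.lint_c]
  rw [m.ofReal_κ]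
  exact (Equiv.subRight x).tsum_eq (fun y => ENNReal.ofReal (m.p y))

theorem lint_cc (x y z : V d) (hyz : y ≠ z) :
    ∫⁻ ω, ENNReal.ofReal ((cond ω).c x y) * ENNReal.ofReal ((cond ω).c x z) ∂m.μ ≤
      ENNReal.ofReal (m.p (y - x)) * ENNReal.ofReal (m.p (z - x)) := by
  classical
  have hne : s(x, y) ≠ s(x, z) := by
    intro h
    rw [Sym2.eq_iff] at h
    rcases h with ⟨_, h⟩ | ⟨h1, h2⟩
    · exact hyz h
    · exact hyz (h2.trans h1)
  have h1 : ∀ᵐ ω ∂m.μ, ENNReal.ofReal ((cond ω).c x y) * ENNReal.ofReal ((cond ω).c x z) ≤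
      Set.indicator (Set.pi (({s(x, y), s(x, z)} : Finset (Sym2 (V d))) : Set (Sym2 (V d)))
        (fun _ => {true})) 1 ω := by
    filter_upwards [m.ae_c x y, m.ae_c x z] with ω h1 h2
    rw [h1, h2]
    by_cases hyx : y = x
    · simp [hyx]
    · by_cases hzx : z = x
      · simp [hzx]
      · simp only [hyx, hzx, if_false]
        by_cases ho1 : ω s(x, y) = true
        · by_cases ho2 : ω s(x, z) = true
          · simp [ho1, ho2, Set.indicator]
          · simp [ho2]
        · simp [ho1]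
  refine (lintegral_mono_ae h1).trans ?_
  rw [lintegral_indicator_one (MeasurableSet.pi (Finset.countable_toSet _)
    (fun _ _ => measurableSet_singleton _))]
  unfold μ
  rw [Measure.infinitePi_pi _ (fun _ _ => measurableSet_singleton _), Finset.prod_pair hne,
    bern_true, bern_true, pe_mk, pe_mk]

theorem lint_deg_sq (x : V d) : ∫⁻ ω, ENNReal.ofReal ((cond ω).deg x) ^ 2 ∂m.μ ≤
    ENNReal.ofReal (m.κ + m.κ ^ 2) := by
  have h1 : ∀ ω : Env d, ENNReal.ofReal ((cond ω).deg x) ^ 2 =
      ∑' y, ∑' z, ENNReal.ofReal ((cond ω).c x y) * ENNReal.ofReal ((cond ω).c x z) := by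
    intro ω
    rw [sq, ofReal_deg, ← ENNReal.tsum_mul_right]
    congr 1
    ext y
    rw [← ENNReal.tsum_mul_left]
  simp_rw [h1]
  have hmyz : ∀ y z : V d, Measurable (fun ω : Env d =>
      ENNReal.ofReal ((cond ω).c x y) * ENNReal.ofReal ((cond ω).c x z)) := fun y z =>
    (measurable_c x y).ennreal_ofReal.mul (measurable_c x z).ennreal_ofReal
  rw [lintegral_tsum (fun y => (Measurable.ennreal_tsum (hmyz y)).aemeasurable)]
  have h2 : ∀ y, ∫⁻ ω, ∑' z, ENNReal.ofReal ((cond ω).c x y) * ENNReal.ofReal ((cond ω).c x z) ∂m.μ ≤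
      ENNReal.ofReal (m.p (y - x)) + ENNReal.ofReal (m.p (y - x)) * ENNReal.ofReal m.κ := by
    intro y
    rw [lintegral_tsum (fun z => (hmyz y z).aemeasurable)]
    have h3 : ∀ z, ∫⁻ ω, ENNReal.ofReal ((cond ω).c x y) * ENNReal.ofReal ((cond ω).c x z) ∂m.μ ≤
        (if z = y then ENNReal.ofReal (m.p (y - x)) else 0) +
          ENNReal.ofReal (m.p (y - x)) * ENNReal.ofReal (m.p (z - x)) := by
      intro z
      by_cases hzy : z = y
      · subst hzy
        rw [if_pos rfl]
        refine le_trans ?_ le_self_add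
        rw [← m.lint_c x z]
        apply lintegral_mono_ae
        filter_upwards [m.ae_c x z] with ω h1
        rw [h1]
        by_cases hyx : z = x
        · simp [hyx]
        · simp only [hyx, if_false]
          by_cases ho1 : ω s(x, z) = true
          · simp [ho1]
          · simp [ho1]
      · rw [if_neg hzy, zero_add]
        exact m.lint_cc x y z (Ne.symm hzy)
    refine (ENNReal.tsum_le_tsum h3).trans ?_
    rw [ENNReal.tsum_add, tsum_ite_eq, ENNReal.tsum_mul_left]
    refine add_le_add le_rfl (mul_le_mul_right (le_of_eq ?_) _)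
    rw [m.ofReal_κ]
    exact (Equiv.subRight x).tsum_eq (fun y => ENNReal.ofReal (m.p y))
  refine (ENNReal.tsum_le_tsum h2).trans ?_
  have h4 : ∑' y, ENNReal.ofReal (m.p (y - x)) = ENNReal.ofReal m.κ := by
    rw [m.ofReal_κ]
    exact (Equiv.subRight x).tsum_eq (fun y => ENNReal.ofReal (m.p y))
  rw [ENNReal.tsum_add, ENNReal.tsum_mul_right, h4, ← ENNReal.ofReal_mul m.κ_nonneg,
    ← ENNReal.ofReal_add m.κ_nonneg (mul_nonneg m.κ_nonneg m.κ_nonneg), sq]

/-- The second moment of a jump. -/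
noncomputable def M2 : ℝ := ∑' x, (n1 x : ℝ) ^ 2 * m.p x

theorem M2_nonneg : 0 ≤ m.M2 := tsum_nonneg fun x => mul_nonneg (sq_nonneg _) (m.nonneg x)

theorem κ_pos (hd : 0 < d) : 0 < m.κ := by
  have h := m.summable_p.le_tsum (ee ⟨0, hd⟩) (fun j _ => m.nonneg j)
  rw [m.nn _ (Cond.n1_ee _)] at h
  exact lt_of_lt_of_le one_pos h

end Model

end Pool.Agent.Lib.QIP
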