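import Pool.Agent.Lib.QIP.Corr

/-!
# Tools for the annealed limit
-/

set_option autoImplicit false

open MeasureTheory ProbabilityTheory Filter
open scoped ENNReal NNReal Topology BigOperators

namespace Pool.Agent.Lib.QIP

variable {d : ℕ}

theorem int_rho {E : Type*} [NormedAddCommGroup E] [NormedSpace ℝ E] [CompleteSpace E]
    (m : Model d) {F : Env d × V d → E} (hF : Integrable F (rho m)) :
    ∫ q, F q ∂(rho m) = ∫ ω, ∑' y, (cond ω).c 0 y • F (ω, y) ∂m.μ := by
  have hlt : ∀ᵐ q ∂(m.μ.prod (Measure.count : Measure (V d))), cden q < ⊤ :=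
    Eventually.of_forall fun q => ENNReal.ofReal_lt_top
  have h1 : Integrable (fun q => (cden q).toReal • F q) (m.μ.prod (Measure.count : Measure (V d))) := by
    unfold rho at hF
    exact (integrable_withDensity_iff_integrable_smul' measurable_cden hlt).1 hF
  unfold rho
  rw [integral_withDensity_eq_integral_toReal_smul measurable_cden hlt,
    integral_prod _ h1]
  congr 1
  ext ω
  have h2 : ∀ y, (cden (ω, y)).toReal • F (ω, y) = (cond ω).c 0 y • F (ω, y) := by
    intro y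
    unfold cden
    rw [ENNReal.toReal_ofReal ((cond ω).nonneg _ _)]
  simp only [h2]
  rw [integral_countable]
  · congr 1
    ext y
    simp [Measure.real]
  · rw [integrable_count_iff]
    apply summable_of_hasFiniteSupport
    refine ((cond ω).hfs_smul (fun y => F (ω, y)) 0).subset ?_
    intro y hy
    simpa using hy

/-- If the inner sums agree, the integrals agree. -/
theorem int_rho_congr {E : Type*} [NormedAddCommGroup E] [NormedSpace ℝ E] [CompleteSpace E]
    (m : Model d) {F G : Env d × V d → E} (hF : Integrable F (rho m)) (hG : Integrable G (rho m))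
    (h : ∀ ω, ∑' y, (cond ω).c 0 y • F (ω, y) = ∑' y, (cond ω).c 0 y • G (ω, y)) :
    ∫ q, F q ∂(rho m) = ∫ q, G q ∂(rho m) := by
  rw [int_rho m hF, int_rho m hG]
  simp_rw [h]

theorem integrable_bdd (m : Model d) {F : Env d × V d → ℂ} (hF : Measurable F) {M : ℝ}
    (hM : ∀ q, ‖F q‖ ≤ M) : Integrable F (rho m) :=
  Integrable.of_bound hF.aestronglyMeasurable M (Eventually.of_forall hM)

/-- The resolvent of a character at the origin. -/
noncomputable def Uf (lam : ℝ) (ξ : Fin d → ℝ) (ω : Env d) : ℂ :=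
  (cond ω).res Set.univ lam (chr ξ) 0

theorem measurable_Uf (hd : 0 < d) {lam : ℝ} (hl : 0 < lam) (ξ : Fin d → ℝ) :
    Measurable (Uf lam ξ) := meas_U hd hl ξ 0

theorem norm_Uf_le (hd : 0 < d) {lam : ℝ} (hl : 0 < lam) (ξ : Fin d → ℝ) (ω : Env d) :
    ‖Uf lam ξ ω‖ ≤ 1 := (cond ω).norm_res_le hd _ hl (norm_chr_le ξ) 0

theorem res_eq_Uf (lam : ℝ) (ξ : Fin d → ℝ) (ω : Env d) (y : V d) :
    (cond ω).res Set.univ lam (chr ξ) y = chr ξ y * Uf lam ξ (shift y ω) := by
  have h := res_chr_shift ξ y ω lam 0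
  rw [zero_add] at h
  exact h

theorem meas_fst {γ : Type*} [MeasurableSpace γ] {f : Env d → γ} (hf : Measurable f) :
    Measurable (fun q : Env d × V d => f q.1) := hf.comp measurable_fst

theorem meas_sh {γ : Type*} [MeasurableSpace γ] {f : Env d → γ} (hf : Measurable f) :
    Measurable (fun q : Env d × V d => f (shift q.2 q.1)) :=
  meas_prod fun y => hf.comp (measurable_shift y)

/-- The weak form of the resolvent equation. -/
theorem test_identity (m : Model d) (hd : 0 < d) {lam : ℝ} (hl : 0 < lam) (ξ : Fin d → ℝ)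
    {T : Env d → ℂ} (hT : Measurable T) {M : ℝ} (hM : ∀ ω, ‖T ω‖ ≤ M) :
    ∫ q, Uf lam ξ q.1 * ((1 + lam) * T q.1 - chr ξ (-q.2) * T (shift q.2 q.1)) ∂(rho m) =
      lam * ∫ q, T q.1 ∂(rho m) := by
  have hU := measurable_Uf hd hl ξ
  have hU1 := norm_Uf_le hd hl ξ
  have hM0 : 0 ≤ M := (norm_nonneg _).trans (hM (fun _ => true))
  have hchr : ∀ s : V d → V d, Measurable (fun q : Env d × V d => chr ξ (s q.2)) :=
    fun s => measurable_snd_fun (fun y => chr ξ (s y))
  -- first: identity before the flip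
  have i1 : Integrable (fun q : Env d × V d => Uf lam ξ q.1 * ((1 + lam) * T q.1)) (rho m) := by
    refine integrable_bdd m ((meas_fst hU).mul ((meas_fst hT).const_mul _)) (M := 1 * ((1 + lam) * M))
      (fun q => ?_)
    rw [norm_mul, norm_mul]
    have : ‖(1 + (lam : ℂ))‖ = 1 + lam := by
      rw [← Complex.ofReal_one, ← Complex.ofReal_add, Complex.norm_real, Real.norm_of_nonneg (by positivity)]
    rw [this]
    exact mul_le_mul (hU1 _) (mul_le_mul_of_nonneg_left (hM _) (by positivity)) (by positivity) (by norm_num)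
  have i2 : Integrable (fun q : Env d × V d => chr ξ q.2 * Uf lam ξ (shift q.2 q.1) * T q.1) (rho m) := by
    refine integrable_bdd m (((hchr id).mul (meas_sh hU)).mul (meas_fst hT)) (M := 1 * 1 * M)
      (fun q => ?_)
    rw [norm_mul, norm_mul, norm_chr]
    exact mul_le_mul (mul_le_mul le_rfl (hU1 _) (norm_nonneg _) zero_le_one) (hM _) (norm_nonneg _)
      (by norm_num)
  have i3 : Integrable (fun q : Env d × V d => (lam : ℂ) * T q.1) (rho m) := by
    refine integrable_bdd m ((meas_fst hT).const_mul _) (M := lam * M) (fun q => ?_)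
    rw [norm_mul, Complex.norm_real, Real.norm_of_nonneg hl.le]
    exact mul_le_mul_of_nonneg_left (hM _) hl.le
  have h1 : ∫ q, (Uf lam ξ q.1 * ((1 + lam) * T q.1) -
      chr ξ q.2 * Uf lam ξ (shift q.2 q.1) * T q.1) ∂(rho m) = ∫ q, (lam : ℂ) * T q.1 ∂(rho m) := by
    refine int_rho_congr m (i1.sub i2) i3 ?_
    intro ω
    simp only
    have h2 : ((1 + lam) * (cond ω).deg 0) • Uf lam ξ ω -
        ∑' y, (cond ω).c 0 y • (cond ω).res Set.univ lam (chr ξ) y = (lam * (cond ω).deg 0) • chr ξ 0 :=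
      (cond ω).res_ell hd Set.univ hl (norm_chr_le ξ) (x := 0) (Set.mem_univ _)
    have h3 : ∑' y, (cond ω).c 0 y • (Uf lam ξ ω * ((1 + lam) * T ω) -
        chr ξ y * Uf lam ξ (shift y ω) * T ω) =
        T ω * (((1 + lam) * (cond ω).deg 0) • Uf lam ξ ω -
          ∑' y, (cond ω).c 0 y • (cond ω).res Set.univ lam (chr ξ) y) := by
      have h4 : ∀ y, (cond ω).c 0 y • (Uf lam ξ ω * ((1 + lam) * T ω) -
          chr ξ y * Uf lam ξ (shift y ω) * T ω) =
          (cond ω).c 0 y • (Uf lam ξ ω * ((1 + lam) * T ω)) -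
            T ω * ((cond ω).c 0 y • (cond ω).res Set.univ lam (chr ξ) y) := by
        intro y
        rw [smul_sub, res_eq_Uf, mul_smul_comm]
        congr 2
        ring
      simp_rw [h4]
      rw [((cond ω).summable_smul (fun _ => Uf lam ξ ω * ((1 + lam) * T ω)) 0).tsum_sub
        (((cond ω).summable_smul (fun y => (cond ω).res Set.univ lam (chr ξ) y) 0).mul_left (T ω)),
        tsum_mul_left, ((cond ω).summable_c 0).tsum_smul_const, mul_sub]
      congr 1
      simp only [Complex.real_smul]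
      unfold Cond.deg
      push_cast
      ring
    rw [h3, h2]
    have h5 : (∑' y, (cond ω).c 0 y • ((lam : ℂ) * T ω)) = (cond ω).deg 0 • ((lam : ℂ) * T ω) :=
      ((cond ω).summable_c 0).tsum_smul_const _
    rw [h5, chr_zero]
    simp only [Complex.real_smul]
    push_cast
    ring
  -- flip
  have h2 : ∫ q, chr ξ q.2 * Uf lam ξ (shift q.2 q.1) * T q.1 ∂(rho m) =
      ∫ q, chr ξ (-q.2) * Uf lam ξ q.1 * T (shift q.2 q.1) ∂(rho m) := by
    rw [← int_flip m (F := fun q => chr ξ (-q.2) * Uf lam ξ q.1 * T (shift q.2 q.1))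
      (((hchr (fun y => -y)).mul (meas_fst hU)).mul (meas_sh hT)).aestronglyMeasurable]
    congr 1
    ext q
    unfold flip
    simp only [neg_neg, shift_shift, neg_add_cancel, shift_zero]
  have i4 : Integrable (fun q : Env d × V d => chr ξ (-q.2) * Uf lam ξ q.1 * T (shift q.2 q.1))
      (rho m) := by
    refine integrable_bdd m (((hchr (fun y => -y)).mul (meas_fst hU)).mul (meas_sh hT))
      (M := 1 * 1 * M) (fun q => ?_)
    rw [norm_mul, norm_mul, norm_chr]
    exact mul_le_mul (mul_le_mul le_rfl (hU1 _) (norm_nonneg _) zero_le_one) (hM _) (norm_nonneg _)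
      (by norm_num)
  rw [integral_sub i1 i2, h2, ← integral_sub i1 i4, integral_const_mul] at h1
  rw [← h1]
  congr 1
  ext q
  ring

theorem E1_bound (s : ℝ) : ‖1 - Complex.exp (-((s : ℂ) * Complex.I))‖ ≤ |s| := by
  have h := Real.norm_exp_I_mul_ofReal_sub_one_le (x := -s)
  rw [Real.norm_eq_abs, abs_neg] at h
  rw [← norm_neg, neg_sub]
  refine le_trans (le_of_eq ?_) h
  congr 3
  push_cast
  ring

theorem E2_bound (s : ℝ) :
    ‖1 - Complex.exp (-((s : ℂ) * Complex.I)) - (s : ℂ) * Complex.I‖ ≤ 3 * s ^ 2 := by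
  by_cases hs : |s| ≤ 1
  · have h1 : ‖-((s : ℂ) * Complex.I)‖ = |s| := by
      rw [norm_neg, norm_mul, Complex.norm_I, mul_one, Complex.norm_real, Real.norm_eq_abs]
    have h := Complex.norm_exp_sub_one_sub_id_le (x := -((s : ℂ) * Complex.I)) (by rw [h1]; exact hs)
    rw [h1] at h
    rw [← norm_neg]
    refine (le_of_eq ?_).trans (h.trans ?_)
    · congr 1
      ring
    · rw [sq_abs]
      nlinarith [sq_nonneg s]
  · push Not at hs
    have h1 := E1_bound s
    have h2 : ‖(s : ℂ) * Complex.I‖ = |s| := by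
      rw [norm_mul, Complex.norm_I, mul_one, Complex.norm_real, Real.norm_eq_abs]
    calc ‖1 - Complex.exp (-((s : ℂ) * Complex.I)) - (s : ℂ) * Complex.I‖
        ≤ ‖1 - Complex.exp (-((s : ℂ) * Complex.I))‖ + ‖(s : ℂ) * Complex.I‖ := norm_sub_le _ _
      _ ≤ |s| + |s| := by rw [h2]; linarith
      _ ≤ 3 * s ^ 2 := by
          rw [← sq_abs s]
          nlinarith

theorem tendsto_beta_zero : Tendsto (fun β : ℝ => β) (𝓝[>] 0) (𝓝 0) :=
  tendsto_nhdsWithin_of_tendsto_nhds tendsto_id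

theorem E1_lim (t : ℝ) : Tendsto (fun β : ℝ => (1 - Complex.exp (-(((β * t : ℝ) : ℂ) * Complex.I))) / β)
    (𝓝[>] 0) (𝓝 (t * Complex.I)) := by
  rw [tendsto_iff_norm_sub_tendsto_zero]
  have h1 : Tendsto (fun β : ℝ => 3 * t ^ 2 * β) (𝓝[>] 0) (𝓝 (3 * t ^ 2 * 0)) :=
    tendsto_beta_zero.const_mul _
  rw [mul_zero] at h1
  refine squeeze_zero' (Eventually.of_forall fun β => norm_nonneg _) ?_ h1
  filter_upwards [self_mem_nhdsWithin] with β hβ
  have hβ' : 0 < β := hβ
  have hne : (β : ℂ) ≠ 0 := by exact_mod_cast hβ'.ne'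
  have h2 : (1 - Complex.exp (-(((β * t : ℝ) : ℂ) * Complex.I))) / β - t * Complex.I =
      (1 - Complex.exp (-(((β * t : ℝ) : ℂ) * Complex.I)) - ((β * t : ℝ) : ℂ) * Complex.I) / β := by
    field_simp
    push_cast
    ring
  rw [h2, norm_div, Complex.norm_real, Real.norm_of_nonneg hβ'.le, div_le_iff₀ hβ']
  refine (E2_bound _).trans (le_of_eq ?_)
  ring

theorem E2_lim (t : ℝ) : Tendsto (fun β : ℝ =>
    (1 - Complex.exp (-(((β * t : ℝ) : ℂ) * Complex.I)) - ((β * t : ℝ) : ℂ) * Complex.I) / (β : ℂ) ^ 2)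
    (𝓝[>] 0) (𝓝 ((t : ℂ) ^ 2 / 2)) := by
  rw [tendsto_iff_norm_sub_tendsto_zero]
  have h1 : Tendsto (fun β : ℝ => |t| ^ 3 * β) (𝓝[>] 0) (𝓝 (|t| ^ 3 * 0)) :=
    tendsto_beta_zero.const_mul _
  rw [mul_zero] at h1
  refine squeeze_zero' (Eventually.of_forall fun β => norm_nonneg _) ?_ h1
  have hsmall : ∀ᶠ β : ℝ in 𝓝[>] 0, |β * t| ≤ 1 := by
    have h3 : Tendsto (fun β : ℝ => |β * t|) (𝓝[>] 0) (𝓝 |0 * t|) :=
      (tendsto_beta_zero.mul_const t).abs
    rw [zero_mul, abs_zero] at h3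
    exact h3.eventually (Iic_mem_nhds one_pos)
  filter_upwards [self_mem_nhdsWithin, hsmall] with β hβ hs
  have hβ' : 0 < β := hβ
  have hne : (β : ℂ) ≠ 0 := by exact_mod_cast hβ'.ne'
  set x : ℂ := -(((β * t : ℝ) : ℂ) * Complex.I) with hx
  have hxn : ‖x‖ = |β * t| := by
    rw [hx, norm_neg, norm_mul, Complex.norm_I, mul_one, Complex.norm_real, Real.norm_eq_abs]
  have h2 : (1 - Complex.exp x - ((β * t : ℝ) : ℂ) * Complex.I) / (β : ℂ) ^ 2 - (t : ℂ) ^ 2 / 2 =
      -(Complex.exp x - ∑ m ∈ Finset.range 3, x ^ m / (m.factorial : ℂ)) / (β : ℂ) ^ 2 := by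
    have hI : Complex.I ^ 2 = -1 := Complex.I_sq
    have hx2 : x ^ 2 = -((β : ℂ) * t) ^ 2 := by
      rw [hx]
      push_cast
      rw [neg_pow, mul_pow, hI]
      ring
    have hs3 : ∑ m ∈ Finset.range 3, x ^ m / (m.factorial : ℂ) = 1 + x + x ^ 2 / 2 := by
      simp [Finset.sum_range_succ, Nat.factorial]
    rw [hs3, hx2]
    generalize Complex.exp x = e
    rw [hx]
    push_cast
    field_simp
    ring
  rw [h2, norm_div, norm_neg, norm_pow, Complex.norm_real, Real.norm_of_nonneg hβ'.le,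
    div_le_iff₀ (by positivity)]
  have h4 := Complex.exp_bound (x := x) (by rw [hxn]; exact hs) (n := 3) (by norm_num)
  refine h4.trans ?_
  rw [hxn, abs_mul, abs_of_pos hβ']
  have h5 : ((3 : ℕ).succ : ℝ) * (((3 : ℕ).factorial : ℝ) * (3 : ℕ))⁻¹ ≤ 1 := by
    norm_num [Nat.factorial]
  calc (β * |t|) ^ 3 * (((3 : ℕ).succ : ℝ) * (((3 : ℕ).factorial : ℝ) * (3 : ℕ))⁻¹)
      ≤ (β * |t|) ^ 3 * 1 := mul_le_mul_of_nonneg_left h5 (by positivity)
    _ = |t| ^ 3 * β * β ^ 2 := by ring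

end Pool.Agent.Lib.QIP
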