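import Pool.Agent.Lib.QIP.Anneal1

/-!
# Estimates for the annealed limit
-/

set_option autoImplicit false

open MeasureTheory ProbabilityTheory Filter
open scoped ENNReal NNReal Topology BigOperators

namespace Pool.Agent.Lib.QIP

variable {d : ℕ}

/-- Cauchy-Schwarz for real integrals. -/
theorem cs_int {α : Type*} [MeasurableSpace α] {μ : Measure α} {F G : α → ℝ}
    (hF : MemLp F 2 μ) (hG : MemLp G 2 μ) :
    |∫ q, F q * G q ∂μ| ≤ Real.sqrt (∫ q, F q ^ 2 ∂μ) * Real.sqrt (∫ q, G q ^ 2 ∂μ) := by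
  have h := abs_real_inner_le_norm (hF.toLp F) (hG.toLp G)
  rw [inner_toLp] at h
  have hn : ∀ {H : α → ℝ} (hH : MemLp H 2 μ), ‖hH.toLp H‖ = Real.sqrt (∫ q, H q ^ 2 ∂μ) := by
    intro H hH
    rw [← Real.sqrt_sq (norm_nonneg (hH.toLp H)), ← real_inner_self_eq_norm_sq, inner_toLp]
    congr 2
    ext q
    ring
  rw [hn hF, hn hG] at h
  exact h

/-- Cauchy-Schwarz for lower integrals. -/
theorem cs_lint {α : Type*} [MeasurableSpace α] (μ : Measure α) {f g : α → ℝ≥0∞}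
    (hf : Measurable f) (hg : Measurable g) :
    (∫⁻ a, f a * g a ∂μ) ^ 2 ≤ (∫⁻ a, f a ^ 2 ∂μ) * ∫⁻ a, g a ^ 2 ∂μ := by
  have h := ENNReal.lintegral_mul_le_Lp_mul_Lq μ (Real.HolderConjugate.two_two) hf.aemeasurable
    hg.aemeasurable
  have h2 : ∀ x : ℝ≥0∞, (x ^ (1 / 2 : ℝ)) ^ 2 = x := by
    intro x
    rw [← ENNReal.rpow_natCast, ← ENNReal.rpow_mul]
    norm_num
  have h3 : ∀ x : ℝ≥0∞, x ^ (2 : ℝ) = x ^ 2 := by
    intro x
    rw [← ENNReal.rpow_natCast]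
    norm_num
  simp only [Pi.mul_apply, h3] at h
  calc (∫⁻ a, f a * g a ∂μ) ^ 2 ≤
      ((∫⁻ a, f a ^ 2 ∂μ) ^ (1 / 2 : ℝ) * (∫⁻ a, g a ^ 2 ∂μ) ^ (1 / 2 : ℝ)) ^ 2 := by gcongr
    _ = _ := by rw [mul_pow, h2, h2]

/-- Uniform integrability argument. -/
theorem ui_tendsto {α ι : Type*} [MeasurableSpace α] {ρ : Measure α} [IsFiniteMeasure ρ]
    {l : Filter ι} (f : ι → α → ℂ) {w : α → ℝ} (hw : Integrable w ρ) (hw0 : ∀ q, 0 ≤ w q)
    (hf : ∀ᶠ i in l, AEStronglyMeasurable (f i) ρ) (hb : ∀ᶠ i in l, ∀ q, ‖f i q‖ ≤ 2)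
    (h0 : Tendsto (fun i => ∫ q, ‖f i q‖ ∂ρ) l (𝓝 0)) :
    Tendsto (fun i => ∫ q, ‖f i q‖ * w q ∂ρ) l (𝓝 0) := by
  have h1 : Tendsto (fun R : ℕ => ∫ q, max (w q - R) 0 ∂ρ) atTop (𝓝 (∫ _, (0 : ℝ) ∂ρ)) := by
    refine tendsto_integral_of_dominated_convergence w (fun R => ?_) hw (fun R => ?_) ?_
    · exact (hw.aestronglyMeasurable.sub aestronglyMeasurable_const).sup aestronglyMeasurable_const
    · refine Eventually.of_forall fun q => ?_
      rw [Real.norm_of_nonneg (le_max_right _ _)]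
      refine max_le ?_ (hw0 q)
      have : (0 : ℝ) ≤ R := Nat.cast_nonneg R
      linarith
    · refine Eventually.of_forall fun q => ?_
      refine tendsto_const_nhds.congr' ?_
      filter_upwards [eventually_ge_atTop ⌈w q⌉₊] with R hR
      rw [max_eq_right]
      have := (Nat.le_ceil (w q)).trans (Nat.cast_le.2 hR)
      linarith
  rw [integral_zero] at h1
  rw [Metric.tendsto_nhds]
  intro ε hε
  obtain ⟨R, hR⟩ := (h1.eventually (Iio_mem_nhds (show (0 : ℝ) < ε / 4 by positivity))).exists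
  have hR' : ∫ q, max (w q - R) 0 ∂ρ < ε / 4 := hR
  have h2 : Tendsto (fun i => (R : ℝ) * ∫ q, ‖f i q‖ ∂ρ) l (𝓝 ((R : ℝ) * 0)) := h0.const_mul _
  rw [mul_zero] at h2
  filter_upwards [hf, hb, h2.eventually (Iio_mem_nhds (show (0 : ℝ) < ε / 2 by positivity))]
    with i h3 h4 h5
  have h5' : (R : ℝ) * ∫ q, ‖f i q‖ ∂ρ < ε / 2 := h5
  rw [Real.dist_eq, sub_zero, abs_of_nonneg (integral_nonneg fun q => mul_nonneg (norm_nonneg _) (hw0 q))]
  have hfi : Integrable (fun q => ‖f i q‖) ρ :=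
    (Integrable.of_bound h3 2 (Eventually.of_forall h4)).norm
  have hwR : Integrable (fun q => max (w q - R) 0) ρ :=
    (hw.sub (integrable_const _)).pos_part
  calc ∫ q, ‖f i q‖ * w q ∂ρ ≤ ∫ q, ((R : ℝ) * ‖f i q‖ + 2 * max (w q - R) 0) ∂ρ := by
        refine integral_mono_of_nonneg
          (Eventually.of_forall fun q => mul_nonneg (norm_nonneg _) (hw0 q))
          ((hfi.const_mul _).add (hwR.const_mul _)) (Eventually.of_forall fun q => ?_)
        show ‖f i q‖ * w q ≤ (R : ℝ) * ‖f i q‖ + 2 * max (w q - R) 0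
        have h6 : w q ≤ R + max (w q - R) 0 := by
          have := le_max_left (w q - R) 0
          linarith
        have h7 : (0 : ℝ) ≤ max (w q - R) 0 := le_max_right _ _
        calc ‖f i q‖ * w q ≤ ‖f i q‖ * (R + max (w q - R) 0) :=
              mul_le_mul_of_nonneg_left h6 (norm_nonneg _)
          _ = R * ‖f i q‖ + ‖f i q‖ * max (w q - R) 0 := by ring
          _ ≤ R * ‖f i q‖ + 2 * max (w q - R) 0 := by
              have := mul_le_mul_of_nonneg_right (h4 q) h7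
              linarith
    _ = (R : ℝ) * ∫ q, ‖f i q‖ ∂ρ + 2 * ∫ q, max (w q - R) 0 ∂ρ := by
        rw [integral_add (hfi.const_mul _) (hwR.const_mul _), integral_const_mul, integral_const_mul]
    _ < ε := by linarith

/-- The linear function of the jump. -/
noncomputable def tq (θ : Fin d → ℝ) (q : Env d × V d) : ℝ := ∑ i, θ i * zc i q

theorem memLp_tq (m : Model d) (θ : Fin d → ℝ) : MemLp (tq θ) 2 (rho m) :=
  memLp_finsetSum Finset.univ fun i _ => (memLp_zc m i).const_mul (θ i)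

theorem measurable_tq (θ : Fin d → ℝ) : Measurable (tq θ : Env d × V d → ℝ) :=
  measurable_snd_fun (fun y => ∑ i, θ i * (y i : ℝ))

theorem tq_flip (θ : Fin d → ℝ) (q : Env d × V d) : tq θ (flip q) = -tq θ q := by
  unfold tq zc flip
  rw [← Finset.sum_neg_distrib]
  apply Finset.sum_congr rfl
  intro i _
  simp

theorem chr_tq (θ : Fin d → ℝ) (β : ℝ) (q : Env d × V d) :
    chr (fun i => β * θ i) q.2 = Complex.exp ((((β * tq θ q : ℝ) : ℂ)) * Complex.I) := by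
  unfold chr tq zc
  congr 3
  rw [Finset.mul_sum]
  apply Finset.sum_congr rfl
  intro i _
  ring

theorem chr_neg_tq (θ : Fin d → ℝ) (β : ℝ) (q : Env d × V d) :
    chr (fun i => β * θ i) (-q.2) = Complex.exp (-((((β * tq θ q : ℝ) : ℂ)) * Complex.I)) := by
  unfold chr tq zc
  rw [← neg_mul, ← Complex.ofReal_neg]
  congr 3
  rw [Finset.mul_sum, ← Finset.sum_neg_distrib]
  apply Finset.sum_congr rfl
  intro i _
  simp
  ring

theorem gr_flip {E : Type*} [AddCommGroup E] (φ : Env d → E) (q : Env d × V d) :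
    gr φ (flip q) = -gr φ q := by
  unfold gr flip
  simp only [shift_shift, neg_add_cancel, shift_zero, neg_sub]

/-- Energy of the stationary resolvent with respect to `rho`. -/
theorem energy_rho (m : Model d) (hd : 0 < d) {lam : ℝ} (hl : 0 < lam) (ξ : Fin d → ℝ) :
    ∫ q, ‖Uf lam ξ q.1 - chr ξ q.2 * Uf lam ξ (shift q.2 q.1)‖ ^ 2 ∂(rho m) ≤ 2 * lam * m.κ := by
  have hU := measurable_Uf hd hl ξ
  have hm : Measurable (fun q : Env d × V d =>
      Uf lam ξ q.1 - chr ξ q.2 * Uf lam ξ (shift q.2 q.1)) :=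
    (meas_fst hU).sub ((measurable_snd_fun (fun y => chr ξ y)).mul (meas_sh hU))
  rw [integral_eq_lintegral_of_nonneg_ae (Eventually.of_forall fun q => sq_nonneg _)
    (hm.norm.pow_const 2).aestronglyMeasurable]
  apply ENNReal.toReal_le_of_le_ofReal (by have := m.κ_nonneg; positivity)
  have h := energy_stat m hd hl ξ
  rw [lint_rho m (F := fun q => ENNReal.ofReal
    (‖Uf lam ξ q.1 - chr ξ q.2 * Uf lam ξ (shift q.2 q.1)‖ ^ 2)) (hm.norm.pow_const 2).ennreal_ofReal]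
  refine le_trans (le_of_eq ?_) h
  have hm1 : ∀ y, Measurable (fun ω : Env d => ENNReal.ofReal ((cond ω).c 0 y) *
      ‖(cond ω).res Set.univ lam (chr ξ) 0 - (cond ω).res Set.univ lam (chr ξ) y‖ₑ ^ 2) :=
    fun y => (measurable_c 0 y).ennreal_ofReal.mul
      (((meas_U hd hl ξ 0).sub (meas_U hd hl ξ y)).enorm.pow_const 2)
  rw [← lintegral_tsum (fun y => (hm1 y).aemeasurable)]
  congr 1
  ext ω
  congr 1
  ext y
  rw [enorm_sq_eq, res_eq_Uf lam ξ ω y]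
  rfl

/-- Gradient bound. -/
theorem gr_U_bound (m : Model d) (hd : 0 < d) {τ β : ℝ} (hτ : 0 < τ) (hβ : 0 < β)
    (θ : Fin d → ℝ) :
    ∫ q, ‖gr (Uf (τ * β ^ 2) (fun i => β * θ i)) q‖ ^ 2 ∂(rho m) ≤
      β ^ 2 * (4 * τ * m.κ + 2 * ∫ q, tq θ q ^ 2 ∂(rho m)) := by
  have hl : 0 < τ * β ^ 2 := by positivity
  set ξ : Fin d → ℝ := fun i => β * θ i with hξ
  set U := Uf (τ * β ^ 2) ξ with hUdef
  have hU : Measurable U := measurable_Uf hd hl ξ
  have hU1 : ∀ ω, ‖U ω‖ ≤ 1 := norm_Uf_le hd hl ξ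
  have hpt : ∀ q : Env d × V d, ‖gr U q‖ ^ 2 ≤
      2 * ‖U q.1 - chr ξ q.2 * U (shift q.2 q.1)‖ ^ 2 + 2 * β ^ 2 * tq θ q ^ 2 := by
    intro q
    have h1 : gr U q = -(U q.1 - chr ξ q.2 * U (shift q.2 q.1)) +
        (1 - chr ξ q.2) * U (shift q.2 q.1) := by
      unfold gr
      ring
    have h2 : ‖(1 - chr ξ q.2) * U (shift q.2 q.1)‖ ≤ |β * tq θ q| := by
      rw [norm_mul]
      have h3 : ‖1 - chr ξ q.2‖ ≤ |β * tq θ q| := by
        rw [hξ, chr_tq]
        have := E1_bound (-(β * tq θ q))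
        rw [abs_neg] at this
        refine le_trans (le_of_eq ?_) this
        congr 3
        push_cast
        ring
      calc ‖1 - chr ξ q.2‖ * ‖U (shift q.2 q.1)‖ ≤ |β * tq θ q| * 1 :=
            mul_le_mul h3 (hU1 _) (norm_nonneg _) (abs_nonneg _)
        _ = _ := mul_one _
    have h4 : ‖gr U q‖ ≤ ‖U q.1 - chr ξ q.2 * U (shift q.2 q.1)‖ + |β * tq θ q| := by
      rw [h1]
      refine (norm_add_le _ _).trans ?_
      rw [norm_neg]
      linarith
    have h5 : ‖gr U q‖ ^ 2 ≤ (‖U q.1 - chr ξ q.2 * U (shift q.2 q.1)‖ + |β * tq θ q|) ^ 2 :=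
      pow_le_pow_left₀ (norm_nonneg _) h4 2
    have key : ∀ a b : ℝ, (a + b) ^ 2 ≤ 2 * a ^ 2 + 2 * b ^ 2 := fun a b => by
      nlinarith [sq_nonneg (a - b)]
    refine (h5.trans (key _ _)).trans (le_of_eq ?_)
    rw [sq_abs, mul_pow]
    ring
  have hm : Measurable (fun q : Env d × V d => U q.1 - chr ξ q.2 * U (shift q.2 q.1)) :=
    (meas_fst hU).sub ((measurable_snd_fun (fun y => chr ξ y)).mul (meas_sh hU))
  have hi1 : Integrable (fun q : Env d × V d => ‖U q.1 - chr ξ q.2 * U (shift q.2 q.1)‖ ^ 2)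
      (rho m) := by
    refine Integrable.of_bound (hm.norm.pow_const 2).aestronglyMeasurable (2 ^ 2)
      (Eventually.of_forall fun q => ?_)
    rw [Real.norm_of_nonneg (sq_nonneg _)]
    apply pow_le_pow_left₀ (norm_nonneg _)
    refine (norm_sub_le _ _).trans ?_
    rw [norm_mul, norm_chr, one_mul]
    linarith [hU1 q.1, hU1 (shift q.2 q.1)]
  have hi2 : Integrable (fun q => tq θ q ^ 2) (rho m) := (memLp_tq m θ).integrable_sq
  have he := energy_rho m hd hl ξ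
  have hmono : ∫ q, ‖gr U q‖ ^ 2 ∂(rho m) ≤
      ∫ q, (2 * ‖U q.1 - chr ξ q.2 * U (shift q.2 q.1)‖ ^ 2 + 2 * β ^ 2 * tq θ q ^ 2) ∂(rho m) :=
    integral_mono_of_nonneg (Eventually.of_forall fun q => sq_nonneg _)
      ((hi1.const_mul 2).add (hi2.const_mul _)) (Eventually.of_forall hpt)
  have heq : ∫ q, (2 * ‖U q.1 - chr ξ q.2 * U (shift q.2 q.1)‖ ^ 2 + 2 * β ^ 2 * tq θ q ^ 2) ∂(rho m) =
      2 * ∫ q, ‖U q.1 - chr ξ q.2 * U (shift q.2 q.1)‖ ^ 2 ∂(rho m) +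
        2 * β ^ 2 * ∫ q, tq θ q ^ 2 ∂(rho m) := by
    rw [integral_add (hi1.const_mul 2) (hi2.const_mul _), integral_const_mul, integral_const_mul]
  rw [heq] at hmono
  generalize (∫ q, ‖gr U q‖ ^ 2 ∂(rho m)) = A at hmono ⊢
  generalize (∫ q, ‖U q.1 - chr ξ q.2 * U (shift q.2 q.1)‖ ^ 2 ∂(rho m)) = B at hmono he ⊢
  nlinarith

/-- The deviation of the resolvent from its mean, under `rho`. -/
theorem int_dev (hd : 3 ≤ d) (m : Model d) : ∃ K : ℝ, 0 < K ∧ ∀ lam : ℝ, 0 < lam → lam ≤ 1 →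
    ∀ ξ : Fin d → ℝ, ∫ q, ‖Uf lam ξ q.1 - ∫ ω, Uf lam ξ ω ∂m.μ‖ ∂(rho m) ≤
      Real.sqrt (K * lam ^ ((1 / 5) : ℝ)) := by
  obtain ⟨K, hK, hvar⟩ := var_stat hd m
  have hd0 : 0 < d := by omega
  have hκ := m.κ_nonneg
  refine ⟨(m.κ + m.κ ^ 2 + 1) * K, by positivity, ?_⟩
  intro lam hl hl1 ξ
  have hU := measurable_Uf hd0 hl ξ
  set mm := ∫ ω, Uf lam ξ ω ∂m.μ with hmm
  have hUm : Measurable (fun ω => Uf lam ξ ω - mm) := hU.sub_const mm
  have h1 : (∫⁻ q : Env d × V d, ‖Uf lam ξ q.1 - mm‖ₑ ∂(rho m)) ^ 2 ≤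
      ENNReal.ofReal ((m.κ + m.κ ^ 2 + 1) * K * lam ^ ((1 / 5) : ℝ)) := by
    rw [lint_rho_fst m (F := fun ω => ‖Uf lam ξ ω - mm‖ₑ) hUm.enorm]
    refine (cs_lint m.μ (measurable_deg 0).ennreal_ofReal hUm.enorm).trans ?_
    have h2 := hvar lam hl hl1 ξ
    have h3 := m.lint_deg_sq 0
    refine (mul_le_mul' h3 h2).trans ?_
    rw [← ENNReal.ofReal_mul (by positivity)]
    apply ENNReal.ofReal_le_ofReal
    have : 0 ≤ K * lam ^ ((1 / 5) : ℝ) := by positivity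
    nlinarith
  have hn : Measurable (fun q : Env d × V d => ‖Uf lam ξ q.1 - mm‖) := (meas_fst hUm).norm
  rw [integral_eq_lintegral_of_nonneg_ae (Eventually.of_forall fun q => norm_nonneg _)
    hn.aestronglyMeasurable]
  apply ENNReal.toReal_le_of_le_ofReal (Real.sqrt_nonneg _)
  apply le_of_sq_le
  rw [← ENNReal.ofReal_pow (Real.sqrt_nonneg _), Real.sq_sqrt (by positivity)]
  simp_rw [ofReal_norm]
  exact h1

end Pool.Agent.Lib.QIP
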