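import Pool.Agent.Lib.QIP.Anneal2

/-!
# The annealed limit
-/

set_option autoImplicit false

open MeasureTheory ProbabilityTheory Filter
open scoped ENNReal NNReal Topology BigOperators

namespace Pool.Agent.Lib.QIP

variable {d : ℕ}

theorem iadd {α E : Type*} [MeasurableSpace α] [NormedAddCommGroup E] {μ : Measure α}
    {f g : α → E} (hf : Integrable f μ) (hg : Integrable g μ) :
    Integrable (fun x => f x + g x) μ := hf.add hg

theorem isub {α E : Type*} [MeasurableSpace α] [NormedAddCommGroup E] {μ : Measure α}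
    {f g : α → E} (hf : Integrable f μ) (hg : Integrable g μ) :
    Integrable (fun x => f x - g x) μ := hf.sub hg

/-- The corrected linear function. -/
noncomputable def Gq (θ : Fin d → ℝ) (φ : Env d → ℝ) (q : Env d × V d) : ℝ := tq θ q + gr φ q

/-- second order term -/
noncomputable def Wq (θ : Fin d → ℝ) (φ : Env d → ℝ) (β : ℝ) (q : Env d × V d) : ℂ :=
  (1 - Complex.exp (-(((β * tq θ q : ℝ) : ℂ) * Complex.I)) - ((β * tq θ q : ℝ) : ℂ) * Complex.I) /
    (β : ℂ) ^ 2 -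
  Complex.I * ((1 - Complex.exp (-(((β * tq θ q : ℝ) : ℂ) * Complex.I))) / β) *
    (φ (shift q.2 q.1) : ℂ)

/-- limiting second order term -/
noncomputable def W0 (θ : Fin d → ℝ) (φ : Env d → ℝ) (q : Env d × V d) : ℝ :=
  tq θ q ^ 2 / 2 + tq θ q * φ (shift q.2 q.1)

theorem measurable_Gq (θ : Fin d → ℝ) {φ : Env d → ℝ} (hφ : Measurable φ) :
    Measurable (Gq θ φ) := (measurable_tq θ).add (measurable_gr hφ)

theorem memLp_Gq (m : Model d) (θ : Fin d → ℝ) {φ : Env d → ℝ} (hφ : Measurable φ) {M : ℝ}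
    (hM : ∀ ω, |φ ω| ≤ M) : MemLp (Gq θ φ) 2 (rho m) := (memLp_tq m θ).add (memLp_gr m hφ hM)

theorem Gq_flip (θ : Fin d → ℝ) (φ : Env d → ℝ) (q : Env d × V d) :
    Gq θ φ (flip q) = -Gq θ φ q := by
  unfold Gq
  rw [tq_flip, gr_flip]
  ring

theorem measurable_Wq (θ : Fin d → ℝ) {φ : Env d → ℝ} (hφ : Measurable φ) (β : ℝ) :
    Measurable (Wq θ φ β) := by
  unfold Wq
  have h1 : Measurable (fun q : Env d × V d => (((β * tq θ q : ℝ) : ℂ) * Complex.I)) :=
    (Complex.measurable_ofReal.comp ((measurable_tq θ).const_mul β)).mul_const _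
  have h2 : Measurable (fun q : Env d × V d =>
      Complex.exp (-(((β * tq θ q : ℝ) : ℂ) * Complex.I))) := Complex.measurable_exp.comp h1.neg
  have h3 : Measurable (fun q : Env d × V d => (φ (shift q.2 q.1) : ℂ)) :=
    Complex.measurable_ofReal.comp (meas_sh hφ)
  exact (((measurable_const.sub h2).sub h1).div_const _).sub
    ((((measurable_const.sub h2).div_const _).const_mul _).mul h3)

theorem norm_Wq_le (θ : Fin d → ℝ) {φ : Env d → ℝ} {M : ℝ} (hM : ∀ ω, |φ ω| ≤ M) {β : ℝ}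
    (hβ : 0 < β) (q : Env d × V d) : ‖Wq θ φ β q‖ ≤ 3 * tq θ q ^ 2 + |tq θ q| * M := by
  unfold Wq
  refine (norm_sub_le _ _).trans ?_
  have hM0 : 0 ≤ M := (abs_nonneg _).trans (hM q.1)
  apply add_le_add
  · rw [norm_div, norm_pow, Complex.norm_real, Real.norm_of_nonneg hβ.le, div_le_iff₀ (by positivity)]
    refine (E2_bound _).trans (le_of_eq ?_)
    ring
  · rw [norm_mul, norm_mul, Complex.norm_I, one_mul, norm_div, Complex.norm_real, Complex.norm_real,
      Real.norm_of_nonneg hβ.le, Real.norm_eq_abs]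
    have h1 : ‖1 - Complex.exp (-(((β * tq θ q : ℝ) : ℂ) * Complex.I))‖ / β ≤ |tq θ q| := by
      rw [div_le_iff₀ hβ]
      refine (E1_bound _).trans (le_of_eq ?_)
      rw [abs_mul, abs_of_pos hβ, mul_comm]
    exact mul_le_mul h1 (hM _) (abs_nonneg _) (abs_nonneg _)

theorem Wq_tendsto (θ : Fin d → ℝ) (φ : Env d → ℝ) (q : Env d × V d) :
    Tendsto (fun β : ℝ => Wq θ φ β q) (𝓝[>] 0) (𝓝 ((W0 θ φ q : ℝ) : ℂ)) := by
  have h := (E2_lim (tq θ q)).sub (((E1_lim (tq θ q)).const_mul Complex.I).mul_const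
    (φ (shift q.2 q.1) : ℂ))
  have h2 : ((tq θ q : ℂ) ^ 2 / 2 - Complex.I * ((tq θ q : ℂ) * Complex.I) * (φ (shift q.2 q.1) : ℂ)) =
      ((W0 θ φ q : ℝ) : ℂ) := by
    unfold W0
    push_cast
    have : Complex.I * ((tq θ q : ℂ) * Complex.I) = -(tq θ q : ℂ) := by
      rw [mul_comm (tq θ q : ℂ), ← mul_assoc, Complex.I_mul_I]
      ring
    rw [this]
    ring
  rw [← h2]
  exact h

/-- The dominating function. -/
theorem integrable_w (m : Model d) (θ : Fin d → ℝ) (M : ℝ) :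
    Integrable (fun q => 3 * tq θ q ^ 2 + |tq θ q| * M) (rho m) :=
  ((memLp_tq m θ).integrable_sq.const_mul 3).add
    (((memLp_tq m θ).integrable (by norm_num)).abs.mul_const M)

theorem integrable_W0 (m : Model d) (θ : Fin d → ℝ) {φ : Env d → ℝ} (hφ : Measurable φ) {M : ℝ}
    (hM : ∀ ω, |φ ω| ≤ M) : Integrable (W0 θ φ) (rho m) := by
  have hm : Measurable (W0 θ φ) := by
    unfold W0
    exact (((measurable_tq θ).pow_const 2).div_const 2).add ((measurable_tq θ).mul (meas_sh hφ))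
  refine (integrable_w m θ M).mono' hm.aestronglyMeasurable (Eventually.of_forall fun q => ?_)
  unfold W0
  rw [Real.norm_eq_abs]
  refine (abs_add_le _ _).trans ?_
  apply add_le_add
  · rw [abs_of_nonneg (by positivity)]
    nlinarith [sq_nonneg (tq θ q)]
  · rw [abs_mul]
    exact mul_le_mul_of_nonneg_left (hM _) (abs_nonneg _)

/-- The test function. -/
noncomputable def Tf (φ : Env d → ℝ) (β : ℝ) (ω : Env d) : ℂ := 1 - Complex.I * β * φ ω

theorem measurable_Tf {φ : Env d → ℝ} (hφ : Measurable φ) (β : ℝ) : Measurable (Tf φ β) :=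
  measurable_const.sub ((Complex.measurable_ofReal.comp hφ).const_mul _)

theorem norm_Tf_le {φ : Env d → ℝ} {M : ℝ} (hM : ∀ ω, |φ ω| ≤ M) {β : ℝ} (hβ : 0 < β) (ω : Env d) :
    ‖Tf φ β ω‖ ≤ 1 + β * M := by
  unfold Tf
  refine (norm_sub_le _ _).trans ?_
  rw [norm_one, norm_mul, norm_mul, Complex.norm_I, one_mul, Complex.norm_real, Complex.norm_real,
    Real.norm_of_nonneg hβ.le, Real.norm_eq_abs]
  have := mul_le_mul_of_nonneg_left (hM ω) hβ.le
  linarith

theorem expand_T (θ : Fin d → ℝ) (φ : Env d → ℝ) {β : ℝ} (hβ : 0 < β) (lam : ℝ) (q : Env d × V d) :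
    (1 + lam) * Tf φ β q.1 - chr (fun i => β * θ i) (-q.2) * Tf φ β (shift q.2 q.1) =
      lam * Tf φ β q.1 + Complex.I * β * (Gq θ φ q : ℂ) + (β : ℂ) ^ 2 * Wq θ φ β q := by
  have hne : (β : ℂ) ≠ 0 := by exact_mod_cast hβ.ne'
  rw [chr_neg_tq]
  unfold Tf Gq Wq gr
  generalize Complex.exp (-(((β * tq θ q : ℝ) : ℂ) * Complex.I)) = e
  push_cast
  field_simp
  ring

theorem main_id (m : Model d) (hd : 0 < d) {τ β : ℝ} (hτ : 0 < τ) (hβ : 0 < β) (θ : Fin d → ℝ)
    {φ : Env d → ℝ} (hφ : Measurable φ) {M : ℝ} (hM : ∀ ω, |φ ω| ≤ M) :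
    (τ : ℂ) * ∫ q, Uf (τ * β ^ 2) (fun i => β * θ i) q.1 * Tf φ β q.1 ∂(rho m) +
      Complex.I / β * ∫ q, Uf (τ * β ^ 2) (fun i => β * θ i) q.1 * (Gq θ φ q : ℂ) ∂(rho m) +
      ∫ q, Uf (τ * β ^ 2) (fun i => β * θ i) q.1 * Wq θ φ β q ∂(rho m) =
    τ * ∫ q, Tf φ β q.1 ∂(rho m) := by
  have hl : 0 < τ * β ^ 2 := by positivity
  have hne : (β : ℂ) ≠ 0 := by exact_mod_cast hβ.ne'
  have h := test_identity m hd hl (fun i => β * θ i) (measurable_Tf hφ β) (norm_Tf_le hM hβ)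
  set U := Uf (τ * β ^ 2) (fun i => β * θ i) with hUdef
  have hU : Measurable U := measurable_Uf hd hl _
  have hU1 : ∀ ω, ‖U ω‖ ≤ 1 := norm_Uf_le hd hl _
  have hM0 : 0 ≤ M := (abs_nonneg _).trans (hM (fun _ => true))
  simp_rw [expand_T θ φ hβ] at h
  have i1 : Integrable (fun q : Env d × V d => U q.1 * Tf φ β q.1) (rho m) := by
    refine integrable_bdd m ((meas_fst hU).mul (meas_fst (measurable_Tf hφ β)))
      (M := 1 * (1 + β * M)) (fun q => ?_)
    rw [norm_mul]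
    exact mul_le_mul (hU1 _) (norm_Tf_le hM hβ _) (norm_nonneg _) zero_le_one
  have i2 : Integrable (fun q : Env d × V d => U q.1 * (Gq θ φ q : ℂ)) (rho m) := by
    have hG : Integrable (fun q => (Gq θ φ q : ℂ)) (rho m) :=
      ((memLp_Gq m θ hφ hM).integrable (by norm_num)).ofReal
    exact hG.bdd_mul (meas_fst hU).aestronglyMeasurable (Eventually.of_forall fun q => hU1 q.1)
  have i3 : Integrable (fun q : Env d × V d => U q.1 * Wq θ φ β q) (rho m) := by
    have hW : Integrable (Wq θ φ β) (rho m) :=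
      (integrable_w m θ M).mono' (measurable_Wq θ hφ β).aestronglyMeasurable
        (Eventually.of_forall fun q => norm_Wq_le θ hM hβ q)
    exact hW.bdd_mul (meas_fst hU).aestronglyMeasurable (Eventually.of_forall fun q => hU1 q.1)
  have h2 : ∫ q, U q.1 * (((τ * β ^ 2 : ℝ) : ℂ) * Tf φ β q.1 + Complex.I * β * (Gq θ φ q : ℂ) +
      (β : ℂ) ^ 2 * Wq θ φ β q) ∂(rho m) =
      ((τ * β ^ 2 : ℝ) : ℂ) * ∫ q, U q.1 * Tf φ β q.1 ∂(rho m) +
      Complex.I * β * ∫ q, U q.1 * (Gq θ φ q : ℂ) ∂(rho m) +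
      (β : ℂ) ^ 2 * ∫ q, U q.1 * Wq θ φ β q ∂(rho m) := by
    rw [← integral_const_mul, ← integral_const_mul, ← integral_const_mul,
      ← integral_add (i1.const_mul _) (i2.const_mul _),
      ← integral_add (iadd (i1.const_mul _) (i2.const_mul _)) (i3.const_mul _)]
    congr 1
    ext q
    ring
  rw [h2] at h
  generalize (∫ q, U q.1 * Tf φ β q.1 ∂(rho m)) = X1 at h ⊢
  generalize (∫ q, U q.1 * (Gq θ φ q : ℂ) ∂(rho m)) = X2 at h ⊢
  generalize (∫ q, U q.1 * Wq θ φ β q ∂(rho m)) = X3 at h ⊢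
  generalize (∫ q, Tf φ β q.1 ∂(rho m)) = X4 at h ⊢
  push_cast at h
  have h3 : (β : ℂ) ^ 2 * ((τ : ℂ) * X1 + Complex.I / β * X2 + X3) = (β : ℂ) ^ 2 * (τ * X4) := by
    have : (β : ℂ) ^ 2 * (Complex.I / β * X2) = Complex.I * β * X2 := by
      field_simp
    calc (β : ℂ) ^ 2 * ((τ : ℂ) * X1 + Complex.I / β * X2 + X3)
        = τ * β ^ 2 * X1 + (β : ℂ) ^ 2 * (Complex.I / β * X2) + β ^ 2 * X3 := by ring
      _ = _ := by
          rw [this, h]
          ring
  exact mul_left_cancel₀ (pow_ne_zero 2 hne) h3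

/-- The first order term is small. -/
theorem UG_bound (m : Model d) (hd : 0 < d) {τ β : ℝ} (hτ : 0 < τ) (hβ : 0 < β) (θ : Fin d → ℝ)
    {φ : Env d → ℝ} (hφ : Measurable φ) {M : ℝ} (hM : ∀ ω, |φ ω| ≤ M) {b : Env d × V d → ℝ}
    (hb : MemLp b 2 (rho m))
    (horth : ∀ ψ : Env d → ℝ, Measurable ψ → (∃ M, ∀ ω, |ψ ω| ≤ M) → ∫ q, gr ψ q * b q ∂(rho m) = 0)
    {η : ℝ} (hη : 0 ≤ η) (happ : ∫ q, (Gq θ φ q - b q) ^ 2 ∂(rho m) ≤ η ^ 2) :
    ‖∫ q, Uf (τ * β ^ 2) (fun i => β * θ i) q.1 * (Gq θ φ q : ℂ) ∂(rho m)‖ ≤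
      β * Real.sqrt (4 * τ * m.κ + 2 * ∫ q, tq θ q ^ 2 ∂(rho m)) * η := by
  have hl : 0 < τ * β ^ 2 := by positivity
  have hgU := gr_U_bound m hd hτ hβ θ
  set U := Uf (τ * β ^ 2) (fun i => β * θ i) with hUdef
  have hU : Measurable U := measurable_Uf hd hl _
  have hU1 : ∀ ω, ‖U ω‖ ≤ 1 := norm_Uf_le hd hl _
  have hGm := memLp_Gq m θ hφ hM
  have hGi : Integrable (fun q => (Gq θ φ q : ℂ)) (rho m) := (hGm.integrable (by norm_num)).ofReal
  have hbi : Integrable (fun q => (b q : ℂ)) (rho m) := (hb.integrable (by norm_num)).ofReal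
  have i1 : Integrable (fun q : Env d × V d => U q.1 * (Gq θ φ q : ℂ)) (rho m) :=
    hGi.bdd_mul (meas_fst hU).aestronglyMeasurable (Eventually.of_forall fun q => hU1 q.1)
  have i2 : Integrable (fun q : Env d × V d => U (shift q.2 q.1) * (Gq θ φ q : ℂ)) (rho m) :=
    hGi.bdd_mul (meas_sh hU).aestronglyMeasurable (Eventually.of_forall fun q => hU1 _)
  have hgrm : Measurable (gr U) := measurable_gr hU
  have hgrb : ∀ q, ‖gr U q‖ ≤ 2 := fun q => by
    unfold gr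
    refine (norm_sub_le _ _).trans ?_
    linarith [hU1 q.1, hU1 (shift q.2 q.1)]
  have i3 : Integrable (fun q : Env d × V d => gr U q * (Gq θ φ q : ℂ)) (rho m) :=
    hGi.bdd_mul hgrm.aestronglyMeasurable (Eventually.of_forall fun q => hgrb q)
  have i4 : Integrable (fun q : Env d × V d => gr U q * (b q : ℂ)) (rho m) :=
    hbi.bdd_mul hgrm.aestronglyMeasurable (Eventually.of_forall fun q => hgrb q)
  -- antisymmetry
  have h1 : ∫ q, U (shift q.2 q.1) * (Gq θ φ q : ℂ) ∂(rho m) =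
      -∫ q, U q.1 * (Gq θ φ q : ℂ) ∂(rho m) := by
    rw [← int_flip m (F := fun q => U q.1 * (Gq θ φ q : ℂ)) i1.aestronglyMeasurable,
      ← integral_neg]
    congr 1
    ext q
    rw [Gq_flip]
    unfold flip
    push_cast
    ring
  have h2 : ∫ q, gr U q * (Gq θ φ q : ℂ) ∂(rho m) = -2 * ∫ q, U q.1 * (Gq θ φ q : ℂ) ∂(rho m) := by
    have : ∫ q, gr U q * (Gq θ φ q : ℂ) ∂(rho m) =
        ∫ q, (U (shift q.2 q.1) * (Gq θ φ q : ℂ) - U q.1 * (Gq θ φ q : ℂ)) ∂(rho m) := by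
      congr 1
      ext q
      unfold gr
      ring
    rw [this, integral_sub i2 i1, h1]
    ring
  -- orthogonality
  have h3 : ∫ q, gr U q * (b q : ℂ) ∂(rho m) = 0 := by
    have hre : Measurable (fun ω => (U ω).re) := Complex.measurable_re.comp hU
    have him : Measurable (fun ω => (U ω).im) := Complex.measurable_im.comp hU
    have hreb : ∀ ω, |(U ω).re| ≤ 1 := fun ω => (Complex.abs_re_le_norm _).trans (hU1 ω)
    have himb : ∀ ω, |(U ω).im| ≤ 1 := fun ω => (Complex.abs_im_le_norm _).trans (hU1 ω)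
    have o1 := horth _ hre ⟨1, hreb⟩
    have o2 := horth _ him ⟨1, himb⟩
    have j1 : Integrable (fun q => gr (fun ω => (U ω).re) q * b q) (rho m) :=
      (hb.integrable (by norm_num)).bdd_mul (measurable_gr hre).aestronglyMeasurable (c := 2)
        (Eventually.of_forall fun q => by
          unfold gr
          rw [Real.norm_eq_abs]
          refine (abs_sub _ _).trans ?_
          linarith [hreb q.1, hreb (shift q.2 q.1)])
    have j2 : Integrable (fun q => gr (fun ω => (U ω).im) q * b q) (rho m) :=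
      (hb.integrable (by norm_num)).bdd_mul (measurable_gr him).aestronglyMeasurable (c := 2)
        (Eventually.of_forall fun q => by
          unfold gr
          rw [Real.norm_eq_abs]
          refine (abs_sub _ _).trans ?_
          linarith [himb q.1, himb (shift q.2 q.1)])
    have : ∀ q, gr U q * (b q : ℂ) = ((gr (fun ω => (U ω).re) q * b q : ℝ) : ℂ) +
        ((gr (fun ω => (U ω).im) q * b q : ℝ) : ℂ) * Complex.I := by
      intro q
      unfold gr
      apply Complex.ext <;> simp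
    simp_rw [this]
    rw [integral_add j1.ofReal (j2.ofReal.mul_const _), integral_mul_const, integral_complex_ofReal,
      integral_complex_ofReal, o1, o2]
    simp
  have h4 : ∫ q, gr U q * (Gq θ φ q : ℂ) ∂(rho m) =
      ∫ q, gr U q * ((Gq θ φ q - b q : ℝ) : ℂ) ∂(rho m) := by
    have : ∫ q, gr U q * ((Gq θ φ q - b q : ℝ) : ℂ) ∂(rho m) =
        ∫ q, (gr U q * (Gq θ φ q : ℂ) - gr U q * (b q : ℂ)) ∂(rho m) := by
      congr 1
      ext q
      push_cast
      ring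
    rw [this, integral_sub i3 i4, h3, sub_zero]
  have hHm : MemLp (fun q => Gq θ φ q - b q) 2 (rho m) := hGm.sub hb
  have h5 : ‖∫ q, gr U q * ((Gq θ φ q - b q : ℝ) : ℂ) ∂(rho m)‖ ≤
      (β * Real.sqrt (4 * τ * m.κ + 2 * ∫ q, tq θ q ^ 2 ∂(rho m))) * η := by
    refine (norm_integral_le_integral_norm _).trans ?_
    have e1 : ∀ q, ‖gr U q * ((Gq θ φ q - b q : ℝ) : ℂ)‖ = ‖gr U q‖ * |Gq θ φ q - b q| := by
      intro q
      rw [norm_mul, Complex.norm_real, Real.norm_eq_abs]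
    simp_rw [e1]
    have hF : MemLp (fun q => ‖gr U q‖) 2 (rho m) :=
      MemLp.of_bound hgrm.norm.aestronglyMeasurable 2 (Eventually.of_forall fun q => by
        rw [norm_norm]; exact hgrb q)
    have hG2 : MemLp (fun q => |Gq θ φ q - b q|) 2 (rho m) := hHm.abs
    have hcs := (le_abs_self _).trans (cs_int hF hG2)
    refine hcs.trans ?_
    simp_rw [sq_abs]
    apply mul_le_mul _ _ (Real.sqrt_nonneg _)
    · exact mul_nonneg hβ.le (Real.sqrt_nonneg _)
    · rw [← Real.sqrt_sq hβ.le, ← Real.sqrt_mul (sq_nonneg β)]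
      exact Real.sqrt_le_sqrt hgU
    · rw [← Real.sqrt_sq hη]
      exact Real.sqrt_le_sqrt happ
  rw [← h4, h2] at h5
  rw [norm_mul] at h5
  have h6 : ‖(-2 : ℂ)‖ = 2 := by norm_num
  rw [h6] at h5
  have h7 := norm_nonneg (∫ q, U q.1 * (Gq θ φ q : ℂ) ∂(rho m))
  generalize ‖∫ q, U q.1 * (Gq θ φ q : ℂ) ∂(rho m)‖ = A at h5 h7 ⊢
  generalize (∫ q, tq θ q ^ 2 ∂(rho m)) = B at h5 ⊢
  linarith

theorem W0_integral (m : Model d) (θ : Fin d → ℝ) {φ : Env d → ℝ} (hφ : Measurable φ) {M : ℝ}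
    (hM : ∀ ω, |φ ω| ≤ M) :
    ∫ q, W0 θ φ q ∂(rho m) = (∫ q, tq θ q * Gq θ φ q ∂(rho m)) / 2 := by
  have ht := memLp_tq m θ
  have hti := ht.integrable (q := 2) (by norm_num)
  have i1 : Integrable (fun q => tq θ q ^ 2) (rho m) := ht.integrable_sq
  have i2 : Integrable (fun q : Env d × V d => tq θ q * φ (shift q.2 q.1)) (rho m) :=
    hti.mul_bdd (meas_sh hφ).aestronglyMeasurable (Eventually.of_forall fun q => hM _)
  have i3 : Integrable (fun q : Env d × V d => tq θ q * φ q.1) (rho m) :=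
    hti.mul_bdd (meas_fst hφ).aestronglyMeasurable (Eventually.of_forall fun q => hM _)
  have h1 : ∫ q, tq θ q * φ (shift q.2 q.1) ∂(rho m) = -∫ q, tq θ q * φ q.1 ∂(rho m) := by
    rw [← int_flip m (F := fun q => tq θ q * φ q.1) i3.aestronglyMeasurable, ← integral_neg]
    congr 1
    ext q
    rw [tq_flip]
    unfold flip
    simp
  have h2 : ∫ q, W0 θ φ q ∂(rho m) =
      (∫ q, tq θ q ^ 2 ∂(rho m)) / 2 + ∫ q, tq θ q * φ (shift q.2 q.1) ∂(rho m) := by
    unfold W0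
    rw [integral_add (i1.div_const 2) i2, integral_div]
  have h3 : ∫ q, tq θ q * Gq θ φ q ∂(rho m) = ∫ q, tq θ q ^ 2 ∂(rho m) +
      (∫ q, tq θ q * φ (shift q.2 q.1) ∂(rho m) - ∫ q, tq θ q * φ q.1 ∂(rho m)) := by
    rw [← integral_sub i2 i3, ← integral_add i1 (isub i2 i3)]
    congr 1
    ext q
    unfold Gq gr
    ring
  rw [h2, h3, h1]
  ring

theorem tG_bound (m : Model d) (θ : Fin d → ℝ) {φ : Env d → ℝ} (hφ : Measurable φ) {M : ℝ}
    (hM : ∀ ω, |φ ω| ≤ M) {b : Env d × V d → ℝ} (hb : MemLp b 2 (rho m))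
    (horth : ∀ ψ : Env d → ℝ, Measurable ψ → (∃ M, ∀ ω, |ψ ω| ≤ M) → ∫ q, gr ψ q * b q ∂(rho m) = 0)
    {η : ℝ} (hη : 0 ≤ η) (happ : ∫ q, (Gq θ φ q - b q) ^ 2 ∂(rho m) ≤ η ^ 2) :
    |∫ q, tq θ q * Gq θ φ q ∂(rho m) - ∫ q, b q ^ 2 ∂(rho m)| ≤
      (Real.sqrt (∫ q, b q ^ 2 ∂(rho m)) + Real.sqrt (∫ q, tq θ q ^ 2 ∂(rho m))) * η := by
  have ht := memLp_tq m θ
  have hG := memLp_Gq m θ hφ hM
  have hH : MemLp (fun q => Gq θ φ q - b q) 2 (rho m) := hG.sub hb
  have hgr := memLp_gr m hφ hM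
  have i1 : Integrable (fun q => b q * (Gq θ φ q - b q)) (rho m) := hb.integrable_mul hH
  have i2 : Integrable (fun q => tq θ q * (Gq θ φ q - b q)) (rho m) := ht.integrable_mul hH
  have i3 : Integrable (fun q => b q ^ 2) (rho m) := hb.integrable_sq
  have i4 : Integrable (fun q => gr φ q * b q) (rho m) := hgr.integrable_mul hb
  have h0 := horth φ hφ ⟨M, hM⟩
  have h1 : ∫ q, tq θ q * Gq θ φ q ∂(rho m) = ∫ q, b q ^ 2 ∂(rho m) +
      (∫ q, b q * (Gq θ φ q - b q) ∂(rho m) + ∫ q, tq θ q * (Gq θ φ q - b q) ∂(rho m)) := by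
    have : ∫ q, tq θ q * Gq θ φ q ∂(rho m) = ∫ q, (b q ^ 2 + (b q * (Gq θ φ q - b q) +
        tq θ q * (Gq θ φ q - b q)) - gr φ q * b q) ∂(rho m) := by
      congr 1
      ext q
      unfold Gq
      ring
    rw [this, integral_sub (iadd i3 (iadd i1 i2)) i4, h0, sub_zero, integral_add i3 (iadd i1 i2),
      integral_add i1 i2]
  have h2 := cs_int hb hH
  have h3 := cs_int ht hH
  have h4 : Real.sqrt (∫ q, (Gq θ φ q - b q) ^ 2 ∂(rho m)) ≤ η := by
    rw [← Real.sqrt_sq hη]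
    exact Real.sqrt_le_sqrt happ
  rw [h1, add_sub_cancel_left]
  refine (abs_add_le _ _).trans ?_
  rw [add_mul]
  exact add_le_add (h2.trans (mul_le_mul_of_nonneg_left h4 (Real.sqrt_nonneg _)))
    (h3.trans (mul_le_mul_of_nonneg_left h4 (Real.sqrt_nonneg _)))

end Pool.Agent.Lib.QIP
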