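import Pool.Agent.Lib.QIP.Anneal3

/-!
# The annealed limit: conclusion
-/

set_option autoImplicit false

open MeasureTheory ProbabilityTheory Filter
open scoped ENNReal NNReal Topology BigOperators

namespace Pool.Agent.Lib.QIP

variable {d : ℕ}

/-- The mean of the resolvent. -/
noncomputable def mU (m : Model d) (τ : ℝ) (θ : Fin d → ℝ) (β : ℝ) : ℂ :=
  ∫ ω, Uf (τ * β ^ 2) (fun i => β * θ i) ω ∂m.μ

theorem norm_mU_le (m : Model d) (hd : 0 < d) {τ β : ℝ} (hτ : 0 < τ) (hβ : 0 < β)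
    (θ : Fin d → ℝ) : ‖mU m τ θ β‖ ≤ 1 := by
  unfold mU
  have h := norm_integral_le_of_norm_le_const (μ := m.μ)
    (f := fun ω => Uf (τ * β ^ 2) (fun i => β * θ i) ω) (C := 1)
    (Eventually.of_forall fun ω => norm_Uf_le hd (by positivity) _ ω)
  simpa using h

theorem dev_tendsto (hd : 3 ≤ d) (m : Model d) {τ : ℝ} (hτ : 0 < τ) (θ : Fin d → ℝ) :
    Tendsto (fun β : ℝ => ∫ q, ‖Uf (τ * β ^ 2) (fun i => β * θ i) q.1 - mU m τ θ β‖ ∂(rho m))
      (𝓝[>] 0) (𝓝 0) := by
  obtain ⟨K, hK, h⟩ := int_dev hd m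
  have h1 : Tendsto (fun β : ℝ => Real.sqrt (K * (τ * β ^ 2) ^ ((1 / 5) : ℝ))) (𝓝[>] 0)
      (𝓝 (Real.sqrt (K * (τ * 0 ^ 2) ^ ((1 / 5) : ℝ)))) := by
    refine tendsto_nhdsWithin_of_tendsto_nhds (Continuous.tendsto ?_ 0)
    refine Real.continuous_sqrt.comp (continuous_const.mul ?_)
    exact (Real.continuous_rpow_const (by norm_num)).comp (continuous_const.mul (continuous_pow 2))
  have h0 : Real.sqrt (K * (τ * 0 ^ 2) ^ ((1 / 5) : ℝ)) = 0 := by
    rw [show τ * (0 : ℝ) ^ 2 = 0 by ring, Real.zero_rpow (by norm_num), mul_zero, Real.sqrt_zero]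
  rw [h0] at h1
  refine squeeze_zero' (Eventually.of_forall fun β => integral_nonneg fun q => norm_nonneg _) ?_ h1
  have hsmall : ∀ᶠ β : ℝ in 𝓝[>] 0, τ * β ^ 2 ≤ 1 := by
    have h3 : Tendsto (fun β : ℝ => τ * β ^ 2) (𝓝[>] 0) (𝓝 (τ * 0 ^ 2)) :=
      (tendsto_beta_zero.pow 2).const_mul τ
    rw [show τ * (0 : ℝ) ^ 2 = 0 by ring] at h3
    exact h3.eventually (Iic_mem_nhds one_pos)
  filter_upwards [self_mem_nhdsWithin, hsmall] with β hβ hs
  have hβ' : 0 < β := hβ
  exact h (τ * β ^ 2) (by positivity) hs (fun i => β * θ i)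

theorem anneal_lim (hd : 3 ≤ d) (m : Model d) (θ : Fin d → ℝ) {b : Env d × V d → ℝ}
    (hb : MemLp b 2 (rho m))
    (horth : ∀ ψ : Env d → ℝ, Measurable ψ → (∃ M, ∀ ω, |ψ ω| ≤ M) → ∫ q, gr ψ q * b q ∂(rho m) = 0)
    (happ : ∀ η > 0, ∃ φ : Env d → ℝ, Measurable φ ∧ (∃ M, ∀ ω, |φ ω| ≤ M) ∧
      ∫ q, (Gq θ φ q - b q) ^ 2 ∂(rho m) ≤ η ^ 2) {τ : ℝ} (hτ : 0 < τ) :
    Tendsto (mU m τ θ) (𝓝[>] 0)
      (𝓝 (((τ * m.κ / (τ * m.κ + (∫ q, b q ^ 2 ∂(rho m)) / 2) : ℝ)) : ℂ)) := by
  have hd0 : 0 < d := by omega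
  have hκ := m.κ_pos hd0
  set Q := ∫ q, b q ^ 2 ∂(rho m) with hQ
  have hQ0 : 0 ≤ Q := integral_nonneg fun q => sq_nonneg _
  set D : ℝ := τ * m.κ + Q / 2 with hD
  have hD0 : 0 < D := by positivity
  have hDc : (D : ℂ) ≠ 0 := by exact_mod_cast hD0.ne'
  -- it suffices to treat the difference
  suffices hg : Tendsto (fun β => mU m τ θ β * D - ((τ * m.κ : ℝ) : ℂ)) (𝓝[>] 0) (𝓝 0) by
    have h1 : Tendsto (fun β => ((mU m τ θ β * D - ((τ * m.κ : ℝ) : ℂ)) + ((τ * m.κ : ℝ) : ℂ)) / D)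
        (𝓝[>] 0) (𝓝 ((0 + ((τ * m.κ : ℝ) : ℂ)) / D)) := (hg.add_const _).div_const _
    rw [zero_add] at h1
    have h2 : (((τ * m.κ : ℝ) : ℂ)) / D = ((τ * m.κ / D : ℝ) : ℂ) := by push_cast; ring
    rw [h2] at h1
    refine h1.congr fun β => ?_
    rw [sub_add_cancel, mul_div_cancel_right₀ _ hDc]
  set C1 := Real.sqrt (4 * τ * m.κ + 2 * ∫ q, tq θ q ^ 2 ∂(rho m)) with hC1
  set C2 := Real.sqrt Q + Real.sqrt (∫ q, tq θ q ^ 2 ∂(rho m)) with hC2
  have hC10 : 0 ≤ C1 := Real.sqrt_nonneg _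
  have hC20 : 0 ≤ C2 := add_nonneg (Real.sqrt_nonneg _) (Real.sqrt_nonneg _)
  rw [Metric.tendsto_nhds]
  intro ε hε
  have hηpos : 0 < ε / (2 * (C1 + C2 + 1)) := by positivity
  set η := ε / (2 * (C1 + C2 + 1)) with hη
  obtain ⟨φ, hφ, ⟨M, hM⟩, hφa⟩ := happ η hηpos
  have hM0 : 0 ≤ M := (abs_nonneg _).trans (hM (fun _ => true))
  have hφi : Integrable (fun q : Env d × V d => (φ q.1 : ℂ)) (rho m) :=
    integrable_bdd m (Complex.measurable_ofReal.comp (meas_fst hφ)) (M := M) (fun q => by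
      rw [Complex.norm_real]; exact hM _)
  -- the error term tending to zero
  set A : ℝ → ℂ := fun β =>
    -(τ : ℂ) * (∫ q, (Uf (τ * β ^ 2) (fun i => β * θ i) q.1 - mU m τ θ β) ∂(rho m)) +
    (τ : ℂ) * (Complex.I * β * ∫ q, Uf (τ * β ^ 2) (fun i => β * θ i) q.1 * (φ q.1 : ℂ) ∂(rho m)) -
    (∫ q, (Uf (τ * β ^ 2) (fun i => β * θ i) q.1 - mU m τ θ β) * Wq θ φ β q ∂(rho m)) -
    mU m τ θ β * (∫ q, (Wq θ φ β q - ((W0 θ φ q : ℝ) : ℂ)) ∂(rho m)) -
    (τ : ℂ) * (Complex.I * β * ∫ q, (φ q.1 : ℂ) ∂(rho m)) with hA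
  set B : ℝ → ℂ := fun β =>
    -(Complex.I / β * ∫ q, Uf (τ * β ^ 2) (fun i => β * θ i) q.1 * (Gq θ φ q : ℂ) ∂(rho m)) +
    mU m τ θ β * (((Q / 2 - ∫ q, W0 θ φ q ∂(rho m) : ℝ)) : ℂ) with hB
  have hbeta : ∀ᶠ β : ℝ in 𝓝[>] 0, 0 < β := self_mem_nhdsWithin
  have hAB : ∀ᶠ β : ℝ in 𝓝[>] 0, mU m τ θ β * D - ((τ * m.κ : ℝ) : ℂ) = A β + B β := by
    filter_upwards [hbeta] with β hβ
    have hl : 0 < τ * β ^ 2 := by positivity
    have hid := main_id m hd0 hτ hβ θ hφ hM
    rw [hA, hB]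
    simp only
    set U := Uf (τ * β ^ 2) (fun i => β * θ i) with hUdef
    have hU : Measurable U := measurable_Uf hd0 hl _
    have hU1 : ∀ ω, ‖U ω‖ ≤ 1 := norm_Uf_le hd0 hl _
    have hUi : Integrable (fun q : Env d × V d => U q.1) (rho m) :=
      integrable_bdd m (meas_fst hU) (fun q => hU1 q.1)
    have hUφi : Integrable (fun q : Env d × V d => U q.1 * (φ q.1 : ℂ)) (rho m) :=
      hφi.bdd_mul (meas_fst hU).aestronglyMeasurable (Eventually.of_forall fun q => hU1 q.1)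
    have hWi : Integrable (Wq θ φ β) (rho m) :=
      (integrable_w m θ M).mono' (measurable_Wq θ hφ β).aestronglyMeasurable
        (Eventually.of_forall fun q => norm_Wq_le θ hM hβ q)
    have hUWi : Integrable (fun q : Env d × V d => U q.1 * Wq θ φ β q) (rho m) :=
      hWi.bdd_mul (meas_fst hU).aestronglyMeasurable (Eventually.of_forall fun q => hU1 q.1)
    have hW0i : Integrable (fun q => ((W0 θ φ q : ℝ) : ℂ)) (rho m) := (integrable_W0 m θ hφ hM).ofReal
    have e1 : ∫ q, (U q.1 - mU m τ θ β) ∂(rho m) = (∫ q, U q.1 ∂(rho m)) - mU m τ θ β * m.κ := by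
      rw [integral_sub hUi (integrable_const _), integral_const, rho_real_univ]
      congr 1
      rw [Complex.real_smul, mul_comm]
    have e2 : ∫ q, U q.1 * Tf φ β q.1 ∂(rho m) = (∫ q, U q.1 ∂(rho m)) -
        Complex.I * β * ∫ q, U q.1 * (φ q.1 : ℂ) ∂(rho m) := by
      rw [← integral_const_mul, ← integral_sub hUi (hUφi.const_mul _)]
      congr 1
      ext q
      unfold Tf
      ring
    have e3 : ∫ q, (U q.1 - mU m τ θ β) * Wq θ φ β q ∂(rho m) =
        (∫ q, U q.1 * Wq θ φ β q ∂(rho m)) - mU m τ θ β * ∫ q, Wq θ φ β q ∂(rho m) := by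
      rw [← integral_const_mul, ← integral_sub hUWi (hWi.const_mul _)]
      congr 1
      ext q
      ring
    have e4 : ∫ q, (Wq θ φ β q - ((W0 θ φ q : ℝ) : ℂ)) ∂(rho m) =
        (∫ q, Wq θ φ β q ∂(rho m)) - ((∫ q, W0 θ φ q ∂(rho m) : ℝ) : ℂ) := by
      rw [integral_sub hWi hW0i, integral_complex_ofReal]
    have e5 : ∫ q : Env d × V d, Tf φ β q.1 ∂(rho m) = (m.κ : ℂ) - Complex.I * β * ∫ q, (φ q.1 : ℂ) ∂(rho m) := by
      have hone : ∫ _ : Env d × V d, (1 : ℂ) ∂(rho m) = (m.κ : ℂ) := by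
        rw [integral_const, rho_real_univ]
        simp
      rw [← hone, ← integral_const_mul, ← integral_sub (integrable_const _) (hφi.const_mul _)]
      congr 1
    rw [e1, e3, e4]
    rw [e2, e5] at hid
    generalize (∫ q, U q.1 ∂(rho m)) = X1 at hid ⊢
    generalize (∫ q, U q.1 * (φ q.1 : ℂ) ∂(rho m)) = X2 at hid ⊢
    generalize (∫ q, U q.1 * Wq θ φ β q ∂(rho m)) = X3 at hid ⊢
    generalize (∫ q, Wq θ φ β q ∂(rho m)) = X4 at hid ⊢
    generalize (∫ q, (φ q.1 : ℂ) ∂(rho m)) = X5 at hid ⊢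
    generalize (∫ q, U q.1 * (Gq θ φ q : ℂ) ∂(rho m)) = X6 at hid ⊢
    generalize (∫ q, W0 θ φ q ∂(rho m)) = X7 at hid ⊢
    rw [hD]
    push_cast
    linear_combination hid
  have hB1 : ∀ᶠ β : ℝ in 𝓝[>] 0, ‖B β‖ ≤ (C1 + C2) * η := by
    filter_upwards [hbeta] with β hβ
    have h1 := UG_bound m hd0 hτ hβ θ hφ hM hb horth hηpos.le hφa
    have h2 := tG_bound m θ hφ hM hb horth hηpos.le hφa
    have h3 := W0_integral m θ hφ hM
    have h4 := norm_mU_le m hd0 hτ hβ θ
    rw [hB]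
    simp only
    refine (norm_add_le _ _).trans ?_
    rw [norm_neg, norm_mul, norm_div, Complex.norm_I, Complex.norm_real, Real.norm_of_nonneg hβ.le,
      norm_mul, Complex.norm_real, Real.norm_eq_abs, h3]
    have h5 : 1 / β * ‖∫ q, Uf (τ * β ^ 2) (fun i => β * θ i) q.1 * (Gq θ φ q : ℂ) ∂(rho m)‖ ≤ C1 * η := by
      calc 1 / β * ‖∫ q, Uf (τ * β ^ 2) (fun i => β * θ i) q.1 * (Gq θ φ q : ℂ) ∂(rho m)‖
          ≤ 1 / β * (β * C1 * η) := mul_le_mul_of_nonneg_left h1 (by positivity)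
        _ = C1 * η := by field_simp
    have h6 : |Q / 2 - (∫ q, tq θ q * Gq θ φ q ∂(rho m)) / 2| ≤ C2 * η := by
      have : Q / 2 - (∫ q, tq θ q * Gq θ φ q ∂(rho m)) / 2 =
          -((∫ q, tq θ q * Gq θ φ q ∂(rho m)) - Q) / 2 := by ring
      rw [this, abs_div, abs_neg, abs_of_pos (show (0 : ℝ) < 2 by norm_num)]
      have h7 : 0 ≤ C2 * η := by positivity
      rw [← hQ, ← hC2] at h2
      linarith
    have h8 : ‖mU m τ θ β‖ * |Q / 2 - (∫ q, tq θ q * Gq θ φ q ∂(rho m)) / 2| ≤ 1 * (C2 * η) :=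
      mul_le_mul h4 h6 (abs_nonneg _) zero_le_one
    rw [add_mul]
    linarith
  -- the error term
  have hA0 : Tendsto A (𝓝[>] 0) (𝓝 0) := by
    have t1 : Tendsto (fun β : ℝ => ∫ q, (Uf (τ * β ^ 2) (fun i => β * θ i) q.1 - mU m τ θ β)
        ∂(rho m)) (𝓝[>] 0) (𝓝 0) := by
      rw [tendsto_zero_iff_norm_tendsto_zero]
      exact squeeze_zero (fun β => norm_nonneg _) (fun β => norm_integral_le_integral_norm _)
        (dev_tendsto hd m hτ θ)
    have hbd : ∀ (f : ℝ → ℂ) (K : ℝ), (∀ᶠ β : ℝ in 𝓝[>] 0, ‖f β‖ ≤ K) →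
        Tendsto (fun β : ℝ => (τ : ℂ) * (Complex.I * β * f β)) (𝓝[>] 0) (𝓝 0) := by
      intro f K hf
      rw [tendsto_zero_iff_norm_tendsto_zero]
      have h1 : Tendsto (fun β : ℝ => τ * K * β) (𝓝[>] 0) (𝓝 (τ * K * 0)) :=
        tendsto_beta_zero.const_mul _
      rw [mul_zero] at h1
      refine squeeze_zero' (Eventually.of_forall fun β => norm_nonneg _) ?_ h1
      filter_upwards [hf, hbeta] with β h2 h3
      rw [norm_mul, norm_mul, norm_mul, Complex.norm_I, one_mul, Complex.norm_real, Complex.norm_real,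
        Real.norm_of_nonneg hτ.le, Real.norm_of_nonneg h3.le]
      calc τ * (β * ‖f β‖) ≤ τ * (β * K) := by gcongr
        _ = τ * K * β := by ring
    have t2 := hbd (fun β => ∫ q, Uf (τ * β ^ 2) (fun i => β * θ i) q.1 * (φ q.1 : ℂ) ∂(rho m))
      (M * m.κ) (by
        filter_upwards [hbeta] with β hβ
        have hl : 0 < τ * β ^ 2 := by positivity
        have := norm_integral_le_of_norm_le_const (μ := rho m)
          (f := fun q : Env d × V d => Uf (τ * β ^ 2) (fun i => β * θ i) q.1 * (φ q.1 : ℂ)) (C := M)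
          (Eventually.of_forall fun q => by
            rw [norm_mul, Complex.norm_real, Real.norm_eq_abs]
            calc ‖Uf (τ * β ^ 2) (fun i => β * θ i) q.1‖ * |φ q.1| ≤ 1 * M :=
                  mul_le_mul (norm_Uf_le hd0 hl _ _) (hM _) (abs_nonneg _) zero_le_one
              _ = M := one_mul M)
        rwa [rho_real_univ] at this)
    have t3 : Tendsto (fun β : ℝ => ∫ q, (Uf (τ * β ^ 2) (fun i => β * θ i) q.1 - mU m τ θ β) *
        Wq θ φ β q ∂(rho m)) (𝓝[>] 0) (𝓝 0) := by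
      rw [tendsto_zero_iff_norm_tendsto_zero]
      have hui := ui_tendsto (ρ := rho m) (l := 𝓝[>] (0 : ℝ))
        (fun β q => Uf (τ * β ^ 2) (fun i => β * θ i) q.1 - mU m τ θ β)
        (integrable_w m θ M) (fun q => by positivity)
        (by
          filter_upwards [hbeta] with β hβ
          exact ((meas_fst (measurable_Uf hd0 (by positivity) _)).sub_const _).aestronglyMeasurable)
        (by
          filter_upwards [hbeta] with β hβ q
          refine (norm_sub_le _ _).trans ?_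
          have h1 := norm_Uf_le hd0 (lam := τ * β ^ 2) (by positivity) (fun i => β * θ i) q.1
          have h2 := norm_mU_le m hd0 hτ hβ θ
          linarith)
        (dev_tendsto hd m hτ θ)
      refine squeeze_zero' (Eventually.of_forall fun β => norm_nonneg _) ?_ hui
      filter_upwards [hbeta] with β hβ
      refine (norm_integral_le_integral_norm _).trans ?_
      have hU : Measurable (Uf (τ * β ^ 2) (fun i => β * θ i)) := measurable_Uf hd0 (by positivity) _
      refine integral_mono_of_nonneg (Eventually.of_forall fun q => norm_nonneg _) ?_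
        (Eventually.of_forall fun q => ?_)
      · refine (integrable_w m θ M).bdd_mul (c := 2)
          ((meas_fst hU).sub_const _).norm.aestronglyMeasurable (Eventually.of_forall fun q => ?_)
        rw [norm_norm]
        refine (norm_sub_le _ _).trans ?_
        have h1 := norm_Uf_le hd0 (lam := τ * β ^ 2) (by positivity) (fun i => β * θ i) q.1
        have h2 := norm_mU_le m hd0 hτ hβ θ
        linarith
      · show ‖(Uf (τ * β ^ 2) (fun i => β * θ i) q.1 - mU m τ θ β) * Wq θ φ β q‖ ≤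
          ‖Uf (τ * β ^ 2) (fun i => β * θ i) q.1 - mU m τ θ β‖ * (3 * tq θ q ^ 2 + |tq θ q| * M)
        rw [norm_mul]
        exact mul_le_mul_of_nonneg_left (norm_Wq_le θ hM hβ q) (norm_nonneg _)
    have t4 : Tendsto (fun β : ℝ => mU m τ θ β * ∫ q, (Wq θ φ β q - ((W0 θ φ q : ℝ) : ℂ)) ∂(rho m))
        (𝓝[>] 0) (𝓝 0) := by
      have hW : Tendsto (fun β : ℝ => ∫ q, (Wq θ φ β q - ((W0 θ φ q : ℝ) : ℂ)) ∂(rho m)) (𝓝[>] 0)
          (𝓝 (∫ _, (0 : ℂ) ∂(rho m))) := by
        refine tendsto_integral_filter_of_dominated_convergence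
          (fun q => 2 * (3 * tq θ q ^ 2 + |tq θ q| * M)) ?_ ?_ ((integrable_w m θ M).const_mul 2) ?_
        · exact Eventually.of_forall fun β => ((measurable_Wq θ hφ β).aestronglyMeasurable.sub
            (integrable_W0 m θ hφ hM).ofReal.aestronglyMeasurable)
        · filter_upwards [hbeta] with β hβ
          refine Eventually.of_forall fun q => ?_
          refine (norm_sub_le _ _).trans ?_
          have h1 := norm_Wq_le θ hM hβ q
          have h2 : ‖((W0 θ φ q : ℝ) : ℂ)‖ ≤ 3 * tq θ q ^ 2 + |tq θ q| * M := by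
            rw [Complex.norm_real, Real.norm_eq_abs]
            unfold W0
            refine (abs_add_le _ _).trans ?_
            apply add_le_add
            · rw [abs_of_nonneg (by positivity)]
              nlinarith [sq_nonneg (tq θ q)]
            · rw [abs_mul]
              exact mul_le_mul_of_nonneg_left (hM _) (abs_nonneg _)
          linarith
        · refine Eventually.of_forall fun q => ?_
          have := (Wq_tendsto θ φ q).sub_const ((W0 θ φ q : ℝ) : ℂ)
          rwa [sub_self] at this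
      rw [integral_zero] at hW
      rw [tendsto_zero_iff_norm_tendsto_zero] at hW ⊢
      refine squeeze_zero' (Eventually.of_forall fun β => norm_nonneg _) ?_ hW
      filter_upwards [hbeta] with β hβ
      rw [norm_mul]
      exact mul_le_of_le_one_left (norm_nonneg _) (norm_mU_le m hd0 hτ hβ θ)
    have t5 := hbd (fun _ => ∫ q, (φ q.1 : ℂ) ∂(rho m)) ‖∫ q, (φ q.1 : ℂ) ∂(rho m)‖
      (Eventually.of_forall fun _ => le_rfl)
    have := ((((t1.const_mul (-(τ : ℂ))).add t2).sub t3).sub t4).sub t5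
    simp only [mul_zero, add_zero, sub_zero] at this
    exact this
  have hAe := (tendsto_zero_iff_norm_tendsto_zero.1 hA0).eventually
    (Iio_mem_nhds (show (0 : ℝ) < ε / 2 by positivity))
  filter_upwards [hAB, hB1, hAe] with β h1 h2 h3
  have h3' : ‖A β‖ < ε / 2 := h3
  rw [h1, dist_zero_right]
  refine (norm_add_le _ _).trans_lt ?_
  have h4 : (C1 + C2) * η ≤ ε / 2 := by
    rw [hη]
    rw [mul_div_assoc', div_le_div_iff₀ (by positivity) (by positivity)]
    nlinarith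
  linarith

/-- The annealed limit. -/
theorem annealed (hd : 3 ≤ d) (m : Model d) : ∃ S : Matrix (Fin d) (Fin d) ℝ, S.PosDef ∧
    ∀ (τ : ℝ) (θ : Fin d → ℝ), 0 < τ →
      Tendsto (fun β : ℝ => ∫ ω, (cond ω).res Set.univ (τ * β ^ 2) (chr (fun i => β * θ i)) 0 ∂m.μ)
        (𝓝[>] 0) (𝓝 (((τ / (τ + (∑ i, ∑ j, θ i * S i j * θ j) / 2) : ℝ)) : ℂ)) := by
  have hd0 : 0 < d := by omega
  have hκ := m.κ_pos hd0
  obtain ⟨b, hb, horth, happ, hnd⟩ := corrector m
  have hbb : ∀ i j, Integrable (fun q => b i q * b j q) (rho m) := fun i j =>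
    (hb i).integrable_mul (hb j)
  set S : Matrix (Fin d) (Fin d) ℝ := Matrix.of fun i j => (∫ q, b i q * b j q ∂(rho m)) / m.κ with hS
  have hquad : ∀ θ : Fin d → ℝ, ∑ i, ∑ j, θ i * S i j * θ j =
      (∫ q, (∑ i, θ i * b i q) ^ 2 ∂(rho m)) / m.κ := by
    intro θ
    have h1 : ∀ q, (∑ i, θ i * b i q) ^ 2 = ∑ i, ∑ j, θ i * θ j * (b i q * b j q) := by
      intro q
      rw [sq, Finset.sum_mul_sum]
      apply Finset.sum_congr rfl
      intro i _
      apply Finset.sum_congr rfl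
      intro j _
      ring
    simp_rw [h1]
    rw [integral_finsetSum _ (fun i _ => integrable_finsetSum _ fun j _ => (hbb i j).const_mul _),
      Finset.sum_div]
    apply Finset.sum_congr rfl
    intro i _
    rw [integral_finsetSum _ (fun j _ => (hbb i j).const_mul _), Finset.sum_div]
    apply Finset.sum_congr rfl
    intro j _
    rw [integral_const_mul, hS]
    simp only [Matrix.of_apply]
    ring
  refine ⟨S, ?_, ?_⟩
  · apply Matrix.PosDef.of_dotProduct_mulVec_pos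
    · ext i j
      simp only [hS, Matrix.conjTranspose_apply, Matrix.of_apply, star_trivial]
      congr 2
      ext q
      ring
    · intro θ hθ
      have h1 : star θ ⬝ᵥ S.mulVec θ = ∑ i, ∑ j, θ i * S i j * θ j := by
        simp only [dotProduct, Matrix.mulVec, star_trivial]
        apply Finset.sum_congr rfl
        intro i _
        rw [Finset.mul_sum]
        apply Finset.sum_congr rfl
        intro j _
        ring
      rw [h1, hquad]
      apply div_pos _ hκ
      have hbθ : MemLp (fun q => ∑ i, θ i * b i q) 2 (rho m) :=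
        memLp_finsetSum Finset.univ fun i _ => (hb i).const_mul (θ i)
      have hnn : 0 ≤ ∫ q, (∑ i, θ i * b i q) ^ 2 ∂(rho m) := integral_nonneg fun q => sq_nonneg _
      rcases hnn.lt_or_eq with h2 | h2
      · exact h2
      · exfalso
        apply hθ
        ext j
        have h3 := cs_int hbθ (memLp_je m j)
        rw [← h2, Real.sqrt_zero, zero_mul] at h3
        have h4 : ∫ q, (∑ i, θ i * b i q) * je j q ∂(rho m) = θ j := by
          have h5 : ∀ q, (∑ i, θ i * b i q) * je j q = ∑ i, θ i * (b i q * je j q) := by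
            intro q
            rw [Finset.sum_mul]
            apply Finset.sum_congr rfl
            intro i _
            ring
          simp_rw [h5]
          have h6 : ∀ i, Integrable (fun q => b i q * je j q) (rho m) := fun i =>
            (hb i).integrable_mul (memLp_je m j)
          rw [integral_finsetSum _ (fun i _ => (h6 i).const_mul _)]
          simp_rw [integral_const_mul, hnd]
          simp
        rw [h4] at h3
        simpa using abs_nonpos_iff.1 h3
  · intro τ θ hτ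
    set bθ : Env d × V d → ℝ := fun q => ∑ i, θ i * b i q with hbθ
    have hbθm : MemLp bθ 2 (rho m) := memLp_finsetSum Finset.univ fun i _ => (hb i).const_mul (θ i)
    have horthθ : ∀ ψ : Env d → ℝ, Measurable ψ → (∃ M, ∀ ω, |ψ ω| ≤ M) →
        ∫ q, gr ψ q * bθ q ∂(rho m) = 0 := by
      rintro ψ hψ ⟨M, hM⟩
      have h1 : ∀ q, gr ψ q * bθ q = ∑ i, θ i * (gr ψ q * b i q) := by
        intro q
        rw [hbθ]
        simp only
        rw [Finset.mul_sum]
        apply Finset.sum_congr rfl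
        intro i _
        ring
      simp_rw [h1]
      have h6 : ∀ i, Integrable (fun q => gr ψ q * b i q) (rho m) := fun i =>
        (memLp_gr m hψ hM).integrable_mul (hb i)
      rw [integral_finsetSum _ (fun i _ => (h6 i).const_mul _)]
      simp_rw [integral_const_mul]
      rw [Finset.sum_eq_zero]
      intro i _
      rw [horth i ψ hψ ⟨M, hM⟩, mul_zero]
    have hlim := anneal_lim hd m θ hbθm horthθ (happ θ) hτ
    have h2 : τ * m.κ / (τ * m.κ + (∫ q, bθ q ^ 2 ∂(rho m)) / 2) =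
        τ / (τ + (∑ i, ∑ j, θ i * S i j * θ j) / 2) := by
      rw [hquad θ]
      change τ * m.κ / (τ * m.κ + (∫ q, bθ q ^ 2 ∂(rho m)) / 2) =
        τ / (τ + (∫ q, bθ q ^ 2 ∂(rho m)) / m.κ / 2)
      have hnn : 0 ≤ ∫ q, bθ q ^ 2 ∂(rho m) := integral_nonneg fun q => sq_nonneg _
      generalize (∫ q, bθ q ^ 2 ∂(rho m)) = Q at hnn ⊢
      have h3 : τ + Q / m.κ / 2 = (τ * m.κ + Q / 2) / m.κ := by
        field_simp
      rw [h3, div_div_eq_mul_div]
    rw [h2] at hlim
    exact hlim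

end Pool.Agent.Lib.QIP
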