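import Mathlib

/-!
# Lévy–Ciesielski kernel of the Brownian bridge

`KN N s t → min s t - s t` on `[0,1]`, by self-similarity.
-/

set_option autoImplicit false

open Filter
open scoped Topology BigOperators

namespace Pool.Agent.Lib.QIP.BMC

/-- The hat function. -/
noncomputable def hat (s : ℝ) : ℝ := max 0 (1 - |s|)

lemma hat_nonneg (s : ℝ) : 0 ≤ hat s := le_max_left _ _

lemma hat_le_one (s : ℝ) : hat s ≤ 1 := by
  unfold hat
  have := abs_nonneg s
  exact max_le (by norm_num) (by linarith)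

lemma continuous_hat : Continuous hat := by
  unfold hat
  fun_prop

lemma hat_eq_zero {s : ℝ} (h : 1 ≤ |s|) : hat s = 0 := by
  unfold hat
  exact max_eq_left (by linarith)

/-- The Schauder functions (unnormalised). -/
noncomputable def hh (n k : ℕ) (t : ℝ) : ℝ := hat (2 ^ (n + 1) * t - (2 * k + 1))

lemma hh_nonneg (n k : ℕ) (t : ℝ) : 0 ≤ hh n k t := hat_nonneg _

lemma hh_le_one (n k : ℕ) (t : ℝ) : hh n k t ≤ 1 := hat_le_one _

lemma continuous_hh (n k : ℕ) : Continuous (hh n k) := by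
  unfold hh
  exact continuous_hat.comp (by fun_prop)

lemma hh_zero_of_nonpos (n k : ℕ) {t : ℝ} (ht : t ≤ 0) : hh n k t = 0 := by
  apply hat_eq_zero
  have h1 : (2 : ℝ) ^ (n + 1) * t ≤ 0 := mul_nonpos_of_nonneg_of_nonpos (by positivity) ht
  have h2 : (0 : ℝ) ≤ k := by positivity
  rw [abs_of_nonpos (by linarith)]
  linarith

lemma hh_zero_of_one_le (n k : ℕ) (hk : k < 2 ^ n) {t : ℝ} (ht : 1 ≤ t) : hh n k t = 0 := by
  apply hat_eq_zero
  have h1 : (2 : ℝ) ^ (n + 1) ≤ 2 ^ (n + 1) * t := by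
    have : (0 : ℝ) < 2 ^ (n + 1) := by positivity
    nlinarith
  have h2 : (k : ℝ) + 1 ≤ 2 ^ n := by exact_mod_cast hk
  have h3 : (2 : ℝ) ^ (n + 1) = 2 * 2 ^ n := by ring
  rw [abs_of_nonneg (by linarith)]
  linarith

lemma hh_succ_left (n k : ℕ) (t : ℝ) : hh (n + 1) k t = hh n k (2 * t) := by
  unfold hh
  congr 1
  ring

lemma hh_succ_right (n k : ℕ) (t : ℝ) : hh (n + 1) (2 ^ n + k) t = hh n k (2 * t - 1) := by
  unfold hh
  congr 1
  push_cast
  ring

/-- at most one hat is nonzero: a weighted sum is bounded by the largest coefficient. -/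
lemma abs_sum_hh_le (n m : ℕ) (t : ℝ) (a : ℕ → ℝ) (A : ℝ) (hA : 0 ≤ A)
    (ha : ∀ k < m, |a k| ≤ A) : |∑ k ∈ Finset.range m, hh n k t * a k| ≤ A := by
  by_cases h : ∃ k ∈ Finset.range m, hh n k t ≠ 0
  · obtain ⟨k, hk, hne⟩ := h
    rw [Finset.sum_eq_single_of_mem k hk]
    · rw [abs_mul, abs_of_nonneg (hh_nonneg _ _ _)]
      calc hh n k t * |a k| ≤ 1 * A :=
            mul_le_mul (hh_le_one _ _ _) (ha k (Finset.mem_range.1 hk)) (abs_nonneg _) zero_le_one
        _ = A := one_mul _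
    · intro j hj hjk
      have h1 : |2 ^ (n + 1) * t - (2 * (k : ℝ) + 1)| < 1 := by
        by_contra hcon
        exact hne (hat_eq_zero (not_lt.1 hcon))
      have h2 : hh n j t = 0 := by
        apply hat_eq_zero
        rw [abs_lt] at h1
        rcases lt_or_gt_of_ne hjk with hlt | hgt
        · have : (j : ℝ) + 1 ≤ k := by exact_mod_cast hlt
          rw [abs_of_nonneg (by linarith)]
          linarith
        · have : (k : ℝ) + 1 ≤ j := by exact_mod_cast hgt
          rw [abs_of_nonpos (by linarith)]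
          linarith
      rw [h2, zero_mul]
  · push Not at h
    rw [Finset.sum_eq_zero (fun k hk => by rw [h k hk, zero_mul])]
    simpa using hA

/-- clamp to `[0,1]` -/
noncomputable def cl (s : ℝ) : ℝ := max 0 (min 1 s)

/-- the covariance of the Brownian bridge (extended by zero) -/
noncomputable def K (s t : ℝ) : ℝ := min (cl s) (cl t) - cl s * cl t

lemma cl_nonneg (s : ℝ) : 0 ≤ cl s := le_max_left _ _

lemma cl_le_one (s : ℝ) : cl s ≤ 1 := max_le zero_le_one (min_le_left _ _)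

lemma cl_of_nonpos {s : ℝ} (h : s ≤ 0) : cl s = 0 := by
  unfold cl
  rw [min_eq_right (by linarith), max_eq_left h]

lemma cl_of_one_le {s : ℝ} (h : 1 ≤ s) : cl s = 1 := by
  unfold cl
  rw [min_eq_left h, max_eq_right zero_le_one]

lemma cl_of_mem {s : ℝ} (h0 : 0 ≤ s) (h1 : s ≤ 1) : cl s = s := by
  unfold cl
  rw [min_eq_right h1, max_eq_right h0]

lemma K_of_mem {s t : ℝ} (hs0 : 0 ≤ s) (hs1 : s ≤ 1) (ht0 : 0 ≤ t) (ht1 : t ≤ 1) :
    K s t = min s t - s * t := by
  unfold K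
  rw [cl_of_mem hs0 hs1, cl_of_mem ht0 ht1]

lemma K_zero_of_nonpos {s t : ℝ} (h : s ≤ 0) : K s t = 0 := by
  unfold K
  rw [cl_of_nonpos h, min_eq_left (cl_nonneg t)]
  ring

lemma K_zero_of_one_le {s t : ℝ} (h : 1 ≤ s) : K s t = 0 := by
  unfold K
  rw [cl_of_one_le h, min_eq_right (cl_le_one t)]
  ring

lemma K_nonneg (s t : ℝ) : 0 ≤ K s t := by
  unfold K
  have h1 := cl_nonneg s
  have h2 := cl_nonneg t
  have h3 := cl_le_one s
  have h4 := cl_le_one t
  rcases le_total (cl s) (cl t) with h | h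
  · rw [min_eq_left h]; nlinarith
  · rw [min_eq_right h]; nlinarith

lemma K_le (s t : ℝ) : K s t ≤ 1 / 4 := by
  unfold K
  have h1 := cl_nonneg s
  have h2 := cl_nonneg t
  have h3 := cl_le_one s
  have h4 := cl_le_one t
  rcases le_total (cl s) (cl t) with h | h
  · rw [min_eq_left h]; nlinarith [sq_nonneg (cl s - 1 / 2)]
  · rw [min_eq_right h]; nlinarith [sq_nonneg (cl t - 1 / 2)]

lemma region (s : ℝ) :
    (s ≤ 0 ∧ hat (2 * s - 1) = 0 ∧ cl s = 0 ∧ cl (2 * s) = 0 ∧ cl (2 * s - 1) = 0) ∨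
    (0 ≤ s ∧ s ≤ 1 / 2 ∧ hat (2 * s - 1) = 2 * s ∧ cl s = s ∧ cl (2 * s) = 2 * s ∧
      cl (2 * s - 1) = 0) ∨
    (1 / 2 ≤ s ∧ s ≤ 1 ∧ hat (2 * s - 1) = 2 - 2 * s ∧ cl s = s ∧ cl (2 * s) = 1 ∧
      cl (2 * s - 1) = 2 * s - 1) ∨
    (1 ≤ s ∧ hat (2 * s - 1) = 0 ∧ cl s = 1 ∧ cl (2 * s) = 1 ∧ cl (2 * s - 1) = 1) := by
  rcases le_total s 0 with h | h
  · left
    refine ⟨h, hat_eq_zero ?_, cl_of_nonpos h, cl_of_nonpos (by linarith),
      cl_of_nonpos (by linarith)⟩
    rw [abs_of_nonpos (by linarith)]; linarith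
  rcases le_total s (1 / 2) with h' | h'
  · right; left
    refine ⟨h, h', ?_, cl_of_mem h (by linarith), cl_of_mem (by linarith) (by linarith),
      cl_of_nonpos (by linarith)⟩
    unfold hat
    rw [abs_of_nonpos (by linarith), max_eq_right (by linarith)]; ring
  rcases le_total s 1 with h'' | h''
  · right; right; left
    refine ⟨h', h'', ?_, cl_of_mem h (by linarith), cl_of_one_le (by linarith),
      cl_of_mem (by linarith) (by linarith)⟩
    unfold hat
    rw [abs_of_nonneg (by linarith), max_eq_right (by linarith)]; ring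
  · right; right; right
    refine ⟨h'', hat_eq_zero ?_, cl_of_one_le h'', cl_of_one_le (by linarith),
      cl_of_one_le (by linarith)⟩
    rw [abs_of_nonneg (by linarith)]; linarith

set_option maxHeartbeats 2000000 in
/-- self-similarity of the bridge covariance -/
lemma K_rec (s t : ℝ) : K s t = 1 / 4 * (hat (2 * s - 1) * hat (2 * t - 1)) +
    1 / 2 * K (2 * s) (2 * t) + 1 / 2 * K (2 * s - 1) (2 * t - 1) := by
  unfold K
  rcases region s with ⟨a1, a2, a3, a4, a5⟩ | ⟨a0, a1, a2, a3, a4, a5⟩ | ⟨a0, a1, a2, a3, a4, a5⟩ |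
      ⟨a1, a2, a3, a4, a5⟩ <;>
    rcases region t with ⟨b1, b2, b3, b4, b5⟩ | ⟨b0, b1, b2, b3, b4, b5⟩ |
      ⟨b0, b1, b2, b3, b4, b5⟩ | ⟨b1, b2, b3, b4, b5⟩ <;>
    rw [a2, a3, a4, a5, b2, b3, b4, b5] <;> simp only [min_def] <;> split_ifs <;>
    linarith

/-- partial sums of the Lévy–Ciesielski expansion of the covariance -/
noncomputable def KN (N : ℕ) (s t : ℝ) : ℝ :=
  ∑ n ∈ Finset.range N, (1 / 4 * (1 / 2) ^ n) *
    ∑ k ∈ Finset.range (2 ^ n), hh n k s * hh n k t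

lemma KN_zero_of_nonpos (N : ℕ) {s t : ℝ} (h : s ≤ 0) : KN N s t = 0 := by
  unfold KN
  refine Finset.sum_eq_zero fun n _ => ?_
  rw [Finset.sum_eq_zero fun k _ => by rw [hh_zero_of_nonpos _ _ h, zero_mul], mul_zero]

lemma KN_zero_of_one_le (N : ℕ) {s t : ℝ} (h : 1 ≤ s) : KN N s t = 0 := by
  unfold KN
  refine Finset.sum_eq_zero fun n _ => ?_
  rw [Finset.sum_eq_zero fun k hk => by
    rw [hh_zero_of_one_le _ _ (Finset.mem_range.1 hk) h, zero_mul], mul_zero]

lemma KN_rec (N : ℕ) (s t : ℝ) : KN (N + 1) s t = 1 / 4 * (hat (2 * s - 1) * hat (2 * t - 1)) +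
    1 / 2 * KN N (2 * s) (2 * t) + 1 / 2 * KN N (2 * s - 1) (2 * t - 1) := by
  unfold KN
  rw [Finset.sum_range_succ', add_comm]
  have h0 : (1 / 4 * (1 / 2) ^ 0 : ℝ) *
      ∑ k ∈ Finset.range (2 ^ 0), hh 0 k s * hh 0 k t
      = 1 / 4 * (hat (2 * s - 1) * hat (2 * t - 1)) := by
    simp [hh]
  rw [h0, add_assoc]
  congr 1
  rw [Finset.mul_sum, Finset.mul_sum, ← Finset.sum_add_distrib]
  refine Finset.sum_congr rfl fun n _ => ?_
  have h1 : 2 ^ (n + 1) = 2 ^ n + 2 ^ n := by ring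
  rw [h1, Finset.sum_range_add]
  simp only [hh_succ_right]
  simp only [hh_succ_left]
  ring

lemma abs_K_sub_KN (N : ℕ) : ∀ s t : ℝ, |K s t - KN N s t| ≤ 1 / 4 * (1 / 2) ^ N := by
  induction N with
  | zero =>
    intro s t
    have : KN 0 s t = 0 := by simp [KN]
    rw [this, sub_zero, abs_of_nonneg (K_nonneg s t)]
    simpa using K_le s t
  | succ N ih =>
    intro s t
    rw [K_rec, KN_rec]
    have e : 1 / 4 * (hat (2 * s - 1) * hat (2 * t - 1)) + 1 / 2 * K (2 * s) (2 * t) +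
        1 / 2 * K (2 * s - 1) (2 * t - 1) -
        (1 / 4 * (hat (2 * s - 1) * hat (2 * t - 1)) + 1 / 2 * KN N (2 * s) (2 * t) +
          1 / 2 * KN N (2 * s - 1) (2 * t - 1)) =
        1 / 2 * (K (2 * s) (2 * t) - KN N (2 * s) (2 * t)) +
          1 / 2 * (K (2 * s - 1) (2 * t - 1) - KN N (2 * s - 1) (2 * t - 1)) := by ring
    rw [e]
    rcases le_total s (1 / 2) with h | h
    · rw [K_zero_of_nonpos (s := 2 * s - 1) (by linarith),
        KN_zero_of_nonpos (s := 2 * s - 1) N (by linarith), sub_zero, mul_zero, add_zero,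
        abs_mul, abs_of_pos (by norm_num : (0 : ℝ) < 1 / 2)]
      have := ih (2 * s) (2 * t)
      rw [pow_succ]
      linarith
    · rw [K_zero_of_one_le (s := 2 * s) (by linarith),
        KN_zero_of_one_le (s := 2 * s) N (by linarith), sub_zero, mul_zero, zero_add,
        abs_mul, abs_of_pos (by norm_num : (0 : ℝ) < 1 / 2)]
      have := ih (2 * s - 1) (2 * t - 1)
      rw [pow_succ]
      linarith

lemma tendsto_KN (s t : ℝ) : Tendsto (fun N => KN N s t) atTop (𝓝 (K s t)) := by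
  rw [tendsto_iff_norm_sub_tendsto_zero]
  have h : Tendsto (fun N : ℕ => (1 / 4 * (1 / 2) ^ N : ℝ)) atTop (𝓝 0) := by
    have := (tendsto_pow_atTop_nhds_zero_of_lt_one (r := (1 / 2 : ℝ)) (by norm_num)
      (by norm_num)).const_mul (1 / 4)
    rwa [mul_zero] at this
  refine squeeze_zero (fun _ => norm_nonneg _) (fun N => ?_) h
  rw [norm_sub_rev, Real.norm_eq_abs]
  exact abs_K_sub_KN N s t

end Pool.Agent.Lib.QIP.BMC
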