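import Mathlib
import Pool.Agent.Lib.QIP.BMCov

/-!
# Lévy–Ciesielski construction of real Brownian motion
-/

set_option autoImplicit false

open MeasureTheory ProbabilityTheory Filter
open scoped ENNReal NNReal Topology BigOperators

namespace Pool.Agent.Lib.QIP.BMC

/-- index set of the i.i.d. Gaussians -/
abbrev Ix : Type := (_ : ℕ) × ℕ

/-- the probability space -/
abbrev Om : Type := Ix → ℝ

/-- i.i.d. standard Gaussians -/
noncomputable def PP : Measure Om := Measure.infinitePi (fun _ : Ix => gaussianReal 0 1)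

instance : IsProbabilityMeasure PP := by unfold PP; infer_instance

/-- characteristic function of finite linear combinations -/
lemma charF (F : Finset Ix) (a : Ix → ℝ) :
    ∫ ω, Complex.exp (Complex.I * ((∑ p ∈ F, a p * ω p : ℝ) : ℂ)) ∂PP =
      Complex.exp (-((∑ p ∈ F, a p ^ 2 : ℝ) : ℂ) / 2) := by
  have h1 : ∀ ω : Om, Complex.exp (Complex.I * ((∑ p ∈ F, a p * ω p : ℝ) : ℂ)) =
      (fun y : F → ℝ => ∏ p : F, Complex.exp ((a p : ℂ) * (y p : ℂ) * Complex.I)) (F.restrict ω) := by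
    intro ω
    simp only [Finset.restrict]
    rw [← Complex.exp_sum]
    congr 1
    rw [Finset.sum_coe_sort F (fun p => (a p : ℂ) * (ω p : ℂ) * Complex.I)]
    push_cast
    rw [Finset.mul_sum]
    exact Finset.sum_congr rfl fun p _ => by ring
  simp_rw [h1]
  unfold PP
  rw [integral_restrict_infinitePi (μ := fun _ : Ix => gaussianReal 0 1)
    (f := fun y : F → ℝ => ∏ p : F, Complex.exp ((a p : ℂ) * (y p : ℂ) * Complex.I)) (by
      apply Measurable.aestronglyMeasurable
      fun_prop)]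
  rw [integral_fintype_prod_eq_prod (fun (p : F) (x : ℝ) =>
    Complex.exp ((a p : ℂ) * (x : ℂ) * Complex.I))]
  have h2 : ∀ p : F, ∫ x : ℝ, Complex.exp ((a p : ℂ) * (x : ℂ) * Complex.I) ∂(gaussianReal 0 1) =
      Complex.exp (-((a p ^ 2 : ℝ) : ℂ) / 2) := by
    intro p
    have := charFun_gaussianReal (μ := 0) (v := 1) (a p)
    rw [charFun_apply_real] at this
    rw [this]
    congr 1
    push_cast
    simp only [mul_zero, zero_mul, zero_sub, NNReal.coe_one, one_mul]
    ring
  simp_rw [h2]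
  rw [← Complex.exp_sum]
  congr 1
  rw [Finset.sum_coe_sort F (fun p => -((a p ^ 2 : ℝ) : ℂ) / 2)]
  push_cast
  rw [← Finset.sum_div, Finset.sum_neg_distrib]

/-- the `n`-th layer -/
noncomputable def L (n : ℕ) (t : ℝ) (ω : Om) : ℝ :=
  1 / 2 * (1 / Real.sqrt 2) ^ n * ∑ k ∈ Finset.range (2 ^ n), hh n k t * ω ⟨n, k⟩

/-- bound for the layer -/
noncomputable def gg (n : ℕ) (ω : Om) : ℝ :=
  (1 / Real.sqrt 2) ^ n * ((5 / 4) ^ n +
    (4 / 5) ^ (3 * n) * ∑ k ∈ Finset.range (2 ^ n), ω ⟨n, k⟩ ^ 4)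

lemma gg_nonneg (n : ℕ) (ω : Om) : 0 ≤ gg n ω := by
  unfold gg
  have : 0 ≤ ∑ k ∈ Finset.range (2 ^ n), ω ⟨n, k⟩ ^ 4 :=
    Finset.sum_nonneg fun k _ => by positivity
  positivity

lemma measurable_L (n : ℕ) (t : ℝ) : Measurable (L n t) := by
  unfold L
  fun_prop

lemma measurable_gg (n : ℕ) : Measurable (gg n) := by
  unfold gg
  fun_prop

lemma continuous_L (n : ℕ) (ω : Om) : Continuous (fun t => L n t ω) := by
  unfold L
  refine continuous_const.mul (continuous_finsetSum _ fun k _ => ?_)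
  exact (continuous_hh n k).mul continuous_const

lemma abs_L_le (n : ℕ) (t : ℝ) (ω : Om) : |L n t ω| ≤ gg n ω := by
  unfold L gg
  have hS : 0 ≤ ∑ k ∈ Finset.range (2 ^ n), ω ⟨n, k⟩ ^ 4 :=
    Finset.sum_nonneg fun k _ => by positivity
  have hA : 0 ≤ (5 / 4 : ℝ) ^ n + (4 / 5) ^ (3 * n) * ∑ k ∈ Finset.range (2 ^ n), ω ⟨n, k⟩ ^ 4 := by
    positivity
  rw [abs_mul, abs_of_nonneg (by positivity : (0 : ℝ) ≤ 1 / 2 * (1 / Real.sqrt 2) ^ n)]
  have key := abs_sum_hh_le n (2 ^ n) t (fun k => ω ⟨n, k⟩)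
    ((5 / 4 : ℝ) ^ n + (4 / 5) ^ (3 * n) * ∑ k ∈ Finset.range (2 ^ n), ω ⟨n, k⟩ ^ 4) hA (by
      intro k hk
      have h1 : ω ⟨n, k⟩ ^ 4 ≤ ∑ k ∈ Finset.range (2 ^ n), ω ⟨n, k⟩ ^ 4 :=
        Finset.single_le_sum (f := fun k => ω (⟨n, k⟩ : Ix) ^ 4) (fun k _ => by positivity)
          (Finset.mem_range.2 hk)
      -- x ≤ l + x^4 / l^3
      set x := |ω ⟨n, k⟩| with hx
      have hx0 : 0 ≤ x := abs_nonneg _
      have hx4 : x ^ 4 = ω ⟨n, k⟩ ^ 4 := by rw [hx]; exact (even_two_mul 2).pow_abs _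
      set l := (5 / 4 : ℝ) ^ n with hl
      have hl0 : 0 < l := by positivity
      have hl3 : (4 / 5 : ℝ) ^ (3 * n) = (l⁻¹) ^ 3 := by
        rw [hl, ← inv_pow, ← pow_mul, mul_comm]
        norm_num
      rw [hl3]
      have h2 : (l⁻¹) ^ 3 * x ^ 4 ≤ (l⁻¹) ^ 3 * ∑ k ∈ Finset.range (2 ^ n), ω ⟨n, k⟩ ^ 4 := by
        apply mul_le_mul_of_nonneg_left _ (by positivity)
        rw [hx4]; exact h1
      refine le_trans ?_ (add_le_add_right h2 l)
      rcases le_total x l with h | h
      · have : 0 ≤ (l⁻¹) ^ 3 * x ^ 4 := by positivity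
        linarith
      · have h3 : x ≤ (l⁻¹) ^ 3 * x ^ 4 := by
          have h4 : 1 ≤ (l⁻¹ * x) := by
            rw [inv_mul_eq_div, le_div_iff₀ hl0]; linarith
          have h5 : 1 ≤ (l⁻¹ * x) ^ 3 := one_le_pow₀ h4
          calc x = 1 * x := (one_mul x).symm
            _ ≤ (l⁻¹ * x) ^ 3 * x := mul_le_mul_of_nonneg_right h5 hx0
            _ = (l⁻¹) ^ 3 * x ^ 4 := by ring
        linarith)
  calc 1 / 2 * (1 / Real.sqrt 2) ^ n * |∑ k ∈ Finset.range (2 ^ n), hh n k t * ω ⟨n, k⟩|
      ≤ 1 * (1 / Real.sqrt 2) ^ n * ((5 / 4 : ℝ) ^ n + (4 / 5) ^ (3 * n) *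
          ∑ k ∈ Finset.range (2 ^ n), ω ⟨n, k⟩ ^ 4) := by
        apply mul_le_mul _ key (abs_nonneg _) (by positivity)
        apply mul_le_mul_of_nonneg_right (by norm_num) (by positivity)
    _ = _ := by ring

/-- the fourth moment -/
noncomputable def m4 : ℝ := ∫ x, x ^ 4 ∂(gaussianReal 0 1)

lemma integrable_pow4 : Integrable (fun x : ℝ => x ^ 4) (gaussianReal 0 1) := by
  have h := (memLp_id_gaussianReal (μ := 0) (v := 1) 4).integrable_norm_pow (by norm_num)
  refine h.congr (Eventually.of_forall fun x => ?_)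
  simp only [id, Real.norm_eq_abs]
  exact (even_two_mul 2).pow_abs x

lemma integrable_coord (p : Ix) : Integrable (fun ω : Om => ω p ^ 4) PP := by
  have h := (measurePreserving_eval_infinitePi (fun _ : Ix => gaussianReal 0 1) p)
  exact h.integrable_comp_of_integrable integrable_pow4

lemma integral_coord (p : Ix) : ∫ ω : Om, ω p ^ 4 ∂PP = m4 := by
  have h := (measurePreserving_eval_infinitePi (fun _ : Ix => gaussianReal 0 1) p)
  have h2 := integral_map (μ := PP) (φ := Function.eval p) (h.measurable.aemeasurable)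
    (f := fun x : ℝ => x ^ 4) (by
      apply Measurable.aestronglyMeasurable; fun_prop)
  unfold PP at h2 ⊢
  rw [h.map_eq] at h2
  rw [m4, h2]

lemma integrable_gg (n : ℕ) : Integrable (gg n) PP := by
  unfold gg
  refine Integrable.const_mul ?_ _
  refine Integrable.add (integrable_const _) ?_
  refine Integrable.const_mul ?_ _
  exact integrable_finsetSum _ fun k _ => integrable_coord _

lemma integral_gg (n : ℕ) : ∫ ω, gg n ω ∂PP =
    (1 / Real.sqrt 2 * (5 / 4)) ^ n + m4 * (1 / Real.sqrt 2 * (4 / 5) ^ 3 * 2) ^ n := by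
  unfold gg
  rw [integral_const_mul, integral_add (integrable_const _)
    (Integrable.const_mul (integrable_finsetSum _ fun k _ => integrable_coord _) _),
    integral_const_mul, integral_finsetSum _ (fun k _ => integrable_coord _)]
  simp only [integral_coord, integral_const, probReal_univ, Finset.sum_const, Finset.card_range,
    smul_eq_mul, nsmul_eq_mul, one_mul]
  push_cast
  rw [mul_pow, mul_pow, mul_pow, pow_mul]
  ring

lemma m4_nonneg : 0 ≤ m4 := integral_nonneg fun x => by positivity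

lemma summable_integral_gg : Summable (fun n => ∫ ω, gg n ω ∂PP) := by
  simp_rw [integral_gg]
  have hs : (1.41 : ℝ) < Real.sqrt 2 := by
    rw [Real.lt_sqrt (by norm_num)]; norm_num
  have hpos : (0 : ℝ) < Real.sqrt 2 := by positivity
  have hinv : 1 / Real.sqrt 2 < 1 / 1.41 := one_div_lt_one_div_of_lt (by norm_num) hs
  have hinv0 : 0 < 1 / Real.sqrt 2 := by positivity
  refine Summable.add ?_ (Summable.mul_left _ ?_)
  · refine summable_geometric_of_lt_one (by positivity) ?_
    norm_num at hinv ⊢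
    linarith
  · refine summable_geometric_of_lt_one (by positivity) ?_
    norm_num at hinv ⊢
    linarith

/-- the good event -/
def GG : Set Om := {ω | ∑' n, ENNReal.ofReal (gg n ω) < ⊤}

lemma measurableSet_GG : MeasurableSet GG := by
  have : Measurable (fun ω : Om => ∑' n, ENNReal.ofReal (gg n ω)) :=
    Measurable.tsum fun n => (measurable_gg n).ennreal_ofReal
  exact this measurableSet_Iio

lemma ae_GG : ∀ᵐ ω ∂PP, ω ∈ GG := by
  have h1 : ∫⁻ ω, ∑' n, ENNReal.ofReal (gg n ω) ∂PP ≠ ⊤ := by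
    rw [lintegral_tsum fun n => (measurable_gg n).ennreal_ofReal.aemeasurable]
    have h2 : ∀ n, ∫⁻ ω, ENNReal.ofReal (gg n ω) ∂PP = ENNReal.ofReal (∫ ω, gg n ω ∂PP) := by
      intro n
      rw [ofReal_integral_eq_lintegral_ofReal (integrable_gg n)
        (Eventually.of_forall (gg_nonneg n))]
    simp_rw [h2]
    exact summable_integral_gg.tsum_ofReal_ne_top
  exact ae_lt_top (Measurable.tsum fun n => (measurable_gg n).ennreal_ofReal) h1

lemma summable_gg {ω : Om} (h : ω ∈ GG) : Summable (fun n => gg n ω) := by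
  have h1 := ENNReal.summable_toReal (ne_of_lt h)
  simpa only [ENNReal.toReal_ofReal (gg_nonneg _ _)] using h1

lemma summable_L {ω : Om} (h : ω ∈ GG) (t : ℝ) : Summable (fun n => L n t ω) :=
  Summable.of_norm_bounded (summable_gg h) fun n => by
    rw [Real.norm_eq_abs]; exact abs_L_le n t ω

open Classical in
/-- the continuous bridge -/
noncomputable def Y (t : ℝ) (ω : Om) : ℝ := if ω ∈ GG then ∑' n, L n t ω else 0

lemma continuous_Y (ω : Om) : Continuous (fun t => Y t ω) := by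
  unfold Y
  split_ifs with h
  · exact continuous_tsum (fun n => continuous_L n ω) (summable_gg h) fun n t => by
      rw [Real.norm_eq_abs]; exact abs_L_le n t ω
  · exact continuous_const

open Classical in
lemma measurable_Y (t : ℝ) : Measurable (Y t) := by
  refine measurable_of_tendsto_metrizable (f := fun (N : ℕ) (ω : Om) =>
    if ω ∈ GG then ∑ n ∈ Finset.range N, L n t ω else 0) (fun N => ?_) ?_
  · refine Measurable.ite measurableSet_GG ?_ measurable_const
    exact Finset.measurable_fun_sum _ fun n _ => measurable_L n t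
  · rw [tendsto_pi_nhds]
    intro ω
    unfold Y
    by_cases h : ω ∈ GG
    · simp only [h, if_true]
      exact (summable_L h t).hasSum.tendsto_sum_nat
    · simp only [h, if_false]
      exact tendsto_const_nhds

lemma sum_L_eq {ι : Type} [Fintype ι] (t : ι → ℝ) (c : ι → ℝ) (N : ℕ) (ω : Om) :
    ∑ j, c j * ∑ n ∈ Finset.range N, L n (t j) ω =
      ∑ p ∈ (Finset.range N).sigma (fun n => Finset.range (2 ^ n)),
        (∑ j, c j * (1 / 2 * (1 / Real.sqrt 2) ^ p.1 * hh p.1 p.2 (t j))) * ω p := by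
  rw [Finset.sum_sigma]
  simp only [L, Finset.mul_sum, Finset.sum_mul]
  rw [Finset.sum_comm]
  refine Finset.sum_congr rfl fun n _ => ?_
  rw [Finset.sum_comm]
  refine Finset.sum_congr rfl fun k _ => ?_
  refine Finset.sum_congr rfl fun j _ => ?_
  ring

lemma sum_sq_eq {ι : Type} [Fintype ι] (t : ι → ℝ) (c : ι → ℝ) (N : ℕ) :
    ∑ p ∈ (Finset.range N).sigma (fun n => Finset.range (2 ^ n)),
        (∑ j, c j * (1 / 2 * (1 / Real.sqrt 2) ^ p.1 * hh p.1 p.2 (t j))) ^ 2 =
      ∑ j, ∑ l, KN N (t j) (t l) * (c j * c l) := by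
  rw [Finset.sum_sigma]
  simp only [KN, Finset.mul_sum, Finset.sum_mul, sq]
  have hsq : ∀ n : ℕ, (1 / Real.sqrt 2) ^ n * (1 / Real.sqrt 2) ^ n = (1 / 2 : ℝ) ^ n := by
    intro n
    rw [← mul_pow]
    congr 1
    rw [div_mul_div_comm, Real.mul_self_sqrt (by norm_num)]
    norm_num
  -- move the sums over j l outside
  have e1 : ∀ n k : ℕ, ∑ i, ∑ j, c j * (1 / 2 * (1 / Real.sqrt 2) ^ n * hh n k (t j)) *
      (c i * (1 / 2 * (1 / Real.sqrt 2) ^ n * hh n k (t i))) =
      ∑ j, ∑ l, 1 / 4 * (1 / 2) ^ n * (hh n k (t j) * hh n k (t l)) * (c j * c l) := by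
    intro n k
    refine Finset.sum_congr rfl fun i _ => Finset.sum_congr rfl fun j _ => ?_
    rw [← hsq n]
    ring
  rw [Finset.sum_congr rfl fun n _ => Finset.sum_congr rfl fun k _ => e1 n k]
  rw [Finset.sum_congr rfl fun n _ => Finset.sum_comm]
  rw [Finset.sum_comm]
  refine Finset.sum_congr rfl fun j _ => ?_
  rw [Finset.sum_congr rfl fun n _ => Finset.sum_comm]
  rw [Finset.sum_comm]

/-- characteristic functions of the bridge -/
lemma charY {ι : Type} [Fintype ι] (t : ι → ℝ) (c : ι → ℝ) :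
    ∫ ω, Complex.exp (Complex.I * ((∑ j, c j * Y (t j) ω : ℝ) : ℂ)) ∂PP =
      Complex.exp (-((∑ j, ∑ l, K (t j) (t l) * (c j * c l) : ℝ) : ℂ) / 2) := by
  have h1 : Tendsto (fun N : ℕ => ∫ ω, Complex.exp (Complex.I *
      ((∑ j, c j * ∑ n ∈ Finset.range N, L n (t j) ω : ℝ) : ℂ)) ∂PP) atTop
      (𝓝 (∫ ω, Complex.exp (Complex.I * ((∑ j, c j * Y (t j) ω : ℝ) : ℂ)) ∂PP)) := by
    refine tendsto_integral_of_dominated_convergence (fun _ => (1 : ℝ)) (fun N => ?_)
      (integrable_const _) (fun N => ?_) ?_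
    · apply Measurable.aestronglyMeasurable
      have : Measurable (fun ω : Om => ∑ j, c j * ∑ n ∈ Finset.range N, L n (t j) ω) :=
        Finset.measurable_fun_sum _ fun j _ => measurable_const.mul
          (Finset.measurable_fun_sum _ fun n _ => measurable_L n (t j))
      fun_prop
    · refine Eventually.of_forall fun ω => ?_
      rw [mul_comm, Complex.norm_exp_ofReal_mul_I]
    · filter_upwards [ae_GG] with ω hω
      have h2 : Tendsto (fun N : ℕ => ∑ j, c j * ∑ n ∈ Finset.range N, L n (t j) ω) atTop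
          (𝓝 (∑ j, c j * Y (t j) ω)) := by
        refine tendsto_finsetSum _ fun j _ => Tendsto.const_mul _ ?_
        unfold Y
        rw [if_pos hω]
        exact (summable_L hω (t j)).hasSum.tendsto_sum_nat
      have h3 : Continuous (fun x : ℝ => Complex.exp (Complex.I * (x : ℂ))) := by fun_prop
      exact (h3.tendsto _).comp h2
  have h2 : ∀ N : ℕ, ∫ ω, Complex.exp (Complex.I *
      ((∑ j, c j * ∑ n ∈ Finset.range N, L n (t j) ω : ℝ) : ℂ)) ∂PP =
      Complex.exp (-((∑ j, ∑ l, KN N (t j) (t l) * (c j * c l) : ℝ) : ℂ) / 2) := by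
    intro N
    simp_rw [sum_L_eq]
    rw [charF _ (fun p => ∑ j, c j * (1 / 2 * (1 / Real.sqrt 2) ^ p.1 * hh p.1 p.2 (t j))),
      sum_sq_eq]
  simp_rw [h2] at h1
  refine tendsto_nhds_unique h1 ?_
  have h3 : Tendsto (fun N => ∑ j, ∑ l, KN N (t j) (t l) * (c j * c l)) atTop
      (𝓝 (∑ j, ∑ l, K (t j) (t l) * (c j * c l))) :=
    tendsto_finsetSum _ fun j _ => tendsto_finsetSum _ fun l _ =>
      (tendsto_KN (t j) (t l)).mul_const _
  have h4 : Continuous (fun x : ℝ => Complex.exp (-(x : ℂ) / 2)) := by fun_prop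
  exact (h4.tendsto _).comp h3

/-- Brownian motion on `[0,∞)`, extended by `0` to the negative half line -/
noncomputable def B (t : ℝ) (ω : Om) : ℝ := (1 + max t 0) * Y (max t 0 / (1 + max t 0)) ω

lemma continuous_B (ω : Om) : Continuous (fun t => B t ω) := by
  unfold B
  have h1 : Continuous (fun t : ℝ => max t 0 / (1 + max t 0)) := by
    refine Continuous.div (by fun_prop) (by fun_prop) fun t => ?_
    have : 0 ≤ max t 0 := le_max_right _ _
    linarith
  exact (by fun_prop : Continuous (fun t : ℝ => 1 + max t 0)).mul ((continuous_Y ω).comp h1)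

lemma measurable_B (t : ℝ) : Measurable (B t) := by
  unfold B
  exact measurable_const.mul (measurable_Y _)

lemma K_time (s t : ℝ) (hs : 0 ≤ s) (ht : 0 ≤ t) :
    K (s / (1 + s)) (t / (1 + t)) * ((1 + s) * (1 + t)) = min s t := by
  have hs1 : 0 < 1 + s := by linarith
  have ht1 : 0 < 1 + t := by linarith
  rw [K_of_mem (by positivity) (by rw [div_le_one hs1]; linarith) (by positivity)
    (by rw [div_le_one ht1]; linarith)]
  rcases le_total s t with h | h
  · have h2 : s / (1 + s) ≤ t / (1 + t) := by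
      rw [div_le_div_iff₀ hs1 ht1]; nlinarith
    rw [min_eq_left h, min_eq_left h2]
    field_simp
    ring
  · have h2 : t / (1 + t) ≤ s / (1 + s) := by
      rw [div_le_div_iff₀ ht1 hs1]; nlinarith
    rw [min_eq_right h, min_eq_right h2]
    field_simp
    ring

/-- characteristic functions of Brownian motion -/
lemma charB {ι : Type} [Fintype ι] (t : ι → ℝ) (ht : ∀ j, 0 ≤ t j) (c : ι → ℝ) :
    ∫ ω, Complex.exp (Complex.I * ((∑ j, c j * B (t j) ω : ℝ) : ℂ)) ∂PP =
      Complex.exp (-((∑ j, ∑ l, min (t j) (t l) * (c j * c l) : ℝ) : ℂ) / 2) := by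
  have h := charY (fun j => t j / (1 + t j)) (fun j => c j * (1 + t j))
  have h1 : ∀ ω, ∑ j, c j * (1 + t j) * Y (t j / (1 + t j)) ω = ∑ j, c j * B (t j) ω := by
    intro ω
    refine Finset.sum_congr rfl fun j _ => ?_
    unfold B
    rw [max_eq_left (ht j)]
    ring
  have h2 : ∑ j, ∑ l, K (t j / (1 + t j)) (t l / (1 + t l)) *
      (c j * (1 + t j) * (c l * (1 + t l))) = ∑ j, ∑ l, min (t j) (t l) * (c j * c l) := by
    refine Finset.sum_congr rfl fun j _ => Finset.sum_congr rfl fun l _ => ?_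
    rw [← K_time (t j) (t l) (ht j) (ht l)]
    ring
  simp_rw [h1] at h
  rw [h2] at h
  exact h

end Pool.Agent.Lib.QIP.BMC
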