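import Pool.Agent.Lib.QIP.Defs
import Pool.Agent.Lib.QIP.BMReal

/-!
# Chunk C: existence of `ℝ^d`-valued Brownian motion with continuous paths
-/

set_option autoImplicit false

open MeasureTheory ProbabilityTheory Filter
open scoped ENNReal NNReal Topology BigOperators

namespace Pool.Agent.Lib.QIP

/-- `W` is a continuous process whose finite dimensional distributions on `[0,∞)` are those of
Brownian motion with covariance matrix `S` (exactly the form used in the frozen statement). -/
def IsBM {d : ℕ} (S : Matrix (Fin d) (Fin d) ℝ) {Ω' : Type} [MeasurableSpace Ω']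
    (P' : Measure Ω') (W : ℝ → Ω' → (Fin d → ℝ)) : Prop :=
  (∀ t, Measurable (W t)) ∧ (∀ ω', Continuous (fun t => W t ω')) ∧
    (∀ (k : ℕ) (t : Fin k → ℝ) (u : Fin k → Fin d → ℝ), (∀ j, 0 ≤ t j) →
      ∫ ω', Complex.exp (Complex.I * ((∑ j, ∑ a, u j a * W (t j) ω' a : ℝ) : ℂ)) ∂P' =
        Complex.exp (-((∑ j, ∑ l, min (t j) (t l) *
            (∑ a, ∑ b, u j a * S a b * u l b) : ℝ) : ℂ) / 2))

open scoped MatrixOrder in
lemma exists_root (d : ℕ) (S : Matrix (Fin d) (Fin d) ℝ) (hS : S.PosSemidef) :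
    ∃ R : Matrix (Fin d) (Fin d) ℝ, ∀ a b, S a b = ∑ e, R e a * R e b := by
  obtain ⟨R, hR⟩ := CStarAlgebra.nonneg_iff_eq_star_mul_self.mp hS.nonneg
  refine ⟨R, fun a b => ?_⟩
  rw [hR, Matrix.mul_apply]
  rfl

/-- Existence of Brownian motion with covariance `S`, for positive semidefinite `S`. -/
theorem exists_bm_of_posSemidef (d : ℕ) (S : Matrix (Fin d) (Fin d) ℝ) (hS : S.PosSemidef) :
    ∃ (Ω' : Type) (mΩ' : MeasurableSpace Ω') (P' : Measure Ω'), IsProbabilityMeasure P' ∧
      ∃ W : ℝ → Ω' → (Fin d → ℝ), IsBM S P' W := by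
  obtain ⟨R, hR⟩ := exists_root d S hS
  refine ⟨Fin d → BMC.Om, inferInstance, Measure.pi fun _ => BMC.PP, inferInstance,
    fun t ω a => ∑ e, R e a * BMC.B t (ω e), fun t => ?_, fun ω => ?_, fun k t u ht => ?_⟩
  · refine measurable_pi_lambda _ fun a => ?_
    exact Finset.measurable_fun_sum _ fun e _ => measurable_const.mul
      ((BMC.measurable_B t).comp (measurable_pi_apply e))
  · refine continuous_pi fun a => ?_
    exact continuous_finsetSum _ fun e _ => continuous_const.mul (BMC.continuous_B (ω e))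
  · have h1 : ∀ ω : Fin d → BMC.Om,
        Complex.exp (Complex.I * ((∑ j, ∑ a, u j a * ∑ e, R e a * BMC.B (t j) (ω e) : ℝ) : ℂ)) =
        ∏ e, Complex.exp (Complex.I *
          ((∑ j, (∑ a, u j a * R e a) * BMC.B (t j) (ω e) : ℝ) : ℂ)) := by
      intro ω
      rw [← Complex.exp_sum, ← Finset.mul_sum, ← Complex.ofReal_sum]
      congr 3
      simp only [Finset.mul_sum, Finset.sum_mul]
      rw [Finset.sum_congr rfl fun j _ => Finset.sum_comm]
      rw [Finset.sum_comm]
      refine Finset.sum_congr rfl fun e _ => Finset.sum_congr rfl fun j _ =>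
        Finset.sum_congr rfl fun a _ => ?_
      ring
    simp_rw [h1]
    rw [integral_fintype_prod_eq_prod (fun (e : Fin d) (x : BMC.Om) => Complex.exp (Complex.I *
          ((∑ j, (∑ a, u j a * R e a) * BMC.B (t j) x : ℝ) : ℂ)))]
    have h2 : ∀ e : Fin d, ∫ x : BMC.Om, Complex.exp (Complex.I *
          ((∑ j, (∑ a, u j a * R e a) * BMC.B (t j) x : ℝ) : ℂ)) ∂BMC.PP =
        Complex.exp (-((∑ j, ∑ l, min (t j) (t l) *
          ((∑ a, u j a * R e a) * (∑ a, u l a * R e a)) : ℝ) : ℂ) / 2) := by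
      intro e
      exact BMC.charB t ht (fun j => ∑ a, u j a * R e a)
    simp_rw [h2]
    rw [← Complex.exp_sum]
    congr 1
    rw [← Finset.sum_div, Finset.sum_neg_distrib, ← Complex.ofReal_sum]
    congr 3
    rw [Finset.sum_comm]
    refine Finset.sum_congr rfl fun j _ => ?_
    rw [Finset.sum_comm]
    refine Finset.sum_congr rfl fun l _ => ?_
    rw [← Finset.mul_sum]
    congr 1
    simp only [hR, Finset.mul_sum, Finset.sum_mul]
    rw [Finset.sum_comm]
    rw [Finset.sum_congr rfl fun b _ => Finset.sum_comm]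
    rw [Finset.sum_comm]
    refine Finset.sum_congr rfl fun a _ => Finset.sum_congr rfl fun b _ =>
      Finset.sum_congr rfl fun e _ => ?_
    ring

/-- Existence of Brownian motion with covariance `S`. -/
theorem exists_bm (d : ℕ) (S : Matrix (Fin d) (Fin d) ℝ) (hS : S.PosDef) :
    ∃ (Ω' : Type) (mΩ' : MeasurableSpace Ω') (P' : Measure Ω'), IsProbabilityMeasure P' ∧
      ∃ W : ℝ → Ω' → (Fin d → ℝ), IsBM S P' W :=
  exists_bm_of_posSemidef d S hS.posSemidef

end Pool.Agent.Lib.QIP
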