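import Pool.Agent.Lib.QIP.Resolvent

/-!
# Characters and iterated resolvents
-/

set_option autoImplicit false

open MeasureTheory ProbabilityTheory Filter
open scoped ENNReal NNReal Topology BigOperators

namespace Pool.Agent.Lib.QIP

variable {d : ℕ}

/-- The character of frequency `ξ`. -/
noncomputable def chr (ξ : Fin d → ℝ) (x : V d) : ℂ :=
  Complex.exp (((∑ i, ξ i * (x i : ℝ) : ℝ) : ℂ) * Complex.I)

theorem norm_chr (ξ : Fin d → ℝ) (x : V d) : ‖chr ξ x‖ = 1 := Complex.norm_exp_ofReal_mul_I _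

theorem norm_chr_le (ξ : Fin d → ℝ) (x : V d) : ‖chr ξ x‖ ≤ 1 := (norm_chr ξ x).le

theorem chr_add (ξ : Fin d → ℝ) (x y : V d) : chr ξ (x + y) = chr ξ x * chr ξ y := by
  unfold chr
  rw [← Complex.exp_add, ← add_mul, ← Complex.ofReal_add, ← Finset.sum_add_distrib]
  congr 3
  congr 1
  ext i
  simp
  ring

theorem chr_zero (ξ : Fin d → ℝ) : chr ξ 0 = 1 := by
  unfold chr
  simp

/-- Iterated resolvents: `RR C [(lam₁, ξ₁), …, (lamₘ, ξₘ)] x` is the expectation, for the walk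
started at `x`, of `∏ exp (i ξⱼ · (Z_{Sⱼ} - Z_{Sⱼ₋₁}))`, where `Sⱼ = T₁ + … + Tⱼ` and the `Tⱼ` are
independent geometric times, `P(Tⱼ = k) = (1 - s) s^k`, `s = 1 / (1 + lamⱼ)`. -/
noncomputable def RR (C : Cond d) : List (ℝ × (Fin d → ℝ)) → V d → ℂ
  | [] => fun _ => 1
  | a :: L => fun x => chr a.2 (-x) * C.res Set.univ a.1 (fun y => chr a.2 y * RR C L y) x

/-- Convergence of the iterated resolvents at the origin along `n = k^20`, for rational
parameters. -/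
def ResConv (C : Cond d) (S : Matrix (Fin d) (Fin d) ℝ) : Prop :=
  ∀ L : List (ℚ × (Fin d → ℚ)), (∀ a ∈ L, 0 < a.1) →
    Tendsto (fun k : ℕ => RR C (L.map (fun a =>
        ((a.1 : ℝ) / (k : ℝ) ^ 20, fun i => (a.2 i : ℝ) / (k : ℝ) ^ 10))) 0) atTop
      (nhds ((L.map (fun a => (((a.1 : ℝ) / ((a.1 : ℝ) +
        (∑ i, ∑ j, (a.2 i : ℝ) * S i j * (a.2 j : ℝ)) / 2) : ℝ) : ℂ))).prod))

end Pool.Agent.Lib.QIP
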