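import Pool.Agent.Lib.QIP.Rho

/-!
# The corrector: projection onto the orthogonal complement of gradients
-/

set_option autoImplicit false

open MeasureTheory ProbabilityTheory Filter
open scoped ENNReal NNReal Topology BigOperators

namespace Pool.Agent.Lib.QIP

variable {d : ℕ}

/-- The subspace of gradients of bounded functions. -/
noncomputable def gradSub (m : Model d) : Submodule ℝ (Lp ℝ 2 (rho m)) where
  carrier := {f | ∃ φ : Env d → ℝ, Measurable φ ∧ (∃ M, ∀ ω, |φ ω| ≤ M) ∧ f =ᵐ[rho m] gr φ}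
  zero_mem' := by
    refine ⟨fun _ => 0, measurable_const, ⟨0, fun _ => by simp⟩, ?_⟩
    filter_upwards [Lp.coeFn_zero ℝ 2 (rho m)] with q hq
    rw [hq]
    simp [gr]
  add_mem' := by
    rintro f g ⟨φ, hφ, ⟨M, hM⟩, hf⟩ ⟨ψ, hψ, ⟨N, hN⟩, hg⟩
    refine ⟨fun ω => φ ω + ψ ω, hφ.add hψ, ⟨M + N, fun ω =>
      (abs_add_le _ _).trans (add_le_add (hM ω) (hN ω))⟩, ?_⟩
    filter_upwards [Lp.coeFn_add f g, hf, hg] with q h1 h2 h3
    rw [h1, Pi.add_apply, h2, h3]
    unfold gr
    ring
  smul_mem' := by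
    rintro c f ⟨φ, hφ, ⟨M, hM⟩, hf⟩
    refine ⟨fun ω => c * φ ω, hφ.const_mul c, ⟨|c| * M, fun ω => by
      rw [abs_mul]
      exact mul_le_mul_of_nonneg_left (hM ω) (abs_nonneg _)⟩, ?_⟩
    filter_upwards [Lp.coeFn_smul c f, hf] with q h1 h2
    rw [h1, Pi.smul_apply, h2, smul_eq_mul]
    unfold gr
    ring

theorem inner_toLp {α : Type*} [MeasurableSpace α] {μ : Measure α} {F G : α → ℝ}
    (hF : MemLp F 2 μ) (hG : MemLp G 2 μ) :
    inner ℝ (hF.toLp F) (hG.toLp G) = ∫ q, F q * G q ∂μ := by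
  rw [L2.inner_def]
  apply integral_congr_ae
  filter_upwards [hF.coeFn_toLp, hG.coeFn_toLp] with q h1 h2
  rw [h1, h2]
  simp [mul_comm]

theorem inner_Lp {α : Type*} [MeasurableSpace α] {μ : Measure α} (f g : Lp ℝ 2 μ) :
    inner ℝ f g = ∫ q, f q * g q ∂μ := by
  rw [L2.inner_def]
  apply integral_congr_ae
  filter_upwards with q
  simp [mul_comm]

/-- indicator of the jump `ee j` -/
noncomputable def je (j : Fin d) (q : Env d × V d) : ℝ := if q.2 = ee j then 1 else 0

theorem memLp_je (m : Model d) (j : Fin d) : MemLp (je j) 2 (rho m) := by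
  refine MemLp.of_bound (measurable_snd_fun (fun y => if y = ee j then (1 : ℝ) else 0)).aestronglyMeasurable 1
    (Eventually.of_forall fun q => ?_)
  unfold je
  split_ifs <;> simp

/-- Integrals against `je j` are integrals over the environment. -/
theorem int_je (m : Model d) (j : Fin d) {F : Env d × V d → ℝ} (hF : Measurable F) {M : ℝ}
    (hM : ∀ q, |F q| ≤ M) : ∫ q, F q * je j q ∂(rho m) = ∫ ω, F (ω, ee j) ∂m.μ := by
  have key : ∀ {F : Env d × V d → ℝ}, Measurable F → (∀ q, 0 ≤ F q) → (∃ M, ∀ q, |F q| ≤ M) →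
      ∫ q, F q * je j q ∂(rho m) = ∫ ω, F (ω, ee j) ∂m.μ := by
    intro F hF h0 _
    have hje : Measurable (je j : Env d × V d → ℝ) :=
      measurable_snd_fun (fun y => if y = ee j then (1 : ℝ) else 0)
    have hje0 : ∀ q : Env d × V d, 0 ≤ je j q := fun q => by unfold je; split_ifs <;> simp
    have hmj : Measurable (fun ω => F (ω, ee j)) := hF.comp (measurable_id.prodMk measurable_const)
    rw [integral_eq_lintegral_of_nonneg_ae (Eventually.of_forall fun q => mul_nonneg (h0 q) (hje0 q))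
      (hF.mul hje).aestronglyMeasurable,
      integral_eq_lintegral_of_nonneg_ae (Eventually.of_forall fun ω => h0 _)
      hmj.aestronglyMeasurable]
    congr 1
    rw [lint_rho m (F := fun q => ENNReal.ofReal (F q * je j q)) (hF.mul hje).ennreal_ofReal]
    congr 1
    ext ω
    rw [tsum_eq_single (ee j)]
    · have : (cond ω).c 0 (ee j) = 1 := by
        have := (cond ω).c_ee 0 j
        rwa [zero_add] at this
      simp [this, je]
    · intro y hy
      simp [je, hy]
  have hp : Measurable (fun q => max (F q) 0) := hF.max measurable_const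
  have hn : Measurable (fun q => max (-F q) 0) := hF.neg.max measurable_const
  have hM0 : 0 ≤ M := (abs_nonneg _).trans (hM (fun _ => true, 0))
  have hpb : ∀ q, |max (F q) 0| ≤ M := fun q => by
    rw [abs_of_nonneg (le_max_right _ _)]
    exact max_le ((le_abs_self _).trans (hM q)) hM0
  have hnb : ∀ q, |max (-F q) 0| ≤ M := fun q => by
    rw [abs_of_nonneg (le_max_right _ _)]
    exact max_le ((neg_le_abs _).trans (hM q)) hM0
  have h1 := key hp (fun q => le_max_right _ _) ⟨M, hpb⟩
  have h2 := key hn (fun q => le_max_right _ _) ⟨M, hnb⟩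
  have hje : Measurable (je j : Env d × V d → ℝ) :=
      measurable_snd_fun (fun y => if y = ee j then (1 : ℝ) else 0)
  have hjb : ∀ q : Env d × V d, |je j q| ≤ 1 := fun q => by unfold je; split_ifs <;> simp
  have hint : ∀ {F : Env d × V d → ℝ}, Measurable F → (∀ q, |F q| ≤ M) →
      Integrable (fun q => F q * je j q) (rho m) := by
    intro F hF hb
    refine Integrable.of_bound (hF.mul hje).aestronglyMeasurable M (Eventually.of_forall fun q => ?_)
    rw [Real.norm_eq_abs, abs_mul]
    calc |F q| * |je j q| ≤ M * 1 := mul_le_mul (hb q) (hjb q) (abs_nonneg _) hM0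
      _ = M := mul_one M
  have hint2 : ∀ {F : Env d × V d → ℝ}, Measurable F → (∀ q, |F q| ≤ M) →
      Integrable (fun ω => F (ω, ee j)) m.μ := by
    intro F hF hb
    exact Integrable.of_bound (hF.comp (measurable_id.prodMk measurable_const)).aestronglyMeasurable M
      (Eventually.of_forall fun ω => hb _)
  have e1 : ∀ q, F q = max (F q) 0 - max (-F q) 0 := by
    intro q
    rcases le_total 0 (F q) with h | h
    · rw [max_eq_left h, max_eq_right (by linarith)]; ring
    · rw [max_eq_right h, max_eq_left (by linarith)]; ring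
  calc ∫ q, F q * je j q ∂(rho m)
      = ∫ q, (max (F q) 0 * je j q - max (-F q) 0 * je j q) ∂(rho m) := by
        congr 1
        ext q
        conv_lhs => rw [e1 q]
        ring
    _ = ∫ ω, (max (F (ω, ee j)) 0 - max (-F (ω, ee j)) 0) ∂m.μ := by
        rw [integral_sub (hint hp hpb) (hint hn hnb), h1, h2, integral_sub (hint2 hp hpb) (hint2 hn hnb)]
    _ = _ := by
        congr 1
        ext ω
        exact (e1 _).symm

theorem int_shift {E : Type*} [NormedAddCommGroup E] [NormedSpace ℝ E] (m : Model d) (a : V d)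
    {F : Env d → E} (hF : AEStronglyMeasurable F m.μ) :
    ∫ ω, F (shift a ω) ∂m.μ = ∫ ω, F ω ∂m.μ := by
  have h := integral_map (μ := m.μ) (measurable_shift a).aemeasurable (f := F)
    (by rw [(m.mp_shift a).map_eq]; exact hF)
  rw [(m.mp_shift a).map_eq] at h
  exact h.symm

/-- Gradients are orthogonal to the indicators of nearest neighbour jumps. -/
theorem int_gr_je (m : Model d) (j : Fin d) {φ : Env d → ℝ} (hφ : Measurable φ) {M : ℝ}
    (hM : ∀ ω, |φ ω| ≤ M) : ∫ q, gr φ q * je j q ∂(rho m) = 0 := by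
  rw [int_je m j (measurable_gr hφ) (M := M + M) (fun q => by
    unfold gr
    exact (abs_sub _ _).trans (add_le_add (hM _) (hM _)))]
  unfold gr
  simp only
  have hi : Integrable φ m.μ := Integrable.of_bound hφ.aestronglyMeasurable M
    (Eventually.of_forall fun ω => hM ω)
  have hi2 : Integrable (fun ω => φ (shift (ee j) ω)) m.μ :=
    (m.mp_shift (ee j)).integrable_comp_of_integrable hi
  rw [integral_sub hi2 hi,
    int_shift m (ee j) hφ.aestronglyMeasurable, sub_self]

theorem int_zc_je (m : Model d) (i j : Fin d) :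
    ∫ q, zc i q * je j q ∂(rho m) = if i = j then 1 else 0 := by
  have h1 : ∀ q : Env d × V d, zc i q * je j q = (if i = j then 1 else 0) * je j q := by
    intro q
    unfold zc je
    by_cases hq : q.2 = ee j
    · rw [hq]
      unfold ee
      by_cases hij : i = j
      · subst hij; simp
      · simp [hij]
    · simp [hq]
  simp_rw [h1]
  rw [integral_const_mul, show (∫ q, je j q ∂(rho m)) = 1 from ?_, mul_one]
  have h2 := int_je m j (F := fun _ => 1) measurable_const (M := 1) (fun _ => by simp)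
  simpa using h2

/-- The corrected coordinates. -/
theorem corrector (m : Model d) : ∃ b : Fin d → Env d × V d → ℝ, (∀ i, MemLp (b i) 2 (rho m)) ∧
    (∀ i, ∀ ψ : Env d → ℝ, Measurable ψ → (∃ M, ∀ ω, |ψ ω| ≤ M) →
      ∫ q, gr ψ q * b i q ∂(rho m) = 0) ∧
    (∀ θ : Fin d → ℝ, ∀ η > 0, ∃ φ : Env d → ℝ, Measurable φ ∧ (∃ M, ∀ ω, |φ ω| ≤ M) ∧
      ∫ q, ((∑ i, θ i * zc i q) + gr φ q - ∑ i, θ i * b i q) ^ 2 ∂(rho m) ≤ η ^ 2) ∧
    (∀ i j, ∫ q, b i q * je j q ∂(rho m) = if i = j then 1 else 0) := by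
  set K := (gradSub m).topologicalClosure with hK
  have : CompleteSpace K := (gradSub m).isClosed_topologicalClosure.completeSpace_coe
  set Z : Fin d → Lp ℝ 2 (rho m) := fun i => (memLp_zc m i).toLp (zc i) with hZ
  set B : Fin d → Lp ℝ 2 (rho m) := fun i => Z i - K.starProjection (Z i) with hB
  have hBK : ∀ i, B i ∈ Kᗮ := fun i => Submodule.sub_starProjection_mem_orthogonal (Z i)
  have hgK : ∀ ψ : Env d → ℝ, ∀ hψ : Measurable ψ, ∀ M, ∀ hM : (∀ ω, |ψ ω| ≤ M),
      (memLp_gr m hψ hM).toLp (gr ψ) ∈ gradSub m := by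
    intro ψ hψ M hM
    exact ⟨ψ, hψ, ⟨M, hM⟩, (memLp_gr m hψ hM).coeFn_toLp⟩
  refine ⟨fun i => B i, fun i => Lp.memLp (B i), ?_, ?_, ?_⟩
  · rintro i ψ hψ ⟨M, hM⟩
    have h1 : inner ℝ ((memLp_gr m hψ hM).toLp (gr ψ)) (B i) = 0 :=
      (Submodule.mem_orthogonal K (B i)).1 (hBK i) _
        ((gradSub m).le_topologicalClosure (hgK ψ hψ M hM))
    rw [inner_Lp] at h1
    rw [← h1]
    apply integral_congr_ae
    filter_upwards [(memLp_gr m hψ hM).coeFn_toLp] with q hq
    rw [hq]
  · intro θ η hη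
    set g : Lp ℝ 2 (rho m) := ∑ i, θ i • K.starProjection (Z i) with hg
    have hgmem : g ∈ K := Submodule.sum_mem _ fun i _ =>
      Submodule.smul_mem _ _ (Submodule.starProjection_apply_mem K (Z i))
    have hcl : g ∈ closure ((gradSub m : Submodule ℝ (Lp ℝ 2 (rho m))) : Set (Lp ℝ 2 (rho m))) := by
      rw [← Submodule.topologicalClosure_coe]
      exact hgmem
    obtain ⟨f, ⟨φ, hφ, ⟨M, hM⟩, hf⟩, hdist⟩ := Metric.mem_closure_iff.1 hcl η hη
    refine ⟨fun ω => -φ ω, hφ.neg, ⟨M, fun ω => by rw [abs_neg]; exact hM ω⟩, ?_⟩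
    have h1 : ∫ q, ((g - f : Lp ℝ 2 (rho m)) q) * ((g - f : Lp ℝ 2 (rho m)) q) ∂(rho m) ≤ η ^ 2 := by
      rw [← inner_Lp, real_inner_self_eq_norm_sq]
      rw [dist_eq_norm] at hdist
      exact pow_le_pow_left₀ (norm_nonneg _) hdist.le 2
    refine le_trans (le_of_eq ?_) h1
    apply integral_congr_ae
    have hsumB : (∑ i, θ i • B i : Lp ℝ 2 (rho m)) =ᵐ[rho m] fun q => ∑ i, θ i * (B i) q := by
      have h2 : ∀ s : Finset (Fin d), (∑ i ∈ s, θ i • B i : Lp ℝ 2 (rho m)) =ᵐ[rho m]
          fun q => ∑ i ∈ s, θ i * (B i) q := by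
        intro s
        induction s using Finset.induction_on with
        | empty =>
          simp only [Finset.sum_empty]
          filter_upwards [Lp.coeFn_zero ℝ 2 (rho m)] with q hq
          rw [hq]
          rfl
        | insert i s hi ih =>
          rw [Finset.sum_insert hi]
          filter_upwards [ih, Lp.coeFn_add (θ i • B i) (∑ i ∈ s, θ i • B i),
            Lp.coeFn_smul (θ i) (B i)] with q h3 h4 h5
          rw [h4, Pi.add_apply, h3, h5, Pi.smul_apply, smul_eq_mul, Finset.sum_insert hi]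
      exact h2 Finset.univ
    have hsumZ : (∑ i, θ i • Z i : Lp ℝ 2 (rho m)) =ᵐ[rho m] fun q => ∑ i, θ i * zc i q := by
      have h2 : ∀ s : Finset (Fin d), (∑ i ∈ s, θ i • Z i : Lp ℝ 2 (rho m)) =ᵐ[rho m]
          fun q => ∑ i ∈ s, θ i * zc i q := by
        intro s
        induction s using Finset.induction_on with
        | empty =>
          simp only [Finset.sum_empty]
          filter_upwards [Lp.coeFn_zero ℝ 2 (rho m)] with q hq
          rw [hq]
          rfl
        | insert i s hi ih =>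
          rw [Finset.sum_insert hi]
          filter_upwards [ih, Lp.coeFn_add (θ i • Z i) (∑ i ∈ s, θ i • Z i),
            Lp.coeFn_smul (θ i) (Z i), (memLp_zc m i).coeFn_toLp] with q h3 h4 h5 h6
          rw [h4, Pi.add_apply, h3, h5, Pi.smul_apply, smul_eq_mul, Finset.sum_insert hi, h6]
      exact h2 Finset.univ
    have hBZ : (∑ i, θ i • B i) = (∑ i, θ i • Z i) - g := by
      rw [hg, ← Finset.sum_sub_distrib]
      apply Finset.sum_congr rfl
      intro i _
      rw [hB, smul_sub]
    have hrel : (∑ i, θ i • B i : Lp ℝ 2 (rho m)) =ᵐ[rho m]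
        fun q => (∑ i, θ i * zc i q) - g q := by
      rw [hBZ]
      filter_upwards [Lp.coeFn_sub (∑ i, θ i • Z i) g, hsumZ] with q h3 h4
      rw [h3, Pi.sub_apply, h4]
    filter_upwards [hsumB, hrel, Lp.coeFn_sub g f, hf] with q h3 h4 h5 h6
    rw [h5, Pi.sub_apply, h6, ← h3, h4]
    unfold gr
    ring
  · intro i j
    have h1 : (memLp_je m j).toLp (je j) ∈ Kᗮ := by
      rw [Submodule.orthogonal_closure]
      rw [Submodule.mem_orthogonal]
      rintro f ⟨φ, hφ, ⟨M, hM⟩, hf⟩
      rw [inner_Lp, ← int_gr_je m j hφ hM]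
      apply integral_congr_ae
      filter_upwards [hf, (memLp_je m j).coeFn_toLp] with q h2 h3
      rw [h2, h3]
    have h2 : inner ℝ (K.starProjection (Z i)) ((memLp_je m j).toLp (je j)) = 0 :=
      (Submodule.mem_orthogonal K _).1 h1 _ (Submodule.starProjection_apply_mem K (Z i))
    have h3 : inner ℝ (B i) ((memLp_je m j).toLp (je j)) = if i = j then 1 else 0 := by
      rw [hB]
      simp only
      rw [inner_sub_left, h2, sub_zero, hZ]
      simp only
      rw [inner_toLp, int_zc_je]
    rw [← h3, inner_Lp]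
    apply integral_congr_ae
    filter_upwards [(memLp_je m j).coeFn_toLp] with q hq
    rw [hq]

end Pool.Agent.Lib.QIP
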