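import Mathlib

/-!
# Basic definitions for the quenched invariance principle on long-range percolation graphs
-/

set_option autoImplicit false

open MeasureTheory ProbabilityTheory Filter
open scoped ENNReal NNReal Topology BigOperators

namespace Pool.Agent.Lib.QIP

/-- The lattice `ℤ^d`. -/
abbrev V (d : ℕ) := Fin d → ℤ

/-- The `ℓ¹` norm, an integer. -/
def n1 {d : ℕ} (x : V d) : ℤ := ∑ i, |x i|

/-- The unit vector in direction `i`. -/
def ee {d : ℕ} (i : Fin d) : V d := Pi.single i 1

/-- A locally finite conductance configuration on `ℤ^d` in which all nearest neighbour edges have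
conductance one. -/
structure Cond (d : ℕ) where
  /-- the conductance of the pair `x, y` -/
  c : V d → V d → ℝ
  symm : ∀ x y, c x y = c y x
  nonneg : ∀ x y, 0 ≤ c x y
  diag : ∀ x, c x x = 0
  nn : ∀ x y, n1 (y - x) = 1 → c x y = 1
  fin : ∀ x, {y | c x y ≠ 0}.Finite

/-- Bernoulli law on `Bool`. -/
noncomputable def bern (q : ℝ) : Measure Bool :=
  ENNReal.ofReal q • Measure.dirac true + ENNReal.ofReal (1 - q) • Measure.dirac false

end Pool.Agent.Lib.QIP
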