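import Pool.Agent.Lib.QIP.Green

/-!
# The effect of adding one edge on the killed resolvent
-/

set_option autoImplicit false

open MeasureTheory ProbabilityTheory Filter
open scoped ENNReal NNReal Topology BigOperators

namespace Pool.Agent.Lib.QIP

namespace Cond

variable {d : ℕ}

/-- `C'` is `C` with the (absent) edge `a, b` added. -/
structure AddEdge (C C' : Cond d) (a b : V d) : Prop where
  ne : a ≠ b
  eq : ∀ x y, C'.c x y = C.c x y + (if (x = a ∧ y = b) ∨ (x = b ∧ y = a) then 1 else 0)

variable {C C' : Cond d} {a b : V d}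

theorem AddEdge.swap (h : AddEdge C C' a b) : AddEdge C C' b a := by
  refine ⟨h.ne.symm, fun x y => ?_⟩
  rw [h.eq]
  congr 1
  simp only [or_comm]

theorem AddEdge.row_a (h : AddEdge C C' a b) {E : Type*} [NormedAddCommGroup E] [NormedSpace ℝ E]
    (f : V d → E) : ∑' y, C'.c a y • f y = ∑' y, C.c a y • f y + f b := by
  have h1 : ∀ y, C'.c a y • f y = C.c a y • f y + (Pi.single b (f b) : V d → E) y := by
    intro y
    rw [h.eq]
    by_cases hy : y = b
    · subst hy
      simp [add_smul]
    · have : ¬ ((a = a ∧ y = b) ∨ (a = b ∧ y = a)) := by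
        rintro (⟨_, h2⟩ | ⟨h2, _⟩)
        · exact hy h2
        · exact h.ne h2
      rw [if_neg this, add_zero, Pi.single_eq_of_ne hy, add_zero]
  simp_rw [h1]
  have h2 : HasSum (Pi.single b (f b) : V d → E) (f b) := by
    have := hasSum_single (f := (Pi.single b (f b) : V d → E)) b
      (fun y hy => Pi.single_eq_of_ne hy _)
    simpa using this
  rw [(C.summable_smul f a).tsum_add h2.summable, h2.tsum_eq]

theorem AddEdge.row_other (h : AddEdge C C' a b) {E : Type*} [NormedAddCommGroup E]
    [NormedSpace ℝ E] (f : V d → E) {x : V d} (ha : x ≠ a) (hb : x ≠ b) :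
    ∑' y, C'.c x y • f y = ∑' y, C.c x y • f y := by
  congr 1
  ext y
  rw [h.eq]
  have : ¬ ((x = a ∧ y = b) ∨ (x = b ∧ y = a)) := by
    rintro (⟨h2, _⟩ | ⟨h2, _⟩)
    · exact ha h2
    · exact hb h2
  rw [if_neg this, add_zero]

theorem AddEdge.deg_a (h : AddEdge C C' a b) : C'.deg a = C.deg a + 1 := by
  have := h.row_a (fun _ => (1 : ℝ))
  simpa [smul_eq_mul, deg] using this

theorem AddEdge.deg_other (h : AddEdge C C' a b) {x : V d} (ha : x ≠ a) (hb : x ≠ b) :
    C'.deg x = C.deg x := by
  have := h.row_other (fun _ => (1 : ℝ)) ha hb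
  simpa [smul_eq_mul, deg] using this

/-- The source term created at an endpoint. -/
theorem AddEdge.source (h : AddEdge C C' a b) (hd : 0 < d) (D : Set (V d)) {lam : ℝ}
    (hl : 0 < lam) {E : Type*} [NormedAddCommGroup E] [NormedSpace ℝ E] [CompleteSpace E]
    {f : V d → E} {M : ℝ} (hf : ∀ x, ‖f x‖ ≤ M) (haD : a ∈ D) :
    ((1 + lam) * C'.deg a) • (C'.res D lam f a - C.res D lam f a) -
      ∑' y, C'.c a y • (C'.res D lam f y - C.res D lam f y) =
      lam • (f a - C.res D lam f a) - (C.res D lam f a - C.res D lam f b) := by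
  have h1 := C'.res_ell hd D hl hf haD
  have h2 := C.res_ell hd D hl hf haD
  have h3 : ∑' y, C'.c a y • (C'.res D lam f y - C.res D lam f y) =
      ∑' y, C'.c a y • C'.res D lam f y - ∑' y, C'.c a y • C.res D lam f y := by
    rw [← (C'.summable_smul _ a).tsum_sub (C'.summable_smul _ a)]
    congr 1
    ext y
    rw [smul_sub]
  rw [h3, h.row_a (C.res D lam f), smul_sub]
  have h4 : ((1 + lam) * C'.deg a) • C.res D lam f a =
      ((1 + lam) * C.deg a) • C.res D lam f a + (1 + lam) • C.res D lam f a := by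
    rw [h.deg_a, ← add_smul]
    congr 1
    ring
  have h5 : (lam * C'.deg a) • f a = (lam * C.deg a) • f a + lam • f a := by
    rw [h.deg_a, ← add_smul]
    congr 1
    ring
  rw [h5] at h1
  rw [h4]
  have h6 : ((1 + lam) * C'.deg a) • C'.res D lam f a -
      (((1 + lam) * C.deg a) • C.res D lam f a + (1 + lam) • C.res D lam f a) -
      (∑' y, C'.c a y • C'.res D lam f y - (∑' y, C.c a y • C.res D lam f y + C.res D lam f b)) =
      (((1 + lam) * C'.deg a) • C'.res D lam f a - ∑' y, C'.c a y • C'.res D lam f y) -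
      (((1 + lam) * C.deg a) • C.res D lam f a - ∑' y, C.c a y • C.res D lam f y) -
      (1 + lam) • C.res D lam f a + C.res D lam f b := by abel
  rw [h6, h1, h2, add_smul, one_smul, smul_sub]
  abel

theorem AddEdge.source_other (h : AddEdge C C' a b) (hd : 0 < d) (D : Set (V d)) {lam : ℝ}
    (hl : 0 < lam) {E : Type*} [NormedAddCommGroup E] [NormedSpace ℝ E] [CompleteSpace E]
    {f : V d → E} {M : ℝ} (hf : ∀ x, ‖f x‖ ≤ M) {x : V d} (hx : x ∈ D) (ha : x ≠ a) (hb : x ≠ b) :
    ((1 + lam) * C'.deg x) • (C'.res D lam f x - C.res D lam f x) -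
      ∑' y, C'.c x y • (C'.res D lam f y - C.res D lam f y) = 0 := by
  have h1 := C'.res_ell hd D hl hf hx
  have h2 := C.res_ell hd D hl hf hx
  have h3 : ∑' y, C'.c x y • (C'.res D lam f y - C.res D lam f y) =
      ∑' y, C'.c x y • C'.res D lam f y - ∑' y, C'.c x y • C.res D lam f y := by
    rw [← (C'.summable_smul _ x).tsum_sub (C'.summable_smul _ x)]
    congr 1
    ext y
    rw [smul_sub]
  rw [h3, h.row_other (C.res D lam f) ha hb, smul_sub]
  rw [h.deg_other ha hb] at h1 ⊢
  have h6 : ((1 + lam) * C.deg x) • C'.res D lam f x - ((1 + lam) * C.deg x) • C.res D lam f x -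
      (∑' y, C'.c x y • C'.res D lam f y - ∑' y, C.c x y • C.res D lam f y) =
      (((1 + lam) * C.deg x) • C'.res D lam f x - ∑' y, C'.c x y • C'.res D lam f y) -
      (((1 + lam) * C.deg x) • C.res D lam f x - ∑' y, C.c x y • C.res D lam f y) := by abel
  rw [h6, h1, h2, sub_self]

/-- Green's function column as a vector valued function. -/
theorem ell_G_smul (C : Cond d) (hd : 0 < d) (D : Set (V d)) {lam : ℝ} (hl : 0 < lam)
    {E : Type*} [NormedAddCommGroup E] [NormedSpace ℝ E] (v : V d) (r : E) {x : V d} (hx : x ∈ D) :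
    ((1 + lam) * C.deg x) • (C.G D lam v x • r) - ∑' y, C.c x y • (C.G D lam v y • r) =
      (Pi.single v (1 : ℝ) : V d → ℝ) x • r := by
  rw [← C.G_ell hd D hl v hx, sub_smul, smul_smul]
  congr 1
  rw [← (C.summable_mul (C.G D lam v) x).tsum_smul_const]
  congr 1
  ext y
  rw [smul_smul]

/-- Representation of the difference of resolvents. -/
theorem AddEdge.diff_eq (h : AddEdge C C' a b) (hd : 0 < d) (D : Set (V d)) {lam : ℝ}
    (hl : 0 < lam) {E : Type*} [NormedAddCommGroup E] [NormedSpace ℝ E] [CompleteSpace E]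
    {f : V d → E} {M : ℝ} (hf : ∀ x, ‖f x‖ ≤ M) :
    ∃ ra rb : E, ‖ra‖ ≤ ‖C.res D lam f a - C.res D lam f b‖ + 2 * lam * M ∧
      ‖rb‖ ≤ ‖C.res D lam f a - C.res D lam f b‖ + 2 * lam * M ∧
      ∀ x, C'.res D lam f x - C.res D lam f x =
        C'.G D lam a x • ra + C'.G D lam b x • rb := by
  classical
  have hM0 : 0 ≤ M := (norm_nonneg _).trans (hf 0)
  set u := C.res D lam f with hu
  set u' := C'.res D lam f with hu'
  have hub : ∀ x, ‖u x‖ ≤ M := C.norm_res_le hd D hl hf
  have hub' : ∀ x, ‖u' x‖ ≤ M := C'.norm_res_le hd D hl hf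
  set ra : E := if a ∈ D then lam • (f a - u a) - (u a - u b) else 0 with hra
  set rb : E := if b ∈ D then lam • (f b - u b) - (u b - u a) else 0 with hrb
  have hnorm : ∀ x y : V d, ‖lam • (f x - u x) - (u x - u y)‖ ≤ ‖u x - u y‖ + 2 * lam * M := by
    intro x y
    refine (norm_sub_le _ _).trans ?_
    rw [norm_smul, Real.norm_of_nonneg hl.le]
    have h1 : ‖f x - u x‖ ≤ M + M := (norm_sub_le _ _).trans (add_le_add (hf x) (hub x))
    have h2 := mul_le_mul_of_nonneg_left h1 hl.le
    linarith
  have hnn : 0 ≤ ‖u a - u b‖ + 2 * lam * M := by positivity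
  refine ⟨ra, rb, ?_, ?_, ?_⟩
  · rw [hra]
    split_ifs
    · exact hnorm a b
    · rw [norm_zero]; exact hnn
  · rw [hrb]
    split_ifs
    · have := hnorm b a
      rwa [norm_sub_rev (u b) (u a)] at this
    · rw [norm_zero]; exact hnn
  · -- uniqueness
    set w : V d → E := fun x => (u' x - u x) - (C'.G D lam a x • ra + C'.G D lam b x • rb) with hw
    have hwb : ∀ x, ‖w x‖ ≤ (M + M) + (1 / lam * ‖ra‖ + 1 / lam * ‖rb‖) := by
      intro x
      refine (norm_sub_le _ _).trans (add_le_add ((norm_sub_le _ _).trans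
        (add_le_add (hub' x) (hub x))) ((norm_add_le _ _).trans (add_le_add ?_ ?_)))
      · rw [norm_smul, Real.norm_of_nonneg (C'.G_nonneg hd D hl a x)]
        exact mul_le_mul_of_nonneg_right (C'.G_le hd D hl a x) (norm_nonneg _)
      · rw [norm_smul, Real.norm_of_nonneg (C'.G_nonneg hd D hl b x)]
        exact mul_le_mul_of_nonneg_right (C'.G_le hd D hl b x) (norm_nonneg _)
    have hw0 : ∀ x, x ∉ D → w x = 0 := by
      intro x hx
      rw [hw]
      simp only
      rw [hu', hu, C'.res_off D lam f hx, C.res_off D lam f hx, C'.G_off D lam a hx,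
        C'.G_off D lam b hx]
      simp
    have hw1 : ∀ x, x ∈ D → w x = sv lam • C'.P w x := by
      intro x hx
      have hell : ((1 + lam) * C'.deg x) • w x - ∑' y, C'.c x y • w y =
          (lam * C'.deg x) • (0 : E) := by
        have e1 : ∑' y, C'.c x y • w y = ∑' y, C'.c x y • (u' y - u y) -
            (∑' y, C'.c x y • (C'.G D lam a y • ra) + ∑' y, C'.c x y • (C'.G D lam b y • rb)) := by
          rw [← (C'.summable_smul _ x).tsum_add (C'.summable_smul _ x),
            ← (C'.summable_smul (fun y => u' y - u y) x).tsum_sub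
              ((C'.summable_smul _ x).add (C'.summable_smul _ x))]
          congr 1
          ext y
          rw [hw]
          simp only
          rw [smul_sub, smul_add]
        have e2 : ((1 + lam) * C'.deg x) • w x - ∑' y, C'.c x y • w y =
            (((1 + lam) * C'.deg x) • (u' x - u x) - ∑' y, C'.c x y • (u' y - u y)) -
            ((((1 + lam) * C'.deg x) • (C'.G D lam a x • ra) -
              ∑' y, C'.c x y • (C'.G D lam a y • ra)) +
            (((1 + lam) * C'.deg x) • (C'.G D lam b x • rb) -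
              ∑' y, C'.c x y • (C'.G D lam b y • rb))) := by
          rw [e1, hw]
          simp only
          rw [smul_sub, smul_add]
          abel
        rw [e2, C'.ell_G_smul hd D hl a ra hx, C'.ell_G_smul hd D hl b rb hx, smul_zero]
        by_cases hxa : x = a
        · subst hxa
          rw [h.source hd D hl hf hx, Pi.single_eq_same, Pi.single_eq_of_ne h.ne, hra, if_pos hx]
          simp [hu]
        · by_cases hxb : x = b
          · subst hxb
            rw [h.swap.source hd D hl hf hx, Pi.single_eq_same, Pi.single_eq_of_ne h.ne.symm, hrb,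
              if_pos hx]
            simp [hu]
          · rw [h.source_other hd D hl hf hx hxa hxb, Pi.single_eq_of_ne hxa,
              Pi.single_eq_of_ne hxb]
            simp
      have h3 := C'.fix_of_ell hd hl hell
      rw [smul_zero, zero_add] at h3
      exact h3
    intro x
    have := C'.unique_zero hd D hl hwb hw0 hw1 x
    rw [hw] at this
    simp only at this
    exact sub_eq_zero.1 this

/-- Squared form. -/
theorem AddEdge.diff_sq (h : AddEdge C C' a b) (hd : 0 < d) (D : Set (V d)) {lam : ℝ}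
    (hl : 0 < lam) {E : Type*} [NormedAddCommGroup E] [NormedSpace ℝ E] [CompleteSpace E]
    {f : V d → E} (hf : ∀ x, ‖f x‖ ≤ 1) (x : V d) :
    ‖C'.res D lam f x - C.res D lam f x‖ ^ 2 ≤
      4 * ((C'.G D lam a x) ^ 2 + (C'.G D lam b x) ^ 2) *
        (‖C.res D lam f a - C.res D lam f b‖ ^ 2 + 4 * lam ^ 2) := by
  obtain ⟨ra, rb, h1, h2, h3⟩ := h.diff_eq hd D hl hf
  rw [h3 x]
  set A := C'.G D lam a x with hA
  set B := C'.G D lam b x with hB
  have hA0 : 0 ≤ A := C'.G_nonneg hd D hl a x
  have hB0 : 0 ≤ B := C'.G_nonneg hd D hl b x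
  set q := ‖C.res D lam f a - C.res D lam f b‖ with hq
  have hq0 : 0 ≤ q := norm_nonneg _
  have h4 : ‖A • ra + B • rb‖ ≤ (A + B) * (q + 2 * lam) := by
    refine (norm_add_le _ _).trans ?_
    rw [norm_smul, norm_smul, Real.norm_of_nonneg hA0, Real.norm_of_nonneg hB0, add_mul]
    apply add_le_add
    · apply mul_le_mul_of_nonneg_left _ hA0
      linarith
    · apply mul_le_mul_of_nonneg_left _ hB0
      linarith
  have h5 : ‖A • ra + B • rb‖ ^ 2 ≤ ((A + B) * (q + 2 * lam)) ^ 2 :=
    pow_le_pow_left₀ (norm_nonneg _) h4 2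
  refine h5.trans ?_
  rw [mul_pow]
  have h6 : (A + B) ^ 2 ≤ 2 * (A ^ 2 + B ^ 2) := by nlinarith [sq_nonneg (A - B)]
  have h7 : (q + 2 * lam) ^ 2 ≤ 2 * (q ^ 2 + 4 * lam ^ 2) := by nlinarith [sq_nonneg (q - 2 * lam)]
  calc (A + B) ^ 2 * (q + 2 * lam) ^ 2 ≤ (2 * (A ^ 2 + B ^ 2)) * (2 * (q ^ 2 + 4 * lam ^ 2)) := by
        gcongr
    _ = _ := by ring

end Cond

end Pool.Agent.Lib.QIP
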