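import Pool.Agent.Lib.QIP.Defs

/-!
# Chunk A: Efron-Stein inequality on a countable product of Bernoulli measures
-/

set_option autoImplicit false
set_option linter.style.haveILetI false
set_option linter.unusedSectionVars false

open MeasureTheory ProbabilityTheory Filter
open scoped ENNReal NNReal Topology BigOperators

namespace Pool.Agent.Lib.QIP

theorem isProb_bern (q : ℝ) (h : 0 ≤ q ∧ q ≤ 1) : IsProbabilityMeasure (bern q) := by
  constructor
  simp only [bern, Measure.coe_add, Measure.coe_smul, Pi.add_apply, Pi.smul_apply,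
    measure_univ, smul_eq_mul, mul_one]
  rw [← ENNReal.ofReal_add h.1 (by linarith [h.2])]
  simp

section ES

variable {ι : Type} [DecidableEq ι] (q : ι → ℝ)

/-- The product measure. -/
noncomputable def muQ : Measure (ι → Bool) := Measure.infinitePi (fun i => bern (q i))

theorem isProb_muQ (hq : ∀ i, 0 ≤ q i ∧ q i ≤ 1) : IsProbabilityMeasure (muQ q) := by
  haveI : ∀ i, IsProbabilityMeasure (bern (q i)) := fun i => isProb_bern _ (hq i)
  unfold muQ; infer_instance

theorem measurable_upd (i : ι) (b : Bool) :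
    Measurable (fun ω : ι → Bool => Function.update ω i b) := by
  rw [measurable_pi_iff]
  intro j
  by_cases h : j = i
  · subst h; simp
  · simp only [Function.update_of_ne h]
    exact measurable_pi_apply j

theorem resample (hq : ∀ i, 0 ≤ q i ∧ q i ≤ 1) (i : ι) :
    muQ q = ENNReal.ofReal (q i) • (muQ q).map (fun ω => Function.update ω i true) +
      ENNReal.ofReal (1 - q i) • (muQ q).map (fun ω => Function.update ω i false) := by
  haveI : ∀ i, IsProbabilityMeasure (bern (q i)) := fun i => isProb_bern _ (hq i)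
  symm
  conv_rhs => rw [muQ]
  apply Measure.eq_infinitePi
  intro s t ht
  have key : ∀ b : Bool, (muQ q).map (fun ω => Function.update ω i b) (Set.pi s t) =
      (if i ∈ s then Set.indicator (t i) 1 b else 1) * ∏ j ∈ s.erase i, bern (q j) (t j) := by
    intro b
    rw [Measure.map_apply (measurable_upd i b)
      (MeasurableSet.pi s.countable_toSet (fun j _ => ht j))]
    have h2 : (muQ q) (Set.pi (s.erase i) t) = ∏ j ∈ s.erase i, bern (q j) (t j) := by
      rw [muQ]; exact Measure.infinitePi_pi _ (fun j _ => ht j)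
    rw [← h2]
    by_cases his : i ∈ s
    · rw [if_pos his]
      by_cases hb : b ∈ t i
      · rw [Set.indicator_of_mem hb]
        simp only [Pi.one_apply, one_mul]
        congr 1
        ext ω
        simp only [Set.mem_preimage, Set.mem_pi, Finset.mem_coe, Finset.mem_erase]
        constructor
        · rintro h j ⟨hj1, hj2⟩
          have := h j hj2
          rwa [Function.update_of_ne hj1] at this
        · intro h j hj
          by_cases hji : j = i
          · subst hji; simpa using hb
          · rw [Function.update_of_ne hji]; exact h j ⟨hji, hj⟩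
      · rw [Set.indicator_of_notMem hb, zero_mul]
        have : (fun ω : ι → Bool => Function.update ω i b) ⁻¹' (Set.pi s t) = ∅ := by
          ext ω
          simp only [Set.mem_preimage, Set.mem_pi, Finset.mem_coe, Set.mem_empty_iff_false,
            iff_false]
          intro h
          have := h i his
          rw [Function.update_self] at this
          exact hb this
        rw [this]; simp
    · rw [if_neg his, one_mul]
      congr 1
      ext ω
      simp only [Set.mem_preimage, Set.mem_pi, Finset.mem_coe, Finset.mem_erase]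
      constructor
      · rintro h j ⟨hj1, hj2⟩
        have := h j hj2
        rwa [Function.update_of_ne hj1] at this
      · intro h j hj
        have hji : j ≠ i := by rintro rfl; exact his hj
        rw [Function.update_of_ne hji]; exact h j ⟨hji, hj⟩
  simp only [Measure.coe_add, Measure.coe_smul, Pi.add_apply, Pi.smul_apply, smul_eq_mul]
  rw [key true, key false]
  by_cases his : i ∈ s
  · rw [← Finset.mul_prod_erase s _ his]
    simp only [if_pos his]
    rw [← mul_assoc, ← mul_assoc, ← add_mul]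
    congr 1
    simp only [bern, Measure.coe_add, Measure.coe_smul, Pi.add_apply, Pi.smul_apply, smul_eq_mul]
    rw [Measure.dirac_apply' _ (ht i), Measure.dirac_apply' _ (ht i)]
  · rw [Finset.erase_eq_of_notMem his]
    simp only [if_neg his, one_mul]
    rw [← add_mul, ← ENNReal.ofReal_add (hq i).1 (by linarith [(hq i).2])]
    simp

/-- Bounded measurable real functions. -/
def Bd (F : (ι → Bool) → ℝ) : Prop := Measurable F ∧ ∃ M : ℝ, ∀ ω, |F ω| ≤ M

/-- Averaging over coordinate `i`. -/
noncomputable def av (i : ι) (F : (ι → Bool) → ℝ) : (ι → Bool) → ℝ := fun ω =>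
  q i * F (Function.update ω i true) + (1 - q i) * F (Function.update ω i false)

omit [DecidableEq ι] in
theorem Bd.add {F G : (ι → Bool) → ℝ} (hF : Bd F) (hG : Bd G) : Bd (fun ω => F ω + G ω) := by
  obtain ⟨hF, M, hM⟩ := hF
  obtain ⟨hG, N, hN⟩ := hG
  exact ⟨hF.add hG, M + N, fun ω => (abs_add_le _ _).trans (add_le_add (hM ω) (hN ω))⟩

omit [DecidableEq ι] in
theorem Bd.mul {F G : (ι → Bool) → ℝ} (hF : Bd F) (hG : Bd G) : Bd (fun ω => F ω * G ω) := by
  obtain ⟨hF, M, hM⟩ := hF
  obtain ⟨hG, N, hN⟩ := hG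
  refine ⟨hF.mul hG, M * N, fun ω => ?_⟩
  rw [abs_mul]
  exact mul_le_mul (hM ω) (hN ω) (abs_nonneg _) ((abs_nonneg _).trans (hM ω))

omit [DecidableEq ι] in
theorem Bd.const (c : ℝ) : Bd (fun _ : ι → Bool => c) := ⟨measurable_const, |c|, fun _ => le_rfl⟩

omit [DecidableEq ι] in
theorem Bd.sub {F G : (ι → Bool) → ℝ} (hF : Bd F) (hG : Bd G) : Bd (fun ω => F ω - G ω) := by
  have := hF.add ((Bd.const (-1)).mul hG)
  refine cast ?_ this
  congr 1
  ext ω; ring

omit [DecidableEq ι] in
theorem Bd.abs {F : (ι → Bool) → ℝ} (hF : Bd F) : Bd (fun ω => |F ω|) := by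
  obtain ⟨hF, M, hM⟩ := hF
  exact ⟨hF.abs, M, fun ω => by rw [abs_abs]; exact hM ω⟩

omit [DecidableEq ι] in
theorem Bd.sq {F : (ι → Bool) → ℝ} (hF : Bd F) : Bd (fun ω => (F ω) ^ 2) := by
  have := hF.mul hF
  simpa [pow_two] using this

theorem Bd.upd {F : (ι → Bool) → ℝ} (hF : Bd F) (i : ι) (b : Bool) :
    Bd (fun ω => F (Function.update ω i b)) := by
  obtain ⟨hF, M, hM⟩ := hF
  exact ⟨hF.comp (measurable_upd i b), M, fun ω => hM _⟩

theorem Bd.av {F : (ι → Bool) → ℝ} (hF : Bd F) (i : ι) : Bd (av q i F) :=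
  ((Bd.const (q i)).mul (hF.upd i true)).add ((Bd.const (1 - q i)).mul (hF.upd i false))

omit [DecidableEq ι] in
theorem Bd.integrable {F : (ι → Bool) → ℝ} (hF : Bd F) (μ : Measure (ι → Bool))
    [IsFiniteMeasure μ] : Integrable F μ := by
  obtain ⟨hF, M, hM⟩ := hF
  exact Integrable.of_bound hF.aestronglyMeasurable M (Eventually.of_forall hM)

theorem integral_av (hq : ∀ i, 0 ≤ q i ∧ q i ≤ 1) (i : ι) {F : (ι → Bool) → ℝ} (hF : Bd F) :
    ∫ ω, av q i F ω ∂(muQ q) = ∫ ω, F ω ∂(muQ q) := by
  haveI := isProb_muQ q hq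
  have e1 : ∫ ω, F ω ∂(muQ q) = ∫ ω, F ω ∂(ENNReal.ofReal (q i) •
      (muQ q).map (fun ω => Function.update ω i true) +
      ENNReal.ofReal (1 - q i) • (muQ q).map (fun ω => Function.update ω i false)) := by
    rw [← resample q hq i]
  rw [e1]
  haveI : ∀ b, IsProbabilityMeasure ((muQ q).map (fun ω => Function.update ω i b)) := fun b =>
    Measure.isProbabilityMeasure_map (measurable_upd i b).aemeasurable
  have hi : ∀ b, Integrable F ((muQ q).map (fun ω => Function.update ω i b)) := fun b =>
    hF.integrable _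
  rw [integral_add_measure ((hi true).smul_measure ENNReal.ofReal_ne_top)
    ((hi false).smul_measure ENNReal.ofReal_ne_top), integral_smul_measure, integral_smul_measure,
    integral_map (measurable_upd i true).aemeasurable hF.1.aestronglyMeasurable,
    integral_map (measurable_upd i false).aemeasurable hF.1.aestronglyMeasurable,
    ENNReal.toReal_ofReal (hq i).1, ENNReal.toReal_ofReal (by linarith [(hq i).2])]
  simp only [smul_eq_mul]
  rw [← integral_const_mul, ← integral_const_mul, ← integral_add]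
  · rfl
  · exact ((Bd.const (q i)).mul (hF.upd i true)).integrable _
  · exact ((Bd.const (1 - q i)).mul (hF.upd i false)).integrable _

/-- independence of a coordinate -/
def Ind (i : ι) (F : (ι → Bool) → ℝ) : Prop := ∀ ω b, F (Function.update ω i b) = F ω

theorem ind_av (i : ι) (F : (ι → Bool) → ℝ) : Ind i (av q i F) := by
  intro ω b
  simp [av, Function.update_idem]

theorem ind_av_of (i j : ι) (F : (ι → Bool) → ℝ) (h : Ind i F) : Ind i (av q j F) := by
  by_cases hij : i = j
  · subst hij; exact ind_av q i F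
  · intro ω b
    simp only [av]
    rw [Function.update_comm hij, Function.update_comm hij, h, h]

theorem orth (hq : ∀ i, 0 ≤ q i ∧ q i ≤ 1) (i : ι) {F G : (ι → Bool) → ℝ} (hF : Bd F) (hG : Bd G)
    (hG2 : Ind i G) : ∫ ω, (F ω - av q i F ω) * G ω ∂(muQ q) = 0 := by
  rw [← integral_av q hq i ((hF.sub (hF.av q i)).mul hG)]
  have : ∀ ω, av q i (fun ω => (F ω - av q i F ω) * G ω) ω = 0 := by
    intro ω
    have h1 := ind_av q i F
    simp only [av] at h1 ⊢
    simp only [hG2 ω, Function.update_idem]
    ring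
  simp [this]

/-- variance term -/
noncomputable def VV (i : ι) (F : (ι → Bool) → ℝ) : ℝ :=
  q i * (1 - q i) * ∫ ω, (F (Function.update ω i true) - F (Function.update ω i false)) ^ 2 ∂(muQ q)

theorem VV_nonneg (hq : ∀ i, 0 ≤ q i ∧ q i ≤ 1) (i : ι) (F : (ι → Bool) → ℝ) : 0 ≤ VV q i F := by
  unfold VV
  exact mul_nonneg (mul_nonneg (hq i).1 (by linarith [(hq i).2]))
    (integral_nonneg fun ω => sq_nonneg _)

theorem var_one (hq : ∀ i, 0 ≤ q i ∧ q i ≤ 1) (i : ι) {F : (ι → Bool) → ℝ} (hF : Bd F) :
    ∫ ω, (F ω - av q i F ω) ^ 2 ∂(muQ q) = VV q i F := by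
  rw [← integral_av q hq i (hF.sub (hF.av q i)).sq, VV, ← integral_const_mul]
  congr 1
  ext ω
  simp only [av, Function.update_idem]
  ring

theorem VV_av_le (hq : ∀ i, 0 ≤ q i ∧ q i ≤ 1) (i j : ι) {F : (ι → Bool) → ℝ} (hF : Bd F) :
    VV q j (av q i F) ≤ VV q j F := by
  haveI := isProb_muQ q hq
  by_cases hij : i = j
  · subst hij
    have : VV q i (av q i F) = 0 := by
      simp only [VV, ind_av q i F _ _]
      simp
    rw [this]; exact VV_nonneg q hq i F
  · unfold VV
    apply mul_le_mul_of_nonneg_left _ (mul_nonneg (hq j).1 (by linarith [(hq j).2]))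
    have hH := (hF.upd j true).sub (hF.upd j false)
    rw [← integral_av q hq i hH.sq]
    apply integral_mono
    · exact (((hF.av q i).upd j true).sub ((hF.av q i).upd j false)).sq.integrable _
    · exact (hH.sq.av q i).integrable _
    · intro ω
      have hc : ∀ b b' : Bool, Function.update (Function.update ω j b) i b' =
          Function.update (Function.update ω i b') j b := fun b b' =>
        (Function.update_comm hij _ _ _).symm
      simp only [av, hc]
      have h1 := (hq i).1
      have h2 := (hq i).2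
      set a := F (Function.update (Function.update ω i true) j true)
      set b := F (Function.update (Function.update ω i true) j false)
      set c := F (Function.update (Function.update ω i false) j true)
      set d := F (Function.update (Function.update ω i false) j false)
      nlinarith [mul_nonneg (mul_nonneg h1 (by linarith : 0 ≤ 1 - q i)) (sq_nonneg ((a - b) - (c - d)))]

/-- iterated average -/
noncomputable def avl : List ι → ((ι → Bool) → ℝ) → ((ι → Bool) → ℝ)
  | [], F => F
  | i :: l, F => avl l (av q i F)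

theorem Bd.avl (l : List ι) : ∀ {F : (ι → Bool) → ℝ}, Bd F → Bd (avl q l F) := by
  induction l with
  | nil => intro F hF; exact hF
  | cons i l ih => intro F hF; exact ih (hF.av q i)

theorem ind_avl_of (l : List ι) (i : ι) : ∀ (F : (ι → Bool) → ℝ), Ind i F → Ind i (avl q l F) := by
  induction l with
  | nil => intro F hF; exact hF
  | cons j l ih => intro F hF; exact ih _ (ind_av_of q i j F hF)

theorem es_list (hq : ∀ i, 0 ≤ q i ∧ q i ≤ 1) (l : List ι) :
    ∀ {F : (ι → Bool) → ℝ}, Bd F →
      ∫ ω, (F ω - avl q l F ω) ^ 2 ∂(muQ q) ≤ (l.map (fun i => VV q i F)).sum := by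
  haveI := isProb_muQ q hq
  induction l with
  | nil => intro F hF; simp [avl]
  | cons i l ih =>
    intro F hF
    have hA := hF.sub (hF.av q i)
    have hB := (hF.av q i).sub ((hF.av q i).avl q l)
    have hI : Ind i (fun ω => av q i F ω - avl q l (av q i F) ω) := by
      intro ω b
      have h1 := ind_av q i F
      have h2 := ind_avl_of q l i _ h1
      simp only [h1 ω b, h2 ω b]
    have e : ∀ ω, (F ω - avl q (i :: l) F ω) ^ 2 = (F ω - av q i F ω) ^ 2 +
        (2 * ((F ω - av q i F ω) * (av q i F ω - avl q l (av q i F) ω)) +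
        (av q i F ω - avl q l (av q i F) ω) ^ 2) := by
      intro ω; simp only [avl]; ring
    simp only [e]
    rw [integral_add (hA.sq.integrable _)
      ((((Bd.const 2).mul (hA.mul hB)).add hB.sq).integrable _),
      integral_add (((Bd.const 2).mul (hA.mul hB)).integrable _) (hB.sq.integrable _),
      integral_const_mul, orth q hq i hF hB hI, var_one q hq i hF]
    have h3 := ih (hF.av q i)
    have h4 : (l.map (fun j => VV q j (av q i F))).sum ≤ (l.map (fun j => VV q j F)).sum :=
      List.sum_le_sum (fun j _ => VV_av_le q hq i j hF)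
    rw [List.map_cons, List.sum_cons]
    linarith

theorem avl_sub (l : List ι) : ∀ (F G : (ι → Bool) → ℝ),
    avl q l (fun ω => F ω - G ω) = fun ω => avl q l F ω - avl q l G ω := by
  induction l with
  | nil => intro F G; rfl
  | cons i l ih =>
    intro F G
    simp only [avl]
    rw [← ih]
    congr 1
    ext ω
    simp only [av]; ring

theorem integral_avl (hq : ∀ i, 0 ≤ q i ∧ q i ≤ 1) (l : List ι) :
    ∀ {F : (ι → Bool) → ℝ}, Bd F → ∫ ω, avl q l F ω ∂(muQ q) = ∫ ω, F ω ∂(muQ q) := by
  induction l with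
  | nil => intro F hF; rfl
  | cons i l ih =>
    intro F hF
    simp only [avl]
    rw [ih (hF.av q i), integral_av q hq i hF]

theorem integral_abs_avl_le (hq : ∀ i, 0 ≤ q i ∧ q i ≤ 1) (l : List ι) :
    ∀ {F : (ι → Bool) → ℝ}, Bd F → ∫ ω, |avl q l F ω| ∂(muQ q) ≤ ∫ ω, |F ω| ∂(muQ q) := by
  haveI := isProb_muQ q hq
  induction l with
  | nil => intro F hF; simp [avl]
  | cons i l ih =>
    intro F hF
    simp only [avl]
    refine (ih (hF.av q i)).trans ?_
    rw [← integral_av q hq i hF.abs]
    apply integral_mono ((hF.av q i).abs.integrable _) ((hF.abs.av q i).integrable _)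
    intro ω
    simp only [av]
    refine (abs_add_le _ _).trans ?_
    rw [abs_mul, abs_mul, abs_of_nonneg (hq i).1, abs_of_nonneg (by linarith [(hq i).2] : 0 ≤ 1 - q i)]

theorem avl_osc (hq : ∀ i, 0 ≤ q i ∧ q i ≤ 1) (ε : ℝ) (l : List ι) :
    ∀ (T : Set ι) (G : (ι → Bool) → ℝ), (∀ ω ω', (∀ i ∈ T, ω i = ω' i) → |G ω - G ω'| ≤ ε) →
      (∀ ω ω', (∀ i ∈ T, i ∉ l → ω i = ω' i) → |avl q l G ω - avl q l G ω'| ≤ ε) := by
  induction l with
  | nil => intro T G h ω ω' h2; exact h _ _ (fun i hi => h2 i hi (by simp))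
  | cons i l ih =>
    intro T G h ω ω' h2
    simp only [avl]
    apply ih {j | j ∈ T ∧ j ≠ i}
    · intro ω ω' h3
      simp only [av]
      have e : q i * G (Function.update ω i true) + (1 - q i) * G (Function.update ω i false) -
          (q i * G (Function.update ω' i true) + (1 - q i) * G (Function.update ω' i false)) =
          q i * (G (Function.update ω i true) - G (Function.update ω' i true)) +
          (1 - q i) * (G (Function.update ω i false) - G (Function.update ω' i false)) := by ring
      rw [e]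
      have h4 : ∀ b, |G (Function.update ω i b) - G (Function.update ω' i b)| ≤ ε := by
        intro b
        apply h
        intro j hj
        by_cases hji : j = i
        · subst hji; simp
        · rw [Function.update_of_ne hji, Function.update_of_ne hji]; exact h3 j ⟨hj, hji⟩
      refine (abs_add_le _ _).trans ?_
      rw [abs_mul, abs_mul, abs_of_nonneg (hq i).1,
        abs_of_nonneg (by linarith [(hq i).2] : 0 ≤ 1 - q i)]
      have h5 := mul_le_mul_of_nonneg_left (h4 true) (hq i).1
      have h6 := mul_le_mul_of_nonneg_left (h4 false) (by linarith [(hq i).2] : 0 ≤ 1 - q i)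
      nlinarith
    · intro j hj hjl
      exact h2 j hj.1 (by simp [hj.2, hjl])

theorem unif_cont [Countable ι] (G : (ι → Bool) → ℝ) (hG : Continuous G) (ε : ℝ) (hε : 0 < ε) :
    ∃ T : Finset ι, ∀ ω ω', (∀ i ∈ T, ω i = ω' i) → |G ω - G ω'| ≤ ε := by
  have hu : UniformContinuous G := CompactSpace.uniformContinuous_of_continuous hG
  have h1 : {p : (ι → Bool) × (ι → Bool) | dist (G p.1) (G p.2) < ε} ∈ uniformity (ι → Bool) := by
    have := Metric.dist_mem_uniformity (α := ℝ) hε
    exact hu this
  rw [Pi.uniformity, Filter.mem_iInf] at h1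
  obtain ⟨I, hI, W, hW, hU⟩ := h1
  refine ⟨hI.toFinset, fun ω ω' h => ?_⟩
  have h2 : (ω, ω') ∈ {p : (ι → Bool) × (ι → Bool) | dist (G p.1) (G p.2) < ε} := by
    rw [hU, Set.mem_iInter]
    intro i
    obtain ⟨Z, hZ, hZW⟩ := hW i
    apply hZW
    simp only [Set.mem_preimage]
    rw [h i.1 (by simp)]
    exact refl_mem_uniformity hZ
  have h3 : dist (G ω) (G ω') < ε := h2
  rw [Real.dist_eq] at h3
  exact h3.le

theorem approx [Countable ι] (hq : ∀ i, 0 ≤ q i ∧ q i ≤ 1) {F : (ι → Bool) → ℝ} (hF : Bd F)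
    (ε : ℝ) (hε : 0 < ε) :
    ∃ T : Finset ι, ∫ ω, |avl q T.toList F ω - ∫ ω', F ω' ∂(muQ q)| ∂(muQ q) ≤ ε := by
  haveI := isProb_muQ q hq
  obtain ⟨G, hG1, hG2⟩ := (hF.integrable (muQ q)).exists_boundedContinuous_integral_sub_le
    (ε := ε / 3) (by positivity)
  have hGB : Bd (fun ω => G ω) := by
    refine ⟨G.continuous.measurable, ‖G‖, fun ω => ?_⟩
    rw [← Real.norm_eq_abs]; exact G.norm_coe_le_norm ω
  obtain ⟨T, hT⟩ := unif_cont (fun ω => G ω) G.continuous (ε / 3) (by positivity)
  refine ⟨T, ?_⟩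
  have h1 : ∀ ω ω', |avl q T.toList (fun ω => G ω) ω - avl q T.toList (fun ω => G ω) ω'| ≤ ε / 3 := by
    intro ω ω'
    apply avl_osc q hq (ε / 3) T.toList (T : Set ι) (fun ω => G ω)
    · intro ω ω' h; exact hT ω ω' h
    · intro i hi hi2; exact absurd (Finset.mem_toList.mpr hi) hi2
  have h2 : ∀ ω, |avl q T.toList (fun ω => G ω) ω - ∫ ω', G ω' ∂(muQ q)| ≤ ε / 3 := by
    intro ω
    have hA := hGB.avl q T.toList
    rw [← integral_avl q hq T.toList hGB]
    have e : avl q T.toList (fun ω => G ω) ω - ∫ ω', avl q T.toList (fun ω => G ω) ω' ∂(muQ q) =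
        ∫ ω', (avl q T.toList (fun ω => G ω) ω - avl q T.toList (fun ω => G ω) ω') ∂(muQ q) := by
      rw [integral_sub (integrable_const _) (hA.integrable _)]
      simp
    rw [e]
    refine (abs_integral_le_integral_abs).trans ?_
    calc ∫ ω', |avl q T.toList (fun ω => G ω) ω - avl q T.toList (fun ω => G ω) ω'| ∂(muQ q)
        ≤ ∫ ω', (ε / 3) ∂(muQ q) := by
          apply integral_mono
          · exact (((Bd.const _).sub hA).abs).integrable _
          · exact integrable_const _
          · intro ω'; exact h1 ω ω'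
      _ = ε / 3 := by simp
  have hFG := hF.sub hGB
  have h3 : ∫ ω, |avl q T.toList F ω - avl q T.toList (fun ω => G ω) ω| ∂(muQ q) ≤ ε / 3 := by
    have := integral_abs_avl_le q hq T.toList hFG
    rw [avl_sub] at this
    exact this.trans hG1
  have h4 : |∫ ω', G ω' ∂(muQ q) - ∫ ω', F ω' ∂(muQ q)| ≤ ε / 3 := by
    rw [abs_sub_comm, ← integral_sub (hF.integrable _) (hGB.integrable _)]
    exact (abs_integral_le_integral_abs).trans hG1
  calc ∫ ω, |avl q T.toList F ω - ∫ ω', F ω' ∂(muQ q)| ∂(muQ q)
      ≤ ∫ ω, (|avl q T.toList F ω - avl q T.toList (fun ω => G ω) ω| + (ε / 3 + ε / 3)) ∂(muQ q) := by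
        apply integral_mono
        · exact (((hF.avl q T.toList).sub (Bd.const _)).abs).integrable _
        · exact ((((hF.avl q T.toList).sub (hGB.avl q T.toList)).abs).add (Bd.const _)).integrable _
        · intro ω
          have h5 := h2 ω
          simp only
          calc |avl q T.toList F ω - ∫ ω', F ω' ∂(muQ q)|
              = |(avl q T.toList F ω - avl q T.toList (fun ω => G ω) ω) +
                ((avl q T.toList (fun ω => G ω) ω - ∫ ω', G ω' ∂(muQ q)) +
                (∫ ω', G ω' ∂(muQ q) - ∫ ω', F ω' ∂(muQ q)))| := by congr 1; ring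
            _ ≤ _ := (abs_add_le _ _).trans
                (add_le_add le_rfl ((abs_add_le _ _).trans (add_le_add h5 h4)))
    _ = ∫ ω, |avl q T.toList F ω - avl q T.toList (fun ω => G ω) ω| ∂(muQ q) + (ε / 3 + ε / 3) := by
        rw [integral_add ((((hF.avl q T.toList).sub (hGB.avl q T.toList)).abs).integrable _)
          (integrable_const _)]
        simp
    _ ≤ ε := by linarith

theorem avl_bound (hq : ∀ i, 0 ≤ q i ∧ q i ≤ 1) (M : ℝ) (l : List ι) :
    ∀ (F : (ι → Bool) → ℝ), (∀ ω, |F ω| ≤ M) → ∀ ω, |avl q l F ω| ≤ M := by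
  induction l with
  | nil => intro F h; exact h
  | cons i l ih =>
    intro F h
    apply ih
    intro ω
    simp only [av]
    refine (abs_add_le _ _).trans ?_
    rw [abs_mul, abs_mul, abs_of_nonneg (hq i).1,
      abs_of_nonneg (by linarith [(hq i).2] : 0 ≤ 1 - q i)]
    have h5 := mul_le_mul_of_nonneg_left (h (Function.update ω i true)) (hq i).1
    have h6 := mul_le_mul_of_nonneg_left (h (Function.update ω i false))
      (by linarith [(hq i).2] : 0 ≤ 1 - q i)
    nlinarith

theorem es_real_eps [Countable ι] (hq : ∀ i, 0 ≤ q i ∧ q i ≤ 1) {F : (ι → Bool) → ℝ} (hF : Bd F)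
    (ε : ℝ) (hε : 0 < ε) :
    ∃ T : Finset ι, ∫ ω, (F ω - ∫ ω', F ω' ∂(muQ q)) ^ 2 ∂(muQ q) ≤ ∑ i ∈ T, VV q i F + ε := by
  haveI := isProb_muQ q hq
  obtain ⟨M, hM⟩ := hF.2
  have hM0 : 0 ≤ M := (abs_nonneg _).trans (hM (fun _ => true))
  obtain ⟨T, hT⟩ := approx q hq hF (ε / (6 * M + 1)) (by positivity)
  refine ⟨T, ?_⟩
  have hes := es_list q hq T.toList hF
  rw [Finset.sum_map_toList] at hes
  set m := ∫ ω', F ω' ∂(muQ q) with hm
  have hmM : |m| ≤ M := by
    rw [hm]
    refine (abs_integral_le_integral_abs).trans ?_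
    calc ∫ ω, |F ω| ∂(muQ q) ≤ ∫ ω, M ∂(muQ q) :=
          integral_mono (hF.abs.integrable _) (integrable_const _) hM
      _ = M := by simp
  have hbd := avl_bound q hq M T.toList F hM
  have hA := hF.avl q T.toList
  calc ∫ ω, (F ω - m) ^ 2 ∂(muQ q)
      ≤ ∫ ω, ((F ω - avl q T.toList F ω) ^ 2 + (6 * M) * |avl q T.toList F ω - m|) ∂(muQ q) := by
        apply integral_mono
        · exact ((hF.sub (Bd.const _)).sq).integrable _
        · exact (((hF.sub hA).sq).add ((Bd.const _).mul ((hA.sub (Bd.const _)).abs))).integrable _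
        · intro ω
          have h1 := hM ω
          have h2 := hbd ω
          simp only
          set a := F ω
          set b := avl q T.toList F ω
          have e : (a - m) ^ 2 = (a - b) ^ 2 + (b - m) * (2 * a - b - m) := by ring
          rw [e]
          have h3 : (b - m) * (2 * a - b - m) ≤ |b - m| * (6 * M) := by
            refine (le_abs_self _).trans ?_
            rw [abs_mul]
            apply mul_le_mul_of_nonneg_left _ (abs_nonneg _)
            rw [abs_le] at h1 h2 hmM ⊢
            constructor <;> linarith [h1.1, h1.2, h2.1, h2.2, hmM.1, hmM.2]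
          linarith
    _ = ∫ ω, (F ω - avl q T.toList F ω) ^ 2 ∂(muQ q) +
        (6 * M) * ∫ ω, |avl q T.toList F ω - m| ∂(muQ q) := by
        rw [integral_add (((hF.sub hA).sq).integrable _)
          (((Bd.const _).mul ((hA.sub (Bd.const _)).abs)).integrable _), integral_const_mul]
    _ ≤ ∑ i ∈ T, VV q i F + ε := by
        have h4 : (6 * M) * ∫ ω, |avl q T.toList F ω - m| ∂(muQ q) ≤
            (6 * M) * (ε / (6 * M + 1)) := mul_le_mul_of_nonneg_left hT (by positivity)
        have h5 : (6 * M) * (ε / (6 * M + 1)) ≤ ε := by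
          rw [mul_div_assoc', div_le_iff₀ (by positivity)]
          nlinarith
        linarith

theorem es_real [Countable ι] (hq : ∀ i, 0 ≤ q i ∧ q i ≤ 1) {F : (ι → Bool) → ℝ} (hF : Bd F) :
    ENNReal.ofReal (∫ ω, (F ω - ∫ ω', F ω' ∂(muQ q)) ^ 2 ∂(muQ q)) ≤
      ∑' i, ENNReal.ofReal (VV q i F) := by
  apply ENNReal.le_of_forall_pos_le_add
  intro ε hε _
  obtain ⟨T, hT⟩ := es_real_eps q hq hF ε (by exact_mod_cast hε)
  refine (ENNReal.ofReal_le_ofReal hT).trans ?_
  rw [ENNReal.ofReal_add (Finset.sum_nonneg fun i _ => VV_nonneg q hq i F) (by positivity),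
    ENNReal.ofReal_sum_of_nonneg (fun i _ => VV_nonneg q hq i F)]
  apply add_le_add (ENNReal.sum_le_tsum T)
  simp

theorem es_real_lint [Countable ι] (hq : ∀ i, 0 ≤ q i ∧ q i ≤ 1) {F : (ι → Bool) → ℝ}
    (hF : Bd F) :
    ∫⁻ ω, ENNReal.ofReal ((F ω - ∫ ω', F ω' ∂(muQ q)) ^ 2) ∂(muQ q) ≤
      ∑' i, ENNReal.ofReal (q i * (1 - q i)) * ∫⁻ ω, ENNReal.ofReal
        ((F (Function.update ω i true) - F (Function.update ω i false)) ^ 2) ∂(muQ q) := by
  haveI := isProb_muQ q hq
  rw [← ofReal_integral_eq_lintegral_ofReal (((hF.sub (Bd.const _)).sq).integrable _)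
    (Eventually.of_forall fun ω => sq_nonneg _)]
  refine (es_real q hq hF).trans (le_of_eq ?_)
  congr 1
  ext i
  rw [VV, ENNReal.ofReal_mul (mul_nonneg (hq i).1 (by linarith [(hq i).2])),
    ofReal_integral_eq_lintegral_ofReal ((((hF.upd i true).sub (hF.upd i false)).sq).integrable _)
    (Eventually.of_forall fun ω => sq_nonneg _)]

omit [DecidableEq ι] in
theorem enorm_sq_complex (z : ℂ) :
    ‖z‖ₑ ^ 2 = ENNReal.ofReal (z.re ^ 2) + ENNReal.ofReal (z.im ^ 2) := by
  rw [← ENNReal.ofReal_add (sq_nonneg _) (sq_nonneg _), ← ofReal_norm,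
    ← ENNReal.ofReal_pow (norm_nonneg _), Complex.sq_norm, Complex.normSq_apply]
  congr 1; ring

end ES

/-- Efron-Stein inequality for a bounded complex function of countably many independent bits. -/
theorem efronStein {ι : Type} [Countable ι] [DecidableEq ι] (q : ι → ℝ)
    (hq : ∀ i, 0 ≤ q i ∧ q i ≤ 1)
    (F : (ι → Bool) → ℂ) (hF : Measurable F) (M : ℝ) (hM : ∀ ω, ‖F ω‖ ≤ M) :
    ∫⁻ ω, ‖F ω - ∫ ω', F ω' ∂(Measure.infinitePi (fun i => bern (q i)))‖ₑ ^ 2
        ∂(Measure.infinitePi (fun i => bern (q i))) ≤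
      ∑' i, ENNReal.ofReal (q i * (1 - q i)) *
        ∫⁻ ω, ‖F (Function.update ω i true) - F (Function.update ω i false)‖ₑ ^ 2
          ∂(Measure.infinitePi (fun i => bern (q i))) := by
  haveI := isProb_muQ q hq
  change ∫⁻ ω, ‖F ω - ∫ ω', F ω' ∂(muQ q)‖ₑ ^ 2 ∂(muQ q) ≤
      ∑' i, ENNReal.ofReal (q i * (1 - q i)) *
        ∫⁻ ω, ‖F (Function.update ω i true) - F (Function.update ω i false)‖ₑ ^ 2 ∂(muQ q)
  have hre : Bd (fun ω => (F ω).re) :=
    ⟨Complex.measurable_re.comp hF, M, fun ω => (Complex.abs_re_le_norm _).trans (hM ω)⟩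
  have him : Bd (fun ω => (F ω).im) :=
    ⟨Complex.measurable_im.comp hF, M, fun ω => (Complex.abs_im_le_norm _).trans (hM ω)⟩
  have hFi : Integrable F (muQ q) :=
    Integrable.of_bound hF.aestronglyMeasurable M (Eventually.of_forall hM)
  have ere : (∫ ω', F ω' ∂(muQ q)).re = ∫ ω', (F ω').re ∂(muQ q) :=
    (Complex.reCLM.integral_comp_comm hFi).symm
  have eim : (∫ ω', F ω' ∂(muQ q)).im = ∫ ω', (F ω').im ∂(muQ q) :=
    (Complex.imCLM.integral_comp_comm hFi).symm
  simp only [enorm_sq_complex, Complex.sub_re, Complex.sub_im, ere, eim]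
  have hm1 : Measurable fun ω => ENNReal.ofReal
      (((F ω).re - ∫ ω', (F ω').re ∂(muQ q)) ^ 2) :=
    ENNReal.measurable_ofReal.comp ((hre.sub (Bd.const _)).sq).1
  rw [lintegral_add_left hm1]
  refine (add_le_add (es_real_lint q hq hre) (es_real_lint q hq him)).trans (le_of_eq ?_)
  rw [← ENNReal.tsum_add]
  congr 1
  ext i
  rw [← mul_add, ← lintegral_add_left]
  exact ENNReal.measurable_ofReal.comp (((hre.upd i true).sub (hre.upd i false)).sq).1

end Pool.Agent.Lib.QIP
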