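import Pool.Agent.Lib.QIP.Diff

/-!
# The random environment
-/

set_option autoImplicit false

open MeasureTheory ProbabilityTheory Filter
open scoped ENNReal NNReal Topology BigOperators

namespace Pool.Agent.Lib.QIP

/-- Percolation configurations on the complete graph over `ℤ^d`. -/
abbrev Env (d : ℕ) := Sym2 (V d) → Bool

/-- Locally finite configurations containing all nearest neighbour edges. -/
def Good {d : ℕ} (ω : Env d) : Prop :=
  (∀ x, {y | y ≠ x ∧ ω s(x, y) = true}.Finite) ∧ ∀ x y, n1 (y - x) = 1 → ω s(x, y) = true

theorem n1_neg {d : ℕ} (x : V d) : n1 (-x) = n1 x := by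
  unfold n1
  simp

theorem n1_sub_comm {d : ℕ} (x y : V d) : n1 (y - x) = n1 (x - y) := by
  rw [← n1_neg, neg_sub]

theorem n1_nonneg {d : ℕ} (x : V d) : 0 ≤ n1 x := Finset.sum_nonneg fun i _ => abs_nonneg _

theorem one_le_n1 {d : ℕ} {x : V d} (hx : x ≠ 0) : 1 ≤ n1 x := by
  obtain ⟨i, hi⟩ := Function.ne_iff.1 hx
  have h1 : |x i| ≤ n1 x := Finset.single_le_sum (f := fun i => |x i|) (fun i _ => abs_nonneg _)
    (Finset.mem_univ i)
  have h2 : 1 ≤ |x i| := Int.one_le_abs hi
  omega

theorem finite_nn {d : ℕ} (x : V d) : {y : V d | n1 (y - x) = 1}.Finite := by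
  refine (Set.finite_Icc (x - 1) (x + 1)).subset ?_
  intro y hy
  have hy' : n1 (y - x) = 1 := hy
  have h : ∀ i, |y i - x i| ≤ 1 := by
    intro i
    have := Finset.single_le_sum (f := fun i => |(y - x) i|) (fun i _ => abs_nonneg _)
      (Finset.mem_univ i)
    have h2 : (∑ i, |(y - x) i|) = 1 := hy'
    rw [h2] at this
    simpa using this
  constructor
  · intro i
    have := abs_le.1 (h i)
    simp only [Pi.sub_apply, Pi.one_apply]
    omega
  · intro i
    have := abs_le.1 (h i)
    simp only [Pi.add_apply, Pi.one_apply]
    omega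

open Classical in
/-- The conductance configuration of a percolation configuration (replaced by the nearest neighbour
lattice when the configuration is not good, an event of probability zero). -/
noncomputable def cond {d : ℕ} (ω : Env d) : Cond d where
  c x y := if Good ω then (if y ≠ x ∧ ω s(x, y) = true then 1 else 0)
    else (if n1 (y - x) = 1 then 1 else 0)
  symm x y := by
    rw [Sym2.eq_swap, n1_sub_comm]
    simp only [ne_comm (a := y)]
  nonneg x y := by
    split_ifs <;> norm_num
  diag x := by
    simp [n1]
  nn x y h := by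
    by_cases hg : Good ω
    · rw [if_pos hg, if_pos]
      refine ⟨?_, hg.2 x y h⟩
      rintro rfl
      simp [n1] at h
    · rw [if_neg hg, if_pos h]
  fin x := by
    by_cases hg : Good ω
    · refine (hg.1 x).subset ?_
      intro y hy
      simp only [Set.mem_ofPred_eq, if_pos hg] at hy ⊢
      by_contra hcon
      exact hy (if_neg hcon)
    · refine (finite_nn x).subset ?_
      intro y hy
      simp only [Set.mem_ofPred_eq, if_neg hg] at hy ⊢
      by_contra hcon
      exact hy (if_neg hcon)

variable {d : ℕ}

open Classical in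
theorem cond_c (ω : Env d) (x y : V d) : (cond ω).c x y =
    if Good ω then (if y ≠ x ∧ ω s(x, y) = true then 1 else 0)
      else (if n1 (y - x) = 1 then 1 else 0) := rfl

open Classical in
theorem cond_c_of_good {ω : Env d} (h : Good ω) (x y : V d) : (cond ω).c x y =
    if y ≠ x ∧ ω s(x, y) = true then 1 else 0 := by
  rw [cond_c, if_pos h]

theorem measurableSet_good : MeasurableSet {ω : Env d | Good ω} := by
  have h1 : MeasurableSet {ω : Env d | ∀ x, {y | y ≠ x ∧ ω s(x, y) = true}.Finite} := by
    have : {ω : Env d | ∀ x, {y | y ≠ x ∧ ω s(x, y) = true}.Finite} =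
        ⋂ x, ⋃ F : Finset (V d), ⋂ y : V d, {ω : Env d | y ≠ x ∧ ω s(x, y) = true → y ∈ F} := by
      ext ω
      simp only [Set.mem_ofPred_eq, Set.mem_iInter, Set.mem_iUnion]
      constructor
      · intro h x
        exact ⟨(h x).toFinset, fun y hy => (h x).mem_toFinset.2 hy⟩
      · intro h x
        obtain ⟨F, hF⟩ := h x
        exact F.finite_toSet.subset fun y hy => hF y hy
    rw [this]
    refine MeasurableSet.iInter fun x => MeasurableSet.iUnion fun F => MeasurableSet.iInter fun y => ?_
    by_cases hyx : y ≠ x
    · by_cases hF : y ∈ F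
      · simp [hF]
      · have : {ω : Env d | y ≠ x ∧ ω s(x, y) = true → y ∈ F} = (fun ω : Env d => ω s(x, y)) ⁻¹' {false} := by
          ext ω
          simp [hyx, hF]
        rw [this]
        exact (measurable_pi_apply _) (measurableSet_singleton _)
    · have : {ω : Env d | y ≠ x ∧ ω s(x, y) = true → y ∈ F} = Set.univ := by
        ext ω
        simp [hyx]
      rw [this]
      exact MeasurableSet.univ
  have h2 : MeasurableSet {ω : Env d | ∀ x y, n1 (y - x) = 1 → ω s(x, y) = true} := by
    have : {ω : Env d | ∀ x y, n1 (y - x) = 1 → ω s(x, y) = true} =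
        ⋂ x, ⋂ y, {ω : Env d | n1 (y - x) = 1 → ω s(x, y) = true} := by
      ext ω
      simp
    rw [this]
    refine MeasurableSet.iInter fun x => MeasurableSet.iInter fun y => ?_
    by_cases hn : n1 (y - x) = 1
    · have : {ω : Env d | n1 (y - x) = 1 → ω s(x, y) = true} = (fun ω : Env d => ω s(x, y)) ⁻¹' {true} := by
        ext ω
        simp [hn]
      rw [this]
      exact (measurable_pi_apply _) (measurableSet_singleton _)
    · have : {ω : Env d | n1 (y - x) = 1 → ω s(x, y) = true} = Set.univ := by
        ext ω
        simp [hn]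
      rw [this]
      exact MeasurableSet.univ
  exact h1.inter h2

theorem measurable_c (x y : V d) : Measurable (fun ω : Env d => (cond ω).c x y) := by
  classical
  simp_rw [cond_c]
  refine Measurable.ite measurableSet_good ?_ measurable_const
  refine Measurable.ite ?_ measurable_const measurable_const
  by_cases hyx : y ≠ x
  · have : {ω : Env d | y ≠ x ∧ ω s(x, y) = true} = (fun ω : Env d => ω s(x, y)) ⁻¹' {true} := by
      ext ω
      simp [hyx]
    rw [this]
    exact (measurable_pi_apply _) (measurableSet_singleton _)
  · have : {ω : Env d | y ≠ x ∧ ω s(x, y) = true} = ∅ := by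
      ext ω
      simp [hyx]
    rw [this]
    exact MeasurableSet.empty

/-- Translation of the configuration. -/
def shift (a : V d) (ω : Env d) : Env d := fun e => ω (Sym2.map (fun x => x + a) e)

theorem shift_apply (a : V d) (ω : Env d) (x y : V d) : shift a ω s(x, y) = ω s(x + a, y + a) := rfl

theorem shift_zero (ω : Env d) : shift 0 ω = ω := by
  ext e
  induction e using Sym2.ind with
  | _ x y => rw [shift_apply, add_zero, add_zero]

theorem shift_shift (a b : V d) (ω : Env d) : shift a (shift b ω) = shift (a + b) ω := by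
  ext e
  induction e using Sym2.ind with
  | _ x y => rw [shift_apply, shift_apply, shift_apply, add_assoc, add_assoc]

theorem measurable_shift (a : V d) : Measurable (shift a : Env d → Env d) := by
  unfold shift
  fun_prop

theorem Good.shift {ω : Env d} (h : Good ω) (a : V d) : Good (shift a ω) := by
  refine ⟨fun x => ?_, fun x y hxy => ?_⟩
  · have h1 := (h.1 (x + a)).preimage (f := fun y => y + a) (fun y _ z _ hyz => add_right_cancel hyz)
    refine h1.subset ?_
    rintro y ⟨hy1, hy2⟩
    refine ⟨fun h => hy1 (add_right_cancel h), ?_⟩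
    rwa [shift_apply] at hy2
  · rw [shift_apply]
    apply h.2
    rwa [add_sub_add_right_eq_sub]

theorem good_shift_iff (ω : Env d) (a : V d) : Good (shift a ω) ↔ Good ω := by
  refine ⟨fun h => ?_, fun h => h.shift a⟩
  have := h.shift (-a)
  rwa [shift_shift, neg_add_cancel, shift_zero] at this

theorem cond_shift (a : V d) (ω : Env d) (x y : V d) :
    (cond (shift a ω)).c x y = (cond ω).c (x + a) (y + a) := by
  classical
  rw [cond_c, cond_c, good_shift_iff, shift_apply, add_sub_add_right_eq_sub]
  simp only [ne_eq, add_left_inj]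

theorem deg_shift (a : V d) (ω : Env d) (x : V d) :
    (cond (shift a ω)).deg x = (cond ω).deg (x + a) := by
  unfold Cond.deg
  simp_rw [cond_shift]
  exact (Equiv.addRight a).tsum_eq (fun y => (cond ω).c (x + a) y)

/-- A translation invariant long-range percolation model with finite second moment. -/
structure Model (d : ℕ) where
  p : V d → ℝ
  nonneg : ∀ x, 0 ≤ p x
  le_one : ∀ x, p x ≤ 1
  symm : ∀ x, p (-x) = p x
  zero : p 0 = 0
  nn : ∀ x, n1 x = 1 → p x = 1
  sum2 : Summable (fun x => (n1 x : ℝ) ^ 2 * p x)

namespace Model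

variable (m : Model d)

theorem summable_p : Summable m.p := by
  refine Summable.of_nonneg_of_le m.nonneg ?_ m.sum2
  intro x
  by_cases hx : x = 0
  · subst hx
    rw [m.zero]
    simp
  · have h1 : (1 : ℝ) ≤ n1 x := by exact_mod_cast one_le_n1 hx
    have h2 := m.nonneg x
    have h3 : (1 : ℝ) ≤ (n1 x : ℝ) ^ 2 := by nlinarith
    nlinarith

/-- The edge probability. -/
def pe (e : Sym2 (V d)) : ℝ :=
  Sym2.lift ⟨fun x y => m.p (y - x), fun x y => by
    show m.p (y - x) = m.p (x - y)
    rw [← m.symm, neg_sub]⟩ e

theorem pe_mk (x y : V d) : m.pe s(x, y) = m.p (y - x) := rfl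

theorem pe_bounds (e : Sym2 (V d)) : 0 ≤ m.pe e ∧ m.pe e ≤ 1 := by
  induction e using Sym2.ind with
  | _ x y => exact ⟨m.nonneg _, m.le_one _⟩

/-- The percolation measure. -/
noncomputable def μ : Measure (Env d) := Measure.infinitePi (fun e => bern (m.pe e))

end Model

theorem isProb_bern {q : ℝ} (h : 0 ≤ q ∧ q ≤ 1) : IsProbabilityMeasure (bern q) := by
  constructor
  unfold bern
  simp only [Measure.coe_add, Measure.coe_smul, Pi.add_apply, Pi.smul_apply, measure_univ,
    smul_eq_mul, mul_one]
  rw [← ENNReal.ofReal_add h.1 (by linarith [h.2])]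
  simp

namespace Model

variable (m : Model d)

instance (e : Sym2 (V d)) : IsProbabilityMeasure (bern (m.pe e)) := isProb_bern (m.pe_bounds e)

instance : IsProbabilityMeasure m.μ := by unfold μ; infer_instance

theorem mp_shift (a : V d) : MeasurePreserving (shift a) m.μ m.μ := by
  refine ⟨measurable_shift a, ?_⟩
  unfold μ shift
  have hinj : Function.Injective (Sym2.map (fun x : V d => x + a)) :=
    Sym2.map.injective (fun x y h => add_right_cancel h)
  rw [Measure.map_infinitePi_infinitePi_of_inj (P := fun e => bern (m.pe e)) hinj]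
  congr 1
  ext1 e
  congr 1
  induction e using Sym2.ind with
  | _ x y => rw [Sym2.map_mk, pe_mk, pe_mk, add_sub_add_right_eq_sub]

theorem lint_shift (a : V d) {f : Env d → ℝ≥0∞} (hf : Measurable f) :
    ∫⁻ ω, f (shift a ω) ∂m.μ = ∫⁻ ω, f ω ∂m.μ := (m.mp_shift a).lintegral_comp hf

end Model

theorem bern_true {q : ℝ} : bern q {true} = ENNReal.ofReal q := by
  unfold bern
  simp

theorem bern_false {q : ℝ} : bern q {false} = ENNReal.ofReal (1 - q) := by
  unfold bern
  simp

theorem lint_bern {q : ℝ} (f : Bool → ℝ≥0∞) : ∫⁻ b, f b ∂(bern q) =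
    ENNReal.ofReal q * f true + ENNReal.ofReal (1 - q) * f false := by
  unfold bern
  rw [lintegral_add_measure, lintegral_smul_measure, lintegral_smul_measure, lintegral_dirac,
    lintegral_dirac, smul_eq_mul, smul_eq_mul]

/-- Resampling one coordinate preserves the product measure. -/
theorem mp_update {ι : Type} [DecidableEq ι] {X : ι → Type} [∀ i, MeasurableSpace (X i)]
    (ν : (i : ι) → Measure (X i)) [∀ i, IsProbabilityMeasure (ν i)] (i : ι) :
    MeasurePreserving (fun q : (∀ i, X i) × X i => Function.update q.1 i q.2)
      ((Measure.infinitePi ν).prod (ν i)) (Measure.infinitePi ν) := by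
  have hm : Measurable (fun q : (∀ i, X i) × X i => Function.update q.1 i q.2) := by
    rw [measurable_pi_iff]
    intro j
    by_cases hj : j = i
    · subst hj
      simp only [Function.update_self]
      exact measurable_snd
    · simp only [Function.update_of_ne hj]
      exact (measurable_pi_apply j).comp measurable_fst
  refine ⟨hm, ?_⟩
  refine Measure.eq_infinitePi ν fun s t ht => ?_
  rw [Measure.map_apply hm (MeasurableSet.pi s.countable_toSet (fun j _ => ht j))]
  by_cases hi : i ∈ s
  · have h1 : (fun q : (∀ i, X i) × X i => Function.update q.1 i q.2) ⁻¹' (Set.pi (s : Set ι) t) =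
        (Set.pi ((s.erase i : Finset ι) : Set ι) t) ×ˢ (t i) := by
      ext q
      simp only [Set.mem_preimage, Set.mem_pi, Finset.mem_coe, Set.mem_prod, Finset.mem_erase]
      constructor
      · intro h
        refine ⟨fun j hj => ?_, ?_⟩
        · have := h j hj.2
          rwa [Function.update_of_ne hj.1] at this
        · have := h i hi
          rwa [Function.update_self] at this
      · rintro ⟨h1, h2⟩ j hj
        by_cases hji : j = i
        · subst hji
          rwa [Function.update_self]
        · rw [Function.update_of_ne hji]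
          exact h1 j ⟨hji, hj⟩
    rw [h1, Measure.prod_prod, Measure.infinitePi_pi _ (fun j _ => ht j), ← Finset.prod_erase_mul _ _ hi]
  · have h1 : (fun q : (∀ i, X i) × X i => Function.update q.1 i q.2) ⁻¹' (Set.pi (s : Set ι) t) =
        (Set.pi (s : Set ι) t) ×ˢ Set.univ := by
      ext q
      simp only [Set.mem_preimage, Set.mem_pi, Finset.mem_coe, Set.mem_prod, Set.mem_univ, and_true]
      constructor
      · intro h j hj
        have := h j hj
        have hne : j ≠ i := by
          rintro rfl
          exact hi hj
        rwa [Function.update_of_ne hne] at this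
      · intro h j hj
        have hne : j ≠ i := by
          rintro rfl
          exact hi hj
        rw [Function.update_of_ne hne]
        exact h j hj
    rw [h1, Measure.prod_prod, Measure.infinitePi_pi _ (fun j _ => ht j), measure_univ, mul_one]

namespace Model

variable (m : Model d)

/-- Resampling formula for one edge. -/
theorem lint_resample [DecidableEq (Sym2 (V d))] (e : Sym2 (V d)) {f : Env d → ℝ≥0∞}
    (hf : Measurable f) :
    ∫⁻ ω, f ω ∂m.μ = ENNReal.ofReal (m.pe e) * ∫⁻ ω, f (Function.update ω e true) ∂m.μ +
      ENNReal.ofReal (1 - m.pe e) * ∫⁻ ω, f (Function.update ω e false) ∂m.μ := by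
  have h := mp_update (fun e => bern (m.pe e)) e
  have h1 := h.lintegral_comp hf
  unfold μ
  have hmu : Measurable (fun q : Env d × Bool => Function.update q.1 e q.2) := h.measurable
  have h2 : ∫⁻ q : Env d × Bool, f (Function.update q.1 e q.2)
      ∂(Measure.infinitePi fun e => bern (m.pe e)).prod (bern (m.pe e)) =
      ∫⁻ ω, ∫⁻ b, f (Function.update ω e b) ∂(bern (m.pe e))
        ∂(Measure.infinitePi fun e => bern (m.pe e)) :=
    lintegral_prod (fun q : Env d × Bool => f (Function.update q.1 e q.2)) (hf.comp hmu).aemeasurable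
  rw [← h1, h2]
  simp_rw [lint_bern]
  have hmb : ∀ b : Bool, Measurable (fun ω : Env d => Function.update ω e b) := fun b =>
    hmu.comp (measurable_id.prodMk measurable_const)
  rw [lintegral_add_left, lintegral_const_mul, lintegral_const_mul]
  · exact hf.comp (hmb false)
  · exact hf.comp (hmb true)
  · exact (hf.comp (hmb true)).const_mul _

theorem lint_false_le [DecidableEq (Sym2 (V d))] (e : Sym2 (V d)) {f : Env d → ℝ≥0∞}
    (hf : Measurable f) :
    ENNReal.ofReal (1 - m.pe e) * ∫⁻ ω, f (Function.update ω e false) ∂m.μ ≤ ∫⁻ ω, f ω ∂m.μ := by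
  rw [m.lint_resample e hf]
  exact le_add_self

end Model

end Pool.Agent.Lib.QIP
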