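import Pool.Agent.Lib.QIP.ExitStep

/-!
# Chunk E: annealed bound for exit probabilities (Caccioppoli iteration)
-/

set_option autoImplicit false

open MeasureTheory ProbabilityTheory Filter
open scoped ENNReal NNReal Topology BigOperators

namespace Pool.Agent.Lib.QIP

variable {d : ℕ}

/-- The tail expectation of the quenched second moment. -/
noncomputable def gR (m : Model d) (R : ℝ≥0∞) : ℝ≥0∞ :=
  ∫⁻ ω, (if R < XX ω 0 then XX ω 0 else 0) ∂m.μ

theorem XX_shift (a : V d) (ω : Env d) (x : V d) : XX (shift a ω) x = XX ω (x + a) := by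
  unfold XX
  simp_rw [cond_shift]
  rw [← (Equiv.addRight a).tsum_eq (fun y => ENNReal.ofReal ((cond ω).c (x + a) y) *
    ENNReal.ofReal (((n1 (y - (x + a)) : ℤ) : ℝ) ^ 2))]
  congr 1
  ext y
  simp only [Equiv.coe_addRight]
  rw [add_sub_add_right_eq_sub]

theorem lint_XX (m : Model d) (x : V d) : ∫⁻ ω, XX ω x ∂m.μ = ENNReal.ofReal m.M2 := by
  unfold XX
  rw [lintegral_tsum (fun y => ((measurable_c x y).ennreal_ofReal.mul_const _).aemeasurable)]
  have h1 : ∀ y, ∫⁻ ω, ENNReal.ofReal ((cond ω).c x y) * ENNReal.ofReal (((n1 (y - x) : ℤ) : ℝ) ^ 2) ∂m.μ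
      = ENNReal.ofReal (((n1 (y - x) : ℤ) : ℝ) ^ 2 * m.p (y - x)) := by
    intro y
    rw [lintegral_mul_const _ (measurable_c x y).ennreal_ofReal, m.lint_c, mul_comm,
      ← ENNReal.ofReal_mul (sq_nonneg _)]
  simp_rw [h1]
  have h2 : ∑' y : V d, ENNReal.ofReal (((n1 (y - x) : ℤ) : ℝ) ^ 2 * m.p (y - x)) =
      ∑' y : V d, ENNReal.ofReal (((n1 y : ℤ) : ℝ) ^ 2 * m.p y) :=
    (Equiv.subRight x).tsum_eq (fun y => ENNReal.ofReal (((n1 y : ℤ) : ℝ) ^ 2 * m.p y))
  rw [h2, ← ENNReal.ofReal_tsum_of_nonneg (fun y => mul_nonneg (sq_nonneg _) (m.nonneg y)) m.sum2]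
  rfl

theorem measurable_XXR (R : ℝ≥0∞) (x : V d) :
    Measurable (fun ω : Env d => if R < XX ω x then XX ω x else 0) :=
  Measurable.ite (measurableSet_lt measurable_const (measurable_XX x)) (measurable_XX x)
    measurable_const

theorem gR_eq (m : Model d) (R : ℝ≥0∞) (x : V d) :
    ∫⁻ ω, (if R < XX ω x then XX ω x else 0) ∂m.μ = gR m R := by
  unfold gR
  rw [← m.lint_shift x (f := fun ω => if R < XX ω 0 then XX ω 0 else 0) (measurable_XXR R 0)]
  simp_rw [XX_shift, zero_add]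

theorem exists_R (m : Model d) {δ : ℝ≥0∞} (hδ : δ ≠ 0) : ∃ N : ℕ, gR m N ≤ δ := by
  have hfin : ∫⁻ ω, XX ω 0 ∂m.μ ≠ ⊤ := by
    rw [lint_XX]
    exact ENNReal.ofReal_ne_top
  obtain ⟨δ', hδ', h⟩ := exists_pos_setLIntegral_lt_of_measure_lt hfin hδ
  obtain ⟨N, hN⟩ := ENNReal.exists_nat_mul_gt hδ'.ne' hfin
  refine ⟨N, ?_⟩
  set s : Set (Env d) := {ω | (N : ℝ≥0∞) < XX ω 0} with hs
  have hms : MeasurableSet s := measurableSet_lt measurable_const (measurable_XX 0)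
  have h1 : m.μ s < δ' := by
    by_contra hcon
    push Not at hcon
    have h2 : (N : ℝ≥0∞) * m.μ {ω | (N : ℝ≥0∞) ≤ XX ω 0} ≤ ∫⁻ ω, XX ω 0 ∂m.μ :=
      mul_meas_ge_le_lintegral (measurable_XX 0) _
    have h3 : m.μ s ≤ m.μ {ω | (N : ℝ≥0∞) ≤ XX ω 0} := by
      apply measure_mono
      intro ω hω
      have hω' : (N : ℝ≥0∞) < XX ω 0 := hω
      exact hω'.le
    have h4 : (N : ℝ≥0∞) * δ' ≤ ∫⁻ ω, XX ω 0 ∂m.μ :=
      (mul_le_mul_right (hcon.trans h3) _).trans h2
    exact absurd hN (not_lt.2 h4)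
  have h2 : gR m N = ∫⁻ ω in s, XX ω 0 ∂m.μ := by
    rw [← lintegral_indicator hms]
    unfold gR
    apply lintegral_congr
    intro ω
    by_cases hω : (N : ℝ≥0∞) < XX ω 0
    · rw [if_pos hω, Set.indicator_of_mem (show ω ∈ s from hω)]
    · rw [if_neg hω, Set.indicator_of_notMem (show ω ∉ s from hω)]
  rw [h2]
  exact (h s h1).le

theorem tendsto_tail (m : Model d) : Tendsto (fun h : ℕ => tailM m h) atTop (𝓝 0) := by
  have h1 : ∀ h : ℕ, tailM m h = ENNReal.ofReal (∑' z : V d,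
      if (h : ℤ) < n1 z then ((n1 z : ℤ) : ℝ) ^ 2 * m.p z else 0) := by
    intro h
    have hnn : ∀ z : V d, 0 ≤ (if (h : ℤ) < n1 z then ((n1 z : ℤ) : ℝ) ^ 2 * m.p z else 0) := by
      intro z
      split_ifs
      · exact mul_nonneg (sq_nonneg _) (m.nonneg z)
      · exact le_rfl
    rw [ENNReal.ofReal_tsum_of_nonneg hnn]
    · unfold tailM
      congr 1
      ext z
      split_ifs
      · rw [mul_comm, ← ENNReal.ofReal_mul (sq_nonneg _)]
      · simp
    · refine Summable.of_nonneg_of_le hnn (fun z => ?_) m.sum2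
      split_ifs
      · exact le_rfl
      · exact mul_nonneg (sq_nonneg _) (m.nonneg z)
  have h2 : Tendsto (fun h : ℕ => ∑' z : V d,
      if (h : ℤ) < n1 z then ((n1 z : ℤ) : ℝ) ^ 2 * m.p z else 0) atTop (𝓝 (∑' _z : V d, (0 : ℝ))) := by
    apply tendsto_tsum_of_dominated_convergence m.sum2
    · intro z
      apply tendsto_const_nhds.congr'
      filter_upwards [eventually_ge_atTop (n1 z).toNat] with h hh
      rw [if_neg]
      have := Int.self_le_toNat (n1 z)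
      omega
    · refine Eventually.of_forall fun h z => ?_
      rw [Real.norm_eq_abs]
      split_ifs
      · rw [abs_of_nonneg (mul_nonneg (sq_nonneg _) (m.nonneg z))]
      · rw [abs_zero]
        exact mul_nonneg (sq_nonneg _) (m.nonneg z)
  rw [tsum_zero] at h2
  simp_rw [h1]
  rw [← ENNReal.ofReal_zero]
  exact (ENNReal.continuous_ofReal.tendsto 0).comp h2

/-- The mean of the exit probability. -/
noncomputable def vb (m : Model d) (D : Finset (V d)) (lam : ℝ) (x : V d) : ℝ :=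
  ∫ ω, vv D lam ω x ∂m.μ

theorem integrable_vv (m : Model d) (hd : 0 < d) (D : Finset (V d)) {lam : ℝ} (hl : 0 < lam)
    (x : V d) : Integrable (fun ω : Env d => vv D lam ω x) m.μ :=
  Integrable.of_bound (measurable_vv hd D hl x).aestronglyMeasurable 1
    (Eventually.of_forall fun ω => by
      have h := vv_bounds hd D hl ω x
      rw [Real.norm_eq_abs, abs_of_nonneg h.1]
      exact h.2)

theorem vb_eq (m : Model d) (hd : 0 < d) (D : Finset (V d)) {lam : ℝ} (hl : 0 < lam) (x : V d) :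
    vb m D lam x = 1 - ∫ ω, (cond ω).res (D : Set (V d)) lam (fun _ => (1 : ℝ)) x ∂m.μ := by
  unfold vb vv
  rw [integral_sub (integrable_const _)]
  · simp
  · exact Integrable.of_bound (measurable_res hd _ hl Cond.norm_one_le x).aestronglyMeasurable 1
      (Eventually.of_forall fun ω => (cond ω).norm_res_le hd _ hl Cond.norm_one_le x)

theorem vb_bounds (m : Model d) (hd : 0 < d) (D : Finset (V d)) {lam : ℝ} (hl : 0 < lam) (x : V d) :
    0 ≤ vb m D lam x ∧ vb m D lam x ≤ 1 := by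
  have h := fun ω => vv_bounds hd D hl ω x
  refine ⟨integral_nonneg fun ω => (h ω).1, ?_⟩
  have h1 : ∫ _ω : Env d, (1 : ℝ) ∂m.μ = 1 := by simp
  rw [← h1]
  exact integral_mono (integrable_vv m hd D hl x) (integrable_const _) fun ω => (h ω).2

theorem vb_sq_le (m : Model d) (hd : 0 < d) (D : Finset (V d)) {lam : ℝ} (hl : 0 < lam) (x : V d) :
    ENNReal.ofReal (vb m D lam x ^ 2) ≤ ∫⁻ ω, ENNReal.ofReal (vv D lam ω x ^ 2) ∂m.μ := by
  have h := fun ω => vv_bounds hd D hl ω x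
  have h1 : ENNReal.ofReal (vb m D lam x) = ∫⁻ ω, ENNReal.ofReal (vv D lam ω x) ∂m.μ :=
    ofReal_integral_eq_lintegral_ofReal (integrable_vv m hd D hl x)
      (Eventually.of_forall fun ω => (h ω).1)
  have h2 := ENNReal.lintegral_mul_le_Lp_mul_Lq m.μ Real.HolderConjugate.two_two
    (f := fun ω => ENNReal.ofReal (vv D lam ω x)) (g := fun _ => 1)
    (measurable_vv hd D hl x).ennreal_ofReal.aemeasurable aemeasurable_const
  rw [ENNReal.ofReal_pow (vb_bounds m hd D hl x).1, h1]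
  have h3 : ∀ x : ℝ≥0∞, (x ^ (1 / 2 : ℝ)) ^ 2 = x := by
    intro x
    rw [← ENNReal.rpow_natCast, ← ENNReal.rpow_mul]
    norm_num
  have h4 : ∫⁻ ω, ENNReal.ofReal (vv D lam ω x) ∂m.μ ≤
      (∫⁻ ω, ENNReal.ofReal (vv D lam ω x ^ 2) ∂m.μ) ^ (1 / 2 : ℝ) := by
    refine le_trans (le_of_eq ?_) (h2.trans (le_of_eq ?_))
    · simp
    · have h5 : ∫⁻ ω : Env d, (1 : ℝ≥0∞) ^ (2 : ℝ) ∂m.μ = 1 := by simp
      rw [h5, ENNReal.one_rpow, mul_one]
      congr 2
      ext ω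
      rw [ENNReal.ofReal_pow (h ω).1, ← ENNReal.rpow_natCast]
      norm_num
  calc (∫⁻ ω, ENNReal.ofReal (vv D lam ω x) ∂m.μ) ^ 2 ≤
      ((∫⁻ ω, ENNReal.ofReal (vv D lam ω x ^ 2) ∂m.μ) ^ (1 / 2 : ℝ)) ^ 2 := by gcongr
    _ = _ := h3 _

/-- Decoupling of the exit probability from the local second moment. -/
theorem decouple (m : Model d) (hd : 0 < d) (D : Finset (V d)) {lam : ℝ} (hl : 0 < lam)
    (R : ℝ≥0∞) (x : V d) :
    ∫⁻ ω, ENNReal.ofReal (vv D lam ω x ^ 2) * XX ω x ∂m.μ ≤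
      ENNReal.ofReal (2 * vb m D lam x ^ 2) * ENNReal.ofReal m.M2 +
        (2 * (R * ∫⁻ ω, ENNReal.ofReal ((vv D lam ω x - vb m D lam x) ^ 2) ∂m.μ) + 2 * gR m R) := by
  set b := vb m D lam x with hb
  have hbb := vb_bounds m hd D hl x
  have hm1 : Measurable (fun ω : Env d => ENNReal.ofReal ((vv D lam ω x - b) ^ 2)) :=
    (((measurable_vv hd D hl x).sub_const _).pow_const 2).ennreal_ofReal
  have hpt : ∀ ω : Env d, ENNReal.ofReal (vv D lam ω x ^ 2) * XX ω x ≤
      ENNReal.ofReal (2 * b ^ 2) * XX ω x + (2 * (R * ENNReal.ofReal ((vv D lam ω x - b) ^ 2)) +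
        2 * (if R < XX ω x then XX ω x else 0)) := by
    intro ω
    have hv := vv_bounds hd D hl ω x
    have h1 : ENNReal.ofReal (vv D lam ω x ^ 2) ≤ ENNReal.ofReal (2 * b ^ 2) +
        2 * ENNReal.ofReal ((vv D lam ω x - b) ^ 2) := by
      have h2 : (2 : ℝ≥0∞) = ENNReal.ofReal 2 := by simp
      rw [h2, ← ENNReal.ofReal_mul (by norm_num), ← ENNReal.ofReal_add (by positivity) (by positivity)]
      apply ENNReal.ofReal_le_ofReal
      nlinarith [sq_nonneg (vv D lam ω x - 2 * b)]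
    have h3 : ENNReal.ofReal ((vv D lam ω x - b) ^ 2) * XX ω x ≤
        R * ENNReal.ofReal ((vv D lam ω x - b) ^ 2) + (if R < XX ω x then XX ω x else 0) := by
      by_cases hR : R < XX ω x
      · rw [if_pos hR]
        refine le_trans ?_ le_add_self
        have h4 : ENNReal.ofReal ((vv D lam ω x - b) ^ 2) ≤ 1 := by
          rw [← ENNReal.ofReal_one]
          apply ENNReal.ofReal_le_ofReal
          nlinarith [hv.1, hv.2, hbb.1, hbb.2]
        calc _ ≤ 1 * XX ω x := mul_le_mul_left h4 _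
          _ = _ := one_mul _
      · rw [if_neg hR, add_zero, mul_comm]
        exact mul_le_mul_left (not_lt.1 hR) _
    calc ENNReal.ofReal (vv D lam ω x ^ 2) * XX ω x ≤
        (ENNReal.ofReal (2 * b ^ 2) + 2 * ENNReal.ofReal ((vv D lam ω x - b) ^ 2)) * XX ω x :=
          mul_le_mul_left h1 _
      _ = ENNReal.ofReal (2 * b ^ 2) * XX ω x +
          2 * (ENNReal.ofReal ((vv D lam ω x - b) ^ 2) * XX ω x) := by ring
      _ ≤ ENNReal.ofReal (2 * b ^ 2) * XX ω x + 2 * (R * ENNReal.ofReal ((vv D lam ω x - b) ^ 2) +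
          (if R < XX ω x then XX ω x else 0)) := add_le_add_right (mul_le_mul_right h3 _) _
      _ = _ := by ring
  refine (lintegral_mono hpt).trans (le_of_eq ?_)
  rw [lintegral_add_left ((measurable_XX x).const_mul _),
    lintegral_add_left ((hm1.const_mul _).const_mul _),
    lintegral_const_mul _ (measurable_XX x), lintegral_const_mul _ (hm1.const_mul _),
    lintegral_const_mul _ hm1, lintegral_const_mul _ (measurable_XXR R x), lint_XX, gR_eq]

/-- The real form of the Caccioppoli step. -/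
theorem step_real (hd : 3 ≤ d) (m : Model d) {K : ℝ}
    (hvar : ∀ lam : ℝ, 0 < lam → lam ≤ 1 → ∀ D : Finset (V d),
      ∑ x ∈ D, ∫⁻ ω, ‖(cond ω).res (D : Set (V d)) lam (fun _ => (1 : ℝ)) x -
        ∫ ω', (cond ω').res (D : Set (V d)) lam (fun _ => (1 : ℝ)) x ∂m.μ‖ₑ ^ 2 ∂m.μ ≤
      ENNReal.ofReal (K * D.card * lam ^ ((1 / 5) : ℝ)))
    {lam : ℝ} (hl : 0 < lam) (hl1 : lam ≤ 1) {a h r : ℕ} (hh : 0 < h) (har : a + 2 * h ≤ 2 * r)
    (R : ℝ≥0∞) {δ : ℝ} (hδ : 0 ≤ δ)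
    (hsmall : 2 * (R * ENNReal.ofReal (K * lam ^ ((1 / 5) : ℝ))) + 2 * gR m R + tailM m h ≤
      ENNReal.ofReal δ) :
    ∑ x ∈ box d a, vb m (box d (2 * r)) lam x ^ 2 ≤
      1 / (lam * (h : ℝ) ^ 2) * (2 * m.M2 * ∑ x ∈ box d (a + 2 * h), vb m (box d (2 * r)) lam x ^ 2 +
        (box d (2 * r)).card * δ) := by
  have hd0 : 0 < d := by omega
  set D := box d (2 * r) with hD
  have hsub : box d (a + 2 * h) ⊆ D := by
    intro x hx
    rw [hD, mem_box_iff]
    rw [mem_box_iff] at hx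
    exact hx.trans (by exact_mod_cast har)
  have hM2 := m.M2_nonneg
  have hh' : (0 : ℝ) < h := by exact_mod_cast hh
  have h1 := cacc_ann hd0 m hl hh har
  rw [← hD] at h1
  have h2 : ENNReal.ofReal (lam * ∑ x ∈ box d a, vb m D lam x ^ 2) ≤
      ENNReal.ofReal lam * ∑ x ∈ box d a, ∫⁻ ω, ENNReal.ofReal (vv D lam ω x ^ 2) ∂m.μ := by
    rw [ENNReal.ofReal_mul hl.le, ENNReal.ofReal_sum_of_nonneg (fun x _ => sq_nonneg _)]
    exact mul_le_mul_right (Finset.sum_le_sum fun x _ => vb_sq_le m hd0 D hl x) _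
  have h3 : ∑ x ∈ box d (a + 2 * h), ∫⁻ ω, ENNReal.ofReal (vv D lam ω x ^ 2) * XX ω x ∂m.μ ≤
      ENNReal.ofReal (2 * m.M2 * ∑ x ∈ box d (a + 2 * h), vb m D lam x ^ 2) +
        (2 * (R * ENNReal.ofReal (K * D.card * lam ^ ((1 / 5) : ℝ))) + D.card * (2 * gR m R)) := by
    refine (Finset.sum_le_sum fun x _ => decouple m hd0 D hl R x).trans ?_
    rw [Finset.sum_add_distrib, Finset.sum_add_distrib]
    refine add_le_add (le_of_eq ?_) (add_le_add ?_ ?_)
    · rw [← Finset.sum_mul, ← ENNReal.ofReal_sum_of_nonneg (fun x _ => by positivity),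
        ← ENNReal.ofReal_mul (Finset.sum_nonneg fun x _ => by positivity), ← Finset.mul_sum]
      congr 1
      ring
    · rw [← Finset.mul_sum, ← Finset.mul_sum]
      refine mul_le_mul_right (mul_le_mul_right ?_ _) _
      refine le_trans ?_ (hvar lam hl hl1 D)
      refine le_trans (le_of_eq ?_) (Finset.sum_le_sum_of_subset_of_nonneg hsub
        (fun _ _ _ => zero_le))
      apply Finset.sum_congr rfl
      intro x _
      congr 1
      ext ω
      rw [enorm_sq_eq, Real.norm_eq_abs, sq_abs, vb_eq m hd0 D hl x]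
      unfold vv
      congr 1
      ring
    · rw [Finset.sum_const, nsmul_eq_mul]
      refine mul_le_mul_left ?_ _
      exact_mod_cast Finset.card_le_card hsub
  have h4 : 2 * (R * ENNReal.ofReal (K * D.card * lam ^ ((1 / 5) : ℝ))) + D.card * (2 * gR m R) +
      D.card * tailM m h ≤ ENNReal.ofReal (D.card * δ) := by
    have e1 : ENNReal.ofReal (K * D.card * lam ^ ((1 / 5) : ℝ)) =
        (D.card : ℝ≥0∞) * ENNReal.ofReal (K * lam ^ ((1 / 5) : ℝ)) := by
      rw [← ENNReal.ofReal_natCast, ← ENNReal.ofReal_mul (Nat.cast_nonneg _)]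
      congr 1
      ring
    rw [e1, ENNReal.ofReal_mul (Nat.cast_nonneg _), ENNReal.ofReal_natCast]
    calc _ = (D.card : ℝ≥0∞) * (2 * (R * ENNReal.ofReal (K * lam ^ ((1 / 5) : ℝ))) + 2 * gR m R +
          tailM m h) := by ring
      _ ≤ _ := mul_le_mul_right hsmall _
  have hV0 : 0 ≤ ∑ x ∈ box d (a + 2 * h), vb m D lam x ^ 2 := Finset.sum_nonneg fun x _ => sq_nonneg _
  have h5 : ENNReal.ofReal (lam * ∑ x ∈ box d a, vb m D lam x ^ 2) ≤
      ENNReal.ofReal (1 / (h : ℝ) ^ 2 * (2 * m.M2 * ∑ x ∈ box d (a + 2 * h), vb m D lam x ^ 2 +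
        D.card * δ)) := by
    refine h2.trans (h1.trans ?_)
    rw [ENNReal.ofReal_mul (p := 1 / (h : ℝ) ^ 2) (by positivity)]
    apply mul_le_mul_right
    rw [ENNReal.ofReal_add (by positivity) (by positivity)]
    calc _ ≤ ENNReal.ofReal (2 * m.M2 * ∑ x ∈ box d (a + 2 * h), vb m D lam x ^ 2) +
        (2 * (R * ENNReal.ofReal (K * D.card * lam ^ ((1 / 5) : ℝ))) + D.card * (2 * gR m R)) +
        D.card * tailM m h := add_le_add_left h3 _
      _ = ENNReal.ofReal (2 * m.M2 * ∑ x ∈ box d (a + 2 * h), vb m D lam x ^ 2) +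
        (2 * (R * ENNReal.ofReal (K * D.card * lam ^ ((1 / 5) : ℝ))) + D.card * (2 * gR m R) +
        D.card * tailM m h) := by rw [add_assoc]
      _ ≤ _ := add_le_add_right h4 _
  have h6 := (ENNReal.ofReal_le_ofReal_iff (by positivity)).1 h5
  have h7 : 1 / (lam * (h : ℝ) ^ 2) * (2 * m.M2 * ∑ x ∈ box d (a + 2 * h), vb m D lam x ^ 2 +
      D.card * δ) = (1 / (h : ℝ) ^ 2 * (2 * m.M2 * ∑ x ∈ box d (a + 2 * h), vb m D lam x ^ 2 +
        D.card * δ)) / lam := by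
    field_simp
  rw [h7, le_div_iff₀ hl]
  linarith

theorem card_box_two' (d r : ℕ) : ((box d (2 * r)).card : ℝ) ≤ 2 ^ d * (box d r).card := by
  have h : ∀ s : ℕ, (box d s).card = (2 * s + 1) ^ d := by
    intro s
    unfold box
    rw [Pi.card_Icc]
    simp only [Int.card_Icc]
    rw [Finset.prod_const, Finset.card_univ, Fintype.card_fin]
    congr 1
    omega
  rw [h, h]
  push_cast
  rw [← mul_pow]
  apply pow_le_pow_left₀ (by positivity)
  linarith [show (0 : ℝ) ≤ r from Nat.cast_nonneg r]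

/-- Three iterations. -/
theorem three_steps {V0 V1 V2 V3 α M N δ A B q : ℝ} (hα0 : 0 ≤ α) (hM : 0 ≤ M) (hN : 0 ≤ N)
    (hδ : 0 ≤ δ) (hA : 0 ≤ A) (hq : 1 ≤ q) (hα : α ≤ A / q) (hB : 2 * M * A ≤ B)
    (h0 : V0 ≤ α * (2 * M * V1 + N * δ)) (h1 : V1 ≤ α * (2 * M * V2 + N * δ))
    (h2 : V2 ≤ α * (2 * M * V3 + N * δ)) (h3 : V3 ≤ N)
    (hδ' : δ * (A * (1 + B + B ^ 2)) ≤ (B / q) ^ 3) : V0 ≤ 2 * (B / q) ^ 3 * N := by
  have hq0 : 0 < q := by linarith
  have hAq : A / q ≤ A := div_le_self hA hq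
  have hB0 : 0 ≤ B := le_trans (by positivity) hB
  have hBq : B / q ≤ B := div_le_self hB0 hq
  set β := α * (2 * M) with hβ
  have hβ0 : 0 ≤ β := by positivity
  have hβ1 : β ≤ B / q := by
    calc β ≤ A / q * (2 * M) := mul_le_mul_of_nonneg_right hα (by positivity)
      _ = 2 * M * A / q := by ring
      _ ≤ B / q := div_le_div_of_nonneg_right hB hq0.le
  have hβ2 : β ≤ B := hβ1.trans hBq
  have hNd : 0 ≤ N * δ := by positivity
  have e2 : V2 ≤ β * N + α * (N * δ) := by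
    have := mul_le_mul_of_nonneg_left h3 hβ0
    calc V2 ≤ α * (2 * M * V3 + N * δ) := h2
      _ = β * V3 + α * (N * δ) := by rw [hβ]; ring
      _ ≤ _ := by linarith
  have e1 : V1 ≤ β * (β * N + α * (N * δ)) + α * (N * δ) := by
    have := mul_le_mul_of_nonneg_left e2 hβ0
    calc V1 ≤ α * (2 * M * V2 + N * δ) := h1
      _ = β * V2 + α * (N * δ) := by rw [hβ]; ring
      _ ≤ _ := by linarith
  have e0 : V0 ≤ β * (β * (β * N + α * (N * δ)) + α * (N * δ)) + α * (N * δ) := by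
    have := mul_le_mul_of_nonneg_left e1 hβ0
    calc V0 ≤ α * (2 * M * V1 + N * δ) := h0
      _ = β * V1 + α * (N * δ) := by rw [hβ]; ring
      _ ≤ _ := by linarith
  have e3 : β ^ 3 ≤ (B / q) ^ 3 := pow_le_pow_left₀ hβ0 hβ1 3
  have e4 : α * (1 + β + β ^ 2) ≤ A * (1 + B + B ^ 2) := by
    apply mul_le_mul (hα.trans hAq) _ (by positivity) hA
    have := pow_le_pow_left₀ hβ0 hβ2 2
    linarith
  calc V0 ≤ β * (β * (β * N + α * (N * δ)) + α * (N * δ)) + α * (N * δ) := e0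
    _ = β ^ 3 * N + (α * (1 + β + β ^ 2)) * δ * N := by ring
    _ ≤ (B / q) ^ 3 * N + (B / q) ^ 3 * N := by
        apply add_le_add
        · exact mul_le_mul_of_nonneg_right e3 hN
        · apply mul_le_mul_of_nonneg_right _ hN
          calc (α * (1 + β + β ^ 2)) * δ ≤ (A * (1 + B + B ^ 2)) * δ :=
                mul_le_mul_of_nonneg_right e4 hδ
            _ = δ * (A * (1 + B + B ^ 2)) := by ring
            _ ≤ _ := hδ'
    _ = _ := by ring

/-- Annealed bound for the probability to leave the cube of radius `2 r`, `r = ε √n`, before an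
independent geometric time of mean `n / q`, averaged over the starting points in the cube of
radius `r`. -/
theorem exit_bound (hd : 3 ≤ d) (m : Model d) (ε : ℝ) (hε : 0 < ε) :
    ∃ Ce : ℝ, 0 < Ce ∧ ∀ q : ℕ, 1 ≤ q → ∀ᶠ n : ℕ in atTop,
      ∑ x ∈ box d ⌊ε * Real.sqrt n⌋₊,
        (1 - ∫ ω, (cond ω).res ((box d (2 * ⌊ε * Real.sqrt n⌋₊) : Finset (V d)) : Set (V d))
          ((q : ℝ) / n) (fun _ => (1 : ℝ)) x ∂m.μ) ≤
        Ce * (q : ℝ) ^ (-(3 / 2) : ℝ) * (box d ⌊ε * Real.sqrt n⌋₊).card := by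
  obtain ⟨K, hK, hvar⟩ := var_dom hd m
  have hd0 : 0 < d := by omega
  have hM2 := m.M2_nonneg
  set A : ℝ := 144 / ε ^ 2 with hA
  set B : ℝ := 2 * m.M2 * A + 1 with hB
  have hA0 : 0 < A := by positivity
  have hB0 : 0 < B := by positivity
  refine ⟨Real.sqrt (2 ^ d * (2 * B ^ 3)), by positivity, ?_⟩
  intro q hq
  have hq1 : (1 : ℝ) ≤ q := by exact_mod_cast hq
  have hq0 : (0 : ℝ) < q := by linarith
  set δ : ℝ := (B / q) ^ 3 / (A * (1 + B + B ^ 2)) with hδ
  have hδ0 : 0 < δ := by positivity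
  have hδ' : δ * (A * (1 + B + B ^ 2)) ≤ (B / q) ^ 3 := by
    rw [hδ, div_mul_cancel₀ _ (by positivity)]
  obtain ⟨N, hN⟩ := exists_R m (δ := ENNReal.ofReal (δ / 6)) (by
    rw [Ne, ENNReal.ofReal_eq_zero, not_le]; positivity)
  -- limits
  have hsq : Tendsto (fun n : ℕ => ε * Real.sqrt n) atTop atTop :=
    (Real.tendsto_sqrt_atTop.comp tendsto_natCast_atTop_atTop).const_mul_atTop hε
  have hr : Tendsto (fun n : ℕ => ⌊ε * Real.sqrt n⌋₊) atTop atTop :=
    tendsto_nat_floor_atTop.comp hsq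
  have hh : Tendsto (fun n : ℕ => ⌊ε * Real.sqrt n⌋₊ / 6) atTop atTop :=
    (Nat.tendsto_div_const_atTop (by norm_num)).comp hr
  have htail := (tendsto_tail m).comp hh
  have hlam0 : Tendsto (fun n : ℕ => (q : ℝ) / n) atTop (𝓝 0) :=
    tendsto_const_div_atTop_nhds_zero_nat _
  have hrp : Tendsto (fun n : ℕ => 2 * (N : ℝ) * (K * ((q : ℝ) / n) ^ ((1 / 5) : ℝ))) atTop (𝓝 0) := by
    have h1 : Tendsto (fun n : ℕ => ((q : ℝ) / n) ^ ((1 / 5) : ℝ)) atTop (𝓝 ((0 : ℝ) ^ ((1 / 5) : ℝ))) :=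
      (Real.continuousAt_rpow_const 0 (1 / 5) (Or.inr (by norm_num))).tendsto.comp hlam0
    rw [Real.zero_rpow (by norm_num)] at h1
    have h2 := (h1.const_mul K).const_mul (2 * (N : ℝ))
    simpa using h2
  have hδ3 : 0 < δ / 3 := by positivity
  filter_upwards [htail.eventually (Iio_mem_nhds (show (0 : ℝ≥0∞) < ENNReal.ofReal (δ / 3) from
      ENNReal.ofReal_pos.2 hδ3)), hrp.eventually (Iio_mem_nhds hδ3), eventually_ge_atTop q,
      hsq.eventually_ge_atTop 12] with n hn1 hn2 hn3 hn4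
  simp only [Function.comp] at hn1
  replace hn2 : 2 * (N : ℝ) * (K * ((q : ℝ) / n) ^ ((1 / 5) : ℝ)) < δ / 3 := hn2
  replace hn1 : tailM m (⌊ε * Real.sqrt n⌋₊ / 6) < ENNReal.ofReal (δ / 3) := hn1
  set r := ⌊ε * Real.sqrt n⌋₊ with hrdef
  set h := r / 6 with hhdef
  set lam : ℝ := (q : ℝ) / n with hlam
  have hnq : (q : ℝ) ≤ n := by exact_mod_cast hn3
  have hn0 : (0 : ℝ) < n := by linarith
  have hl : 0 < lam := by positivity
  have hl1 : lam ≤ 1 := by rw [hlam, div_le_one hn0]; exact hnq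
  have hr1 : ε * Real.sqrt n < (r : ℝ) + 1 := Nat.lt_floor_add_one _
  have hh1 : (r : ℝ) ≤ 6 * (h : ℝ) + 5 := by
    have : r ≤ 6 * h + 5 := by omega
    exact_mod_cast this
  have hh2 : ε * Real.sqrt n / 12 ≤ (h : ℝ) := by linarith
  have hhpos : (0 : ℝ) < h := lt_of_lt_of_le (by linarith) hh2
  have hh0 : 0 < h := by exact_mod_cast hhpos
  have h6 : 6 * h ≤ r := by omega
  have hα : 1 / (lam * (h : ℝ) ^ 2) ≤ A / q := by
    have h1 : (ε * Real.sqrt n / 12) ^ 2 ≤ (h : ℝ) ^ 2 := pow_le_pow_left₀ (by positivity) hh2 2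
    have h2 : (ε * Real.sqrt n / 12) ^ 2 = ε ^ 2 * n / 144 := by
      rw [div_pow, mul_pow, Real.sq_sqrt hn0.le]
      norm_num
    rw [h2] at h1
    have h3 : lam * (ε ^ 2 * n / 144) = q / A := by
      rw [hlam, hA]
      field_simp
    have h4 : q / A ≤ lam * (h : ℝ) ^ 2 := by
      rw [← h3]
      exact mul_le_mul_of_nonneg_left h1 hl.le
    calc 1 / (lam * (h : ℝ) ^ 2) ≤ 1 / (q / A) := by
          apply one_div_le_one_div_of_le (by positivity) h4
      _ = A / q := by field_simp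
  have hsmall : 2 * ((N : ℝ≥0∞) * ENNReal.ofReal (K * lam ^ ((1 / 5) : ℝ))) + 2 * gR m N + tailM m h ≤
      ENNReal.ofReal δ := by
    have e1 : 2 * ((N : ℝ≥0∞) * ENNReal.ofReal (K * lam ^ ((1 / 5) : ℝ))) ≤ ENNReal.ofReal (δ / 3) := by
      have e2 : 2 * ((N : ℝ≥0∞) * ENNReal.ofReal (K * lam ^ ((1 / 5) : ℝ))) =
          ENNReal.ofReal (2 * (N : ℝ) * (K * lam ^ ((1 / 5) : ℝ))) := by
        rw [mul_assoc 2 (N : ℝ), ENNReal.ofReal_mul (p := 2) (by norm_num),
          ENNReal.ofReal_mul (p := (N : ℝ)) (Nat.cast_nonneg _), ENNReal.ofReal_natCast,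
          ENNReal.ofReal_ofNat]
      rw [e2]
      exact ENNReal.ofReal_le_ofReal hn2.le
    have e3 : 2 * gR m N ≤ ENNReal.ofReal (δ / 3) := by
      calc 2 * gR m N ≤ 2 * ENNReal.ofReal (δ / 6) := mul_le_mul_right hN _
        _ = ENNReal.ofReal 2 * ENNReal.ofReal (δ / 6) := by simp
        _ = ENNReal.ofReal (δ / 3) := by
            rw [← ENNReal.ofReal_mul (by norm_num)]
            congr 1
            ring
    calc _ ≤ ENNReal.ofReal (δ / 3) + ENNReal.ofReal (δ / 3) + ENNReal.ofReal (δ / 3) :=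
          add_le_add (add_le_add e1 e3) hn1.le
      _ = ENNReal.ofReal δ := by
          rw [← ENNReal.ofReal_add hδ3.le hδ3.le, ← ENNReal.ofReal_add (by positivity) hδ3.le]
          congr 1
          ring
  set D := box d (2 * r) with hD
  have step := fun (a : ℕ) (har : a + 2 * h ≤ 2 * r) =>
    step_real hd m hvar hl hl1 hh0 har (N : ℝ≥0∞) hδ0.le hsmall
  have s0 := step r (by omega)
  have s1 := step (r + 2 * h) (by omega)
  have s2 := step (r + 2 * h + 2 * h) (by omega)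
  have s3 : ∑ x ∈ box d (r + 2 * h + 2 * h + 2 * h), vb m D lam x ^ 2 ≤ (D.card : ℝ) := by
    have hsub : box d (r + 2 * h + 2 * h + 2 * h) ⊆ D := by
      intro x hx
      rw [hD, mem_box_iff]
      rw [mem_box_iff] at hx
      refine hx.trans ?_
      have : r + 2 * h + 2 * h + 2 * h ≤ 2 * r := by omega
      exact_mod_cast this
    calc ∑ x ∈ box d (r + 2 * h + 2 * h + 2 * h), vb m D lam x ^ 2 ≤
        ∑ x ∈ D, vb m D lam x ^ 2 :=
          Finset.sum_le_sum_of_subset_of_nonneg hsub fun _ _ _ => sq_nonneg _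
      _ ≤ ∑ x ∈ D, (1 : ℝ) := Finset.sum_le_sum fun x _ => by
          have h := vb_bounds m hd0 D hl x
          nlinarith [h.1, h.2]
      _ = _ := by simp
  have hfin := three_steps (by positivity) hM2 (Nat.cast_nonneg _) hδ0.le hA0.le hq1 hα
    (by rw [hB]; linarith : 2 * m.M2 * A ≤ B) s0 s1 s2 s3 hδ'
  have e1 : ∑ x ∈ box d r, (1 - ∫ ω, (cond ω).res (D : Set (V d)) lam (fun _ => (1 : ℝ)) x ∂m.μ) =
      ∑ x ∈ box d r, vb m D lam x := Finset.sum_congr rfl fun x _ => (vb_eq m hd0 D hl x).symm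
  rw [e1]
  have hc0 : (0 : ℝ) ≤ (box d r).card := Nat.cast_nonneg _
  have e2 : (∑ x ∈ box d r, vb m D lam x) ^ 2 ≤ (box d r).card * ∑ x ∈ box d r, vb m D lam x ^ 2 :=
    sq_sum_le_card_mul_sum_sq
  have e3 : (∑ x ∈ box d r, vb m D lam x) ^ 2 ≤
      (Real.sqrt (2 ^ d * (2 * B ^ 3)) * (q : ℝ) ^ (-(3 / 2) : ℝ) * (box d r).card) ^ 2 := by
    have e4 : ((q : ℝ) ^ (-(3 / 2) : ℝ)) ^ 2 = 1 / (q : ℝ) ^ 3 := by
      rw [← Real.rpow_natCast, ← Real.rpow_mul hq0.le]
      have : (-(3 / 2) : ℝ) * ((2 : ℕ) : ℝ) = -((3 : ℕ) : ℝ) := by norm_num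
      rw [this, Real.rpow_neg hq0.le, Real.rpow_natCast, one_div]
    have e5 := card_box_two' d r
    calc (∑ x ∈ box d r, vb m D lam x) ^ 2 ≤ (box d r).card * ∑ x ∈ box d r, vb m D lam x ^ 2 := e2
      _ ≤ (box d r).card * (2 * (B / q) ^ 3 * D.card) := mul_le_mul_of_nonneg_left hfin hc0
      _ ≤ (box d r).card * (2 * (B / q) ^ 3 * (2 ^ d * (box d r).card)) := by
          apply mul_le_mul_of_nonneg_left _ hc0
          exact mul_le_mul_of_nonneg_left e5 (by positivity)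
      _ = 2 ^ d * (2 * B ^ 3) * (1 / (q : ℝ) ^ 3) * ((box d r).card : ℝ) ^ 2 := by
          field_simp
      _ = _ := by
          rw [mul_pow, mul_pow, e4, Real.sq_sqrt (by positivity)]
  exact abs_le_of_sq_le_sq' e3 (by positivity) |>.2

end Pool.Agent.Lib.QIP
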