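import Pool.Agent.Lib.QIP.Var1

/-!
# Chunk E, deterministic part: Caccioppoli inequality for the killed resolvent
-/

set_option autoImplicit false

open MeasureTheory ProbabilityTheory Filter
open scoped ENNReal NNReal Topology BigOperators

namespace Pool.Agent.Lib.QIP

variable {d : ℕ}

theorem cacc_pt (s t a b : ℝ) :
    -((a ^ 2 + b ^ 2) / 2 * (s - t) ^ 2) ≤ (s ^ 2 * a - t ^ 2 * b) * (a - b) := by
  nlinarith [sq_nonneg (s * a - t * b), sq_nonneg (a - b), mul_nonneg (sq_nonneg (a - b)) (sq_nonneg (s - t))]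

namespace Cond

variable (C : Cond d)

theorem norm_one_le (x : V d) : ‖(fun _ : V d => (1 : ℝ)) x‖ ≤ 1 := by simp

/-- Caccioppoli inequality, real form. -/
theorem cacc_real (hd : 0 < d) (D : Finset (V d)) {lam : ℝ} (hl : 0 < lam) (η : V d → ℝ)
    (hη : ∀ x, x ∉ D → η x = 0) :
    ∃ T : Finset (V d), D ⊆ T ∧
      lam * ∑ x ∈ D, η x ^ 2 * (1 - C.res (D : Set (V d)) lam (fun _ => (1 : ℝ)) x) ^ 2 ≤
      ∑ x ∈ T, (1 - C.res (D : Set (V d)) lam (fun _ => (1 : ℝ)) x) ^ 2 *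
        ∑ y ∈ T, C.c x y * (η x - η y) ^ 2 := by
  classical
  set u := C.res (D : Set (V d)) lam (fun _ => (1 : ℝ)) with hu
  set v : V d → ℝ := fun x => 1 - u x with hv
  set T : Finset (V d) := D ∪ D.biUnion fun x => (C.hfs x).toFinset with hT
  have hDT : D ⊆ T := Finset.subset_union_left
  have hcT : ∀ x ∈ D, ∀ y, y ∉ T → C.c x y = 0 := by
    intro x hx y hy
    by_contra h
    apply hy
    rw [hT, Finset.mem_union, Finset.mem_biUnion]
    right
    exact ⟨x, hx, by rw [Set.Finite.mem_toFinset]; exact h⟩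
  refine ⟨T, hDT, ?_⟩
  set A := ∑ x ∈ T, ∑ y ∈ T, C.c x y * (η x ^ 2 * v x * (v x - v y)) with hA
  have h1 : A = -(lam * ∑ x ∈ D, C.deg x * (η x ^ 2 * v x ^ 2)) := by
    have h2 : A = ∑ x ∈ D, ∑ y ∈ T, C.c x y * (η x ^ 2 * v x * (v x - v y)) := by
      rw [hA]
      symm
      apply Finset.sum_subset hDT
      intro x _ hx
      apply Finset.sum_eq_zero
      intro y _
      rw [hη x hx]
      ring
    rw [h2, Finset.mul_sum, ← Finset.sum_neg_distrib]
    apply Finset.sum_congr rfl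
    intro x hx
    have h3 : ∑ y ∈ T, C.c x y * (η x ^ 2 * v x * (v x - v y)) =
        η x ^ 2 * v x * ∑' y, C.c x y * (v x - v y) := by
      rw [← tsum_mul_left, tsum_eq_sum (s := T)]
      · apply Finset.sum_congr rfl
        intro y _
        ring
      · intro y hy
        rw [hcT x hx y hy]
        ring
    have h4 := C.res_ell hd (D : Set (V d)) hl norm_one_le (x := x) (by simpa using hx)
    have h5 : ∑' y, C.c x y * (v x - v y) = -(lam * C.deg x * v x) := by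
      have h6 : ∀ y, C.c x y * (v x - v y) = C.c x y * u y - C.c x y * u x := by
        intro y
        simp only [hv]
        ring
      simp_rw [h6]
      rw [Summable.tsum_sub (C.summable_mul u x) (C.summable_mul (fun _ => u x) x), tsum_mul_right]
      change _ - C.deg x * u x = _
      simp only [smul_eq_mul] at h4
      simp only [hv]
      linarith
    rw [h3, h5]
    ring
  have h2 : A = ∑ x ∈ T, ∑ y ∈ T, C.c x y * (η y ^ 2 * v y * (v y - v x)) := by
    rw [hA, Finset.sum_comm]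
    apply Finset.sum_congr rfl
    intro x _
    apply Finset.sum_congr rfl
    intro y _
    rw [C.symm y x]
  have h3 : 2 * A = ∑ x ∈ T, ∑ y ∈ T, C.c x y * ((η x ^ 2 * v x - η y ^ 2 * v y) * (v x - v y)) := by
    rw [two_mul]
    nth_rewrite 2 [h2]
    rw [hA, ← Finset.sum_add_distrib]
    apply Finset.sum_congr rfl
    intro x _
    rw [← Finset.sum_add_distrib]
    apply Finset.sum_congr rfl
    intro y _
    ring
  have h4 : -(∑ x ∈ T, ∑ y ∈ T, C.c x y * ((v x ^ 2 + v y ^ 2) / 2 * (η x - η y) ^ 2)) ≤ 2 * A := by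
    rw [h3, ← Finset.sum_neg_distrib]
    apply Finset.sum_le_sum
    intro x _
    rw [← Finset.sum_neg_distrib]
    apply Finset.sum_le_sum
    intro y _
    have h5 := cacc_pt (η x) (η y) (v x) (v y)
    have h6 := C.nonneg x y
    have h7 := mul_le_mul_of_nonneg_left h5 h6
    linarith
  have h5 : ∑ x ∈ T, ∑ y ∈ T, C.c x y * ((v x ^ 2 + v y ^ 2) / 2 * (η x - η y) ^ 2) =
      ∑ x ∈ T, v x ^ 2 * ∑ y ∈ T, C.c x y * (η x - η y) ^ 2 := by
    have e1 : ∑ x ∈ T, ∑ y ∈ T, C.c x y * ((v x ^ 2 + v y ^ 2) / 2 * (η x - η y) ^ 2) =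
        (∑ x ∈ T, ∑ y ∈ T, C.c x y * (v x ^ 2 * (η x - η y) ^ 2)) / 2 +
        (∑ x ∈ T, ∑ y ∈ T, C.c x y * (v y ^ 2 * (η x - η y) ^ 2)) / 2 := by
      rw [Finset.sum_div, Finset.sum_div, ← Finset.sum_add_distrib]
      apply Finset.sum_congr rfl
      intro x _
      rw [Finset.sum_div, Finset.sum_div, ← Finset.sum_add_distrib]
      apply Finset.sum_congr rfl
      intro y _
      ring
    have e2 : ∑ x ∈ T, ∑ y ∈ T, C.c x y * (v y ^ 2 * (η x - η y) ^ 2) =
        ∑ x ∈ T, ∑ y ∈ T, C.c x y * (v x ^ 2 * (η x - η y) ^ 2) := by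
      rw [Finset.sum_comm]
      apply Finset.sum_congr rfl
      intro x _
      apply Finset.sum_congr rfl
      intro y _
      rw [C.symm y x]
      ring
    have e3 : ∑ x ∈ T, ∑ y ∈ T, C.c x y * (v x ^ 2 * (η x - η y) ^ 2) =
        ∑ x ∈ T, v x ^ 2 * ∑ y ∈ T, C.c x y * (η x - η y) ^ 2 := by
      apply Finset.sum_congr rfl
      intro x _
      rw [Finset.mul_sum]
      apply Finset.sum_congr rfl
      intro y _
      ring
    rw [e1, e2, e3]
    ring
  have h6 : ∑ x ∈ D, η x ^ 2 * v x ^ 2 ≤ ∑ x ∈ D, C.deg x * (η x ^ 2 * v x ^ 2) := by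
    apply Finset.sum_le_sum
    intro x _
    have h7 := C.one_le_deg hd x
    have h8 : 0 ≤ η x ^ 2 * v x ^ 2 := by positivity
    nlinarith
  have h7 : 0 ≤ ∑ x ∈ D, η x ^ 2 * v x ^ 2 := Finset.sum_nonneg fun x _ => by positivity
  have h8 := mul_le_mul_of_nonneg_left h6 hl.le
  have h9 := mul_nonneg hl.le h7
  rw [h5] at h4
  change lam * ∑ x ∈ D, η x ^ 2 * v x ^ 2 ≤ ∑ x ∈ T, v x ^ 2 * ∑ y ∈ T, C.c x y * (η x - η y) ^ 2
  linarith

/-- Caccioppoli inequality, extended nonnegative real form. -/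
theorem cacc (hd : 0 < d) (D : Finset (V d)) {lam : ℝ} (hl : 0 < lam) (η : V d → ℝ)
    (hη : ∀ x, x ∉ D → η x = 0) :
    ENNReal.ofReal lam * ∑ x ∈ D, ENNReal.ofReal (η x ^ 2 *
      (1 - C.res (D : Set (V d)) lam (fun _ => (1 : ℝ)) x) ^ 2) ≤
      ∑' x, ENNReal.ofReal ((1 - C.res (D : Set (V d)) lam (fun _ => (1 : ℝ)) x) ^ 2) *
        ∑' y, ENNReal.ofReal (C.c x y) * ENNReal.ofReal ((η x - η y) ^ 2) := by
  obtain ⟨T, _, h⟩ := C.cacc_real hd D hl η hη
  rw [← ENNReal.ofReal_sum_of_nonneg (fun x _ => by positivity), ← ENNReal.ofReal_mul hl.le]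
  refine (ENNReal.ofReal_le_ofReal h).trans ?_
  have hnn : ∀ x y, 0 ≤ C.c x y * (η x - η y) ^ 2 := fun x y =>
    mul_nonneg (C.nonneg x y) (sq_nonneg _)
  rw [ENNReal.ofReal_sum_of_nonneg (fun x _ => mul_nonneg (sq_nonneg _)
    (Finset.sum_nonneg fun y _ => hnn x y))]
  refine le_trans ?_ (ENNReal.sum_le_tsum T)
  apply Finset.sum_le_sum
  intro x _
  rw [ENNReal.ofReal_mul (sq_nonneg _), ENNReal.ofReal_sum_of_nonneg (fun y _ => hnn x y)]
  apply mul_le_mul_right
  refine le_trans (le_of_eq ?_) (ENNReal.sum_le_tsum T)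
  apply Finset.sum_congr rfl
  intro y _
  rw [ENNReal.ofReal_mul (C.nonneg x y)]

end Cond

end Pool.Agent.Lib.QIP
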