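import Pool.Agent.Lib.QIP.Walk

/-!
# Chunk F2: oscillation of the walk from exit probabilities
-/

set_option autoImplicit false

open MeasureTheory ProbabilityTheory Filter
open scoped ENNReal NNReal Topology BigOperators

namespace Pool.Agent.Lib.QIP

variable {d : ℕ}

/-- Probability that the walk from `x` stays within (sup norm) distance `r` of `x` up to time
`N`. -/
noncomputable def stayP (C : Cond d) (r : ℝ) (N : ℕ) (x : V d) : ℝ :=
  (C.PD {y | ‖y - x‖ ≤ r})^[N] (({y | ‖y - x‖ ≤ r} : Set (V d)).indicator (fun _ => (1 : ℝ))) x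

/-- The exit estimate along `n = k^20`, seen from the walk at the times `i n / q`. -/
def ExitSmall (C : Cond d) : Prop :=
  ∀ T : ℕ, ∀ ε > (0 : ℝ), ∀ η > (0 : ℝ), ∃ q : ℕ, 1 ≤ q ∧ ∀ᶠ k : ℕ in atTop,
    ∑ i ∈ Finset.range (2 * q * (T + 1)),
      (C.P)^[i * (k ^ 20 / q)] (fun x => 1 - stayP C (ε * (k : ℝ) ^ 10) (k ^ 20 / q) x) 0 ≤ η

theorem stayP_bounds (hd : 0 < d) (C : Cond d) (r : ℝ) (N : ℕ) (x : V d) :
    0 ≤ stayP C r N x ∧ stayP C r N x ≤ 1 := by
  have h1 : |stayP C r N x| ≤ 1 := by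
    rw [← Real.norm_eq_abs]
    apply C.norm_iter_le hd
    intro y
    exact Cond.norm_indicator_le _ (M := 1) (fun _ => by simp) y
  have h2 : 0 ≤ stayP C r N x := by
    unfold stayP
    have h3 : ∀ k y, 0 ≤ (C.PD {y | ‖y - x‖ ≤ r})^[k]
        (({y | ‖y - x‖ ≤ r} : Set (V d)).indicator (fun _ => (1 : ℝ))) y := by
      intro k
      induction k with
      | zero =>
        intro y
        exact Set.indicator_nonneg (fun _ _ => zero_le_one) y
      | succ k ih =>
        intro y
        rw [Function.iterate_succ_apply']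
        exact Set.indicator_nonneg (fun z _ => C.P_nonneg ih z) y
    exact h3 N x
  exact ⟨h2, (abs_le.1 h1).2⟩

/-- the probability of leaving the ball around the position at time `n` within the next `N` steps -/
theorem window_prob (hd : 0 < d) {C : Cond d} {ν : V d → Measure (ℕ → V d)} (hν : IsWalk C ν)
    (r : ℝ) (n N : ℕ) :
    ν 0 {w | ¬ ∀ s, s ≤ N → ‖w (n + s) - w n‖ ≤ r} ≤
      ENNReal.ofReal ((C.P)^[n] (fun x => 1 - stayP C r N x) 0) := by
  have hp := fun x => hν.prob x
  let A : Set (ℕ → V d) := {w | ¬ ∀ s, s ≤ N → ‖w s - w 0‖ ≤ r}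
  have hA : MeasurableSet A := by
    have h1 : A = ⋃ s ∈ Finset.range (N + 1), {w | ¬ ‖w s - w 0‖ ≤ r} := by
      ext w
      simp only [A, Set.mem_ofPred_eq, Set.mem_iUnion, Finset.mem_range, exists_prop, not_forall]
      constructor
      · rintro ⟨s, hs, h⟩; exact ⟨s, by omega, h⟩
      · rintro ⟨s, hs, h⟩; exact ⟨s, by omega, h⟩
    rw [h1]
    refine Finset.measurableSet_biUnion _ fun s _ => ?_
    have h2 : Measurable (fun w : ℕ → V d => ((w s, w 0) : V d × V d)) := by fun_prop
    have h3 : MeasurableSet {q : V d × V d | ¬ ‖q.1 - q.2‖ ≤ r} := Set.to_countable _ |>.measurableSet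
    exact h2 h3
  have hmk := hν.lint_markov hd 0 n (fun _ => 1) (fun _ _ _ => rfl)
    (A.indicator (fun _ => (1 : ℝ≥0∞))) (measurable_const.indicator hA)
  simp only [one_mul] at hmk
  have e1 : (fun w : ℕ → V d => A.indicator (fun _ => (1 : ℝ≥0∞)) (fun k => w (n + k))) =
      {w | ¬ ∀ s, s ≤ N → ‖w (n + s) - w n‖ ≤ r}.indicator (fun _ => (1 : ℝ≥0∞)) := by
    ext w
    simp only [Set.indicator, A, Set.mem_ofPred_eq, add_zero]
  have hB : MeasurableSet {w : ℕ → V d | ¬ ∀ s, s ≤ N → ‖w (n + s) - w n‖ ≤ r} := by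
    have hsh : Measurable (fun w : ℕ → V d => fun k => w (n + k)) := by fun_prop
    have := hsh hA
    simpa [A, Set.preimage] using this
  rw [e1, lintegral_indicator_const hB, one_mul] at hmk
  rw [hmk]
  have e2 : ∀ x, ∫⁻ w', A.indicator (fun _ => (1 : ℝ≥0∞)) w' ∂ν x =
      ENNReal.ofReal (1 - stayP C r N x) := by
    intro x
    rw [lintegral_indicator_const hA, one_mul]
    have h1 : ν x A = ν x {w | ∀ j, j ≤ N → w j ∈ {y | ‖y - x‖ ≤ r}}ᶜ := by
      apply measure_congr
      filter_upwards [hν.start hd x] with w hw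
      apply propext
      simp only [A]
      change (¬ ∀ s, s ≤ N → ‖w s - w 0‖ ≤ r) ↔ (¬ ∀ j, j ≤ N → ‖w j - x‖ ≤ r)
      rw [hw]
    rw [h1, prob_compl_eq_one_sub, hν.stay hd x, ENNReal.ofReal_sub _ (stayP_bounds hd C r N x).1,
      ENNReal.ofReal_one]
    · rfl
    · have h2 : {w : ℕ → V d | ∀ j, j ≤ N → w j ∈ {y | ‖y - x‖ ≤ r}} =
          ⋂ j ∈ Finset.range (N + 1), {w | w j ∈ {y | ‖y - x‖ ≤ r}} := by
        ext w
        simp only [Set.mem_ofPred_eq, Set.mem_iInter, Finset.mem_range]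
        constructor
        · intro h j hj; exact h j (by omega)
        · intro h j hj; exact h j (by omega)
      rw [h2]
      refine Finset.measurableSet_biInter _ fun j _ => ?_
      exact (measurable_pi_apply j) (Set.to_countable _ |>.measurableSet)
  simp_rw [e2]
  have hb : ∀ y, |1 - stayP C r N y| ≤ 1 := by
    intro y
    have := stayP_bounds hd C r N y
    rw [abs_le]
    constructor <;> linarith
  rw [← hν.integral_iter_real hd 0 n _ 1 hb]
  rw [ofReal_integral_eq_lintegral_ofReal]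
  · refine Integrable.of_bound (C := 1) ?_ (ae_of_all _ fun w => by
      rw [Real.norm_eq_abs]; exact hb _)
    have h1 : Measurable (fun y : V d => 1 - stayP C r N y) := measurable_of_countable _
    exact (h1.comp (measurable_pi_apply n)).aestronglyMeasurable
  · refine ae_of_all _ fun w => ?_
    have := (stayP_bounds hd C r N (w n)).2
    simp only [Pi.zero_apply]
    linarith

theorem osc_of_exit (hd : 0 < d) {C : Cond d} {ν : V d → Measure (ℕ → V d)} (hν : IsWalk C ν)
    (h : ExitSmall C) :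
    ∀ T : ℕ, ∀ ε > (0 : ℝ), ∀ η > (0 : ℝ), ∃ δ > (0 : ℝ), ∀ᶠ k : ℕ in atTop,
      ν 0 {z | ∃ i j : ℕ, (i : ℝ) ≤ T * (k : ℝ) ^ 20 ∧ i ≤ j ∧ (j : ℝ) ≤ i + δ * (k : ℝ) ^ 20 ∧
        ε * (k : ℝ) ^ 10 < ‖z j - z i‖} ≤ ENNReal.ofReal η := by
  intro T ε hε η hη
  obtain ⟨q, hq, hev⟩ := h T (ε / 3) (by positivity) η hη
  have hq0 : (0 : ℝ) < q := by exact_mod_cast hq
  refine ⟨1 / (2 * q), by positivity, ?_⟩
  have hk20 : Tendsto (fun k : ℕ => (k : ℝ) ^ 20) atTop atTop :=
    (tendsto_pow_atTop (by norm_num)).comp tendsto_natCast_atTop_atTop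
  filter_upwards [hev, hk20.eventually_ge_atTop (2 * q)] with k hk hkq
  set N : ℕ := k ^ 20 / q with hN
  set r : ℝ := ε / 3 * (k : ℝ) ^ 10 with hr
  have hN1 : (k : ℝ) ^ 20 / (2 * q) ≤ N := by
    have h1 : ((k ^ 20 : ℕ) : ℝ) / q < N + 1 := by
      rw [div_lt_iff₀ hq0]
      have := Nat.lt_mul_div_succ (k ^ 20) (show 0 < q by omega)
      have h2 : (k ^ 20 : ℕ) < (k ^ 20 / q + 1) * q := by rw [mul_comm]; exact this
      rw [← hN] at h2
      exact_mod_cast h2
    push_cast at h1
    have h3 : 1 ≤ (k : ℝ) ^ 20 / (2 * q) := by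
      rw [le_div_iff₀ (by positivity)]; linarith
    have h4 : (k : ℝ) ^ 20 / q = 2 * ((k : ℝ) ^ 20 / (2 * q)) := by field_simp
    linarith
  have hk0 : (0 : ℝ) < (k : ℝ) ^ 20 := lt_of_lt_of_le (by positivity) hkq
  have hNpos : 0 < N := by
    have : (0 : ℝ) < N := lt_of_lt_of_le (by positivity) hN1
    exact_mod_cast this
  have hsub : {z : ℕ → V d | ∃ i j : ℕ, (i : ℝ) ≤ T * (k : ℝ) ^ 20 ∧ i ≤ j ∧
      (j : ℝ) ≤ i + 1 / (2 * q) * (k : ℝ) ^ 20 ∧ ε * (k : ℝ) ^ 10 < ‖z j - z i‖} ⊆
      ⋃ a ∈ Finset.range (2 * q * (T + 1)),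
        {w | ¬ ∀ s, s ≤ N → ‖w (a * N + s) - w (a * N)‖ ≤ r} := by
    rintro z ⟨i, j, hi, hij, hj, hz⟩
    by_contra hcon
    simp only [Set.mem_iUnion, Finset.mem_range, exists_prop, not_exists, not_and,
      Set.mem_ofPred_eq, not_not] at hcon
    set a : ℕ := i / N with ha
    have ha1 : a * N ≤ i := Nat.div_mul_le_self i N
    have ha2 : i < (a + 1) * N := by
      have := Nat.lt_mul_div_succ i hNpos
      rw [mul_comm] at this
      exact this
    have haT : a ≤ 2 * q * T := by
      have h1 : (a : ℝ) * N ≤ i := by exact_mod_cast ha1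
      have h2 : (a : ℝ) * ((k : ℝ) ^ 20 / (2 * q)) ≤ T * (k : ℝ) ^ 20 :=
        (mul_le_mul_of_nonneg_left hN1 (Nat.cast_nonneg a)).trans (h1.trans hi)
      have h3 : (a : ℝ) ≤ 2 * q * T := by
        have h4 : (a : ℝ) * ((k : ℝ) ^ 20 / (2 * q)) = (a / (2 * q)) * (k : ℝ) ^ 20 := by ring
        rw [h4] at h2
        have h5 := le_of_mul_le_mul_right h2 hk0
        rw [div_le_iff₀ (by positivity)] at h5
        linarith
      exact_mod_cast h3
    have hjN : j ≤ i + N := by
      have h1 : (j : ℝ) ≤ i + N := by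
        refine hj.trans ?_
        have h2 : 1 / (2 * (q : ℝ)) * (k : ℝ) ^ 20 = (k : ℝ) ^ 20 / (2 * q) := by ring
        rw [h2]
        linarith
      exact_mod_cast h1
    have hT2 : 2 * q * T + 2 ≤ 2 * q * (T + 1) := by nlinarith
    have w1 := hcon a (by omega)
    have w2 := hcon (a + 1) (by omega)
    have d1 : ‖z i - z (a * N)‖ ≤ r := by
      have := w1 (i - a * N) (by
        have : (a + 1) * N = a * N + N := by ring
        omega)
      rwa [Nat.add_sub_of_le ha1] at this
    have h3r : 3 * r = ε * (k : ℝ) ^ 10 := by rw [hr]; ring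
    have hr0 : 0 ≤ r := (norm_nonneg _).trans d1
    have hfin : ‖z j - z i‖ ≤ 3 * r := by
      rcases le_total j ((a + 1) * N) with hj1 | hj1
      · have d2 : ‖z j - z (a * N)‖ ≤ r := by
          have := w1 (j - a * N) (by
            have : (a + 1) * N = a * N + N := by ring
            omega)
          rwa [Nat.add_sub_of_le (ha1.trans hij)] at this
        have : z j - z i = (z j - z (a * N)) - (z i - z (a * N)) := by abel
        rw [this]
        refine (norm_sub_le _ _).trans ?_
        linarith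
      · have d2 : ‖z j - z ((a + 1) * N)‖ ≤ r := by
          have := w2 (j - (a + 1) * N) (by
            have : (a + 1) * N = a * N + N := by ring
            omega)
          rwa [Nat.add_sub_of_le hj1] at this
        have d3 : ‖z ((a + 1) * N) - z (a * N)‖ ≤ r := by
          have := w1 N le_rfl
          have h5 : a * N + N = (a + 1) * N := by ring
          rwa [h5] at this
        have : z j - z i = (z j - z ((a + 1) * N)) + (z ((a + 1) * N) - z (a * N)) -
            (z i - z (a * N)) := by abel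
        rw [this]
        refine (norm_sub_le _ _).trans ?_
        have := norm_add_le (z j - z ((a + 1) * N)) (z ((a + 1) * N) - z (a * N))
        linarith
    linarith
  refine (measure_mono hsub).trans ((measure_biUnion_finset_le _ _).trans ?_)
  refine (Finset.sum_le_sum fun a _ => window_prob hd hν r (a * N) N).trans ?_
  rw [← ENNReal.ofReal_sum_of_nonneg]
  · exact ENNReal.ofReal_le_ofReal hk
  · intro a _
    have hnn : ∀ (n : ℕ) (f : V d → ℝ), (∀ x, 0 ≤ f x) → ∀ x, 0 ≤ (C.P)^[n] f x := by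
      intro n
      induction n with
      | zero => intro f hf x; exact hf x
      | succ n ih =>
        intro f hf x
        rw [Function.iterate_succ_apply']
        exact C.P_nonneg (ih f hf) x
    apply hnn
    intro x
    linarith [(stayP_bounds hd C r N x).2]

end Pool.Agent.Lib.QIP
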