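import Pool.Agent.Lib.QIP.Stat
import Pool.Agent.Lib.QIP.Anneal4

/-!
# Almost sure convergence of the iterated resolvents
-/

set_option autoImplicit false

open MeasureTheory ProbabilityTheory Filter
open scoped ENNReal NNReal Topology BigOperators

namespace Pool.Agent.Lib.QIP

variable {d : ℕ}

theorem norm_RR_le' (hd : 0 < d) (C : Cond d) (L : List (ℝ × (Fin d → ℝ)))
    (hL : ∀ a ∈ L, 0 < a.1) (x : V d) : ‖RR C L x‖ ≤ 1 := by
  induction L generalizing x with
  | nil => simp [RR]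
  | cons a L ih =>
    have ih' := ih (fun b hb => hL b (List.mem_cons_of_mem _ hb))
    simp only [RR, norm_mul, norm_chr, one_mul]
    refine C.norm_res_le hd _ (hL a List.mem_cons_self) ?_ x
    intro y
    rw [norm_mul, norm_chr, one_mul]
    exact ih' y

theorem measurable_RR (hd : 0 < d) (L : List (ℝ × (Fin d → ℝ))) (hL : ∀ a ∈ L, 0 < a.1)
    (x : V d) : Measurable (fun ω : Env d => RR (cond ω) L x) := by
  induction L generalizing x with
  | nil => exact measurable_const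
  | cons a L ih =>
    have hL' : ∀ b ∈ L, 0 < b.1 := fun b hb => hL b (List.mem_cons_of_mem _ hb)
    have ih' := ih hL'
    simp only [RR]
    refine Measurable.const_mul ?_ _
    refine measurable_res_rand hd Set.univ (hL a List.mem_cons_self)
      (f := fun ω y => chr a.2 y * RR (cond ω) L y) (fun y => (ih' y).const_mul _) (M := 1) ?_ x
    intro ω y
    rw [norm_mul, norm_chr, one_mul]
    exact norm_RR_le' hd _ L hL' y

theorem cov_RR (L : List (ℝ × (Fin d → ℝ))) : Cov (fun ω : Env d => RR (cond ω) L) := by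
  induction L with
  | nil => intro a ω x; rfl
  | cons b L ih =>
    intro a ω x
    simp only [RR]
    rw [← res_cov_shift a ω b.1 (fun y => chr b.2 y * RR (cond ω) L y) x]
    have h1 : (fun y => chr b.2 (y + a) * RR (cond ω) L (y + a)) =
        fun y => chr b.2 a * (chr b.2 y * RR (cond (shift a ω)) L y) := by
      ext y
      have := ih a ω y
      simp only at this
      rw [this, chr_add]
      ring
    rw [h1, Cond.res_mulc, ← mul_assoc, ← chr_add]
    congr 2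
    abel

/-- Product of the means. -/
noncomputable def ML (m : Model d) (L : List (ℝ × (Fin d → ℝ))) : ℂ :=
  (L.map (fun a => ∫ ω, Uf a.1 a.2 ω ∂m.μ)).prod

theorem norm_mean_le (m : Model d) (hd : 0 < d) {a : ℝ × (Fin d → ℝ)} (ha : 0 < a.1) :
    ‖∫ ω, Uf a.1 a.2 ω ∂m.μ‖ ≤ 1 := by
  have h := norm_integral_le_of_norm_le_const (μ := m.μ)
    (f := fun ω => Uf a.1 a.2 ω) (C := 1)
    (Eventually.of_forall fun ω => norm_Uf_le hd ha _ ω)
  simpa using h

theorem norm_ML_le (m : Model d) (hd : 0 < d) (L : List (ℝ × (Fin d → ℝ)))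
    (hL : ∀ a ∈ L, 0 < a.1) : ‖ML m L‖ ≤ 1 := by
  induction L with
  | nil => simp [ML]
  | cons a L ih =>
    have ih' := ih (fun b hb => hL b (List.mem_cons_of_mem _ hb))
    unfold ML at ih' ⊢
    rw [List.map_cons, List.prod_cons, norm_mul]
    exact mul_le_one₀ (norm_mean_le m hd (hL a List.mem_cons_self)) (norm_nonneg _) ih'

theorem dev_weighted (hd : 3 ≤ d) (m : Model d) : ∃ K : ℝ, 0 < K ∧ ∀ lam : ℝ, 0 < lam → lam ≤ 1 →
    ∀ ξ : Fin d → ℝ, ∫⁻ ω, ENNReal.ofReal ((cond ω).deg 0) * ‖Uf lam ξ ω - ∫ ω', Uf lam ξ ω' ∂m.μ‖ₑ ∂m.μ ≤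
      ENNReal.ofReal (Real.sqrt (K * lam ^ ((1 / 5) : ℝ))) := by
  obtain ⟨K, hK, h⟩ := int_dev hd m
  have hd0 : 0 < d := by omega
  refine ⟨K, hK, ?_⟩
  intro lam hl hl1 ξ
  have hU : Measurable (fun ω => Uf lam ξ ω - ∫ ω', Uf lam ξ ω' ∂m.μ) :=
    (measurable_Uf hd0 hl ξ).sub_const _
  have hi : Integrable (fun q : Env d × V d => Uf lam ξ q.1 - ∫ ω', Uf lam ξ ω' ∂m.μ) (rho m) := by
    refine integrable_bdd m (meas_fst hU) (M := 2) (fun q => ?_)
    refine (norm_sub_le _ _).trans ?_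
    have h1 := norm_Uf_le hd0 hl ξ q.1
    have h2 := norm_mean_le m hd0 (a := (lam, ξ)) hl
    simp only at h2
    linarith
  rw [← lint_rho_fst m (F := fun ω => ‖Uf lam ξ ω - ∫ ω', Uf lam ξ ω' ∂m.μ‖ₑ) hU.enorm,
    ← ofReal_integral_norm_eq_lintegral_enorm hi]
  exact ENNReal.ofReal_le_ofReal (h lam hl hl1 ξ)

/-- Deviation of the iterated resolvents. -/
theorem RR_dev (hd : 3 ≤ d) (m : Model d) : ∃ K : ℝ, 0 < K ∧ ∀ L : List (ℝ × (Fin d → ℝ)),
    (∀ a ∈ L, 0 < a.1 ∧ a.1 ≤ 1) →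
      ∫⁻ ω, ENNReal.ofReal ((cond ω).deg 0) * ‖RR (cond ω) L 0 - ML m L‖ₑ ∂m.μ ≤
        (L.map (fun a => ENNReal.ofReal (Real.sqrt (K * a.1 ^ ((1 / 5) : ℝ))))).sum := by
  obtain ⟨K, hK, hdev⟩ := dev_weighted hd m
  have hd0 : 0 < d := by omega
  refine ⟨K, hK, ?_⟩
  intro L
  induction L with
  | nil =>
    intro _
    simp [RR, ML]
  | cons a L ih =>
    intro hL
    have hL' : ∀ b ∈ L, 0 < b.1 ∧ b.1 ≤ 1 := fun b hb => hL b (List.mem_cons_of_mem _ hb)
    have hLp : ∀ b ∈ L, 0 < b.1 := fun b hb => (hL' b hb).1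
    obtain ⟨ha, ha1⟩ := hL a List.mem_cons_self
    have ih' := ih hL'
    rw [List.map_cons, List.sum_cons]
    have hMLn := norm_ML_le m hd0 L hLp
    have hgb : ∀ ω y, ‖RR (cond ω) L y - ML m L‖ ≤ 2 := fun ω y => by
      refine (norm_sub_le _ _).trans ?_
      have := norm_RR_le' hd0 (cond ω) L hLp y
      linarith
    -- pointwise
    have hpt : ∀ ω, ‖RR (cond ω) (a :: L) 0 - ML m (a :: L)‖ₑ ≤
        ENNReal.ofReal ((cond ω).res Set.univ a.1 (fun y => ‖RR (cond ω) L y - ML m L‖) 0) +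
          ‖Uf a.1 a.2 ω - ∫ ω', Uf a.1 a.2 ω' ∂m.μ‖ₑ := by
      intro ω
      have h1 : RR (cond ω) (a :: L) 0 =
          (cond ω).res Set.univ a.1 (fun y => chr a.2 y * (RR (cond ω) L y - ML m L)) 0 +
            ML m L * Uf a.1 a.2 ω := by
        have h2 : (fun y => chr a.2 y * RR (cond ω) L y) = fun y =>
            chr a.2 y * (RR (cond ω) L y - ML m L) - (-ML m L) * chr a.2 y := by
          ext y
          ring
        simp only [RR]
        rw [h2, (cond ω).res_sub hd0 Set.univ ha (M := 2) (N := 1), (cond ω).res_mulc, neg_zero,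
          chr_zero]
        · unfold Uf
          ring
        · intro y
          rw [norm_mul, norm_chr, one_mul]
          exact hgb ω y
        · intro y
          rw [norm_mul, norm_chr, mul_one, norm_neg]
          exact hMLn
      have h3 : RR (cond ω) (a :: L) 0 - ML m (a :: L) =
          (cond ω).res Set.univ a.1 (fun y => chr a.2 y * (RR (cond ω) L y - ML m L)) 0 +
            ML m L * (Uf a.1 a.2 ω - ∫ ω', Uf a.1 a.2 ω' ∂m.μ) := by
        rw [h1]
        have : ML m (a :: L) = (∫ ω', Uf a.1 a.2 ω' ∂m.μ) * ML m L := by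
          unfold ML
          rw [List.map_cons, List.prod_cons]
        rw [this]
        ring
      rw [h3]
      refine (enorm_add_le _ _).trans ?_
      apply add_le_add
      · rw [← ofReal_norm]
        apply ENNReal.ofReal_le_ofReal
        refine (cond ω).norm_res_le_res hd0 Set.univ ha (M := 2) (fun y => ?_) (hgb ω) 0
        rw [norm_mul, norm_chr, one_mul]
      · rw [enorm_mul]
        have : ‖ML m L‖ₑ ≤ 1 := by
          rw [← ofReal_norm]
          exact ENNReal.ofReal_le_one.2 hMLn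
        calc ‖ML m L‖ₑ * ‖Uf a.1 a.2 ω - ∫ ω', Uf a.1 a.2 ω' ∂m.μ‖ₑ
            ≤ 1 * ‖Uf a.1 a.2 ω - ∫ ω', Uf a.1 a.2 ω' ∂m.μ‖ₑ := mul_le_mul_left this _
          _ = _ := one_mul _
    have hmR : ∀ y, Measurable (fun ω => ‖RR (cond ω) L y - ML m L‖) := fun y =>
      ((measurable_RR hd0 L hLp y).sub_const _).norm
    have hmres : Measurable (fun ω =>
        (cond ω).res Set.univ a.1 (fun y => ‖RR (cond ω) L y - ML m L‖) 0) :=
      measurable_res_rand hd0 Set.univ ha (f := fun ω y => ‖RR (cond ω) L y - ML m L‖) hmR (M := 2)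
        (fun ω y => by rw [norm_norm]; exact hgb ω y) 0
    calc ∫⁻ ω, ENNReal.ofReal ((cond ω).deg 0) * ‖RR (cond ω) (a :: L) 0 - ML m (a :: L)‖ₑ ∂m.μ
        ≤ ∫⁻ ω, (ENNReal.ofReal ((cond ω).deg 0 *
            (cond ω).res Set.univ a.1 (fun y => ‖RR (cond ω) L y - ML m L‖) 0) +
          ENNReal.ofReal ((cond ω).deg 0) * ‖Uf a.1 a.2 ω - ∫ ω', Uf a.1 a.2 ω' ∂m.μ‖ₑ) ∂m.μ := by
          apply lintegral_mono
          intro ω
          simp only
          rw [ENNReal.ofReal_mul ((cond ω).deg_nonneg 0), ← mul_add]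
          exact mul_le_mul_right (hpt ω) _
      _ = ∫⁻ ω, ENNReal.ofReal ((cond ω).deg 0 *
            (cond ω).res Set.univ a.1 (fun y => ‖RR (cond ω) L y - ML m L‖) 0) ∂m.μ +
          ∫⁻ ω, ENNReal.ofReal ((cond ω).deg 0) * ‖Uf a.1 a.2 ω - ∫ ω', Uf a.1 a.2 ω' ∂m.μ‖ₑ ∂m.μ :=
          lintegral_add_left ((measurable_deg 0).mul hmres).ennreal_ofReal _
      _ ≤ (L.map (fun a => ENNReal.ofReal (Real.sqrt (K * a.1 ^ ((1 / 5) : ℝ))))).sum +
          ENNReal.ofReal (Real.sqrt (K * a.1 ^ ((1 / 5) : ℝ))) := by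
          apply add_le_add
          · have hcov : Cov (fun (ω : Env d) y => ‖RR (cond ω) L y - ML m L‖) := by
              intro b ω x
              have := cov_RR L b ω x
              simp only at this ⊢
              rw [this]
            rw [stat_res m hd0 ha (f := fun ω y => ‖RR (cond ω) L y - ML m L‖) hmR
              (fun ω y => norm_nonneg _) hcov (M := 2) hgb]
            refine le_trans (le_of_eq ?_) ih'
            congr 1
            ext ω
            rw [ENNReal.ofReal_mul ((cond ω).deg_nonneg 0), ofReal_norm]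
          · exact hdev a.1 ha ha1 a.2
      _ = _ := add_comm _ _

/-- The scaled list. -/
noncomputable def scL (L : List (ℚ × (Fin d → ℚ))) (k : ℕ) : List (ℝ × (Fin d → ℝ)) :=
  L.map (fun a => ((a.1 : ℝ) / (k : ℝ) ^ 20, fun i => (a.2 i : ℝ) / (k : ℝ) ^ 10))

theorem ML_tendsto (m : Model d) {S : Matrix (Fin d) (Fin d) ℝ}
    (hS : ∀ (τ : ℝ) (θ : Fin d → ℝ), 0 < τ →
      Tendsto (fun β : ℝ => ∫ ω, (cond ω).res Set.univ (τ * β ^ 2) (chr (fun i => β * θ i)) 0 ∂m.μ)
        (𝓝[>] 0) (𝓝 (((τ / (τ + (∑ i, ∑ j, θ i * S i j * θ j) / 2) : ℝ)) : ℂ)))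
    (L : List (ℚ × (Fin d → ℚ))) (hL : ∀ a ∈ L, 0 < a.1) :
    Tendsto (fun k : ℕ => ML m (scL L k)) atTop
      (𝓝 ((L.map (fun a => (((a.1 : ℝ) / ((a.1 : ℝ) +
        (∑ i, ∑ j, (a.2 i : ℝ) * S i j * (a.2 j : ℝ)) / 2) : ℝ) : ℂ))).prod)) := by
  induction L with
  | nil => simp [ML, scL]
  | cons a L ih =>
    have ih' := ih (fun b hb => hL b (List.mem_cons_of_mem _ hb))
    have ha := hL a List.mem_cons_self
    rw [List.map_cons, List.prod_cons]
    have h1 : ∀ k : ℕ, ML m (scL (a :: L) k) =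
        (∫ ω, Uf ((a.1 : ℝ) / (k : ℝ) ^ 20) (fun i => (a.2 i : ℝ) / (k : ℝ) ^ 10) ω ∂m.μ) *
          ML m (scL L k) := by
      intro k
      unfold ML scL
      rw [List.map_cons, List.map_cons, List.prod_cons]
    simp_rw [h1]
    refine Tendsto.mul ?_ ih'
    have hβ : Tendsto (fun k : ℕ => 1 / (k : ℝ) ^ 10) atTop (𝓝[>] 0) := by
      rw [tendsto_nhdsWithin_iff]
      constructor
      · have h2 : Tendsto (fun k : ℕ => ((k : ℝ) ^ 10)) atTop atTop :=
          (tendsto_pow_atTop (by norm_num)).comp tendsto_natCast_atTop_atTop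
        exact tendsto_const_nhds.div_atTop h2
      · filter_upwards [eventually_ge_atTop 1] with k hk
        have : (0 : ℝ) < k := by exact_mod_cast hk
        exact Set.mem_Ioi.2 (by positivity)
    have h2 := (hS (a.1 : ℝ) (fun i => (a.2 i : ℝ)) (by exact_mod_cast ha)).comp hβ
    refine h2.congr fun k => ?_
    unfold Uf
    simp only [Function.comp]
    congr 1
    ext ω
    congr 1
    · rw [div_pow, one_pow, ← pow_mul]
      ring
    · congr 1
      ext i
      ring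

theorem ae_tendsto_of_sum {α : Type*} [MeasurableSpace α] {μ : Measure α} {f : ℕ → α → ℝ≥0∞}
    (hf : ∀ k, Measurable (f k)) (h : ∑' k, ∫⁻ a, f k a ∂μ ≠ ⊤) :
    ∀ᵐ a ∂μ, Tendsto (fun k => f k a) atTop (𝓝 0) := by
  rw [← lintegral_tsum (fun k => (hf k).aemeasurable)] at h
  filter_upwards [ae_lt_top (Measurable.tsum hf) h] with a ha
  exact ENNReal.tendsto_atTop_zero_of_tsum_ne_top ha.ne

theorem one_le_ofReal_deg (hd : 0 < d) (ω : Env d) : 1 ≤ ENNReal.ofReal ((cond ω).deg 0) := by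
  rw [ENNReal.one_le_ofReal]
  exact (cond ω).one_le_deg hd 0

/-- Almost sure convergence for a fixed list. -/
theorem ae_RR (hd : 3 ≤ d) (m : Model d) (L : List (ℚ × (Fin d → ℚ))) (hL : ∀ a ∈ L, 0 < a.1) :
    ∀ᵐ ω ∂m.μ, Tendsto (fun k : ℕ => RR (cond ω) (scL L k) 0 - ML m (scL L k)) atTop (𝓝 0) := by
  obtain ⟨K, hK, hdev⟩ := RR_dev hd m
  have hd0 : 0 < d := by omega
  -- a threshold
  obtain ⟨N, hN1, hN⟩ : ∃ N : ℕ, 1 ≤ N ∧ ∀ a ∈ L, (a.1 : ℝ) ≤ N := by
    clear hL
    induction L with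
    | nil => exact ⟨1, le_rfl, by simp⟩
    | cons a L ih =>
      obtain ⟨N, h1, h2⟩ := ih
      obtain ⟨N', hN'⟩ := exists_nat_ge (a.1 : ℝ)
      refine ⟨max N N', h1.trans (le_max_left _ _), ?_⟩
      intro b hb
      rcases List.mem_cons.1 hb with rfl | hb
      · exact hN'.trans (by exact_mod_cast le_max_right N N')
      · exact (h2 b hb).trans (by exact_mod_cast le_max_left N N')
  have hLk : ∀ k : ℕ, N ≤ k → ∀ a ∈ scL L k, 0 < a.1 ∧ a.1 ≤ 1 := by
    intro k hk a ha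
    unfold scL at ha
    rw [List.mem_map] at ha
    obtain ⟨b, hb, rfl⟩ := ha
    have hk0 : (0 : ℝ) < k := by exact_mod_cast lt_of_lt_of_le one_pos (hN1.trans hk)
    have hk1 : (1 : ℝ) ≤ k := by exact_mod_cast hN1.trans hk
    have hb0 : (0 : ℝ) < b.1 := by exact_mod_cast hL b hb
    refine ⟨by positivity, ?_⟩
    rw [div_le_one (by positivity)]
    calc (b.1 : ℝ) ≤ N := hN b hb
      _ ≤ k := by exact_mod_cast hk
      _ ≤ (k : ℝ) ^ 20 := le_self_pow₀ hk1 (by norm_num)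
  set f : ℕ → Env d → ℝ≥0∞ := fun k ω =>
    ‖RR (cond ω) (scL L (k + N)) 0 - ML m (scL L (k + N))‖ₑ with hf
  have hfm : ∀ k, Measurable (f k) := fun k =>
    ((measurable_RR hd0 _ (fun a ha => (hLk (k + N) (by omega) a ha).1) 0).sub_const _).enorm
  have hbound : ∀ k, ∫⁻ ω, f k ω ∂m.μ ≤
      (L.map (fun a => ENNReal.ofReal (Real.sqrt (K * (a.1 : ℝ) ^ ((1 / 5) : ℝ)) *
        (1 / ((k + N : ℕ) : ℝ) ^ 2)))).sum := by
    intro k
    have h1 : ∫⁻ ω, f k ω ∂m.μ ≤
        ∫⁻ ω, ENNReal.ofReal ((cond ω).deg 0) * ‖RR (cond ω) (scL L (k + N)) 0 -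
          ML m (scL L (k + N))‖ₑ ∂m.μ := by
      apply lintegral_mono
      intro ω
      exact le_mul_of_one_le_left (zero_le) (one_le_ofReal_deg hd0 ω)
    refine h1.trans ((hdev _ (hLk (k + N) (by omega))).trans (le_of_eq ?_))
    unfold scL
    rw [List.map_map]
    congr 1
    apply List.map_congr_left
    intro a ha
    simp only [Function.comp]
    congr 1
    have hk0 : (0 : ℝ) < ((k + N : ℕ) : ℝ) := by
      have : 0 < k + N := by omega
      exact_mod_cast this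
    have ha0 : (0 : ℝ) < a.1 := by exact_mod_cast hL a ha
    have h2 : ((a.1 : ℝ) / ((k + N : ℕ) : ℝ) ^ 20) ^ ((1 / 5) : ℝ) =
        (a.1 : ℝ) ^ ((1 / 5) : ℝ) * (1 / ((k + N : ℕ) : ℝ) ^ 2) ^ 2 := by
      rw [Real.div_rpow ha0.le (by positivity)]
      have h3 : ((((k + N : ℕ) : ℝ) ^ 20) ^ ((1 / 5) : ℝ)) = ((k + N : ℕ) : ℝ) ^ 4 := by
        rw [← Real.rpow_natCast, ← Real.rpow_mul hk0.le, ← Real.rpow_natCast]
        norm_num
      rw [h3]
      field_simp
    rw [h2, ← mul_assoc, Real.sqrt_mul (by positivity), Real.sqrt_sq (by positivity)]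
  have hsum : ∑' k, ∫⁻ ω, f k ω ∂m.μ ≠ ⊤ := by
    refine ne_top_of_le_ne_top ?_ (ENNReal.tsum_le_tsum hbound)
    clear hbound hfm hdev
    clear hf f hLk hN
    induction L with
    | nil => simp
    | cons a L ih =>
      simp only [List.map_cons, List.sum_cons]
      rw [ENNReal.tsum_add]
      refine ENNReal.add_ne_top.2 ⟨?_, ih (fun b hb => hL b (List.mem_cons_of_mem _ hb))⟩
      rw [← ENNReal.ofReal_tsum_of_nonneg]
      · exact ENNReal.ofReal_ne_top
      · intro k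
        positivity
      · apply Summable.mul_left
        have h3 : Summable (fun k : ℕ => 1 / (k : ℝ) ^ 2) :=
          Real.summable_one_div_nat_pow.2 (by norm_num)
        exact (summable_nat_add_iff N).2 h3
  filter_upwards [ae_tendsto_of_sum hfm hsum] with ω hω
  rw [← tendsto_add_atTop_iff_nat N, tendsto_zero_iff_norm_tendsto_zero]
  have h4 := (ENNReal.tendsto_toReal ENNReal.zero_ne_top).comp hω
  rw [ENNReal.toReal_zero] at h4
  refine h4.congr fun k => ?_
  simp only [Function.comp, hf]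
  rw [toReal_enorm]

/-- Almost sure convergence of all iterated resolvents. -/
theorem ae_ResConv (hd : 3 ≤ d) (m : Model d) {S : Matrix (Fin d) (Fin d) ℝ}
    (hS : ∀ (τ : ℝ) (θ : Fin d → ℝ), 0 < τ →
      Tendsto (fun β : ℝ => ∫ ω, (cond ω).res Set.univ (τ * β ^ 2) (chr (fun i => β * θ i)) 0 ∂m.μ)
        (𝓝[>] 0) (𝓝 (((τ / (τ + (∑ i, ∑ j, θ i * S i j * θ j) / 2) : ℝ)) : ℂ))) :
    ∀ᵐ ω ∂m.μ, ResConv (cond ω) S := by
  have h : ∀ᵐ ω ∂m.μ, ∀ L : List (ℚ × (Fin d → ℚ)), (∀ a ∈ L, 0 < a.1) →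
      Tendsto (fun k : ℕ => RR (cond ω) (scL L k) 0 - ML m (scL L k)) atTop (𝓝 0) := by
    rw [ae_all_iff]
    intro L
    by_cases hL : ∀ a ∈ L, 0 < a.1
    · filter_upwards [ae_RR hd m L hL] with ω hω _
      exact hω
    · exact Eventually.of_forall fun ω h => absurd h hL
  filter_upwards [h] with ω hω L hL
  have h1 := (hω L hL).add (ML_tendsto m hS L hL)
  rw [zero_add] at h1
  refine h1.congr fun k => ?_
  rw [sub_add_cancel]
  rfl

end Pool.Agent.Lib.QIP
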