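import Pool.Agent.Lib.QIP.Exit
import Pool.Agent.Lib.QIP.Osc
import Pool.Agent.Lib.QIP.ResKey
import Pool.Agent.Lib.QIP.Assembly

/-!
# Almost sure exit estimate
-/

set_option autoImplicit false

open MeasureTheory ProbabilityTheory Filter
open scoped ENNReal NNReal Topology BigOperators

namespace Pool.Agent.Lib.QIP

variable {d : ℕ}

theorem card_box (d r : ℕ) : (box d r).card = (2 * r + 1) ^ d := by
  unfold box
  rw [Pi.card_Icc]
  simp only [Int.card_Icc]
  rw [Finset.prod_const, Finset.card_univ, Fintype.card_fin]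
  congr 1
  omega

theorem card_box_two (d r : ℕ) : ((box d (2 * r)).card : ℝ) ≤ 2 ^ d * (box d r).card := by
  rw [card_box, card_box]
  push_cast
  rw [← mul_pow]
  apply pow_le_pow_left₀ (by positivity)
  linarith [show (0 : ℝ) ≤ r from Nat.cast_nonneg r]

theorem card_box_pos (d r : ℕ) : (0 : ℝ) < (box d r).card := by
  rw [card_box]
  positivity

/-- Averaged exit probability. -/
noncomputable def Hf (r : ℕ) (lam : ℝ) (ω : Env d) : ℝ :=
  (∑ w ∈ box d r, (1 - (cond (shift (-w) ω)).res ((box d (2 * r) : Finset (V d)) : Set (V d)) lam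
    (fun _ => (1 : ℝ)) w)) / (box d r).card

theorem one_bd (x : V d) : ‖(fun _ : V d => (1 : ℝ)) x‖ ≤ 1 := by simp

theorem res_one_bounds (hd : 0 < d) (C : Cond d) (D : Set (V d)) {lam : ℝ} (hl : 0 < lam)
    (x : V d) : 0 ≤ C.res D lam (fun _ => (1 : ℝ)) x ∧ C.res D lam (fun _ => (1 : ℝ)) x ≤ 1 :=
  ⟨C.res_nonneg hd D hl (fun _ => zero_le_one) x,
    (le_abs_self _).trans (C.norm_res_le hd D hl one_bd x)⟩

theorem Hf_bounds (hd : 0 < d) (r : ℕ) {lam : ℝ} (hl : 0 < lam) (ω : Env d) :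
    0 ≤ Hf r lam ω ∧ Hf r lam ω ≤ 1 := by
  unfold Hf
  have hc := card_box_pos d r
  constructor
  · apply div_nonneg _ hc.le
    apply Finset.sum_nonneg
    intro w _
    linarith [(res_one_bounds hd (cond (shift (-w) ω)) ((box d (2 * r) : Finset (V d)) : Set (V d))
      hl w).2]
  · rw [div_le_one hc]
    refine (Finset.sum_le_sum (g := fun _ => (1 : ℝ)) fun w _ => ?_).trans (by simp)
    linarith [(res_one_bounds hd (cond (shift (-w) ω)) ((box d (2 * r) : Finset (V d)) : Set (V d))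
      hl w).1]

theorem measurable_resw (hd : 0 < d) (D : Set (V d)) {lam : ℝ} (hl : 0 < lam) (w : V d) :
    Measurable (fun ω : Env d => (cond (shift (-w) ω)).res D lam (fun _ => (1 : ℝ)) w) :=
  (measurable_res hd D hl one_bd w).comp (measurable_shift (-w))

theorem measurable_Hf (hd : 0 < d) (r : ℕ) {lam : ℝ} (hl : 0 < lam) :
    Measurable (Hf r lam : Env d → ℝ) := by
  unfold Hf
  refine Measurable.div_const ?_ _
  exact Finset.measurable_fun_sum _ fun w _ => (measurable_resw hd _ hl w).const_sub 1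

theorem integrable_resw (m : Model d) (hd : 0 < d) (D : Set (V d)) {lam : ℝ} (hl : 0 < lam)
    (w : V d) :
    Integrable (fun ω : Env d => (cond (shift (-w) ω)).res D lam (fun _ => (1 : ℝ)) w) m.μ :=
  Integrable.of_bound (measurable_resw hd D hl w).aestronglyMeasurable 1
    (Eventually.of_forall fun ω => (cond (shift (-w) ω)).norm_res_le hd D hl one_bd w)

theorem int_resw (m : Model d) (hd : 0 < d) (D : Set (V d)) {lam : ℝ} (hl : 0 < lam) (w : V d) :
    ∫ ω, (cond (shift (-w) ω)).res D lam (fun _ => (1 : ℝ)) w ∂m.μ =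
      ∫ ω, (cond ω).res D lam (fun _ => (1 : ℝ)) w ∂m.μ :=
  int_shift m (-w) (F := fun ω => (cond ω).res D lam (fun _ => (1 : ℝ)) w)
    (measurable_res hd D hl one_bd w).aestronglyMeasurable

theorem int_Hf (m : Model d) (hd : 0 < d) (r : ℕ) {lam : ℝ} (hl : 0 < lam) :
    ∫ ω, Hf r lam ω ∂m.μ = (∑ w ∈ box d r, (1 - ∫ ω, (cond ω).res
      ((box d (2 * r) : Finset (V d)) : Set (V d)) lam (fun _ => (1 : ℝ)) w ∂m.μ)) /
        (box d r).card := by
  unfold Hf
  have hi : ∀ w : V d, Integrable (fun ω : Env d => 1 - (cond (shift (-w) ω)).res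
      ((box d (2 * r) : Finset (V d)) : Set (V d)) lam (fun _ => (1 : ℝ)) w) m.μ := fun w =>
    (integrable_const (1 : ℝ)).sub (integrable_resw m hd _ hl w)
  rw [integral_div, integral_finsetSum _ (fun w _ => hi w)]
  congr 1
  apply Finset.sum_congr rfl
  intro w _
  rw [integral_sub (integrable_const _) (integrable_resw m hd _ hl w), int_resw m hd _ hl w]
  simp

theorem var_Hf (hd : 3 ≤ d) (m : Model d) : ∃ K : ℝ, 0 < K ∧ ∀ lam : ℝ, 0 < lam → lam ≤ 1 →
    ∀ r : ℕ, ∫⁻ ω, ‖Hf r lam ω - ∫ ω', Hf r lam ω' ∂m.μ‖ₑ ^ 2 ∂m.μ ≤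
      ENNReal.ofReal (K * lam ^ ((1 / 5) : ℝ)) := by
  obtain ⟨K, hK, hvar⟩ := var_dom hd m
  have hd0 : 0 < d := by omega
  refine ⟨K * 2 ^ d, by positivity, ?_⟩
  intro lam hl hl1 r
  set D : Finset (V d) := box d (2 * r) with hD
  have hc := card_box_pos d r
  set X : V d → Env d → ℝ := fun w ω => (cond (shift (-w) ω)).res (D : Set (V d)) lam
    (fun _ => (1 : ℝ)) w with hX
  have hXm : ∀ w, Measurable (X w) := fun w => measurable_resw hd0 _ hl w
  have hpt : ∀ ω, ‖Hf r lam ω - ∫ ω', Hf r lam ω' ∂m.μ‖ₑ ^ 2 ≤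
      ENNReal.ofReal (1 / (box d r).card) *
        ∑ w ∈ box d r, ‖X w ω - ∫ ω', X w ω' ∂m.μ‖ₑ ^ 2 := by
    intro ω
    have h1 : Hf r lam ω - ∫ ω', Hf r lam ω' ∂m.μ =
        -(∑ w ∈ box d r, (X w ω - ∫ ω', X w ω' ∂m.μ)) / (box d r).card := by
      rw [int_Hf m hd0 r hl]
      unfold Hf
      rw [← sub_div, ← Finset.sum_sub_distrib, ← Finset.sum_neg_distrib]
      congr 1
      apply Finset.sum_congr rfl
      intro w _
      rw [hX]
      simp only
      rw [int_resw m hd0 _ hl w]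
      ring
    have h2 : (Hf r lam ω - ∫ ω', Hf r lam ω' ∂m.μ) ^ 2 ≤
        (1 / (box d r).card) * ∑ w ∈ box d r, (X w ω - ∫ ω', X w ω' ∂m.μ) ^ 2 := by
      rw [h1, div_pow, neg_sq, div_le_iff₀ (by positivity)]
      refine sq_sum_le_card_mul_sum_sq.trans (le_of_eq ?_)
      field_simp
    have h3 : ∀ a : ℝ, ‖a‖ₑ ^ 2 = ENNReal.ofReal (a ^ 2) := fun a => by
      rw [enorm_sq_eq, Real.norm_eq_abs, sq_abs]
    simp_rw [h3]
    rw [← ENNReal.ofReal_sum_of_nonneg (fun w _ => sq_nonneg _), ← ENNReal.ofReal_mul (by positivity)]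
    exact ENNReal.ofReal_le_ofReal h2
  refine (lintegral_mono hpt).trans ?_
  have hm : ∀ w, Measurable (fun ω => ‖X w ω - ∫ ω', X w ω' ∂m.μ‖ₑ ^ 2) := fun w =>
    ((hXm w).sub_const _).enorm.pow_const 2
  rw [lintegral_const_mul _ (Finset.measurable_fun_sum _ fun w _ => hm w),
    lintegral_finsetSum _ (fun w _ => hm w)]
  have h4 : ∀ w, ∫⁻ ω, ‖X w ω - ∫ ω', X w ω' ∂m.μ‖ₑ ^ 2 ∂m.μ =
      ∫⁻ ω, ‖(cond ω).res (D : Set (V d)) lam (fun _ => (1 : ℝ)) w -
        ∫ ω', (cond ω').res (D : Set (V d)) lam (fun _ => (1 : ℝ)) w ∂m.μ‖ₑ ^ 2 ∂m.μ := by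
    intro w
    have h5 : ∫ ω', X w ω' ∂m.μ = ∫ ω', (cond ω').res (D : Set (V d)) lam (fun _ => (1 : ℝ)) w ∂m.μ :=
      int_resw m hd0 _ hl w
    rw [h5]
    exact m.lint_shift (-w) (f := fun ω => ‖(cond ω).res (D : Set (V d)) lam (fun _ => (1 : ℝ)) w -
        ∫ ω', (cond ω').res (D : Set (V d)) lam (fun _ => (1 : ℝ)) w ∂m.μ‖ₑ ^ 2)
      (((measurable_res hd0 _ hl one_bd w).sub_const _).enorm.pow_const 2)
  simp_rw [h4]
  have hsub : box d r ⊆ D := by
    intro x hx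
    rw [hD]
    unfold box at hx ⊢
    rw [Finset.mem_Icc] at hx ⊢
    constructor
    · refine le_trans (fun i => ?_) hx.1
      simp only
      push_cast
      omega
    · refine hx.2.trans (fun i => ?_)
      simp only
      push_cast
      omega
  have h5 := (Finset.sum_le_sum_of_subset_of_nonneg hsub (fun _ _ _ => zero_le)).trans
    (hvar lam hl hl1 D)
  refine (mul_le_mul_right h5 _).trans ?_
  rw [← ENNReal.ofReal_mul (by positivity)]
  apply ENNReal.ofReal_le_ofReal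
  have h6 := card_box_two d r
  have h7 : (0 : ℝ) ≤ K * lam ^ ((1 / 5) : ℝ) := by positivity
  calc 1 / ((box d r).card : ℝ) * (K * D.card * lam ^ ((1 / 5) : ℝ))
      = (D.card / (box d r).card) * (K * lam ^ ((1 / 5) : ℝ)) := by ring
    _ ≤ 2 ^ d * (K * lam ^ ((1 / 5) : ℝ)) := by
        apply mul_le_mul_of_nonneg_right _ h7
        rw [div_le_iff₀ hc]
        exact h6
    _ = _ := by ring

/-- Weighted deviation of `Hf`. -/
theorem dev_Hf (hd : 3 ≤ d) (m : Model d) : ∃ K : ℝ, 0 < K ∧ ∀ lam : ℝ, 0 < lam → lam ≤ 1 →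
    ∀ r : ℕ, ∫⁻ ω, ENNReal.ofReal ((cond ω).deg 0 * |Hf r lam ω - ∫ ω', Hf r lam ω' ∂m.μ|) ∂m.μ ≤
      ENNReal.ofReal (Real.sqrt (K * lam ^ ((1 / 5) : ℝ))) := by
  obtain ⟨K, hK, hvar⟩ := var_Hf hd m
  have hd0 : 0 < d := by omega
  have hκ := m.κ_nonneg
  refine ⟨(m.κ + m.κ ^ 2 + 1) * K, by positivity, ?_⟩
  intro lam hl hl1 r
  have hHm : Measurable (fun ω => Hf r lam ω - ∫ ω', Hf r lam ω' ∂m.μ) :=
    (measurable_Hf hd0 r hl).sub_const _
  have e1 : ∀ ω : Env d, ENNReal.ofReal ((cond ω).deg 0 * |Hf r lam ω - ∫ ω', Hf r lam ω' ∂m.μ|) =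
      ENNReal.ofReal ((cond ω).deg 0) * ‖Hf r lam ω - ∫ ω', Hf r lam ω' ∂m.μ‖ₑ := by
    intro ω
    rw [ENNReal.ofReal_mul ((cond ω).deg_nonneg 0), ← Real.norm_eq_abs, ofReal_norm]
  simp_rw [e1]
  apply le_of_sq_le
  rw [← ENNReal.ofReal_pow (Real.sqrt_nonneg _), Real.sq_sqrt (by positivity)]
  refine (cs_lint m.μ (measurable_deg 0).ennreal_ofReal hHm.enorm).trans ?_
  refine (mul_le_mul' (m.lint_deg_sq 0) (hvar lam hl hl1 r)).trans ?_
  rw [← ENNReal.ofReal_mul (by positivity)]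
  apply ENNReal.ofReal_le_ofReal
  have : 0 ≤ K * lam ^ ((1 / 5) : ℝ) := by positivity
  nlinarith

namespace Cond

variable (C : Cond d)

theorem PD_mono (D : Set (V d)) {f g : V d → ℝ} (h : ∀ y, f y ≤ g y) (x : V d) :
    C.PD D f x ≤ C.PD D g x := by
  unfold PD
  by_cases hx : x ∈ D
  · rw [Set.indicator_of_mem hx, Set.indicator_of_mem hx]
    exact C.P_mono h x
  · rw [Set.indicator_of_notMem hx, Set.indicator_of_notMem hx]

theorem iter_one_mono (D : Set (V d)) (k : ℕ) (x : V d) :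
    (C.PD D)^[k + 1] (D.indicator (fun _ => (1 : ℝ))) x ≤
      (C.PD D)^[k] (D.indicator (fun _ => (1 : ℝ))) x := by
  induction k generalizing x with
  | zero =>
    simp only [zero_add, Function.iterate_one, Function.iterate_zero, id_eq]
    unfold PD
    by_cases hx : x ∈ D
    · rw [Set.indicator_of_mem hx, Set.indicator_of_mem hx]
      unfold P
      rw [C.tsum_c_smul, C.deg_eq_sum, smul_eq_mul]
      by_cases hz : ∑ y ∈ (C.hfs x).toFinset, C.c x y = 0
      · rw [hz, inv_zero, zero_mul]; exact zero_le_one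
      · have hpos : 0 < ∑ y ∈ (C.hfs x).toFinset, C.c x y :=
          lt_of_le_of_ne (Finset.sum_nonneg fun y _ => C.nonneg x y) (Ne.symm hz)
        rw [inv_mul_le_iff₀ hpos, mul_one]
        apply Finset.sum_le_sum
        intro y _
        rw [smul_eq_mul]
        apply mul_le_of_le_one_right (C.nonneg x y)
        by_cases hy : y ∈ D
        · rw [Set.indicator_of_mem hy]
        · rw [Set.indicator_of_notMem hy]; exact zero_le_one
    · rw [Set.indicator_of_notMem hx, Set.indicator_of_notMem hx]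
  | succ k ih =>
    have h1 : (C.PD D)^[k + 1 + 1] (D.indicator (fun _ => (1 : ℝ))) =
        C.PD D ((C.PD D)^[k + 1] (D.indicator (fun _ => (1 : ℝ)))) :=
      Function.iterate_succ_apply' _ _ _
    have h2 : (C.PD D)^[k + 1] (D.indicator (fun _ => (1 : ℝ))) =
        C.PD D ((C.PD D)^[k] (D.indicator (fun _ => (1 : ℝ)))) :=
      Function.iterate_succ_apply' _ _ _
    rw [h1]
    nth_rewrite 2 [h2]
    exact C.PD_mono D ih x

theorem iter_one_antitone (D : Set (V d)) (x : V d) :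
    Antitone (fun k => (C.PD D)^[k] (D.indicator (fun _ => (1 : ℝ))) x) :=
  antitone_nat_of_succ_le fun k => C.iter_one_mono D k x

theorem iter_one_bounds (hd : 0 < d) (D : Set (V d)) (k : ℕ) (x : V d) :
    0 ≤ (C.PD D)^[k] (D.indicator (fun _ => (1 : ℝ))) x ∧
      (C.PD D)^[k] (D.indicator (fun _ => (1 : ℝ))) x ≤ 1 := by
  constructor
  · exact C.iter_nonneg D (fun y => Set.indicator_nonneg (fun _ _ => zero_le_one) y) k x
  · exact (le_abs_self _).trans (C.norm_iter_le hd D (norm_indicator_le D one_bd) k x)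

theorem iter_one_le_of_subset {D D' : Set (V d)} (h : D ⊆ D') (k : ℕ) (x : V d) :
    (C.PD D)^[k] (D.indicator (fun _ => (1 : ℝ))) x ≤
      (C.PD D')^[k] (D'.indicator (fun _ => (1 : ℝ))) x := by
  have hnn : ∀ k x, 0 ≤ (C.PD D')^[k] (D'.indicator (fun _ => (1 : ℝ))) x := fun k x =>
    C.iter_nonneg D' (fun y => Set.indicator_nonneg (fun _ _ => zero_le_one) y) k x
  induction k generalizing x with
  | zero =>
    simp only [Function.iterate_zero, id_eq]
    exact Set.indicator_le_indicator_of_subset h (fun _ => zero_le_one) x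
  | succ k ih =>
    rw [Function.iterate_succ_apply', Function.iterate_succ_apply']
    unfold PD at ih hnn ⊢
    by_cases hx : x ∈ D
    · rw [Set.indicator_of_mem hx, Set.indicator_of_mem (h hx)]
      exact C.P_mono ih x
    · rw [Set.indicator_of_notMem hx]
      have := hnn (k + 1) x
      rwa [Function.iterate_succ_apply'] at this

/-- The probability to leave within `N` steps is at most three times the probability to leave
before the geometric time. -/
theorem exit_le (hd : 0 < d) (D : Set (V d)) {lam : ℝ} (hl : 0 < lam) (N : ℕ)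
    (hN : lam * N ≤ 1) (x : V d) :
    1 - (C.PD D)^[N] (D.indicator (fun _ => (1 : ℝ))) x ≤
      3 * (1 - C.res D lam (fun _ => (1 : ℝ)) x) := by
  set p : ℕ → ℝ := fun k => (C.PD D)^[k] (D.indicator (fun _ => (1 : ℝ))) x with hp
  have hp1 : ∀ k, p k ≤ 1 := fun k => (C.iter_one_bounds hd D k x).2
  have hp0 : ∀ k, 0 ≤ p k := fun k => (C.iter_one_bounds hd D k x).1
  have hanti : Antitone p := C.iter_one_antitone D x
  set s := sv lam with hs
  have hs0 : 0 < s := sv_pos hl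
  have hs1 : s < 1 := sv_lt_one hl
  have hgeo := hasSum_geo hl
  have hres : C.res D lam (fun _ => (1 : ℝ)) x = ∑' k : ℕ, ((1 - s) * s ^ k) * p k := rfl
  have hsum : Summable (fun k : ℕ => ((1 - s) * s ^ k) * p k) :=
    C.summable_res hd D hl (f := fun _ => (1 : ℝ)) one_bd x
  have h1 : 1 - C.res D lam (fun _ => (1 : ℝ)) x = ∑' k : ℕ, ((1 - s) * s ^ k) * (1 - p k) := by
    rw [hres]
    have : ∀ k : ℕ, ((1 - s) * s ^ k) * (1 - p k) = (1 - s) * s ^ k - ((1 - s) * s ^ k) * p k := by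
      intro k
      ring
    simp_rw [this]
    rw [hgeo.summable.tsum_sub hsum, hgeo.tsum_eq]
  have hsum2 : Summable (fun k : ℕ => ((1 - s) * s ^ k) * (1 - p k)) := by
    refine Summable.of_nonneg_of_le (fun k => ?_) (fun k => ?_) hgeo.summable
    · exact mul_nonneg (mul_nonneg (by linarith) (pow_nonneg hs0.le _)) (by linarith [hp1 k])
    · have h0 : 0 ≤ (1 - s) * s ^ k := mul_nonneg (by linarith) (pow_nonneg hs0.le _)
      have := hp0 k
      nlinarith
  have h2 : s ^ N * (1 - p N) ≤ ∑' k : ℕ, ((1 - s) * s ^ k) * (1 - p k) := by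
    rw [← hsum2.sum_add_tsum_nat_add N]
    have h3 : 0 ≤ ∑ i ∈ Finset.range N, (1 - s) * s ^ i * (1 - p i) := Finset.sum_nonneg fun k _ =>
      mul_nonneg (mul_nonneg (by linarith) (pow_nonneg hs0.le _)) (by linarith [hp1 k])
    have h4 : s ^ N * (1 - p N) ≤ ∑' i : ℕ, (1 - s) * s ^ (i + N) * (1 - p (i + N)) := by
      have h5 : HasSum (fun i : ℕ => s ^ N * (1 - p N) * ((1 - s) * s ^ i)) (s ^ N * (1 - p N) * 1) :=
        hgeo.mul_left _
      rw [mul_one] at h5
      rw [← h5.tsum_eq]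
      refine h5.summable.tsum_le_tsum (fun i => ?_) ((summable_nat_add_iff N).2 hsum2)
      have h6 : p (i + N) ≤ p N := hanti (by omega)
      have h7 : 0 ≤ (1 - s) * s ^ (i + N) := mul_nonneg (by linarith) (pow_nonneg hs0.le _)
      calc s ^ N * (1 - p N) * ((1 - s) * s ^ i) = (1 - s) * s ^ (i + N) * (1 - p N) := by
            rw [pow_add]; ring
        _ ≤ (1 - s) * s ^ (i + N) * (1 - p (i + N)) :=
            mul_le_mul_of_nonneg_left (by linarith) h7
    linarith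
  have h3 : 1 / 3 ≤ s ^ N := by
    rw [hs]
    unfold sv
    rw [one_div, one_div, inv_pow]
    apply inv_anti₀ (by positivity)
    have h4 : 1 + lam ≤ Real.exp lam := by
      have := Real.add_one_le_exp lam
      linarith
    calc (1 + lam) ^ N ≤ (Real.exp lam) ^ N := pow_le_pow_left₀ (by positivity) h4 N
      _ = Real.exp (lam * N) := by rw [← Real.exp_nat_mul]; ring_nf
      _ ≤ Real.exp 1 := Real.exp_le_exp.2 hN
      _ ≤ 3 := by linarith [Real.exp_one_lt_d9]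
  have h4 : 0 ≤ 1 - p N := by linarith [hp1 N]
  rw [h1]
  have h5 : 1 / 3 * (1 - p N) ≤ s ^ N * (1 - p N) := mul_le_mul_of_nonneg_right h3 h4
  show 1 - p N ≤ _
  linarith

theorem iterP_const_add (hd : 0 < d) (c : ℝ) (f : V d → ℝ) (k : ℕ) (x : V d) :
    C.P^[k] (fun y => c + f y) x = c + C.P^[k] f x := by
  induction k generalizing x with
  | zero => rfl
  | succ k ih =>
    rw [Function.iterate_succ_apply', Function.iterate_succ_apply']
    have h1 : C.P^[k] (fun y => c + f y) = fun x => c + C.P^[k] f x := funext ih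
    rw [h1, C.P_add (fun _ => c), C.P_const hd]

end Cond

theorem norm_V_le_iff (y : V d) {R : ℝ} (hR : 0 ≤ R) : ‖y‖ ≤ R ↔ ∀ i, |(y i : ℝ)| ≤ R := by
  rw [pi_norm_le_iff_of_nonneg hR]
  simp only [Int.norm_eq_abs]

/-- Comparison of the exit probability from the origin with the averaged one. -/
theorem stay_le_Hf (hd : 0 < d) (ω : Env d) {r : ℕ} {R lam : ℝ} (hl : 0 < lam)
    (hR : 3 * (r : ℝ) ≤ R) (N : ℕ) (hN : lam * N ≤ 1) :
    1 - stayP (cond ω) R N 0 ≤ 3 * Hf r lam ω := by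
  have hc := card_box_pos d r
  have hR0 : 0 ≤ R := le_trans (by positivity) hR
  have key : ∀ w ∈ box d r, 1 - stayP (cond ω) R N 0 ≤
      3 * (1 - (cond (shift (-w) ω)).res ((box d (2 * r) : Finset (V d)) : Set (V d)) lam
        (fun _ => (1 : ℝ)) w) := by
    intro w hw
    set D : Set (V d) := ((box d (2 * r) : Finset (V d)) : Set (V d)) with hD
    have hcov : ∀ x y, (cond ω).c x y = (cond (shift (-w) ω)).c (x + w) (y + w) := by
      intro x y
      rw [cond_shift, add_neg_cancel_right, add_neg_cancel_right]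
    have h1 := res_cov (C' := cond ω) (C := cond (shift (-w) ω)) hcov D lam (fun _ => (1 : ℝ)) 0
    rw [zero_add] at h1
    rw [← h1]
    refine le_trans ?_ ((cond ω).exit_le hd {y | y + w ∈ D} hl N hN 0)
    have h3 := (cond ω).iter_one_le_of_subset (D := {y | y + w ∈ D})
      (D' := {y : V d | ‖y - 0‖ ≤ R}) (by
        intro y hy
        have hy' : y + w ∈ box d (2 * r) := by simpa [hD] using hy
        unfold box at hy' hw
        rw [Finset.mem_Icc] at hy' hw
        show ‖y - 0‖ ≤ R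
        rw [sub_zero, norm_V_le_iff y hR0]
        intro i
        have a1 := hy'.1 i
        have a2 := hy'.2 i
        have a3 := hw.1 i
        have a4 := hw.2 i
        simp only [Pi.add_apply] at a1 a2 a3 a4
        push_cast at a1 a2
        have a5 : |y i| ≤ 3 * (r : ℤ) := by
          rw [abs_le]
          constructor <;> omega
        have a6 : |(y i : ℝ)| ≤ 3 * (r : ℝ) := by exact_mod_cast a5
        exact a6.trans hR) N 0
    unfold stayP
    linarith
  have hsum := Finset.sum_le_sum key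
  rw [Finset.sum_const, nsmul_eq_mul, ← Finset.mul_sum] at hsum
  unfold Hf
  rw [mul_div_assoc', le_div_iff₀ hc]
  linarith

theorem stayP_cov (a : V d) (ω : Env d) (R : ℝ) (N : ℕ) :
    stayP (cond (shift a ω)) R N 0 = stayP (cond ω) R N a := by
  have h1 := iter_cov (C' := cond (shift a ω)) (C := cond ω) (cond_shift a ω)
    {y | ‖y - a‖ ≤ R} (({y | ‖y - a‖ ≤ R} : Set (V d)).indicator (fun _ => (1 : ℝ))) N 0
  rw [zero_add] at h1
  unfold stayP
  rw [← h1]
  have h2 : ({y | y + a ∈ ({y | ‖y - a‖ ≤ R} : Set (V d))} : Set (V d)) = {y | ‖y - 0‖ ≤ R} := by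
    ext y
    show ‖y + a - a‖ ≤ R ↔ ‖y - 0‖ ≤ R
    rw [add_sub_cancel_right, sub_zero]
  have h3 : (fun y => ({y | ‖y - a‖ ≤ R} : Set (V d)).indicator (fun _ => (1 : ℝ)) (y + a)) =
      ({y | ‖y - 0‖ ≤ R} : Set (V d)).indicator (fun _ => (1 : ℝ)) := by
    ext y
    unfold Set.indicator
    have : (y + a ∈ ({y | ‖y - a‖ ≤ R} : Set (V d))) ↔ (y ∈ ({y | ‖y - 0‖ ≤ R} : Set (V d))) := by
      show ‖y + a - a‖ ≤ R ↔ ‖y - 0‖ ≤ R
      rw [add_sub_cancel_right, sub_zero]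
    simp only [this]
  rw [h2, h3]

/-- the radius -/
noncomputable def rad (j k : ℕ) : ℕ := ⌊1 / (3 * ((j : ℝ) + 1)) * (k : ℝ) ^ 10⌋₊

/-- Almost sure convergence of the fluctuation part. -/
theorem ae_fluct (hd : 3 ≤ d) (m : Model d) (j q A : ℕ) (hq : 1 ≤ q) :
    ∀ᵐ ω ∂m.μ, Tendsto (fun k : ℕ => ∑ i ∈ Finset.range A, (cond ω).P^[i * (k ^ 20 / q)]
      (fun y => |Hf (rad j k) ((q : ℝ) / (k : ℝ) ^ 20) (shift y ω) -
        ∫ ω', Hf (rad j k) ((q : ℝ) / (k : ℝ) ^ 20) ω' ∂m.μ|) 0) atTop (𝓝 0) := by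
  obtain ⟨K, hK, hdev⟩ := dev_Hf hd m
  have hd0 : 0 < d := by omega
  have hlam : ∀ k : ℕ, q ≤ k → 0 < (q : ℝ) / (k : ℝ) ^ 20 ∧ (q : ℝ) / (k : ℝ) ^ 20 ≤ 1 := by
    intro k hk
    have hq0 : (0 : ℝ) < q := by exact_mod_cast hq
    have hk0 : (0 : ℝ) < k := by exact_mod_cast lt_of_lt_of_le hq hk
    have hk1 : (1 : ℝ) ≤ k := by exact_mod_cast hq.trans hk
    refine ⟨by positivity, ?_⟩
    rw [div_le_one (by positivity)]
    calc (q : ℝ) ≤ k := by exact_mod_cast hk
      _ ≤ (k : ℝ) ^ 20 := le_self_pow₀ hk1 (by norm_num)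
  set Φ : ℕ → Env d → ℝ := fun k ω => |Hf (rad j k) ((q : ℝ) / (k : ℝ) ^ 20) ω -
        ∫ ω', Hf (rad j k) ((q : ℝ) / (k : ℝ) ^ 20) ω' ∂m.μ| with hΦ
  have hΦm : ∀ k, q ≤ k → Measurable (Φ k) := fun k hk =>
    _root_.continuous_abs.measurable.comp ((measurable_Hf hd0 _ (hlam k hk).1).sub_const _)
  set f : ℕ → Env d → ℝ≥0∞ := fun k ω => ENNReal.ofReal (∑ i ∈ Finset.range A,
    (cond ω).P^[i * ((k + q) ^ 20 / q)] (fun y => Φ (k + q) (shift y ω)) 0) with hf
  have hsh : ∀ k, ∀ y, Measurable (fun ω => Φ (k + q) (shift y ω)) := fun k y =>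
    (hΦm (k + q) (by omega)).comp (measurable_shift y)
  have hfm : ∀ k, Measurable (f k) := by
    intro k
    refine Measurable.ennreal_ofReal (Finset.measurable_fun_sum _ fun i _ => ?_)
    exact measurable_iterP (f := fun ω y => Φ (k + q) (shift y ω)) (hsh k) _ 0
  have hbound : ∀ k, ∫⁻ ω, f k ω ∂m.μ ≤ ENNReal.ofReal (A * (Real.sqrt (K * (q : ℝ) ^ ((1 / 5) : ℝ)) *
      (1 / ((k + q : ℕ) : ℝ) ^ 2))) := by
    intro k
    obtain ⟨hl, hl1⟩ := hlam (k + q) (by omega)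
    have hΦ0 : ∀ ω, 0 ≤ Φ (k + q) ω := fun ω => abs_nonneg _
    have h1 : ∀ ω, f k ω ≤ ∑ i ∈ Finset.range A, ENNReal.ofReal ((cond ω).deg 0 *
        (cond ω).P^[i * ((k + q) ^ 20 / q)] (fun y => Φ (k + q) (shift y ω)) 0) := by
      intro ω
      rw [hf]
      simp only
      rw [ENNReal.ofReal_sum_of_nonneg (fun i _ => (cond ω).iterP_nonneg (fun y => hΦ0 _) _ _)]
      apply Finset.sum_le_sum
      intro i _
      apply ENNReal.ofReal_le_ofReal
      exact le_mul_of_one_le_left ((cond ω).iterP_nonneg (fun y => hΦ0 _) _ _)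
        ((cond ω).one_le_deg hd0 0)
    refine (lintegral_mono h1).trans ?_
    have hmi : ∀ i, Measurable (fun ω : Env d => ENNReal.ofReal ((cond ω).deg 0 *
        (cond ω).P^[i * ((k + q) ^ 20 / q)] (fun y => Φ (k + q) (shift y ω)) 0)) := fun i =>
      ((measurable_deg 0).mul
        (measurable_iterP (f := fun ω y => Φ (k + q) (shift y ω)) (hsh k) _ 0)).ennreal_ofReal
    rw [lintegral_finsetSum _ (fun i _ => hmi i)]
    have h2 : ∀ i ∈ Finset.range A, ∫⁻ ω, ENNReal.ofReal ((cond ω).deg 0 *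
        (cond ω).P^[i * ((k + q) ^ 20 / q)] (fun y => Φ (k + q) (shift y ω)) 0) ∂m.μ ≤
        ENNReal.ofReal (Real.sqrt (K * ((q : ℝ) / ((k + q : ℕ) : ℝ) ^ 20) ^ ((1 / 5) : ℝ))) := by
      intro i _
      rw [stat_iter m hd0 (f := fun ω y => Φ (k + q) (shift y ω)) (hsh k)
        (fun ω y => hΦ0 _) (cov_of_env _) (i * ((k + q) ^ 20 / q))]
      simp only [shift_zero]
      exact hdev _ hl hl1 (rad j (k + q))
    refine (Finset.sum_le_sum h2).trans (le_of_eq ?_)
    rw [Finset.sum_const, Finset.card_range, nsmul_eq_mul, ENNReal.ofReal_mul (p := (A : ℝ))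
      (by positivity), ENNReal.ofReal_natCast]
    congr 2
    have hk0 : (0 : ℝ) < ((k + q : ℕ) : ℝ) := by
      have : 0 < k + q := by omega
      exact_mod_cast this
    have hq0 : (0 : ℝ) < q := by exact_mod_cast hq
    have h2 : ((q : ℝ) / ((k + q : ℕ) : ℝ) ^ 20) ^ ((1 / 5) : ℝ) =
        (q : ℝ) ^ ((1 / 5) : ℝ) * (1 / ((k + q : ℕ) : ℝ) ^ 2) ^ 2 := by
      rw [Real.div_rpow hq0.le (by positivity)]
      have h3 : ((((k + q : ℕ) : ℝ) ^ 20) ^ ((1 / 5) : ℝ)) = ((k + q : ℕ) : ℝ) ^ 4 := by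
        rw [← Real.rpow_natCast, ← Real.rpow_mul hk0.le, ← Real.rpow_natCast]
        norm_num
      rw [h3]
      field_simp
    rw [h2, ← mul_assoc, Real.sqrt_mul (by positivity), Real.sqrt_sq (by positivity)]
  have hsum : ∑' k, ∫⁻ ω, f k ω ∂m.μ ≠ ⊤ := by
    refine ne_top_of_le_ne_top ?_ (ENNReal.tsum_le_tsum hbound)
    rw [← ENNReal.ofReal_tsum_of_nonneg]
    · exact ENNReal.ofReal_ne_top
    · intro k
      positivity
    · apply Summable.mul_left
      apply Summable.mul_left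
      have h3 : Summable (fun k : ℕ => 1 / (k : ℝ) ^ 2) :=
        Real.summable_one_div_nat_pow.2 (by norm_num)
      exact (summable_nat_add_iff q).2 h3
  filter_upwards [ae_tendsto_of_sum hfm hsum] with ω hω
  rw [← tendsto_add_atTop_iff_nat q]
  have h4 := (ENNReal.tendsto_toReal ENNReal.zero_ne_top).comp hω
  rw [ENNReal.toReal_zero] at h4
  refine h4.congr fun k => ?_
  simp only [Function.comp, hf]
  rw [ENNReal.toReal_ofReal]
  exact Finset.sum_nonneg fun i _ => (cond ω).iterP_nonneg (fun y => abs_nonneg _) _ _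

theorem mean_Hf_small (hd : 3 ≤ d) (m : Model d) (j : ℕ) : ∃ Ce : ℝ, 0 < Ce ∧ ∀ q : ℕ, 1 ≤ q →
    ∀ᶠ k : ℕ in atTop, ∫ ω, Hf (rad j k) ((q : ℝ) / (k : ℝ) ^ 20) ω ∂m.μ ≤
      Ce * (q : ℝ) ^ (-(3 / 2) : ℝ) := by
  have hd0 : 0 < d := by omega
  obtain ⟨Ce, hCe, h⟩ := exit_bound hd m (1 / (3 * ((j : ℝ) + 1))) (by positivity)
  refine ⟨Ce, hCe, ?_⟩
  intro q hq
  have ht : Tendsto (fun k : ℕ => k ^ 20) atTop atTop := tendsto_pow_atTop (by norm_num)
  filter_upwards [ht.eventually (h q hq), eventually_ge_atTop 1] with k hk hk1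
  have hk0 : (0 : ℝ) < k := by exact_mod_cast hk1
  have hq0 : (0 : ℝ) < q := by exact_mod_cast hq
  have hsq : Real.sqrt ((k ^ 20 : ℕ) : ℝ) = (k : ℝ) ^ 10 := by
    push_cast
    rw [show (k : ℝ) ^ 20 = ((k : ℝ) ^ 10) ^ 2 by ring, Real.sqrt_sq (by positivity)]
  rw [hsq] at hk
  push_cast at hk
  rw [int_Hf m hd0 (rad j k) (by positivity), div_le_iff₀ (card_box_pos d _)]
  exact hk

theorem ae_ExitSmall (hd : 3 ≤ d) (m : Model d) : ∀ᵐ ω ∂m.μ, ExitSmall (cond ω) := by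
  have hd0 : 0 < d := by omega
  have h : ∀ᵐ ω ∂m.μ, ∀ j q A : ℕ, 1 ≤ q → Tendsto (fun k : ℕ => ∑ i ∈ Finset.range A,
      (cond ω).P^[i * (k ^ 20 / q)] (fun y => |Hf (rad j k) ((q : ℝ) / (k : ℝ) ^ 20) (shift y ω) -
        ∫ ω', Hf (rad j k) ((q : ℝ) / (k : ℝ) ^ 20) ω' ∂m.μ|) 0) atTop (𝓝 0) := by
    rw [ae_all_iff]
    intro j
    rw [ae_all_iff]
    intro q
    rw [ae_all_iff]
    intro A
    by_cases hq : 1 ≤ q
    · filter_upwards [ae_fluct hd m j q A hq] with ω hω _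
      exact hω
    · exact Eventually.of_forall fun ω h => absurd h hq
  filter_upwards [h] with ω hω T ε hε η hη
  obtain ⟨j, hj⟩ := exists_nat_one_div_lt hε
  obtain ⟨Ce, hCe, hmean⟩ := mean_Hf_small hd m j
  -- choice of q
  obtain ⟨q, hq, hqη⟩ : ∃ q : ℕ, 1 ≤ q ∧
      3 * ((2 * q * (T + 1) : ℕ) : ℝ) * (Ce * (q : ℝ) ^ (-(3 / 2) : ℝ)) ≤ η / 2 := by
    have h1 : Tendsto (fun q : ℕ => 6 * ((T : ℝ) + 1) * Ce * (q : ℝ) ^ (-(1 / 2) : ℝ)) atTop
        (𝓝 (6 * ((T : ℝ) + 1) * Ce * 0)) := by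
      apply Tendsto.const_mul
      exact (tendsto_rpow_neg_atTop (by norm_num)).comp tendsto_natCast_atTop_atTop
    rw [mul_zero] at h1
    obtain ⟨q, h2, h3⟩ := ((h1.eventually (Iio_mem_nhds (show (0 : ℝ) < η / 2 by positivity))).and
      (eventually_ge_atTop 1)).exists
    refine ⟨q, h3, le_trans (le_of_eq ?_) (le_of_lt h2)⟩
    have hq0 : (0 : ℝ) < q := by exact_mod_cast h3
    have h4 : (q : ℝ) ^ (-(1 / 2) : ℝ) = (q : ℝ) ^ (-(3 / 2) : ℝ) * q := by
      rw [← Real.rpow_add_one hq0.ne']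
      norm_num
    rw [h4]
    push_cast
    ring
  refine ⟨q, hq, ?_⟩
  have hfl := hω j q (2 * q * (T + 1)) hq
  filter_upwards [hmean q hq, hfl.eventually (Iio_mem_nhds (show (0 : ℝ) < η / 6 by positivity)),
    eventually_ge_atTop 1] with k hk1 hk2 hk3
  have hk2' : (∑ i ∈ Finset.range (2 * q * (T + 1)), (cond ω).P^[i * (k ^ 20 / q)]
    (fun y => |Hf (rad j k) ((q : ℝ) / (k : ℝ) ^ 20) (shift y ω) -
        ∫ ω', Hf (rad j k) ((q : ℝ) / (k : ℝ) ^ 20) ω' ∂m.μ|) 0) < η / 6 := hk2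
  have hk0 : (0 : ℝ) < k := by exact_mod_cast hk3
  have hq0 : (0 : ℝ) < q := by exact_mod_cast hq
  set lam : ℝ := (q : ℝ) / (k : ℝ) ^ 20 with hlam
  have hl : 0 < lam := by positivity
  set c := ∫ ω', Hf (rad j k) lam ω' ∂m.μ with hc
  have hlN : lam * ((k ^ 20 / q : ℕ) : ℝ) ≤ 1 := by
    have h1 : ((k ^ 20 / q : ℕ) : ℝ) ≤ ((k ^ 20 : ℕ) : ℝ) / q := Nat.cast_div_le
    calc lam * ((k ^ 20 / q : ℕ) : ℝ) ≤ lam * (((k ^ 20 : ℕ) : ℝ) / q) :=
          mul_le_mul_of_nonneg_left h1 hl.le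
      _ = 1 := by
          rw [hlam]
          push_cast
          field_simp
  have hrad : 3 * (rad j k : ℝ) ≤ ε * (k : ℝ) ^ 10 := by
    have h1 : (rad j k : ℝ) ≤ 1 / (3 * ((j : ℝ) + 1)) * (k : ℝ) ^ 10 := Nat.floor_le (by positivity)
    calc 3 * (rad j k : ℝ) ≤ 3 * (1 / (3 * ((j : ℝ) + 1)) * (k : ℝ) ^ 10) := by linarith
      _ = 1 / ((j : ℝ) + 1) * (k : ℝ) ^ 10 := by field_simp
      _ ≤ ε * (k : ℝ) ^ 10 := by
          apply mul_le_mul_of_nonneg_right hj.le (by positivity)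
  -- pointwise comparison
  have hpt : ∀ x, 1 - stayP (cond ω) (ε * (k : ℝ) ^ 10) (k ^ 20 / q) x ≤
      3 * c + 3 * |Hf (rad j k) lam (shift x ω) - c| := by
    intro x
    rw [← stayP_cov]
    have h1 := stay_le_Hf hd0 (shift x ω) hl hrad (k ^ 20 / q) hlN
    have h2 := le_abs_self (Hf (rad j k) lam (shift x ω) - c)
    linarith
  have h3 : ∀ i, (cond ω).P^[i * (k ^ 20 / q)]
      (fun x => 1 - stayP (cond ω) (ε * (k : ℝ) ^ 10) (k ^ 20 / q) x) 0 ≤
      3 * c + 3 * (cond ω).P^[i * (k ^ 20 / q)] (fun y => |Hf (rad j k) lam (shift y ω) - c|) 0 := by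
    intro i
    refine ((cond ω).iterP_mono hpt _ 0).trans (le_of_eq ?_)
    rw [(cond ω).iterP_const_add hd0 (3 * c)]
    congr 1
    have h4 : ∀ n : ℕ, ∀ x, (cond ω).P^[n] (fun y => 3 * |Hf (rad j k) lam (shift y ω) - c|) x =
        3 * (cond ω).P^[n] (fun y => |Hf (rad j k) lam (shift y ω) - c|) x := by
      intro n
      induction n with
      | zero => intro x; rfl
      | succ n ih =>
        intro x
        rw [Function.iterate_succ_apply', Function.iterate_succ_apply']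
        have h5 : (cond ω).P^[n] (fun y => 3 * |Hf (rad j k) lam (shift y ω) - c|) = fun x =>
          (3 : ℝ) • (cond ω).P^[n] (fun y => |Hf (rad j k) lam (shift y ω) - c|) x := funext ih
        rw [h5, (cond ω).P_smul, smul_eq_mul]
    exact h4 _ 0
  refine (Finset.sum_le_sum fun i _ => h3 i).trans ?_
  rw [Finset.sum_add_distrib, Finset.sum_const, Finset.card_range, nsmul_eq_mul, ← Finset.mul_sum]
  have h5 : ((2 * q * (T + 1) : ℕ) : ℝ) * (3 * c) ≤ η / 2 := by
    refine le_trans ?_ hqη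
    have h6 : (0 : ℝ) ≤ ((2 * q * (T + 1) : ℕ) : ℝ) := Nat.cast_nonneg _
    have := mul_le_mul_of_nonneg_left hk1 h6
    linarith
  linarith

/-- The key almost sure statement. -/
theorem key (d : ℕ) (hd : 3 ≤ d) : Key d := by
  intro m
  obtain ⟨S, hS, hlim⟩ := annealed hd m
  refine ⟨S, hS, ?_⟩
  filter_upwards [ae_ResConv hd m hlim, ae_ExitSmall hd m] with ω h1 h2
  exact ⟨h1, h2⟩

end Pool.Agent.Lib.QIP
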