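import Pool.Agent.Lib.QIP.ExitCac

/-!
# Chunk E, the annealed Caccioppoli step
-/

set_option autoImplicit false

open MeasureTheory ProbabilityTheory Filter
open scoped ENNReal NNReal Topology BigOperators

namespace Pool.Agent.Lib.QIP

variable {d : ℕ}

/-- The centred cube of radius `r`. -/
noncomputable def box (d : ℕ) (r : ℕ) : Finset (V d) := Finset.Icc (fun _ => -(r : ℤ)) (fun _ => (r : ℤ))

theorem mem_box_iff (x : V d) (r : ℕ) : x ∈ box d r ↔ ‖x‖ ≤ (r : ℝ) := by
  unfold box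
  rw [Finset.mem_Icc, pi_norm_le_iff_of_nonneg (Nat.cast_nonneg r)]
  simp only [Int.norm_eq_abs]
  constructor
  · rintro ⟨h1, h2⟩ i
    have h3 := h1 i
    have h4 := h2 i
    have h5 : |x i| ≤ (r : ℤ) := abs_le.2 ⟨h3, h4⟩
    exact_mod_cast h5
  · intro h
    have h5 : ∀ i, |x i| ≤ (r : ℤ) := fun i => by exact_mod_cast h i
    exact ⟨fun i => (abs_le.1 (h5 i)).1, fun i => (abs_le.1 (h5 i)).2⟩

theorem norm_le_n1 (x : V d) : ‖x‖ ≤ ((n1 x : ℤ) : ℝ) := by
  rw [pi_norm_le_iff_of_nonneg (by exact_mod_cast n1_nonneg x)]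
  intro i
  rw [Int.norm_eq_abs]
  have h : |x i| ≤ n1 x := Finset.single_le_sum (f := fun i => |x i|) (fun i _ => abs_nonneg _)
    (Finset.mem_univ i)
  exact_mod_cast h

/-- The cutoff function. -/
noncomputable def cut (a h : ℕ) (x : V d) : ℝ := max 0 (min 1 (((a : ℝ) + h - ‖x‖) / h))

theorem cut_nonneg (a h : ℕ) (x : V d) : 0 ≤ cut a h x := le_max_left _ _

theorem cut_le_one (a h : ℕ) (x : V d) : cut a h x ≤ 1 :=
  max_le zero_le_one (min_le_left _ _)

theorem cut_eq_one {a h : ℕ} (hh : 0 < h) {x : V d} (hx : x ∈ box d a) : cut a h x = 1 := by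
  rw [mem_box_iff] at hx
  have hh' : (0 : ℝ) < h := by exact_mod_cast hh
  have h1 : 1 ≤ ((a : ℝ) + h - ‖x‖) / h := by
    rw [le_div_iff₀ hh']
    linarith
  unfold cut
  rw [min_eq_left h1, max_eq_right zero_le_one]

theorem cut_eq_zero {a h : ℕ} (hh : 0 < h) {x : V d} (hx : x ∉ box d (a + h)) : cut a h x = 0 := by
  rw [mem_box_iff] at hx
  push Not at hx
  push_cast at hx
  have hh' : (0 : ℝ) < h := by exact_mod_cast hh
  have h1 : ((a : ℝ) + h - ‖x‖) / h ≤ 0 := by
    apply div_nonpos_of_nonpos_of_nonneg _ hh'.le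
    linarith
  unfold cut
  apply max_eq_left
  exact (min_le_right _ _).trans h1

theorem cut_lip {a h : ℕ} (hh : 0 < h) (x y : V d) :
    |cut a h x - cut a h y| ≤ ((n1 (y - x) : ℤ) : ℝ) / h := by
  have hh' : (0 : ℝ) < h := by exact_mod_cast hh
  unfold cut
  have h1 : |max 0 (min 1 (((a : ℝ) + h - ‖x‖) / h)) - max 0 (min 1 (((a : ℝ) + h - ‖y‖) / h))| ≤
      |min 1 (((a : ℝ) + h - ‖x‖) / h) - min 1 (((a : ℝ) + h - ‖y‖) / h)| := by
    rw [max_comm 0, max_comm 0]
    exact abs_max_sub_max_le_abs _ _ _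
  have h2 : |min 1 (((a : ℝ) + h - ‖x‖) / h) - min 1 (((a : ℝ) + h - ‖y‖) / h)| ≤
      |((a : ℝ) + h - ‖x‖) / h - ((a : ℝ) + h - ‖y‖) / h| := by
    refine (abs_min_sub_min_le_max _ _ _ _).trans ?_
    rw [sub_self, abs_zero, max_eq_right (abs_nonneg _)]
  refine h1.trans (h2.trans ?_)
  have h3 : ((a : ℝ) + h - ‖x‖) / h - ((a : ℝ) + h - ‖y‖) / h = (‖y‖ - ‖x‖) / h := by ring
  rw [h3, abs_div, abs_of_pos hh']
  apply div_le_div_of_nonneg_right _ hh'.le
  exact (abs_norm_sub_norm_le y x).trans (norm_le_n1 _)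

/-- Second moment of the jumps, quenched. -/
noncomputable def XX (ω : Env d) (x : V d) : ℝ≥0∞ :=
  ∑' y, ENNReal.ofReal ((cond ω).c x y) * ENNReal.ofReal (((n1 (y - x) : ℤ) : ℝ) ^ 2)

/-- The tail of the second moment. -/
noncomputable def tailM (m : Model d) (h : ℕ) : ℝ≥0∞ :=
  ∑' z : V d, if (h : ℤ) < n1 z then ENNReal.ofReal (m.p z) * ENNReal.ofReal (((n1 z : ℤ) : ℝ) ^ 2) else 0

/-- The deviation of the exit probability. -/
noncomputable def vv (D : Finset (V d)) (lam : ℝ) (ω : Env d) (x : V d) : ℝ :=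
  1 - (cond ω).res (D : Set (V d)) lam (fun _ => (1 : ℝ)) x

theorem measurable_vv (hd : 0 < d) (D : Finset (V d)) {lam : ℝ} (hl : 0 < lam) (x : V d) :
    Measurable (fun ω : Env d => vv D lam ω x) :=
  (measurable_res hd _ hl Cond.norm_one_le x).const_sub 1

theorem vv_bounds (hd : 0 < d) (D : Finset (V d)) {lam : ℝ} (hl : 0 < lam) (ω : Env d) (x : V d) :
    0 ≤ vv D lam ω x ∧ vv D lam ω x ≤ 1 := by
  unfold vv
  have h1 := (cond ω).res_nonneg hd (D : Set (V d)) hl (f := fun _ => (1 : ℝ))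
    (fun _ => zero_le_one) x
  have h2 := (le_abs_self _).trans ((cond ω).norm_res_le hd (D : Set (V d)) hl Cond.norm_one_le x)
  constructor <;> linarith

theorem measurable_XX (x : V d) : Measurable (fun ω : Env d => XX ω x) := by
  unfold XX
  exact Measurable.tsum fun y => (measurable_c x y).ennreal_ofReal.mul_const _

/-- Pointwise bound of the right hand side of the Caccioppoli inequality. -/
theorem cacc_rhs_pt (hd : 0 < d) (D : Finset (V d)) {lam : ℝ} (hl : 0 < lam) {a h : ℕ} (hh : 0 < h)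
    (ω : Env d) (x : V d) :
    ENNReal.ofReal (vv D lam ω x ^ 2) *
        ∑' y, ENNReal.ofReal ((cond ω).c x y) * ENNReal.ofReal ((cut a h x - cut a h y) ^ 2) ≤
      (if x ∈ box d (a + 2 * h) then ENNReal.ofReal (1 / (h : ℝ) ^ 2) *
        (ENNReal.ofReal (vv D lam ω x ^ 2) * XX ω x) else 0) +
      ∑' y, (if y ∈ box d (a + h) then (if (h : ℤ) < n1 (y - x) then
        ENNReal.ofReal (1 / (h : ℝ) ^ 2) * (ENNReal.ofReal ((cond ω).c x y) *
          ENNReal.ofReal (((n1 (y - x) : ℤ) : ℝ) ^ 2)) else 0) else 0) := by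
  have hh' : (0 : ℝ) < h := by exact_mod_cast hh
  have hlip : ∀ y, ENNReal.ofReal ((cut a h x - cut a h y) ^ 2) ≤
      ENNReal.ofReal (1 / (h : ℝ) ^ 2) * ENNReal.ofReal (((n1 (y - x) : ℤ) : ℝ) ^ 2) := by
    intro y
    rw [← ENNReal.ofReal_mul (by positivity)]
    apply ENNReal.ofReal_le_ofReal
    have h1 := cut_lip (a := a) hh x y
    have h2 := pow_le_pow_left₀ (abs_nonneg _) h1 2
    rw [sq_abs] at h2
    refine h2.trans (le_of_eq ?_)
    ring
  by_cases hx : x ∈ box d (a + 2 * h)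
  · rw [if_pos hx]
    refine le_trans ?_ le_self_add
    have h1 : ∑' y, ENNReal.ofReal ((cond ω).c x y) * ENNReal.ofReal ((cut a h x - cut a h y) ^ 2) ≤
        ENNReal.ofReal (1 / (h : ℝ) ^ 2) * XX ω x := by
      unfold XX
      rw [← ENNReal.tsum_mul_left]
      apply ENNReal.tsum_le_tsum
      intro y
      calc ENNReal.ofReal ((cond ω).c x y) * ENNReal.ofReal ((cut a h x - cut a h y) ^ 2) ≤
          ENNReal.ofReal ((cond ω).c x y) * (ENNReal.ofReal (1 / (h : ℝ) ^ 2) *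
            ENNReal.ofReal (((n1 (y - x) : ℤ) : ℝ) ^ 2)) := mul_le_mul_right (hlip y) _
        _ = _ := by ring
    calc _ ≤ ENNReal.ofReal (vv D lam ω x ^ 2) * (ENNReal.ofReal (1 / (h : ℝ) ^ 2) * XX ω x) :=
          mul_le_mul_right h1 _
      _ = _ := by ring
  · rw [if_neg hx, zero_add]
    have hv := vv_bounds hd D hl ω x
    have hv1 : ENNReal.ofReal (vv D lam ω x ^ 2) ≤ 1 := by
      rw [← ENNReal.ofReal_one]
      apply ENNReal.ofReal_le_ofReal
      nlinarith [hv.1, hv.2]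
    refine (mul_le_mul_left hv1 _).trans ?_
    rw [one_mul]
    apply ENNReal.tsum_le_tsum
    intro y
    have hx0 : cut a h x = 0 := cut_eq_zero hh (by
      intro hx2
      apply hx
      rw [mem_box_iff] at hx2 ⊢
      push_cast at hx2 ⊢
      linarith)
    by_cases hy : y ∈ box d (a + h)
    · have hn : (h : ℤ) < n1 (y - x) := by
        rw [mem_box_iff] at hx hy
        push Not at hx
        push_cast at hx hy
        have h1 := abs_norm_sub_norm_le y x
        have h2 := (neg_le_abs (‖y‖ - ‖x‖)).trans (h1.trans (norm_le_n1 (y - x)))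
        have h3 : (h : ℝ) < ((n1 (y - x) : ℤ) : ℝ) := by linarith
        exact_mod_cast h3
      rw [if_pos hy, if_pos hn]
      calc ENNReal.ofReal ((cond ω).c x y) * ENNReal.ofReal ((cut a h x - cut a h y) ^ 2) ≤
          ENNReal.ofReal ((cond ω).c x y) * (ENNReal.ofReal (1 / (h : ℝ) ^ 2) *
            ENNReal.ofReal (((n1 (y - x) : ℤ) : ℝ) ^ 2)) := mul_le_mul_right (hlip y) _
        _ = _ := by ring
    · rw [if_neg hy, hx0, cut_eq_zero hh hy]
      simp

/-- The annealed Caccioppoli step. -/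
theorem cacc_ann (hd : 0 < d) (m : Model d) {lam : ℝ} (hl : 0 < lam) {a h r : ℕ} (hh : 0 < h)
    (har : a + 2 * h ≤ 2 * r) :
    ENNReal.ofReal lam * ∑ x ∈ box d a, ∫⁻ ω, ENNReal.ofReal (vv (box d (2 * r)) lam ω x ^ 2) ∂m.μ ≤
      ENNReal.ofReal (1 / (h : ℝ) ^ 2) *
        (∑ x ∈ box d (a + 2 * h), ∫⁻ ω, ENNReal.ofReal (vv (box d (2 * r)) lam ω x ^ 2) * XX ω x ∂m.μ +
          (box d (2 * r)).card * tailM m h) := by
  classical
  set D := box d (2 * r) with hD
  have hsub : ∀ s t : ℕ, s ≤ t → box d s ⊆ box d t := by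
    intro s t hst x hx
    rw [mem_box_iff] at hx ⊢
    exact hx.trans (by exact_mod_cast hst)
  have hvm : ∀ x, Measurable (fun ω : Env d => ENNReal.ofReal (vv D lam ω x ^ 2)) := fun x =>
    ((measurable_vv hd D hl x).pow_const 2).ennreal_ofReal
  have hη : ∀ x, x ∉ D → cut a h x = 0 := fun x hx => cut_eq_zero hh fun h' =>
    hx (hsub _ _ (by omega) h')
  have h1 : ∀ ω : Env d, ENNReal.ofReal lam * ∑ x ∈ box d a, ENNReal.ofReal (vv D lam ω x ^ 2) ≤
      ∑' x, ((if x ∈ box d (a + 2 * h) then ENNReal.ofReal (1 / (h : ℝ) ^ 2) *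
        (ENNReal.ofReal (vv D lam ω x ^ 2) * XX ω x) else 0) +
      ∑' y, (if y ∈ box d (a + h) then (if (h : ℤ) < n1 (y - x) then
        ENNReal.ofReal (1 / (h : ℝ) ^ 2) * (ENNReal.ofReal ((cond ω).c x y) *
          ENNReal.ofReal (((n1 (y - x) : ℤ) : ℝ) ^ 2)) else 0) else 0)) := by
    intro ω
    refine le_trans ?_ (((cond ω).cacc hd D hl (cut a h) hη).trans
      (ENNReal.tsum_le_tsum fun x => cacc_rhs_pt hd D hl hh ω x))
    apply mul_le_mul_right
    refine le_trans (le_of_eq ?_) (Finset.sum_le_sum_of_subset_of_nonneg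
      (hsub a (2 * r) (by omega)) (fun _ _ _ => zero_le))
    apply Finset.sum_congr rfl
    intro x hx
    rw [cut_eq_one hh hx, one_pow, one_mul]
    rfl
  have hcm : ∀ x y, Measurable (fun ω : Env d => (if y ∈ box d (a + h) then (if (h : ℤ) < n1 (y - x) then
        ENNReal.ofReal (1 / (h : ℝ) ^ 2) * (ENNReal.ofReal ((cond ω).c x y) *
          ENNReal.ofReal (((n1 (y - x) : ℤ) : ℝ) ^ 2)) else 0) else 0)) := by
    intro x y
    split_ifs
    · exact ((measurable_c x y).ennreal_ofReal.mul_const _).const_mul _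
    · exact measurable_const
    · exact measurable_const
  have hfm : ∀ x, Measurable (fun ω : Env d => (if x ∈ box d (a + 2 * h) then
      ENNReal.ofReal (1 / (h : ℝ) ^ 2) * (ENNReal.ofReal (vv D lam ω x ^ 2) * XX ω x) else 0)) := by
    intro x
    split_ifs
    · exact ((hvm x).mul (measurable_XX x)).const_mul _
    · exact measurable_const
  have hsm : ∀ x, Measurable (fun ω : Env d => ((if x ∈ box d (a + 2 * h) then
      ENNReal.ofReal (1 / (h : ℝ) ^ 2) * (ENNReal.ofReal (vv D lam ω x ^ 2) * XX ω x) else 0) +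
      ∑' y, (if y ∈ box d (a + h) then (if (h : ℤ) < n1 (y - x) then
        ENNReal.ofReal (1 / (h : ℝ) ^ 2) * (ENNReal.ofReal ((cond ω).c x y) *
          ENNReal.ofReal (((n1 (y - x) : ℤ) : ℝ) ^ 2)) else 0) else 0))) := fun x =>
    (hfm x).add (Measurable.tsum fun y => hcm x y)
  have h2 := lintegral_mono (μ := m.μ) h1
  rw [lintegral_const_mul _ (Finset.measurable_fun_sum _ fun x _ => hvm x),
    lintegral_finsetSum _ (fun x _ => hvm x),
    lintegral_tsum (fun x => (hsm x).aemeasurable)] at h2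
  refine h2.trans ?_
  have h3 : ∀ x, ∫⁻ ω, ((if x ∈ box d (a + 2 * h) then ENNReal.ofReal (1 / (h : ℝ) ^ 2) *
        (ENNReal.ofReal (vv D lam ω x ^ 2) * XX ω x) else 0) +
      ∑' y, (if y ∈ box d (a + h) then (if (h : ℤ) < n1 (y - x) then
        ENNReal.ofReal (1 / (h : ℝ) ^ 2) * (ENNReal.ofReal ((cond ω).c x y) *
          ENNReal.ofReal (((n1 (y - x) : ℤ) : ℝ) ^ 2)) else 0) else 0)) ∂m.μ =
      (if x ∈ box d (a + 2 * h) then ENNReal.ofReal (1 / (h : ℝ) ^ 2) *
        ∫⁻ ω, (ENNReal.ofReal (vv D lam ω x ^ 2) * XX ω x) ∂m.μ else 0) +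
      ∑' y, (if y ∈ box d (a + h) then (if (h : ℤ) < n1 (y - x) then
        ENNReal.ofReal (1 / (h : ℝ) ^ 2) * (ENNReal.ofReal (m.p (y - x)) *
          ENNReal.ofReal (((n1 (y - x) : ℤ) : ℝ) ^ 2)) else 0) else 0) := by
    intro x
    rw [lintegral_add_left (hfm x), lintegral_tsum (fun y => (hcm x y).aemeasurable)]
    congr 1
    · split_ifs
      · exact lintegral_const_mul _ ((hvm x).mul (measurable_XX x))
      · simp
    · congr 1
      ext y
      split_ifs
      · rw [lintegral_const_mul _ ((measurable_c x y).ennreal_ofReal.mul_const _),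
          lintegral_mul_const _ (measurable_c x y).ennreal_ofReal, m.lint_c]
      · simp
      · simp
  simp_rw [h3]
  rw [ENNReal.tsum_add, mul_add]
  apply add_le_add
  · apply le_of_eq
    rw [tsum_eq_sum (s := box d (a + 2 * h)) (fun x hx => if_neg hx), Finset.mul_sum]
    exact Finset.sum_congr rfl fun x hx => if_pos hx
  · rw [ENNReal.tsum_comm]
    have h4 : ∀ y, ∑' x, (if y ∈ box d (a + h) then (if (h : ℤ) < n1 (y - x) then
        ENNReal.ofReal (1 / (h : ℝ) ^ 2) * (ENNReal.ofReal (m.p (y - x)) *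
          ENNReal.ofReal (((n1 (y - x) : ℤ) : ℝ) ^ 2)) else 0) else 0) =
        if y ∈ box d (a + h) then ENNReal.ofReal (1 / (h : ℝ) ^ 2) * tailM m h else 0 := by
      intro y
      by_cases hy : y ∈ box d (a + h)
      · simp only [hy, if_true]
        unfold tailM
        rw [← ENNReal.tsum_mul_left, ← (Equiv.subLeft y).tsum_eq]
        congr 1
        ext z
        simp only [Equiv.subLeft_apply, sub_sub_cancel]
        split_ifs
        · rfl
        · rw [mul_zero]
      · simp [hy]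
    simp_rw [h4]
    rw [tsum_eq_sum (s := box d (a + h)) (fun x hx => if_neg hx),
      Finset.sum_congr rfl (fun x hx => if_pos hx), Finset.sum_const, nsmul_eq_mul]
    have h5 : (((box d (a + h)).card : ℕ) : ℝ≥0∞) ≤ ((D.card : ℕ) : ℝ≥0∞) := by
      exact_mod_cast Finset.card_le_card (hsub _ _ (by omega))
    calc ((box d (a + h)).card : ℝ≥0∞) * (ENNReal.ofReal (1 / (h : ℝ) ^ 2) * tailM m h) ≤
        (D.card : ℝ≥0∞) * (ENNReal.ofReal (1 / (h : ℝ) ^ 2) * tailM m h) := mul_le_mul_left h5 _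
      _ = _ := by ring

end Pool.Agent.Lib.QIP
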