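import Pool.Agent.Lib.QIP.FddPath

/-!
# Auxiliary estimates for the convergence of finite dimensional distributions
-/

set_option autoImplicit false

open MeasureTheory ProbabilityTheory Filter
open scoped ENNReal NNReal Topology BigOperators

namespace Pool.Agent.Lib.QIP

theorem abs_prod_sub_prod_le {ι : Type*} (s : Finset ι) (a b : ι → ℝ)
    (ha : ∀ i, 0 ≤ a i ∧ a i ≤ 1) (hb : ∀ i, 0 ≤ b i ∧ b i ≤ 1) :
    |∏ i ∈ s, a i - ∏ i ∈ s, b i| ≤ ∑ i ∈ s, |a i - b i| := by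
  classical
  induction s using Finset.induction_on with
  | empty => simp
  | insert i s hi ih =>
    rw [Finset.prod_insert hi, Finset.prod_insert hi, Finset.sum_insert hi]
    have h1 : 0 ≤ ∏ j ∈ s, a j ∧ ∏ j ∈ s, a j ≤ 1 :=
      ⟨Finset.prod_nonneg fun j _ => (ha j).1, Finset.prod_le_one (fun j _ => (ha j).1)
        (fun j _ => (ha j).2)⟩
    have h2 : a i * ∏ j ∈ s, a j - b i * ∏ j ∈ s, b j =
        (a i - b i) * ∏ j ∈ s, a j + b i * (∏ j ∈ s, a j - ∏ j ∈ s, b j) := by ring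
    rw [h2]
    refine (abs_add_le _ _).trans ?_
    rw [abs_mul, abs_mul, abs_of_nonneg h1.1, abs_of_nonneg (hb i).1]
    have h3 : |a i - b i| * ∏ j ∈ s, a j ≤ |a i - b i| := mul_le_of_le_one_right (abs_nonneg _) h1.2
    have h4 : b i * |∏ j ∈ s, a j - ∏ j ∈ s, b j| ≤ |∏ j ∈ s, a j - ∏ j ∈ s, b j| :=
      mul_le_of_le_one_left (abs_nonneg _) (hb i).2
    linarith

theorem fac_close {u : ℝ} (hu : 0 ≤ u) : |1 / (1 + u) - Real.exp (-u)| ≤ u ^ 2 := by
  have h1 : 1 - u ≤ Real.exp (-u) := by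
    have := Real.add_one_le_exp (-u); linarith
  have h2 : Real.exp (-u) ≤ 1 / (1 + u) := by
    rw [Real.exp_neg, ← one_div]
    apply one_div_le_one_div_of_le (by linarith)
    have := Real.add_one_le_exp u; linarith
  have h3 : 1 / (1 + u) ≤ 1 - u + u ^ 2 := by
    rw [div_le_iff₀ (by linarith)]
    nlinarith [pow_nonneg hu 3]
  rw [abs_of_nonneg (by linarith)]
  linarith

theorem prod_limit {ι : Type*} (s : Finset ι) (q : ι → ℝ) (hq : ∀ i, 0 ≤ q i) {N : ℝ} (hN : 0 < N) :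
    |∏ i ∈ s, (N / (N + q i / 2)) - Real.exp (-(∑ i ∈ s, q i) / (2 * N))| ≤
      ∑ i ∈ s, (q i / (2 * N)) ^ 2 := by
  have h1 : Real.exp (-(∑ i ∈ s, q i) / (2 * N)) = ∏ i ∈ s, Real.exp (-(q i / (2 * N))) := by
    rw [← Real.exp_sum]
    congr 1
    rw [Finset.sum_neg_distrib, ← Finset.sum_div]
    ring
  have h2 : ∀ i, N / (N + q i / 2) = 1 / (1 + q i / (2 * N)) := by
    intro i
    have : N + q i / 2 ≠ 0 := by have := hq i; positivity
    have h3 : 1 + q i / (2 * N) ≠ 0 := by have := hq i; positivity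
    field_simp
  have hu : ∀ i, 0 ≤ q i / (2 * N) := fun i => div_nonneg (hq i) (by linarith)
  rw [h1]
  simp_rw [h2]
  refine (abs_prod_sub_prod_le s _ _ ?_ ?_).trans (Finset.sum_le_sum fun i _ => fac_close (hu i))
  · intro i
    refine ⟨by have := hu i; positivity, ?_⟩
    rw [div_le_one (by have := hu i; positivity)]
    linarith [hu i]
  · intro i
    exact ⟨(Real.exp_pos _).le, Real.exp_le_one_iff.2 (by linarith [hu i])⟩

theorem norm_exp_sub_exp_le (a b : ℝ) :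
    ‖Complex.exp (Complex.I * (a : ℂ)) - Complex.exp (Complex.I * (b : ℂ))‖ ≤ |a - b| := by
  have h1 : Complex.exp (Complex.I * (a : ℂ)) - Complex.exp (Complex.I * (b : ℂ)) =
      Complex.exp (Complex.I * (b : ℂ)) * (Complex.exp (Complex.I * ((a - b : ℝ) : ℂ)) - 1) := by
    rw [mul_sub, mul_one, ← Complex.exp_add]
    congr 2
    push_cast; ring
  have h2 : ‖Complex.exp (Complex.I * (b : ℂ))‖ = 1 := by
    rw [mul_comm]; exact Complex.norm_exp_ofReal_mul_I _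
  rw [h1, norm_mul, h2, one_mul]
  exact Real.norm_exp_I_mul_ofReal_sub_one_le

theorem norm_exp_I (a : ℝ) : ‖Complex.exp (Complex.I * (a : ℂ))‖ = 1 := by
  rw [mul_comm]; exact Complex.norm_exp_ofReal_mul_I _

variable {d m : ℕ}

/-- the frequency in the `i`-th short time interval -/
def xi (N : Fin m → ℕ) (θ : Fin m → Fin d → ℚ) (i : ℕ) (a : Fin d) : ℚ :=
  ∑ j, if i < N j then θ j a else 0

theorem sum_ite_range {α : Type*} [AddCommMonoid α] (f : ℕ → α) {n M : ℕ} (h : n ≤ M) :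
    ∑ i : Fin M, (if (i : ℕ) < n then f i else 0) = ∑ i ∈ Finset.range n, f i := by
  rw [Fin.sum_univ_eq_sum_range (fun i => if i < n then f i else 0), ← Finset.sum_filter]
  congr 1
  ext i
  simp only [Finset.mem_filter, Finset.mem_range]
  omega

/-- telescoping -/
theorem prod_chr_eq (N : Fin m → ℕ) (θ : Fin m → Fin d → ℚ) {M : ℕ} (hM : ∀ j, N j ≤ M)
    (K : ℝ) (w : ℕ → V d) (κ : Fin M → ℕ) :
    ∏ i : Fin M, chr (fun a => (xi N θ i a : ℝ) / K) (w (0 + Sf κ (i + 1)) - w (0 + Sf κ i)) =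
      Complex.exp (Complex.I * ((∑ j, ∑ a, (θ j a : ℝ) *
        ((((w (Sf κ (N j)) a : ℤ) : ℝ) - ((w 0 a : ℤ) : ℝ)) / K) : ℝ) : ℂ)) := by
  unfold chr
  rw [← Complex.exp_sum]
  congr 1
  rw [← Finset.sum_mul, mul_comm, ← Complex.ofReal_sum]
  congr 2
  simp only [zero_add]
  have h1 : ∀ i : Fin M, (∑ a, (xi N θ i a : ℝ) / K *
      (((w (Sf κ (i + 1)) - w (Sf κ i)) a : ℤ) : ℝ)) =
      ∑ j, ∑ a, (if (i : ℕ) < N j then (θ j a : ℝ) *
        (((((w (Sf κ (i + 1)) a : ℤ) : ℝ)) / K) - ((w (Sf κ i) a : ℤ) : ℝ) / K) else 0) := by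
    intro i
    rw [Finset.sum_comm]
    apply Finset.sum_congr rfl
    intro a _
    unfold xi
    push_cast
    rw [Finset.sum_div, Finset.sum_mul]
    apply Finset.sum_congr rfl
    intro j _
    split_ifs
    · simp only [Pi.sub_apply, Int.cast_sub]
      ring
    · simp
  rw [Finset.sum_congr rfl (fun i _ => h1 i), Finset.sum_comm]
  apply Finset.sum_congr rfl
  intro j _
  rw [Finset.sum_comm]
  apply Finset.sum_congr rfl
  intro a _
  rw [sum_ite_range (fun i => (θ j a : ℝ) *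
        (((((w (Sf κ (i + 1)) a : ℤ) : ℝ)) / K) - ((w (Sf κ i) a : ℤ) : ℝ) / K)) (hM j),
    ← Finset.mul_sum, Finset.sum_range_sub (fun i => ((w (Sf κ i) a : ℤ) : ℝ) / K), Sf_zero]
  ring

/-- quadratic form of the frequencies -/
theorem quad_eq (N : Fin m → ℕ) (θ : Fin m → Fin d → ℚ) (S : Matrix (Fin d) (Fin d) ℝ) (i : ℕ) :
    (∑ a, ∑ b, (xi N θ i a : ℝ) * S a b * (xi N θ i b : ℝ)) =
      ∑ j, ∑ l, if i < min (N j) (N l) then
        (∑ a, ∑ b, (θ j a : ℝ) * S a b * (θ l b : ℝ)) else 0 := by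
  have h2 : ∀ a, (xi N θ i a : ℝ) = ∑ j, if i < N j then (θ j a : ℝ) else 0 := by
    intro a
    unfold xi
    rw [Rat.cast_sum]
    apply Finset.sum_congr rfl
    intro j _
    split_ifs <;> simp
  simp_rw [h2]
  have h3 : ∀ a b, (∑ j, if i < N j then (θ j a : ℝ) else 0) * S a b *
      (∑ l, if i < N l then (θ l b : ℝ) else 0) =
      ∑ j, ∑ l, if i < min (N j) (N l) then (θ j a : ℝ) * S a b * (θ l b : ℝ) else 0 := by
    intro a b
    rw [Finset.sum_mul, Finset.sum_mul]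
    apply Finset.sum_congr rfl
    intro j _
    rw [Finset.mul_sum]
    apply Finset.sum_congr rfl
    intro l _
    by_cases hj : i < N j <;> by_cases hl : i < N l <;> simp [hj, hl]
  simp_rw [h3]
  have h4 : ∀ a, ∑ b, ∑ j, ∑ l, (if i < min (N j) (N l) then
      (θ j a : ℝ) * S a b * (θ l b : ℝ) else 0) = ∑ j, ∑ l, ∑ b,
      (if i < min (N j) (N l) then (θ j a : ℝ) * S a b * (θ l b : ℝ) else 0) := by
    intro a
    rw [Finset.sum_comm]
    apply Finset.sum_congr rfl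
    intro j _
    rw [Finset.sum_comm]
  simp_rw [h4]
  rw [Finset.sum_comm]
  apply Finset.sum_congr rfl
  intro j _
  rw [Finset.sum_comm]
  apply Finset.sum_congr rfl
  intro l _
  split_ifs
  · rfl
  · simp

/-- quadratic form of the frequencies, summed -/
theorem sum_quad (N : Fin m → ℕ) (θ : Fin m → Fin d → ℚ) (S : Matrix (Fin d) (Fin d) ℝ) {M : ℕ}
    (hM : ∀ j, N j ≤ M) :
    ∑ i : Fin M, (∑ a, ∑ b, (xi N θ i a : ℝ) * S a b * (xi N θ i b : ℝ)) =
      ∑ j, ∑ l, (min (N j) (N l) : ℝ) * (∑ a, ∑ b, (θ j a : ℝ) * S a b * (θ l b : ℝ)) := by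
  rw [Finset.sum_congr rfl (fun (i : Fin M) _ => quad_eq N θ S i), Finset.sum_comm]
  apply Finset.sum_congr rfl
  intro j _
  rw [Finset.sum_comm]
  apply Finset.sum_congr rfl
  intro l _
  rw [sum_ite_range (fun _ => ∑ a, ∑ b, (θ j a : ℝ) * S a b * (θ l b : ℝ))
    ((min_le_left _ _).trans (hM j)), Finset.sum_const, Finset.card_range, nsmul_eq_mul]
  push_cast
  rfl

theorem quad_le (N : Fin m → ℕ) (θ : Fin m → Fin d → ℚ) (S : Matrix (Fin d) (Fin d) ℝ) (i : ℕ) :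
    (∑ a, ∑ b, (xi N θ i a : ℝ) * S a b * (xi N θ i b : ℝ)) ≤
      ∑ j, ∑ l, |∑ a, ∑ b, (θ j a : ℝ) * S a b * (θ l b : ℝ)| := by
  rw [quad_eq]
  refine Finset.sum_le_sum fun j _ => Finset.sum_le_sum fun l _ => ?_
  split_ifs
  · exact le_abs_self _
  · exact abs_nonneg _

theorem quad_nonneg {S : Matrix (Fin d) (Fin d) ℝ} (hS : S.PosDef) (v : Fin d → ℝ) :
    0 ≤ ∑ a, ∑ b, v a * S a b * v b := by
  have h := hS.posSemidef.re_dotProduct_nonneg v
  have h1 : RCLike.re (star v ⬝ᵥ S.mulVec v) = ∑ a, ∑ b, v a * S a b * v b := by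
    simp only [star_trivial, dotProduct, Matrix.mulVec, RCLike.re_to_real]
    apply Finset.sum_congr rfl
    intro a _
    rw [Finset.mul_sum]
    apply Finset.sum_congr rfl
    intro b _
    ring
  rwa [h1] at h

/-- common denominator -/
theorem exists_denom (t : Fin m → ℚ) (ht : ∀ j, 0 ≤ t j) :
    ∃ q : ℕ, 0 < q ∧ ∃ u : Fin m → ℕ, ∀ j, (t j : ℝ) * q = u j := by
  refine ⟨∏ j, (t j).den, Finset.prod_pos fun j _ => (t j).den_pos, ?_⟩
  have h : ∀ j, ∃ u : ℕ, (t j : ℝ) * ((∏ l, (t l).den : ℕ) : ℝ) = u := by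
    intro j
    obtain ⟨e, he⟩ := Finset.dvd_prod_of_mem (fun l => (t l).den) (Finset.mem_univ j)
    refine ⟨(t j).num.toNat * e, ?_⟩
    have h1 : ((t j).num.toNat : ℤ) = (t j).num := Int.toNat_of_nonneg (Rat.num_nonneg.2 (ht j))
    have h2 : (t j : ℝ) * (t j).den = (t j).num := by
      exact_mod_cast Rat.mul_den_eq_num (t j)
    have h3 : (((t j).num.toNat : ℕ) : ℝ) = ((t j).num : ℝ) := by exact_mod_cast h1
    rw [he]
    push_cast
    rw [← mul_assoc, h2, h3]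
  choose u hu using h
  exact ⟨u, hu⟩

end Pool.Agent.Lib.QIP
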