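import Pool.Agent.Lib.QIP.Walk
import Pool.Agent.Lib.QIP.Chr
import Pool.Agent.Lib.QIP.FddAux

/-!
# Chunk G: finite dimensional distributions from iterated resolvents (Erlang times)
-/

set_option autoImplicit false

open MeasureTheory ProbabilityTheory Filter
open scoped ENNReal NNReal Topology BigOperators

namespace Pool.Agent.Lib.QIP

variable {d : ℕ}

/-- Comparison of the path observed at the random times with the path observed at fixed times. -/
theorem erlang_close (hd : 0 < d) {C : Cond d} {ν : V d → Measure (ℕ → V d)} (hν : IsWalk C ν)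
    {m : ℕ} (θ : Fin m → Fin d → ℚ) {M : ℕ} (N T' : Fin m → ℕ) {lam : ℝ} (hlam : 0 < lam)
    {K n δ ε η T : ℝ} (hK : 0 < K) (hε : 0 ≤ ε) (hη : 0 ≤ η) (hn : 0 < n) (hδ : 0 < δ)
    (hT : ∀ j, (T' j : ℝ) ≤ T)
    (hT' : ∀ j, |(T' j : ℝ) - N j / lam| ≤ δ / 2 * n) (hM : ∀ j, N j ≤ M)
    (hosc : ν 0 {z | ∃ i j : ℕ, (i : ℝ) ≤ T ∧ i ≤ j ∧ (j : ℝ) ≤ i + δ * n ∧
        ε * K < ‖z j - z i‖} ≤ ENNReal.ofReal η) :
    ‖(∫ κ, ∫ w, ∏ i : Fin M, chr (fun a => (xi N θ i a : ℝ) / K)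
        (w (0 + Sf κ (i + 1)) - w (0 + Sf κ i)) ∂ν 0 ∂(geoM lam M)) -
      ∫ z, Complex.exp (Complex.I *
          ((∑ j, ∑ a, (θ j a : ℝ) * (((z (T' j) a : ℤ) : ℝ) / K) : ℝ) : ℂ)) ∂(ν 0)‖ ≤
      (∑ j, ∑ a, |(θ j a : ℝ)|) * ε + 2 * η +
        2 * ∑ j, N j * (1 / lam ^ 2 + 1 / lam) / (δ / 2 * n) ^ 2 := by
  have hp := hν.prob 0
  have hpM := isProb_geoM hlam M
  set Osc : Set (ℕ → V d) := {z | ∃ i j : ℕ, (i : ℝ) ≤ T ∧ i ≤ j ∧ (j : ℝ) ≤ i + δ * n ∧
        ε * K < ‖z j - z i‖} with hOsc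
  set O : Set (ℕ → V d) := toMeasurable (ν 0) Osc with hO
  have hOm : MeasurableSet O := measurableSet_toMeasurable _ _
  have hOsub : Osc ⊆ O := subset_toMeasurable _ _
  have hOle : (ν 0).real O ≤ η := by
    rw [measureReal_def, hO, measure_toMeasurable]
    exact ENNReal.toReal_le_of_le_ofReal hη hosc
  set Bad : Set (Fin M → ℕ) := {κ | ∃ j, δ / 2 * n ≤ |(Sf κ (N j) : ℝ) - N j / lam|} with hBad
  have hBadle : (geoM lam M).real Bad ≤ ∑ j, N j * (1 / lam ^ 2 + 1 / lam) / (δ / 2 * n) ^ 2 := by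
    have h1 : Bad = ⋃ j, {κ | δ / 2 * n ≤ |(Sf κ (N j) : ℝ) - N j / lam|} := by
      ext κ; simp [hBad]
    have h2 : geoM lam M Bad ≤ ENNReal.ofReal
        (∑ j, N j * (1 / lam ^ 2 + 1 / lam) / (δ / 2 * n) ^ 2) := by
      rw [h1, ENNReal.ofReal_sum_of_nonneg (fun j _ => by positivity)]
      refine (measure_iUnion_fintype_le _ _).trans (Finset.sum_le_sum fun j _ => ?_)
      exact Sf_dev hlam (hM j) (by positivity)
    rw [measureReal_def]
    exact ENNReal.toReal_le_of_le_ofReal (Finset.sum_nonneg fun j _ => by positivity) h2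
  set A : (ℕ → V d) → ℝ := fun z => ∑ j, ∑ a, (θ j a : ℝ) * (((z (T' j) a : ℤ) : ℝ) / K) with hA
  set B : (Fin M → ℕ) → (ℕ → V d) → ℝ := fun κ w => ∑ j, ∑ a, (θ j a : ℝ) *
        ((((w (Sf κ (N j)) a : ℤ) : ℝ) - ((w 0 a : ℤ) : ℝ)) / K) with hB
  have hmeas : ∀ (s : ℕ) (a : Fin d), Measurable (fun w : ℕ → V d => ((w s a : ℤ) : ℝ)) := by
    intro s a
    have h1 : Measurable (fun v : V d => ((v a : ℤ) : ℝ)) := measurable_of_countable _
    exact h1.comp (measurable_pi_apply s)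
  have hAm : Measurable A := by
    refine Finset.measurable_sum _ fun j _ => Finset.measurable_sum _ fun a _ => ?_
    exact ((hmeas _ _).div_const _).const_mul _
  have hBm : ∀ κ, Measurable (B κ) := by
    intro κ
    refine Finset.measurable_sum _ fun j _ => Finset.measurable_sum _ fun a _ => ?_
    exact (((hmeas _ _).sub (hmeas _ _)).div_const _).const_mul _
  have hexpm : ∀ {f : (ℕ → V d) → ℝ}, Measurable f →
      Measurable (fun w => Complex.exp (Complex.I * ((f w : ℝ) : ℂ))) := by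
    intro f hf
    exact Complex.measurable_exp.comp ((Complex.measurable_ofReal.comp hf).const_mul _)
  have hint : ∀ {f : (ℕ → V d) → ℝ}, Measurable f →
      Integrable (fun w => Complex.exp (Complex.I * ((f w : ℝ) : ℂ))) (ν 0) := by
    intro f hf
    exact Integrable.of_bound (C := 1) (hexpm hf).aestronglyMeasurable
      (ae_of_all _ fun w => (norm_exp_I _).le)
  have e1 : ∀ κ : Fin M → ℕ, (∫ w, ∏ i : Fin M, chr (fun a => (xi N θ i a : ℝ) / K)
        (w (0 + Sf κ (i + 1)) - w (0 + Sf κ i)) ∂ν 0) =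
        ∫ w, Complex.exp (Complex.I * ((B κ w : ℝ) : ℂ)) ∂ν 0 := by
    intro κ
    congr 1
    ext w
    exact prod_chr_eq N θ hM K w κ
  simp_rw [e1]
  have e2 : (∫ z, Complex.exp (Complex.I * ((A z : ℝ) : ℂ)) ∂(ν 0)) =
      ∫ κ, ∫ z, Complex.exp (Complex.I * ((A z : ℝ) : ℂ)) ∂(ν 0) ∂(geoM lam M) := by
    simp
  have hb1 : ∀ {f : (ℕ → V d) → ℝ}, ‖∫ w, Complex.exp (Complex.I * ((f w : ℝ) : ℂ)) ∂ν 0‖ ≤ 1 := by
    intro f
    refine (norm_integral_le_of_norm_le_const (C := 1) (ae_of_all _ fun w =>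
      (norm_exp_I _).le)).trans ?_
    simp
  rw [e2, ← integral_sub]
  · -- main estimate
    set Cθ : ℝ := ∑ j, ∑ a, |(θ j a : ℝ)| with hCθ
    have hCθ0 : 0 ≤ Cθ := Finset.sum_nonneg fun j _ => Finset.sum_nonneg fun a _ => abs_nonneg _
    have hg : ∀ κ, κ ∉ Bad → ‖(∫ w, Complex.exp (Complex.I * ((B κ w : ℝ) : ℂ)) ∂ν 0) -
        ∫ z, Complex.exp (Complex.I * ((A z : ℝ) : ℂ)) ∂(ν 0)‖ ≤ Cθ * ε + 2 * η := by
      intro κ hκ
      rw [← integral_sub (hint (hBm κ)) (hint hAm)]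
      have hgood : ∀ j, |(Sf κ (N j) : ℝ) - N j / lam| < δ / 2 * n := by
        intro j
        by_contra hcon
        exact hκ ⟨j, not_lt.1 hcon⟩
      have hpt : ∀ᵐ w ∂(ν 0), ‖Complex.exp (Complex.I * ((B κ w : ℝ) : ℂ)) -
          Complex.exp (Complex.I * ((A w : ℝ) : ℂ))‖ ≤ Cθ * ε + O.indicator (fun _ => (2 : ℝ)) w := by
        filter_upwards [hν.start hd 0] with w hw
        by_cases hwO : w ∈ O
        · rw [Set.indicator_of_mem hwO]
          have := norm_sub_le (Complex.exp (Complex.I * ((B κ w : ℝ) : ℂ)))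
            (Complex.exp (Complex.I * ((A w : ℝ) : ℂ)))
          rw [norm_exp_I, norm_exp_I] at this
          have h2 : 0 ≤ Cθ * ε := mul_nonneg hCθ0 hε
          linarith
        · rw [Set.indicator_of_notMem hwO, add_zero]
          refine (norm_exp_sub_exp_le _ _).trans ?_
          have hno : w ∉ Osc := fun h => hwO (hOsub h)
          have hdist : ∀ j, ‖w (Sf κ (N j)) - w (T' j)‖ ≤ ε * K := by
            intro j
            have h1 := hgood j
            have h2 := hT' j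
            have h3 := hT j
            rw [abs_lt] at h1
            rw [abs_le] at h2
            by_contra hcon
            push Not at hcon
            rcases le_total (Sf κ (N j)) (T' j) with hle | hle
            · apply hno
              refine ⟨Sf κ (N j), T' j, ?_, hle, ?_, ?_⟩
              · have : (Sf κ (N j) : ℝ) ≤ T' j := by exact_mod_cast hle
                linarith
              · linarith [h1.1, h2.2]
              · rw [norm_sub_rev]; exact hcon
            · apply hno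
              refine ⟨T' j, Sf κ (N j), h3, hle, ?_, hcon⟩
              linarith [h1.2, h2.1]
          have h1 : B κ w - A w = ∑ j, ∑ a, (θ j a : ℝ) *
              ((((w (Sf κ (N j)) a : ℤ) : ℝ) - ((w (T' j) a : ℤ) : ℝ)) / K) := by
            rw [hB, hA]
            simp only
            rw [← Finset.sum_sub_distrib]
            apply Finset.sum_congr rfl
            intro j _
            rw [← Finset.sum_sub_distrib]
            apply Finset.sum_congr rfl
            intro a _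
            rw [hw]
            simp
            ring
          rw [h1, hCθ, Finset.sum_mul]
          refine (Finset.abs_sum_le_sum_abs _ _).trans (Finset.sum_le_sum fun j _ => ?_)
          rw [Finset.sum_mul]
          refine (Finset.abs_sum_le_sum_abs _ _).trans (Finset.sum_le_sum fun a _ => ?_)
          rw [abs_mul]
          apply mul_le_mul_of_nonneg_left _ (abs_nonneg _)
          rw [abs_div, abs_of_pos hK, div_le_iff₀ hK]
          have h4 : |((w (Sf κ (N j)) a : ℤ) : ℝ) - ((w (T' j) a : ℤ) : ℝ)| =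
              ‖(w (Sf κ (N j)) - w (T' j)) a‖ := by
            rw [Pi.sub_apply, Int.norm_eq_abs]
            push_cast
            rfl
          rw [h4]
          exact (norm_le_pi_norm _ a).trans (hdist j)
      refine (norm_integral_le_of_norm_le ?_ hpt).trans ?_
      · exact (integrable_const _).add ((integrable_const _).indicator hOm)
      · rw [integral_add (integrable_const _) ((integrable_const _).indicator hOm),
          integral_indicator_const _ hOm]
        simp only [integral_const, probReal_univ, smul_eq_mul, one_mul]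
        linarith
    have hpt : ∀ κ, ‖(∫ w, Complex.exp (Complex.I * ((B κ w : ℝ) : ℂ)) ∂ν 0) -
        ∫ z, Complex.exp (Complex.I * ((A z : ℝ) : ℂ)) ∂(ν 0)‖ ≤
        (Cθ * ε + 2 * η) + Bad.indicator (fun _ => (2 : ℝ)) κ := by
      intro κ
      by_cases hκ : κ ∈ Bad
      · rw [Set.indicator_of_mem hκ]
        have h1 := norm_sub_le (∫ w, Complex.exp (Complex.I * ((B κ w : ℝ) : ℂ)) ∂ν 0)
          (∫ z, Complex.exp (Complex.I * ((A z : ℝ) : ℂ)) ∂(ν 0))
        have h2 := hb1 (f := B κ)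
        have h3 := hb1 (f := A)
        have h4 : 0 ≤ Cθ * ε := mul_nonneg hCθ0 hε
        linarith
      · rw [Set.indicator_of_notMem hκ, add_zero]
        exact hg κ hκ
    have hBadm : MeasurableSet Bad := MeasurableSet.of_discrete
    refine (norm_integral_le_of_norm_le ?_ (ae_of_all _ hpt)).trans ?_
    · exact (integrable_const _).add ((integrable_const _).indicator hBadm)
    · rw [integral_add (integrable_const _) ((integrable_const _).indicator hBadm),
        integral_indicator_const _ hBadm]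
      simp only [integral_const, probReal_univ, smul_eq_mul, one_mul]
      linarith
  · exact Integrable.of_bound (C := 1) StronglyMeasurable.of_discrete.aestronglyMeasurable
      (ae_of_all _ fun κ => hb1)
  · exact integrable_const _

/-- the iterated resolvent at the origin as a double expectation -/
theorem RR_eq_integral (hd : 0 < d) {C : Cond d} {ν : V d → Measure (ℕ → V d)} (hν : IsWalk C ν)
    {lam : ℝ} (hlam : 0 < lam) {M : ℕ} (ξ : Fin M → Fin d → ℝ) :
    RR C (List.ofFn fun i => (lam, ξ i)) 0 =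
      ∫ κ, ∫ w, ∏ i : Fin M, chr (ξ i) (w (0 + Sf κ (i + 1)) - w (0 + Sf κ i)) ∂ν 0
          ∂(geoM lam M) := by
  have hp := hν.prob 0
  have h1 := path_formula hd hν hlam 0 M ξ 0 (fun _ => 1) (fun _ _ _ => rfl) 1 (by simp)
  simp only [one_mul] at h1
  rw [← h1]
  have h2 : ∀ᵐ w ∂(ν 0), RR C (List.ofFn fun i => (lam, ξ i)) (w 0) =
      RR C (List.ofFn fun i => (lam, ξ i)) 0 := by
    filter_upwards [hν.start hd 0] with w hw
    rw [hw]
  rw [integral_congr_ae h2]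
  simp

theorem fdd_of_res (hd : 0 < d) {C : Cond d} {ν : V d → Measure (ℕ → V d)} (hν : IsWalk C ν)
    {S : Matrix (Fin d) (Fin d) ℝ} (hS : S.PosDef) (h : ResConv C S)
    (osc : ∀ T : ℕ, ∀ ε > (0 : ℝ), ∀ η > (0 : ℝ), ∃ δ > (0 : ℝ), ∀ᶠ k : ℕ in atTop,
      ν 0 {z | ∃ i j : ℕ, (i : ℝ) ≤ T * (k : ℝ) ^ 20 ∧ i ≤ j ∧ (j : ℝ) ≤ i + δ * (k : ℝ) ^ 20 ∧
        ε * (k : ℝ) ^ 10 < ‖z j - z i‖} ≤ ENNReal.ofReal η)
    (m : ℕ) (t : Fin m → ℚ) (θ : Fin m → Fin d → ℚ) (ht : ∀ j, 0 ≤ t j) :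
    Tendsto (fun k : ℕ => ∫ z, Complex.exp (Complex.I *
          ((∑ j, ∑ a, (θ j a : ℝ) * (((z ⌊(t j : ℝ) * (k : ℝ) ^ 20⌋₊ a : ℤ) : ℝ) / (k : ℝ) ^ 10)
            : ℝ) : ℂ)) ∂(ν 0)) atTop
        (nhds (Complex.exp (-((∑ j, ∑ l, min (t j : ℝ) (t l : ℝ) *
            (∑ a, ∑ b, (θ j a : ℝ) * S a b * (θ l b : ℝ)) : ℝ) : ℂ) / 2))) := by
  obtain ⟨q, hq, u, hu⟩ := exists_denom t ht
  have hq' : (0 : ℝ) < q := by exact_mod_cast hq
  have hq1 : (1 : ℝ) ≤ q := by exact_mod_cast hq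
  have htr : ∀ j, (0 : ℝ) ≤ t j := fun j => by exact_mod_cast ht j
  set τ : ℝ := ∑ j, (t j : ℝ) with hτ
  have hτ0 : 0 ≤ τ := Finset.sum_nonneg fun j _ => htr j
  set T : ℕ := ∑ j, u j with hT
  have htT : ∀ j, (t j : ℝ) ≤ T := by
    intro j
    have h1 : (t j : ℝ) ≤ t j * q := le_mul_of_one_le_right (htr j) hq1
    have h2 : (u j : ℝ) ≤ T := by
      exact_mod_cast Finset.single_le_sum (f := u) (fun _ _ => Nat.zero_le _) (Finset.mem_univ j)
    rw [hu j] at h1
    linarith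
  set A : ℝ := ∑ j, ∑ l, |∑ a, ∑ b, (θ j a : ℝ) * S a b * (θ l b : ℝ)| with hA
  have hA0 : 0 ≤ A := Finset.sum_nonneg fun j _ => Finset.sum_nonneg fun l _ => abs_nonneg _
  set Q : ℝ := ∑ j, ∑ l, min (t j : ℝ) (t l : ℝ) *
            (∑ a, ∑ b, (θ j a : ℝ) * S a b * (θ l b : ℝ)) with hQ
  set Cθ : ℝ := ∑ j, ∑ a, |(θ j a : ℝ)| with hCθ
  have hCθ0 : 0 ≤ Cθ := Finset.sum_nonneg fun j _ => Finset.sum_nonneg fun a _ => abs_nonneg _
  rw [Metric.tendsto_nhds]
  intro e he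
  -- oscillation
  obtain ⟨δ, hδ, hosc⟩ := osc T (e / (8 * (Cθ + 1))) (by positivity) (e / 32) (by positivity)
  -- choice of R
  obtain ⟨R, hR⟩ := exists_nat_gt ((16 * (8 * τ / δ ^ 2) + 8 * (τ * A ^ 2)) / e)
  have hR0 : (0 : ℝ) < R := lt_of_le_of_lt (by positivity) hR
  have hRn : 0 < R := by exact_mod_cast hR0
  have hR1 : (8 * τ / δ ^ 2) / R ≤ e / 16 := by
    rw [div_le_iff₀ hR0]
    rw [div_lt_iff₀ he] at hR
    have : 0 ≤ 8 * (τ * A ^ 2) := by positivity
    nlinarith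
  have hR2 : τ * A ^ 2 / (4 * R) ≤ e / 8 := by
    rw [div_le_iff₀ (by positivity)]
    rw [div_lt_iff₀ he] at hR
    have : 0 ≤ 16 * (8 * τ / δ ^ 2) := by positivity
    nlinarith
  set N : ℕ := q * R with hN
  have hN0 : (0 : ℝ) < N := by rw [hN]; push_cast; positivity
  have hRN : (R : ℝ) ≤ N := by
    rw [hN]; push_cast
    exact le_mul_of_one_le_left hR0.le hq1
  set Nj : Fin m → ℕ := fun j => u j * R with hNj
  set M : ℕ := ∑ j, Nj j with hM
  have hMj : ∀ j, Nj j ≤ M := fun j =>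
    Finset.single_le_sum (f := Nj) (fun _ _ => Nat.zero_le _) (Finset.mem_univ j)
  have hNt : ∀ j, (Nj j : ℝ) = t j * N := by
    intro j
    rw [hNj, hN]
    push_cast
    rw [← hu j]
    ring
  have hMτ : (M : ℝ) = τ * N := by
    rw [hM]
    push_cast
    rw [Finset.sum_congr rfl (fun j _ => hNt j), ← Finset.sum_mul]
  -- quadratic forms
  set qi : Fin M → ℝ := fun i => ∑ a, ∑ b, (xi Nj θ i a : ℝ) * S a b * (xi Nj θ i b : ℝ) with hqi
  have hqi0 : ∀ i, 0 ≤ qi i := fun i => quad_nonneg hS (fun a => (xi Nj θ i a : ℝ))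
  have hqiA : ∀ i, qi i ≤ A := fun i => quad_le Nj θ S i
  have hsumq : ∑ i, qi i = N * Q := by
    rw [hqi, hQ]
    rw [sum_quad Nj θ S hMj, Finset.mul_sum]
    apply Finset.sum_congr rfl
    intro j _
    rw [Finset.mul_sum]
    apply Finset.sum_congr rfl
    intro l _
    rw [hNt, hNt, ← min_mul_of_nonneg _ _ hN0.le]
    ring
  have hprod := prod_limit Finset.univ qi hqi0 hN0
  rw [hsumq] at hprod
  have hexpQ : -(N * Q) / (2 * (N : ℝ)) = -Q / 2 := by
    field_simp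
  rw [hexpQ] at hprod
  have hsq : ∑ i, (qi i / (2 * (N : ℝ))) ^ 2 ≤ e / 8 := by
    have h1 : ∀ i ∈ (Finset.univ : Finset (Fin M)), (qi i / (2 * (N : ℝ))) ^ 2 ≤
        (A / (2 * (N : ℝ))) ^ 2 := by
      intro i _
      apply pow_le_pow_left₀ (div_nonneg (hqi0 i) (by positivity))
      exact div_le_div_of_nonneg_right (hqiA i) (by positivity)
    have h2 := Finset.sum_le_sum h1
    rw [Finset.sum_const, Finset.card_univ, Fintype.card_fin, nsmul_eq_mul, hMτ] at h2
    refine h2.trans (le_trans ?_ hR2)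
    have h3 : τ * N * (A / (2 * (N : ℝ))) ^ 2 = τ * A ^ 2 / (4 * N) := by
      field_simp
      ring
    rw [h3]
    apply div_le_div_of_nonneg_left (by positivity) (by positivity)
    linarith
  -- resolvent convergence
  have hres := h (List.ofFn (fun i : Fin M => ((N : ℚ), fun a => xi Nj θ i a))) (by
    intro a ha
    rw [List.mem_ofFn] at ha
    obtain ⟨i, rfl⟩ := ha
    simp only
    have : 0 < N := by exact_mod_cast hN0
    exact_mod_cast this)
  rw [List.map_ofFn, List.prod_ofFn] at hres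
  simp only [List.map_ofFn, Function.comp_def] at hres
  have hlimeq : (∏ i : Fin M, ((((((N : ℚ)) : ℝ) / ((((N : ℚ)) : ℝ) +
        (∑ a, ∑ b, (xi Nj θ i a : ℝ) * S a b * (xi Nj θ i b : ℝ)) / 2) : ℝ)) : ℂ)) =
      ((∏ i : Fin M, ((N : ℝ) / (N + qi i / 2)) : ℝ) : ℂ) := by
    rw [Complex.ofReal_prod]
    apply Finset.prod_congr rfl
    intro i _
    rw [hqi]
    push_cast
    rfl
  rw [hlimeq] at hres
  have hres' := (Metric.tendsto_nhds.1 hres) (e / 8) (by positivity)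
  -- eventually
  have hk20 : Tendsto (fun k : ℕ => (k : ℝ) ^ 20) atTop atTop :=
    (tendsto_pow_atTop (by norm_num)).comp tendsto_natCast_atTop_atTop
  have hev1 : ∀ᶠ k : ℕ in atTop, 2 / δ ≤ (k : ℝ) ^ 20 := hk20.eventually_ge_atTop _
  have hev2 : ∀ᶠ k : ℕ in atTop, (16 * (8 * τ / δ ^ 2)) / e ≤ (k : ℝ) ^ 20 :=
    hk20.eventually_ge_atTop _
  filter_upwards [hres', hosc, hev1, hev2, eventually_ge_atTop 1] with k h1 h2 h3 h4 h5
  have hk0 : (0 : ℝ) < k := by exact_mod_cast h5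
  have hkn : (0 : ℝ) < (k : ℝ) ^ 20 := by positivity
  have hkK : (0 : ℝ) < (k : ℝ) ^ 10 := by positivity
  have hlam : 0 < (N : ℝ) / (k : ℝ) ^ 20 := by positivity
  have hNl : ∀ j, (Nj j : ℝ) / ((N : ℝ) / (k : ℝ) ^ 20) = t j * (k : ℝ) ^ 20 := by
    intro j
    rw [hNt]
    field_simp
  have hclose := erlang_close hd hν θ Nj (fun j => ⌊(t j : ℝ) * (k : ℝ) ^ 20⌋₊) hlam hkK
    (ε := e / (8 * (Cθ + 1))) (η := e / 32) (T := T * (k : ℝ) ^ 20) (δ := δ)
    (by positivity) (by positivity) hkn hδ (by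
      intro j
      refine (Nat.floor_le (mul_nonneg (htr j) hkn.le)).trans ?_
      exact mul_le_mul_of_nonneg_right (htT j) hkn.le) (by
      intro j
      rw [hNl]
      have h6 : (1 : ℝ) ≤ δ / 2 * (k : ℝ) ^ 20 := by
        rw [div_le_iff₀ hδ] at h3
        linarith
      have h7 := Nat.floor_le (mul_nonneg (htr j) hkn.le)
      have h8 := Nat.lt_floor_add_one ((t j : ℝ) * (k : ℝ) ^ 20)
      rw [abs_le]
      constructor <;> linarith) hMj h2
  rw [← RR_eq_integral hd hν hlam] at hclose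
  -- error terms
  have hE1 : Cθ * (e / (8 * (Cθ + 1))) ≤ e / 8 := by
    have h6 : Cθ * (e / (8 * (Cθ + 1))) = (Cθ / (Cθ + 1)) * (e / 8) := by
      field_simp
    rw [h6]
    apply mul_le_of_le_one_left (by positivity)
    rw [div_le_one (by positivity)]
    linarith
  have hE2 : 2 * ∑ j, (Nj j : ℝ) * (1 / ((N : ℝ) / (k : ℝ) ^ 20) ^ 2 +
      1 / ((N : ℝ) / (k : ℝ) ^ 20)) / (δ / 2 * (k : ℝ) ^ 20) ^ 2 ≤ e / 8 := by
    have h6 : ∀ j, (Nj j : ℝ) * (1 / ((N : ℝ) / (k : ℝ) ^ 20) ^ 2 +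
      1 / ((N : ℝ) / (k : ℝ) ^ 20)) / (δ / 2 * (k : ℝ) ^ 20) ^ 2 =
        (t j : ℝ) * ((4 / δ ^ 2) * (1 / N + 1 / (k : ℝ) ^ 20)) := by
      intro j
      rw [hNt]
      field_simp
      ring
    rw [Finset.sum_congr rfl (fun j _ => h6 j), ← Finset.sum_mul, ← hτ]
    have h7 : 2 * (τ * ((4 / δ ^ 2) * (1 / N + 1 / (k : ℝ) ^ 20))) =
        (8 * τ / δ ^ 2) / N + (8 * τ / δ ^ 2) / (k : ℝ) ^ 20 := by
      field_simp
      ring
    rw [h7]
    have h8 : (8 * τ / δ ^ 2) / N ≤ e / 16 := by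
      refine le_trans ?_ hR1
      exact div_le_div_of_nonneg_left (by positivity) hR0 hRN
    have h9 : (8 * τ / δ ^ 2) / (k : ℝ) ^ 20 ≤ e / 16 := by
      rw [div_le_iff₀ hkn]
      rw [div_le_iff₀ he] at h4
      linarith
    linarith
  rw [dist_eq_norm] at h1 ⊢
  have hcast : ((N : ℚ) : ℝ) = (N : ℝ) := by push_cast; rfl
  rw [hcast] at h1
  have hfin : ‖((∏ i : Fin M, ((N : ℝ) / (N + qi i / 2)) : ℝ) : ℂ) -
      Complex.exp (-((Q : ℝ) : ℂ) / 2)‖ ≤ e / 8 := by
    have h6 : Complex.exp (-((Q : ℝ) : ℂ) / 2) = ((Real.exp (-Q / 2) : ℝ) : ℂ) := by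
      push_cast
      rfl
    rw [h6, ← Complex.ofReal_sub, Complex.norm_real]
    exact hprod.trans hsq
  set X := RR C (List.ofFn fun i : Fin M => ((N : ℝ) / (k : ℝ) ^ 20,
    fun a => (xi Nj θ i a : ℝ) / (k : ℝ) ^ 10)) 0 with hX
  set Y := ∫ z, Complex.exp (Complex.I *
          ((∑ j, ∑ a, (θ j a : ℝ) * (((z ⌊(t j : ℝ) * (k : ℝ) ^ 20⌋₊ a : ℤ) : ℝ) / (k : ℝ) ^ 10)
            : ℝ) : ℂ)) ∂(ν 0) with hY
  set Z := ((∏ i : Fin M, ((N : ℝ) / (N + qi i / 2)) : ℝ) : ℂ) with hZ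
  calc ‖Y - Complex.exp (-((Q : ℝ) : ℂ) / 2)‖
      = ‖-(X - Y) + (X - Z) + (Z - Complex.exp (-((Q : ℝ) : ℂ) / 2))‖ := by congr 1; ring
    _ ≤ ‖X - Y‖ + ‖X - Z‖ + ‖Z - Complex.exp (-((Q : ℝ) : ℂ) / 2)‖ := by
        refine (norm_add_le _ _).trans ?_
        have := norm_add_le (-(X - Y)) (X - Z)
        rw [norm_neg] at this
        linarith
    _ < e := by
        have h10 : ‖X - Y‖ ≤ e / 8 + 2 * (e / 32) + e / 8 := by
          refine hclose.trans ?_
          linarith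
        linarith

end Pool.Agent.Lib.QIP
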