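import Pool.Agent.Lib.QIP.Resolvent

/-!
# Geometric times: law, mean, variance; sums of independent geometric times
-/

set_option autoImplicit false

open MeasureTheory ProbabilityTheory Filter
open scoped ENNReal NNReal Topology BigOperators

namespace Pool.Agent.Lib.QIP

open Cond (sv sv_pos sv_lt_one hasSum_geo one_sub_sv)

/-- weights of the geometric law -/
noncomputable def gw (lam : ℝ) (k : ℕ) : ℝ := (1 - sv lam) * sv lam ^ k

theorem gw_nonneg {lam : ℝ} (h : 0 < lam) (k : ℕ) : 0 ≤ gw lam k :=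
  mul_nonneg (by linarith [sv_lt_one h]) (pow_nonneg (sv_pos h).le _)

theorem hasSum_gw {lam : ℝ} (h : 0 < lam) : HasSum (gw lam) 1 := hasSum_geo h

/-- The geometric law on `ℕ` with parameter `lam / (1 + lam)`. -/
noncomputable def geo (lam : ℝ) : Measure ℕ :=
  Measure.sum (fun k => ENNReal.ofReal (gw lam k) • Measure.dirac k)

theorem geo_singleton (lam : ℝ) (k : ℕ) : geo lam {k} = ENNReal.ofReal (gw lam k) := by
  unfold geo
  rw [Measure.sum_apply _ (measurableSet_singleton k), tsum_eq_single k]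
  · simp
  · intro j hj
    simp [hj]

theorem isProb_geo {lam : ℝ} (h : 0 < lam) : IsProbabilityMeasure (geo lam) := by
  constructor
  unfold geo
  rw [Measure.sum_apply _ MeasurableSet.univ]
  simp only [Measure.smul_apply, measure_univ, smul_eq_mul, mul_one]
  rw [← ENNReal.ofReal_tsum_of_nonneg (gw_nonneg h) (hasSum_gw h).summable, (hasSum_gw h).tsum_eq,
    ENNReal.ofReal_one]

theorem integral_geo {E : Type*} [NormedAddCommGroup E] [NormedSpace ℝ E] [CompleteSpace E]
    {lam : ℝ} (h : 0 < lam) {f : ℕ → E} (hf : Integrable f (geo lam)) :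
    ∫ k, f k ∂(geo lam) = ∑' k, gw lam k • f k := by
  rw [integral_countable hf]
  congr 1
  ext k
  rw [measureReal_def, geo_singleton, ENNReal.toReal_ofReal (gw_nonneg h k)]

theorem integrable_geo {E : Type*} [NormedAddCommGroup E]
    {lam : ℝ} (h : 0 < lam) {f : ℕ → E} (hf : Summable (fun k => gw lam k * ‖f k‖)) :
    Integrable f (geo lam) := by
  refine ⟨StronglyMeasurable.of_discrete.aestronglyMeasurable, ?_⟩
  rw [HasFiniteIntegral, lintegral_countable']
  have h1 : ∀ k, ‖f k‖ₑ * geo lam {k} = ENNReal.ofReal (gw lam k * ‖f k‖) := by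
    intro k
    rw [geo_singleton, ENNReal.ofReal_mul (gw_nonneg h k), ofReal_norm, mul_comm]
  simp_rw [h1]
  rw [← ENNReal.ofReal_tsum_of_nonneg (fun k => mul_nonneg (gw_nonneg h k) (norm_nonneg _)) hf]
  exact ENNReal.ofReal_lt_top

theorem hasSum_gw_mul {lam : ℝ} (h : 0 < lam) :
    HasSum (fun k : ℕ => gw lam k * (k : ℝ)) (1 / lam) := by
  have h1 : ‖sv lam‖ < 1 := by
    rw [Real.norm_of_nonneg (sv_pos h).le]; exact sv_lt_one h
  have h2 := (hasSum_coe_mul_geometric_of_norm_lt_one h1).mul_left (1 - sv lam)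
  have h3 : (1 - sv lam) * (sv lam / (1 - sv lam) ^ 2) = 1 / lam := by
    rw [one_sub_sv h]
    have := (sv_pos h).ne'
    field_simp
  rw [h3] at h2
  refine h2.congr_fun ?_
  intro k
  unfold gw; ring

theorem hasSum_gw_sq {lam : ℝ} (h : 0 < lam) :
    HasSum (fun k : ℕ => gw lam k * (k : ℝ) ^ 2) (2 / lam ^ 2 + 1 / lam) := by
  have h1 : ‖sv lam‖ < 1 := by
    rw [Real.norm_of_nonneg (sv_pos h).le]; exact sv_lt_one h
  have a0 := (hasSum_gw h)
  have a1 := hasSum_gw_mul h
  have a2 := (hasSum_choose_mul_geometric_of_norm_lt_one 2 h1).mul_left (1 - sv lam)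
  have h3 := ((a2.mul_left 2).sub (a1.mul_left 3)).sub (a0.mul_left 2)
  have h4 : 2 * ((1 - sv lam) * (1 / (1 - sv lam) ^ (2 + 1))) - 3 * (1 / lam) - 2 * 1 =
      2 / lam ^ 2 + 1 / lam := by
    have h5 : 1 - sv lam = lam / (1 + lam) := by
      have h6 : 1 + lam ≠ 0 := by positivity
      unfold sv; field_simp; ring
    have h7 : (1 - sv lam) * (1 / (1 - sv lam) ^ (2 + 1)) = (1 + lam) ^ 2 / lam ^ 2 := by
      rw [h5]
      have h6 : 1 + lam ≠ 0 := by positivity
      have h8 := h.ne'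
      norm_num
      field_simp
    rw [h7]
    have h8 := h.ne'
    field_simp
    ring
  rw [h4] at h3
  refine h3.congr_fun ?_
  intro k
  have h5 : (((k + 2).choose 2 : ℕ) : ℝ) = (k + 2) * (k + 1) / 2 := by
    rw [Nat.cast_choose_two]
    push_cast
    ring
  rw [h5]
  unfold gw; ring

theorem memLp_geo {lam : ℝ} (h : 0 < lam) : MemLp (fun k : ℕ => (k : ℝ)) 2 (geo lam) := by
  rw [memLp_two_iff_integrable_sq StronglyMeasurable.of_discrete.aestronglyMeasurable]
  apply integrable_geo h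
  refine (hasSum_gw_sq h).summable.congr ?_
  intro k
  rw [Real.norm_of_nonneg (by positivity)]

theorem mean_geo {lam : ℝ} (h : 0 < lam) : ∫ k : ℕ, (k : ℝ) ∂(geo lam) = 1 / lam := by
  rw [integral_geo h]
  · exact (hasSum_gw_mul h).tsum_eq
  · apply integrable_geo h
    refine (hasSum_gw_mul h).summable.congr ?_
    intro k
    rw [Real.norm_of_nonneg (by positivity)]

theorem variance_geo {lam : ℝ} (h : 0 < lam) :
    Var[fun k : ℕ => (k : ℝ); geo lam] = 1 / lam ^ 2 + 1 / lam := by
  have := isProb_geo h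
  rw [variance_eq_sub (memLp_geo h), mean_geo h]
  have h1 : ∫ k : ℕ, (k : ℝ) ^ 2 ∂(geo lam) = 2 / lam ^ 2 + 1 / lam := by
    rw [integral_geo h]
    · exact (hasSum_gw_sq h).tsum_eq
    · apply integrable_geo h
      refine (hasSum_gw_sq h).summable.congr ?_
      intro k
      rw [Real.norm_of_nonneg (by positivity)]
  have h2 : ∫ k : ℕ, ((fun k : ℕ => (k : ℝ)) ^ 2) k ∂(geo lam) = 2 / lam ^ 2 + 1 / lam := h1
  rw [h2]
  have := h.ne'
  field_simp
  ring

/-- partial sums of a finite family of times -/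
def Sf {M : ℕ} (κ : Fin M → ℕ) (i : ℕ) : ℕ := ∑ l : Fin M, if l.val < i then κ l else 0

theorem Sf_zero {M : ℕ} (κ : Fin M → ℕ) : Sf κ 0 = 0 := by
  simp [Sf]

theorem Sf_cons_succ {M : ℕ} (k : ℕ) (κ : Fin M → ℕ) (i : ℕ) :
    Sf (Fin.cons k κ : Fin (M + 1) → ℕ) (i + 1) = k + Sf κ i := by
  unfold Sf
  rw [Fin.sum_univ_succ]
  simp

/-- the law of `M` independent geometric times -/
noncomputable def geoM (lam : ℝ) (M : ℕ) : Measure (Fin M → ℕ) := Measure.pi (fun _ => geo lam)

theorem isProb_geoM {lam : ℝ} (h : 0 < lam) (M : ℕ) : IsProbabilityMeasure (geoM lam M) := by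
  have := isProb_geo h
  unfold geoM
  infer_instance

theorem Sf_dev {lam : ℝ} (h : 0 < lam) {M : ℕ} {i : ℕ} (hi : i ≤ M) {c : ℝ} (hc : 0 < c) :
    geoM lam M {κ | c ≤ |(Sf κ i : ℝ) - i / lam|} ≤
      ENNReal.ofReal (i * (1 / lam ^ 2 + 1 / lam) / c ^ 2) := by
  have := isProb_geo h
  have := isProb_geoM h M
  let s : Finset (Fin M) := Finset.univ.filter (fun l => l.val < i)
  let X : Fin M → (Fin M → ℕ) → ℝ := fun l κ => (κ l : ℝ)
  have hcard : s.card = i := by
    simp only [s]
    rw [Fin.card_filter_val_lt]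
    omega
  have hmp : ∀ l : Fin M, MeasurePreserving (Function.eval l) (geoM lam M) (geo lam) :=
    fun l => measurePreserving_eval (fun _ : Fin M => geo lam) l
  have hX : ∀ l, MemLp (X l) 2 (geoM lam M) := fun l => (memLp_geo h).comp_measurePreserving (hmp l)
  have hmean : ∀ l, ∫ κ, X l κ ∂(geoM lam M) = 1 / lam := by
    intro l
    rw [← mean_geo h, ← (hmp l).map_eq, integral_map]
    · exact (hmp l).measurable.aemeasurable
    · exact StronglyMeasurable.of_discrete.aestronglyMeasurable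
  have hvar : ∀ l, Var[X l; geoM lam M] = 1 / lam ^ 2 + 1 / lam := by
    intro l
    rw [← variance_geo h, ← (hmp l).map_eq, variance_map]
    · rfl
    · exact measurable_from_nat.aemeasurable
    · exact (hmp l).measurable.aemeasurable
  have hind : iIndepFun X (geoM lam M) :=
    iIndepFun_pi (X := fun (_ : Fin M) (k : ℕ) => (k : ℝ)) (fun _ => measurable_from_nat.aemeasurable)
  have hsum : (fun κ : Fin M → ℕ => (Sf κ i : ℝ)) = ∑ l ∈ s, X l := by
    ext κ
    simp only [Sf, s, X, Finset.sum_apply, Finset.sum_filter]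
    push_cast
    rfl
  have h1 : MemLp (∑ l ∈ s, X l) 2 (geoM lam M) := memLp_finsetSum' s (fun l _ => hX l)
  have h2 := meas_ge_le_variance_div_sq h1 hc
  have h3 : Var[∑ l ∈ s, X l; geoM lam M] = i * (1 / lam ^ 2 + 1 / lam) := by
    rw [IndepFun.variance_sum (fun l _ => hX l) (fun l _ l' _ hll => hind.indepFun hll)]
    simp_rw [hvar]
    rw [Finset.sum_const, hcard, nsmul_eq_mul]
  have h4 : ∫ κ, (∑ l ∈ s, X l) κ ∂(geoM lam M) = i / lam := by
    simp only [Finset.sum_apply]
    rw [integral_finsetSum]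
    · simp_rw [hmean]
      rw [Finset.sum_const, hcard, nsmul_eq_mul]
      ring
    · intro l _
      exact (hX l).integrable (by norm_num)
  rw [h3, h4, ← hsum] at h2
  exact h2

end Pool.Agent.Lib.QIP
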