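import Pool.Agent.Lib.QIP.Resolvent

set_option autoImplicit false

open MeasureTheory ProbabilityTheory Filter
open scoped ENNReal NNReal Topology BigOperators

namespace Pool.Agent.Lib.QIP

variable {d : ℕ}

/-- `ν x` is the law of simple random walk on `C` started at `x`. -/
structure IsWalk (C : Cond d) (ν : V d → Measure (ℕ → V d)) : Prop where
  prob : ∀ x, IsProbabilityMeasure (ν x)
  cyl : ∀ (x : V d) (n : ℕ) (z : Fin (n + 1) → V d),
    ν x {w | ∀ i : Fin (n + 1), w i = z i} =
      ENNReal.ofReal ((if z 0 = x then (1 : ℝ) else 0) *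
        ∏ i : Fin n, C.c (z i.castSucc) (z i.succ) / C.deg (z i.castSucc))

/-- law of one step of the walk -/
noncomputable def stepM (C : Cond d) (y : V d) : Measure (V d) :=
  Measure.sum fun z => ENNReal.ofReal (C.c y z / C.deg y) • Measure.dirac z

theorem stepM_singleton (C : Cond d) (y z : V d) :
    stepM C y {z} = ENNReal.ofReal (C.c y z / C.deg y) := by
  unfold stepM
  rw [Measure.sum_apply _ (measurableSet_singleton z), tsum_eq_single z]
  · simp
  · intro b hb
    simp [hb]

theorem stepM_prob (hd : 0 < d) (C : Cond d) (y : V d) : IsProbabilityMeasure (stepM C y) := by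
  constructor
  unfold stepM
  rw [Measure.sum_apply _ MeasurableSet.univ]
  simp only [Measure.smul_apply, measure_univ, smul_eq_mul, mul_one]
  rw [← ENNReal.ofReal_tsum_of_nonneg (fun z => div_nonneg (C.nonneg y z) (C.deg_nonneg y))
    ((C.summable_c y).div_const _), tsum_div_const]
  have h1 : ∑' z, C.c y z = C.deg y := rfl
  rw [h1, div_self (C.deg_pos hd y).ne', ENNReal.ofReal_one]

/-- the path driven by the family of independent steps -/
def pathW (x : V d) (ω : ℕ × V d → V d) : ℕ → V d
  | 0 => x
  | n + 1 => ω (n, pathW x ω n)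

theorem measurable_pathW (x : V d) : Measurable (pathW x : (ℕ × V d → V d) → (ℕ → V d)) := by
  rw [measurable_pi_iff]
  intro n
  induction n with
  | zero => exact measurable_const
  | succ n ih =>
    have h1 : (fun ω : ℕ × V d → V d => pathW x ω (n + 1)) =
        fun ω => ω (n, pathW x ω n) := rfl
    rw [h1]
    apply measurable_to_countable'
    intro y
    have h2 : (fun ω : ℕ × V d → V d => ω (n, pathW x ω n)) ⁻¹' {y} =
        ⋃ z : V d, ({ω | pathW x ω n = z} ∩ {ω | ω (n, z) = y}) := by
      ext ω
      simp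
    rw [h2]
    refine MeasurableSet.iUnion fun z => MeasurableSet.inter ?_ ?_
    · exact ih (measurableSet_singleton z)
    · have h3 : Measurable fun ω : ℕ × V d → V d => ω (n, z) := measurable_pi_apply (n, z)
      exact h3 (measurableSet_singleton y)

theorem pathW_eq_iff (x : V d) (ω : ℕ × V d → V d) (n : ℕ) (z : Fin (n + 1) → V d)
    (hz : z 0 = x) :
    (∀ i : Fin (n + 1), pathW x ω i = z i) ↔ ∀ i : Fin n, ω ((i : ℕ), z i.castSucc) = z i.succ := by
  constructor
  · intro h i
    have h1 := h i.succ
    have h2 := h i.castSucc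
    have h3 : pathW x ω ((i.succ : Fin (n + 1)) : ℕ) = ω ((i : ℕ), pathW x ω (i : ℕ)) := rfl
    rw [h3] at h1
    have h4 : ((i.castSucc : Fin (n + 1)) : ℕ) = (i : ℕ) := rfl
    rw [h4] at h2
    rw [h2] at h1
    exact h1
  · intro h i
    obtain ⟨i, hi⟩ := i
    induction i with
    | zero => exact hz.symm
    | succ i ih =>
      have h1 := ih (by omega)
      have h2 := h ⟨i, by omega⟩
      have h3 : pathW x ω (i + 1) = ω (i, pathW x ω i) := rfl
      change pathW x ω (i + 1) = _
      rw [h3]
      have h4 : pathW x ω i = z (Fin.castSucc ⟨i, by omega⟩) := h1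
      rw [h4]
      exact h2

theorem exists_walk (hd : 0 < d) (C : Cond d) : ∃ ν : V d → Measure (ℕ → V d), IsWalk C ν := by
  classical
  have hp : ∀ p : ℕ × V d, IsProbabilityMeasure (stepM C p.2) := fun p => stepM_prob hd C p.2
  let μ : Measure (ℕ × V d → V d) := Measure.infinitePi fun p : ℕ × V d => stepM C p.2
  have hμ : IsProbabilityMeasure μ := inferInstance
  refine ⟨fun x => μ.map (pathW x), ⟨?_, ?_⟩⟩
  · intro x
    exact Measure.isProbabilityMeasure_map (measurable_pathW x).aemeasurable
  · intro x n z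
    have hm : MeasurableSet {w : ℕ → V d | ∀ i : Fin (n + 1), w i = z i} := by
      have : {w : ℕ → V d | ∀ i : Fin (n + 1), w i = z i} =
          ⋂ i : Fin (n + 1), {w : ℕ → V d | w i = z i} := by
        ext w
        simp
      rw [this]
      exact MeasurableSet.iInter fun i => (measurable_pi_apply (i : ℕ)) (measurableSet_singleton _)
    rw [Measure.map_apply (measurable_pathW x) hm]
    by_cases hz : z 0 = x
    · have h1 : pathW x ⁻¹' {w : ℕ → V d | ∀ i : Fin (n + 1), w i = z i} =
          {ω : ℕ × V d → V d | ∀ i : Fin n, ω ((i : ℕ), z i.castSucc) = z i.succ} := by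
        ext ω
        exact pathW_eq_iff x ω n z hz
      rw [h1]
      let t : ℕ × V d → Set (V d) := fun p => if h : p.1 < n then {z (Fin.succ ⟨p.1, h⟩)} else Set.univ
      have h2 : {ω : ℕ × V d → V d | ∀ i : Fin n, ω ((i : ℕ), z i.castSucc) = z i.succ} =
          Set.pi ((Finset.univ.image fun i : Fin n => ((i : ℕ), z i.castSucc) : Finset (ℕ × V d)) :
            Set (ℕ × V d)) t := by
        ext ω
        simp only [Set.mem_ofPred_eq, Set.mem_pi, Finset.coe_image, Finset.coe_univ, Set.image_univ,
          Set.mem_range, forall_exists_index, forall_apply_eq_imp_iff]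
        refine forall_congr' fun i => ?_
        have h5 : t ((i : ℕ), z i.castSucc) = {z i.succ} := by
          simp only [t, Fin.is_lt, dif_pos, Fin.eta]
        rw [h5, Set.mem_singleton_iff]
      rw [h2]
      have h3 : μ (Set.pi ((Finset.univ.image fun i : Fin n => ((i : ℕ), z i.castSucc) :
          Finset (ℕ × V d)) : Set (ℕ × V d)) t) = _ := Measure.infinitePi_pi _ (fun p _ => by
        simp only [t]
        split_ifs
        · exact measurableSet_singleton _
        · exact MeasurableSet.univ)
      rw [h3, Finset.prod_image, if_pos hz, one_mul, ENNReal.ofReal_prod_of_nonneg]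
      · refine Finset.prod_congr rfl fun i _ => ?_
        simp only [t, Fin.is_lt, dif_pos, Fin.eta]
        exact stepM_singleton C _ _
      · exact fun i _ => div_nonneg (C.nonneg _ _) (C.deg_nonneg _)
      · intro i _ j _ hij
        simp only [Prod.mk.injEq] at hij
        exact Fin.ext hij.1
    · have h1 : pathW x ⁻¹' {w : ℕ → V d | ∀ i : Fin (n + 1), w i = z i} = ∅ := by
        ext ω
        simp only [Set.mem_preimage, Set.mem_ofPred_eq, Set.mem_empty_iff_false, iff_false, not_forall]
        refine ⟨0, ?_⟩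
        intro h
        exact hz h.symm
      rw [h1, if_neg hz, zero_mul, ENNReal.ofReal_zero, measure_empty]

variable {C : Cond d} {ν : V d → Measure (ℕ → V d)}

/-- cylinder sets -/
def cylS (n : ℕ) (z : Fin (n + 1) → V d) : Set (ℕ → V d) := {w | ∀ i : Fin (n + 1), w i = z i}

theorem measurableSet_cylS (n : ℕ) (z : Fin (n + 1) → V d) : MeasurableSet (cylS n z) := by
  have : cylS n z = ⋂ i : Fin (n + 1), {w : ℕ → V d | w i = z i} := by
    ext w
    simp [cylS]
  rw [this]
  exact MeasurableSet.iInter fun i => (measurable_pi_apply (i : ℕ)) (measurableSet_singleton _)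

theorem cylS_disjoint (n : ℕ) : Pairwise (Function.onFun Disjoint (cylS (d := d) n)) := by
  intro z z' hne
  rw [Function.onFun, Set.disjoint_left]
  intro w hw hw'
  exact hne (funext fun i => (hw i).symm.trans (hw' i))

theorem cylS_iUnion (n : ℕ) : ⋃ z, cylS (d := d) n z = Set.univ := by
  ext w
  simp only [Set.mem_iUnion, Set.mem_univ, iff_true]
  exact ⟨fun i => w i, fun i => rfl⟩

theorem ext_cyl (μ μ' : Measure (ℕ → V d)) [IsFiniteMeasure μ]
    (h : ∀ (n : ℕ) (z : Fin (n + 1) → V d), μ (cylS n z) = μ' (cylS n z)) : μ = μ' := by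
  have huniv : μ Set.univ = μ' Set.univ := by
    rw [← cylS_iUnion 0, measure_iUnion (cylS_disjoint 0) (measurableSet_cylS 0),
      measure_iUnion (cylS_disjoint 0) (measurableSet_cylS 0)]
    exact tsum_congr fun z => h 0 z
  refine ext_of_generate_finite
    (Set.range fun p : Σ n : ℕ, (Fin (n + 1) → V d) => cylS p.1 p.2) ?_ ?_ ?_ huniv
  · apply le_antisymm
    · refine iSup_le fun n => ?_
      rw [MeasurableSpace.comap_le_iff_le_map]
      intro S _
      change MeasurableSet[MeasurableSpace.generateFrom _] ((fun w : ℕ → V d => w n) ⁻¹' S)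
      have h1 : (fun w : ℕ → V d => w n) ⁻¹' S =
          ⋃ z : {z : Fin (n + 1) → V d // z (Fin.last n) ∈ S}, cylS n z.1 := by
        ext w
        simp only [Set.mem_preimage, Set.mem_iUnion]
        constructor
        · intro hw
          exact ⟨⟨fun i => w i, hw⟩, fun i => rfl⟩
        · rintro ⟨z, hz⟩
          have h2 := hz (Fin.last n)
          have h3 : w n = z.1 (Fin.last n) := h2
          rw [h3]
          exact z.2
      rw [h1]
      refine MeasurableSet.iUnion fun z => ?_
      exact MeasurableSpace.measurableSet_generateFrom ⟨⟨n, z.1⟩, rfl⟩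
    · apply MeasurableSpace.generateFrom_le
      rintro _ ⟨p, rfl⟩
      exact measurableSet_cylS p.1 p.2
  · rintro _ ⟨⟨n, z⟩, rfl⟩ _ ⟨⟨m, y⟩, rfl⟩ ⟨w, hw1, hw2⟩
    rcases le_total n m with hnm | hnm
    · refine ⟨⟨m, y⟩, ?_⟩
      ext v
      constructor
      · intro hv
        refine ⟨fun i => ?_, hv⟩
        have hi : (i : ℕ) < n + 1 := i.is_lt
        have hi' : (i : ℕ) < m + 1 := by omega
        have h1 := hv ⟨i, hi'⟩
        have h2 := hw2 ⟨i, hi'⟩
        have h3 := hw1 i
        have h4 : v i = w i := h1.trans h2.symm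
        rw [h4]
        exact h3
      · exact fun hv => hv.2
    · refine ⟨⟨n, z⟩, ?_⟩
      ext v
      constructor
      · intro hv
        refine ⟨hv, fun i => ?_⟩
        have hi : (i : ℕ) < m + 1 := i.is_lt
        have hi' : (i : ℕ) < n + 1 := by omega
        have h1 := hv ⟨i, hi'⟩
        have h2 := hw1 ⟨i, hi'⟩
        have h3 := hw2 i
        have h4 : v i = w i := h1.trans h2.symm
        rw [h4]
        exact h3
      · exact fun hv => hv.1
  · rintro _ ⟨p, rfl⟩
    exact h p.1 p.2

/-- time pshift -/
def pshift (n : ℕ) (w : ℕ → V d) : ℕ → V d := fun k => w (n + k)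

theorem measurable_pshift (n : ℕ) : Measurable (pshift (d := d) n) := by
  rw [measurable_pi_iff]
  intro k
  exact measurable_pi_apply (n + k)

theorem IsWalk.map_pshift (h : IsWalk C ν) (x : V d) (n : ℕ) (z : Fin (n + 1) → V d) :
    ((ν x).restrict (cylS n z)).map (pshift n) = (ν x (cylS n z)) • ν (z (Fin.last n)) := by
  have := h.prob x
  have := h.prob (z (Fin.last n))
  refine ext_cyl _ _ fun m y => ?_
  rw [Measure.map_apply (measurable_pshift n) (measurableSet_cylS m y),
    Measure.restrict_apply ((measurable_pshift n) (measurableSet_cylS m y)), Measure.smul_apply,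
    smul_eq_mul]
  have e1 : ν x (cylS n z) = _ := h.cyl x n z
  have e2 : ν (z (Fin.last n)) (cylS m y) = _ := h.cyl (z (Fin.last n)) m y
  rw [e1, e2]
  by_cases hy : y 0 = z (Fin.last n)
  · let zz : Fin (n + m + 1) → V d := fun i => if hi : (i : ℕ) < n + 1 then z ⟨i, hi⟩ else
      y ⟨(i : ℕ) - n, by omega⟩
    have e3 : pshift n ⁻¹' cylS m y ∩ cylS n z = cylS (n + m) zz := by
      ext w
      constructor
      · rintro ⟨hw1, hw2⟩ i
        by_cases hi : (i : ℕ) < n + 1
        · have := hw2 ⟨i, hi⟩
          simp only [zz, hi, dif_pos]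
          exact this
        · have := hw1 ⟨(i : ℕ) - n, by omega⟩
          simp only [zz, hi, dif_neg, not_false_eq_true]
          have h5 : pshift n w ((⟨(i : ℕ) - n, by omega⟩ : Fin (m + 1)) : ℕ) = w i := by
            change w (n + ((i : ℕ) - n)) = w i
            congr 1
            omega
          rw [← h5]
          exact this
      · intro hw
        constructor
        · intro i
          change w (n + i) = y i
          have h6 := hw ⟨n + i, by omega⟩
          change w (n + i) = zz _ at h6
          rw [h6]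
          by_cases hi : n + (i : ℕ) < n + 1
          · have hi0 : i = 0 := by
              apply Fin.ext
              change (i : ℕ) = 0
              omega
            simp only [zz, hi, dif_pos]
            subst hi0
            rw [hy]
            congr 1
          · simp only [zz, hi, dif_neg, not_false_eq_true]
            congr 1
            apply Fin.ext
            simp
        · intro i
          have h6 := hw ⟨i, by omega⟩
          change w i = zz _ at h6
          rw [h6]
          simp only [zz, i.is_lt, dif_pos, Fin.eta]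
    rw [e3]
    have e4 : ν x (cylS (n + m) zz) = _ := h.cyl x (n + m) zz
    rw [e4, ← ENNReal.ofReal_mul]
    · congr 1
      have e5 : zz 0 = z 0 := by
        simp [zz]
      rw [e5, if_pos hy, one_mul, Fin.prod_univ_add, mul_assoc]
      congr 1
      congr 1
      · refine Finset.prod_congr rfl fun i _ => ?_
        have a1 : zz (Fin.castSucc (Fin.castAdd m i)) = z i.castSucc := by
          have : ((Fin.castSucc (Fin.castAdd m i) : Fin (n + m + 1)) : ℕ) < n + 1 := by
            have := i.is_lt
            change (i : ℕ) < n + 1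
            omega
          simp only [zz, this, dif_pos]
          congr 1
        have a2 : zz (Fin.succ (Fin.castAdd m i)) = z i.succ := by
          have : ((Fin.succ (Fin.castAdd m i) : Fin (n + m + 1)) : ℕ) < n + 1 := by
            simp
          simp only [zz, this, dif_pos]
          congr 1
        rw [a1, a2]
      · refine Finset.prod_congr rfl fun i _ => ?_
        have a1 : zz (Fin.castSucc (Fin.natAdd n i)) = y i.castSucc := by
          by_cases hi : ((Fin.castSucc (Fin.natAdd n i) : Fin (n + m + 1)) : ℕ) < n + 1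
          · have hi0 : (i : ℕ) = 0 := by
              simp at hi
              omega
            simp only [zz, hi, dif_pos]
            have b1 : (⟨((Fin.castSucc (Fin.natAdd n i) : Fin (n + m + 1)) : ℕ), hi⟩ :
                Fin (n + 1)) = Fin.last n := by
              apply Fin.ext
              simp [hi0]
            have b2 : i.castSucc = 0 := by
              apply Fin.ext
              simp [hi0]
            rw [b1, b2, hy]
          · simp only [zz, hi, dif_neg, not_false_eq_true]
            congr 1
            apply Fin.ext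
            simp
        have a2 : zz (Fin.succ (Fin.natAdd n i)) = y i.succ := by
          have hi : ¬ ((Fin.succ (Fin.natAdd n i) : Fin (n + m + 1)) : ℕ) < n + 1 := by
            simp
          simp only [zz, hi, dif_neg, not_false_eq_true]
          congr 1
          apply Fin.ext
          simp
          omega
        rw [a1, a2]
    · refine mul_nonneg ?_ ?_
      · split_ifs <;> norm_num
      · exact Finset.prod_nonneg fun i _ => div_nonneg (C.nonneg _ _) (C.deg_nonneg _)
  · rw [if_neg hy, zero_mul, ENNReal.ofReal_zero, mul_zero]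
    have e3 : pshift n ⁻¹' cylS m y ∩ cylS n z = ∅ := by
      ext w
      simp only [Set.mem_inter_iff, Set.mem_preimage, Set.mem_empty_iff_false, iff_false, not_and]
      intro hw1 hw2
      apply hy
      have h1 := hw1 0
      have h2 := hw2 (Fin.last n)
      change w (n + 0) = y 0 at h1
      change w n = z (Fin.last n) at h2
      rw [← h1, ← h2]
      rfl
    rw [e3, measure_empty]

/-- Markov property at time `n`. -/
theorem IsWalk.lint_markov (h : IsWalk C ν) (hd : 0 < d) (x : V d) (n : ℕ)
    (g : (ℕ → V d) → ℝ≥0∞) (hg : ∀ w w', (∀ i, i ≤ n → w i = w' i) → g w = g w')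
    (f : (ℕ → V d) → ℝ≥0∞) (hf : Measurable f) :
    ∫⁻ w, g w * f (fun k => w (n + k)) ∂ν x = ∫⁻ w, g w * ∫⁻ w', f w' ∂ν (w n) ∂ν x := by
  have hgz : ∀ (z : Fin (n + 1) → V d) (w : ℕ → V d), w ∈ cylS n z →
      g w = g (fun k => if hk : k < n + 1 then z ⟨k, hk⟩ else 0) := by
    intro z w hw
    apply hg
    intro i hi
    have hi' : i < n + 1 := by omega
    simp only [hi', dif_pos]
    exact hw ⟨i, hi'⟩
  have h1 : ∀ G : (ℕ → V d) → ℝ≥0∞, ∫⁻ w, G w ∂ν x =
      ∑' z : Fin (n + 1) → V d, ∫⁻ w in cylS n z, G w ∂ν x := by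
    intro G
    rw [← lintegral_iUnion (measurableSet_cylS n) (cylS_disjoint n), cylS_iUnion,
      Measure.restrict_univ]
  rw [h1, h1]
  refine tsum_congr fun z => ?_
  have h2 : ∫⁻ w in cylS n z, g w * f (fun k => w (n + k)) ∂ν x =
      ∫⁻ w in cylS n z, g (fun k => if hk : k < n + 1 then z ⟨k, hk⟩ else 0) *
        f (pshift n w) ∂ν x := by
    refine setLIntegral_congr_fun (measurableSet_cylS n z) fun w hw => ?_
    change g w * _ = _
    rw [hgz z w hw]
    rfl
  have h3 : ∫⁻ w in cylS n z, g w * ∫⁻ w', f w' ∂ν (w n) ∂ν x =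
      ∫⁻ w in cylS n z, g (fun k => if hk : k < n + 1 then z ⟨k, hk⟩ else 0) *
        ∫⁻ w', f w' ∂ν (z (Fin.last n)) ∂ν x := by
    refine setLIntegral_congr_fun (measurableSet_cylS n z) fun w hw => ?_
    change g w * _ = _
    rw [hgz z w hw]
    have h4 : w n = z (Fin.last n) := hw (Fin.last n)
    rw [h4]
  have hfm : Measurable fun w => f (pshift n w) := hf.comp (measurable_pshift n)
  rw [h2, h3, lintegral_const_mul _ hfm, lintegral_const, Measure.restrict_apply_univ]
  have h5 : ∫⁻ w in cylS n z, f (pshift n w) ∂ν x =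
      ∫⁻ w, f w ∂(((ν x).restrict (cylS n z)).map (pshift n)) :=
    (lintegral_map hf (measurable_pshift n)).symm
  rw [h5, h.map_pshift x n z, lintegral_smul_measure, smul_eq_mul]
  ring

theorem IsWalk.start (h : IsWalk C ν) (hd : 0 < d) (x : V d) : ∀ᵐ w ∂ν x, w 0 = x := by
  have := h.prob x
  have h1 := h.cyl x 0 (fun _ => x)
  simp only [if_pos, Finset.univ_eq_empty, Finset.prod_empty, mul_one, ENNReal.ofReal_one] at h1
  have h2 : {w : ℕ → V d | ∀ i : Fin (0 + 1), w i = x} = {w | w 0 = x} := by
    ext w
    simp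
  rw [h2] at h1
  have h3 : MeasurableSet {w : ℕ → V d | w 0 = x} := by
    have h5 : Measurable fun w : ℕ → V d => w 0 := measurable_pi_apply 0
    exact h5 (measurableSet_singleton x)
  have h4 : ν x {w : ℕ → V d | w 0 = x}ᶜ = 0 := by
    rw [prob_compl_eq_one_sub h3, h1, tsub_self]
  exact h4

/-- Expectations split over cylinders. -/
theorem IsWalk.integral_split (h : IsWalk C ν) {E : Type*} [NormedAddCommGroup E]
    [NormedSpace ℝ E] (x : V d) (n : ℕ) (G : (ℕ → V d) → E) (hG : Integrable G (ν x)) :
    ∫ w, G w ∂ν x = ∑' z : Fin (n + 1) → V d, ∫ w in cylS n z, G w ∂ν x := by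
  have h1 := integral_iUnion (μ := ν x) (f := G) (measurableSet_cylS (d := d) n) (cylS_disjoint n)
    hG.integrableOn
  rw [cylS_iUnion, Measure.restrict_univ] at h1
  exact h1

/-- a function of the first steps is measurable -/
theorem measurable_past {β : Type*} [MeasurableSpace β] (n : ℕ) (g : (ℕ → V d) → β)
    (hg : ∀ w w', (∀ i, i ≤ n → w i = w' i) → g w = g w') : Measurable g := by
  have h1 : g = (fun z : Fin (n + 1) → V d => g (fun k => if hk : k < n + 1 then z ⟨k, hk⟩ else 0)) ∘
      fun w i => w i := by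
    ext w
    change g w = g _
    apply hg
    intro i hi
    have hi' : i < n + 1 := by omega
    simp only [hi', dif_pos]
  rw [h1]
  refine (measurable_of_countable _).comp ?_
  rw [measurable_pi_iff]
  intro i
  exact measurable_pi_apply (i : ℕ)

/-- Integral form of the Markov property. -/
theorem IsWalk.integral_markov (h : IsWalk C ν) (x : V d) (n : ℕ)
    (g : (ℕ → V d) → ℂ) (hg : ∀ w w', (∀ i, i ≤ n → w i = w' i) → g w = g w')
    (Mg : ℝ) (hgb : ∀ w, ‖g w‖ ≤ Mg) (f : (ℕ → V d) → ℂ) (hfm : Measurable f) (M : ℝ)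
    (hf : ∀ y, ‖f y‖ ≤ M) :
    ∫ w, g w * f (pshift n w) ∂ν x = ∫ w, g w * ∫ w', f w' ∂ν (w n) ∂ν x := by
  have hpr := h.prob
  have hM : 0 ≤ M := (norm_nonneg _).trans (hf (fun _ => 0))
  have hI : ∀ y, ‖∫ w', f w' ∂ν y‖ ≤ M := by
    intro y
    have := hpr y
    have h1 := norm_integral_le_of_norm_le_const (μ := ν y) (Eventually.of_forall hf)
    simpa using h1
  have hgm : Measurable g := measurable_past n g hg
  have hprx := hpr x
  have i1 : Integrable (fun w => g w * f (pshift n w)) (ν x) := by
    refine Integrable.of_bound ((hgm.mul (hfm.comp (measurable_pshift n))).aestronglyMeasurable)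
      (Mg * M) (Eventually.of_forall fun w => ?_)
    rw [norm_mul]
    exact mul_le_mul (hgb w) (hf _) (norm_nonneg _) ((norm_nonneg _).trans (hgb w))
  have m2 : Measurable (fun w : ℕ → V d => g w * ∫ w', f w' ∂ν (w n)) := by
    refine measurable_past n _ ?_
    intro w w' hw
    rw [hg w w' hw, hw n le_rfl]
  have i2 : Integrable (fun w => g w * ∫ w', f w' ∂ν (w n)) (ν x) := by
    refine Integrable.of_bound m2.aestronglyMeasurable (Mg * M) (Eventually.of_forall fun w => ?_)
    rw [norm_mul]
    exact mul_le_mul (hgb w) (hI _) (norm_nonneg _) ((norm_nonneg _).trans (hgb w))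
  rw [h.integral_split x n _ i1, h.integral_split x n _ i2]
  refine tsum_congr fun z => ?_
  have hgz : ∀ (w : ℕ → V d), w ∈ cylS n z →
      g w = g (fun k => if hk : k < n + 1 then z ⟨k, hk⟩ else 0) := by
    intro w hw
    apply hg
    intro i hi
    have hi' : i < n + 1 := by omega
    simp only [hi', dif_pos]
    exact hw ⟨i, hi'⟩
  have h2 : ∫ w in cylS n z, g w * f (pshift n w) ∂ν x =
      ∫ w in cylS n z, g (fun k => if hk : k < n + 1 then z ⟨k, hk⟩ else 0) *
        f (pshift n w) ∂ν x := by
    refine setIntegral_congr_fun (measurableSet_cylS n z) fun w hw => ?_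
    change g w * _ = _
    rw [hgz w hw]
  have h3 : ∫ w in cylS n z, g w * ∫ w', f w' ∂ν (w n) ∂ν x =
      ∫ w in cylS n z, g (fun k => if hk : k < n + 1 then z ⟨k, hk⟩ else 0) *
        ∫ w', f w' ∂ν (z (Fin.last n)) ∂ν x := by
    refine setIntegral_congr_fun (measurableSet_cylS n z) fun w hw => ?_
    change g w * _ = _
    rw [hgz w hw]
    have h4 : w n = z (Fin.last n) := hw (Fin.last n)
    rw [h4]
  rw [h2, h3, integral_const_mul, setIntegral_const]
  have h5 : ∫ w in cylS n z, f (pshift n w) ∂ν x =
      ∫ w, f w ∂(((ν x).restrict (cylS n z)).map (pshift n)) :=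
    (integral_map (measurable_pshift n).aemeasurable hfm.aestronglyMeasurable).symm
  rw [h5, h.map_pshift x n z, integral_smul_measure]
  rw [mul_smul_comm]
  rfl

/-- one step -/
theorem IsWalk.integral_one {E : Type*} [NormedAddCommGroup E] [NormedSpace ℝ E]
    [SecondCountableTopology E] [MeasurableSpace E] [BorelSpace E] [CompleteSpace E]
    (h : IsWalk C ν) (hd : 0 < d) (x : V d) (f : V d → E)
    (M : ℝ) (hf : ∀ y, ‖f y‖ ≤ M) : ∫ w, f (w 1) ∂ν x = C.P f x := by
  have := h.prob x
  have hm : Measurable fun w : ℕ → V d => w 1 := measurable_pi_apply 1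
  have h0 : ∫ w, f (w 1) ∂ν x = ∫ y, f y ∂((ν x).map fun w => w 1) :=
    (integral_map hm.aemeasurable (measurable_of_countable f).aestronglyMeasurable).symm
  have hpr : IsProbabilityMeasure ((ν x).map fun w => w 1) :=
    Measure.isProbabilityMeasure_map hm.aemeasurable
  rw [h0, integral_countable (Integrable.of_bound
    (measurable_of_countable f).aestronglyMeasurable M (Eventually.of_forall hf))]
  unfold Cond.P
  rw [← tsum_const_smul'']
  refine tsum_congr fun y => ?_
  rw [smul_smul]
  congr 1
  rw [measureReal_def, Measure.map_apply hm (measurableSet_singleton y)]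
  have h1 := h.cyl x 1 ![x, y]
  have h2 : ν x ((fun w : ℕ → V d => w 1) ⁻¹' {y}) = ν x {w | ∀ i : Fin (1 + 1), w i = ![x, y] i} := by
    refine measure_congr ?_
    filter_upwards [h.start hd x] with w hw
    apply propext
    change w 1 = y ↔ ∀ i : Fin 2, w i = ![x, y] i
    rw [Fin.forall_fin_two]
    simp [hw]
  rw [h2, h1, ENNReal.toReal_ofReal]
  · simp
    ring
  · refine mul_nonneg ?_ ?_
    · split_ifs <;> norm_num
    · exact Finset.prod_nonneg fun i _ => div_nonneg (C.nonneg _ _) (C.deg_nonneg _)

theorem iterate_P_norm_le {E : Type*} [NormedAddCommGroup E] [NormedSpace ℝ E] (hd : 0 < d)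
    (C : Cond d) {f : V d → E} {M : ℝ} (hf : ∀ x, ‖f x‖ ≤ M) (k : ℕ) (x : V d) :
    ‖(C.P)^[k] f x‖ ≤ M := by
  induction k generalizing x with
  | zero => exact hf x
  | succ k ih =>
    rw [Function.iterate_succ_apply']
    exact C.norm_P_le hd ih x

theorem IsWalk.integral_iter (h : IsWalk C ν) (hd : 0 < d) (x : V d) (n : ℕ) (f : V d → ℂ)
    (M : ℝ) (hf : ∀ y, ‖f y‖ ≤ M) : ∫ w, f (w n) ∂ν x = (C.P)^[n] f x := by
  induction n generalizing f with
  | zero =>
    have := h.prob x
    have h1 : ∫ w, f (w 0) ∂ν x = ∫ w, f x ∂ν x := by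
      refine integral_congr_ae ?_
      filter_upwards [h.start hd x] with w hw
      rw [hw]
    rw [h1]
    simp
  | succ n ih =>
    rw [Function.iterate_succ_apply]
    rw [← ih (C.P f) (fun y => C.norm_P_le hd hf y)]
    have h2 := h.integral_markov x n (fun _ => 1) (fun _ _ _ => rfl) 1 (fun _ => by simp)
      (fun w => f (w 1)) ((measurable_of_countable f).comp (measurable_pi_apply 1)) M
      (fun w => hf _)
    simp only [one_mul] at h2
    change ∫ w, f (w (n + 1)) ∂ν x = _ at h2
    rw [h2]
    refine integral_congr_ae (Eventually.of_forall fun w => ?_)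
    exact h.integral_one hd (w n) f M hf

theorem ofReal_P (C : Cond d) (f : V d → ℝ) (x : V d) :
    ((C.P f x : ℝ) : ℂ) = C.P (fun y => (f y : ℂ)) x := by
  unfold Cond.P
  rw [smul_eq_mul, Complex.ofReal_mul, Complex.ofReal_tsum]
  simp only [smul_eq_mul, Complex.real_smul, Complex.ofReal_mul]

theorem ofReal_P_iter (C : Cond d) (f : V d → ℝ) (n : ℕ) (x : V d) :
    (((C.P)^[n] f x : ℝ) : ℂ) = (C.P)^[n] (fun y => (f y : ℂ)) x := by
  induction n generalizing f with
  | zero => rfl
  | succ n ih =>
    rw [Function.iterate_succ_apply, Function.iterate_succ_apply, ih]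
    have h1 : (fun y => ((C.P f y : ℝ) : ℂ)) = C.P (fun y => (f y : ℂ)) :=
      funext fun y => ofReal_P C f y
    rw [h1]

theorem IsWalk.integral_iter_real (h : IsWalk C ν) (hd : 0 < d) (x : V d) (n : ℕ) (f : V d → ℝ)
    (M : ℝ) (hf : ∀ y, |f y| ≤ M) : ∫ w, f (w n) ∂ν x = (C.P)^[n] f x := by
  have h1 := h.integral_iter hd x n (fun y => (f y : ℂ)) M (fun y => by
    rw [Complex.norm_real]
    exact hf y)
  rw [← ofReal_P_iter] at h1
  have h2 : ∫ w, ((f (w n) : ℝ) : ℂ) ∂ν x = ((∫ w, f (w n) ∂ν x : ℝ) : ℂ) := integral_ofReal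
  rw [h2] at h1
  exact_mod_cast h1

/-- Two-time formula: `g` depends on the path up to time `n`, `f` on the position at time
`n + k`. -/
theorem IsWalk.integral_past (h : IsWalk C ν) (hd : 0 < d) (x : V d) (n k : ℕ)
    (g : (ℕ → V d) → ℂ) (hg : ∀ w w', (∀ i, i ≤ n → w i = w' i) → g w = g w')
    (Mg : ℝ) (hgb : ∀ w, ‖g w‖ ≤ Mg) (f : V d → ℂ) (M : ℝ) (hf : ∀ y, ‖f y‖ ≤ M) :
    ∫ w, g w * f (w (n + k)) ∂ν x = ∫ w, g w * (C.P)^[k] f (w n) ∂ν x := by
  have h2 := h.integral_markov x n g hg Mg hgb
      (fun w => f (w k)) ((measurable_of_countable f).comp (measurable_pi_apply k)) M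
      (fun w => hf _)
  change ∫ w, g w * f (w (n + k)) ∂ν x = _ at h2
  rw [h2]
  refine integral_congr_ae (Eventually.of_forall fun w => ?_)
  change g w * _ = g w * _
  rw [h.integral_iter hd (w n) k f M hf]

theorem PD_iter_nonneg (C : Cond d) (D : Set (V d)) (N : ℕ) (x : V d) :
    0 ≤ (C.PD D)^[N] (D.indicator (fun _ => (1 : ℝ))) x := by
  induction N generalizing x with
  | zero => exact Set.indicator_nonneg (fun _ _ => zero_le_one) x
  | succ N ih =>
    rw [Function.iterate_succ_apply']
    unfold Cond.PD
    refine Set.indicator_nonneg (fun y _ => ?_) x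
    unfold Cond.P
    refine smul_nonneg (inv_nonneg.mpr (C.deg_nonneg y)) (tsum_nonneg fun z => ?_)
    exact smul_nonneg (C.nonneg y z) (ih z)

/-- Probability of staying in `D`. -/
theorem IsWalk.stay (h : IsWalk C ν) (hd : 0 < d) (x : V d) (D : Set (V d)) (N : ℕ) :
    ν x {w | ∀ j, j ≤ N → w j ∈ D} =
      ENNReal.ofReal ((C.PD D)^[N] (D.indicator (fun _ => (1 : ℝ))) x) := by
  classical
  have hms : ∀ N : ℕ, MeasurableSet {w : ℕ → V d | ∀ j, j ≤ N → w j ∈ D} := by
    intro N
    have h1 : {w : ℕ → V d | ∀ j, j ≤ N → w j ∈ D} = ⋂ j : Fin (N + 1), {w | w j ∈ D} := by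
      ext w
      simp only [Set.mem_iInter]
      constructor
      · intro hw j
        exact hw j (by omega)
      · intro hw j hj
        exact hw ⟨j, by omega⟩
    rw [h1]
    refine MeasurableSet.iInter fun j => ?_
    have h5 : Measurable fun w : ℕ → V d => w j := measurable_pi_apply (j : ℕ)
    exact h5 (Set.to_countable D).measurableSet
  have hpr := h.prob
  induction N generalizing x with
  | zero =>
    have h1 : ν x {w | ∀ j, j ≤ 0 → w j ∈ D} = ∫⁻ w, D.indicator (fun _ => (1 : ℝ≥0∞)) x ∂ν x := by
      rw [← lintegral_indicator_one (hms 0)]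
      refine lintegral_congr_ae ?_
      filter_upwards [h.start hd x] with w hw
      by_cases hx : x ∈ D
      · have : w ∈ {w : ℕ → V d | ∀ j, j ≤ 0 → w j ∈ D} := by
          intro j hj
          rw [Nat.le_zero.mp hj, hw]
          exact hx
        rw [Set.indicator_of_mem this, Set.indicator_of_mem hx]
        rfl
      · have : w ∉ {w : ℕ → V d | ∀ j, j ≤ 0 → w j ∈ D} := by
          intro hh
          apply hx
          rw [← hw]
          exact hh 0 le_rfl
        rw [Set.indicator_of_notMem this, Set.indicator_of_notMem hx]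
    have := hpr x
    rw [h1, lintegral_const, measure_univ, mul_one]
    by_cases hx : x ∈ D
    · simp [hx]
    · simp [hx]
  | succ N ih =>
    have := hpr x
    have hb : ∀ y, ‖(C.PD D)^[N] (D.indicator (fun _ => (1 : ℝ))) y‖ ≤ 1 := by
      intro y
      have h1 : ∀ y, ‖D.indicator (fun _ => (1 : ℝ)) y‖ ≤ 1 := by
        intro y
        by_cases hy : y ∈ D
        · simp [hy]
        · simp [hy]
      exact C.norm_iter_le hd D h1 N y
    have h1 : ν x {w | ∀ j, j ≤ N + 1 → w j ∈ D} =
        ∫⁻ w, D.indicator (fun _ => (1 : ℝ≥0∞)) (w 0) *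
          {w : ℕ → V d | ∀ j, j ≤ N → w j ∈ D}.indicator (fun _ => (1 : ℝ≥0∞))
            (fun k => w (1 + k)) ∂ν x := by
      rw [← lintegral_indicator_one (hms (N + 1))]
      refine lintegral_congr fun w => ?_
      by_cases h0 : w 0 ∈ D
      · rw [Set.indicator_of_mem h0, one_mul]
        by_cases h2 : (fun k => w (1 + k)) ∈ {w : ℕ → V d | ∀ j, j ≤ N → w j ∈ D}
        · have h3 : w ∈ {w : ℕ → V d | ∀ j, j ≤ N + 1 → w j ∈ D} := by
            intro j hj
            rcases Nat.eq_zero_or_pos j with hj0 | hj0
            · rw [hj0]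
              exact h0
            · have h4 := h2 (j - 1) (by omega)
              change w (1 + (j - 1)) ∈ D at h4
              rw [show 1 + (j - 1) = j by omega] at h4
              exact h4
          rw [Set.indicator_of_mem h2, Set.indicator_of_mem h3]
          rfl
        · have h3 : w ∉ {w : ℕ → V d | ∀ j, j ≤ N + 1 → w j ∈ D} := by
            intro hh
            apply h2
            intro j hj
            exact hh (1 + j) (by omega)
          rw [Set.indicator_of_notMem h2, Set.indicator_of_notMem h3]
      · have h3 : w ∉ {w : ℕ → V d | ∀ j, j ≤ N + 1 → w j ∈ D} := by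
          intro hh
          exact h0 (hh 0 (by omega))
        rw [Set.indicator_of_notMem h0, Set.indicator_of_notMem h3, zero_mul]
    rw [h1, h.lint_markov hd x 1 (fun w => D.indicator (fun _ => (1 : ℝ≥0∞)) (w 0))
      (fun w w' hw => by
        change D.indicator _ (w 0) = D.indicator _ (w' 0)
        rw [hw 0 (by omega)]) _ (measurable_const.indicator (hms N))]
    have h2 : ∀ y, ∫⁻ w', {w : ℕ → V d | ∀ j, j ≤ N → w j ∈ D}.indicator (fun _ => (1 : ℝ≥0∞)) w'
        ∂ν y = ENNReal.ofReal ((C.PD D)^[N] (D.indicator (fun _ => (1 : ℝ))) y) := by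
      intro y
      rw [lintegral_indicator_const (hms N), one_mul]
      exact ih y
    simp only [h2]
    have h3 : ∫⁻ w, D.indicator (fun _ => (1 : ℝ≥0∞)) (w 0) *
        ENNReal.ofReal ((C.PD D)^[N] (D.indicator (fun _ => (1 : ℝ))) (w 1)) ∂ν x =
        ∫⁻ w, D.indicator (fun _ => (1 : ℝ≥0∞)) x *
        ENNReal.ofReal ((C.PD D)^[N] (D.indicator (fun _ => (1 : ℝ))) (w 1)) ∂ν x := by
      refine lintegral_congr_ae ?_
      filter_upwards [h.start hd x] with w hw
      rw [hw]
    have hm1 : Measurable fun w : ℕ → V d => w 1 := measurable_pi_apply 1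
    have hm2 : Measurable fun w : ℕ → V d =>
        (C.PD D)^[N] (D.indicator (fun _ => (1 : ℝ))) (w 1) := (measurable_of_countable _).comp hm1
    rw [h3, lintegral_const_mul _ hm2.ennreal_ofReal, ← ofReal_integral_eq_lintegral_ofReal,
      h.integral_one hd x _ 1 hb, Function.iterate_succ_apply']
    · by_cases hx : x ∈ D
      · unfold Cond.PD
        rw [Set.indicator_of_mem hx, Set.indicator_of_mem hx, one_mul]
      · unfold Cond.PD
        rw [Set.indicator_of_notMem hx, Set.indicator_of_notMem hx, zero_mul, ENNReal.ofReal_zero]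
    · exact Integrable.of_bound hm2.aestronglyMeasurable 1 (Eventually.of_forall fun w => hb _)
    · exact Eventually.of_forall fun w => PD_iter_nonneg C D N _

/-- Integrals of functions of finitely many steps as sums over paths. -/
theorem IsWalk.tsum_eq (h : IsWalk C ν) (hd : 0 < d) (x : V d) (n : ℕ)
    (F : (Fin (n + 1) → V d) → ℝ) (M : ℝ) (hF : ∀ z, |F z| ≤ M) :
    ∑' z : Fin (n + 1) → V d, ((if z 0 = x then (1 : ℝ) else 0) *
        ∏ i : Fin n, C.c (z i.castSucc) (z i.succ) / C.deg (z i.castSucc)) * F z =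
      ∫ w, F (fun i => w i) ∂ν x := by
  have := h.prob x
  have hm : Measurable fun w : ℕ → V d => (fun i : Fin (n + 1) => w i) := by
    rw [measurable_pi_iff]
    intro i
    exact measurable_pi_apply (i : ℕ)
  have hm2 : Measurable fun w : ℕ → V d => F (fun i => w i) := (measurable_of_countable F).comp hm
  rw [h.integral_split x n _ (Integrable.of_bound hm2.aestronglyMeasurable M
    (Eventually.of_forall fun w => hF _))]
  refine tsum_congr fun z => ?_
  have h1 : ∫ w in cylS n z, F (fun i => w i) ∂ν x = ∫ w in cylS n z, F z ∂ν x := by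
    refine setIntegral_congr_fun (measurableSet_cylS n z) fun w hw => ?_
    have h2 : (fun i : Fin (n + 1) => w i) = z := funext hw
    change F _ = F z
    rw [h2]
  rw [h1, setIntegral_const, smul_eq_mul, measureReal_def]
  have e1 : ν x (cylS n z) = _ := h.cyl x n z
  rw [e1, ENNReal.toReal_ofReal]
  refine mul_nonneg ?_ ?_
  · split_ifs <;> norm_num
  · exact Finset.prod_nonneg fun i _ => div_nonneg (C.nonneg _ _) (C.deg_nonneg _)

end Pool.Agent.Lib.QIP
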