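import Pool.Agent.Lib.QIP.FddGeo
import Pool.Agent.Lib.QIP.Walk
import Pool.Agent.Lib.QIP.Chr

/-!
# Iterated resolvents as expectations over the path and independent geometric times
-/

set_option autoImplicit false

open MeasureTheory ProbabilityTheory Filter
open scoped ENNReal NNReal Topology BigOperators

namespace Pool.Agent.Lib.QIP

variable {d : ℕ} {C : Cond d} {ν : V d → Measure (ℕ → V d)}

/-- A function of the first `n + 1` positions is measurable. -/
theorem measurable_of_dep {α : Type*} [MeasurableSpace α] (n : ℕ) (g : (ℕ → V d) → α)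
    (hg : ∀ w w', (∀ i, i ≤ n → w i = w' i) → g w = g w') : Measurable g := by
  let r : (ℕ → V d) → (Fin (n + 1) → V d) := fun w i => w i
  let e : (Fin (n + 1) → V d) → (ℕ → V d) := fun z i => if h : i < n + 1 then z ⟨i, h⟩ else 0
  have h1 : g = (g ∘ e) ∘ r := by
    ext w
    apply hg
    intro i hi
    simp only [e, r]
    rw [dif_pos (by omega)]
  rw [h1]
  have h2 : Measurable (g ∘ e) := measurable_of_countable _
  exact h2.comp (by fun_prop)

theorem iter_PD_univ {E : Type*} [NormedAddCommGroup E] [NormedSpace ℝ E] (C : Cond d)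
    (k : ℕ) (f : V d → E) : (C.PD Set.univ)^[k] (Set.univ.indicator f) = (C.P)^[k] f := by
  rw [Set.indicator_univ]
  induction k generalizing f with
  | zero => rfl
  | succ k ih =>
    rw [Function.iterate_succ_apply, Function.iterate_succ_apply]
    have : C.PD Set.univ f = C.P f := by
      unfold Cond.PD
      rw [Set.indicator_univ]
    rw [this, ih]

theorem norm_iterP_le (hd : 0 < d) (C : Cond d) {E : Type*} [NormedAddCommGroup E]
    [NormedSpace ℝ E] {f : V d → E} {M : ℝ} (hf : ∀ x, ‖f x‖ ≤ M) (k : ℕ) (x : V d) :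
    ‖(C.P)^[k] f x‖ ≤ M := by
  rw [← iter_PD_univ]
  exact C.norm_iter_le hd _ (Cond.norm_indicator_le _ hf) k x

theorem norm_RR_le (hd : 0 < d) (C : Cond d) (L : List (ℝ × (Fin d → ℝ)))
    (hL : ∀ a ∈ L, 0 < a.1) (x : V d) : ‖RR C L x‖ ≤ 1 := by
  induction L generalizing x with
  | nil => simp [RR]
  | cons a L ih =>
    have ih' := ih (fun b hb => hL b (List.mem_cons_of_mem _ hb))
    simp only [RR, norm_mul, norm_chr, one_mul]
    refine C.norm_res_le hd _ (hL a List.mem_cons_self) ?_ x
    intro y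
    rw [norm_mul, norm_chr, one_mul]
    exact ih' y

/-- The resolvent as an expectation over a geometric time. -/
theorem res_univ_eq (hd : 0 < d) (C : Cond d) {lam : ℝ} (h : 0 < lam) {f : V d → ℂ} {M : ℝ}
    (hf : ∀ x, ‖f x‖ ≤ M) (x : V d) :
    C.res Set.univ lam f x = ∫ k, (C.P)^[k] f x ∂(geo lam) := by
  rw [integral_geo h]
  · unfold Cond.res
    congr 1
    ext k
    rw [iter_PD_univ]
    rfl
  · apply integrable_geo h
    refine Summable.of_nonneg_of_le (fun k => mul_nonneg (gw_nonneg h k) (norm_nonneg _)) ?_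
      ((hasSum_gw h).summable.mul_right M)
    intro k
    exact mul_le_mul_of_nonneg_left (norm_iterP_le hd C hf k x) (gw_nonneg h k)

theorem geoM_succ {E : Type*} [NormedAddCommGroup E] [NormedSpace ℝ E] {lam : ℝ} (h : 0 < lam)
    (M : ℕ) {f : (Fin (M + 1) → ℕ) → E} (hf : ∃ B, ∀ κ, ‖f κ‖ ≤ B) :
    ∫ κ, f κ ∂(geoM lam (M + 1)) =
      ∫ k, ∫ κ', f (Fin.cons k κ' : Fin (M + 1) → ℕ) ∂(geoM lam M) ∂(geo lam) := by
  have h1 := isProb_geo h
  have h2 := isProb_geoM h M
  have h3 := isProb_geoM h (M + 1)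
  obtain ⟨B, hB⟩ := hf
  have hmp := measurePreserving_piFinSuccAbove (fun _ : Fin (M + 1) => geo lam) 0
  have h4 : ∫ κ, f κ ∂(geoM lam (M + 1)) = ∫ q : ℕ × (Fin M → ℕ),
      f (Fin.cons q.1 q.2 : Fin (M + 1) → ℕ) ∂((geo lam).prod (geoM lam M)) := by
    have h5 := hmp.integral_comp (MeasurableEquiv.measurableEmbedding _)
      (fun q : ℕ × (Fin M → ℕ) => f (Fin.cons q.1 q.2 : Fin (M + 1) → ℕ))
    unfold geoM
    rw [← h5]
    congr 1
    ext κ
    congr 1
    ext i
    refine Fin.cases ?_ (fun j => ?_) i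
    · rfl
    · rfl
  rw [h4, integral_prod]
  refine Integrable.of_bound (C := B) StronglyMeasurable.of_discrete.aestronglyMeasurable ?_
  exact ae_of_all _ (fun q => hB _)

/-- The path formula. -/
theorem path_formula (hd : 0 < d) (hν : IsWalk C ν) {lam : ℝ} (h : 0 < lam) (x : V d) :
    ∀ (M : ℕ) (ξ : Fin M → Fin d → ℝ) (n : ℕ) (g : (ℕ → V d) → ℂ)
      (_ : ∀ w w', (∀ i, i ≤ n → w i = w' i) → g w = g w') (Mg : ℝ) (_ : ∀ w, ‖g w‖ ≤ Mg),
      ∫ w, g w * RR C (List.ofFn fun i => (lam, ξ i)) (w n) ∂ν x =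
        ∫ κ, ∫ w, g w * ∏ i : Fin M, chr (ξ i) (w (n + Sf κ (i + 1)) - w (n + Sf κ i)) ∂ν x
          ∂(geoM lam M) := by
  intro M
  induction M with
  | zero =>
    intro ξ n g hg Mg hgb
    have := isProb_geoM h 0
    simp [RR]
  | succ M ih =>
    intro ξ n g hg Mg hgb
    have hp := hν.prob x
    have hpg := isProb_geo h
    have hpM := isProb_geoM h M
    have hMg : 0 ≤ Mg := (norm_nonneg _).trans (hgb 0)
    set L' : List (ℝ × (Fin d → ℝ)) := List.ofFn (fun i : Fin M => (lam, ξ i.succ)) with hL'
    have hL'pos : ∀ a ∈ L', 0 < a.1 := by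
      intro a ha
      rw [hL', List.mem_ofFn] at ha
      obtain ⟨i, rfl⟩ := ha
      exact h
    have hL : (List.ofFn fun i : Fin (M + 1) => (lam, ξ i)) = (lam, ξ 0) :: L' := by
      rw [List.ofFn_succ]
    set f : V d → ℂ := fun y => chr (ξ 0) y * RR C L' y with hf
    have hfb : ∀ y, ‖f y‖ ≤ 1 := by
      intro y
      rw [hf]
      simp only
      rw [norm_mul, norm_chr, one_mul]
      exact norm_RR_le hd C L' hL'pos y
    have hRR : ∀ y, RR C ((lam, ξ 0) :: L') y = ∫ k, chr (ξ 0) (-y) * (C.P)^[k] f y ∂(geo lam) := by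
      intro y
      rw [integral_const_mul]
      simp only [RR]
      rw [res_univ_eq hd C h hfb]
    have hgm : Measurable g := measurable_of_dep n g hg
    rw [hL]
    simp_rw [hRR, ← integral_const_mul]
    -- swap
    rw [integral_integral_swap]
    · rw [geoM_succ h]
      · congr 1
        ext k
        have e1 : ∀ w : ℕ → V d, g w * (chr (ξ 0) (-w n) * (C.P)^[k] f (w n)) =
            (g w * chr (ξ 0) (-w n)) * (C.P)^[k] f (w n) := fun w => by ring
        simp_rw [e1]
        have hg1 : ∀ w w' : ℕ → V d, (∀ i, i ≤ n → w i = w' i) →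
            g w * chr (ξ 0) (-w n) = g w' * chr (ξ 0) (-w' n) := by
          intro w w' hw
          rw [hg w w' hw, hw n le_rfl]
        rw [← hν.integral_past hd x n k (fun w => g w * chr (ξ 0) (-w n)) hg1 Mg (by
          intro w
          rw [norm_mul, norm_chr, mul_one]
          exact hgb w) f 1 hfb]
        have e2 : ∀ w : ℕ → V d, (g w * chr (ξ 0) (-w n)) * f (w (n + k)) =
            (g w * chr (ξ 0) (w (n + k) - w n)) * RR C L' (w (n + k)) := by
          intro w
          rw [hf]
          simp only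
          rw [sub_eq_add_neg, chr_add]
          ring
        simp_rw [e2]
        rw [ih (fun i => ξ i.succ) (n + k) (fun w => g w * chr (ξ 0) (w (n + k) - w n)) (by
          intro w w' hw
          rw [hg w w' (fun i hi => hw i (by omega)), hw n (by omega), hw (n + k) le_rfl]) Mg (by
          intro w
          rw [norm_mul, norm_chr, mul_one]
          exact hgb w)]
        congr 1
        ext κ'
        congr 1
        ext w
        rw [Fin.prod_univ_succ]
        have e3 : Sf (Fin.cons k κ' : Fin (M + 1) → ℕ) ((0 : Fin (M + 1)) + 1 : ℕ) = k := by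
          have := Sf_cons_succ k κ' 0
          rw [Sf_zero, add_zero] at this
          simpa using this
        have e4 : Sf (Fin.cons k κ' : Fin (M + 1) → ℕ) ((0 : Fin (M + 1)) : ℕ) = 0 := Sf_zero _
        rw [e3, e4, add_zero, mul_assoc]
        congr 2
        apply Finset.prod_congr rfl
        intro i _
        have e5 : Sf (Fin.cons k κ' : Fin (M + 1) → ℕ) ((i.succ : Fin (M + 1)) + 1 : ℕ) =
            k + Sf κ' (i + 1) := by
          rw [Fin.val_succ]
          exact Sf_cons_succ k κ' (i + 1)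
        have e6 : Sf (Fin.cons k κ' : Fin (M + 1) → ℕ) ((i.succ : Fin (M + 1)) : ℕ) =
            k + Sf κ' i := by
          rw [Fin.val_succ]
          exact Sf_cons_succ k κ' i
        rw [e5, e6, add_assoc, add_assoc]
      · refine ⟨Mg, fun κ => ?_⟩
        refine (norm_integral_le_of_norm_le_const (C := Mg) (ae_of_all _ fun w => ?_)).trans ?_
        · rw [norm_mul, norm_prod]
          have : ∏ i : Fin (M + 1), ‖chr (ξ i) (w (n + Sf κ (i + 1)) - w (n + Sf κ i))‖ = 1 := by
            apply Finset.prod_eq_one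
            intro i _
            exact norm_chr _ _
          rw [this, mul_one]
          exact hgb w
        · simp
    · -- integrability on the product
      refine Integrable.of_bound (C := Mg) ?_ (ae_of_all _ fun q => ?_)
      · apply Measurable.aestronglyMeasurable
        have h1 : Measurable (fun q : (ℕ → V d) × ℕ => ((q.1 n, q.2) : V d × ℕ)) := by fun_prop
        have h2 : Measurable (fun q : V d × ℕ => chr (ξ 0) (-q.1) * (C.P)^[q.2] f q.1) :=
          measurable_of_countable _
        have h3 := h2.comp h1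
        have h4 : Measurable (fun q : (ℕ → V d) × ℕ => g q.1) := hgm.comp measurable_fst
        exact h4.mul h3
      · have h1 : ‖g q.1‖ * ‖(C.P)^[q.2] f (q.1 n)‖ ≤ Mg * 1 :=
          mul_le_mul (hgb _) (norm_iterP_le hd C hfb _ _) (norm_nonneg _) hMg
        have h2 : ‖Function.uncurry (fun (w : ℕ → V d) (k : ℕ) =>
            g w * (chr (ξ 0) (-w n) * (C.P)^[k] f (w n))) q‖ =
            ‖g q.1‖ * ‖(C.P)^[q.2] f (q.1 n)‖ := by
          rw [Function.uncurry_apply_pair, norm_mul, norm_mul, norm_chr, one_mul]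
        rw [h2]
        linarith

end Pool.Agent.Lib.QIP
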