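import Pool.Agent.Lib.QIP.Env

/-!
# Measurability, covariance and edge flips for the resolvent in the random environment
-/

set_option autoImplicit false

open MeasureTheory ProbabilityTheory Filter
open scoped ENNReal NNReal Topology BigOperators

namespace Pool.Agent.Lib.QIP

theorem measurable_tsum_aux {Ω ι E : Type*} [MeasurableSpace Ω] [Countable ι]
    [NormedAddCommGroup E] [MeasurableSpace E] [BorelSpace E] [SecondCountableTopology E]
    {f : ι → Ω → E} (hf : ∀ i, Measurable (f i)) (hs : ∀ ω, Summable (fun i => f i ω)) :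
    Measurable (fun ω => ∑' i, f i ω) := by
  refine measurable_of_tendsto_metrizable' (atTop : Filter (Finset ι))
    (f := fun s ω => ∑ i ∈ s, f i ω) ?_ ?_
  · intro s
    exact Finset.measurable_sum s fun i _ => hf i
  · rw [tendsto_pi_nhds]
    intro ω
    exact (hs ω).hasSum

variable {d : ℕ}

theorem measurable_deg (x : V d) : Measurable (fun ω : Env d => (cond ω).deg x) :=
  measurable_tsum_aux (fun y => measurable_c x y) (fun ω => (cond ω).summable_c x)

section meas

variable {E : Type*} [NormedAddCommGroup E] [NormedSpace ℝ E] [MeasurableSpace E] [BorelSpace E]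
  [SecondCountableTopology E]

theorem measurable_P {f : Env d → V d → E} (hf : ∀ y, Measurable (fun ω => f ω y)) (x : V d) :
    Measurable (fun ω => (cond ω).P (f ω) x) := by
  unfold Cond.P
  refine Measurable.smul (measurable_deg x).inv ?_
  exact measurable_tsum_aux (fun y => (measurable_c x y).smul (hf y))
    (fun ω => (cond ω).summable_smul (f ω) x)

theorem measurable_sumc {f : Env d → V d → E} (hf : ∀ y, Measurable (fun ω => f ω y)) (x : V d) :
    Measurable (fun ω => ∑' y, (cond ω).c x y • f ω y) :=
  measurable_tsum_aux (fun y => (measurable_c x y).smul (hf y))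
    (fun ω => (cond ω).summable_smul (f ω) x)

theorem measurable_iter (D : Set (V d)) {f : Env d → V d → E}
    (hf : ∀ y, Measurable (fun ω => f ω y)) (k : ℕ) (x : V d) :
    Measurable (fun ω => ((cond ω).PD D)^[k] (f ω) x) := by
  induction k generalizing x with
  | zero => exact hf x
  | succ k ih =>
    simp_rw [Function.iterate_succ_apply']
    unfold Cond.PD
    by_cases hx : x ∈ D
    · simp_rw [Set.indicator_of_mem hx]
      exact measurable_P ih x
    · simp_rw [Set.indicator_of_notMem hx]
      exact measurable_const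

theorem measurable_res [CompleteSpace E] (hd : 0 < d) (D : Set (V d)) {lam : ℝ} (hl : 0 < lam)
    {f : V d → E} {M : ℝ} (hf : ∀ x, ‖f x‖ ≤ M) (x : V d) :
    Measurable (fun ω : Env d => (cond ω).res D lam f x) := by
  unfold Cond.res
  refine measurable_tsum_aux (fun k => ?_) (fun ω => (cond ω).summable_res hd D hl hf x)
  exact (measurable_iter D (f := fun _ => D.indicator f) (fun y => measurable_const) k x).const_smul _

end meas

theorem measurable_G (hd : 0 < d) (D : Set (V d)) {lam : ℝ} (hl : 0 < lam) (v x : V d) :
    Measurable (fun ω : Env d => (cond ω).G D lam v x) := by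
  unfold Cond.G
  exact ((measurable_deg v).const_mul _).inv.mul
    (measurable_res hd D hl (Cond.norm_single_le v) x)

section covariance

variable {C C' : Cond d} {a : V d}

theorem deg_cov (h : ∀ x y, C'.c x y = C.c (x + a) (y + a)) (x : V d) :
    C'.deg x = C.deg (x + a) := by
  unfold Cond.deg
  simp_rw [h]
  exact (Equiv.addRight a).tsum_eq (fun y => C.c (x + a) y)

variable {E : Type*} [NormedAddCommGroup E] [NormedSpace ℝ E]

theorem P_cov (h : ∀ x y, C'.c x y = C.c (x + a) (y + a)) (f : V d → E) (x : V d) :
    C'.P (fun y => f (y + a)) x = C.P f (x + a) := by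
  unfold Cond.P
  rw [deg_cov h]
  simp_rw [h]
  congr 1
  exact (Equiv.addRight a).tsum_eq (fun y => C.c (x + a) y • f y)

theorem iter_cov (h : ∀ x y, C'.c x y = C.c (x + a) (y + a)) (D : Set (V d)) (f : V d → E)
    (k : ℕ) (x : V d) :
    (C'.PD {y | y + a ∈ D})^[k] (fun y => f (y + a)) x = (C.PD D)^[k] f (x + a) := by
  induction k generalizing x with
  | zero => rfl
  | succ k ih =>
    rw [Function.iterate_succ_apply', Function.iterate_succ_apply']
    have h1 : (C'.PD {y | y + a ∈ D})^[k] (fun y => f (y + a)) =
        fun y => (C.PD D)^[k] f (y + a) := funext ih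
    rw [h1]
    unfold Cond.PD
    by_cases hx : x + a ∈ D
    · rw [Set.indicator_of_mem hx, Set.indicator_of_mem (show x ∈ {y | y + a ∈ D} from hx)]
      exact P_cov h _ x
    · rw [Set.indicator_of_notMem hx, Set.indicator_of_notMem (show x ∉ {y | y + a ∈ D} from hx)]

theorem res_cov (h : ∀ x y, C'.c x y = C.c (x + a) (y + a)) (D : Set (V d)) (lam : ℝ)
    (f : V d → E) (x : V d) :
    C'.res {y | y + a ∈ D} lam (fun y => f (y + a)) x = C.res D lam f (x + a) := by
  unfold Cond.res
  congr 1
  ext k
  congr 1
  have h1 : ({y | y + a ∈ D} : Set (V d)).indicator (fun y => f (y + a)) =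
      fun y => D.indicator f (y + a) := by
    ext y
    by_cases hy : y + a ∈ D
    · rw [Set.indicator_of_mem hy, Set.indicator_of_mem (show y ∈ {y | y + a ∈ D} from hy)]
    · rw [Set.indicator_of_notMem hy, Set.indicator_of_notMem (show y ∉ {y | y + a ∈ D} from hy)]
  rw [h1]
  exact iter_cov h D _ k x

theorem G_cov (h : ∀ x y, C'.c x y = C.c (x + a) (y + a)) (D : Set (V d)) (lam : ℝ)
    (v x : V d) : C'.G {y | y + a ∈ D} lam v x = C.G D lam (v + a) (x + a) := by
  unfold Cond.G
  rw [deg_cov h, ← res_cov h]
  congr 2
  ext y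
  by_cases hy : y = v
  · subst hy
    simp
  · have : y + a ≠ v + a := fun h => hy (add_right_cancel h)
    rw [Pi.single_eq_of_ne hy, Pi.single_eq_of_ne this]

end covariance

theorem good_update_iff [DecidableEq (Sym2 (V d))] {a b : V d} (hn : n1 (b - a) ≠ 1)
    (ω : Env d) (v : Bool) : Good (Function.update ω s(a, b) v) ↔ Good ω := by
  have key : ∀ (ω ω' : Env d), (∀ e, e ≠ s(a, b) → ω' e = ω e) → Good ω → Good ω' := by
    intro ω ω' h hg
    refine ⟨fun x => ?_, fun x y hxy => ?_⟩
    · refine ((hg.1 x).union (Set.toFinite ({a, b} : Set (V d)))).subset ?_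
      rintro y ⟨hy1, hy2⟩
      by_cases he : s(x, y) = s(a, b)
      · right
        rw [Sym2.eq_iff] at he
        rcases he with ⟨_, h2⟩ | ⟨_, h2⟩
        · simp [h2]
        · simp [h2]
      · left
        exact ⟨hy1, by rw [← h _ he]; exact hy2⟩
    · have he : s(x, y) ≠ s(a, b) := by
        intro he
        rw [Sym2.eq_iff] at he
        rcases he with ⟨rfl, rfl⟩ | ⟨rfl, rfl⟩
        · exact hn hxy
        · exact hn (by rw [n1_sub_comm]; exact hxy)
      rw [h _ he]
      exact hg.2 x y hxy
  constructor
  · intro h
    refine key _ _ (fun e he => ?_) h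
    rw [Function.update_of_ne he]
  · intro h
    refine key _ _ (fun e he => ?_) h
    rw [Function.update_of_ne he]

theorem Cond.ext' {C C' : Cond d} (h : C.c = C'.c) : C = C' := by
  cases C
  cases C'
  simp only at h
  subst h
  rfl

/-- Flipping an edge which is not a nearest neighbour edge either adds this edge to the
conductance configuration or (in bad configurations) does not change it. -/
theorem flip_cases [DecidableEq (Sym2 (V d))] {a b : V d} (hab : a ≠ b) (hn : n1 (b - a) ≠ 1)
    (ω : Env d) :
    Cond.AddEdge (cond (Function.update ω s(a, b) false)) (cond (Function.update ω s(a, b) true)) a b ∨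
      cond (Function.update ω s(a, b) false) = cond (Function.update ω s(a, b) true) := by
  classical
  by_cases hg : Good ω
  · left
    refine ⟨hab, fun x y => ?_⟩
    rw [cond_c_of_good ((good_update_iff hn ω _).2 hg), cond_c_of_good ((good_update_iff hn ω _).2 hg)]
    by_cases he : s(x, y) = s(a, b)
    · rw [he, Function.update_self, Function.update_self]
      rw [Sym2.eq_iff] at he
      rw [if_pos he]
      have hyx : y ≠ x := by
        rcases he with ⟨h1, h2⟩ | ⟨h1, h2⟩
        · rw [h1, h2]; exact hab.symm
        · rw [h1, h2]; exact hab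
      simp [hyx]
    · rw [Function.update_of_ne he, Function.update_of_ne he]
      rw [Sym2.eq_iff] at he
      rw [if_neg he, add_zero]
  · right
    have h1 : ¬ Good (Function.update ω s(a, b) false) := fun h => hg ((good_update_iff hn ω _).1 h)
    have h2 : ¬ Good (Function.update ω s(a, b) true) := fun h => hg ((good_update_iff hn ω _).1 h)
    apply Cond.ext'
    ext x y
    rw [cond_c, cond_c, if_neg h1, if_neg h2]

theorem tsum_sym2_le (F : Sym2 (V d) → ℝ≥0∞) (Ψ : V d × V d → ℝ≥0∞)
    (h0 : ∀ a, F s(a, a) = 0) (h : ∀ a b, a ≠ b → F s(a, b) ≤ Ψ (a, b) + Ψ (b, a)) :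
    ∑' e, F e ≤ ∑' q, Ψ q := by
  classical
  -- index by off-diagonal edges and a bit
  let T := {e : Sym2 (V d) // ¬ e.IsDiag}
  let g : T × Bool → V d × V d := fun t => if t.2 then t.1.1.out else t.1.1.out.swap
  have hout : ∀ e : Sym2 (V d), s(e.out.1, e.out.2) = e := fun e => Quot.out_eq e
  have hg : Function.Injective g := by
    rintro ⟨e, b⟩ ⟨e', b'⟩ hh
    have hs : s((g (e, b)).1, (g (e, b)).2) = e.1 := by
      cases b
      · simp only [g, Bool.false_eq_true, if_false, Prod.fst_swap, Prod.snd_swap]
        rw [Sym2.eq_swap]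
        exact hout e.1
      · simp only [g, if_true]
        exact hout e.1
    have hs' : s((g (e', b')).1, (g (e', b')).2) = e'.1 := by
      cases b'
      · simp only [g, Bool.false_eq_true, if_false, Prod.fst_swap, Prod.snd_swap]
        rw [Sym2.eq_swap]
        exact hout e'.1
      · simp only [g, if_true]
        exact hout e'.1
    have he : e = e' := by
      apply Subtype.ext
      rw [← hs, ← hs', hh]
    subst he
    have hne : e.1.out.1 ≠ e.1.out.2 := by
      intro hcon
      apply e.2
      rw [← hout e.1, Sym2.mk_isDiag_iff]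
      exact hcon
    cases b <;> cases b'
    · rfl
    · exfalso
      simp only [g, Bool.false_eq_true, if_false, if_true] at hh
      exact hne (congrArg Prod.snd hh)
    · exfalso
      simp only [g, Bool.false_eq_true, if_false, if_true] at hh
      exact hne (congrArg Prod.fst hh)
    · rfl
  have h1 : ∑' t : T × Bool, Ψ (g t) ≤ ∑' q, Ψ q := ENNReal.tsum_comp_le_tsum_of_injective hg Ψ
  refine le_trans ?_ h1
  rw [ENNReal.tsum_prod']
  have h2 : ∑' e, F e = ∑' e : T, F e.1 := by
    symm
    apply tsum_subtype_eq_of_support_subset (f := F)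
    intro e he
    simp only [Function.mem_support] at he
    intro hdiag
    apply he
    induction e using Sym2.ind with
    | _ x y =>
      have hdiag' : x = y := Sym2.mk_isDiag_iff.1 hdiag
      subst hdiag'
      exact h0 x
  rw [h2]
  refine ENNReal.tsum_le_tsum fun e => ?_
  rw [tsum_bool]
  have hne : e.1.out.1 ≠ e.1.out.2 := by
    intro hcon
    apply e.2
    rw [← hout e.1, Sym2.mk_isDiag_iff]
    exact hcon
  have h3 := h _ _ hne
  rw [hout e.1] at h3
  refine h3.trans ?_
  rw [add_comm]
  simp [g, Prod.swap]

end Pool.Agent.Lib.QIP
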