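import Pool.Agent.Lib.QIP.LatticeDef

/-!
# Chunk B2: a Nash type inequality on `ℤ^d`
-/

set_option autoImplicit false

open MeasureTheory ProbabilityTheory Filter
open scoped ENNReal NNReal Topology BigOperators

namespace Pool.Agent.Lib.QIP

/-- the Hilbert space `ℓ²(ℤ^d)` -/
abbrev L2 (d : ℕ) := lp (fun _ : V d => ℝ) 2

theorem L2.norm_sq {d : ℕ} (f : L2 d) : ‖f‖ ^ 2 = ∑' x, (f x) ^ 2 := by
  rw [← real_inner_self_eq_norm_sq, lp.inner_eq_tsum]
  congr 1
  ext x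
  simp [sq]

theorem memL2_iff {d : ℕ} (f : V d → ℝ) :
    Memℓp (E := fun _ : V d => ℝ) f 2 ↔ Summable (fun x => (f x) ^ 2) := by
  rw [memℓp_gen_iff (by norm_num)]
  simp

theorem summable_sq_of_summable {d : ℕ} {g : V d → ℝ} (hg : Summable (fun x => |g x|)) :
    Summable (fun x => (g x) ^ 2) := by
  have hS0 : 0 ≤ ∑' x, |g x| := tsum_nonneg fun x => abs_nonneg _
  refine Summable.of_nonneg_of_le (fun x => sq_nonneg _) ?_ (hg.mul_left (∑' x, |g x|))
  intro x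
  rw [← sq_abs, sq]
  exact mul_le_mul_of_nonneg_right (hg.le_tsum x (fun y _ => abs_nonneg _)) (abs_nonneg _)

/-- A Nash type inequality on `ℤ^d`. -/
theorem nash_bound (d : ℕ) (hd : 1 ≤ d) :
    ∃ C : ℝ, 0 < C ∧ ∀ g : V d → ℝ, Summable (fun x => |g x|) → ∀ l : ℕ, 1 ≤ l →
      ∑' x, (g x) ^ 2 ≤ C * ((l : ℝ) ^ 2 * Enn g + (∑' x, |g x|) ^ 2 / (l : ℝ) ^ d) := by
  have hd1 : (1 : ℝ) ≤ d := by exact_mod_cast hd
  refine ⟨2 * d, by positivity, ?_⟩
  intro g hg l hl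
  have hl0 : (0 : ℝ) < l := by exact_mod_cast hl
  set S : ℝ := ∑' x, |g x| with hS
  have hS0 : 0 ≤ S := tsum_nonneg fun x => abs_nonneg _
  have hsq := summable_sq_of_summable hg
  have hshift : ∀ k : V d, Summable (fun x => |g (x + k)|) := fun k =>
    (Equiv.addRight k).summable_iff.2 hg
  let G : V d → L2 d := fun k => ⟨fun x => g (x + k), (memL2_iff _).2
    (summable_sq_of_summable (hshift k))⟩
  have hGx : ∀ k x, (G k) x = g (x + k) := fun _ _ => rfl
  set φ : V d → ℝ := fun k => ‖G k - G 0‖ with hφ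
  have htr : ∀ k k', ‖G (k + k') - G k'‖ = φ k := by
    intro k k'
    have h1 : ‖G (k + k') - G k'‖ ^ 2 = φ k ^ 2 := by
      rw [hφ, L2.norm_sq, L2.norm_sq, ← (Equiv.addRight k').tsum_eq
        (fun x => ((G k - G 0 : L2 d) x) ^ 2)]
      congr 1
      ext x
      have e1 : ((G (k + k') - G k' : L2 d) x) = g (x + (k + k')) - g (x + k') := rfl
      have e2 : ((G k - G 0 : L2 d) ((Equiv.addRight k') x)) = g (x + k' + k) - g (x + k' + 0) := rfl
      rw [e1, e2, add_zero]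
      congr 3
      abel
    exact (pow_left_inj₀ (norm_nonneg _) (norm_nonneg _) (by norm_num)).1 h1
  have hsub : ∀ k k', φ (k + k') ≤ φ k + φ k' := by
    intro k k'
    calc φ (k + k') = ‖(G (k + k') - G k') + (G k' - G 0)‖ := by rw [hφ]; simp
      _ ≤ ‖G (k + k') - G k'‖ + ‖G k' - G 0‖ := norm_add_le _ _
      _ = φ k + φ k' := by rw [htr]
  have h0 : φ 0 = 0 := by rw [hφ]; simp
  have hφ0 : ∀ k, 0 ≤ φ k := fun k => norm_nonneg _
  have hnsmul : ∀ (n : ℕ) (k : V d), φ (n • k) ≤ n * φ k := by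
    intro n k
    induction n with
    | zero => simp [h0]
    | succ n ih =>
      rw [succ_nsmul]
      refine (hsub _ _).trans ?_
      push_cast
      linarith
  -- differences over vectors of the cube
  let Q : Finset (V d) := Fintype.piFinset (fun _ => Finset.Ico (0 : ℤ) l)
  have hQcard : (Q.card : ℝ) = (l : ℝ) ^ d := by
    simp [Q]
  have hφQ : ∀ k ∈ Q, φ k ≤ l * ∑ i, φ (ee i) := by
    intro k hk
    have hk' : ∀ i, 0 ≤ k i ∧ k i < l := by
      intro i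
      have := Fintype.mem_piFinset.1 hk i
      simpa using this
    have e1 : k = ∑ i, ((k i).toNat) • (ee i : V d) := by
      ext j
      rw [Finset.sum_apply, Finset.sum_eq_single j]
      · simp [ee, (hk' j).1]
      · intro i _ hij
        simp [ee, Pi.single_eq_of_ne hij.symm]
      · simp
    have e2 : φ (∑ i, ((k i).toNat) • (ee i : V d)) ≤ ∑ i, φ (((k i).toNat) • (ee i : V d)) := by
      exact Finset.le_sum_of_subadditive φ h0.le hsub Finset.univ _
    rw [e1]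
    refine e2.trans ?_
    rw [Finset.mul_sum]
    apply Finset.sum_le_sum
    intro i _
    refine (hnsmul _ _).trans ?_
    apply mul_le_mul_of_nonneg_right _ (hφ0 _)
    have h1 := (hk' i).2
    have h2 : ((k i).toNat : ℤ) = k i := Int.toNat_of_nonneg (hk' i).1
    have h3 : ((k i).toNat : ℤ) ≤ l := by omega
    exact_mod_cast h3
  -- the average
  let A : L2 d := ((l : ℝ) ^ d)⁻¹ • ∑ k ∈ Q, G k
  have hAx : ∀ x, A x = ((l : ℝ) ^ d)⁻¹ * ∑ k ∈ Q, g (x + k) := by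
    intro x
    have e1 : A x = ((l : ℝ) ^ d)⁻¹ * (∑ k ∈ Q, G k : L2 d) x := rfl
    rw [e1]
    congr 1
    have e2 : ∀ s : Finset (V d), (∑ k ∈ s, G k : L2 d) x = ∑ k ∈ s, g (x + k) := by
      intro s
      classical
      induction s using Finset.induction_on with
      | empty => rfl
      | insert k s hk ih =>
        rw [Finset.sum_insert hk, Finset.sum_insert hk]
        have e3 : (G k + ∑ k ∈ s, G k : L2 d) x = (G k) x + (∑ k ∈ s, G k : L2 d) x := rfl
        rw [e3, ih, hGx]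
    exact e2 Q
  have hld : (0 : ℝ) < (l : ℝ) ^ d := by positivity
  have hdiff : ‖G 0 - A‖ ≤ l * ∑ i, φ (ee i) := by
    have e1 : G 0 - A = ((l : ℝ) ^ d)⁻¹ • ∑ k ∈ Q, (G 0 - G k) := by
      rw [Finset.sum_sub_distrib, smul_sub, Finset.sum_const, ← Nat.cast_smul_eq_nsmul ℝ, hQcard,
        smul_smul, inv_mul_cancel₀ hld.ne', one_smul]
    rw [e1, norm_smul, norm_inv, Real.norm_of_nonneg hld.le, inv_mul_le_iff₀ hld]
    refine (norm_sum_le _ _).trans ?_
    have e2 : ∀ k ∈ Q, ‖G 0 - G k‖ ≤ l * ∑ i, φ (ee i) := by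
      intro k hk
      rw [norm_sub_rev]
      exact hφQ k hk
    refine (Finset.sum_le_sum e2).trans ?_
    rw [Finset.sum_const, nsmul_eq_mul, hQcard]
  have hAabs : ∀ x, |A x| ≤ ((l : ℝ) ^ d)⁻¹ * ∑ k ∈ Q, |g (x + k)| := by
    intro x
    rw [hAx, abs_mul, abs_of_pos (inv_pos.2 hld)]
    exact mul_le_mul_of_nonneg_left (Finset.abs_sum_le_sum_abs _ _) (inv_pos.2 hld).le
  have hAsup : ∀ x, |A x| ≤ ((l : ℝ) ^ d)⁻¹ * S := by
    intro x
    refine (hAabs x).trans (mul_le_mul_of_nonneg_left ?_ (inv_pos.2 hld).le)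
    have e1 : ∑ k ∈ Q, |g (x + k)| ≤ ∑' k, |g (x + k)| := by
      have hs : Summable (fun k => |g (x + k)|) := by
        have := hshift x
        refine ((Equiv.addLeft x).summable_iff (f := fun y => |g y|)).2 hg |>.congr ?_
        intro k
        rfl
      exact hs.sum_le_tsum Q (fun _ _ => abs_nonneg _)
    refine e1.trans (le_of_eq ?_)
    have e2 := (Equiv.addLeft x).tsum_eq (fun y => |g y|)
    rw [hS, ← e2]
    rfl
  have hAsum : ∑' x, (((l : ℝ) ^ d)⁻¹ * ∑ k ∈ Q, |g (x + k)|) = S := by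
    rw [tsum_mul_left, Summable.tsum_finsetSum (fun k _ => hshift k)]
    have e1 : ∀ k ∈ Q, ∑' x, |g (x + k)| = S := by
      intro k _
      exact (Equiv.addRight k).tsum_eq (fun y => |g y|)
    rw [Finset.sum_congr rfl e1, Finset.sum_const, nsmul_eq_mul, hQcard, ← mul_assoc,
      inv_mul_cancel₀ hld.ne', one_mul]
  have hAsummable : Summable (fun x => (((l : ℝ) ^ d)⁻¹ * ∑ k ∈ Q, |g (x + k)|)) :=
    (summable_sum (fun k _ => hshift k)).mul_left _
  have hAnorm : ‖A‖ ^ 2 ≤ S ^ 2 / (l : ℝ) ^ d := by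
    rw [L2.norm_sq]
    have e1 : ∀ x, (A x) ^ 2 ≤ (((l : ℝ) ^ d)⁻¹ * S) *
        (((l : ℝ) ^ d)⁻¹ * ∑ k ∈ Q, |g (x + k)|) := by
      intro x
      rw [← sq_abs, sq]
      exact mul_le_mul (hAsup x) (hAabs x) (abs_nonneg _) (by positivity)
    have e2 := Summable.tsum_le_tsum e1 ((memL2_iff _).1 A.2) (hAsummable.mul_left _)
    rw [tsum_mul_left, hAsum] at e2
    refine e2.trans (le_of_eq ?_)
    rw [div_eq_inv_mul]; ring
  -- energy
  have hE : ∑ i, φ (ee i) ^ 2 = Enn g := by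
    unfold Enn
    have e1 : ∀ i : Fin d, Summable (fun x => (g (x + ee i) - g x) ^ 2) := by
      intro i
      exact (memL2_iff _).1 (G (ee i) - G 0).2 |>.congr (fun x => by
        have : ((G (ee i) - G 0 : L2 d) x) = g (x + ee i) - g (x + 0) := rfl
        rw [add_zero] at this
        exact congrArg (· ^ 2) this)
    rw [Summable.tsum_finsetSum (fun i _ => e1 i)]
    apply Finset.sum_congr rfl
    intro i _
    rw [hφ, L2.norm_sq]
    congr 1
    ext x
    have : ((G (ee i) - G 0 : L2 d) x) = g (x + ee i) - g (x + 0) := rfl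
    rw [this, add_zero]
  have hCS : (∑ i, φ (ee i)) ^ 2 ≤ d * Enn g := by
    rw [← hE]
    have := sq_sum_le_card_mul_sum_sq (s := (Finset.univ : Finset (Fin d)))
      (f := fun i => φ (ee i))
    simpa using this
  have hEnn0 : 0 ≤ Enn g := by
    rw [← hE]; exact Finset.sum_nonneg fun i _ => sq_nonneg _
  have hmain : ∑' x, (g x) ^ 2 = ‖G 0‖ ^ 2 := by
    rw [L2.norm_sq]
    congr 1
    ext x
    rw [hGx, add_zero]
  rw [hmain]
  have h1 : ‖G 0‖ ≤ ‖G 0 - A‖ + ‖A‖ := by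
    have := norm_add_le (G 0 - A) A
    rwa [sub_add_cancel] at this
  have h2 : ‖G 0‖ ^ 2 ≤ 2 * ‖G 0 - A‖ ^ 2 + 2 * ‖A‖ ^ 2 := by
    nlinarith [norm_nonneg (G 0), norm_nonneg (G 0 - A), norm_nonneg A,
      sq_nonneg (‖G 0 - A‖ - ‖A‖)]
  have hsum0 : 0 ≤ ∑ i, φ (ee i) := Finset.sum_nonneg fun i _ => hφ0 _
  have h3 : ‖G 0 - A‖ ^ 2 ≤ (l : ℝ) ^ 2 * (d * Enn g) := by
    calc ‖G 0 - A‖ ^ 2 ≤ (l * ∑ i, φ (ee i)) ^ 2 := pow_le_pow_left₀ (norm_nonneg _) hdiff 2
      _ = (l : ℝ) ^ 2 * (∑ i, φ (ee i)) ^ 2 := by ring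
      _ ≤ _ := mul_le_mul_of_nonneg_left hCS (by positivity)
  have h4 : S ^ 2 / (l : ℝ) ^ d ≤ d * (S ^ 2 / (l : ℝ) ^ d) :=
    le_mul_of_one_le_left (by positivity) hd1
  nlinarith

end Pool.Agent.Lib.QIP
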