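import Pool.Agent.Lib.QIP.LatticeT
import Pool.Agent.Lib.QIP.LatticeN

/-!
# Functional inequalities on `ℤ^d`
-/
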