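import Pool.Agent.Lib.QIP.Resolvent
import Pool.Agent.Lib.QIP.Lattice

/-!
# The Green function of the killed walk and its deterministic bounds
-/

set_option autoImplicit false

open MeasureTheory ProbabilityTheory Filter
open scoped ENNReal NNReal Topology BigOperators

namespace Pool.Agent.Lib.QIP

namespace Cond

variable {d : ℕ} (C : Cond d)

/-- total weight with respect to the reversible measure -/
noncomputable def Wt (g : V d → ℝ) : ℝ≥0∞ := ∑' x, ENNReal.ofReal (C.deg x * g x)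

theorem ofReal_deg_mul {g : V d → ℝ} (hg : ∀ x, 0 ≤ g x) (y : V d) :
    ENNReal.ofReal (C.deg y * g y) = ∑' x, ENNReal.ofReal (C.c x y * g y) := by
  unfold deg
  rw [← tsum_mul_right, ENNReal.ofReal_tsum_of_nonneg]
  · simp_rw [C.symm y]
  · intro x
    exact mul_nonneg (C.nonneg _ _) (hg y)
  · exact (C.summable_c y).mul_right _

theorem Wt_PD_le (hd : 0 < d) (D : Set (V d)) {g : V d → ℝ} (hg : ∀ x, 0 ≤ g x) :
    C.Wt (C.PD D g) ≤ C.Wt g := by
  have h1 : ∀ x, ENNReal.ofReal (C.deg x * C.PD D g x) ≤ ∑' y, ENNReal.ofReal (C.c x y * g y) := by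
    intro x
    unfold PD
    by_cases hx : x ∈ D
    · rw [Set.indicator_of_mem hx]
      have h2 := C.deg_smul_P hd g x
      simp only [smul_eq_mul] at h2
      rw [h2, ENNReal.ofReal_tsum_of_nonneg]
      · intro y
        exact mul_nonneg (C.nonneg _ _) (hg y)
      · exact C.summable_mul g x
    · rw [Set.indicator_of_notMem hx]
      simp
  calc C.Wt (C.PD D g) ≤ ∑' x, ∑' y, ENNReal.ofReal (C.c x y * g y) := ENNReal.tsum_le_tsum h1
    _ = ∑' y, ∑' x, ENNReal.ofReal (C.c x y * g y) := ENNReal.tsum_comm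
    _ = C.Wt g := by
        unfold Wt
        simp_rw [C.ofReal_deg_mul hg]

theorem iter_nonneg (D : Set (V d)) {g : V d → ℝ} (hg : ∀ x, 0 ≤ g x) (k : ℕ) (x : V d) :
    0 ≤ (C.PD D)^[k] g x := by
  induction k generalizing x with
  | zero => exact hg x
  | succ k ih =>
    rw [Function.iterate_succ_apply']
    exact Set.indicator_nonneg (fun y _ => C.P_nonneg ih y) x

theorem Wt_iter_le (hd : 0 < d) (D : Set (V d)) {g : V d → ℝ} (hg : ∀ x, 0 ≤ g x) (k : ℕ) :
    C.Wt ((C.PD D)^[k] g) ≤ C.Wt g := by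
  induction k with
  | zero => exact le_rfl
  | succ k ih =>
    rw [Function.iterate_succ_apply']
    exact (C.Wt_PD_le hd D (C.iter_nonneg D hg k)).trans ih

theorem Wt_res_le (hd : 0 < d) (D : Set (V d)) {lam : ℝ} (h : 0 < lam) {g : V d → ℝ}
    (hg : ∀ x, 0 ≤ g x) {M : ℝ} (hM : ∀ x, g x ≤ M) : C.Wt (C.res D lam g) ≤ C.Wt g := by
  have hg' : ∀ x, 0 ≤ D.indicator g x := fun x => Set.indicator_nonneg (fun y _ => hg y) x
  have hM' : ∀ x, ‖g x‖ ≤ M := fun x => by rw [Real.norm_of_nonneg (hg x)]; exact hM x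
  have hc : ∀ k : ℕ, 0 ≤ (1 - sv lam) * sv lam ^ k := fun k =>
    mul_nonneg (by linarith [sv_lt_one h]) (pow_nonneg (sv_pos h).le _)
  have h1 : ∀ x, ENNReal.ofReal (C.deg x * C.res D lam g x) =
      ∑' k : ℕ, ENNReal.ofReal ((1 - sv lam) * sv lam ^ k) *
        ENNReal.ofReal (C.deg x * (C.PD D)^[k] (D.indicator g) x) := by
    intro x
    unfold res
    rw [← tsum_mul_left, ENNReal.ofReal_tsum_of_nonneg]
    · congr 1
      ext k
      rw [← ENNReal.ofReal_mul (hc k), smul_eq_mul]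
      congr 1
      ring
    · intro k
      exact mul_nonneg (C.deg_nonneg x) (mul_nonneg (hc k) (C.iter_nonneg D hg' k x))
    · exact (C.summable_res hd D h hM' x).mul_left _
  have h2 : C.Wt (C.res D lam g) = ∑' k : ℕ, ENNReal.ofReal ((1 - sv lam) * sv lam ^ k) *
      C.Wt ((C.PD D)^[k] (D.indicator g)) := by
    unfold Wt
    simp_rw [h1]
    rw [ENNReal.tsum_comm]
    simp_rw [ENNReal.tsum_mul_left]
  have h3 : C.Wt (D.indicator g) ≤ C.Wt g := by
    refine ENNReal.tsum_le_tsum fun x => ENNReal.ofReal_le_ofReal ?_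
    exact mul_le_mul_of_nonneg_left (Set.indicator_le_self' (fun x _ => hg x) x) (C.deg_nonneg x)
  rw [h2]
  calc ∑' k : ℕ, ENNReal.ofReal ((1 - sv lam) * sv lam ^ k) *
        C.Wt ((C.PD D)^[k] (D.indicator g))
      ≤ ∑' k : ℕ, ENNReal.ofReal ((1 - sv lam) * sv lam ^ k) * C.Wt g :=
        ENNReal.tsum_le_tsum fun k => mul_le_mul_right ((C.Wt_iter_le hd D hg' k).trans h3) _
    _ = C.Wt g := by
        rw [ENNReal.tsum_mul_right, ← ENNReal.ofReal_tsum_of_nonneg hc (hasSum_geo h).summable,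
          (hasSum_geo h).tsum_eq, ENNReal.ofReal_one, one_mul]

/-- The Green function with pole `v` of the walk killed at rate `lam * deg` and outside `D`. -/
noncomputable def G (D : Set (V d)) (lam : ℝ) (v x : V d) : ℝ :=
  (lam * C.deg v)⁻¹ * C.res D lam (Pi.single v (1 : ℝ)) x

theorem single_bounds (v x : V d) : 0 ≤ (Pi.single v (1 : ℝ) : V d → ℝ) x ∧
    (Pi.single v (1 : ℝ) : V d → ℝ) x ≤ 1 := by
  by_cases h : x = v
  · subst h; simp
  · simp [h]

theorem G_nonneg (hd : 0 < d) (D : Set (V d)) {lam : ℝ} (h : 0 < lam) (v x : V d) :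
    0 ≤ C.G D lam v x := by
  unfold G
  exact mul_nonneg (inv_nonneg.2 (mul_nonneg h.le (C.deg_nonneg v)))
    (C.res_nonneg hd D h (fun y => (single_bounds v y).1) x)

theorem G_off (D : Set (V d)) (lam : ℝ) (v : V d) {x : V d} (hx : x ∉ D) : C.G D lam v x = 0 := by
  unfold G
  rw [C.res_off D lam _ hx, mul_zero]

theorem norm_single_le (v x : V d) : ‖(Pi.single v (1 : ℝ) : V d → ℝ) x‖ ≤ 1 := by
  rw [Real.norm_of_nonneg (single_bounds v x).1]
  exact (single_bounds v x).2

theorem G_le (hd : 0 < d) (D : Set (V d)) {lam : ℝ} (h : 0 < lam) (v x : V d) :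
    C.G D lam v x ≤ 1 / lam := by
  unfold G
  have h1 := C.norm_res_le hd D h (norm_single_le v) x
  have h2 := (le_abs_self _).trans h1
  have h3 := C.one_le_deg hd v
  calc (lam * C.deg v)⁻¹ * C.res D lam (Pi.single v (1 : ℝ)) x ≤ (lam * C.deg v)⁻¹ * 1 := by
        apply mul_le_mul_of_nonneg_left h2
        positivity
    _ ≤ 1 / lam := by
        rw [mul_one, one_div]
        apply inv_anti₀ h
        nlinarith

theorem G_ell (hd : 0 < d) (D : Set (V d)) {lam : ℝ} (h : 0 < lam) (v : V d) {x : V d}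
    (hx : x ∈ D) :
    (1 + lam) * C.deg x * C.G D lam v x - ∑' y, C.c x y * C.G D lam v y =
      (Pi.single v (1 : ℝ) : V d → ℝ) x := by
  have h1 := C.res_ell hd D h (norm_single_le v) hx
  simp only [smul_eq_mul] at h1
  unfold G
  have h2 : (∑' y, C.c x y * ((lam * C.deg v)⁻¹ * C.res D lam (Pi.single v (1 : ℝ)) y)) =
      (lam * C.deg v)⁻¹ * ∑' y, C.c x y * C.res D lam (Pi.single v (1 : ℝ)) y := by
    rw [← tsum_mul_left]
    congr 1
    ext y
    ring
  rw [h2]
  have h3 : (1 + lam) * C.deg x * ((lam * C.deg v)⁻¹ * C.res D lam (Pi.single v (1 : ℝ)) x) -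
      (lam * C.deg v)⁻¹ * ∑' y, C.c x y * C.res D lam (Pi.single v (1 : ℝ)) y =
      (lam * C.deg v)⁻¹ * ((1 + lam) * C.deg x * C.res D lam (Pi.single v (1 : ℝ)) x -
        ∑' y, C.c x y * C.res D lam (Pi.single v (1 : ℝ)) y) := by ring
  rw [h3, h1]
  by_cases hxv : x = v
  · subst hxv
    have := (C.deg_pos hd x).ne'
    simp only [Pi.single_eq_same]
    field_simp
  · simp [hxv]

theorem Wt_G_le (hd : 0 < d) (D : Set (V d)) {lam : ℝ} (h : 0 < lam) (v : V d) :
    C.Wt (C.G D lam v) ≤ ENNReal.ofReal (1 / lam) := by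
  have h1 : C.Wt (C.G D lam v) =
      ENNReal.ofReal (lam * C.deg v)⁻¹ * C.Wt (C.res D lam (Pi.single v (1 : ℝ))) := by
    unfold Wt G
    rw [← ENNReal.tsum_mul_left]
    congr 1
    ext x
    rw [← ENNReal.ofReal_mul (inv_nonneg.2 (mul_nonneg h.le (C.deg_nonneg v)))]
    congr 1
    ring
  rw [h1]
  have h2 := C.Wt_res_le hd D h (fun y => (single_bounds v y).1) (fun y => (single_bounds v y).2)
  have h3 : C.Wt (Pi.single v (1 : ℝ)) = ENNReal.ofReal (C.deg v) := by
    unfold Wt
    rw [tsum_eq_single v]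
    · simp
    · intro x hx
      simp [hx]
  rw [h3] at h2
  refine (mul_le_mul_right h2 _).trans ?_
  rw [← ENNReal.ofReal_mul (inv_nonneg.2 (mul_nonneg h.le (C.deg_nonneg v)))]
  apply ENNReal.ofReal_le_ofReal
  have := (C.deg_pos hd v).ne'
  apply le_of_eq
  field_simp

theorem summable_of_Wt {g : V d → ℝ} (hg : ∀ x, 0 ≤ g x) {A : ℝ} (hA : 0 ≤ A)
    (h : C.Wt g ≤ ENNReal.ofReal A) :
    Summable (fun x => C.deg x * g x) ∧ ∑' x, C.deg x * g x ≤ A := by
  have h0 : ∀ x, 0 ≤ C.deg x * g x := fun x => mul_nonneg (C.deg_nonneg x) (hg x)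
  have h1 : Summable (fun x => C.deg x * g x) := by
    have h2 : (∑' x, ENNReal.ofReal (C.deg x * g x)) ≠ ⊤ :=
      (lt_of_le_of_lt h ENNReal.ofReal_lt_top).ne
    have h3 := ENNReal.summable_toReal h2
    refine h3.congr ?_
    intro x
    rw [ENNReal.toReal_ofReal (h0 x)]
  refine ⟨h1, ?_⟩
  have h2 : C.Wt g = ENNReal.ofReal (∑' x, C.deg x * g x) := by
    unfold Wt
    rw [ENNReal.ofReal_tsum_of_nonneg h0 h1]
  rw [h2] at h
  exact (ENNReal.ofReal_le_ofReal_iff hA).1 h

/-- Green's identity (as an inequality for the nearest neighbour energy). -/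
theorem energy_le (w : V d → ℝ) (hw : Summable (fun x => C.deg x * |w x|)) {M : ℝ}
    (hM : ∀ x, |w x| ≤ M) :
    Summable (fun x => ∑ i, (w (x + ee i) - w x) ^ 2) ∧
    Summable (fun x => w x * (C.deg x * w x - ∑' y, C.c x y * w y)) ∧
    Enn w ≤ 2 * ∑' x, w x * (C.deg x * w x - ∑' y, C.c x y * w y) := by
  have hM0 : 0 ≤ M := (abs_nonneg _).trans (hM 0)
  -- basic summability over pairs
  have hp0 : Summable (fun q : V d × V d => C.c q.1 q.2 * |w q.1|) := by
    rw [summable_prod_of_nonneg (fun q => mul_nonneg (C.nonneg _ _) (abs_nonneg _))]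
    refine ⟨fun x => ?_, ?_⟩
    · show Summable (fun y => C.c x y * |w x|)
      exact (C.summable_c x).mul_right _
    refine hw.congr ?_
    intro x
    simp only
    rw [tsum_mul_right]
    rfl
  have hp1 : Summable (fun q : V d × V d => C.c q.1 q.2 * (w q.1) ^ 2) := by
    refine Summable.of_nonneg_of_le (fun q => mul_nonneg (C.nonneg _ _) (sq_nonneg _)) ?_
      (hp0.mul_right M)
    intro q
    rw [mul_assoc]
    apply mul_le_mul_of_nonneg_left _ (C.nonneg _ _)
    rw [← sq_abs, sq]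
    exact mul_le_mul_of_nonneg_left (hM _) (abs_nonneg _)
  have hp2 : Summable (fun q : V d × V d => C.c q.1 q.2 * (w q.2) ^ 2) := by
    have := (Equiv.prodComm (V d) (V d)).summable_iff.2 hp1
    refine this.congr ?_
    intro q
    simp only [Function.comp, Equiv.prodComm_apply, Prod.fst_swap, Prod.snd_swap]
    rw [C.symm]
  have hp3 : Summable (fun q : V d × V d => C.c q.1 q.2 * (w q.1 * w q.2)) := by
    refine Summable.of_norm_bounded (hp0.mul_right M) ?_
    intro q
    rw [norm_mul, Real.norm_of_nonneg (C.nonneg _ _), norm_mul, mul_assoc]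
    apply mul_le_mul_of_nonneg_left _ (C.nonneg _ _)
    exact mul_le_mul_of_nonneg_left (hM _) (abs_nonneg _)
  have hp4 : Summable (fun q : V d × V d => C.c q.1 q.2 * (w q.1 - w q.2) ^ 2) := by
    have := (hp1.add hp2).sub (hp3.mul_left 2)
    refine this.congr ?_
    intro q
    ring
  -- sums
  have t1 : ∑' q : V d × V d, C.c q.1 q.2 * (w q.1) ^ 2 = ∑' x, C.deg x * (w x) ^ 2 := by
    have hx1 : ∀ x, Summable (fun y => C.c (x, y).1 (x, y).2 * (w (x, y).1) ^ 2) := by
      intro x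
      show Summable (fun y => C.c x y * (w x) ^ 2)
      exact (C.summable_c x).mul_right _
    rw [hp1.tsum_prod' hx1]
    congr 1
    ext x
    simp only
    rw [tsum_mul_right]
    rfl
  have t2 : ∑' q : V d × V d, C.c q.1 q.2 * (w q.2) ^ 2 = ∑' x, C.deg x * (w x) ^ 2 := by
    rw [← t1, ← (Equiv.prodComm (V d) (V d)).tsum_eq]
    congr 1
    ext q
    simp only [Equiv.prodComm_apply, Prod.fst_swap, Prod.snd_swap]
    rw [C.symm]
  have t3 : ∑' q : V d × V d, C.c q.1 q.2 * (w q.1 * w q.2) = ∑' x, w x * ∑' y, C.c x y * w y := by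
    rw [hp3.tsum_prod' (fun x => ?_)]
    · congr 1
      ext x
      simp only
      rw [← tsum_mul_left]
      congr 1
      ext y
      ring
    · have := (C.summable_mul w x).mul_left (w x)
      refine this.congr ?_
      intro y
      ring
  have s1 : Summable (fun x => C.deg x * (w x) ^ 2) := by
    have := hp1.prod
    refine this.congr ?_
    intro x
    simp only
    rw [tsum_mul_right]
    rfl
  have s3 : Summable (fun x => w x * ∑' y, C.c x y * w y) := by
    have := hp3.prod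
    refine this.congr ?_
    intro x
    simp only
    rw [← tsum_mul_left]
    congr 1
    ext y
    ring
  have s4 : Summable (fun x => ∑' y, C.c x y * (w x - w y) ^ 2) := hp4.prod
  have t4 : ∑' x, ∑' y, C.c x y * (w x - w y) ^ 2 =
      2 * ∑' x, w x * (C.deg x * w x - ∑' y, C.c x y * w y) := by
    rw [← hp4.tsum_prod' (fun x => ?_)]
    · have e1 : ∑' q : V d × V d, C.c q.1 q.2 * (w q.1 - w q.2) ^ 2 =
          (∑' q : V d × V d, C.c q.1 q.2 * (w q.1) ^ 2 +
            ∑' q : V d × V d, C.c q.1 q.2 * (w q.2) ^ 2) -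
            2 * ∑' q : V d × V d, C.c q.1 q.2 * (w q.1 * w q.2) := by
        rw [← tsum_mul_left, ← hp1.tsum_add hp2, ← (hp1.add hp2).tsum_sub (hp3.mul_left 2)]
        congr 1
        ext q
        ring
      rw [e1, t1, t2, t3]
      have e2 : ∑' x, w x * (C.deg x * w x - ∑' y, C.c x y * w y) =
          ∑' x, C.deg x * (w x) ^ 2 - ∑' x, w x * ∑' y, C.c x y * w y := by
        rw [← s1.tsum_sub s3]
        congr 1
        ext x
        ring
      rw [e2]
      ring
    · apply summable_of_hasFiniteSupport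
      refine (C.hfs x).subset ?_
      intro y hy
      simp only [Function.mem_support] at hy ⊢
      intro h
      exact hy (by rw [h, zero_mul])
  have hpt : ∀ x, ∑ i, (w (x + ee i) - w x) ^ 2 ≤ ∑' y, C.c x y * (w x - w y) ^ 2 := by
    intro x
    have hinj : Function.Injective (fun i : Fin d => x + ee i) := by
      intro i j hij
      have h1 : (ee i : V d) = ee j := add_left_cancel hij
      by_contra hne
      have h2 := congrFun h1 i
      unfold ee at h2
      rw [Pi.single_eq_same, Pi.single_eq_of_ne hne] at h2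
      exact one_ne_zero h2
    have hs : Summable (fun y => C.c x y * (w x - w y) ^ 2) := by
      apply summable_of_hasFiniteSupport
      refine (C.hfs x).subset ?_
      intro y hy
      simp only [Function.mem_support] at hy ⊢
      intro h
      exact hy (by rw [h, zero_mul])
    have h1 := hs.sum_le_tsum (Finset.univ.image (fun i : Fin d => x + ee i))
      (fun y _ => mul_nonneg (C.nonneg _ _) (sq_nonneg _))
    rw [Finset.sum_image (fun i _ j _ hij => hinj hij)] at h1
    refine le_trans (le_of_eq ?_) h1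
    apply Finset.sum_congr rfl
    intro i _
    rw [C.c_ee]
    ring
  have s5 : Summable (fun x => ∑ i, (w (x + ee i) - w x) ^ 2) :=
    Summable.of_nonneg_of_le (fun x => Finset.sum_nonneg fun i _ => sq_nonneg _) hpt s4
  refine ⟨s5, ?_, ?_⟩
  · refine (s1.sub s3).congr ?_
    intro x
    ring
  · rw [← t4]
    exact s5.tsum_le_tsum hpt s4

theorem summable_abs_of_deg (hd : 0 < d) {w : V d → ℝ} (hw : Summable (fun x => C.deg x * |w x|)) :
    Summable (fun x => |w x|) := by
  refine Summable.of_nonneg_of_le (fun x => abs_nonneg _) ?_ hw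
  intro x
  have := C.one_le_deg hd x
  nlinarith [abs_nonneg (w x)]

theorem G_energy (hd : 0 < d) (D : Set (V d)) {lam : ℝ} (h : 0 < lam) (v : V d) :
    Enn (C.G D lam v) ≤ 2 * C.G D lam v v := by
  have h1 := C.summable_of_Wt (C.G_nonneg hd D h v) (by positivity) (C.Wt_G_le hd D h v)
  have habs : ∀ x, |C.G D lam v x| = C.G D lam v x := fun x => abs_of_nonneg (C.G_nonneg hd D h v x)
  have h2 := C.energy_le (C.G D lam v) (by simpa [habs] using h1.1)
    (M := 1 / lam) (fun x => by rw [habs]; exact C.G_le hd D h v x)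
  refine h2.2.2.trans ?_
  apply mul_le_mul_of_nonneg_left _ (by norm_num)
  have h3 : ∀ x, C.G D lam v x * (C.deg x * C.G D lam v x - ∑' y, C.c x y * C.G D lam v y) ≤
      C.G D lam v x * (Pi.single v (1 : ℝ) : V d → ℝ) x := by
    intro x
    by_cases hx : x ∈ D
    · apply mul_le_mul_of_nonneg_left _ (C.G_nonneg hd D h v x)
      have h4 := C.G_ell hd D h v hx
      have h5 : 0 ≤ lam * C.deg x * C.G D lam v x :=
        mul_nonneg (mul_nonneg h.le (C.deg_nonneg x)) (C.G_nonneg hd D h v x)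
      nlinarith
    · rw [C.G_off D lam v hx]
      simp
  have h4 : HasSum (fun x => C.G D lam v x * (Pi.single v (1 : ℝ) : V d → ℝ) x) (C.G D lam v v) := by
    have := hasSum_single (f := fun x => C.G D lam v x * (Pi.single v (1 : ℝ) : V d → ℝ) x) v
      (fun x hx => by simp [hx])
    simpa using this
  rw [← h4.tsum_eq]
  exact h2.2.1.tsum_le_tsum h3 h4.summable

/-- Deterministic `ℓ²` bound on the Green function, uniform in the configuration. -/
theorem green_sq (hd : 3 ≤ d) : ∃ K : ℝ, 0 < K ∧ ∀ (C : Cond d) (D : Set (V d)) (lam : ℝ),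
    0 < lam → lam ≤ 1 → ∀ v : V d, Summable (fun x => (C.G D lam v x) ^ 2) ∧
      ∑' x, (C.G D lam v x) ^ 2 ≤ K * lam ^ (-(4 / 5) : ℝ) := by
  obtain ⟨C1, hC1, h1⟩ := transient_bound d hd
  obtain ⟨C2, hC2, h2⟩ := nash_bound d (by omega)
  refine ⟨C2 * (16 * C1 + 1), by positivity, ?_⟩
  intro C D lam hl hl1 v
  have hd0 : 0 < d := by omega
  have hW := C.summable_of_Wt (C.G_nonneg hd0 D hl v) (by positivity) (C.Wt_G_le hd0 D hl v)
  have habs : ∀ x, |C.G D lam v x| = C.G D lam v x :=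
    fun x => abs_of_nonneg (C.G_nonneg hd0 D hl v x)
  have hsum : Summable (fun x => |C.G D lam v x|) :=
    C.summable_abs_of_deg hd0 (by simpa [habs] using hW.1)
  have hE := C.G_energy hd0 D hl v
  have hT := h1 _ hsum v
  have hGv : C.G D lam v v ≤ 2 * C1 := by
    by_contra hcon
    push Not at hcon
    nlinarith [C.G_nonneg hd0 D hl v v]
  have hEn : Enn (C.G D lam v) ≤ 4 * C1 := by linarith
  have hl1norm : ∑' x, |C.G D lam v x| ≤ 1 / lam := by
    refine le_trans ?_ hW.2
    refine hsum.tsum_le_tsum ?_ hW.1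
    intro x
    rw [habs]
    have := C.one_le_deg hd0 x
    nlinarith [C.G_nonneg hd0 D hl v x]
  have hl1nn : 0 ≤ ∑' x, |C.G D lam v x| := tsum_nonneg fun x => abs_nonneg _
  refine ⟨?_, ?_⟩
  · refine Summable.of_nonneg_of_le (fun x => sq_nonneg _) ?_ (hsum.mul_right (1 / lam))
    intro x
    rw [← sq_abs, sq]
    apply mul_le_mul_of_nonneg_left _ (abs_nonneg _)
    rw [habs]
    exact C.G_le hd0 D hl v x
  · set a : ℝ := lam ^ (-(2 / 5) : ℝ) with ha
    have ha1 : 1 ≤ a := Real.one_le_rpow_of_pos_of_le_one_of_nonpos hl hl1 (by norm_num)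
    have ha2 : a ^ 2 = lam ^ (-(4 / 5) : ℝ) := by
      rw [ha, ← Real.rpow_natCast, ← Real.rpow_mul hl.le]
      norm_num
    have ha3 : (1 / lam) ^ 2 = a ^ 5 := by
      rw [ha, ← Real.rpow_natCast (lam ^ (-(2 / 5) : ℝ)), ← Real.rpow_mul hl.le]
      rw [one_div, ← Real.rpow_neg_one, ← Real.rpow_natCast, ← Real.rpow_mul hl.le]
      norm_num
    set l : ℕ := ⌈a⌉₊ with hldef
    have hla : a ≤ l := Nat.le_ceil a
    have hl2a : (l : ℝ) ≤ 2 * a := by
      have := Nat.ceil_lt_add_one (a := a) (by linarith)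
      linarith
    have hl1' : 1 ≤ l := by
      have : (1 : ℝ) ≤ l := ha1.trans hla
      exact_mod_cast this
    have hN := h2 _ hsum l hl1'
    refine hN.trans ?_
    have e1 : (l : ℝ) ^ 2 * Enn (C.G D lam v) ≤ 16 * C1 * a ^ 2 := by
      have : (l : ℝ) ^ 2 ≤ (2 * a) ^ 2 := pow_le_pow_left₀ (by positivity) hl2a 2
      have hE0 : 0 ≤ Enn (C.G D lam v) := tsum_nonneg fun y => Finset.sum_nonneg fun i _ => sq_nonneg _
      nlinarith
    have e2 : (∑' x, |C.G D lam v x|) ^ 2 / (l : ℝ) ^ d ≤ a ^ 2 := by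
      have h3 : a ^ 3 ≤ (l : ℝ) ^ d := by
        calc a ^ 3 ≤ a ^ d := pow_le_pow_right₀ ha1 hd
          _ ≤ (l : ℝ) ^ d := pow_le_pow_left₀ (by linarith) hla d
      have h4 : (∑' x, |C.G D lam v x|) ^ 2 ≤ a ^ 5 := by
        rw [← ha3]
        exact pow_le_pow_left₀ hl1nn hl1norm 2
      rw [div_le_iff₀ (by positivity)]
      calc (∑' x, |C.G D lam v x|) ^ 2 ≤ a ^ 5 := h4
        _ = a ^ 2 * a ^ 3 := by ring
        _ ≤ a ^ 2 * (l : ℝ) ^ d := by gcongr
    calc C2 * ((l : ℝ) ^ 2 * Enn (C.G D lam v) + (∑' x, |C.G D lam v x|) ^ 2 / (l : ℝ) ^ d)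
        ≤ C2 * (16 * C1 * a ^ 2 + a ^ 2) := by gcongr
      _ = C2 * (16 * C1 + 1) * lam ^ (-(4 / 5) : ℝ) := by rw [← ha2]; ring

end Cond

end Pool.Agent.Lib.QIP
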