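import Pool.Agent.Lib.QIP.Defs

/-!
# The nearest neighbour Dirichlet energy
-/

set_option autoImplicit false

open MeasureTheory ProbabilityTheory Filter
open scoped ENNReal NNReal Topology BigOperators

namespace Pool.Agent.Lib.QIP

/-- The nearest neighbour Dirichlet energy of a function on `ℤ^d`. -/
noncomputable def Enn {d : ℕ} (g : V d → ℝ) : ℝ := ∑' y : V d, ∑ i, (g (y + ee i) - g y) ^ 2

end Pool.Agent.Lib.QIP
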