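import Pool.Agent.Lib.QIP.LatticeDef

/-!
# Chunk B1: transience of `ℤ^d`, `d ≥ 3`

An explicit unit flow of finite energy from the origin to infinity (Pólya's urn with three
colours), in the octant spanned by the first three coordinate directions.
-/

set_option autoImplicit false

open MeasureTheory ProbabilityTheory Filter
open scoped ENNReal NNReal Topology BigOperators

namespace Pool.Agent.Lib.QIP

namespace LT

variable {d : ℕ}

/-- the octant -/
def Oct (y : V d) : Prop := (∀ j, 0 ≤ y j) ∧ ∀ j : Fin d, 3 ≤ j.val → y j = 0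

/-- the level -/
def lev (y : V d) : ℝ := ((∑ j, y j : ℤ) : ℝ)

open Classical in
/-- the flow -/
noncomputable def th (i : Fin d) (y : V d) : ℝ :=
  if Oct y ∧ i.val < 3 then 2 * ((y i : ℝ) + 1) / ((lev y + 1) * (lev y + 2) * (lev y + 3)) else 0

lemma lev_nonneg {y : V d} (h : Oct y) : 0 ≤ lev y := by
  unfold lev
  exact_mod_cast Finset.sum_nonneg fun j _ => h.1 j

lemma lev_sub_ee (y : V d) (i : Fin d) : lev (y - ee i) = lev y - 1 := by
  unfold lev ee
  simp [Finset.sum_sub_distrib]

lemma coord_le_lev {y : V d} (h : Oct y) (i : Fin d) : (y i : ℝ) ≤ lev y := by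
  unfold lev
  exact_mod_cast Finset.single_le_sum (f := fun j => y j) (fun j _ => h.1 j) (Finset.mem_univ i)

lemma oct_add {y : V d} (i : Fin d) (hi : i.val < 3) (h : Oct (y - ee i)) : Oct y := by
  obtain ⟨h1, h2⟩ := h
  refine ⟨fun j => ?_, fun j hj => ?_⟩
  · have := h1 j
    simp only [Pi.sub_apply, ee] at this
    have h3 : (0 : ℤ) ≤ (Pi.single i (1 : ℤ) : V d) j := by
      by_cases e : j = i
      · subst e; simp
      · simp [Pi.single_eq_of_ne e]
    linarith
  · have := h2 j hj
    have hne : j ≠ i := by rintro rfl; omega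
    simpa [ee, Pi.single_eq_of_ne hne] using this

lemma oct_sub {y : V d} (h : Oct y) (i : Fin d) (hi : i.val < 3) (h1 : 1 ≤ y i) :
    Oct (y - ee i) := by
  refine ⟨fun j => ?_, fun j hj => ?_⟩
  · by_cases e : j = i
    · subst e; simp [ee]; exact h1
    · simpa [ee, Pi.single_eq_of_ne e] using h.1 j
  · have hne : j ≠ i := by rintro rfl; omega
    simpa [ee, Pi.single_eq_of_ne hne] using h.2 j hj

lemma th_sub {y : V d} (h : Oct y) (i : Fin d) (hi : i.val < 3) :
    th i (y - ee i) = 2 * (y i : ℝ) / (lev y * (lev y + 1) * (lev y + 2)) := by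
  unfold th
  by_cases h1 : 1 ≤ y i
  · rw [if_pos ⟨oct_sub h i hi h1, hi⟩, lev_sub_ee]
    have : (((y - ee i) i : ℤ) : ℝ) + 1 = y i := by
      simp [ee]
    rw [this]
    congr 1
    ring
  · have h0 : y i = 0 := le_antisymm (by omega) (h.1 i)
    have hn : ¬ (Oct (y - ee i) ∧ i.val < 3) := by
      rintro ⟨h2, -⟩
      have := h2.1 i
      simp [ee, h0] at this
    rw [if_neg hn, h0]
    simp

lemma card3 (hd : 3 ≤ d) : (∑ i : Fin d, if i.val < 3 then (1 : ℝ) else 0) = 3 := by
  rw [Fin.sum_univ_eq_sum_range (fun i => if i < 3 then (1 : ℝ) else 0) d]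
  rw [← Finset.sum_filter, Finset.sum_const]
  have : (Finset.range d).filter (fun i => i < 3) = Finset.range 3 := by
    ext i; simp; omega
  rw [this]
  simp

lemma sum_coord {y : V d} (h : Oct y) :
    (∑ i : Fin d, if i.val < 3 then (y i : ℝ) else 0) = lev y := by
  unfold lev
  push_cast
  refine Finset.sum_congr rfl fun i _ => ?_
  split_ifs with hi
  · rfl
  · rw [h.2 i (by omega)]; simp

open Classical in
lemma div_th (hd : 3 ≤ d) (y : V d) :
    ∑ i, (th i y - th i (y - ee i)) = if y = 0 then 1 else 0 := by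
  by_cases h : Oct y
  · have h0 := lev_nonneg h
    have e1 : ∑ i, th i y = 2 / ((lev y + 1) * (lev y + 2)) := by
      have : ∀ i : Fin d, th i y = 2 / ((lev y + 1) * (lev y + 2) * (lev y + 3)) *
          ((if i.val < 3 then (y i : ℝ) else 0) + (if i.val < 3 then (1 : ℝ) else 0)) := by
        intro i
        unfold th
        by_cases hi : i.val < 3
        · simp only [h, hi, and_self, if_true]; ring
        · simp [hi]
      rw [Finset.sum_congr rfl fun i _ => this i, ← Finset.mul_sum, Finset.sum_add_distrib,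
        sum_coord h, card3 hd]
      field_simp
    have e2 : ∑ i, th i (y - ee i) = 2 * lev y / (lev y * (lev y + 1) * (lev y + 2)) := by
      have : ∀ i : Fin d, th i (y - ee i) = 2 / (lev y * (lev y + 1) * (lev y + 2)) *
          (if i.val < 3 then (y i : ℝ) else 0) := by
        intro i
        by_cases hi : i.val < 3
        · rw [th_sub h i hi, if_pos hi]; ring
        · unfold th; simp [hi]
      rw [Finset.sum_congr rfl fun i _ => this i, ← Finset.mul_sum, sum_coord h]
      ring
    rw [Finset.sum_sub_distrib, e1, e2]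
    by_cases hy : y = 0
    · have : lev y = 0 := by rw [hy]; simp [lev]
      rw [this, if_pos hy]; norm_num
    · have : lev y ≠ 0 := by
        intro hl
        apply hy
        have h3 : ∑ j, y j = 0 := by
          unfold lev at hl; exact_mod_cast hl
        have h4 := (Finset.sum_eq_zero_iff_of_nonneg (fun j _ => h.1 j)).1 h3
        funext j
        exact h4 j (Finset.mem_univ j)
      rw [if_neg hy]
      field_simp
      ring
  · have hy : y ≠ 0 := by
      rintro rfl
      exact h ⟨fun j => le_refl _, fun j _ => rfl⟩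
    rw [if_neg hy]
    refine Finset.sum_eq_zero fun i _ => ?_
    unfold th
    rw [if_neg (fun hh => h hh.1), if_neg (fun hh => h (oct_add i hh.2 hh.1)), sub_zero]

lemma th_nonneg (i : Fin d) (y : V d) : 0 ≤ th i y := by
  unfold th
  split_ifs with h
  · have h0 := lev_nonneg h.1
    have h1 : (0 : ℝ) ≤ y i := by exact_mod_cast h.1.1 i
    positivity
  · exact le_refl _

lemma th_le (i : Fin d) (y : V d) (h : Oct y) : th i y ≤ 2 / (lev y + 1) ^ 2 := by
  have h0 := lev_nonneg h
  unfold th
  split_ifs with hh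
  · have h1 : (0 : ℝ) ≤ y i := by exact_mod_cast h.1 i
    have h2 := coord_le_lev h i
    rw [div_le_div_iff₀ (by positivity) (by positivity)]
    have h3 : (lev y + 1) ^ 2 * ((y i : ℝ) + 1) ≤
        (lev y + 1) * (lev y + 2) * (lev y + 3) := by
      calc (lev y + 1) ^ 2 * ((y i : ℝ) + 1) ≤ (lev y + 1) ^ 2 * (lev y + 3) := by
            apply mul_le_mul_of_nonneg_left (by linarith) (by positivity)
        _ ≤ (lev y + 1) * (lev y + 2) * (lev y + 3) := by
            apply mul_le_mul_of_nonneg_right _ (by linarith)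
            nlinarith
    nlinarith
  · positivity

lemma th_le_two (i : Fin d) (y : V d) : th i y ≤ 2 := by
  by_cases h : Oct y
  · have h0 := lev_nonneg h
    refine (th_le i y h).trans ?_
    rw [div_le_iff₀ (by positivity)]
    nlinarith
  · unfold th
    rw [if_neg (fun hh => h hh.1)]
    norm_num

/-- the parametrisation of the octant -/
def emb (hd : 3 ≤ d) (a : ℕ × ℕ × ℕ) : V d := fun j =>
  if j.val = 0 then (a.1 : ℤ) else if j.val = 1 then (a.2.1 : ℤ) else
    if j.val = 2 then (a.2.2 : ℤ) else 0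

lemma emb_injective (hd : 3 ≤ d) : Function.Injective (emb hd) := by
  rintro ⟨a, b, c⟩ ⟨a', b', c'⟩ h
  have h0 := congrFun h ⟨0, by omega⟩
  have h1 := congrFun h ⟨1, by omega⟩
  have h2 := congrFun h ⟨2, by omega⟩
  simp [emb] at h0 h1 h2
  simp [h0, h1, h2]

lemma oct_mem_range (hd : 3 ≤ d) {y : V d} (h : Oct y) : y ∈ Set.range (emb hd) := by
  refine ⟨((y ⟨0, by omega⟩).toNat, (y ⟨1, by omega⟩).toNat, (y ⟨2, by omega⟩).toNat), ?_⟩
  funext j
  unfold emb
  split_ifs with h0 h1 h2
  · have e : j = ⟨0, by omega⟩ := Fin.ext h0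
    rw [e]; exact Int.toNat_of_nonneg (h.1 _)
  · have e : j = ⟨1, by omega⟩ := Fin.ext h1
    rw [e]; exact Int.toNat_of_nonneg (h.1 _)
  · have e : j = ⟨2, by omega⟩ := Fin.ext h2
    rw [e]; exact Int.toNat_of_nonneg (h.1 _)
  · exact (h.2 j (by omega)).symm

lemma lev_emb (hd : 3 ≤ d) (a : ℕ × ℕ × ℕ) : lev (emb hd a) = a.1 + a.2.1 + a.2.2 := by
  obtain ⟨a, b, c⟩ := a
  unfold lev
  have : ∑ j, emb hd (a, b, c) j = (a : ℤ) + b + c := by
    have e : ∀ j : Fin d, emb hd (a, b, c) j = (fun j : ℕ => if j = 0 then (a : ℤ) else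
        if j = 1 then (b : ℤ) else if j = 2 then (c : ℤ) else 0) j.val := fun j => rfl
    rw [Finset.sum_congr rfl fun j _ => e j,
      Fin.sum_univ_eq_sum_range (fun j : ℕ => if j = 0 then (a : ℤ) else
        if j = 1 then (b : ℤ) else if j = 2 then (c : ℤ) else 0) d]
    obtain ⟨k, rfl⟩ := Nat.exists_eq_add_of_le hd
    rw [Finset.sum_range_add]
    rw [Finset.sum_eq_zero (s := Finset.range k)]
    · simp [Finset.sum_range_succ]
    · intro x _
      rw [if_neg (by omega), if_neg (by omega), if_neg (by omega)]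
  rw [this]
  push_cast
  ring

lemma summable_pow43 : Summable (fun a : ℕ => 1 / ((a : ℝ) + 1) ^ (4 / 3 : ℝ)) := by
  have h := (Real.summable_one_div_nat_rpow (p := 4 / 3)).2 (by norm_num)
  have h2 := (summable_nat_add_iff 1).2 h
  simpa using h2

lemma summable_oct : Summable (fun a : ℕ × ℕ × ℕ => 4 / ((a.1 : ℝ) + a.2.1 + a.2.2 + 1) ^ 4) := by
  have h1 : Summable (fun a : ℕ × ℕ => 1 / ((a.1 : ℝ) + 1) ^ (4 / 3 : ℝ) *
      (1 / ((a.2 : ℝ) + 1) ^ (4 / 3 : ℝ))) :=
    summable_pow43.mul_of_nonneg summable_pow43 (fun a => by positivity) (fun a => by positivity)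
  have h2 : Summable (fun a : ℕ × ℕ × ℕ => 1 / ((a.1 : ℝ) + 1) ^ (4 / 3 : ℝ) *
      (1 / ((a.2.1 : ℝ) + 1) ^ (4 / 3 : ℝ) * (1 / ((a.2.2 : ℝ) + 1) ^ (4 / 3 : ℝ)))) :=
    summable_pow43.mul_of_nonneg h1 (fun a => by positivity) (fun a => by positivity)
  refine Summable.of_nonneg_of_le (fun a => by positivity) (fun a => ?_) (h2.mul_left 4)
  obtain ⟨a, b, c⟩ := a
  simp only
  have hN : (0 : ℝ) < (a : ℝ) + b + c + 1 := by positivity
  have e : ((a : ℝ) + b + c + 1) ^ 4 = ((a : ℝ) + b + c + 1) ^ (4 / 3 : ℝ) *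
      (((a : ℝ) + b + c + 1) ^ (4 / 3 : ℝ) * ((a : ℝ) + b + c + 1) ^ (4 / 3 : ℝ)) := by
    rw [← Real.rpow_add hN, ← Real.rpow_add hN, ← Real.rpow_natCast]
    norm_num
  have hb : ∀ x : ℝ, 0 < x → x ≤ (a : ℝ) + b + c + 1 →
      x ^ (4 / 3 : ℝ) ≤ ((a : ℝ) + b + c + 1) ^ (4 / 3 : ℝ) := fun x hx hle =>
    Real.rpow_le_rpow hx.le hle (by norm_num)
  have ha0 : (0 : ℝ) ≤ a := by positivity
  have hb0 : (0 : ℝ) ≤ b := by positivity
  have hc0 : (0 : ℝ) ≤ c := by positivity
  have k1 := hb (a + 1) (by positivity) (by linarith)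
  have k2 := hb (b + 1) (by positivity) (by linarith)
  have k3 := hb (c + 1) (by positivity) (by linarith)
  rw [e, one_div_mul_one_div, one_div_mul_one_div, mul_one_div]
  apply div_le_div_of_nonneg_left (by norm_num) (by positivity)
  exact mul_le_mul k1 (mul_le_mul k2 k3 (by positivity) (by positivity)) (by positivity)
    (by positivity)

lemma summable_th_sq (hd : 3 ≤ d) (i : Fin d) : Summable (fun y : V d => th i y ^ 2) := by
  have hz : ∀ y ∉ Set.range (emb hd), th i y ^ 2 = 0 := by
    intro y hy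
    have : ¬ Oct y := fun h => hy (oct_mem_range hd h)
    unfold th
    rw [if_neg (fun hh => this hh.1)]
    norm_num
  rw [← (emb_injective hd).summable_iff hz]
  refine Summable.of_nonneg_of_le (fun a => sq_nonneg _) (fun a => ?_) summable_oct
  have ho : Oct (emb hd a) := by
    refine ⟨fun j => ?_, fun j hj => ?_⟩
    · unfold emb; split_ifs <;> simp
    · unfold emb; rw [if_neg (by omega), if_neg (by omega), if_neg (by omega)]
  have h1 := th_le i _ ho
  have h2 := th_nonneg i (emb hd a)
  have h3 := lev_nonneg ho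
  calc (th i (emb hd a)) ^ 2 ≤ (2 / (lev (emb hd a) + 1) ^ 2) ^ 2 :=
        pow_le_pow_left₀ h2 h1 2
    _ = 4 / (lev (emb hd a) + 1) ^ 4 := by
        rw [div_pow]; norm_num; ring
    _ = _ := by rw [lev_emb]

lemma enn_shift (g : V d → ℝ) (x : V d) : Enn (fun y => g (y + x)) = Enn g := by
  unfold Enn
  rw [← (Equiv.addRight x).tsum_eq (fun y => ∑ i, (g (y + ee i) - g y) ^ 2)]
  refine tsum_congr fun y => Finset.sum_congr rfl fun i _ => ?_
  simp only [Equiv.coe_addRight]
  rw [add_right_comm]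

lemma summable_shift {g : V d → ℝ} (hg : Summable fun x => |g x|) (x : V d) :
    Summable fun y => |g (y + x)| :=
  (Equiv.addRight x).summable_iff.2 hg

lemma origin_bound (hd : 3 ≤ d) (g : V d → ℝ) (hg : Summable fun x => |g x|) :
    (g 0) ^ 2 ≤ (∑ i, ∑' y : V d, th i y ^ 2) * Enn g := by
  classical
  -- summability facts
  have sD : ∀ i, Summable fun y : V d => |g (y + ee i) - g y| := fun i =>
    Summable.of_nonneg_of_le (fun _ => abs_nonneg _) (fun y => abs_sub _ _)
      ((summable_shift hg (ee i)).add hg)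
  have hbd : ∀ y, |g y| ≤ ∑' x, |g x| := fun y => hg.le_tsum y (fun _ _ => abs_nonneg _)
  have sD2 : ∀ i, Summable fun y : V d => (g (y + ee i) - g y) ^ 2 := fun i => by
    refine Summable.of_nonneg_of_le (fun _ => sq_nonneg _) (fun y => ?_)
      ((sD i).mul_left (2 * ∑' x, |g x|))
    rw [← sq_abs, sq]
    apply mul_le_mul_of_nonneg_right _ (abs_nonneg _)
    have := abs_sub (g (y + ee i)) (g y)
    have h1 := hbd y
    have h2 := hbd (y + ee i)
    linarith
  have sT := summable_th_sq hd
  have sTg : ∀ i, Summable fun y : V d => th i y * g y := fun i => by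
    refine Summable.of_norm_bounded (hg.mul_left 2) fun y => ?_
    rw [Real.norm_eq_abs, abs_mul, abs_of_nonneg (th_nonneg i y)]
    exact mul_le_mul_of_nonneg_right (th_le_two i y) (abs_nonneg _)
  have sTg' : ∀ i, Summable fun y : V d => th i y * g (y + ee i) := fun i => by
    refine Summable.of_norm_bounded ((summable_shift hg (ee i)).mul_left 2) fun y => ?_
    rw [Real.norm_eq_abs, abs_mul, abs_of_nonneg (th_nonneg i y)]
    exact mul_le_mul_of_nonneg_right (th_le_two i y) (abs_nonneg _)
  have sTg'' : ∀ i, Summable fun y : V d => th i (y - ee i) * g y := fun i => by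
    refine Summable.of_norm_bounded (hg.mul_left 2) fun y => ?_
    rw [Real.norm_eq_abs, abs_mul, abs_of_nonneg (th_nonneg i _)]
    exact mul_le_mul_of_nonneg_right (th_le_two i _) (abs_nonneg _)
  -- the flow identity
  have key : ∑ i, ∑' y : V d, th i y * (g (y + ee i) - g y) = - g 0 := by
    have e1 : ∀ i, ∑' y : V d, th i y * (g (y + ee i) - g y) =
        ∑' y : V d, (th i (y - ee i) - th i y) * g y := by
      intro i
      have h1 : ∑' y : V d, th i y * g (y + ee i) = ∑' y : V d, th i (y - ee i) * g y := by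
        rw [← (Equiv.addRight (ee i)).tsum_eq (fun y => th i (y - ee i) * g y)]
        refine tsum_congr fun y => ?_
        simp
      simp only [mul_sub, sub_mul]
      rw [(sTg' i).tsum_sub (sTg i), (sTg'' i).tsum_sub (sTg i), h1]
    rw [Finset.sum_congr rfl fun i _ => e1 i, ← Summable.tsum_finsetSum]
    · have e2 : ∀ y : V d, ∑ i, (th i (y - ee i) - th i y) * g y =
          if y = 0 then - g 0 else 0 := by
        intro y
        rw [← Finset.sum_mul]
        have h1 := div_th hd y
        have h2 : ∑ i, (th i (y - ee i) - th i y) = - (if y = 0 then 1 else 0) := by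
          rw [← h1, ← Finset.sum_neg_distrib]
          exact Finset.sum_congr rfl fun i _ => by ring
        rw [h2]
        split_ifs with hy
        · rw [hy]; ring
        · ring
      rw [tsum_congr e2]
      exact tsum_ite_eq (0 : V d) (fun _ => - g 0)
    · intro i _
      simp only [sub_mul]
      exact (sTg'' i).sub (sTg i)
  have sTD : ∀ i, Summable fun y : V d => th i y * (g (y + ee i) - g y) := fun i => by
    simp only [mul_sub]
    exact (sTg' i).sub (sTg i)
  have hE : Enn g = ∑ i, ∑' y : V d, (g (y + ee i) - g y) ^ 2 := by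
    unfold Enn
    rw [Summable.tsum_finsetSum]
    exact fun i _ => sD2 i
  set T := ∑ i, ∑' y : V d, th i y ^ 2 with hT
  have hTpos : 0 < T := by
    have h0 : 0 < th (⟨0, by omega⟩ : Fin d) (0 : V d) := by
      unfold th
      rw [if_pos ⟨⟨fun j => le_refl _, fun j _ => rfl⟩, by norm_num⟩]
      simp [lev]
    have h1 : th (⟨0, by omega⟩ : Fin d) (0 : V d) ^ 2 ≤
        ∑' y : V d, th (⟨0, by omega⟩ : Fin d) y ^ 2 :=
      (sT _).le_tsum 0 (fun _ _ => sq_nonneg _)
    have h2 : ∑' y : V d, th (⟨0, by omega⟩ : Fin d) y ^ 2 ≤ T :=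
      Finset.single_le_sum (f := fun i => ∑' y : V d, th i y ^ 2)
        (fun i _ => tsum_nonneg fun y => sq_nonneg _) (Finset.mem_univ _)
    have h3 : 0 < th (⟨0, by omega⟩ : Fin d) (0 : V d) ^ 2 := by positivity
    linarith
  -- the quadratic form
  have hq : ∀ l : ℝ, 0 ≤ l ^ 2 * T + 2 * l * g 0 + Enn g := by
    intro l
    have h1 : ∀ i, ∑' y : V d, (l * th i y - (g (y + ee i) - g y)) ^ 2 =
        l ^ 2 * ∑' y : V d, th i y ^ 2 - 2 * l * ∑' y : V d, th i y * (g (y + ee i) - g y) +
          ∑' y : V d, (g (y + ee i) - g y) ^ 2 := by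
      intro i
      rw [← tsum_mul_left, ← tsum_mul_left, ← ((sT i).mul_left _).tsum_sub ((sTD i).mul_left _),
        ← (((sT i).mul_left _).sub ((sTD i).mul_left _)).tsum_add (sD2 i)]
      exact tsum_congr fun y => by ring
    have h2 : 0 ≤ ∑ i, ∑' y : V d, (l * th i y - (g (y + ee i) - g y)) ^ 2 :=
      Finset.sum_nonneg fun i _ => tsum_nonneg fun y => sq_nonneg _
    rw [Finset.sum_congr rfl fun i _ => h1 i, Finset.sum_add_distrib, Finset.sum_sub_distrib,
      ← Finset.mul_sum, ← Finset.mul_sum, key, ← hT, ← hE] at h2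
    linarith
  have := hq (- g 0 / T)
  have h4 : (- g 0 / T) ^ 2 * T + 2 * (- g 0 / T) * g 0 + Enn g = Enn g - (g 0) ^ 2 / T := by
    field_simp
    ring
  rw [h4] at this
  have h5 : (g 0) ^ 2 / T ≤ Enn g := by linarith
  rwa [div_le_iff₀ hTpos, mul_comm] at h5

end LT

/-- Transience of `ℤ^d`, `d ≥ 3`: pointwise values are controlled by the Dirichlet energy. -/
theorem transient_bound (d : ℕ) (hd : 3 ≤ d) :
    ∃ C : ℝ, 0 < C ∧ ∀ g : V d → ℝ, Summable (fun x => |g x|) →
      ∀ x, (g x) ^ 2 ≤ C * Enn g := by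
  refine ⟨(∑ i, ∑' y : V d, LT.th i y ^ 2) + 1, ?_, fun g hg x => ?_⟩
  · have : 0 ≤ ∑ i, ∑' y : V d, LT.th i y ^ 2 :=
      Finset.sum_nonneg fun i _ => tsum_nonneg fun y => sq_nonneg _
    linarith
  · have h := LT.origin_bound hd (fun y => g (y + x)) (LT.summable_shift hg x)
    rw [LT.enn_shift] at h
    simp only [zero_add] at h
    have h0 : 0 ≤ Enn g := tsum_nonneg fun y => Finset.sum_nonneg fun i _ => sq_nonneg _
    linarith

end Pool.Agent.Lib.QIP
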