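import Pool.Agent.Lib.QIP.WeakLimit
import Pool.Agent.Lib.QIP.Osc
import Pool.Agent.Lib.QIP.Fdd

/-!
# Chunk H1: the quenched invariance principle for one conductance configuration, from the
convergence of the iterated resolvents and the exit estimate
-/

set_option autoImplicit false

open MeasureTheory ProbabilityTheory Filter
open scoped ENNReal NNReal Topology BigOperators

namespace Pool.Agent.Lib.QIP

theorem quenched {d : ℕ} (hd : 3 ≤ d) {C : Cond d} {S : Matrix (Fin d) (Fin d) ℝ} (hS : S.PosDef)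
    (h1 : ResConv C S) (h2 : ExitSmall C) {Ω' : Type} [MeasurableSpace Ω'] (P' : Measure Ω')
    [IsProbabilityMeasure P'] (W : ℝ → Ω' → (Fin d → ℝ)) (hW : IsBM S P' W)
    (T : ℝ) (hT : 0 < T) (F : UniformFun (Set.Icc (0 : ℝ) T) (Fin d → ℝ) → ℝ)
    (hF : Continuous F) (hb : ∃ M : ℝ, ∀ f, |F f| ≤ M) :
    Tendsto (fun n : ℕ =>
        ∑' z : Fin (⌊T * n⌋₊ + 1 + 1) → (Fin d → ℤ),
          ((if z 0 = 0 then (1:ℝ) else 0) *
            ∏ i : Fin (⌊T * n⌋₊ + 1), C.c (z i.castSucc) (z i.succ) / C.deg (z i.castSucc)) *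
          F (UniformFun.ofFun (fun t : Set.Icc (0:ℝ) T =>
              (1 / Real.sqrt n) •
                ((fun i => (((if h : ⌊t.1 * n⌋₊ < ⌊T * n⌋₊ + 1 + 1
                      then z ⟨⌊t.1 * n⌋₊, h⟩ else 0) i : ℤ) : ℝ)) +
                  (t.1 * n - (⌊t.1 * n⌋₊ : ℝ)) •
                    ((fun i => (((if h : ⌊t.1 * n⌋₊ + 1 < ⌊T * n⌋₊ + 1 + 1
                      then z ⟨⌊t.1 * n⌋₊ + 1, h⟩ else 0) i : ℤ) : ℝ)) -
                     (fun i => (((if h : ⌊t.1 * n⌋₊ < ⌊T * n⌋₊ + 1 + 1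
                      then z ⟨⌊t.1 * n⌋₊, h⟩ else 0) i : ℤ) : ℝ)))))))
        atTop (nhds (∫ ω', F (UniformFun.ofFun (fun t : Set.Icc (0:ℝ) T => W t.1 ω')) ∂P')) := by
  have hd0 : 0 < d := by omega
  obtain ⟨ν, hν⟩ := exists_walk hd0 C
  have hprob : IsProbabilityMeasure (ν 0) := hν.prob 0
  have osc := osc_of_exit hd0 hν h2
  have wl := weak_limit (ν 0) (hν.start hd0 0) S P' W hW
    (fun m t θ ht => fdd_of_res hd0 hν hS h1 osc m t θ ht) osc T hT F hF hb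
  obtain ⟨M, hM⟩ := hb
  refine wl.congr ?_
  intro n
  have h3 := hν.tsum_eq hd0 0 (⌊T * n⌋₊ + 1) (fun z : Fin (⌊T * n⌋₊ + 1 + 1) → V d =>
    F (UniformFun.ofFun (fun t : Set.Icc (0:ℝ) T =>
              (1 / Real.sqrt n) •
                ((fun i => (((if h : ⌊t.1 * n⌋₊ < ⌊T * n⌋₊ + 1 + 1
                      then z ⟨⌊t.1 * n⌋₊, h⟩ else 0) i : ℤ) : ℝ)) +
                  (t.1 * n - (⌊t.1 * n⌋₊ : ℝ)) •
                    ((fun i => (((if h : ⌊t.1 * n⌋₊ + 1 < ⌊T * n⌋₊ + 1 + 1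
                      then z ⟨⌊t.1 * n⌋₊ + 1, h⟩ else 0) i : ℤ) : ℝ)) -
                     (fun i => (((if h : ⌊t.1 * n⌋₊ < ⌊T * n⌋₊ + 1 + 1
                      then z ⟨⌊t.1 * n⌋₊, h⟩ else 0) i : ℤ) : ℝ))))))) M (fun z => hM _)
  refine Eq.trans ?_ h3.symm
  congr 1
  ext w
  congr 2
  funext t
  have hle : ⌊t.1 * n⌋₊ ≤ ⌊T * n⌋₊ := by
    apply Nat.floor_le_floor
    exact mul_le_mul_of_nonneg_right t.2.2 (Nat.cast_nonneg n)
  have ha : ⌊t.1 * n⌋₊ < ⌊T * n⌋₊ + 1 + 1 := by omega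
  have hb : ⌊t.1 * n⌋₊ + 1 < ⌊T * n⌋₊ + 1 + 1 := by omega
  simp only [scaled, dif_pos ha, dif_pos hb]

end Pool.Agent.Lib.QIP
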