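import Pool.Agent.Lib.QIP.Defs

/-!
# Random walk on a conductance configuration: transition operator, killed resolvent
-/

set_option autoImplicit false

open MeasureTheory ProbabilityTheory Filter
open scoped ENNReal NNReal Topology BigOperators

namespace Pool.Agent.Lib.QIP

namespace Cond

variable {d : ℕ} (C : Cond d) {E : Type*} [NormedAddCommGroup E] [NormedSpace ℝ E]

/-- total conductance at `x` -/
noncomputable def deg (x : V d) : ℝ := ∑' y, C.c x y

theorem hfs (x : V d) : (Function.support (C.c x)).Finite := C.fin x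

theorem summable_c (x : V d) : Summable (C.c x) :=
  summable_of_hasFiniteSupport (C.hfs x)

theorem hfs_smul (f : V d → E) (x : V d) : (Function.support (fun y => C.c x y • f y)).Finite := by
  refine (C.hfs x).subset ?_
  intro y hy
  simp only [Function.mem_support] at hy ⊢
  intro h
  exact hy (by rw [h, zero_smul])

theorem summable_smul (f : V d → E) (x : V d) : Summable (fun y => C.c x y • f y) :=
  summable_of_hasFiniteSupport (C.hfs_smul f x)

theorem summable_mul (f : V d → ℝ) (x : V d) : Summable (fun y => C.c x y * f y) := by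
  simpa [smul_eq_mul] using C.summable_smul f x

theorem n1_ee (i : Fin d) : n1 (ee i) = 1 := by
  unfold n1 ee
  rw [Finset.sum_eq_single i]
  · simp
  · intro j _ hj
    simp [hj]
  · simp

theorem c_ee (x : V d) (i : Fin d) : C.c x (x + ee i) = 1 := by
  apply C.nn
  rw [add_sub_cancel_left]
  exact n1_ee i

theorem deg_nonneg (x : V d) : 0 ≤ C.deg x := tsum_nonneg (C.nonneg x)

theorem one_le_deg (hd : 0 < d) (x : V d) : 1 ≤ C.deg x := by
  have h := (C.summable_c x).le_tsum (x + ee ⟨0, hd⟩) (fun j _ => C.nonneg x j)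
  rw [C.c_ee] at h
  exact h

theorem deg_pos (hd : 0 < d) (x : V d) : 0 < C.deg x := lt_of_lt_of_le one_pos (C.one_le_deg hd x)

/-- The transition operator of simple random walk. -/
noncomputable def P (f : V d → E) (x : V d) : E := (C.deg x)⁻¹ • ∑' y, C.c x y • f y

theorem norm_P_le (hd : 0 < d) {f : V d → E} {M : ℝ} (hf : ∀ x, ‖f x‖ ≤ M) (x : V d) :
    ‖C.P f x‖ ≤ M := by
  unfold P
  rw [norm_smul, norm_inv, Real.norm_of_nonneg (C.deg_nonneg x)]
  have h1 : ‖∑' y, C.c x y • f y‖ ≤ ∑' y, C.c x y * M := by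
    have hsn : Summable (fun y => ‖C.c x y • f y‖) := by
      apply summable_of_hasFiniteSupport
      refine (C.hfs_smul f x).subset ?_
      intro y hy
      simp only [Function.mem_support, ne_eq, norm_eq_zero] at hy ⊢
      exact hy
    refine (norm_tsum_le_tsum_norm hsn).trans ?_
    refine hsn.tsum_le_tsum ?_ ((C.summable_c x).mul_right M)
    intro y
    rw [norm_smul, Real.norm_of_nonneg (C.nonneg x y)]
    exact mul_le_mul_of_nonneg_left (hf y) (C.nonneg x y)
  rw [tsum_mul_right] at h1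
  have hpos := C.deg_pos hd x
  calc (C.deg x)⁻¹ * ‖∑' y, C.c x y • f y‖ ≤ (C.deg x)⁻¹ * (C.deg x * M) := by
        gcongr
        exact h1
    _ = M := by
        field_simp

theorem P_const (hd : 0 < d) (a : E) (x : V d) : C.P (fun _ => a) x = a := by
  unfold P
  have h1 : (∑' y, C.c x y • a) = C.deg x • a := (C.summable_c x).tsum_smul_const a
  have hpos := C.deg_pos hd x
  rw [h1, smul_smul, inv_mul_cancel₀ hpos.ne', one_smul]

theorem P_add (f g : V d → E) (x : V d) : C.P (fun y => f y + g y) x = C.P f x + C.P g x := by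
  unfold P
  rw [← smul_add, ← (C.summable_smul f x).tsum_add (C.summable_smul g x)]
  congr 1
  congr 1
  ext y
  rw [smul_add]

theorem P_sub (f g : V d → E) (x : V d) : C.P (fun y => f y - g y) x = C.P f x - C.P g x := by
  unfold P
  rw [← smul_sub, ← (C.summable_smul f x).tsum_sub (C.summable_smul g x)]
  congr 1
  congr 1
  ext y
  rw [smul_sub]

theorem P_smul (a : ℝ) (f : V d → E) (x : V d) : C.P (fun y => a • f y) x = a • C.P f x := by
  unfold P
  rw [smul_comm a, ← (C.summable_smul f x).tsum_const_smul]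
  congr 1
  congr 1
  ext y
  rw [smul_comm]

theorem P_nonneg {f : V d → ℝ} (hf : ∀ x, 0 ≤ f x) (x : V d) : 0 ≤ C.P f x := by
  unfold P
  exact mul_nonneg (inv_nonneg.2 (C.deg_nonneg x))
    (tsum_nonneg fun y => mul_nonneg (C.nonneg x y) (hf y))

theorem P_mono {f g : V d → ℝ} (hf : ∀ x, f x ≤ g x) (x : V d) : C.P f x ≤ C.P g x := by
  have h := C.P_nonneg (f := fun y => g y - f y) (fun y => sub_nonneg.2 (hf y)) x
  rw [C.P_sub] at h
  linarith

theorem deg_smul_P (hd : 0 < d) (f : V d → E) (x : V d) :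
    C.deg x • C.P f x = ∑' y, C.c x y • f y := by
  unfold P
  rw [smul_smul, mul_inv_cancel₀ (C.deg_pos hd x).ne', one_smul]

/-- `P` commutes with summation over time. -/
theorem P_tsum {F : ℕ → V d → E} (hF : ∀ x, Summable (fun k => F k x)) (x : V d) :
    C.P (fun y => ∑' k, F k y) x = ∑' k, C.P (F k) x := by
  unfold P
  have h1 : ∀ k, (∑' y, C.c x y • F k y) = ∑ y ∈ (C.hfs x).toFinset, C.c x y • F k y := by
    intro k
    refine tsum_eq_sum ?_
    intro y hy
    have : C.c x y = 0 := by
      by_contra h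
      exact hy ((C.hfs x).mem_toFinset.2 h)
    rw [this, zero_smul]
  have h2 : (∑' y, C.c x y • ∑' k, F k y) = ∑ y ∈ (C.hfs x).toFinset, C.c x y • ∑' k, F k y := by
    refine tsum_eq_sum ?_
    intro y hy
    have : C.c x y = 0 := by
      by_contra h
      exact hy ((C.hfs x).mem_toFinset.2 h)
    rw [this, zero_smul]
  rw [h2]
  simp_rw [h1]
  have h3 : HasSum (fun k => ∑ y ∈ (C.hfs x).toFinset, C.c x y • F k y)
      (∑ y ∈ (C.hfs x).toFinset, C.c x y • ∑' k, F k y) := by
    apply hasSum_sum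
    intro y _
    exact ((hF y).hasSum).const_smul _
  rw [(h3.const_smul (C.deg x)⁻¹).tsum_eq]

/-- The transition operator killed outside `D`. -/
noncomputable def PD (D : Set (V d)) (f : V d → E) : V d → E := D.indicator (C.P f)

theorem norm_PD_le (hd : 0 < d) (D : Set (V d)) {f : V d → E} {M : ℝ} (hf : ∀ x, ‖f x‖ ≤ M)
    (x : V d) : ‖C.PD D f x‖ ≤ M := by
  unfold PD
  by_cases hx : x ∈ D
  · rw [Set.indicator_of_mem hx]
    exact C.norm_P_le hd hf x
  · rw [Set.indicator_of_notMem hx, norm_zero]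
    exact (norm_nonneg _).trans (hf x)

theorem norm_iter_le (hd : 0 < d) (D : Set (V d)) {f : V d → E} {M : ℝ} (hf : ∀ x, ‖f x‖ ≤ M)
    (k : ℕ) (x : V d) : ‖(C.PD D)^[k] f x‖ ≤ M := by
  induction k generalizing x with
  | zero => exact hf x
  | succ k ih =>
    rw [Function.iterate_succ_apply']
    exact C.norm_PD_le hd D ih x

theorem norm_indicator_le (D : Set (V d)) {f : V d → E} {M : ℝ} (hf : ∀ x, ‖f x‖ ≤ M)
    (x : V d) : ‖D.indicator f x‖ ≤ M := by
  by_cases hx : x ∈ D
  · rw [Set.indicator_of_mem hx]; exact hf x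
  · rw [Set.indicator_of_notMem hx, norm_zero]; exact (norm_nonneg _).trans (hf x)

/-- The survival probability per step for killing parameter `lam`. -/
noncomputable def sv (lam : ℝ) : ℝ := 1 / (1 + lam)

/-- The expectation of `f` at an independent geometric time (parameter `lam / (1 + lam)`), on the
event that the walk has not left `D`. -/
noncomputable def res (D : Set (V d)) (lam : ℝ) (f : V d → E) (x : V d) : E :=
  ∑' k : ℕ, ((1 - sv lam) * sv lam ^ k) • ((C.PD D)^[k] (D.indicator f)) x

theorem sv_pos {lam : ℝ} (h : 0 < lam) : 0 < sv lam := by unfold sv; positivity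

theorem sv_lt_one {lam : ℝ} (h : 0 < lam) : sv lam < 1 := by
  unfold sv
  rw [div_lt_one (by linarith)]
  linarith

theorem one_sub_sv {lam : ℝ} (h : 0 < lam) : 1 - sv lam = lam * sv lam := by
  unfold sv
  have : 1 + lam ≠ 0 := by linarith
  field_simp
  ring

theorem hasSum_geo {lam : ℝ} (h : 0 < lam) : HasSum (fun k : ℕ => (1 - sv lam) * sv lam ^ k) 1 := by
  have h1 := (hasSum_geometric_of_lt_one (sv_pos h).le (sv_lt_one h)).mul_left (1 - sv lam)
  have h2 : (1 - sv lam) * (1 - sv lam)⁻¹ = 1 := mul_inv_cancel₀ (by linarith [sv_lt_one h])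
  rwa [h2] at h1

theorem summable_res [CompleteSpace E] (hd : 0 < d) (D : Set (V d)) {lam : ℝ} (h : 0 < lam)
    {f : V d → E} {M : ℝ} (hf : ∀ x, ‖f x‖ ≤ M) (x : V d) :
    Summable (fun k : ℕ => ((1 - sv lam) * sv lam ^ k) • ((C.PD D)^[k] (D.indicator f)) x) := by
  refine Summable.of_norm_bounded ((hasSum_geo h).summable.mul_right M) ?_
  intro k
  have h0 : 0 ≤ (1 - sv lam) * sv lam ^ k :=
    mul_nonneg (by linarith [sv_lt_one h]) (pow_nonneg (sv_pos h).le _)
  rw [norm_smul, Real.norm_of_nonneg h0]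
  exact mul_le_mul_of_nonneg_left (C.norm_iter_le hd D (norm_indicator_le D hf) k x) h0

theorem norm_res_le [CompleteSpace E] (hd : 0 < d) (D : Set (V d)) {lam : ℝ} (h : 0 < lam)
    {f : V d → E} {M : ℝ} (hf : ∀ x, ‖f x‖ ≤ M) (x : V d) : ‖C.res D lam f x‖ ≤ M := by
  unfold res
  have h0 : ∀ k : ℕ, 0 ≤ (1 - sv lam) * sv lam ^ k := fun k =>
    mul_nonneg (by linarith [sv_lt_one h]) (pow_nonneg (sv_pos h).le _)
  have h1 : HasSum (fun k : ℕ => (1 - sv lam) * sv lam ^ k * M) (1 * M) := (hasSum_geo h).mul_right M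
  rw [one_mul] at h1
  refine tsum_of_norm_bounded h1 ?_
  intro k
  rw [norm_smul, Real.norm_of_nonneg (h0 k)]
  exact mul_le_mul_of_nonneg_left (C.norm_iter_le hd D (norm_indicator_le D hf) k x) (h0 k)

theorem iter_off (D : Set (V d)) (f : V d → E) (k : ℕ) {x : V d} (hx : x ∉ D) :
    ((C.PD D)^[k] (D.indicator f)) x = 0 := by
  cases k with
  | zero => simp [hx]
  | succ k =>
    rw [Function.iterate_succ_apply']
    exact Set.indicator_of_notMem hx _

theorem res_off (D : Set (V d)) (lam : ℝ) (f : V d → E) {x : V d} (hx : x ∉ D) :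
    C.res D lam f x = 0 := by
  unfold res
  simp_rw [C.iter_off D f _ hx, smul_zero]
  exact tsum_zero

theorem res_eq [CompleteSpace E] (hd : 0 < d) (D : Set (V d)) {lam : ℝ} (h : 0 < lam)
    {f : V d → E} {M : ℝ} (hf : ∀ x, ‖f x‖ ≤ M) {x : V d} (hx : x ∈ D) :
    C.res D lam f x = (1 - sv lam) • f x + sv lam • C.P (C.res D lam f) x := by
  have hs := C.summable_res hd D h hf
  have h1 : C.res D lam f x = (1 - sv lam) • f x +
      ∑' k : ℕ, ((1 - sv lam) * sv lam ^ (k + 1)) • ((C.PD D)^[k + 1] (D.indicator f)) x := by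
    unfold res
    rw [(hs x).tsum_eq_zero_add]
    simp [hx]
  rw [h1]
  congr 1
  have h2 : ∀ k : ℕ, ((1 - sv lam) * sv lam ^ (k + 1)) • ((C.PD D)^[k + 1] (D.indicator f)) x =
      sv lam • C.P (fun y => ((1 - sv lam) * sv lam ^ k) • ((C.PD D)^[k] (D.indicator f)) y) x := by
    intro k
    rw [Function.iterate_succ_apply', C.P_smul, smul_smul]
    unfold PD
    rw [Set.indicator_of_mem hx]
    congr 1
    rw [pow_succ]
    ring
  simp_rw [h2]
  have h3 := C.P_tsum hs x
  have h4 : (fun y => ∑' k : ℕ, ((1 - sv lam) * sv lam ^ k) • ((C.PD D)^[k] (D.indicator f)) y) =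
      C.res D lam f := rfl
  rw [h4] at h3
  rw [h3]
  have h5 : Summable (fun k : ℕ =>
      C.P (fun y => ((1 - sv lam) * sv lam ^ k) • ((C.PD D)^[k] (D.indicator f)) y) x) := by
    refine Summable.of_norm_bounded ((hasSum_geo h).summable.mul_right M) ?_
    intro k
    have h0 : 0 ≤ (1 - sv lam) * sv lam ^ k :=
      mul_nonneg (by linarith [sv_lt_one h]) (pow_nonneg (sv_pos h).le _)
    rw [C.P_smul, norm_smul, Real.norm_of_nonneg h0]
    exact mul_le_mul_of_nonneg_left
      (C.norm_P_le hd (C.norm_iter_le hd D (norm_indicator_le D hf) k) x) h0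
  rw [h5.tsum_const_smul]

/-- Uniqueness of bounded solutions. -/
theorem unique_zero (hd : 0 < d) (D : Set (V d)) {lam : ℝ} (h : 0 < lam)
    {w : V d → E} {M : ℝ} (hw : ∀ x, ‖w x‖ ≤ M) (h0 : ∀ x, x ∉ D → w x = 0)
    (h1 : ∀ x, x ∈ D → w x = sv lam • C.P w x) (x : V d) : w x = 0 := by
  have key : ∀ k : ℕ, ∀ x, ‖w x‖ ≤ sv lam ^ k * M := by
    intro k
    induction k with
    | zero => intro x; simpa using hw x
    | succ k ih =>
      intro x
      by_cases hx : x ∈ D
      · rw [h1 x hx, norm_smul, Real.norm_of_nonneg (sv_pos h).le, pow_succ', mul_assoc]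
        exact mul_le_mul_of_nonneg_left (C.norm_P_le hd ih x) (sv_pos h).le
      · rw [h0 x hx, norm_zero]
        have : 0 ≤ M := (norm_nonneg _).trans (hw x)
        exact mul_nonneg (pow_nonneg (sv_pos h).le _) this
  have h2 : Tendsto (fun k : ℕ => sv lam ^ k * M) atTop (nhds (0 * M)) :=
    (tendsto_pow_atTop_nhds_zero_of_lt_one (sv_pos h).le (sv_lt_one h)).mul_const M
  rw [zero_mul] at h2
  have h3 : ‖w x‖ ≤ 0 := ge_of_tendsto' h2 (fun k => key k x)
  exact norm_le_zero_iff.1 h3

/-- The elliptic form of the resolvent equation. -/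
theorem res_ell [CompleteSpace E] (hd : 0 < d) (D : Set (V d)) {lam : ℝ} (h : 0 < lam)
    {f : V d → E} {M : ℝ} (hf : ∀ x, ‖f x‖ ≤ M) {x : V d} (hx : x ∈ D) :
    ((1 + lam) * C.deg x) • C.res D lam f x - ∑' y, C.c x y • C.res D lam f y =
      (lam * C.deg x) • f x := by
  have h1 := C.res_eq hd D h hf hx
  rw [← C.deg_smul_P hd]
  have h2 : ((1 + lam) * C.deg x) • C.res D lam f x =
      (lam * C.deg x) • f x + C.deg x • C.P (C.res D lam f) x := by
    conv_lhs => rw [h1]
    rw [smul_add, smul_smul, smul_smul]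
    have hne : 1 + lam ≠ 0 := by linarith
    congr 1
    · congr 1
      rw [one_sub_sv h]
      unfold sv
      field_simp
    · congr 1
      unfold sv
      field_simp
  rw [h2]
  abel

/-- A bounded solution of the elliptic equation solves the fixed point equation. -/
theorem fix_of_ell (hd : 0 < d) {lam : ℝ} (h : 0 < lam) {w : V d → E} {r : E} {x : V d}
    (hw : ((1 + lam) * C.deg x) • w x - ∑' y, C.c x y • w y = (lam * C.deg x) • r) :
    w x = (1 - sv lam) • r + sv lam • C.P w x := by
  have hne : 1 + lam ≠ 0 := by linarith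
  have hdeg := (C.deg_pos hd x).ne'
  have h1 : ((1 + lam) * C.deg x) • w x = (lam * C.deg x) • r + C.deg x • C.P w x := by
    rw [C.deg_smul_P hd, ← hw]
    abel
  have h2 : w x = ((1 + lam) * C.deg x)⁻¹ • (((1 + lam) * C.deg x) • w x) := by
    rw [smul_smul, inv_mul_cancel₀ (mul_ne_zero hne hdeg), one_smul]
  rw [h2, h1, smul_add, smul_smul, smul_smul]
  congr 1
  · congr 1
    rw [one_sub_sv h]
    unfold sv
    field_simp
  · congr 1
    unfold sv
    field_simp

theorem res_nonneg (hd : 0 < d) (D : Set (V d)) {lam : ℝ} (h : 0 < lam)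
    {f : V d → ℝ} (hf : ∀ x, 0 ≤ f x) (x : V d) : 0 ≤ C.res D lam f x := by
  unfold res
  apply tsum_nonneg
  intro k
  apply mul_nonneg
  · exact mul_nonneg (by linarith [sv_lt_one h]) (pow_nonneg (sv_pos h).le _)
  · have : ∀ k : ℕ, ∀ x, 0 ≤ ((C.PD D)^[k] (D.indicator f)) x := by
      intro k
      induction k with
      | zero => intro x; exact Set.indicator_nonneg (fun y _ => hf y) x
      | succ k ih =>
        intro x
        rw [Function.iterate_succ_apply']
        exact Set.indicator_nonneg (fun y _ => C.P_nonneg ih y) x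
    exact this k x

end Cond

end Pool.Agent.Lib.QIP
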