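import Pool.Agent.Lib.QIP.Var2

/-!
# The measure on environments and jumps, flip invariance, gradients
-/

set_option autoImplicit false

open MeasureTheory ProbabilityTheory Filter
open scoped ENNReal NNReal Topology BigOperators

namespace Pool.Agent.Lib.QIP

variable {d : ℕ}

theorem meas_prod {γ : Type*} [MeasurableSpace γ] {F : Env d × V d → γ}
    (h : ∀ y, Measurable (fun ω => F (ω, y))) : Measurable F :=
  measurable_from_prod_countable_left h

/-- the density -/
noncomputable def cden (q : Env d × V d) : ℝ≥0∞ := ENNReal.ofReal ((cond q.1).c 0 q.2)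

theorem measurable_cden : Measurable (cden : Env d × V d → ℝ≥0∞) :=
  meas_prod fun y => (measurable_c 0 y).ennreal_ofReal

/-- The measure `μ(dω) ∑_y c^ω(0,y) δ_y`. -/
noncomputable def rho (m : Model d) : Measure (Env d × V d) :=
  (m.μ.prod Measure.count).withDensity cden

theorem lint_rho (m : Model d) {F : Env d × V d → ℝ≥0∞} (hF : Measurable F) :
    ∫⁻ q, F q ∂(rho m) = ∫⁻ ω, ∑' y, ENNReal.ofReal ((cond ω).c 0 y) * F (ω, y) ∂m.μ := by
  unfold rho
  rw [lintegral_withDensity_eq_lintegral_mul _ measurable_cden hF,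
    lintegral_prod _ (measurable_cden.mul hF).aemeasurable]
  congr 1
  ext ω
  rw [lintegral_count]
  rfl

theorem lint_rho_fst (m : Model d) {F : Env d → ℝ≥0∞} (hF : Measurable F) :
    ∫⁻ q, F q.1 ∂(rho m) = ∫⁻ ω, ENNReal.ofReal ((cond ω).deg 0) * F ω ∂m.μ := by
  rw [lint_rho m (F := fun q => F q.1) (hF.comp measurable_fst)]
  congr 1
  ext ω
  simp only
  rw [ENNReal.tsum_mul_right, Model.ofReal_deg]

theorem lint_rho_snd (m : Model d) (F : V d → ℝ≥0∞) :
    ∫⁻ q, F q.2 ∂(rho m) = ∑' y, ENNReal.ofReal (m.p y) * F y := by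
  rw [lint_rho m (F := fun q => F q.2) ((measurable_of_countable F).comp measurable_snd),
    lintegral_tsum (fun y => ((measurable_c 0 y).ennreal_ofReal.mul_const _).aemeasurable)]
  congr 1
  ext y
  rw [lintegral_mul_const _ (measurable_c 0 y).ennreal_ofReal, m.lint_c, sub_zero]

theorem rho_univ (m : Model d) : rho m Set.univ = ENNReal.ofReal m.κ := by
  have h := lint_rho_snd m (fun _ => 1)
  simp only [mul_one, lintegral_const, one_mul] at h
  rw [h, m.ofReal_κ]

instance (m : Model d) : IsFiniteMeasure (rho m) := ⟨by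
  rw [rho_univ]
  exact ENNReal.ofReal_lt_top⟩

theorem rho_real_univ (m : Model d) : (rho m).real Set.univ = m.κ := by
  unfold Measure.real
  rw [rho_univ, ENNReal.toReal_ofReal m.κ_nonneg]

/-- The flip. -/
def flip (q : Env d × V d) : Env d × V d := (shift q.2 q.1, -q.2)

theorem measurable_flip : Measurable (flip : Env d × V d → Env d × V d) :=
  meas_prod fun y => (measurable_shift y).prodMk (measurable_const (a := -y))

theorem mp_flip (m : Model d) : MeasurePreserving flip (rho m) (rho m) := by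
  refine ⟨measurable_flip, ?_⟩
  refine Measure.ext_of_lintegral _ fun F hF => ?_
  rw [lintegral_map hF measurable_flip,
    lint_rho m (F := fun q => F (flip q)) (hF.comp measurable_flip), lint_rho m hF]
  have hm1 : ∀ y, Measurable (fun ω : Env d => ENNReal.ofReal ((cond ω).c 0 y) * F (flip (ω, y))) :=
    fun y => (measurable_c 0 y).ennreal_ofReal.mul
      ((hF.comp measurable_flip).comp (measurable_id.prodMk measurable_const))
  have hm2 : ∀ y, Measurable (fun ω : Env d => ENNReal.ofReal ((cond ω).c 0 y) * F (ω, y)) :=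
    fun y => (measurable_c 0 y).ennreal_ofReal.mul
      (hF.comp (measurable_id.prodMk measurable_const))
  rw [lintegral_tsum (fun y => (hm1 y).aemeasurable), lintegral_tsum (fun y => (hm2 y).aemeasurable)]
  rw [← (Equiv.neg (V d)).tsum_eq (fun y => ∫⁻ ω, ENNReal.ofReal ((cond ω).c 0 y) * F (ω, y) ∂m.μ)]
  congr 1
  ext y
  simp only [Equiv.neg_apply]
  rw [← m.lint_shift y (hm2 (-y))]
  congr 1
  ext ω
  have h1 : (cond (shift y ω)).c 0 (-y) = (cond ω).c 0 y := by
    rw [cond_shift, zero_add, neg_add_cancel, (cond ω).symm]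
  rw [h1]
  rfl

theorem flip_flip (q : Env d × V d) : flip (flip q) = q := by
  unfold flip
  simp [shift_shift, shift_zero]

theorem int_flip {E : Type*} [NormedAddCommGroup E] [NormedSpace ℝ E] (m : Model d)
    {F : Env d × V d → E} (hF : AEStronglyMeasurable F (rho m)) :
    ∫ q, F (flip q) ∂(rho m) = ∫ q, F q ∂(rho m) := by
  have h := integral_map (μ := rho m) measurable_flip.aemeasurable (f := F)
    (by rw [(mp_flip m).map_eq]; exact hF)
  rw [(mp_flip m).map_eq] at h
  exact h.symm

/-- second moment of the jump under `rho` -/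
theorem lint_rho_n1sq (m : Model d) : ∫⁻ q, ENNReal.ofReal (((n1 q.2 : ℤ) : ℝ) ^ 2) ∂(rho m) =
    ENNReal.ofReal m.M2 := by
  rw [lint_rho_snd m (fun y => ENNReal.ofReal (((n1 y : ℤ) : ℝ) ^ 2))]
  unfold Model.M2
  rw [ENNReal.ofReal_tsum_of_nonneg (fun y => mul_nonneg (sq_nonneg _) (m.nonneg y)) m.sum2]
  congr 1
  ext y
  rw [← ENNReal.ofReal_mul (m.nonneg y), mul_comm]

theorem measurable_snd_fun {γ : Type*} [MeasurableSpace γ] (g : V d → γ) :
    Measurable (fun q : Env d × V d => g q.2) :=
  (measurable_of_countable g).comp measurable_snd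

theorem integrable_n1sq (m : Model d) : Integrable (fun q : Env d × V d => ((n1 q.2 : ℤ) : ℝ) ^ 2)
    (rho m) := by
  refine ⟨(measurable_snd_fun (fun y => ((n1 y : ℤ) : ℝ) ^ 2)).aestronglyMeasurable, ?_⟩
  rw [hasFiniteIntegral_iff_ofReal (Eventually.of_forall fun q => sq_nonneg _), lint_rho_n1sq]
  exact ENNReal.ofReal_lt_top

theorem abs_le_n1 (y : V d) (i : Fin d) : |(y i : ℝ)| ≤ ((n1 y : ℤ) : ℝ) := by
  rw [n1_cast]
  exact Finset.single_le_sum (f := fun i => |(y i : ℝ)|) (fun _ _ => abs_nonneg _)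
    (Finset.mem_univ i)

/-- coordinate functions -/
noncomputable def zc (i : Fin d) (q : Env d × V d) : ℝ := (q.2 i : ℝ)

theorem memLp_of_sq_le (m : Model d) {F : Env d × V d → ℝ} (hF : AEStronglyMeasurable F (rho m))
    {G : Env d × V d → ℝ} (hG : Integrable G (rho m)) (h : ∀ q, F q ^ 2 ≤ G q) :
    MemLp F 2 (rho m) := by
  rw [memLp_two_iff_integrable_sq hF]
  exact hG.mono' (hF.pow 2) (Eventually.of_forall fun q => by
    rw [Real.norm_of_nonneg (sq_nonneg _)]
    exact h q)

theorem memLp_zc (m : Model d) (i : Fin d) : MemLp (zc i) 2 (rho m) := by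
  refine memLp_of_sq_le m (measurable_snd_fun (fun y => (y i : ℝ))).aestronglyMeasurable
    (integrable_n1sq m) ?_
  intro q
  rw [← sq_abs]
  exact pow_le_pow_left₀ (abs_nonneg _) (abs_le_n1 q.2 i) 2

/-- The gradient of a function on the environment. -/
def gr {E : Type*} [Sub E] (φ : Env d → E) (q : Env d × V d) : E := φ (shift q.2 q.1) - φ q.1

theorem measurable_gr {E : Type*} [NormedAddCommGroup E] [MeasurableSpace E] [BorelSpace E]
    [SecondCountableTopology E] {φ : Env d → E} (h : Measurable φ) : Measurable (gr φ) :=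
  meas_prod fun y => (h.comp (measurable_shift y)).sub h

theorem memLp_gr (m : Model d) {φ : Env d → ℝ} (h : Measurable φ) {M : ℝ}
    (hM : ∀ ω, |φ ω| ≤ M) : MemLp (gr φ) 2 (rho m) := by
  refine MemLp.of_bound (measurable_gr h).aestronglyMeasurable (M + M)
    (Eventually.of_forall fun q => ?_)
  rw [Real.norm_eq_abs]
  unfold gr
  exact (abs_sub _ _).trans (add_le_add (hM _) (hM _))

end Pool.Agent.Lib.QIP
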