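import Pool.Agent.Lib.QIP.Anneal2

/-!
# Stationarity of the environment seen from the walk
-/

set_option autoImplicit false

open MeasureTheory ProbabilityTheory Filter
open scoped ENNReal NNReal Topology BigOperators

namespace Pool.Agent.Lib.QIP

variable {d : ℕ}

/-- A random function on the lattice is covariant. -/
def Cov {E : Type*} (f : Env d → V d → E) : Prop := ∀ a ω x, f (shift a ω) x = f ω (x + a)

theorem cov_of_env {E : Type*} (Φ : Env d → E) : Cov (fun ω y => Φ (shift y ω)) := by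
  intro a ω x
  simp only [shift_shift]

theorem Cov.P {E : Type*} [NormedAddCommGroup E] [NormedSpace ℝ E] {f : Env d → V d → E}
    (hf : Cov f) : Cov (fun ω => (cond ω).P (f ω)) := by
  intro a ω x
  have h1 : f (shift a ω) = fun y => f ω (y + a) := funext fun y => hf a ω y
  simp only
  rw [h1]
  exact P_cov (C' := cond (shift a ω)) (C := cond ω) (cond_shift a ω) (f ω) x

theorem Cov.iter {E : Type*} [NormedAddCommGroup E] [NormedSpace ℝ E] {f : Env d → V d → E}
    (hf : Cov f) (k : ℕ) : Cov (fun ω => (cond ω).P^[k] (f ω)) := by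
  induction k with
  | zero => exact hf
  | succ k ih =>
    have := ih.P
    intro a ω x
    simp only [Function.iterate_succ_apply']
    exact this a ω x

theorem measurable_iterP {E : Type*} [NormedAddCommGroup E] [NormedSpace ℝ E] [MeasurableSpace E]
    [BorelSpace E] [SecondCountableTopology E] {f : Env d → V d → E}
    (hf : ∀ y, Measurable (fun ω => f ω y)) (k : ℕ) (x : V d) :
    Measurable (fun ω => (cond ω).P^[k] (f ω) x) := by
  induction k generalizing x with
  | zero => exact hf x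
  | succ k ih =>
    simp_rw [Function.iterate_succ_apply']
    exact measurable_P ih x

theorem Cond.iterP_nonneg (C : Cond d) {f : V d → ℝ} (h0 : ∀ y, 0 ≤ f y) (k : ℕ) (x : V d) :
    0 ≤ C.P^[k] f x := by
  induction k generalizing x with
  | zero => exact h0 x
  | succ k ih =>
    rw [Function.iterate_succ_apply']
    exact C.P_nonneg ih x

theorem Cond.iterP_mono (C : Cond d) {f g : V d → ℝ} (h : ∀ y, f y ≤ g y) (k : ℕ) (x : V d) :
    C.P^[k] f x ≤ C.P^[k] g x := by
  induction k generalizing x with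
  | zero => exact h x
  | succ k ih =>
    rw [Function.iterate_succ_apply', Function.iterate_succ_apply']
    exact C.P_mono ih x

theorem Cond.iterP_le (C : Cond d) (hd : 0 < d) {f : V d → ℝ} {M : ℝ} (h : ∀ y, f y ≤ M) (k : ℕ)
    (x : V d) : C.P^[k] f x ≤ M := by
  induction k generalizing x with
  | zero => exact h x
  | succ k ih =>
    rw [Function.iterate_succ_apply']
    have h1 := C.P_mono (g := fun _ => M) ih x
    rwa [C.P_const hd] at h1

/-- Weighted stationarity, one step. -/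
theorem stat_P (m : Model d) (hd : 0 < d) {f : Env d → V d → ℝ}
    (hf : ∀ y, Measurable (fun ω => f ω y)) (h0 : ∀ ω y, 0 ≤ f ω y) (hcov : Cov f) :
    ∫⁻ ω, ENNReal.ofReal ((cond ω).deg 0 * (cond ω).P (f ω) 0) ∂m.μ =
      ∫⁻ ω, ENNReal.ofReal ((cond ω).deg 0 * f ω 0) ∂m.μ := by
  have hmt := mtp m (fun ω x y => ENNReal.ofReal ((cond ω).c x y * f ω y))
    (fun x y => ((measurable_c x y).mul (hf y)).ennreal_ofReal) (by
      intro a ω x y
      rw [cond_shift, hcov])
  have hm1 : ∀ y, Measurable (fun ω => ENNReal.ofReal ((cond ω).c 0 y * f ω y)) :=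
    fun y => ((measurable_c 0 y).mul (hf y)).ennreal_ofReal
  have hm2 : ∀ y, Measurable (fun ω => ENNReal.ofReal ((cond ω).c y 0 * f ω 0)) :=
    fun y => ((measurable_c y 0).mul (hf 0)).ennreal_ofReal
  rw [← lintegral_tsum (fun y => (hm1 y).aemeasurable),
    ← lintegral_tsum (fun y => (hm2 y).aemeasurable)] at hmt
  have e1 : ∀ ω, ENNReal.ofReal ((cond ω).deg 0 * (cond ω).P (f ω) 0) =
      ∑' y, ENNReal.ofReal ((cond ω).c 0 y * f ω y) := by
    intro ω
    have h1 := (cond ω).deg_smul_P hd (f ω) 0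
    simp only [smul_eq_mul] at h1
    rw [h1, ENNReal.ofReal_tsum_of_nonneg (fun y => mul_nonneg ((cond ω).nonneg _ _) (h0 ω y))
      ((cond ω).summable_mul _ 0)]
  have e2 : ∀ ω, ENNReal.ofReal ((cond ω).deg 0 * f ω 0) =
      ∑' y, ENNReal.ofReal ((cond ω).c y 0 * f ω 0) := by
    intro ω
    rw [(cond ω).ofReal_deg_mul (h0 ω)]
  simp_rw [e1, e2]
  exact hmt

theorem stat_iter (m : Model d) (hd : 0 < d) {f : Env d → V d → ℝ}
    (hf : ∀ y, Measurable (fun ω => f ω y)) (h0 : ∀ ω y, 0 ≤ f ω y) (hcov : Cov f) (k : ℕ) :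
    ∫⁻ ω, ENNReal.ofReal ((cond ω).deg 0 * (cond ω).P^[k] (f ω) 0) ∂m.μ =
      ∫⁻ ω, ENNReal.ofReal ((cond ω).deg 0 * f ω 0) ∂m.μ := by
  induction k with
  | zero => rfl
  | succ k ih =>
    simp_rw [Function.iterate_succ_apply']
    rw [stat_P m hd (f := fun ω => (cond ω).P^[k] (f ω)) (fun y => measurable_iterP hf k y)
      (fun ω y => (cond ω).iterP_nonneg (h0 ω) k y) (hcov.iter k)]
    exact ih

theorem PD_univ_eq {E : Type*} [NormedAddCommGroup E] [NormedSpace ℝ E] (C : Cond d) :
    (C.PD Set.univ : (V d → E) → V d → E) = C.P := by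
  funext f
  unfold Cond.PD
  exact Set.indicator_univ _

theorem stat_res (m : Model d) (hd : 0 < d) {lam : ℝ} (hl : 0 < lam) {f : Env d → V d → ℝ}
    (hf : ∀ y, Measurable (fun ω => f ω y)) (h0 : ∀ ω y, 0 ≤ f ω y) (hcov : Cov f) {M : ℝ}
    (hM : ∀ ω y, f ω y ≤ M) :
    ∫⁻ ω, ENNReal.ofReal ((cond ω).deg 0 * (cond ω).res Set.univ lam (f ω) 0) ∂m.μ =
      ∫⁻ ω, ENNReal.ofReal ((cond ω).deg 0 * f ω 0) ∂m.μ := by
  have hc : ∀ k : ℕ, 0 ≤ (1 - Cond.sv lam) * Cond.sv lam ^ k := fun k =>
    mul_nonneg (by linarith [Cond.sv_lt_one hl]) (pow_nonneg (Cond.sv_pos hl).le _)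
  have h1 : ∀ ω, ENNReal.ofReal ((cond ω).deg 0 * (cond ω).res Set.univ lam (f ω) 0) =
      ∑' k : ℕ, ENNReal.ofReal ((1 - Cond.sv lam) * Cond.sv lam ^ k) *
        ENNReal.ofReal ((cond ω).deg 0 * (cond ω).P^[k] (f ω) 0) := by
    intro ω
    unfold Cond.res
    rw [PD_univ_eq, Set.indicator_univ, ← tsum_mul_left, ENNReal.ofReal_tsum_of_nonneg]
    · congr 1
      ext k
      rw [← ENNReal.ofReal_mul (hc k)]
      congr 1
      simp only [smul_eq_mul]
      ring
    · intro k
      exact mul_nonneg ((cond ω).deg_nonneg 0)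
        (mul_nonneg (hc k) ((cond ω).iterP_nonneg (h0 ω) k 0))
    · have := (cond ω).summable_res hd Set.univ hl (f := f ω) (M := M) (fun y => by
        rw [Real.norm_of_nonneg (h0 ω y)]; exact hM ω y) 0
      rw [PD_univ_eq, Set.indicator_univ] at this
      exact this.mul_left _
  simp_rw [h1]
  have hm : ∀ k : ℕ, Measurable (fun ω => ENNReal.ofReal ((cond ω).deg 0 * (cond ω).P^[k] (f ω) 0)) :=
    fun k => ((measurable_deg 0).mul (measurable_iterP hf k 0)).ennreal_ofReal
  rw [lintegral_tsum (fun k => ((hm k).const_mul _).aemeasurable)]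
  have h2 : ∀ k : ℕ, ∫⁻ ω, ENNReal.ofReal ((1 - Cond.sv lam) * Cond.sv lam ^ k) *
      ENNReal.ofReal ((cond ω).deg 0 * (cond ω).P^[k] (f ω) 0) ∂m.μ =
      ENNReal.ofReal ((1 - Cond.sv lam) * Cond.sv lam ^ k) *
        ∫⁻ ω, ENNReal.ofReal ((cond ω).deg 0 * f ω 0) ∂m.μ := by
    intro k
    rw [lintegral_const_mul _ (hm k), stat_iter m hd hf h0 hcov k]
  simp_rw [h2]
  rw [ENNReal.tsum_mul_right, ← ENNReal.ofReal_tsum_of_nonneg hc (Cond.hasSum_geo hl).summable,
    (Cond.hasSum_geo hl).tsum_eq, ENNReal.ofReal_one, one_mul]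

theorem measurable_res_rand {E : Type*} [NormedAddCommGroup E] [NormedSpace ℝ E]
    [MeasurableSpace E] [BorelSpace E] [SecondCountableTopology E] [CompleteSpace E] (hd : 0 < d)
    (D : Set (V d)) {lam : ℝ} (hl : 0 < lam) {f : Env d → V d → E}
    (hf : ∀ y, Measurable (fun ω => f ω y)) {M : ℝ} (hM : ∀ ω x, ‖f ω x‖ ≤ M) (x : V d) :
    Measurable (fun ω : Env d => (cond ω).res D lam (f ω) x) := by
  unfold Cond.res
  refine measurable_tsum_aux (fun k => ?_) (fun ω => (cond ω).summable_res hd D hl (hM ω) x)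
  refine Measurable.const_smul ?_ _
  refine measurable_iter D (f := fun ω => D.indicator (f ω)) (fun y => ?_) k x
  by_cases hy : y ∈ D
  · simp_rw [Set.indicator_of_mem hy]
    exact hf y
  · simp_rw [Set.indicator_of_notMem hy]
    exact measurable_const

namespace Cond

variable (C : Cond d) {E : Type*} [NormedAddCommGroup E] [NormedSpace ℝ E]

theorem norm_P_le_P (f : V d → E) (x : V d) : ‖C.P f x‖ ≤ C.P (fun y => ‖f y‖) x := by
  unfold P
  rw [norm_smul, norm_inv, Real.norm_of_nonneg (C.deg_nonneg x), smul_eq_mul]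
  apply mul_le_mul_of_nonneg_left _ (inv_nonneg.2 (C.deg_nonneg x))
  rw [C.tsum_c_smul, C.tsum_c_smul]
  refine (norm_sum_le _ _).trans ?_
  apply Finset.sum_le_sum
  intro y _
  rw [norm_smul, Real.norm_of_nonneg (C.nonneg x y), smul_eq_mul]

theorem norm_iter_le_iter (D : Set (V d)) {f : V d → E} {g : V d → ℝ} (h : ∀ y, ‖f y‖ ≤ g y)
    (k : ℕ) (x : V d) : ‖(C.PD D)^[k] f x‖ ≤ (C.PD D)^[k] g x := by
  induction k generalizing x with
  | zero => exact h x
  | succ k ih =>
    rw [Function.iterate_succ_apply', Function.iterate_succ_apply']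
    unfold PD
    by_cases hx : x ∈ D
    · rw [Set.indicator_of_mem hx, Set.indicator_of_mem hx]
      exact (C.norm_P_le_P _ x).trans (C.P_mono ih x)
    · rw [Set.indicator_of_notMem hx, Set.indicator_of_notMem hx, norm_zero]

theorem norm_res_le_res [CompleteSpace E] (hd : 0 < d) (D : Set (V d)) {lam : ℝ} (hl : 0 < lam)
    {f : V d → E} {g : V d → ℝ} {M : ℝ} (h : ∀ y, ‖f y‖ ≤ g y) (hg : ∀ y, g y ≤ M) (x : V d) :
    ‖C.res D lam f x‖ ≤ C.res D lam g x := by
  unfold res
  have h0 : ∀ k : ℕ, 0 ≤ (1 - sv lam) * sv lam ^ k := fun k =>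
    mul_nonneg (by linarith [sv_lt_one hl]) (pow_nonneg (sv_pos hl).le _)
  have hgn : ∀ y, ‖g y‖ ≤ M := fun y => by
    rw [Real.norm_of_nonneg ((norm_nonneg _).trans (h y))]
    exact hg y
  have hs := C.summable_res hd D hl hgn x
  refine tsum_of_norm_bounded hs.hasSum ?_
  intro k
  rw [norm_smul, Real.norm_of_nonneg (h0 k), smul_eq_mul]
  apply mul_le_mul_of_nonneg_left _ (h0 k)
  apply C.norm_iter_le_iter D
  intro y
  by_cases hy : y ∈ D
  · rw [Set.indicator_of_mem hy, Set.indicator_of_mem hy]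
    exact h y
  · rw [Set.indicator_of_notMem hy, Set.indicator_of_notMem hy, norm_zero]

theorem res_sub [CompleteSpace E] (hd : 0 < d) (D : Set (V d)) {lam : ℝ} (hl : 0 < lam)
    {f g : V d → E} {M N : ℝ} (hf : ∀ y, ‖f y‖ ≤ M) (hg : ∀ y, ‖g y‖ ≤ N) (x : V d) :
    C.res D lam (fun y => f y - g y) x = C.res D lam f x - C.res D lam g x := by
  have hiter : ∀ k : ℕ, ∀ x, (C.PD D)^[k] (D.indicator (fun y => f y - g y)) x =
      (C.PD D)^[k] (D.indicator f) x - (C.PD D)^[k] (D.indicator g) x := by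
    intro k
    induction k with
    | zero =>
      intro x
      simp only [Function.iterate_zero, id_eq]
      by_cases hx : x ∈ D
      · simp only [Set.indicator_of_mem hx]
      · simp only [Set.indicator_of_notMem hx, sub_zero]
    | succ k ih =>
      intro x
      rw [Function.iterate_succ_apply', Function.iterate_succ_apply', Function.iterate_succ_apply']
      have h1 : (C.PD D)^[k] (D.indicator (fun y => f y - g y)) = fun x =>
        (C.PD D)^[k] (D.indicator f) x - (C.PD D)^[k] (D.indicator g) x := funext ih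
      rw [h1]
      unfold PD
      by_cases hx : x ∈ D
      · simp only [Set.indicator_of_mem hx]
        rw [C.P_sub]
      · simp only [Set.indicator_of_notMem hx, sub_zero]
  unfold res
  rw [← (C.summable_res hd D hl hf x).tsum_sub (C.summable_res hd D hl hg x)]
  congr 1
  ext k
  rw [hiter, smul_sub]

end Cond

end Pool.Agent.Lib.QIP
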