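import Pool.Agent.Lib.QIP.Var2

/-!
# The variance of the resolvent in a finite domain, averaged over the domain
-/

set_option autoImplicit false

open MeasureTheory ProbabilityTheory Filter
open scoped ENNReal NNReal Topology BigOperators

namespace Pool.Agent.Lib.QIP

variable {d : ℕ}

theorem incr_sum (u : V d → ℝ) (z : V d) : ∑' a, ‖u a - u (a + z)‖ₑ ^ 2 ≤
    ENNReal.ofReal (((n1 z : ℤ) : ℝ) ^ 2) * ∑' a, ∑ i, ‖u (a + ee i) - u a‖ₑ ^ 2 := by
  set S : V d → ℝ≥0∞ := fun z => eLpNorm (fun a => u (a + z) - u a) 2 Measure.count with hS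
  have hS2 : ∀ z, S z ^ 2 = ∑' a, ‖u (a + z) - u a‖ₑ ^ 2 := by
    intro z
    rw [hS, eLpNorm_two_sq, lintegral_count]
  have hm : ∀ g : V d → ℝ, AEStronglyMeasurable g (Measure.count : Measure (V d)) :=
    fun g => (measurable_of_countable g).aestronglyMeasurable
  have htr : ∀ x w, eLpNorm (fun a => u (a + w + x) - u (a + w)) 2 Measure.count = S x := by
    intro x w
    apply eq_of_sq_eq
    rw [hS2, eLpNorm_two_sq, lintegral_count]
    exact (Equiv.addRight w).tsum_eq (fun a => ‖u (a + x) - u a‖ₑ ^ 2)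
  have h0 : S 0 = 0 := by simp [hS]
  have hadd : ∀ x y, S (x + y) ≤ S x + S y := by
    intro x y
    rw [← htr x y]
    have : (fun a => u (a + (x + y)) - u a) = (fun a => u (a + y + x) - u (a + y)) +
        (fun a => u (a + y) - u a) := by
      ext a
      simp only [Pi.add_apply]
      rw [add_comm x y, ← add_assoc]
      ring
    show eLpNorm (fun a => u (a + (x + y)) - u a) 2 Measure.count ≤ _
    rw [this]
    exact eLpNorm_add_le (hm _) (hm _) (by norm_num)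
  have hneg : ∀ x, S (-x) ≤ S x := by
    intro x
    rw [← htr (-x) x]
    apply le_of_sq_le
    rw [eLpNorm_two_sq, hS2, lintegral_count]
    apply le_of_eq
    congr 1
    ext a
    rw [add_neg_cancel_right, ← enorm_neg, neg_sub]
  set A : ℝ≥0∞ := ∑' a, ∑ i, ‖u (a + ee i) - u a‖ₑ ^ 2 with hA
  have hAr : (A ^ ((1 / 2 : ℝ))) ^ 2 = A := by
    rw [← ENNReal.rpow_natCast, ← ENNReal.rpow_mul]
    norm_num
  have hee : ∀ i, S (ee i) ≤ A ^ ((1 / 2 : ℝ)) := by
    intro i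
    apply le_of_sq_le
    rw [hS2, hAr, hA]
    apply ENNReal.tsum_le_tsum
    intro a
    exact Finset.single_le_sum (f := fun i => ‖u (a + ee i) - u a‖ₑ ^ 2) (fun _ _ => zero_le)
      (Finset.mem_univ i)
  have hfin := subadd_bound S h0 hadd hneg _ hee z
  have hn : (0 : ℝ) ≤ ((n1 z : ℤ) : ℝ) := by exact_mod_cast n1_nonneg z
  calc ∑' a, ‖u a - u (a + z)‖ₑ ^ 2 = S z ^ 2 := by
        rw [hS2]
        congr 1
        ext a
        rw [← enorm_neg, neg_sub]
    _ ≤ (ENNReal.ofReal ((n1 z : ℤ) : ℝ) * A ^ ((1 / 2 : ℝ))) ^ 2 := by gcongr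
    _ = _ := by
        rw [mul_pow, hAr, ENNReal.ofReal_pow hn]

namespace Cond

variable (C : Cond d)

theorem P_ofReal (f : V d → ℝ) (x : V d) : C.P (fun y => ((f y : ℝ) : ℂ)) x = ((C.P f x : ℝ) : ℂ) := by
  unfold P
  rw [C.tsum_c_smul, C.tsum_c_smul]
  simp

theorem iter_ofReal (D : Set (V d)) (f : V d → ℝ) (k : ℕ) (x : V d) :
    (C.PD D)^[k] (fun y => ((f y : ℝ) : ℂ)) x = (((C.PD D)^[k] f x : ℝ) : ℂ) := by
  induction k generalizing x with
  | zero => rfl
  | succ k ih =>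
    rw [Function.iterate_succ_apply', Function.iterate_succ_apply']
    have h1 : (C.PD D)^[k] (fun y => ((f y : ℝ) : ℂ)) = fun y => (((C.PD D)^[k] f y : ℝ) : ℂ) :=
      funext ih
    rw [h1]
    unfold PD
    by_cases hx : x ∈ D
    · rw [Set.indicator_of_mem hx, Set.indicator_of_mem hx, C.P_ofReal]
    · rw [Set.indicator_of_notMem hx, Set.indicator_of_notMem hx, Complex.ofReal_zero]

theorem res_ofReal (D : Set (V d)) (lam : ℝ) (f : V d → ℝ) (x : V d) :
    C.res D lam (fun y => ((f y : ℝ) : ℂ)) x = ((C.res D lam f x : ℝ) : ℂ) := by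
  unfold res
  rw [Complex.ofReal_tsum]
  congr 1
  ext k
  have h1 : D.indicator (fun y => ((f y : ℝ) : ℂ)) = fun y => ((D.indicator f y : ℝ) : ℂ) := by
    ext y
    by_cases hy : y ∈ D
    · rw [Set.indicator_of_mem hy, Set.indicator_of_mem hy]
    · rw [Set.indicator_of_notMem hy, Set.indicator_of_notMem hy, Complex.ofReal_zero]
  rw [h1, C.iter_ofReal]
  simp

/-- Nearest neighbour energy of the survival probability in a finite domain. -/
theorem Enn_res_one (hd : 0 < d) (D : Finset (V d)) {lam : ℝ} (hl : 0 < lam) :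
    Summable (fun x => ∑ i, (C.res (D : Set (V d)) lam (fun _ => (1 : ℝ)) (x + ee i) -
      C.res (D : Set (V d)) lam (fun _ => (1 : ℝ)) x) ^ 2) ∧
    Enn (C.res (D : Set (V d)) lam (fun _ => (1 : ℝ))) ≤ 2 * lam * ∑ x ∈ D, C.deg x := by
  set u := C.res (D : Set (V d)) lam (fun _ => (1 : ℝ)) with hu
  have h1n : ∀ x : V d, ‖(fun _ => (1 : ℝ)) x‖ ≤ 1 := fun x => by simp
  have hu0 : ∀ x, 0 ≤ u x := C.res_nonneg hd _ hl (fun _ => zero_le_one)
  have hu1 : ∀ x, u x ≤ 1 := fun x => (le_abs_self _).trans (C.norm_res_le hd _ hl h1n x)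
  have hoff : ∀ x, x ∉ D → u x = 0 := fun x hx => C.res_off _ _ _ (by simpa using hx)
  have hs : Summable (fun x => C.deg x * |u x|) := by
    apply summable_of_hasFiniteSupport
    refine D.finite_toSet.subset ?_
    intro x hx
    simp only [Function.mem_support] at hx
    by_contra hcon
    exact hx (by rw [hoff x (by simpa using hcon)]; simp)
  obtain ⟨h1, h2, h3⟩ := C.energy_le u hs (M := 1) (fun x => by rw [abs_of_nonneg (hu0 x)]; exact hu1 x)
  refine ⟨h1, h3.trans ?_⟩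
  rw [tsum_eq_sum (s := D)]
  · rw [mul_assoc]
    apply mul_le_mul_of_nonneg_left _ (by norm_num)
    rw [Finset.mul_sum]
    apply Finset.sum_le_sum
    intro x hx
    have h4 := C.res_ell hd (D : Set (V d)) hl h1n (x := x) (by simpa using hx)
    simp only [smul_eq_mul] at h4
    have h5 : C.deg x * u x - ∑' y, C.c x y * u y = lam * C.deg x * (1 - u x) := by
      linarith
    rw [h5]
    have h6 := C.deg_nonneg x
    have h7 := hu0 x
    have h8 := hu1 x
    have h9 : u x * (1 - u x) ≤ 1 := by nlinarith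
    have h10 : 0 ≤ lam * C.deg x := mul_nonneg hl.le h6
    nlinarith
  · intro x hx
    rw [hoff x hx, zero_mul]

theorem G_zero_of_notMem (D : Set (V d)) (lam : ℝ) {v : V d} (hv : v ∉ D) (x : V d) :
    C.G D lam v x = 0 := by
  unfold G res
  have h1 : D.indicator (Pi.single v (1 : ℝ) : V d → ℝ) = fun _ => 0 := by
    ext y
    by_cases hy : y ∈ D
    · rw [Set.indicator_of_mem hy]
      have : y ≠ v := fun h => hv (h ▸ hy)
      simp [this]
    · rw [Set.indicator_of_notMem hy]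
  rw [h1]
  have h2 : ∀ k : ℕ, (C.PD D)^[k] (fun _ => (0 : ℝ)) = fun _ => 0 := by
    intro k
    induction k with
    | zero => rfl
    | succ k ih =>
      rw [Function.iterate_succ_apply', ih]
      ext x
      unfold PD P
      simp
  simp [h2]

end Cond

/-- Averaged variance bound in a finite domain. -/
theorem var_dom (hd : 3 ≤ d) (m : Model d) : ∃ K : ℝ, 0 < K ∧ ∀ lam : ℝ, 0 < lam → lam ≤ 1 →
    ∀ D : Finset (V d),
      ∑ x ∈ D, ∫⁻ ω, ‖(cond ω).res (D : Set (V d)) lam (fun _ => (1 : ℝ)) x -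
        ∫ ω', (cond ω').res (D : Set (V d)) lam (fun _ => (1 : ℝ)) x ∂m.μ‖ₑ ^ 2 ∂m.μ ≤
      ENNReal.ofReal (K * D.card * lam ^ ((1 / 5) : ℝ)) := by
  obtain ⟨K, hK, hes⟩ := es_sum_x hd
  have hd0 : 0 < d := by omega
  have hκ := m.κ_nonneg
  have hM2 := m.M2_nonneg
  refine ⟨K * (2 * m.κ * m.M2 + 4 * m.κ) + 1, by positivity, ?_⟩
  intro lam hl hl1 D
  set u : Env d → V d → ℝ := fun ω => (cond ω).res (D : Set (V d)) lam (fun _ => (1 : ℝ)) with hu
  set f : V d → ℂ := fun _ => ((1 : ℝ) : ℂ) with hf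
  have hf1 : ∀ x, ‖f x‖ ≤ 1 := fun x => by simp [hf]
  have h1n : ∀ x : V d, ‖(fun _ => (1 : ℝ)) x‖ ≤ 1 := fun x => by simp
  have hum : ∀ x, Measurable (fun ω => u ω x) := fun x => measurable_res hd0 _ hl h1n x
  have hcast : ∀ ω x, (cond ω).res (D : Set (V d)) lam f x = ((u ω x : ℝ) : ℂ) := by
    intro ω x
    exact (cond ω).res_ofReal (D : Set (V d)) lam (fun _ => (1 : ℝ)) x
  have hKl : 0 ≤ K * lam ^ (-(4 / 5) : ℝ) := by positivity
  have h1 : ∀ x, ∫⁻ ω, ‖u ω x - ∫ ω', u ω' x ∂m.μ‖ₑ ^ 2 ∂m.μ ≤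
      ∑' q : V d × V d, ENNReal.ofReal (m.p (q.2 - q.1) * (1 - m.p (q.2 - q.1))) *
        ∫⁻ ω, esT (D : Set (V d)) lam f x q ω ∂m.μ := by
    intro x
    refine le_trans (le_of_eq ?_) (es_pairs m hd0 (D : Set (V d)) hl f hf1 x)
    congr 1
    ext ω
    have h2 : ∫ ω', (cond ω').res (D : Set (V d)) lam f x ∂m.μ =
        ((∫ ω', u ω' x ∂m.μ : ℝ) : ℂ) := by
      simp_rw [hcast]
      exact integral_ofReal
    rw [h2, hcast, ← Complex.ofReal_sub, enorm_sq_eq, enorm_sq_eq, Complex.norm_real]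
  -- sum over x
  have h2 : ∑ x ∈ D, ∫⁻ ω, ‖u ω x - ∫ ω', u ω' x ∂m.μ‖ₑ ^ 2 ∂m.μ ≤
      ∑' q : V d × V d, ENNReal.ofReal (m.p (q.2 - q.1) * (1 - m.p (q.2 - q.1))) *
        ∑' x, ∫⁻ ω, esT (D : Set (V d)) lam f x q ω ∂m.μ := by
    refine (Finset.sum_le_sum fun x _ => h1 x).trans ?_
    refine (ENNReal.sum_le_tsum D).trans ?_
    rw [ENNReal.tsum_comm]
    simp_rw [ENNReal.tsum_mul_left]
    exact le_rfl
  refine h2.trans ?_
  -- bound for every ordered pair
  have h3 : ∀ q : V d × V d, ENNReal.ofReal (m.p (q.2 - q.1) * (1 - m.p (q.2 - q.1))) *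
        ∑' x, ∫⁻ ω, esT (D : Set (V d)) lam f x q ω ∂m.μ ≤
      ENNReal.ofReal (m.p (q.2 - q.1) * (K * lam ^ (-(4 / 5) : ℝ))) *
        (∫⁻ ω, ‖u ω q.1 - u ω q.2‖ₑ ^ 2 ∂m.μ +
          (if q.1 ∈ D then ENNReal.ofReal (4 * lam ^ 2) else 0)) := by
    intro q
    by_cases hq : q.1 ∈ D
    · rw [if_pos hq]
      refine (hes m (D : Set (V d)) lam hl hl1 f hf1 q).trans (le_of_eq ?_)
      congr 1
      have h6 : ∀ ω : Env d, ENNReal.ofReal (‖(cond ω).res (D : Set (V d)) lam f q.1 -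
          (cond ω).res (D : Set (V d)) lam f q.2‖ ^ 2 + 4 * lam ^ 2) =
          ‖u ω q.1 - u ω q.2‖ₑ ^ 2 + ENNReal.ofReal (4 * lam ^ 2) := by
        intro ω
        rw [hcast, hcast, ← Complex.ofReal_sub, Complex.norm_real, enorm_sq_eq,
          ENNReal.ofReal_add (by positivity) (by positivity)]
      simp_rw [h6]
      rw [lintegral_add_right _ measurable_const, lintegral_const, measure_univ, mul_one]
    · have h7 : ∀ x ω, esT (D : Set (V d)) lam f x q ω = 0 := by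
        intro x ω
        unfold esT
        rw [Cond.G_zero_of_notMem _ _ _ (by simpa using hq)]
        simp
      simp [h7]
  refine (ENNReal.tsum_le_tsum h3).trans ?_
  -- reorganize by the displacement
  have h4 : ∑' q : V d × V d, ENNReal.ofReal (m.p (q.2 - q.1) * (K * lam ^ (-(4 / 5) : ℝ))) *
        (∫⁻ ω, ‖u ω q.1 - u ω q.2‖ₑ ^ 2 ∂m.μ +
          (if q.1 ∈ D then ENNReal.ofReal (4 * lam ^ 2) else 0)) =
      ∑' z : V d, ENNReal.ofReal (m.p z * (K * lam ^ (-(4 / 5) : ℝ))) *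
        (∫⁻ ω, ∑' a, ‖u ω a - u ω (a + z)‖ₑ ^ 2 ∂m.μ + D.card * ENNReal.ofReal (4 * lam ^ 2)) := by
    rw [ENNReal.tsum_prod']
    have h5 : ∀ a : V d, ∑' b : V d, ENNReal.ofReal (m.p (b - a) * (K * lam ^ (-(4 / 5) : ℝ))) *
        (∫⁻ ω, ‖u ω a - u ω b‖ₑ ^ 2 ∂m.μ +
          (if a ∈ D then ENNReal.ofReal (4 * lam ^ 2) else 0)) =
        ∑' z : V d, ENNReal.ofReal (m.p z * (K * lam ^ (-(4 / 5) : ℝ))) *
        (∫⁻ ω, ‖u ω a - u ω (a + z)‖ₑ ^ 2 ∂m.μ +
          (if a ∈ D then ENNReal.ofReal (4 * lam ^ 2) else 0)) := by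
      intro a
      rw [← (Equiv.addLeft a).tsum_eq]
      congr 1
      ext z
      simp only [Equiv.coe_addLeft, add_sub_cancel_left]
    simp only
    simp_rw [h5]
    rw [ENNReal.tsum_comm]
    congr 1
    ext z
    have hmz : ∀ a, Measurable (fun ω => ‖u ω a - u ω (a + z)‖ₑ ^ 2) := fun a =>
      ((hum a).sub (hum (a + z))).enorm.pow_const 2
    rw [ENNReal.tsum_mul_left, ENNReal.tsum_add, lintegral_tsum (fun a => (hmz a).aemeasurable)]
    congr 2
    rw [tsum_eq_sum (s := D) (fun a ha => by simp [ha])]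
    rw [Finset.sum_congr rfl (g := fun _ => ENNReal.ofReal (4 * lam ^ 2)) (fun a ha => by simp [ha]),
      Finset.sum_const, nsmul_eq_mul]
  rw [h4]
  have hEnn : ∫⁻ ω, ∑' a, ∑ i, ‖u ω (a + ee i) - u ω a‖ₑ ^ 2 ∂m.μ ≤
      ENNReal.ofReal (2 * lam * (D.card * m.κ)) := by
    have h5 : ∀ ω, ∑' a, ∑ i, ‖u ω (a + ee i) - u ω a‖ₑ ^ 2 ≤
        ENNReal.ofReal (2 * lam) * ∑ x ∈ D, ENNReal.ofReal ((cond ω).deg x) := by
      intro ω
      obtain ⟨h6, h7⟩ := (cond ω).Enn_res_one hd0 D hl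
      have h8 : ∀ a, ∑ i, ‖u ω (a + ee i) - u ω a‖ₑ ^ 2 =
          ENNReal.ofReal (∑ i, (u ω (a + ee i) - u ω a) ^ 2) := by
        intro a
        rw [ENNReal.ofReal_sum_of_nonneg (fun i _ => sq_nonneg _)]
        apply Finset.sum_congr rfl
        intro i _
        rw [enorm_sq_eq, Real.norm_eq_abs, sq_abs]
      simp_rw [h8]
      rw [← ENNReal.ofReal_tsum_of_nonneg (fun a => Finset.sum_nonneg fun i _ => sq_nonneg _) h6,
        ← ENNReal.ofReal_sum_of_nonneg (fun i _ => (cond ω).deg_nonneg i),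
        ← ENNReal.ofReal_mul (by positivity)]
      exact ENNReal.ofReal_le_ofReal h7
    refine (lintegral_mono h5).trans (le_of_eq ?_)
    rw [lintegral_const_mul _ (Finset.measurable_fun_sum _ fun x _ => (measurable_deg x).ennreal_ofReal),
      lintegral_finsetSum _ (fun x _ => (measurable_deg x).ennreal_ofReal)]
    simp_rw [m.lint_deg]
    rw [Finset.sum_const, nsmul_eq_mul, ENNReal.ofReal_mul (p := 2 * lam) (by positivity),
      ENNReal.ofReal_mul (p := (D.card : ℝ)) (by positivity), ENNReal.ofReal_natCast]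
  have h5 : ∀ z : V d, ENNReal.ofReal (m.p z * (K * lam ^ (-(4 / 5) : ℝ))) *
        (∫⁻ ω, ∑' a, ‖u ω a - u ω (a + z)‖ₑ ^ 2 ∂m.μ + D.card * ENNReal.ofReal (4 * lam ^ 2)) ≤
      ENNReal.ofReal (K * lam ^ (-(4 / 5) : ℝ) * D.card *
        (2 * lam * m.κ * (((n1 z : ℤ) : ℝ) ^ 2 * m.p z) + 4 * lam ^ 2 * m.p z)) := by
    intro z
    have hp := m.nonneg z
    have h6 : ∫⁻ ω, ∑' a, ‖u ω a - u ω (a + z)‖ₑ ^ 2 ∂m.μ ≤
        ENNReal.ofReal (((n1 z : ℤ) : ℝ) ^ 2 * (2 * lam * (D.card * m.κ))) := by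
      refine (lintegral_mono (fun ω => incr_sum (u ω) z)).trans ?_
      rw [lintegral_const_mul, ENNReal.ofReal_mul (by positivity)]
      · exact mul_le_mul_right hEnn _
      · exact Measurable.tsum fun a => Finset.measurable_fun_sum _ fun i _ =>
          ((hum _).sub (hum _)).enorm.pow_const 2
    have h7 : (D.card : ℝ≥0∞) * ENNReal.ofReal (4 * lam ^ 2) = ENNReal.ofReal (D.card * (4 * lam ^ 2)) := by
      rw [ENNReal.ofReal_mul (p := (D.card : ℝ)) (by positivity), ENNReal.ofReal_natCast]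
    rw [h7]
    refine (mul_le_mul_right (add_le_add_left h6 _) _).trans (le_of_eq ?_)
    rw [← ENNReal.ofReal_add (by positivity) (by positivity), ← ENNReal.ofReal_mul (by positivity)]
    congr 1
    ring
  refine (ENNReal.tsum_le_tsum h5).trans ?_
  rw [← ENNReal.ofReal_tsum_of_nonneg]
  · apply ENNReal.ofReal_le_ofReal
    rw [tsum_mul_left, Summable.tsum_add (m.sum2.mul_left _) (m.summable_p.mul_left _),
      tsum_mul_left, tsum_mul_left]
    change K * lam ^ (-(4 / 5) : ℝ) * D.card * (2 * lam * m.κ * m.M2 + 4 * lam ^ 2 * m.κ) ≤ _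
    have h7 : lam ^ ((1 / 5) : ℝ) = lam ^ (-(4 / 5) : ℝ) * lam := by
      rw [← Real.rpow_add_one hl.ne']
      norm_num
    rw [h7]
    have h8 : 0 < lam ^ (-(4 / 5) : ℝ) := Real.rpow_pos_of_pos hl _
    have h9 : 2 * lam * m.κ * m.M2 + 4 * lam ^ 2 * m.κ ≤ lam * (2 * m.κ * m.M2 + 4 * m.κ) := by
      have : lam ^ 2 * m.κ ≤ lam * m.κ := by
        apply mul_le_mul_of_nonneg_right _ hκ
        nlinarith
      nlinarith
    calc K * lam ^ (-(4 / 5) : ℝ) * D.card * (2 * lam * m.κ * m.M2 + 4 * lam ^ 2 * m.κ) ≤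
        K * lam ^ (-(4 / 5) : ℝ) * D.card * (lam * (2 * m.κ * m.M2 + 4 * m.κ)) :=
          mul_le_mul_of_nonneg_left h9 (by positivity)
      _ = (K * (2 * m.κ * m.M2 + 4 * m.κ)) * (D.card * (lam ^ (-(4 / 5) : ℝ) * lam)) := by ring
      _ ≤ (K * (2 * m.κ * m.M2 + 4 * m.κ) + 1) * (D.card * (lam ^ (-(4 / 5) : ℝ) * lam)) := by
          apply mul_le_mul_of_nonneg_right _ (by positivity)
          linarith
      _ = _ := by ring
  · intro z
    have hp := m.nonneg z
    positivity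
  · exact ((m.sum2.mul_left _).add (m.summable_p.mul_left _)).mul_left _

end Pool.Agent.Lib.QIP
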