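import Pool.Agent.Lib.QIP.Vari
import Pool.Agent.Lib.QIP.Chr

/-!
# The variance of the stationary resolvent
-/

set_option autoImplicit false

open MeasureTheory ProbabilityTheory Filter
open scoped ENNReal NNReal Topology BigOperators

namespace Pool.Agent.Lib.QIP

variable {d : ℕ}

namespace Cond

variable (C : Cond d)

theorem tsum_c_smul {E : Type*} [NormedAddCommGroup E] [NormedSpace ℝ E] (f : V d → E) (x : V d) :
    (∑' y, C.c x y • f y) = ∑ y ∈ (C.hfs x).toFinset, C.c x y • f y := by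
  refine tsum_eq_sum ?_
  intro y hy
  have : C.c x y = 0 := by
    by_contra h
    exact hy ((C.hfs x).mem_toFinset.2 h)
  rw [this, zero_smul]

theorem tsum_c_mul (f : V d → ℝ) (x : V d) :
    (∑' y, C.c x y * f y) = ∑ y ∈ (C.hfs x).toFinset, C.c x y * f y := by
  simpa [smul_eq_mul] using C.tsum_c_smul f x

theorem deg_eq_sum (x : V d) : C.deg x = ∑ y ∈ (C.hfs x).toFinset, C.c x y := by
  have := C.tsum_c_mul (fun _ => 1) x
  simpa [deg] using this

/-- The carre du champ identity. -/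
theorem carre {E : Type*} [NormedAddCommGroup E] [InnerProductSpace ℝ E] (u : V d → E)
    (x : V d) :
    ∑' y, C.c x y * ‖u x - u y‖ ^ 2 =
      C.deg x * ‖u x‖ ^ 2 - 2 * inner ℝ (u x) (∑' y, C.c x y • u y) +
        ∑' y, C.c x y * ‖u y‖ ^ 2 := by
  rw [C.tsum_c_mul, C.tsum_c_mul, C.tsum_c_smul, C.deg_eq_sum, inner_sum, Finset.sum_mul,
    Finset.mul_sum, ← Finset.sum_sub_distrib, ← Finset.sum_add_distrib]
  apply Finset.sum_congr rfl
  intro y _
  rw [norm_sub_sq_real, inner_smul_right]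
  ring

theorem energy_pt {E : Type*} [NormedAddCommGroup E] [InnerProductSpace ℝ E] [CompleteSpace E]
    (hd : 0 < d) (D : Set (V d)) {lam : ℝ} (h : 0 < lam) {f : V d → E} (hf : ∀ x, ‖f x‖ ≤ 1)
    {x : V d} (hx : x ∈ D) :
    ∑' y, C.c x y * ‖C.res D lam f x - C.res D lam f y‖ ^ 2 + C.deg x * ‖C.res D lam f x‖ ^ 2 ≤
      ∑' y, C.c x y * ‖C.res D lam f y‖ ^ 2 + 2 * lam * C.deg x := by
  have h1 := C.res_ell hd D h hf hx
  have h2 : ∑' y, C.c x y • C.res D lam f y =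
      ((1 + lam) * C.deg x) • C.res D lam f x - (lam * C.deg x) • f x := by
    rw [← h1]
    abel
  rw [C.carre, h2, inner_sub_right, inner_smul_right, inner_smul_right,
    real_inner_self_eq_norm_sq]
  have h3 : inner ℝ (C.res D lam f x) (f x) ≤ 1 := by
    refine (real_inner_le_norm _ _).trans ?_
    have := C.norm_res_le hd D h hf x
    exact mul_le_one₀ this (norm_nonneg _) (hf x)
  have h4 := C.deg_nonneg x
  have h5 : lam * C.deg x * inner ℝ (C.res D lam f x) (f x) ≤ lam * C.deg x * 1 :=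
    mul_le_mul_of_nonneg_left h3 (mul_nonneg h.le h4)
  have h6 : 0 ≤ lam * C.deg x * ‖C.res D lam f x‖ ^ 2 := by positivity
  nlinarith

theorem P_mulc (c : ℂ) (f : V d → ℂ) (x : V d) : C.P (fun y => c * f y) x = c * C.P f x := by
  unfold P
  rw [mul_smul_comm]
  congr 1
  rw [← tsum_mul_left]
  congr 1
  ext y
  rw [mul_smul_comm]

theorem iter_mulc (D : Set (V d)) (c : ℂ) (f : V d → ℂ) (k : ℕ) (x : V d) :
    (C.PD D)^[k] (fun y => c * f y) x = c * (C.PD D)^[k] f x := by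
  induction k generalizing x with
  | zero => rfl
  | succ k ih =>
    rw [Function.iterate_succ_apply', Function.iterate_succ_apply']
    have h1 : (C.PD D)^[k] (fun y => c * f y) = fun y => c * (C.PD D)^[k] f y := funext ih
    rw [h1]
    unfold PD
    by_cases hx : x ∈ D
    · rw [Set.indicator_of_mem hx, Set.indicator_of_mem hx, C.P_mulc]
    · rw [Set.indicator_of_notMem hx, Set.indicator_of_notMem hx, mul_zero]

theorem res_mulc (D : Set (V d)) (lam : ℝ) (c : ℂ) (f : V d → ℂ) (x : V d) :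
    C.res D lam (fun y => c * f y) x = c * C.res D lam f x := by
  unfold res
  rw [← tsum_mul_left]
  congr 1
  ext k
  have h1 : D.indicator (fun y => c * f y) = fun y => c * D.indicator f y := by
    ext y
    by_cases hy : y ∈ D
    · rw [Set.indicator_of_mem hy, Set.indicator_of_mem hy]
    · rw [Set.indicator_of_notMem hy, Set.indicator_of_notMem hy, mul_zero]
  rw [h1, C.iter_mulc, mul_smul_comm]

end Cond

theorem res_cov_shift {E : Type*} [NormedAddCommGroup E] [NormedSpace ℝ E] (a : V d) (ω : Env d)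
    (lam : ℝ) (f : V d → E) (x : V d) :
    (cond (shift a ω)).res Set.univ lam (fun y => f (y + a)) x =
      (cond ω).res Set.univ lam f (x + a) :=
  res_cov (C' := cond (shift a ω)) (C := cond ω) (cond_shift a ω) Set.univ lam f x

theorem res_chr_shift (ξ : Fin d → ℝ) (a : V d) (ω : Env d) (lam : ℝ) (x : V d) :
    (cond ω).res Set.univ lam (chr ξ) (x + a) =
      chr ξ a * (cond (shift a ω)).res Set.univ lam (chr ξ) x := by
  rw [← res_cov_shift, ← Cond.res_mulc]
  congr 1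
  ext y
  rw [chr_add, mul_comm]

theorem G_cov_shift (a : V d) (ω : Env d) (lam : ℝ) (v x : V d) :
    (cond (shift a ω)).G Set.univ lam v x = (cond ω).G Set.univ lam (v + a) (x + a) :=
  G_cov (C' := cond (shift a ω)) (C := cond ω) (cond_shift a ω) Set.univ lam v x

theorem enorm_sq_eq {E : Type*} [NormedAddCommGroup E] (z : E) :
    ‖z‖ₑ ^ 2 = ENNReal.ofReal (‖z‖ ^ 2) := by
  rw [ENNReal.ofReal_pow (norm_nonneg _), ofReal_norm]

/-- The energy bound for the stationary resolvent. -/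
theorem energy_stat (m : Model d) (hd : 0 < d) {lam : ℝ} (hl : 0 < lam) (ξ : Fin d → ℝ) :
    ∑' y, ∫⁻ ω, ENNReal.ofReal ((cond ω).c 0 y) *
      ‖(cond ω).res Set.univ lam (chr ξ) 0 - (cond ω).res Set.univ lam (chr ξ) y‖ₑ ^ 2 ∂m.μ ≤
      ENNReal.ofReal (2 * lam * m.κ) := by
  set U : Env d → V d → ℂ := fun ω x => (cond ω).res Set.univ lam (chr ξ) x with hU
  have hUm : ∀ x, Measurable (fun ω => U ω x) :=
    fun x => measurable_res hd Set.univ hl (norm_chr_le ξ) x
  have hU1 : ∀ ω x, ‖U ω x‖ ≤ 1 := fun ω x => (cond ω).norm_res_le hd _ hl (norm_chr_le ξ) x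
  have hUe : ∀ ω x, ‖U ω x‖ₑ ≤ 1 := by
    intro ω x
    rw [← ofReal_norm]
    exact ENNReal.ofReal_le_one.2 (hU1 ω x)
  have hcm : ∀ x y, Measurable (fun ω : Env d => ENNReal.ofReal ((cond ω).c x y)) :=
    fun x y => (measurable_c x y).ennreal_ofReal
  have hmt := mtp m (fun ω x y => ENNReal.ofReal ((cond ω).c x y) * ‖U ω y‖ₑ ^ 2)
    (fun x y => (hcm x y).mul ((hUm y).enorm.pow_const 2)) (by
      intro a ω x y
      simp only [hU]
      rw [cond_shift, res_chr_shift ξ a ω lam y, enorm_mul]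
      have : ‖chr ξ a‖ₑ = 1 := by
        rw [← ofReal_norm, norm_chr, ENNReal.ofReal_one]
      rw [this, one_mul])
  -- pointwise inequality
  have hpt : ∀ ω, (∑' y, ENNReal.ofReal ((cond ω).c 0 y) * ‖U ω 0 - U ω y‖ₑ ^ 2) +
      ∑' y, ENNReal.ofReal ((cond ω).c y 0) * ‖U ω 0‖ₑ ^ 2 ≤
      (∑' y, ENNReal.ofReal ((cond ω).c 0 y) * ‖U ω y‖ₑ ^ 2) +
        ENNReal.ofReal (2 * lam) * ENNReal.ofReal ((cond ω).deg 0) := by
    intro ω
    have h1 := (cond ω).energy_pt hd Set.univ hl (norm_chr_le ξ) (x := 0) (Set.mem_univ _)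
    have e1 : (∑' y, ENNReal.ofReal ((cond ω).c 0 y) * ‖U ω 0 - U ω y‖ₑ ^ 2) =
        ENNReal.ofReal (∑' y, (cond ω).c 0 y * ‖U ω 0 - U ω y‖ ^ 2) := by
      rw [ENNReal.ofReal_tsum_of_nonneg]
      · congr 1
        ext y
        rw [enorm_sq_eq, ENNReal.ofReal_mul ((cond ω).nonneg _ _)]
      · intro y
        exact mul_nonneg ((cond ω).nonneg _ _) (sq_nonneg _)
      · exact (cond ω).summable_mul _ 0
    have e2 : (∑' y, ENNReal.ofReal ((cond ω).c 0 y) * ‖U ω y‖ₑ ^ 2) =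
        ENNReal.ofReal (∑' y, (cond ω).c 0 y * ‖U ω y‖ ^ 2) := by
      rw [ENNReal.ofReal_tsum_of_nonneg]
      · congr 1
        ext y
        rw [enorm_sq_eq, ENNReal.ofReal_mul ((cond ω).nonneg _ _)]
      · intro y
        exact mul_nonneg ((cond ω).nonneg _ _) (sq_nonneg _)
      · exact (cond ω).summable_mul _ 0
    have e3 : (∑' y, ENNReal.ofReal ((cond ω).c y 0) * ‖U ω 0‖ₑ ^ 2) =
        ENNReal.ofReal ((cond ω).deg 0 * ‖U ω 0‖ ^ 2) := by
      rw [ENNReal.tsum_mul_right, enorm_sq_eq, ENNReal.ofReal_mul ((cond ω).deg_nonneg _)]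
      congr 1
      rw [Model.ofReal_deg]
      simp_rw [(cond ω).symm 0]
    rw [e1, e2, e3, ← ENNReal.ofReal_mul (by positivity), ← ENNReal.ofReal_add, ← ENNReal.ofReal_add]
    · exact ENNReal.ofReal_le_ofReal h1
    · exact tsum_nonneg fun y => mul_nonneg ((cond ω).nonneg _ _) (sq_nonneg _)
    · have := (cond ω).deg_nonneg 0
      positivity
    · exact tsum_nonneg fun y => mul_nonneg ((cond ω).nonneg _ _) (sq_nonneg _)
    · have := (cond ω).deg_nonneg 0
      positivity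
  have hint := lintegral_mono (μ := m.μ) hpt
  have hm1 : ∀ y, Measurable (fun ω => ENNReal.ofReal ((cond ω).c 0 y) * ‖U ω 0 - U ω y‖ₑ ^ 2) :=
    fun y => (hcm 0 y).mul (((hUm 0).sub (hUm y)).enorm.pow_const 2)
  have hm2 : ∀ y, Measurable (fun ω => ENNReal.ofReal ((cond ω).c 0 y) * ‖U ω y‖ₑ ^ 2) :=
    fun y => (hcm 0 y).mul ((hUm y).enorm.pow_const 2)
  have hm3 : ∀ y, Measurable (fun ω => ENNReal.ofReal ((cond ω).c y 0) * ‖U ω 0‖ₑ ^ 2) :=
    fun y => (hcm y 0).mul ((hUm 0).enorm.pow_const 2)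
  rw [lintegral_add_left (Measurable.tsum hm1), lintegral_add_left (Measurable.tsum hm2),
    lintegral_tsum (fun y => (hm1 y).aemeasurable), lintegral_tsum (fun y => (hm2 y).aemeasurable),
    lintegral_tsum (fun y => (hm3 y).aemeasurable), hmt,
    lintegral_const_mul _ ((measurable_deg 0).ennreal_ofReal), m.lint_deg,
    ← ENNReal.ofReal_mul (by positivity), add_comm (∑' y, ∫⁻ ω, ENNReal.ofReal ((cond ω).c y 0) *
      ‖U ω 0‖ₑ ^ 2 ∂m.μ) (ENNReal.ofReal (2 * lam * m.κ))] at hint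
  refine ENNReal.le_of_add_le_add_right ?_ hint
  have hfin : (∑' y, ∫⁻ ω, ENNReal.ofReal ((cond ω).c y 0) * ‖U ω 0‖ₑ ^ 2 ∂m.μ) ≤
      ENNReal.ofReal m.κ := by
    rw [← m.lint_deg 0, ← lintegral_tsum (fun y => (hm3 y).aemeasurable)]
    apply lintegral_mono
    intro ω
    simp only
    rw [ENNReal.tsum_mul_right, Model.ofReal_deg]
    simp_rw [(cond ω).symm 0]
    refine mul_le_of_le_one_right (zero_le) ?_
    exact pow_le_one₀ (zero_le) (hUe ω 0)
  exact (lt_of_le_of_lt hfin ENNReal.ofReal_lt_top).ne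

theorem eLpNorm_two_sq {α E : Type*} [MeasurableSpace α] [NormedAddCommGroup E] (f : α → E)
    (μ : Measure α) : eLpNorm f 2 μ ^ 2 = ∫⁻ x, ‖f x‖ₑ ^ 2 ∂μ := by
  have h := eLpNorm_nnreal_pow_eq_lintegral (f := f) (μ := μ) (p := 2) two_ne_zero
  have h1 : ((2 : ℝ≥0) : ℝ) = ((2 : ℕ) : ℝ) := by norm_num
  rw [h1] at h
  simp_rw [ENNReal.rpow_natCast] at h
  exact h

theorem le_of_sq_le {a b : ℝ≥0∞} (h : a ^ 2 ≤ b ^ 2) : a ≤ b := by
  have h1 : a ^ ((2 : ℕ) : ℝ) ≤ b ^ ((2 : ℕ) : ℝ) := by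
    rw [ENNReal.rpow_natCast, ENNReal.rpow_natCast]
    exact h
  exact (ENNReal.rpow_le_rpow_iff (by norm_num)).1 h1

theorem eq_of_sq_eq {a b : ℝ≥0∞} (h : a ^ 2 = b ^ 2) : a = b :=
  le_antisymm (le_of_sq_le h.le) (le_of_sq_le h.ge)

theorem meas_U (hd : 0 < d) {lam : ℝ} (hl : 0 < lam) (ξ : Fin d → ℝ) (x : V d) :
    Measurable (fun ω : Env d => (cond ω).res Set.univ lam (chr ξ) x) :=
  measurable_res hd Set.univ hl (norm_chr_le ξ) x

/-- Increment bound for the stationary resolvent. -/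
theorem incr_stat (m : Model d) (hd : 0 < d) {lam : ℝ} (hl : 0 < lam) (ξ : Fin d → ℝ) (z : V d) :
    ∫⁻ ω, ‖(cond ω).res Set.univ lam (chr ξ) 0 - (cond ω).res Set.univ lam (chr ξ) z‖ₑ ^ 2 ∂m.μ ≤
      ENNReal.ofReal (((n1 z : ℤ) : ℝ) ^ 2 * (2 * lam * m.κ)) := by
  set U : Env d → V d → ℂ := fun ω x => (cond ω).res Set.univ lam (chr ξ) x with hU
  have hUm : ∀ x, Measurable (fun ω => U ω x) := fun x => meas_U hd hl ξ x
  set S : V d → ℝ≥0∞ := fun z => eLpNorm (fun ω => U ω z - U ω 0) 2 m.μ with hS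
  have hSz : ∀ z, S z ^ 2 = ∫⁻ ω, ‖U ω 0 - U ω z‖ₑ ^ 2 ∂m.μ := by
    intro z
    rw [hS, eLpNorm_two_sq]
    congr 1
    ext ω
    rw [← enorm_neg, neg_sub]
  have hm : ∀ x y, AEStronglyMeasurable (fun ω => U ω x - U ω y) m.μ :=
    fun x y => ((hUm x).sub (hUm y)).aestronglyMeasurable
  -- translation
  have htr : ∀ x w, eLpNorm (fun ω => U ω (x + w) - U ω w) 2 m.μ = S x := by
    intro x w
    have h1 : eLpNorm (fun ω => U ω (x + w) - U ω w) 2 m.μ ^ 2 = S x ^ 2 := by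
      have hmm : Measurable (fun ω => ‖U ω x - U ω 0‖ₑ ^ 2) :=
        ((hUm x).sub (hUm 0)).enorm.pow_const 2
      rw [eLpNorm_two_sq, hS, eLpNorm_two_sq, ← m.lint_shift w hmm]
      congr 1
      ext ω
      simp only [hU]
      rw [res_chr_shift ξ w ω lam x]
      have h2 := res_chr_shift ξ w ω lam 0
      rw [zero_add] at h2
      rw [h2, ← mul_sub, enorm_mul]
      have : ‖chr ξ w‖ₑ = 1 := by
        rw [← ofReal_norm, norm_chr, ENNReal.ofReal_one]
      rw [this, one_mul]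
    exact eq_of_sq_eq h1
  have h0 : S 0 = 0 := by
    simp [hS]
  have hadd : ∀ x y, S (x + y) ≤ S x + S y := by
    intro x y
    rw [← htr x y]
    have : (fun ω => U ω (x + y) - U ω 0) = (fun ω => U ω (x + y) - U ω y) +
        (fun ω => U ω y - U ω 0) := by
      ext ω
      simp
    show eLpNorm (fun ω => U ω (x + y) - U ω 0) 2 m.μ ≤ _
    rw [this]
    exact eLpNorm_add_le (hm _ _) (hm _ _) (by norm_num)
  have hneg : ∀ x, S (-x) ≤ S x := by
    intro x
    rw [← htr (-x) x, neg_add_cancel]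
    apply le_of_sq_le
    rw [eLpNorm_two_sq, hSz]
  have hee : ∀ i, S (ee i) ≤ ENNReal.ofReal (Real.sqrt (2 * lam * m.κ)) := by
    intro i
    apply le_of_sq_le
    rw [hSz, ← ENNReal.ofReal_pow (Real.sqrt_nonneg _), Real.sq_sqrt (by
      have := m.κ_nonneg
      positivity)]
    refine le_trans ?_ (energy_stat m hd hl ξ)
    refine le_trans (le_of_eq ?_) (ENNReal.le_tsum (ee i))
    congr 1
    ext ω
    have : (cond ω).c 0 (ee i) = 1 := by
      have := (cond ω).c_ee 0 i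
      rwa [zero_add] at this
    rw [this, ENNReal.ofReal_one, one_mul]
  have hfin := subadd_bound S h0 hadd hneg _ hee z
  rw [← hSz]
  have hn : (0 : ℝ) ≤ ((n1 z : ℤ) : ℝ) := by exact_mod_cast n1_nonneg z
  have hk := m.κ_nonneg
  calc S z ^ 2 ≤ (ENNReal.ofReal ((n1 z : ℤ) : ℝ) * ENNReal.ofReal (Real.sqrt (2 * lam * m.κ))) ^ 2 := by
        gcongr
    _ = ENNReal.ofReal (((n1 z : ℤ) : ℝ) ^ 2 * (2 * lam * m.κ)) := by
        rw [← ENNReal.ofReal_mul hn, ← ENNReal.ofReal_pow (by positivity), mul_pow,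
          Real.sq_sqrt (by positivity)]

theorem esT_shift (a z x : V d) {lam : ℝ} (ξ : Fin d → ℝ) (ω : Env d) :
    esT Set.univ lam (chr ξ) (x + a) (a, a + z) ω =
      esT Set.univ lam (chr ξ) x (0, z) (shift a ω) := by
  have hup : ∀ b : Bool, Function.update (shift a ω) s(0, z) b =
      shift a (Function.update ω s(a, a + z) b) := by
    intro b
    ext e
    by_cases he : e = s(0, z)
    · subst he
      rw [Function.update_self, shift_apply, zero_add, add_comm z a, Function.update_self]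
    · rw [Function.update_of_ne he]
      unfold shift
      rw [Function.update_of_ne]
      intro hcon
      apply he
      have h1 : Sym2.map (fun x => x + a) e = Sym2.map (fun x => x + a) s(0, z) := by
        rw [hcon, Sym2.map_mk, zero_add, add_comm z a]
      exact Sym2.map.injective (fun x y h => add_right_cancel h) h1
  unfold esT
  simp only [hup]
  rw [G_cov_shift, zero_add]
  congr 2
  congr 1
  have h1 := res_chr_shift ξ a (Function.update ω s(a, a + z) false) lam 0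
  have h2 := res_chr_shift ξ a (Function.update ω s(a, a + z) false) lam z
  rw [zero_add] at h1
  rw [add_comm z a] at h2
  rw [h1, h2, ← mul_sub, norm_mul, norm_chr, one_mul]

/-- The variance of the stationary resolvent is at most `K lam^{1/5}`. -/
theorem var_stat (hd : 3 ≤ d) (m : Model d) : ∃ K : ℝ, 0 < K ∧ ∀ lam : ℝ, 0 < lam → lam ≤ 1 →
    ∀ ξ : Fin d → ℝ,
      ∫⁻ ω, ‖(cond ω).res Set.univ lam (chr ξ) 0 -
        ∫ ω', (cond ω').res Set.univ lam (chr ξ) 0 ∂m.μ‖ₑ ^ 2 ∂m.μ ≤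
      ENNReal.ofReal (K * lam ^ ((1 / 5) : ℝ)) := by
  obtain ⟨K, hK, hes⟩ := es_sum_x hd
  have hd0 : 0 < d := by omega
  have hκ := m.κ_nonneg
  have hM2 := m.M2_nonneg
  refine ⟨K * (2 * m.κ * m.M2 + 4 * m.κ) + 1, by positivity, ?_⟩
  intro lam hl hl1 ξ
  refine (es_pairs m hd0 Set.univ hl (chr ξ) (norm_chr_le ξ) 0).trans ?_
  have hKl : 0 ≤ K * lam ^ (-(4 / 5) : ℝ) := by positivity
  -- reorganize the sum
  have h1 : ∑' q : V d × V d, ENNReal.ofReal (m.p (q.2 - q.1) * (1 - m.p (q.2 - q.1))) *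
        ∫⁻ ω, esT Set.univ lam (chr ξ) 0 q ω ∂m.μ =
      ∑' z : V d, ENNReal.ofReal (m.p z * (1 - m.p z)) *
        ∑' x, ∫⁻ ω, esT Set.univ lam (chr ξ) x (0, z) ω ∂m.μ := by
    rw [ENNReal.tsum_prod']
    have h2 : ∀ a : V d, ∑' b : V d, ENNReal.ofReal (m.p (b - a) * (1 - m.p (b - a))) *
        ∫⁻ ω, esT Set.univ lam (chr ξ) 0 (a, b) ω ∂m.μ =
        ∑' z : V d, ENNReal.ofReal (m.p z * (1 - m.p z)) *
          ∫⁻ ω, esT Set.univ lam (chr ξ) (-a) (0, z) ω ∂m.μ := by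
      intro a
      rw [← (Equiv.addLeft a).tsum_eq]
      congr 1
      ext z
      simp only [Equiv.coe_addLeft, add_sub_cancel_left]
      congr 1
      rw [← m.lint_shift a (measurable_esT hd0 Set.univ hl (norm_chr_le ξ) (-a) (0, z))]
      congr 1
      ext ω
      rw [← esT_shift, neg_add_cancel]
    simp only
    simp_rw [h2]
    rw [ENNReal.tsum_comm]
    congr 1
    ext z
    rw [ENNReal.tsum_mul_left]
    congr 1
    exact (Equiv.neg (V d)).tsum_eq
      (fun x => ∫⁻ ω, esT Set.univ lam (chr ξ) x (0, z) ω ∂m.μ)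
  rw [h1]
  have h3 : ∀ z : V d, ENNReal.ofReal (m.p z * (1 - m.p z)) *
        ∑' x, ∫⁻ ω, esT Set.univ lam (chr ξ) x (0, z) ω ∂m.μ ≤
      ENNReal.ofReal (K * lam ^ (-(4 / 5) : ℝ) *
        (2 * lam * m.κ * (((n1 z : ℤ) : ℝ) ^ 2 * m.p z) + 4 * lam ^ 2 * m.p z)) := by
    intro z
    have h4 := hes m Set.univ lam hl hl1 (chr ξ) (norm_chr_le ξ) (0, z)
    simp only [sub_zero] at h4
    refine h4.trans ?_
    have hp := m.nonneg z
    have h5 : ∫⁻ ω, ENNReal.ofReal (‖(cond ω).res Set.univ lam (chr ξ) 0 -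
        (cond ω).res Set.univ lam (chr ξ) z‖ ^ 2 + 4 * lam ^ 2) ∂m.μ ≤
        ENNReal.ofReal (((n1 z : ℤ) : ℝ) ^ 2 * (2 * lam * m.κ) + 4 * lam ^ 2) := by
      have h6 : ∀ ω : Env d, ENNReal.ofReal (‖(cond ω).res Set.univ lam (chr ξ) 0 -
          (cond ω).res Set.univ lam (chr ξ) z‖ ^ 2 + 4 * lam ^ 2) =
          ‖(cond ω).res Set.univ lam (chr ξ) 0 - (cond ω).res Set.univ lam (chr ξ) z‖ₑ ^ 2 +
            ENNReal.ofReal (4 * lam ^ 2) := by
        intro ω
        rw [enorm_sq_eq, ENNReal.ofReal_add (by positivity) (by positivity)]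
      simp_rw [h6]
      rw [lintegral_add_right _ measurable_const, lintegral_const, measure_univ, mul_one,
        ENNReal.ofReal_add (by positivity) (by positivity)]
      exact add_le_add (incr_stat m hd0 hl ξ z) le_rfl
    refine (mul_le_mul_right h5 _).trans (le_of_eq ?_)
    rw [← ENNReal.ofReal_mul (mul_nonneg hp hKl)]
    congr 1
    ring
  refine (ENNReal.tsum_le_tsum h3).trans ?_
  rw [← ENNReal.ofReal_tsum_of_nonneg]
  · apply ENNReal.ofReal_le_ofReal
    rw [tsum_mul_left, Summable.tsum_add (m.sum2.mul_left _) (m.summable_p.mul_left _),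
      tsum_mul_left, tsum_mul_left]
    change K * lam ^ (-(4 / 5) : ℝ) * (2 * lam * m.κ * m.M2 + 4 * lam ^ 2 * m.κ) ≤ _
    have h7 : lam ^ ((1 / 5) : ℝ) = lam ^ (-(4 / 5) : ℝ) * lam := by
      rw [← Real.rpow_add_one hl.ne']
      norm_num
    rw [h7]
    have h8 : 0 < lam ^ (-(4 / 5) : ℝ) := Real.rpow_pos_of_pos hl _
    have h9 : 2 * lam * m.κ * m.M2 + 4 * lam ^ 2 * m.κ ≤ lam * (2 * m.κ * m.M2 + 4 * m.κ) := by
      have : lam ^ 2 * m.κ ≤ lam * m.κ := by
        apply mul_le_mul_of_nonneg_right _ hκ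
        nlinarith
      nlinarith
    calc K * lam ^ (-(4 / 5) : ℝ) * (2 * lam * m.κ * m.M2 + 4 * lam ^ 2 * m.κ) ≤
        K * lam ^ (-(4 / 5) : ℝ) * (lam * (2 * m.κ * m.M2 + 4 * m.κ)) :=
          mul_le_mul_of_nonneg_left h9 hKl
      _ = (K * (2 * m.κ * m.M2 + 4 * m.κ)) * (lam ^ (-(4 / 5) : ℝ) * lam) := by ring
      _ ≤ _ := by
          apply mul_le_mul_of_nonneg_right _ (by positivity)
          linarith
  · intro z
    have hp := m.nonneg z
    positivity
  · exact ((m.sum2.mul_left _).add (m.summable_p.mul_left _)).mul_left _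

end Pool.Agent.Lib.QIP
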