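import Pool.Agent.Lib.QIP.Moments
import Pool.Agent.Lib.QIP.EfronStein

/-!
# Variance bounds: tools and the Efron-Stein sum over pairs
-/

set_option autoImplicit false

open MeasureTheory ProbabilityTheory Filter
open scoped ENNReal NNReal Topology BigOperators

namespace Pool.Agent.Lib.QIP

variable {d : ℕ}

theorem n1_cast (z : V d) : ((n1 z : ℤ) : ℝ) = ∑ i, |(z i : ℝ)| := by
  unfold n1
  push_cast
  rfl

theorem sum_ee (z : V d) : ∑ i, z i • ee i = z := by
  ext j
  rw [Finset.sum_apply, Finset.sum_eq_single j]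
  · simp [ee]
  · intro i _ hi
    simp [ee, hi.symm]
  · simp

/-- A subadditive even function on the lattice grows at most linearly. -/
theorem subadd_bound (S : V d → ℝ≥0∞) (h0 : S 0 = 0) (hadd : ∀ x y, S (x + y) ≤ S x + S y)
    (hneg : ∀ x, S (-x) ≤ S x) (A : ℝ≥0∞) (hA : ∀ i, S (ee i) ≤ A) (z : V d) :
    S z ≤ ENNReal.ofReal ((n1 z : ℤ) : ℝ) * A := by
  have h1 : ∀ (i : Fin d) (k : ℕ), S (k • ee i) ≤ (k : ℝ≥0∞) * A := by
    intro i k
    induction k with
    | zero => simp [h0]
    | succ k ih =>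
      rw [succ_nsmul]
      refine (hadd _ _).trans ?_
      push_cast
      rw [add_mul, one_mul]
      exact add_le_add ih (hA i)
  have h2 : ∀ (i : Fin d) (k : ℤ), S (k • ee i) ≤ ENNReal.ofReal |(k : ℝ)| * A := by
    intro i k
    obtain ⟨n, rfl | rfl⟩ := k.eq_nat_or_neg
    · rw [natCast_zsmul]
      refine (h1 i n).trans (le_of_eq ?_)
      simp
    · rw [neg_smul, natCast_zsmul]
      refine (hneg _).trans ((h1 i n).trans (le_of_eq ?_))
      simp
  have h3 : ∀ F : Finset (Fin d), S (∑ i ∈ F, z i • ee i) ≤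
      ∑ i ∈ F, ENNReal.ofReal |(z i : ℝ)| * A := by
    intro F
    induction F using Finset.induction_on with
    | empty => simp [h0]
    | insert i F hi ih =>
      rw [Finset.sum_insert hi, Finset.sum_insert hi]
      exact (hadd _ _).trans (add_le_add (h2 i (z i)) ih)
  have h4 := h3 Finset.univ
  rw [sum_ee] at h4
  refine h4.trans (le_of_eq ?_)
  rw [← Finset.sum_mul, n1_cast, ENNReal.ofReal_sum_of_nonneg (fun i _ => abs_nonneg _)]

/-- Mass transport principle. -/
theorem mtp (m : Model d) (F : Env d → V d → V d → ℝ≥0∞)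
    (hm : ∀ x y, Measurable (fun ω => F ω x y))
    (hF : ∀ a ω x y, F (shift a ω) x y = F ω (x + a) (y + a)) :
    ∑' y, ∫⁻ ω, F ω 0 y ∂m.μ = ∑' y, ∫⁻ ω, F ω y 0 ∂m.μ := by
  have h1 : ∀ y, ∫⁻ ω, F ω 0 y ∂m.μ = ∫⁻ ω, F ω (-y) 0 ∂m.μ := by
    intro y
    rw [← m.lint_shift (-y) (hm 0 y)]
    congr 1
    ext ω
    rw [hF]
    simp
  simp_rw [h1]
  exact (Equiv.neg (V d)).tsum_eq (fun y => ∫⁻ ω, F ω y 0 ∂m.μ)

/-- The Efron-Stein integrand for an ordered pair. -/
noncomputable def esT (D : Set (V d)) (lam : ℝ) (f : V d → ℂ) (x : V d) (q : V d × V d)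
    (ω : Env d) : ℝ≥0∞ :=
  ENNReal.ofReal (4 * ((cond (Function.update ω s(q.1, q.2) true)).G D lam q.1 x) ^ 2 *
    (‖(cond (Function.update ω s(q.1, q.2) false)).res D lam f q.1 -
      (cond (Function.update ω s(q.1, q.2) false)).res D lam f q.2‖ ^ 2 + 4 * lam ^ 2))

theorem measurable_update (e : Sym2 (V d)) (b : Bool) :
    Measurable (fun ω : Env d => Function.update ω e b) := by
  rw [measurable_pi_iff]
  intro j
  by_cases hj : j = e
  · subst hj
    simp only [Function.update_self]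
    exact measurable_const
  · simp only [Function.update_of_ne hj]
    exact measurable_pi_apply j

theorem measurable_esT (hd : 0 < d) (D : Set (V d)) {lam : ℝ} (hl : 0 < lam) {f : V d → ℂ}
    (hf : ∀ x, ‖f x‖ ≤ 1) (x : V d) (q : V d × V d) : Measurable (esT D lam f x q) := by
  unfold esT
  have h1 : Measurable (fun ω : Env d =>
      (cond (Function.update ω s(q.1, q.2) true)).G D lam q.1 x) :=
    (measurable_G hd D hl q.1 x).comp (measurable_update _ _)
  have h2 : ∀ y, Measurable (fun ω : Env d =>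
      (cond (Function.update ω s(q.1, q.2) false)).res D lam f y) := fun y =>
    (measurable_res hd D hl hf y).comp (measurable_update _ _)
  refine Measurable.ennreal_ofReal ?_
  exact ((h1.pow_const 2).const_mul 4).mul ((((h2 q.1).sub (h2 q.2)).norm.pow_const 2).add_const _)

/-- Efron-Stein for the resolvent, as a sum over ordered pairs. -/
theorem es_pairs (m : Model d) (hd : 0 < d) (D : Set (V d)) {lam : ℝ} (hl : 0 < lam)
    (f : V d → ℂ) (hf : ∀ x, ‖f x‖ ≤ 1) (x : V d) :
    ∫⁻ ω, ‖(cond ω).res D lam f x - ∫ ω', (cond ω').res D lam f x ∂m.μ‖ₑ ^ 2 ∂m.μ ≤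
      ∑' q : V d × V d, ENNReal.ofReal (m.p (q.2 - q.1) * (1 - m.p (q.2 - q.1))) *
        ∫⁻ ω, esT D lam f x q ω ∂m.μ := by
  have h := efronStein (fun e => m.pe e) m.pe_bounds (fun ω => (cond ω).res D lam f x)
    (measurable_res hd D hl hf x) 1 (fun ω => (cond ω).norm_res_le hd D hl hf x)
  refine h.trans ?_
  refine tsum_sym2_le _ _ ?_ ?_
  · intro a
    rw [m.pe_mk, sub_self, m.zero]
    simp
  · intro a b hab
    by_cases hn : n1 (b - a) = 1
    · rw [m.pe_mk, m.nn _ hn]
      simp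
    · have hpt : ∀ ω : Env d, ‖(cond (Function.update ω s(a, b) true)).res D lam f x -
          (cond (Function.update ω s(a, b) false)).res D lam f x‖ₑ ^ 2 ≤
          esT D lam f x (a, b) ω + esT D lam f x (b, a) ω := by
        intro ω
        have hn' : ‖(cond (Function.update ω s(a, b) true)).res D lam f x -
          (cond (Function.update ω s(a, b) false)).res D lam f x‖ₑ ^ 2 =
          ENNReal.ofReal (‖(cond (Function.update ω s(a, b) true)).res D lam f x -
          (cond (Function.update ω s(a, b) false)).res D lam f x‖ ^ 2) := by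
          rw [ENNReal.ofReal_pow (norm_nonneg _), ofReal_norm]
        rw [hn']
        unfold esT
        have hswap : s(b, a) = s(a, b) := Sym2.eq_swap
        simp only [hswap]
        rw [← ENNReal.ofReal_add (by positivity) (by positivity)]
        apply ENNReal.ofReal_le_ofReal
        rcases flip_cases hab hn ω with hadd | heq
        · refine (hadd.diff_sq hd D hl hf x).trans (le_of_eq ?_)
          rw [norm_sub_rev ((cond (Function.update ω s(a, b) false)).res D lam f b)]
          ring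
        · rw [heq, sub_self, norm_zero, zero_pow two_ne_zero]
          positivity
      rw [m.pe_mk]
      have hq : m.p (a - b) = m.p (b - a) := by rw [← m.symm, neg_sub]
      simp only [hq]
      rw [← mul_add]
      refine mul_le_mul_right ?_ _
      rw [← lintegral_add_left (measurable_esT hd D hl hf x (a, b))]
      exact lintegral_mono hpt

/-- The common part of both variance bounds. -/
theorem es_sum_x (hd : 3 ≤ d) : ∃ K : ℝ, 0 < K ∧ ∀ (m : Model d) (D : Set (V d)) (lam : ℝ),
    0 < lam → lam ≤ 1 → ∀ (f : V d → ℂ), (∀ x, ‖f x‖ ≤ 1) → ∀ q : V d × V d,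
      ENNReal.ofReal (m.p (q.2 - q.1) * (1 - m.p (q.2 - q.1))) *
        ∑' x, ∫⁻ ω, esT D lam f x q ω ∂m.μ ≤
      ENNReal.ofReal (m.p (q.2 - q.1) * (K * lam ^ (-(4 / 5) : ℝ))) *
        ∫⁻ ω, ENNReal.ofReal (‖(cond ω).res D lam f q.1 - (cond ω).res D lam f q.2‖ ^ 2 +
          4 * lam ^ 2) ∂m.μ := by
  obtain ⟨K, hK, hG⟩ := Cond.green_sq hd
  have hd0 : 0 < d := by omega
  refine ⟨4 * K, by positivity, ?_⟩
  intro m D lam hl hl1 f hf q
  set Φ : Env d → ℝ≥0∞ := fun ω => ENNReal.ofReal (‖(cond ω).res D lam f q.1 -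
    (cond ω).res D lam f q.2‖ ^ 2 + 4 * lam ^ 2) with hΦ
  have hΦm : Measurable Φ := by
    refine Measurable.ennreal_ofReal ?_
    exact ((((measurable_res hd0 D hl hf q.1).sub (measurable_res hd0 D hl hf q.2)).norm.pow_const
      2).add_const _)
  have hKl : 0 ≤ 4 * K * lam ^ (-(4 / 5) : ℝ) := by positivity
  have h1 : ∑' x, ∫⁻ ω, esT D lam f x q ω ∂m.μ ≤
      ENNReal.ofReal (4 * K * lam ^ (-(4 / 5) : ℝ)) *
        ∫⁻ ω, Φ (Function.update ω s(q.1, q.2) false) ∂m.μ := by
    have hΦm' : Measurable (fun ω => Φ (Function.update ω s(q.1, q.2) false)) :=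
      hΦm.comp (measurable_update _ _)
    rw [← lintegral_tsum (fun x => (measurable_esT hd0 D hl hf x q).aemeasurable),
      ← lintegral_const_mul _ hΦm']
    apply lintegral_mono
    intro ω
    obtain ⟨h2, h3⟩ := hG (cond (Function.update ω s(q.1, q.2) true)) D lam hl hl1 q.1
    show ∑' x, esT D lam f x q ω ≤ _
    unfold esT
    rw [hΦ]
    simp only
    rw [← ENNReal.ofReal_mul hKl, ← ENNReal.ofReal_tsum_of_nonneg]
    · apply ENNReal.ofReal_le_ofReal
      rw [tsum_mul_right, tsum_mul_left]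
      apply mul_le_mul_of_nonneg_right _ (by positivity)
      nlinarith
    · intro x
      positivity
    · exact (h2.mul_left 4).mul_right _
  have hp0 := m.nonneg (q.2 - q.1)
  have hp1 := m.le_one (q.2 - q.1)
  have h2 := m.lint_false_le s(q.1, q.2) hΦm
  rw [m.pe_mk] at h2
  calc ENNReal.ofReal (m.p (q.2 - q.1) * (1 - m.p (q.2 - q.1))) *
        ∑' x, ∫⁻ ω, esT D lam f x q ω ∂m.μ
      ≤ ENNReal.ofReal (m.p (q.2 - q.1) * (1 - m.p (q.2 - q.1))) *
        (ENNReal.ofReal (4 * K * lam ^ (-(4 / 5) : ℝ)) *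
        ∫⁻ ω, Φ (Function.update ω s(q.1, q.2) false) ∂m.μ) := mul_le_mul_right h1 _
    _ = ENNReal.ofReal (m.p (q.2 - q.1) * (4 * K * lam ^ (-(4 / 5) : ℝ))) *
        (ENNReal.ofReal (1 - m.p (q.2 - q.1)) *
        ∫⁻ ω, Φ (Function.update ω s(q.1, q.2) false) ∂m.μ) := by
        rw [ENNReal.ofReal_mul hp0, ENNReal.ofReal_mul hp0]
        ring
    _ ≤ _ := mul_le_mul_right h2 _

end Pool.Agent.Lib.QIP
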