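import Pool.Agent.Lib.QIP.WeakInterp

/-!
# Deterministic comparison of the rescaled path with its interpolation on a rational grid
-/

set_option autoImplicit false

open MeasureTheory ProbabilityTheory Filter
open scoped ENNReal NNReal Topology BigOperators

namespace Pool.Agent.Lib.QIP

/-- the lattice embedded in the Euclidean space -/
def cz {d : ℕ} (x : V d) : Fin d → ℝ := fun a => ((x a : ℤ) : ℝ)

lemma cz_sub_norm {d : ℕ} (x y : V d) : ‖cz x - cz y‖ ≤ ‖x - y‖ := by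
  rw [pi_norm_le_iff_of_nonneg (norm_nonneg _)]
  intro a
  have := norm_le_pi_norm (x - y) a
  refine le_trans (le_of_eq ?_) this
  simp only [cz, Pi.sub_apply]
  rw [← Int.cast_sub, Int.norm_eq_abs]
  simp

lemma cz_zero {d : ℕ} : cz (0 : V d) = 0 := by
  funext a
  simp [cz]

lemma cz_norm {d : ℕ} (x : V d) : ‖cz x‖ ≤ ‖x‖ := by
  have := cz_sub_norm x 0
  rw [cz_zero, sub_zero, sub_zero] at this
  exact this

/-- the good event -/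
def WGood {d : ℕ} (z : ℕ → V d) (k T' : ℕ) (δ ε : ℝ) : Prop :=
  ∀ i j : ℕ, (i : ℝ) ≤ T' * (k : ℝ) ^ 20 → i ≤ j → (j : ℝ) ≤ i + δ * (k : ℝ) ^ 20 →
    ‖z j - z i‖ ≤ ε * (k : ℝ) ^ 10

lemma good_chain {d : ℕ} {z : ℕ → V d} {k T' : ℕ} {δ ε : ℝ} (hδ : 0 < δ) (hε : 0 < ε)
    (hG : WGood z k T' δ ε) (hz : z 0 = 0) (hk : 2 ≤ δ * (k : ℝ) ^ 20) {b : ℕ}
    (hb : (b : ℝ) ≤ T' * (k : ℝ) ^ 20) :
    ‖z b‖ ≤ (2 * T' / δ + 1) * (ε * (k : ℝ) ^ 10) := by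
  set s := ⌊δ * (k : ℝ) ^ 20⌋₊ with hs
  have hs1 : (s : ℝ) ≤ δ * (k : ℝ) ^ 20 := Nat.floor_le (by linarith)
  have hs2 : δ * (k : ℝ) ^ 20 < s + 1 := Nat.lt_floor_add_one _
  have hs3 : δ * (k : ℝ) ^ 20 / 2 ≤ s := by linarith
  have hs4 : 0 < (s : ℝ) := by linarith
  have hs5 : 0 < s := by exact_mod_cast hs4
  have hεk : 0 ≤ ε * (k : ℝ) ^ 10 := by positivity
  have key : ∀ m b : ℕ, b ≤ m * s → (b : ℝ) ≤ T' * (k : ℝ) ^ 20 →
      ‖z b‖ ≤ m * (ε * (k : ℝ) ^ 10) := by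
    intro m
    induction m with
    | zero =>
      intro b hb1 _
      have : b = 0 := by omega
      rw [this, hz]
      simp
    | succ m ih =>
      intro b hb1 hb2
      have h1 : b - s ≤ m * s := by
        have : (m + 1) * s = m * s + s := by ring
        omega
      have h2 : ((b - s : ℕ) : ℝ) ≤ b := by exact_mod_cast Nat.sub_le _ _
      have h3 := ih (b - s) h1 (h2.trans hb2)
      have h4 : (b : ℝ) ≤ (b - s : ℕ) + (s : ℝ) := by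
        have : b ≤ (b - s) + s := by omega
        exact_mod_cast this
      have h5 := hG (b - s) b (h2.trans hb2) (Nat.sub_le _ _) (by linarith)
      calc ‖z b‖ = ‖(z b - z (b - s)) + z (b - s)‖ := by rw [sub_add_cancel]
        _ ≤ ‖z b - z (b - s)‖ + ‖z (b - s)‖ := norm_add_le _ _
        _ ≤ ε * (k : ℝ) ^ 10 + m * (ε * (k : ℝ) ^ 10) := add_le_add h5 h3
        _ = _ := by push_cast; ring
  have h1 : b ≤ (b / s + 1) * s := by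
    have := Nat.lt_div_mul_add (a := b) hs5
    have e : (b / s + 1) * s = b / s * s + s := by ring
    omega
  refine (key _ b h1 hb).trans ?_
  refine mul_le_mul_of_nonneg_right ?_ hεk
  push_cast
  have h2 : ((b / s : ℕ) : ℝ) ≤ b / s := Nat.cast_div_le
  have h3 : (b : ℝ) / s ≤ 2 * T' / δ := by
    rw [div_le_div_iff₀ hs4 hδ]
    have h4 : 2 * (T' : ℝ) * s ≥ 2 * T' * (δ * (k : ℝ) ^ 20 / 2) := by gcongr
    nlinarith
  linarith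

lemma scaled_eq_lerp {d : ℕ} (z : ℕ → V d) (n : ℕ) (t : ℝ) :
    (1 / Real.sqrt n) •
    ((fun i => ((z ⌊t * n⌋₊ i : ℤ) : ℝ)) +
      (t * n - (⌊t * n⌋₊ : ℝ)) •
        ((fun i => ((z (⌊t * n⌋₊ + 1) i : ℤ) : ℝ)) - (fun i => ((z ⌊t * n⌋₊ i : ℤ) : ℝ)))) =
      lerp (fun j => (1 / Real.sqrt n) • cz (z j)) (t * n) := by
  have : (fun j => (1 / Real.sqrt n) • cz (z j)) = (1 / Real.sqrt n) • fun j => cz (z j) := rfl
  rw [this, lerp_smul]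
  rfl

/-- the values on the grid of mesh `1/N` -/
noncomputable def grid {d : ℕ} (z : ℕ → V d) (k N : ℕ) (j : ℕ) : Fin d → ℝ :=
  (1 / (k : ℝ) ^ 10) • cz (z ⌊(j : ℝ) / N * (k : ℝ) ^ 20⌋₊)

lemma det_est {d : ℕ} {z : ℕ → V d} {k T' N n : ℕ} {T δ ε : ℝ} (hT : 0 ≤ T) (hTT : T + 1 ≤ T')
    (hδ : 0 < δ) (hε : 0 < ε) (hk0 : 0 < k) (hN0 : 0 < N) (hN : 3 ≤ δ * N)
    (ha : 2 ≤ δ / 3 * (k : ℝ) ^ 20) (hb : T * (((k : ℝ) + 1) ^ 20 - (k : ℝ) ^ 20) ≤ δ / 3 * (k : ℝ) ^ 20)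
    (hc : (2 * T' / δ + 1) * (1 - ((k : ℝ) / (k + 1)) ^ 10) ≤ 1)
    (hn1' : (k : ℝ) ^ 20 ≤ n) (hn2' : (n : ℝ) ≤ ((k : ℝ) + 1) ^ 20)
    (hG : WGood z k T' δ ε) (hz : z 0 = 0) {t : ℝ} (ht0 : 0 ≤ t) (htT : t ≤ T) :
    ‖lerp (fun j => (1 / Real.sqrt n) • cz (z j)) (t * n) - lerp (grid z k N) (N * t)‖ ≤ 2 * ε := by
  have hk : (0 : ℝ) < k := by exact_mod_cast hk0
  have hNr : (0 : ℝ) < N := by exact_mod_cast hN0
  have hk20 : (0 : ℝ) < (k : ℝ) ^ 20 := by positivity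
  have hk10 : (0 : ℝ) < (k : ℝ) ^ 10 := by positivity
  have hsn1 : (k : ℝ) ^ 10 ≤ √n := by
    apply Real.le_sqrt_of_sq_le
    calc ((k : ℝ) ^ 10) ^ 2 = (k : ℝ) ^ 20 := by ring
      _ ≤ _ := hn1'
  have hsn2 : √n ≤ ((k : ℝ) + 1) ^ 10 := by
    rw [Real.sqrt_le_left (by positivity)]
    calc (n : ℝ) ≤ ((k : ℝ) + 1) ^ 20 := hn2'
      _ = _ := by ring
  have hsn0 : 0 < √n := hk10.trans_le hsn1
  have hNinv : 1 / (N : ℝ) ≤ δ / 3 := by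
    rw [div_le_div_iff₀ hNr (by norm_num)]; linarith
  have hkk : (k : ℝ) ^ 20 / N ≤ δ / 3 * (k : ℝ) ^ 20 := by
    calc (k : ℝ) ^ 20 / N = (1 / (N : ℝ)) * (k : ℝ) ^ 20 := by ring
      _ ≤ _ := by gcongr
  have hNinv1 : 1 / (N : ℝ) ≤ 1 := by
    rw [div_le_one hNr]; exact_mod_cast hN0
  refine lerp_sub_lerp_le (by positivity) (by positivity) ?_
  intro i j hi hj
  -- bounds on i
  have hi1 : t * n - 1 ≤ i ∧ (i : ℝ) ≤ t * n + 1 := by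
    have h1 : (⌊t * n⌋₊ : ℝ) ≤ t * n := Nat.floor_le (by positivity)
    have h2 : t * n < ⌊t * n⌋₊ + 1 := Nat.lt_floor_add_one _
    rcases hi with rfl | rfl
    · constructor <;> linarith
    · push_cast; constructor <;> linarith
  have hj1 : N * t - 1 ≤ j ∧ (j : ℝ) ≤ N * t + 1 := by
    have h1 : (⌊N * t⌋₊ : ℝ) ≤ N * t := Nat.floor_le (by positivity)
    have h2 : N * t < ⌊N * t⌋₊ + 1 := Nat.lt_floor_add_one _
    rcases hj with rfl | rfl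
    · constructor <;> linarith
    · push_cast; constructor <;> linarith
  obtain ⟨b, hbdef⟩ : ∃ b : ℕ, b = ⌊(j : ℝ) / N * (k : ℝ) ^ 20⌋₊ := ⟨_, rfl⟩
  have hbA : (b : ℝ) ≤ (j : ℝ) / N * (k : ℝ) ^ 20 := by
    rw [hbdef]; exact Nat.floor_le (by positivity)
  have hbB : (j : ℝ) / N * (k : ℝ) ^ 20 < b + 1 := by
    rw [hbdef]; exact Nat.lt_floor_add_one _
  have hjN1 : t - 1 / N ≤ (j : ℝ) / N := by
    rw [le_div_iff₀ hNr, sub_mul, one_div, inv_mul_cancel₀ hNr.ne']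
    linarith [hj1.1]
  have hjN2 : (j : ℝ) / N ≤ t + 1 / N := by
    rw [div_le_iff₀ hNr, add_mul, one_div, inv_mul_cancel₀ hNr.ne']
    linarith [hj1.2]
  have hb1 : (b : ℝ) ≤ (t + 1 / N) * (k : ℝ) ^ 20 := by
    refine hbA.trans ?_
    gcongr
  have hb2 : (t - 1 / N) * (k : ℝ) ^ 20 - 1 ≤ b := by
    have h2 : (t - 1 / N) * (k : ℝ) ^ 20 ≤ (j : ℝ) / N * (k : ℝ) ^ 20 := by gcongr
    linarith
  have hbT : (b : ℝ) ≤ T' * (k : ℝ) ^ 20 := by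
    refine hb1.trans ?_
    gcongr
    linarith
  have htn : t * n - t * (k : ℝ) ^ 20 ≤ δ / 3 * (k : ℝ) ^ 20 := by
    have h1 : t * (n - (k : ℝ) ^ 20) ≤ T * (((k : ℝ) + 1) ^ 20 - (k : ℝ) ^ 20) := by
      apply mul_le_mul htT (by linarith) (by linarith) hT
    linarith
  have htn2 : t * (k : ℝ) ^ 20 ≤ t * n := by gcongr
  have hib : (i : ℝ) ≤ b + δ * (k : ℝ) ^ 20 := by
    have : (t - 1 / (N : ℝ)) * (k : ℝ) ^ 20 = t * (k : ℝ) ^ 20 - (k : ℝ) ^ 20 / N := by ring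
    linarith [hi1.2]
  have hbi : (b : ℝ) ≤ i + δ * (k : ℝ) ^ 20 := by
    have : (t + 1 / (N : ℝ)) * (k : ℝ) ^ 20 = t * (k : ℝ) ^ 20 + (k : ℝ) ^ 20 / N := by ring
    linarith [hi1.1]
  have hzz : ‖z i - z b‖ ≤ ε * (k : ℝ) ^ 10 := by
    rcases le_total i b with h | h
    · rw [norm_sub_rev]
      have h' : (i : ℝ) ≤ b := by exact_mod_cast h
      exact hG i b (h'.trans hbT) h hbi
    · exact hG b i hbT h hib
  have hch := good_chain hδ hε hG hz (by linarith [hk20]) hbT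
  have e : (1 / √(n : ℝ)) • cz (z i) - grid z k N j =
      (1 / √(n : ℝ)) • (cz (z i) - cz (z b)) - (1 / (k : ℝ) ^ 10 - 1 / √(n : ℝ)) • cz (z b) := by
    unfold grid
    rw [← hbdef]
    module
  rw [e]
  refine (norm_sub_le _ _).trans ?_
  have hd0 : 0 ≤ 1 / (k : ℝ) ^ 10 - 1 / √(n : ℝ) := by
    have : 1 / √(n : ℝ) ≤ 1 / (k : ℝ) ^ 10 := by gcongr
    linarith
  rw [norm_smul, norm_smul, Real.norm_of_nonneg (by positivity), Real.norm_of_nonneg hd0]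
  have h1 : 1 / √(n : ℝ) * ‖cz (z i) - cz (z b)‖ ≤ ε := by
    calc 1 / √(n : ℝ) * ‖cz (z i) - cz (z b)‖ ≤ 1 / (k : ℝ) ^ 10 * (ε * (k : ℝ) ^ 10) := by
          have := (cz_sub_norm (z i) (z b)).trans hzz
          gcongr
      _ = ε := by field_simp
  have h2 : (1 / (k : ℝ) ^ 10 - 1 / √(n : ℝ)) * ‖cz (z b)‖ ≤ ε := by
    have h3 := (cz_norm (z b)).trans hch
    have h4 : 1 / (k : ℝ) ^ 10 - 1 / √(n : ℝ) ≤
        1 / (k : ℝ) ^ 10 - 1 / ((k : ℝ) + 1) ^ 10 := by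
      have : 1 / ((k : ℝ) + 1) ^ 10 ≤ 1 / √(n : ℝ) := by gcongr
      linarith
    calc (1 / (k : ℝ) ^ 10 - 1 / √(n : ℝ)) * ‖cz (z b)‖
        ≤ (1 / (k : ℝ) ^ 10 - 1 / ((k : ℝ) + 1) ^ 10) *
          ((2 * T' / δ + 1) * (ε * (k : ℝ) ^ 10)) := by
          apply mul_le_mul h4 h3 (norm_nonneg _) (hd0.trans h4)
      _ = ((2 * T' / δ + 1) * (1 - ((k : ℝ) / (k + 1)) ^ 10)) * ε := by
          rw [div_pow]
          field_simp
      _ ≤ 1 * ε := by gcongr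
      _ = ε := one_mul _
  linarith

end Pool.Agent.Lib.QIP
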