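import Pool.Agent.Lib.QIP.WeakProb

/-!
# Convergence in distribution of the finite dimensional distributions
-/

set_option autoImplicit false

open MeasureTheory ProbabilityTheory Filter
open scoped ENNReal NNReal Topology BigOperators RealInnerProductSpace

namespace Pool.Agent.Lib.QIP

section
variable {d : ℕ} {ν : Measure (ℕ → V d)} [IsProbabilityMeasure ν]

/-- vector of values at rational times -/
noncomputable def Yv {d m : ℕ} (t : Fin m → ℚ) (k : ℕ) (z : ℕ → V d) :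
    EuclideanSpace ℝ (Fin m × Fin d) :=
  WithLp.toLp 2 fun p => ((z ⌊(t p.1 : ℝ) * (k : ℝ) ^ 20⌋₊ p.2 : ℤ) : ℝ) / (k : ℝ) ^ 10

/-- vector of values of the limit process -/
noncomputable def Zv {d m : ℕ} (t : Fin m → ℚ) {Ω' : Type} (W : ℝ → Ω' → (Fin d → ℝ)) (ω' : Ω') :
    EuclideanSpace ℝ (Fin m × Fin d) :=
  WithLp.toLp 2 fun p => W (t p.1 : ℝ) ω' p.2

lemma Yv_meas {m : ℕ} (t : Fin m → ℚ) (k : ℕ) : Measurable (Yv (d := d) t k) := by
  unfold Yv
  refine (WithLp.measurable_toLp 2 _).comp ?_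
  refine measurable_pi_lambda _ fun p => ?_
  refine Measurable.div_const ?_ _
  refine (measurable_from_top (f := fun n : ℤ => (n : ℝ))).comp ?_
  exact (measurable_pi_apply p.2).comp (measurable_pi_apply _)

lemma Zv_meas {m : ℕ} (t : Fin m → ℚ) {Ω' : Type} [MeasurableSpace Ω']
    {W : ℝ → Ω' → (Fin d → ℝ)} (hW : ∀ t, Measurable (W t)) : Measurable (Zv t W) := by
  unfold Zv
  refine (WithLp.measurable_toLp 2 _).comp ?_
  refine measurable_pi_lambda _ fun p => ?_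
  exact (measurable_pi_apply p.2).comp (hW _)

lemma inner_prod_eq {m : ℕ} (y θ : EuclideanSpace ℝ (Fin m × Fin d)) :
    ⟪y, θ⟫ = ∑ j, ∑ a, θ (j, a) * y (j, a) := by
  rw [PiLp.inner_apply, Fintype.sum_prod_type]
  rfl

lemma charFun_Yv {m : ℕ} (t : Fin m → ℚ) (k : ℕ) (θ : EuclideanSpace ℝ (Fin m × Fin d)) :
    charFun (ν.map (Yv t k)) θ = ∫ z, Complex.exp (Complex.I *
      ((∑ j, ∑ a, θ (j, a) * (((z ⌊(t j : ℝ) * (k : ℝ) ^ 20⌋₊ a : ℤ) : ℝ) / (k : ℝ) ^ 10)
            : ℝ) : ℂ)) ∂ν := by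
  rw [charFun_apply, integral_map (Yv_meas t k).aemeasurable (by fun_prop)]
  refine integral_congr_ae (Eventually.of_forall fun z => ?_)
  simp only
  rw [inner_prod_eq, mul_comm]
  rfl

lemma charFun_Zv {m : ℕ} (t : Fin m → ℚ) {Ω' : Type} [MeasurableSpace Ω'] {P' : Measure Ω'}
    {W : ℝ → Ω' → (Fin d → ℝ)} (hW : ∀ t, Measurable (W t))
    (θ : EuclideanSpace ℝ (Fin m × Fin d)) :
    charFun (P'.map (Zv t W)) θ = ∫ ω', Complex.exp (Complex.I *
      ((∑ j, ∑ a, θ (j, a) * W (t j) ω' a : ℝ) : ℂ)) ∂P' := by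
  rw [charFun_apply, integral_map (Zv_meas t hW).aemeasurable (by fun_prop)]
  refine integral_congr_ae (Eventually.of_forall fun z => ?_)
  simp only
  rw [inner_prod_eq, mul_comm]
  rfl

lemma norm_exp_sub_le (x y : ℝ) :
    ‖Complex.exp (x * Complex.I) - Complex.exp (y * Complex.I)‖ ≤ |x - y| := by
  have h1 : Complex.exp (x * Complex.I) - Complex.exp (y * Complex.I) =
      Complex.exp (y * Complex.I) * (Complex.exp (Complex.I * (x - y : ℝ)) - 1) := by
    rw [mul_sub, ← Complex.exp_add]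
    congr 1
    · congr 1
      push_cast
      ring
    · ring
  rw [h1, norm_mul, Complex.norm_exp_ofReal_mul_I, one_mul]
  have := Real.norm_exp_I_mul_ofReal_sub_one_le (x := x - y)
  simpa using this

lemma norm_exp_sub_le_two (x y : ℝ) :
    ‖Complex.exp (x * Complex.I) - Complex.exp (y * Complex.I)‖ ≤ 2 := by
  refine (norm_sub_le _ _).trans ?_
  rw [Complex.norm_exp_ofReal_mul_I, Complex.norm_exp_ofReal_mul_I]
  norm_num

/-- equicontinuity of characteristic functions -/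
lemma charFun_sub_le {ι : Type*} [Fintype ι] (μ : Measure (EuclideanSpace ℝ ι))
    [IsProbabilityMeasure μ] {A η ρ : ℝ} (hA : 0 ≤ A) (hη : 0 ≤ η) (hρ : 0 ≤ ρ)
    (hμ : μ {y | ¬ ∀ p, |y p| ≤ A} ≤ ENNReal.ofReal η)
    (θ θ' : EuclideanSpace ℝ ι) (hθ : ∀ p, |θ p - θ' p| ≤ ρ) :
    ‖charFun μ θ - charFun μ θ'‖ ≤ Fintype.card ι * (A * ρ) + 2 * η := by
  have hint : ∀ θ : EuclideanSpace ℝ ι, Integrable (fun y => Complex.exp (⟪y, θ⟫ * Complex.I)) μ := by
    intro θ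
    refine Integrable.of_bound (C := 1) ?_ (Eventually.of_forall fun y => ?_)
    · fun_prop
    · rw [Complex.norm_exp_ofReal_mul_I]
  set B : Set (EuclideanSpace ℝ ι) := {y | ¬ ∀ p, |y p| ≤ A} with hB
  have hBm : MeasurableSet B := by
    have : B = ⋃ p, {y : EuclideanSpace ℝ ι | A < |y p|} := by
      ext y
      simp [hB]
    rw [this]
    refine MeasurableSet.iUnion fun p => ?_
    exact measurableSet_lt measurable_const (by fun_prop)
  rw [charFun_apply, charFun_apply, ← integral_sub (hint θ) (hint θ')]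
  refine (norm_integral_le_integral_norm _).trans ?_
  have h1 : ∀ y, ‖Complex.exp (⟪y, θ⟫ * Complex.I) - Complex.exp (⟪y, θ'⟫ * Complex.I)‖ ≤
      Fintype.card ι * (A * ρ) + B.indicator (fun _ => 2) y := by
    intro y
    by_cases hy : y ∈ B
    · rw [Set.indicator_of_mem hy]
      have := norm_exp_sub_le_two ⟪y, θ⟫ ⟪y, θ'⟫
      have h2 : 0 ≤ (Fintype.card ι : ℝ) * (A * ρ) := by positivity
      linarith
    · rw [Set.indicator_of_notMem hy, add_zero]
      refine (norm_exp_sub_le _ _).trans ?_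
      rw [← inner_sub_right, PiLp.inner_apply]
      refine (Finset.abs_sum_le_sum_abs _ _).trans ?_
      have hy' : ∀ p, |y p| ≤ A := by
        by_contra hcon
        exact hy hcon
      calc ∑ p, |⟪y p, (θ - θ') p⟫| ≤ ∑ p : ι, A * ρ := by
            refine Finset.sum_le_sum fun p _ => ?_
            have e : ⟪y p, (θ - θ') p⟫ = (θ p - θ' p) * y p := rfl
            rw [e, abs_mul, mul_comm]
            exact mul_le_mul (hy' p) (hθ p) (abs_nonneg _) hA
        _ = _ := by simp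
  have hI : Integrable (fun y => Fintype.card ι * (A * ρ) + B.indicator (fun _ => (2 : ℝ)) y) μ :=
    (integrable_const _).add ((integrable_const _).indicator hBm)
  refine (integral_mono_of_nonneg (Eventually.of_forall fun _ => norm_nonneg _) hI
    (Eventually.of_forall h1)).trans ?_
  rw [integral_add (integrable_const _) ((integrable_const _).indicator hBm), integral_const,
    integral_indicator hBm, setIntegral_const]
  simp only [probReal_univ, smul_eq_mul, one_mul]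
  have h3 : μ.real B ≤ η := by
    unfold Measure.real
    exact ENNReal.toReal_le_of_le_ofReal hη hμ
  linarith

lemma exists_rat_near {ι : Type*} [Fintype ι] {f : EuclideanSpace ℝ ι → ℂ} (hf : Continuous f)
    (θ : EuclideanSpace ℝ ι) {ρ : ℝ} (hρ : 0 < ρ) :
    ∃ q : ι → ℚ, (∀ p, |θ p - (q p : ℝ)| ≤ ρ) ∧
      ‖f (WithLp.toLp 2 fun p => (q p : ℝ)) - f θ‖ ≤ ρ := by
  have hd : DenseRange (fun q : ι → ℚ => (fun p => (q p : ℝ) : ι → ℝ)) :=
    DenseRange.piMap (fun _ => Rat.denseRange_cast)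
  have hcont : Continuous fun v : ι → ℝ => f (WithLp.toLp 2 v) :=
    hf.comp (PiLp.continuous_toLp 2 _)
  have hopen : IsOpen ({v : ι → ℝ | ∀ p, |θ p - v p| < ρ} ∩
      {v : ι → ℝ | ‖f (WithLp.toLp 2 v) - f θ‖ < ρ}) := by
    refine IsOpen.inter ?_ ?_
    · have : {v : ι → ℝ | ∀ p, |θ p - v p| < ρ} = ⋂ p, {v | |θ p - v p| < ρ} := by
        ext v; simp
      rw [this]
      exact isOpen_iInter_of_finite fun p => isOpen_lt (by fun_prop) continuous_const
    · exact isOpen_lt ((hcont.sub continuous_const).norm) continuous_const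
  obtain ⟨q, hq1, hq2⟩ := hd.exists_mem_open hopen ⟨fun p => θ p, by
    constructor
    · intro p; simpa using hρ
    · have : (WithLp.toLp 2 fun p => θ p) = θ := rfl
      show ‖f (WithLp.toLp 2 fun p => θ p) - f θ‖ < ρ
      rw [this]; simpa using hρ⟩
  exact ⟨q, fun p => (hq1 p).le, hq2.le⟩

/-- the finite dimensional hypothesis -/
def FddHyp {d : ℕ} (ν : Measure (ℕ → V d)) (S : Matrix (Fin d) (Fin d) ℝ) : Prop :=
  ∀ (m : ℕ) (t : Fin m → ℚ) (θ : Fin m → Fin d → ℚ), (∀ j, 0 ≤ t j) →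
      Tendsto (fun k : ℕ => ∫ z, Complex.exp (Complex.I *
          ((∑ j, ∑ a, (θ j a : ℝ) * (((z ⌊(t j : ℝ) * (k : ℝ) ^ 20⌋₊ a : ℤ) : ℝ) / (k : ℝ) ^ 10)
            : ℝ) : ℂ)) ∂ν) atTop
        (nhds (Complex.exp (-((∑ j, ∑ l, min (t j : ℝ) (t l : ℝ) *
            (∑ a, ∑ b, (θ j a : ℝ) * S a b * (θ l b : ℝ)) : ℝ) : ℂ) / 2)))

lemma tight_Yv (h0 : ∀ᵐ z ∂ν, z 0 = 0) (osc : OscHyp ν) {m : ℕ} (t : Fin m → ℚ)
    {η : ℝ} (hη : 0 < η) :
    ∃ A : ℝ, 0 < A ∧ ∀ᶠ k : ℕ in atTop,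
      ν.map (Yv t k) {y : EuclideanSpace ℝ (Fin m × Fin d) | ¬ ∀ p, |y p| ≤ A} ≤
        ENNReal.ofReal η := by
  obtain ⟨T', hT'⟩ : ∃ T' : ℕ, ∀ j, (t j : ℝ) ≤ T' := by
    obtain ⟨M, hM⟩ := (Set.finite_range fun j => (t j : ℝ)).bddAbove
    obtain ⟨T', hT'⟩ := exists_nat_ge M
    exact ⟨T', fun j => (hM ⟨j, rfl⟩).trans hT'⟩
  obtain ⟨A, hA, hk⟩ := tight_est h0 osc T' hη
  refine ⟨A, hA, ?_⟩
  filter_upwards [hk, eventually_gt_atTop 0] with k hk hk0
  have hkr : (0 : ℝ) < (k : ℝ) ^ 10 := by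
    have : (0 : ℝ) < k := by exact_mod_cast hk0
    positivity
  have hBm : MeasurableSet {y : EuclideanSpace ℝ (Fin m × Fin d) | ¬ ∀ p, |y p| ≤ A} := by
    have : {y : EuclideanSpace ℝ (Fin m × Fin d) | ¬ ∀ p, |y p| ≤ A} =
        ⋃ p, {y : EuclideanSpace ℝ (Fin m × Fin d) | A < |y p|} := by
      ext y
      simp
    rw [this]
    refine MeasurableSet.iUnion fun p => ?_
    exact measurableSet_lt measurable_const (by fun_prop)
  rw [Measure.map_apply (Yv_meas t k) hBm]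
  refine (measure_mono ?_).trans hk
  intro z hz hcon
  apply hz
  intro p
  have hfl : ((⌊(t p.1 : ℝ) * (k : ℝ) ^ 20⌋₊ : ℕ) : ℝ) ≤ T' * (k : ℝ) ^ 20 := by
    rcases le_or_gt 0 ((t p.1 : ℝ) * (k : ℝ) ^ 20) with h | h
    · refine (Nat.floor_le h).trans ?_
      have := hT' p.1
      gcongr
    · rw [Nat.floor_of_nonpos h.le]
      simp only [CharP.cast_eq_zero]
      positivity
  have h1 := hcon _ hfl
  have h2 : |((z ⌊(t p.1 : ℝ) * (k : ℝ) ^ 20⌋₊ p.2 : ℤ) : ℝ)| ≤ A * (k : ℝ) ^ 10 := by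
    refine le_trans ?_ h1
    refine le_trans (le_of_eq ?_) (norm_le_pi_norm _ p.2)
    rw [Int.norm_eq_abs]
  change |((z ⌊(t p.1 : ℝ) * (k : ℝ) ^ 20⌋₊ p.2 : ℤ) : ℝ) / (k : ℝ) ^ 10| ≤ A
  rw [abs_div, abs_of_pos hkr, div_le_iff₀ hkr]
  exact h2

theorem charFun_tendsto (h0 : ∀ᵐ z ∂ν, z 0 = 0) (osc : OscHyp ν)
    {S : Matrix (Fin d) (Fin d) ℝ} (fdd : FddHyp ν S) {Ω' : Type} [MeasurableSpace Ω']
    {P' : Measure Ω'} [IsProbabilityMeasure P'] {W : ℝ → Ω' → (Fin d → ℝ)} (hW : IsBM S P' W)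
    {m : ℕ} (t : Fin m → ℚ) (ht : ∀ j, 0 ≤ t j) (θ : EuclideanSpace ℝ (Fin m × Fin d)) :
    Tendsto (fun k => charFun (ν.map (Yv t k)) θ) atTop (𝓝 (charFun (P'.map (Zv t W)) θ)) := by
  have hprob : ∀ k, IsProbabilityMeasure (ν.map (Yv (d := d) t k)) := fun k =>
    Measure.isProbabilityMeasure_map (Yv_meas t k).aemeasurable
  have hprob' : IsProbabilityMeasure (P'.map (Zv t W)) :=
    Measure.isProbabilityMeasure_map (Zv_meas t hW.1).aemeasurable
  -- rational frequencies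
  have hrat : ∀ q : Fin m × Fin d → ℚ,
      Tendsto (fun k => charFun (ν.map (Yv t k)) (WithLp.toLp 2 fun p => (q p : ℝ))) atTop
        (𝓝 (charFun (P'.map (Zv t W)) (WithLp.toLp 2 fun p => (q p : ℝ)))) := by
    intro q
    have h1 := fdd m t (fun j a => q (j, a)) ht
    have h2 := hW.2.2 m (fun j => (t j : ℝ)) (fun j a => (q (j, a) : ℝ))
      (fun j => by exact_mod_cast ht j)
    rw [← h2] at h1
    rw [charFun_Zv t hW.1]
    refine h1.congr fun k => ?_
    rw [charFun_Yv]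
  rw [Metric.tendsto_atTop]
  intro ε hε
  obtain ⟨A, hA, hev⟩ := tight_Yv h0 osc t (η := ε / 16) (by positivity)
  set ρ := min (ε / 8) (ε / (8 * ((Fintype.card (Fin m × Fin d) : ℝ) * A + 1))) with hρ
  have hρ0 : 0 < ρ := lt_min (by positivity) (by positivity)
  have hcont : Continuous (charFun (P'.map (Zv t W))) := by fun_prop
  obtain ⟨q, hq1, hq2⟩ := exists_rat_near hcont θ hρ0
  have h3 := hrat q
  rw [Metric.tendsto_atTop] at h3
  obtain ⟨K1, hK1⟩ := h3 (ε / 4) (by positivity)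
  obtain ⟨K2, hK2⟩ := eventually_atTop.1 hev
  refine ⟨max K1 K2, fun k hk => ?_⟩
  have hk1 := hK1 k ((le_max_left _ _).trans hk)
  have hk2 := hK2 k ((le_max_right _ _).trans hk)
  have h4 := charFun_sub_le (ν.map (Yv t k)) hA.le (by positivity) hρ0.le hk2 θ
    (WithLp.toLp 2 fun p => (q p : ℝ)) hq1
  have h5 : (Fintype.card (Fin m × Fin d) : ℝ) * (A * ρ) ≤ ε / 8 := by
    have h6 : ρ ≤ ε / (8 * ((Fintype.card (Fin m × Fin d) : ℝ) * A + 1)) := min_le_right _ _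
    rw [le_div_iff₀ (by positivity)] at h6
    nlinarith
  have h7 : ρ ≤ ε / 8 := min_le_left _ _
  rw [dist_eq_norm] at hk1 ⊢
  set a := charFun (ν.map (Yv t k)) θ
  set b := charFun (ν.map (Yv t k)) (WithLp.toLp 2 fun p => (q p : ℝ))
  set c := charFun (P'.map (Zv t W)) (WithLp.toLp 2 fun p => (q p : ℝ))
  set e := charFun (P'.map (Zv t W)) θ
  have h8 : a - e = (a - b) + (b - c) + (c - e) := by ring
  rw [h8]
  refine lt_of_le_of_lt (norm_add₃_le) ?_
  linarith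

theorem fdd_dist (h0 : ∀ᵐ z ∂ν, z 0 = 0) (osc : OscHyp ν)
    {S : Matrix (Fin d) (Fin d) ℝ} (fdd : FddHyp ν S) {Ω' : Type} [MeasurableSpace Ω']
    {P' : Measure Ω'} [IsProbabilityMeasure P'] {W : ℝ → Ω' → (Fin d → ℝ)} (hW : IsBM S P' W)
    {m : ℕ} (t : Fin m → ℚ) (ht : ∀ j, 0 ≤ t j) :
    TendstoInDistribution (fun k : ℕ => Yv (d := d) t k) atTop (Zv t W) (fun _ => ν) P' where
  forall_aemeasurable := fun k => (Yv_meas t k).aemeasurable
  aemeasurable_limit := (Zv_meas t hW.1).aemeasurable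
  tendsto := ProbabilityMeasure.tendsto_of_tendsto_charFun
    (fun θ => charFun_tendsto h0 osc fdd hW t ht θ)

end

end Pool.Agent.Lib.QIP
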