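import Pool.Agent.Lib.QIP.BM

/-!
# Linear interpolation of sequences
-/

set_option autoImplicit false

open MeasureTheory ProbabilityTheory Filter
open scoped ENNReal NNReal Topology BigOperators

namespace Pool.Agent.Lib.QIP

section Lerp

variable {E : Type*} [NormedAddCommGroup E] [NormedSpace ℝ E]

/-- linear interpolation of a sequence -/
noncomputable def lerp (v : ℕ → E) (s : ℝ) : E :=
  v ⌊s⌋₊ + (s - (⌊s⌋₊ : ℝ)) • (v (⌊s⌋₊ + 1) - v ⌊s⌋₊)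

lemma lerp_eq_sum (v : ℕ → E) {s : ℝ} (hs : 0 ≤ s) {m : ℕ} (hm : s < m) :
    lerp v s = v 0 + ∑ j ∈ Finset.range m, (max 0 (min (s - j) 1)) • (v (j + 1) - v j) := by
  set i := ⌊s⌋₊ with hi
  have h1 : (i : ℝ) ≤ s := Nat.floor_le hs
  have h2 : s < i + 1 := Nat.lt_floor_add_one s
  have h3 : i + 1 ≤ m := by
    have : (i : ℝ) < m := lt_of_le_of_lt h1 hm
    exact_mod_cast this
  have hz : ∀ j ∈ Finset.range m, j ∉ Finset.range (i + 1) →
      (max 0 (min (s - j) 1)) • (v (j + 1) - v j) = 0 := by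
    intro j _ hj
    rw [Finset.mem_range, not_lt] at hj
    have : (i : ℝ) + 1 ≤ j := by exact_mod_cast hj
    rw [max_eq_left, zero_smul]
    exact (min_le_left _ _).trans (by linarith)
  rw [← Finset.sum_subset (Finset.range_mono h3) hz, Finset.sum_range_succ]
  have h4 : ∀ j ∈ Finset.range i, (max 0 (min (s - j) 1)) • (v (j + 1) - v j) =
      v (j + 1) - v j := by
    intro j hj
    rw [Finset.mem_range] at hj
    have : (j : ℝ) + 1 ≤ i := by exact_mod_cast hj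
    rw [min_eq_right (by linarith), max_eq_right zero_le_one, one_smul]
  rw [Finset.sum_congr rfl h4, Finset.sum_range_sub]
  have h5 : max 0 (min (s - (i : ℝ)) 1) = s - i := by
    rw [min_eq_left (by linarith), max_eq_right (by linarith)]
  rw [h5]
  unfold lerp
  rw [← hi]
  abel

lemma lerp_continuousOn (v : ℕ → E) : ContinuousOn (lerp v) (Set.Ici 0) := by
  intro s hs
  have hs0 : (0 : ℝ) ≤ s := hs
  obtain ⟨m, hm⟩ := exists_nat_gt s
  have h1 : Continuous fun s : ℝ =>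
      v 0 + ∑ j ∈ Finset.range m, (max 0 (min (s - j) 1)) • (v (j + 1) - v j) := by fun_prop
  refine (h1.continuousWithinAt (s := Set.Ici 0) (x := s)).congr_of_eventuallyEq ?_ ?_
  · have h2 : ∀ᶠ x : ℝ in 𝓝[Set.Ici 0] s, x < (m : ℝ) := by
      exact nhdsWithin_le_nhds (gt_mem_nhds hm)
    filter_upwards [h2, self_mem_nhdsWithin] with x hx hx0
    exact lerp_eq_sum v hx0 hx
  · exact lerp_eq_sum v hs0 hm

lemma lerp_sub_le {v : ℕ → E} {s : ℝ} (hs : 0 ≤ s) {x : E} {c : ℝ}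
    (h1 : ‖v ⌊s⌋₊ - x‖ ≤ c) (h2 : ‖v (⌊s⌋₊ + 1) - x‖ ≤ c) : ‖lerp v s - x‖ ≤ c := by
  have h3 : (⌊s⌋₊ : ℝ) ≤ s := Nat.floor_le hs
  have h4 : s < ⌊s⌋₊ + 1 := Nat.lt_floor_add_one s
  set τ := s - (⌊s⌋₊ : ℝ) with hτ
  have e : lerp v s - x = (1 - τ) • (v ⌊s⌋₊ - x) + τ • (v (⌊s⌋₊ + 1) - x) := by
    unfold lerp
    rw [← hτ]
    module
  rw [e]
  refine (norm_add_le _ _).trans ?_
  rw [norm_smul, norm_smul, Real.norm_of_nonneg (by linarith), Real.norm_of_nonneg (by linarith)]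
  have h5 : 0 ≤ 1 - τ := by linarith
  have h6 : 0 ≤ τ := by linarith
  nlinarith [mul_le_mul_of_nonneg_left h1 h5, mul_le_mul_of_nonneg_left h2 h6]

lemma lerp_sub_lerp_le {v w : ℕ → E} {s s' : ℝ} (hs : 0 ≤ s) (hs' : 0 ≤ s') {c : ℝ}
    (h : ∀ i j : ℕ, (i = ⌊s⌋₊ ∨ i = ⌊s⌋₊ + 1) → (j = ⌊s'⌋₊ ∨ j = ⌊s'⌋₊ + 1) → ‖v i - w j‖ ≤ c) :
    ‖lerp v s - lerp w s'‖ ≤ c := by
  have key : ∀ i : ℕ, (i = ⌊s⌋₊ ∨ i = ⌊s⌋₊ + 1) → ‖v i - lerp w s'‖ ≤ c := by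
    intro i hi
    rw [norm_sub_rev]
    refine lerp_sub_le hs' ?_ ?_
    · rw [norm_sub_rev]; exact h _ _ hi (Or.inl rfl)
    · rw [norm_sub_rev]; exact h _ _ hi (Or.inr rfl)
  exact lerp_sub_le hs (key _ (Or.inl rfl)) (key _ (Or.inr rfl))

lemma lerp_congr {v w : ℕ → E} {s : ℝ} (h1 : v ⌊s⌋₊ = w ⌊s⌋₊)
    (h2 : v (⌊s⌋₊ + 1) = w (⌊s⌋₊ + 1)) : lerp v s = lerp w s := by
  unfold lerp
  rw [h1, h2]

lemma lerp_add (v w : ℕ → E) (s : ℝ) : lerp (v + w) s = lerp v s + lerp w s := by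
  unfold lerp
  simp only [Pi.add_apply]
  module

lemma lerp_smul (c : ℝ) (v : ℕ → E) (s : ℝ) : lerp (c • v) s = c • lerp v s := by
  unfold lerp
  simp only [Pi.smul_apply]
  module

end Lerp

end Pool.Agent.Lib.QIP
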