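import Pool.Agent.Lib.QIP.WeakFdd

/-!
# Chunk D: from finite dimensional distributions and oscillation bounds along `n = k^20`
to weak convergence of the interpolated path along all `n`
-/

set_option autoImplicit false

open MeasureTheory ProbabilityTheory Filter
open scoped ENNReal NNReal Topology BigOperators

namespace Pool.Agent.Lib.QIP

/-- The diffusively rescaled linear interpolation of a lattice path. -/
noncomputable def scaled {d : ℕ} (z : ℕ → V d) (n : ℕ) (t : ℝ) : Fin d → ℝ :=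
  (1 / Real.sqrt n) •
    ((fun i => ((z ⌊t * n⌋₊ i : ℤ) : ℝ)) +
      (t * n - (⌊t * n⌋₊ : ℝ)) •
        ((fun i => ((z (⌊t * n⌋₊ + 1) i : ℤ) : ℝ)) - (fun i => ((z ⌊t * n⌋₊ i : ℤ) : ℝ))))

namespace WL

section
variable {d : ℕ} {T : ℝ}

/-- Borel structure on path space -/
local instance instMC (d : ℕ) (T : ℝ) : MeasurableSpace C(Set.Icc (0 : ℝ) T, Fin d → ℝ) :=
  borel _

local instance instBC (d : ℕ) (T : ℝ) : BorelSpace C(Set.Icc (0 : ℝ) T, Fin d → ℝ) := ⟨rfl⟩

/-- a finite vector as a sequence -/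
noncomputable def Jseq {d m : ℕ} (v : EuclideanSpace ℝ (Fin m × Fin d)) (j : ℕ) : Fin d → ℝ :=
  if h : j < m then fun a => v (⟨j, h⟩, a) else 0

lemma Jseq_add {m : ℕ} (v w : EuclideanSpace ℝ (Fin m × Fin d)) :
    Jseq (v + w) = Jseq v + Jseq w := by
  funext j a
  unfold Jseq
  by_cases h : j < m
  · simp [h]
  · simp [h]

lemma Jseq_smul {m : ℕ} (c : ℝ) (v : EuclideanSpace ℝ (Fin m × Fin d)) :
    Jseq (c • v) = c • Jseq v := by
  funext j a
  unfold Jseq
  by_cases h : j < m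
  · simp [h]
  · simp [h]

/-- interpolation of a finite vector -/
noncomputable def Jlin (d : ℕ) (T : ℝ) (N m : ℕ) :
    EuclideanSpace ℝ (Fin m × Fin d) →ₗ[ℝ] C(Set.Icc (0 : ℝ) T, Fin d → ℝ) where
  toFun v := ⟨fun s => lerp (Jseq v) (N * s.1),
    (lerp_continuousOn _).comp_continuous (by fun_prop)
      (fun s => mul_nonneg (Nat.cast_nonneg _) s.2.1)⟩
  map_add' v w := by
    ext1 s
    simp only [ContinuousMap.coe_mk, ContinuousMap.add_apply]
    rw [Jseq_add, lerp_add]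
  map_smul' c v := by
    ext1 s
    simp only [ContinuousMap.coe_mk, ContinuousMap.smul_apply, RingHom.id_apply]
    rw [Jseq_smul, lerp_smul]

lemma Jlin_apply (N m : ℕ) (v : EuclideanSpace ℝ (Fin m × Fin d)) (s : Set.Icc (0 : ℝ) T) :
    Jlin d T N m v s = lerp (Jseq v) (N * s.1) := rfl

lemma Jlin_cont (N m : ℕ) : Continuous (Jlin d T N m) :=
  LinearMap.continuous_of_finiteDimensional _

/-- the grid -/
def tN (N m : ℕ) : Fin m → ℚ := fun j => (j : ℚ) / N

/-- number of grid points -/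
noncomputable def MN (T : ℝ) (N : ℕ) : ℕ := ⌈T * N⌉₊ + 2

lemma floor_lt_MN (N : ℕ) (s : Set.Icc (0 : ℝ) T) : ⌊N * s.1⌋₊ + 1 < MN T N := by
  unfold MN
  have h1 : (N : ℝ) * s.1 ≤ T * N := by
    have := s.2.2
    rw [mul_comm]
    gcongr
  have h2 : ⌊(N : ℝ) * s.1⌋₊ ≤ ⌈T * N⌉₊ := (Nat.floor_le_floor h1).trans (Nat.floor_le_ceil _)
  omega

lemma Jlin_Yv (k N : ℕ) (z : ℕ → V d) (s : Set.Icc (0 : ℝ) T) :
    Jlin d T N (MN T N) (Yv (tN N (MN T N)) k z) s = lerp (grid z k N) (N * s.1) := by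
  rw [Jlin_apply]
  have h := floor_lt_MN N s
  have key : ∀ j : ℕ, j < MN T N → Jseq (Yv (tN N (MN T N)) k z) j = grid z k N j := by
    intro j hj
    unfold Jseq grid
    rw [dif_pos hj]
    funext a
    simp only [Yv, tN, cz, Pi.smul_apply, smul_eq_mul]
    push_cast
    ring
  exact lerp_congr (key _ (by omega)) (key _ h)

lemma Jlin_Zv {Ω' : Type} (W : ℝ → Ω' → (Fin d → ℝ)) (ω' : Ω') (N : ℕ) (s : Set.Icc (0 : ℝ) T) :
    Jlin d T N (MN T N) (Zv (tN N (MN T N)) W ω') s = lerp (fun j => W (j / N) ω') (N * s.1) := by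
  rw [Jlin_apply]
  have h := floor_lt_MN N s
  have key : ∀ j : ℕ, j < MN T N → Jseq (Zv (tN N (MN T N)) W ω') j = W (j / N) ω' := by
    intro j hj
    unfold Jseq
    rw [dif_pos hj]
    funext a
    simp only [Zv, tN]
    push_cast
    rfl
  exact lerp_congr (key _ (by omega)) (key _ h)

/-- the rescaled path as a continuous function -/
noncomputable def XC (d : ℕ) (T : ℝ) (n : ℕ) (z : ℕ → V d) : C(Set.Icc (0 : ℝ) T, Fin d → ℝ) :=
  ⟨fun s => lerp (fun j => (1 / Real.sqrt n) • cz (z j)) (s.1 * n),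
    (lerp_continuousOn _).comp_continuous (by fun_prop)
      (fun s => mul_nonneg s.2.1 (Nat.cast_nonneg _))⟩

lemma XC_meas (n : ℕ) : Measurable (XC d T n) := by
  set m := ⌊T * n⌋₊ + 2 with hm
  set Φ : (Fin m → V d) → C(Set.Icc (0 : ℝ) T, Fin d → ℝ) := fun v =>
    XC d T n (fun j => if h : j < m then v ⟨j, h⟩ else 0) with hΦ
  have h1 : Measurable Φ := measurable_of_countable Φ
  have h2 : Measurable fun z : ℕ → V d => fun i : Fin m => z i :=
    measurable_pi_lambda _ fun i => measurable_pi_apply _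
  have h3 : XC d T n = Φ ∘ fun z : ℕ → V d => fun i : Fin m => z i := by
    funext z
    ext1 s
    simp only [hΦ, Function.comp, XC, ContinuousMap.coe_mk]
    have hs : ⌊s.1 * n⌋₊ + 1 < m := by
      have : s.1 * (n : ℝ) ≤ T * n := by
        have := s.2.2
        gcongr
      have h4 := Nat.floor_le_floor this
      omega
    refine lerp_congr ?_ ?_
    · rw [dif_pos (by omega)]
    · rw [dif_pos hs]
  rw [h3]
  exact h1.comp h2

/-- the limit process as a continuous function -/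
noncomputable def WC (d : ℕ) (T : ℝ) {Ω' : Type} (W : ℝ → Ω' → (Fin d → ℝ))
    (hW : ∀ ω', Continuous (fun t => W t ω')) (ω' : Ω') : C(Set.Icc (0 : ℝ) T, Fin d → ℝ) :=
  ⟨fun s => W s.1 ω', (hW ω').comp continuous_subtype_val⟩

lemma WC_tendsto {Ω' : Type} (W : ℝ → Ω' → (Fin d → ℝ))
    (hW : ∀ ω', Continuous (fun t => W t ω')) (ω' : Ω') :
    Tendsto (fun N : ℕ => Jlin d T N (MN T N) (Zv (tN N (MN T N)) W ω')) atTop
      (𝓝 (WC d T W hW ω')) := by
  rw [Metric.tendsto_atTop]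
  intro ε hε
  have huc : UniformContinuousOn (fun t => W t ω') (Set.Icc 0 (T + 1)) :=
    isCompact_Icc.uniformContinuousOn_of_continuous (hW ω').continuousOn
  rw [Metric.uniformContinuousOn_iff] at huc
  obtain ⟨δ, hδ, hδ2⟩ := huc (ε / 2) (by positivity)
  obtain ⟨N0, hN0⟩ := exists_nat_gt (1 / δ)
  refine ⟨max N0 1, fun N hN => ?_⟩
  have hN1 : N0 ≤ N := (le_max_left _ _).trans hN
  have hN2 : 1 ≤ N := (le_max_right _ _).trans hN
  have hNr : (1 : ℝ) ≤ N := by exact_mod_cast hN2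
  have hNd : 1 / (N : ℝ) < δ := by
    rw [div_lt_iff₀ (by linarith)]
    have : 1 / δ < N := hN0.trans_le (by exact_mod_cast hN1)
    rw [div_lt_iff₀ hδ] at this
    linarith
  refine lt_of_le_of_lt ((ContinuousMap.dist_le (by positivity : (0 : ℝ) ≤ ε / 2)).2 ?_)
    (by linarith)
  intro s
  rw [Jlin_Zv, dist_eq_norm]
  have hs0 := s.2.1
  have hsT := s.2.2
  have hfl1 : (⌊(N : ℝ) * s.1⌋₊ : ℝ) ≤ N * s.1 := Nat.floor_le (by positivity)
  have hfl2 : (N : ℝ) * s.1 < ⌊(N : ℝ) * s.1⌋₊ + 1 := Nat.lt_floor_add_one _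
  have hN1' : 1 / (N : ℝ) ≤ 1 := by rw [div_le_one (by linarith)]; exact hNr
  have key : ∀ j : ℕ, (N * s.1 - 1 ≤ j) → (j : ℝ) ≤ N * s.1 + 1 →
      ‖W (j / N) ω' - (WC d T W hW ω') s‖ ≤ ε / 2 := by
    intro j hj1 hj2
    have hNpos : (0 : ℝ) < N := by linarith
    have h1 : s.1 - 1 / N ≤ (j : ℝ) / N := by
      rw [le_div_iff₀ hNpos, sub_mul, one_div, inv_mul_cancel₀ hNpos.ne']
      linarith
    have h2 : (j : ℝ) / N ≤ s.1 + 1 / N := by
      rw [div_le_iff₀ hNpos, add_mul, one_div, inv_mul_cancel₀ hNpos.ne']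
      linarith
    rw [← dist_eq_norm]
    refine (hδ2 _ ⟨by positivity, by linarith⟩ _ ⟨hs0, by linarith⟩ ?_).le
    rw [Real.dist_eq, abs_lt]
    constructor <;> linarith
  refine lerp_sub_le (by positivity) (key _ (by linarith) (by linarith)) ?_
  exact key _ (by push_cast; linarith) (by push_cast; linarith)

lemma WC_meas {Ω' : Type} [MeasurableSpace Ω'] (W : ℝ → Ω' → (Fin d → ℝ))
    (hW0 : ∀ t, Measurable (W t)) (hW : ∀ ω', Continuous (fun t => W t ω')) :
    Measurable (WC d T W hW) := by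
  refine measurable_of_tendsto_metrizable (f := fun (N : ℕ) ω' =>
    Jlin d T N (MN T N) (Zv (tN N (MN T N)) W ω')) ?_ ?_
  · intro N
    exact (Jlin_cont N _).measurable.comp (Zv_meas _ hW0)
  · rw [tendsto_pi_nhds]
    exact fun ω' => WC_tendsto W hW ω'

/-- comparison of integrals of bounded Lipschitz functions -/
lemma compare {Ω E : Type*} [MeasurableSpace Ω] (μ : Measure Ω) [IsProbabilityMeasure μ]
    [MetricSpace E] [MeasurableSpace E] [BorelSpace E] [SecondCountableTopology E]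
    {X Y : Ω → E} (hX : Measurable X) (hY : Measurable Y) {G : E → ℝ} {C : ℝ}
    (hC0 : 0 ≤ C) (hC : ∀ x y, dist (G x) (G y) ≤ C) {L : ℝ≥0} (hL : LipschitzWith L G) {ε η : ℝ}
    (hε : 0 ≤ ε) (hη : 0 ≤ η) (h : μ {ω | ε < dist (X ω) (Y ω)} ≤ ENNReal.ofReal η) :
    |∫ ω, G (X ω) ∂μ - ∫ ω, G (Y ω) ∂μ| ≤ L * ε + C * η := by
  have hne : Nonempty Ω := by
    by_contra hcon
    rw [not_nonempty_iff] at hcon
    have := IsProbabilityMeasure.ne_zero μ
    exact this (Measure.eq_zero_of_isEmpty μ)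
  have hint : ∀ Z : Ω → E, Measurable Z → Integrable (fun ω => G (Z ω)) μ := by
    intro Z hZ
    obtain ⟨ω0⟩ := hne
    refine Integrable.of_bound (C := |G (Z ω0)| + C)
      ((hL.continuous.measurable.comp hZ).aestronglyMeasurable) (Eventually.of_forall fun ω => ?_)
    have := hC (Z ω) (Z ω0)
    rw [Real.dist_eq] at this
    rw [Real.norm_eq_abs]
    calc |G (Z ω)| = |G (Z ω0) + (G (Z ω) - G (Z ω0))| := by congr 1; ring
      _ ≤ |G (Z ω0)| + |G (Z ω) - G (Z ω0)| := abs_add_le _ _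
      _ ≤ _ := by gcongr
  set B : Set Ω := {ω | ε < dist (X ω) (Y ω)} with hB
  have hBm : MeasurableSet B := measurableSet_lt measurable_const (hX.dist hY)
  rw [← integral_sub (hint X hX) (hint Y hY)]
  refine (abs_integral_le_integral_abs).trans ?_
  have h1 : ∀ ω, |G (X ω) - G (Y ω)| ≤ L * ε + B.indicator (fun _ => C) ω := by
    intro ω
    by_cases hω : ω ∈ B
    · rw [Set.indicator_of_mem hω]
      have := hC (X ω) (Y ω)
      rw [Real.dist_eq] at this
      have h2 : 0 ≤ (L : ℝ) * ε := by positivity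
      linarith
    · rw [Set.indicator_of_notMem hω, add_zero]
      have h2 : dist (X ω) (Y ω) ≤ ε := not_lt.1 hω
      have h3 := hL.dist_le_mul (X ω) (Y ω)
      rw [Real.dist_eq] at h3
      exact h3.trans (by gcongr)
  have hI : Integrable (fun ω => L * ε + B.indicator (fun _ => C) ω) μ :=
    (integrable_const _).add ((integrable_const _).indicator hBm)
  refine (integral_mono_of_nonneg (Eventually.of_forall fun _ => abs_nonneg _) hI
    (Eventually.of_forall h1)).trans ?_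
  rw [integral_add (integrable_const _) ((integrable_const _).indicator hBm), integral_const,
    integral_indicator hBm, setIntegral_const]
  simp only [probReal_univ, smul_eq_mul, one_mul]
  have h3 : μ.real B ≤ η := by
    unfold Measure.real
    exact ENNReal.toReal_le_of_le_ofReal hη h
  nlinarith

theorem main_dist {ν : Measure (ℕ → V d)} [IsProbabilityMeasure ν] (h0 : ∀ᵐ z ∂ν, z 0 = 0)
    (osc : OscHyp ν) {S : Matrix (Fin d) (Fin d) ℝ} (fdd : FddHyp ν S)
    {Ω' : Type} [MeasurableSpace Ω'] {P' : Measure Ω'} [IsProbabilityMeasure P']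
    {W : ℝ → Ω' → (Fin d → ℝ)} (hW : IsBM S P' W) (hT : 0 ≤ T) :
    TendstoInDistribution (fun n : ℕ => XC d T n) atTop (WC d T W hW.2.1) (fun _ => ν) P' where
  forall_aemeasurable := fun n => (XC_meas n).aemeasurable
  aemeasurable_limit := (WC_meas W hW.1 hW.2.1).aemeasurable
  tendsto := by
    rw [tendsto_iff_forall_lipschitz_integral_tendsto]
    rintro G ⟨C, hC⟩ ⟨L, hL⟩
    have hWm : Measurable (WC d T W hW.2.1) := WC_meas W hW.1 hW.2.1
    have hGm : Measurable G := hL.continuous.measurable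
    have hC0 : 0 ≤ C := dist_nonneg.trans (hC 0 0)
    have hGb : ∀ x, |G x| ≤ |G 0| + C := by
      intro x
      have := hC x 0
      rw [Real.dist_eq] at this
      calc |G x| = |G 0 + (G x - G 0)| := by congr 1; ring
        _ ≤ |G 0| + |G x - G 0| := abs_add_le _ _
        _ ≤ _ := by gcongr
    simp only [ProbabilityMeasure.coe_mk]
    rw [integral_map hWm.aemeasurable hGm.aestronglyMeasurable]
    have e1 : ∀ n : ℕ, ∫ x, G x ∂(ν.map (XC d T n)) = ∫ z, G (XC d T n z) ∂ν := fun n =>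
      integral_map (XC_meas n).aemeasurable hGm.aestronglyMeasurable
    simp_rw [e1]
    rw [Metric.tendsto_atTop]
    intro ε hε
    set ε1 := ε / (8 * ((L : ℝ) + 1)) with hε1
    set η1 := ε / (8 * (C + 1)) with hη1
    have hε1p : 0 < ε1 := by positivity
    have hη1p : 0 < η1 := by positivity
    obtain ⟨N0, hN0⟩ := prob_close h0 osc hT hε1p hη1p
    have hdct : Tendsto (fun N : ℕ => ∫ ω', G (Jlin d T N (MN T N) (Zv (tN N (MN T N)) W ω')) ∂P')
        atTop (𝓝 (∫ ω', G (WC d T W hW.2.1 ω') ∂P')) := by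
      refine tendsto_integral_of_dominated_convergence (fun _ => |G 0| + C) ?_
        (integrable_const _) ?_ ?_
      · intro N
        exact (hGm.comp ((Jlin_cont N _).measurable.comp (Zv_meas _ hW.1))).aestronglyMeasurable
      · intro N
        exact Eventually.of_forall fun ω' => hGb _
      · exact Eventually.of_forall fun ω' =>
          (hL.continuous.tendsto _).comp (WC_tendsto W hW.2.1 ω')
    rw [Metric.tendsto_atTop] at hdct
    obtain ⟨N1, hN1⟩ := hdct (ε / 4) (by positivity)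
    set N := max N0 N1 with hN
    have hA := hN0 N (le_max_left _ _)
    have hB := hN1 N (le_max_right _ _)
    have hfdd := (fdd_dist h0 osc fdd hW (tN N (MN T N)) (fun j => by unfold tN; positivity))
    have hfdd2 := hfdd.continuous_comp (Jlin_cont (d := d) (T := T) N (MN T N))
    have hfdd3 := tendsto_iff_forall_lipschitz_integral_tendsto.1 hfdd2.tendsto G ⟨C, hC⟩ ⟨L, hL⟩
    simp only [ProbabilityMeasure.coe_mk] at hfdd3
    have hJZ : Measurable fun ω' => Jlin d T N (MN T N) (Zv (tN N (MN T N)) W ω') :=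
      (Jlin_cont N _).measurable.comp (Zv_meas _ hW.1)
    have hJY : ∀ k, Measurable fun z => Jlin d T N (MN T N) (Yv (tN N (MN T N)) k z) := fun k =>
      (Jlin_cont N _).measurable.comp (Yv_meas _ k)
    have e2 : ∫ x, G x ∂(P'.map ((Jlin d T N (MN T N)) ∘ Zv (tN N (MN T N)) W)) =
        ∫ ω', G (Jlin d T N (MN T N) (Zv (tN N (MN T N)) W ω')) ∂P' :=
      integral_map hJZ.aemeasurable hGm.aestronglyMeasurable
    have e3 : ∀ k : ℕ, ∫ x, G x ∂(ν.map ((Jlin d T N (MN T N)) ∘ Yv (tN N (MN T N)) k)) =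
        ∫ z, G (Jlin d T N (MN T N) (Yv (tN N (MN T N)) k z)) ∂ν := fun k =>
      integral_map (hJY k).aemeasurable hGm.aestronglyMeasurable
    rw [e2] at hfdd3
    simp_rw [e3] at hfdd3
    rw [Metric.tendsto_atTop] at hfdd3
    obtain ⟨K1, hK1⟩ := hfdd3 (ε / 4) (by positivity)
    obtain ⟨K2, hK2⟩ := eventually_atTop.1 hA
    set k0 := max K1 K2 with hk0
    refine ⟨k0 ^ 20, fun n hn => ?_⟩
    -- choose k
    obtain ⟨k, hk1, hk2, hk3⟩ : ∃ k : ℕ, k0 ≤ k ∧ (k : ℝ) ^ 20 ≤ n ∧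
        (n : ℝ) ≤ ((k : ℝ) + 1) ^ 20 := by
      have hex : ∃ k : ℕ, n < (k + 1) ^ 20 :=
        ⟨n, (Nat.lt_succ_self n).trans_le (Nat.le_self_pow (by norm_num) _)⟩
      classical
      refine ⟨Nat.find hex, ?_, ?_, ?_⟩
      · by_contra hcon
        push Not at hcon
        have h1 := Nat.find_spec hex
        have h2 : (Nat.find hex + 1) ^ 20 ≤ k0 ^ 20 := Nat.pow_le_pow_left hcon 20
        exact absurd (lt_of_lt_of_le h1 h2) (not_lt.2 hn)
      · have h1 : (Nat.find hex) ^ 20 ≤ n := by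
          rcases Nat.eq_zero_or_pos (Nat.find hex) with h | h
          · rw [h]; simp
          · have := Nat.find_min hex (m := Nat.find hex - 1) (by omega)
            rw [Nat.sub_add_cancel h] at this
            exact not_lt.1 this
        exact_mod_cast h1
      · exact_mod_cast (Nat.find_spec hex).le
    have h1 := hK2 k ((le_max_right _ _).trans hk1) n hk2 hk3
    have h2 := hK1 k ((le_max_left _ _).trans hk1)
    have h3 : ν {z | ε1 < dist (XC d T n z) (Jlin d T N (MN T N) (Yv (tN N (MN T N)) k z))} ≤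
        ENNReal.ofReal η1 := by
      refine le_trans (measure_mono ?_) h1
      intro z hz hcon
      have h4 : dist (XC d T n z) (Jlin d T N (MN T N) (Yv (tN N (MN T N)) k z)) ≤ ε1 := by
        rw [ContinuousMap.dist_le hε1p.le]
        intro s
        rw [Jlin_Yv, dist_eq_norm]
        exact hcon s.1 s.2
      exact absurd hz (not_lt.2 h4)
    have h4 := compare ν (XC_meas n) (hJY k) hC0 hC hL hε1p.le hη1p.le h3
    have h5 : (L : ℝ) * ε1 ≤ ε / 8 := by
      rw [hε1]
      have hL0 : (0 : ℝ) ≤ L := L.2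
      rw [← mul_div_assoc, div_le_div_iff₀ (by positivity) (by positivity)]
      nlinarith
    have h6 : C * η1 ≤ ε / 8 := by
      rw [hη1, ← mul_div_assoc, div_le_div_iff₀ (by positivity) (by positivity)]
      nlinarith
    rw [Real.dist_eq] at h2 hB ⊢
    set a := ∫ z, G (XC d T n z) ∂ν
    set b := ∫ z, G (Jlin d T N (MN T N) (Yv (tN N (MN T N)) k z)) ∂ν
    set c := ∫ ω', G (Jlin d T N (MN T N) (Zv (tN N (MN T N)) W ω')) ∂P'
    set e := ∫ ω', G (WC d T W hW.2.1 ω') ∂P'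
    have h7 : |a - e| ≤ |a - b| + |b - c| + |c - e| := by
      calc |a - e| = |(a - b) + (b - c) + (c - e)| := by congr 1; ring
        _ ≤ |(a - b) + (b - c)| + |c - e| := abs_add_le _ _
        _ ≤ _ := by gcongr; exact abs_add_le _ _
    linarith

theorem weak_limit_aux {ν : Measure (ℕ → V d)} [IsProbabilityMeasure ν] (h0 : ∀ᵐ z ∂ν, z 0 = 0)
    (osc : OscHyp ν) {S : Matrix (Fin d) (Fin d) ℝ} (fdd : FddHyp ν S)
    {Ω' : Type} [MeasurableSpace Ω'] {P' : Measure Ω'} [IsProbabilityMeasure P']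
    {W : ℝ → Ω' → (Fin d → ℝ)} (hW : IsBM S P' W) (hT : 0 ≤ T)
    (F : UniformFun (Set.Icc (0 : ℝ) T) (Fin d → ℝ) → ℝ)
    (hF : Continuous F) (hb : ∃ C : ℝ, ∀ f, |F f| ≤ C) :
    Tendsto (fun n : ℕ => ∫ z, F (UniformFun.ofFun (fun t : Set.Icc (0 : ℝ) T =>
        scaled z n t.1)) ∂ν) atTop
      (nhds (∫ ω', F (UniformFun.ofFun (fun t : Set.Icc (0 : ℝ) T => W t.1 ω')) ∂P')) := by
  obtain ⟨C, hC⟩ := hb
  have hWm : Measurable (WC d T W hW.2.1) := WC_meas W hW.1 hW.2.1
  have hiso : Isometry (UniformFun.ofFun ∘ DFunLike.coe :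
      C(Set.Icc (0 : ℝ) T, Fin d → ℝ) → UniformFun (Set.Icc (0 : ℝ) T) (Fin d → ℝ)) :=
    UniformFun.isometry_ofFun_continuousMap
  have hFc : Continuous fun f : C(Set.Icc (0 : ℝ) T, Fin d → ℝ) =>
      F (UniformFun.ofFun (f : Set.Icc (0 : ℝ) T → (Fin d → ℝ))) := hF.comp hiso.continuous
  let f' : BoundedContinuousFunction C(Set.Icc (0 : ℝ) T, Fin d → ℝ) ℝ :=
    BoundedContinuousFunction.ofNormedAddCommGroup
      (fun f => F (UniformFun.ofFun (f : Set.Icc (0 : ℝ) T → (Fin d → ℝ)))) hFc C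
      (fun f => hC _)
  have h1 := ProbabilityMeasure.tendsto_iff_forall_integral_tendsto.1
    (main_dist h0 osc fdd hW hT).tendsto f'
  simp only [ProbabilityMeasure.coe_mk] at h1
  rw [integral_map hWm.aemeasurable f'.continuous.measurable.aestronglyMeasurable] at h1
  have e1 : ∀ n : ℕ, ∫ x, f' x ∂(ν.map (XC d T n)) = ∫ z, f' (XC d T n z) ∂ν := fun n =>
      integral_map (XC_meas n).aemeasurable f'.continuous.measurable.aestronglyMeasurable
  simp_rw [e1] at h1
  have e2 : ∀ (n : ℕ) (z : ℕ → V d), F (UniformFun.ofFun (fun t : Set.Icc (0 : ℝ) T =>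
      scaled z n t.1)) = f' (XC d T n z) := by
    intro n z
    have : (fun t : Set.Icc (0 : ℝ) T => scaled z n t.1) = (XC d T n z) := by
      funext t
      exact scaled_eq_lerp z n t.1
    rw [this]
    rfl
  simp_rw [e2]
  exact h1

end

end WL

/-- Weak convergence on path space. `ν` is the law of a lattice path started at `0`.
The hypotheses are convergence of the characteristic functions of the finite dimensional
distributions (rational times and frequencies) and an oscillation bound, both along the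
subsequence `n = k^20`; the norm on `V d` is the sup norm. -/
theorem weak_limit {d : ℕ} (ν : Measure (ℕ → V d)) [IsProbabilityMeasure ν]
    (h0 : ∀ᵐ z ∂ν, z 0 = 0) (S : Matrix (Fin d) (Fin d) ℝ)
    {Ω' : Type} [MeasurableSpace Ω'] (P' : Measure Ω') [IsProbabilityMeasure P']
    (W : ℝ → Ω' → (Fin d → ℝ)) (hW : IsBM S P' W)
    (fdd : ∀ (m : ℕ) (t : Fin m → ℚ) (θ : Fin m → Fin d → ℚ), (∀ j, 0 ≤ t j) →
      Tendsto (fun k : ℕ => ∫ z, Complex.exp (Complex.I *
          ((∑ j, ∑ a, (θ j a : ℝ) * (((z ⌊(t j : ℝ) * (k : ℝ) ^ 20⌋₊ a : ℤ) : ℝ) / (k : ℝ) ^ 10)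
            : ℝ) : ℂ)) ∂ν) atTop
        (nhds (Complex.exp (-((∑ j, ∑ l, min (t j : ℝ) (t l : ℝ) *
            (∑ a, ∑ b, (θ j a : ℝ) * S a b * (θ l b : ℝ)) : ℝ) : ℂ) / 2))))
    (osc : ∀ T : ℕ, ∀ ε > (0 : ℝ), ∀ η > (0 : ℝ), ∃ δ > (0 : ℝ), ∀ᶠ k : ℕ in atTop,
      ν {z | ∃ i j : ℕ, (i : ℝ) ≤ T * (k : ℝ) ^ 20 ∧ i ≤ j ∧ (j : ℝ) ≤ i + δ * (k : ℝ) ^ 20 ∧
        ε * (k : ℝ) ^ 10 < ‖z j - z i‖} ≤ ENNReal.ofReal η)
    (T : ℝ) (hT : 0 < T) (F : UniformFun (Set.Icc (0 : ℝ) T) (Fin d → ℝ) → ℝ)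
    (hF : Continuous F) (hb : ∃ C : ℝ, ∀ f, |F f| ≤ C) :
    Tendsto (fun n : ℕ => ∫ z, F (UniformFun.ofFun (fun t : Set.Icc (0 : ℝ) T =>
        scaled z n t.1)) ∂ν) atTop
      (nhds (∫ ω', F (UniformFun.ofFun (fun t : Set.Icc (0 : ℝ) T => W t.1 ω')) ∂P')) :=
  WL.weak_limit_aux h0 osc fdd hW hT.le F hF hb

end Pool.Agent.Lib.QIP
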