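import Pool.Agent.Lib.QIP.WeakDet

/-!
# Probabilistic comparison, and convergence of the finite dimensional distributions
-/

set_option autoImplicit false

open MeasureTheory ProbabilityTheory Filter
open scoped ENNReal NNReal Topology BigOperators

namespace Pool.Agent.Lib.QIP

lemma ev_conditions {T δ A : ℝ} (hδ : 0 < δ) :
    ∀ᶠ k : ℕ in atTop, 0 < k ∧ 2 ≤ δ / 3 * (k : ℝ) ^ 20 ∧
      T * (((k : ℝ) + 1) ^ 20 - (k : ℝ) ^ 20) ≤ δ / 3 * (k : ℝ) ^ 20 ∧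
      A * (1 - ((k : ℝ) / (k + 1)) ^ 10) ≤ 1 := by
  have h1 : Tendsto (fun k : ℕ => (k : ℝ) / (k + 1)) atTop (𝓝 1) :=
    tendsto_natCast_div_add_atTop (1 : ℝ)
  have h2 : Tendsto (fun k : ℕ => A * (1 - ((k : ℝ) / (k + 1)) ^ 10)) atTop (𝓝 0) := by
    have := (tendsto_const_nhds (x := A)).mul ((tendsto_const_nhds (x := (1 : ℝ))).sub (h1.pow 10))
    simpa using this
  have h3 : Tendsto (fun k : ℕ => T * ((((k : ℝ) / (k + 1))⁻¹) ^ 20 - 1)) atTop (𝓝 0) := by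
    have := (tendsto_const_nhds (x := T)).mul
      (((h1.inv₀ one_ne_zero).pow 20).sub (tendsto_const_nhds (x := (1 : ℝ))))
    simpa using this
  have h4 : Tendsto (fun k : ℕ => δ / 3 * (k : ℝ) ^ 20) atTop atTop := by
    refine Tendsto.const_mul_atTop (by positivity) ?_
    exact (tendsto_pow_atTop (by norm_num)).comp tendsto_natCast_atTop_atTop
  filter_upwards [eventually_gt_atTop 0, h4.eventually_ge_atTop 2,
    h3.eventually_le_const (show (0 : ℝ) < δ / 3 by positivity),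
    h2.eventually_le_const one_pos] with k hk ha hb hc
  refine ⟨hk, ha, ?_, hc⟩
  have hk' : (0 : ℝ) < k := by exact_mod_cast hk
  have e : (((k : ℝ) + 1) ^ 20 - (k : ℝ) ^ 20) = ((((k : ℝ) / (k + 1))⁻¹) ^ 20 - 1) * (k : ℝ) ^ 20 := by
    rw [inv_div, div_pow]
    field_simp
  rw [e, ← mul_assoc]
  gcongr

section
variable {d : ℕ} {ν : Measure (ℕ → V d)} [IsProbabilityMeasure ν]

/-- the oscillation hypothesis -/
def OscHyp {d : ℕ} (ν : Measure (ℕ → V d)) : Prop :=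
  ∀ T : ℕ, ∀ ε > (0 : ℝ), ∀ η > (0 : ℝ), ∃ δ > (0 : ℝ), ∀ᶠ k : ℕ in atTop,
      ν {z | ∃ i j : ℕ, (i : ℝ) ≤ T * (k : ℝ) ^ 20 ∧ i ≤ j ∧ (j : ℝ) ≤ i + δ * (k : ℝ) ^ 20 ∧
        ε * (k : ℝ) ^ 10 < ‖z j - z i‖} ≤ ENNReal.ofReal η

lemma prob_close (h0 : ∀ᵐ z ∂ν, z 0 = 0) (osc : OscHyp ν) {T : ℝ} (hT : 0 ≤ T) {ε η : ℝ}
    (hε : 0 < ε) (hη : 0 < η) :
    ∃ N0 : ℕ, ∀ N ≥ N0, ∀ᶠ k : ℕ in atTop, ∀ n : ℕ, (k : ℝ) ^ 20 ≤ n → (n : ℝ) ≤ ((k : ℝ) + 1) ^ 20 →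
      ν {z | ¬ ∀ t ∈ Set.Icc 0 T, ‖lerp (fun j => (1 / Real.sqrt n) • cz (z j)) (t * n) -
        lerp (grid z k N) (N * t)‖ ≤ ε} ≤ ENNReal.ofReal η := by
  obtain ⟨T', hT'⟩ := exists_nat_ge (T + 1)
  obtain ⟨δ, hδ, hosc⟩ := osc T' (ε / 2) (by positivity) η hη
  obtain ⟨N0, hN0⟩ := exists_nat_ge (3 / δ)
  refine ⟨max N0 1, fun N hN => ?_⟩
  have hN1 : N0 ≤ N := (le_max_left _ _).trans hN
  have hN2 : 0 < N := lt_of_lt_of_le one_pos ((le_max_right _ _).trans hN)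
  have hN3 : 3 ≤ δ * N := by
    have h1 : 3 / δ ≤ N := hN0.trans (by exact_mod_cast hN1)
    rw [div_le_iff₀ hδ] at h1
    linarith
  filter_upwards [hosc, ev_conditions (T := T) (A := 2 * T' / δ + 1) hδ] with k hk hc n hn1 hn2
  obtain ⟨hc1, hc2, hc3, hc4⟩ := hc
  refine le_trans ?_ hk
  have hz : ν {z | ¬ z 0 = 0} = 0 := ae_iff.1 h0
  refine le_trans (measure_mono (t := {z | ∃ i j : ℕ, (i : ℝ) ≤ T' * (k : ℝ) ^ 20 ∧ i ≤ j ∧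
    (j : ℝ) ≤ i + δ * (k : ℝ) ^ 20 ∧ ε / 2 * (k : ℝ) ^ 10 < ‖z j - z i‖} ∪ {z | ¬ z 0 = 0}) ?_) ?_
  · intro z hzz
    by_contra hcon
    simp only [Set.mem_union, Set.mem_ofPred_eq, not_or, not_exists, not_and, not_lt,
      not_not] at hcon hzz
    obtain ⟨hG, hz0⟩ := hcon
    apply hzz
    intro t ht
    have := det_est (z := z) (ε := ε / 2) (n := n) hT hT' hδ (by positivity) hc1 hN2 hN3 hc2 hc3 hc4
      hn1 hn2 (fun i j h1 h2 h3 => hG i j h1 h2 h3) hz0 ht.1 ht.2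
    linarith
  · refine (measure_union_le _ _).trans ?_
    rw [hz, add_zero]

lemma tight_est (h0 : ∀ᵐ z ∂ν, z 0 = 0) (osc : OscHyp ν) (T' : ℕ) {η : ℝ} (hη : 0 < η) :
    ∃ A : ℝ, 0 < A ∧ ∀ᶠ k : ℕ in atTop,
      ν {z | ¬ ∀ b : ℕ, (b : ℝ) ≤ T' * (k : ℝ) ^ 20 → ‖z b‖ ≤ A * (k : ℝ) ^ 10} ≤
        ENNReal.ofReal η := by
  obtain ⟨δ, hδ, hosc⟩ := osc T' 1 one_pos η hη
  refine ⟨2 * T' / δ + 1, by positivity, ?_⟩
  filter_upwards [hosc, ev_conditions (T := 0) (A := 0) hδ] with k hk hc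
  obtain ⟨hc1, hc2, hc3, hc4⟩ := hc
  refine le_trans ?_ hk
  have hz : ν {z | ¬ z 0 = 0} = 0 := ae_iff.1 h0
  refine le_trans (measure_mono (t := {z | ∃ i j : ℕ, (i : ℝ) ≤ T' * (k : ℝ) ^ 20 ∧ i ≤ j ∧
    (j : ℝ) ≤ i + δ * (k : ℝ) ^ 20 ∧ 1 * (k : ℝ) ^ 10 < ‖z j - z i‖} ∪ {z | ¬ z 0 = 0}) ?_) ?_
  · intro z hzz
    by_contra hcon
    simp only [Set.mem_union, Set.mem_ofPred_eq, not_or, not_exists, not_and, not_lt,
      not_not] at hcon hzz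
    obtain ⟨hG, hz0⟩ := hcon
    apply hzz
    intro b hb
    have hk20 : 0 ≤ (k : ℝ) ^ 20 := by positivity
    have := good_chain (z := z) (ε := 1) hδ one_pos (fun i j h1 h2 h3 => hG i j h1 h2 h3) hz0
      (by nlinarith) hb
    simpa using this
  · refine (measure_union_le _ _).trans ?_
    rw [hz, add_zero]

end

end Pool.Agent.Lib.QIP
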